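import Pool.Agent.Helper17.FurstPQ

/-!
Rotations of measures invariant under multiplication by two multiplicatively independent integers,
compared with all measures invariant under a third multiplication.
-/

set_option autoImplicit false
open Filter Topology MeasureTheory Helper17.FurstPQ
open scoped ENNReal

namespace Helper17.TranslM

/-- multiplication on the circle -/
def T (n : ℕ) : UnitAddCircle → UnitAddCircle := fun x => n • x

lemma continuous_T (n : ℕ) : Continuous (T n) := by unfold T; fun_prop
lemma measurable_T (n : ℕ) : Measurable (T n) := (continuous_T n).measurable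

lemma T_comm (m n : ℕ) (x : UnitAddCircle) : T m (T n x) = T n (T m x) := by
  unfold T; rw [smul_comm]

instance instProb : IsProbabilityMeasure (volume : Measure UnitAddCircle) :=
  ⟨UnitAddCircle.measure_univ⟩

lemma integrable_cont (μ : Measure UnitAddCircle) [IsFiniteMeasure μ]
    {E : Type*} [NormedAddCommGroup E] {f : UnitAddCircle → E} (hf : Continuous f)
    [SecondCountableTopologyEither UnitAddCircle E] : Integrable f μ :=
  hf.integrable_of_hasCompactSupport (HasCompactSupport.of_compactSpace f)

lemma continuous_conv (μ : Measure UnitAddCircle) [IsProbabilityMeasure μ]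
    (φ : C(UnitAddCircle, ℝ)) : Continuous fun β : UnitAddCircle => ∫ x, φ (x + β) ∂μ := by
  have := continuous_parametric_integral_of_continuous (μ := μ)
    (f := fun (β x : UnitAddCircle) => φ (x + β)) (s := Set.univ) (by fun_prop) isCompact_univ
  simpa using this

/-! ### points with equidistributed orbits -/

/-- characters along the orbit, averaged over square times -/
noncomputable def av (n : ℕ) (m : ℤ) (N : ℕ) (x : UnitAddCircle) : ℂ :=
  (N : ℂ)⁻¹ * ∑ j ∈ Finset.range N, fourier m ((T n)^[j] x)

/-- points with equidistributed orbits (along square times) -/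
def Gen (n : ℕ) : Set UnitAddCircle :=
  {x | ∀ m : ℤ, m ≠ 0 → Tendsto (fun k : ℕ => av n m (k ^ 2) x) atTop (𝓝 0)}

lemma iterate_T (n j : ℕ) (x : UnitAddCircle) : (T n)^[j] x = (n ^ j) • x := by
  induction j generalizing x with
  | zero => simp
  | succ j ih => rw [Function.iterate_succ_apply, ih, T, smul_smul, ← pow_succ]

lemma continuous_av (n : ℕ) (m : ℤ) (N : ℕ) : Continuous (av n m N) := by
  unfold av
  simp only [iterate_T]
  fun_prop

lemma norm_fourier (m : ℤ) (x : UnitAddCircle) : ‖fourier m x‖ = 1 := by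
  rw [fourier_apply]; exact Circle.norm_coe _

lemma norm_av_le (n : ℕ) (m : ℤ) (N : ℕ) (x : UnitAddCircle) : ‖av n m N x‖ ≤ 1 := by
  unfold av
  rw [norm_mul, norm_inv, Complex.norm_natCast]
  have h : ‖∑ j ∈ Finset.range N, fourier m ((T n)^[j] x)‖ ≤ N := by
    refine (norm_sum_le _ _).trans ?_
    simp only [norm_fourier]
    simp
  rcases Nat.eq_zero_or_pos N with h0 | h0
  · subst h0; simp
  · have hN : (0:ℝ) < N := by exact_mod_cast h0
    rw [inv_mul_le_iff₀ hN, mul_one]
    exact h

lemma measurable_Gen (n : ℕ) : MeasurableSet (Gen n) := by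
  have : Gen n = ⋂ m : ℤ, ⋂ _ : m ≠ 0, {x | Tendsto (fun k : ℕ => av n m (k ^ 2) x) atTop (𝓝 0)} := by
    ext x; simp [Gen]
  rw [this]
  refine MeasurableSet.iInter fun m => MeasurableSet.iInter fun _ => ?_
  exact measurableSet_tendsto _ (fun k => (continuous_av n m _).measurable)

lemma av_T (n : ℕ) (m : ℤ) (N : ℕ) (x : UnitAddCircle) :
    ‖av n m N (T n x) - av n m N x‖ ≤ 2 * (N : ℝ)⁻¹ := by
  unfold av
  rw [← mul_sub, norm_mul, norm_inv, Complex.norm_natCast, mul_comm]
  apply mul_le_mul_of_nonneg_right _ (by positivity)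
  have e : ∑ j ∈ Finset.range N, fourier m ((T n)^[j] (T n x)) =
      ∑ j ∈ Finset.range N, fourier m ((T n)^[j + 1] x) := by
    refine Finset.sum_congr rfl fun j _ => ?_
    rw [Function.iterate_succ_apply]
  rw [e, ← Finset.sum_sub_distrib, Finset.sum_range_sub (fun j => fourier m ((T n)^[j] x))]
  calc ‖fourier m ((T n)^[N] x) - fourier m ((T n)^[0] x)‖ ≤
      ‖fourier m ((T n)^[N] x)‖ + ‖fourier m ((T n)^[0] x)‖ := norm_sub_le _ _
    _ = 2 := by rw [norm_fourier, norm_fourier]; norm_num

lemma Gen_T (n : ℕ) (x : UnitAddCircle) : T n x ∈ Gen n ↔ x ∈ Gen n := by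
  have key : ∀ m : ℤ, Tendsto (fun k : ℕ => av n m (k ^ 2) (T n x) - av n m (k ^ 2) x) atTop
      (𝓝 0) := by
    intro m
    refine squeeze_zero_norm (fun k => av_T n m _ x) ?_
    have h1 : Tendsto (fun k : ℕ => ((k ^ 2 : ℕ) : ℝ)) atTop atTop :=
      tendsto_natCast_atTop_atTop.comp (tendsto_pow_atTop two_ne_zero)
    have := (tendsto_inv_atTop_zero.comp h1).const_mul 2
    simpa using this
  constructor
  · intro h m hm
    have := (h m hm).sub (key m)
    simpa using this
  · intro h m hm
    have := (h m hm).add (key m)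
    simpa using this

lemma Gen_inv (n : ℕ) : T n ⁻¹' (Gen n) = Gen n := by
  ext x; exact Gen_T n x

/-- a measure invariant under `T n` and carried by generic points is a multiple of Lebesgue -/
lemma integral_Gen {n : ℕ} {ν : Measure UnitAddCircle} [IsProbabilityMeasure ν]
    (hν : MeasurePreserving (T n) ν ν) {m : ℤ} (hm : m ≠ 0) :
    ∫ x in Gen n, fourier m x ∂ν = 0 := by
  have hres : MeasurePreserving (T n) (ν.restrict (Gen n)) (ν.restrict (Gen n)) := by
    have := hν.restrict_preimage (measurable_Gen n)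
    rwa [Gen_inv] at this
  have h1 : ∀ j : ℕ, ∫ x in Gen n, fourier m ((T n)^[j] x) ∂ν = ∫ x in Gen n, fourier m x ∂ν := by
    intro j
    have h2 := hres.iterate j
    have := integral_map (μ := ν.restrict (Gen n)) h2.measurable.aemeasurable
      (f := fun x => (fourier m x : ℂ)) (by
        have : Continuous fun x : UnitAddCircle => (fourier m x : ℂ) := by fun_prop
        exact this.aestronglyMeasurable)
    rw [h2.map_eq] at this
    exact this.symm
  have h3 : ∀ N : ℕ, 0 < N → ∫ x in Gen n, av n m N x ∂ν = ∫ x in Gen n, fourier m x ∂ν := by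
    intro N hN
    unfold av
    rw [integral_const_mul, integral_finsetSum]
    · simp only [h1]
      rw [Finset.sum_const, Finset.card_range, nsmul_eq_mul, ← mul_assoc,
        inv_mul_cancel₀ (by exact_mod_cast hN.ne'), one_mul]
    · intro j _
      simp only [iterate_T]
      exact integrable_cont _ (by fun_prop)
  have h4 : Tendsto (fun k : ℕ => ∫ x in Gen n, av n m (k ^ 2) x ∂ν) atTop
      (𝓝 (∫ _x in Gen n, (0:ℂ) ∂ν)) := by
    refine tendsto_integral_of_dominated_convergence (fun _ => (1:ℝ))
      (fun k => (continuous_av n m _).aestronglyMeasurable) (integrable_const _)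
      (fun k => Eventually.of_forall fun x => norm_av_le n m _ x) ?_
    filter_upwards [ae_restrict_mem (measurable_Gen n)] with x hx
    exact hx m hm
  rw [integral_zero] at h4
  have h5 : Tendsto (fun k : ℕ => ∫ x in Gen n, av n m (k ^ 2) x ∂ν) atTop
      (𝓝 (∫ x in Gen n, fourier m x ∂ν)) := by
    refine tendsto_const_nhds.congr' ?_
    filter_upwards [eventually_gt_atTop 0] with k hk
    exact (h3 _ (by positivity)).symm
  exact tendsto_nhds_unique h5 h4

/-- finite measures with the same Fourier coefficients are equal -/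
lemma eq_of_fourier {ρ σ : Measure UnitAddCircle} [IsFiniteMeasure ρ] [IsFiniteMeasure σ]
    (h : ∀ m : ℤ, ∫ x, (fourier m x : ℂ) ∂ρ = ∫ x, (fourier m x : ℂ) ∂σ) : ρ = σ := by
  have hcont : ∀ τ : Measure UnitAddCircle, ∀ _ : IsFiniteMeasure τ,
      Continuous fun f : C(UnitAddCircle, ℂ) => ∫ x, f x ∂τ := by
    intro τ hτ
    have h1 : LipschitzWith (τ.real Set.univ).toNNReal
        fun f : C(UnitAddCircle, ℂ) => ∫ x, f x ∂τ := by
      apply LipschitzWith.of_dist_le_mul
      intro f g
      rw [dist_eq_norm, dist_eq_norm, ← integral_sub (integrable_cont τ f.continuous)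
        (integrable_cont τ g.continuous)]
      refine (norm_integral_le_of_norm_le_const (C := ‖f - g‖)
        (Eventually.of_forall fun x => (f - g).norm_coe_le_norm x)).trans ?_
      rw [mul_comm, Real.coe_toNNReal _ measureReal_nonneg]
    exact h1.continuous
  let S : Submodule ℂ C(UnitAddCircle, ℂ) :=
    { carrier := {f | ∫ x, f x ∂ρ = ∫ x, f x ∂σ}
      add_mem' := by
        intro f g hf hg
        simp only [Set.mem_ofPred_eq, ContinuousMap.coe_add, Pi.add_apply] at hf hg ⊢
        rw [integral_add (integrable_cont ρ f.continuous) (integrable_cont ρ g.continuous),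
          integral_add (integrable_cont σ f.continuous) (integrable_cont σ g.continuous), hf, hg]
      zero_mem' := by simp
      smul_mem' := by
        intro a f hf
        simp only [Set.mem_ofPred_eq, ContinuousMap.coe_smul, Pi.smul_apply, smul_eq_mul] at hf ⊢
        rw [integral_const_mul, integral_const_mul, hf] }
  have hSc : IsClosed (S : Set C(UnitAddCircle, ℂ)) :=
    isClosed_eq (hcont ρ inferInstance) (hcont σ inferInstance)
  have hS : (⊤ : Submodule ℂ C(UnitAddCircle, ℂ)) ≤ S := by
    rw [← span_fourier_closure_eq_top (T := 1)]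
    apply Submodule.topologicalClosure_minimal _ _ hSc
    rw [Submodule.span_le]
    rintro _ ⟨m, rfl⟩
    exact h m
  apply ext_of_forall_integral_eq_of_IsFiniteMeasure
  intro f
  let g : C(UnitAddCircle, ℂ) := ⟨fun x => (f x : ℂ), by fun_prop⟩
  have hg : ∫ x, g x ∂ρ = ∫ x, g x ∂σ := hS (Submodule.mem_top (x := g))
  have e : ∀ τ : Measure UnitAddCircle, ∫ x, g x ∂τ = ((∫ x, f x ∂τ : ℝ) : ℂ) := by
    intro τ
    exact integral_complex_ofReal
  rw [e, e] at hg
  exact_mod_cast hg

lemma vol_eq_haar : (volume : Measure UnitAddCircle) = AddCircle.haarAddCircle := by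
  rw [AddCircle.volume_eq_smul_haarAddCircle]
  simp

lemma integral_fourier_vol {m : ℤ} (hm : m ≠ 0) :
    ∫ x, (fourier m x : ℂ) ∂(volume : Measure UnitAddCircle) = 0 :=
  integral_eq_zero_of_add_right_eq_neg (μ := (volume : Measure UnitAddCircle))
    (fourier_add_half_inv_index hm one_pos)

lemma restrict_Gen {n : ℕ} {ν : Measure UnitAddCircle} [IsProbabilityMeasure ν]
    (hν : MeasurePreserving (T n) ν ν) :
    ν.restrict (Gen n) = ν (Gen n) • (volume : Measure UnitAddCircle) := by
  have hfin : IsFiniteMeasure (ν (Gen n) • (volume : Measure UnitAddCircle)) :=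
    Measure.smul_finite _ (measure_ne_top _ _)
  apply eq_of_fourier
  intro m
  rw [integral_smul_measure]
  by_cases hm : m = 0
  · subst hm
    simp [measureReal_def]
  · rw [integral_Gen hν hm, integral_fourier_vol hm, smul_zero]

/-- a Lebesgue null set of generic points is null -/
lemma null_Gen {n : ℕ} {ν : Measure UnitAddCircle} [IsProbabilityMeasure ν]
    (hν : MeasurePreserving (T n) ν ν) {F : Set UnitAddCircle} (hF : MeasurableSet F)
    (hF0 : (volume : Measure UnitAddCircle) F = 0) : ν (Gen n ∩ F) = 0 := by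
  have h := congrArg (fun ρ : Measure UnitAddCircle => ρ F) (restrict_Gen hν)
  simp only [Measure.smul_apply, hF0, smul_eq_mul, mul_zero] at h
  rwa [Measure.restrict_apply hF, Set.inter_comm] at h

/-- Lebesgue almost every point is generic -/
lemma vol_Gen {n : ℕ} (hn : 2 ≤ n) : (volume : Measure UnitAddCircle) (Gen n)ᶜ = 0 := by
  have hkey : ∀ m : ℤ, m ≠ 0 → ∀ᵐ x ∂(volume : Measure UnitAddCircle),
      Tendsto (fun k : ℕ => av n m (k ^ 2) x) atTop (𝓝 0) := by
    intro m hm
    -- the second moment
    have h2 : ∀ N : ℕ, ∫ x, ‖av n m N x‖ ^ 2 ∂(volume : Measure UnitAddCircle) ≤ (N : ℝ)⁻¹ := by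
      intro N
      have e1 : ∀ x, ((‖av n m N x‖ ^ 2 : ℝ) : ℂ) = (N : ℂ)⁻¹ * (N : ℂ)⁻¹ *
          ∑ i ∈ Finset.range N, ∑ j ∈ Finset.range N,
            (fourier (m * ((n : ℤ) ^ i - (n : ℤ) ^ j)) x : ℂ) := by
        intro x
        rw [Complex.ofReal_pow, ← Complex.mul_conj']
        unfold av
        rw [map_mul, map_inv₀, Complex.conj_natCast, map_sum, mul_mul_mul_comm,
          Finset.sum_mul_sum]
        congr 1
        refine Finset.sum_congr rfl fun i _ => Finset.sum_congr rfl fun j _ => ?_
        rw [← fourier_neg, iterate_T, iterate_T]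
        have e3 : ∀ (l : ℤ) (k : ℕ), (fourier l (k • x) : ℂ) = fourier (l * k) x := by
          intro l k
          rw [fourier_apply, fourier_apply, ← natCast_zsmul, smul_smul]
        have e4 : m * ((n ^ i : ℕ) : ℤ) + -m * ((n ^ j : ℕ) : ℤ) =
            m * ((n : ℤ) ^ i - (n : ℤ) ^ j) := by push_cast; ring
        rw [e3, e3, ← fourier_add, e4]
      have e2 : ((∫ x, ‖av n m N x‖ ^ 2 ∂(volume : Measure UnitAddCircle) : ℝ) : ℂ) =
          (N : ℂ)⁻¹ * (N : ℂ)⁻¹ * ∑ i ∈ Finset.range N, ∑ j ∈ Finset.range N,
            (if i = j then (1:ℂ) else 0) := by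
        rw [← integral_complex_ofReal]
        simp only [e1]
        rw [integral_const_mul, integral_finsetSum]
        · congr 1
          refine Finset.sum_congr rfl fun i _ => ?_
          rw [integral_finsetSum]
          · refine Finset.sum_congr rfl fun j _ => ?_
            split_ifs with hij
            · subst hij
              simp
            · apply integral_fourier_vol
              apply mul_ne_zero hm
              rw [sub_ne_zero]
              intro h
              apply hij
              have h' : n ^ i = n ^ j := by exact_mod_cast h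
              exact Nat.pow_right_injective hn h'
          · intro j _
            exact integrable_cont _ (by fun_prop)
        · intro i _
          exact integrable_cont _ (by fun_prop)
      have e3 : ∑ i ∈ Finset.range N, ∑ j ∈ Finset.range N, (if i = j then (1:ℂ) else 0) = N := by
        have : ∀ i ∈ Finset.range N, ∑ j ∈ Finset.range N, (if i = j then (1:ℂ) else 0) = 1 := by
          intro i hi
          rw [Finset.sum_ite_eq, if_pos hi]
        rw [Finset.sum_congr rfl this]
        simp
      rw [e3] at e2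
      rcases Nat.eq_zero_or_pos N with h0 | h0
      · subst h0
        simp [av]
      · have hN : (N : ℂ) ≠ 0 := by exact_mod_cast h0.ne'
        rw [mul_assoc, inv_mul_cancel₀ hN, mul_one] at e2
        apply le_of_eq
        apply Complex.ofReal_injective
        rw [e2]
        push_cast
        rfl
    -- summability
    have hmeas : ∀ k : ℕ, Measurable fun x : UnitAddCircle =>
        ENNReal.ofReal (‖av n m (k ^ 2) x‖ ^ 2) := by
      intro k
      have := continuous_av n m (k ^ 2)
      exact (this.norm.pow 2).measurable.ennreal_ofReal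
    have h3 : ∀ᵐ x ∂(volume : Measure UnitAddCircle),
        ∑' k : ℕ, ENNReal.ofReal (‖av n m (k ^ 2) x‖ ^ 2) < ∞ := by
      apply ae_lt_top
      · exact Measurable.tsum hmeas
      · rw [lintegral_tsum fun k => (hmeas k).aemeasurable]
        have h4 : ∀ k : ℕ, ∫⁻ x, ENNReal.ofReal (‖av n m (k ^ 2) x‖ ^ 2)
            ∂(volume : Measure UnitAddCircle) ≤ ENNReal.ofReal (((k:ℝ) ^ 2)⁻¹) := by
          intro k
          rw [← ofReal_integral_eq_lintegral_ofReal]
          · apply ENNReal.ofReal_le_ofReal
            have := h2 (k ^ 2)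
            push_cast at this
            exact this
          · exact integrable_cont _ ((continuous_av n m _).norm.pow 2)
          · exact Eventually.of_forall fun x => by positivity
        refine ne_top_of_le_ne_top ?_ (ENNReal.tsum_le_tsum h4)
        rw [← ENNReal.ofReal_tsum_of_nonneg (fun k => by positivity)
          (Real.summable_nat_pow_inv.mpr one_lt_two)]
        exact ENNReal.ofReal_ne_top
    filter_upwards [h3] with x hx
    have h5 := ENNReal.tendsto_atTop_zero_of_tsum_ne_top hx.ne
    have h6 : Tendsto (fun k : ℕ => ‖av n m (k ^ 2) x‖ ^ 2) atTop (𝓝 0) := by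
      have := (ENNReal.tendsto_toReal (ENNReal.zero_ne_top)).comp h5
      simp only [ENNReal.toReal_zero] at this
      refine this.congr fun k => ?_
      simp only [Function.comp_apply]
      rw [ENNReal.toReal_ofReal (by positivity)]
    rw [tendsto_zero_iff_norm_tendsto_zero]
    have h7 := h6.sqrt
    rw [Real.sqrt_zero] at h7
    refine h7.congr fun k => ?_
    rw [Real.sqrt_sq (norm_nonneg _)]
  have hall : ∀ᵐ x ∂(volume : Measure UnitAddCircle), ∀ m : ℤ, m ≠ 0 →
      Tendsto (fun k : ℕ => av n m (k ^ 2) x) atTop (𝓝 0) := by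
    rw [ae_all_iff]
    intro m
    by_cases hm : m = 0
    · exact Eventually.of_forall fun x h => absurd hm h
    · filter_upwards [hkey m hm] with x hx _
      exact hx
  exact hall

/-- almost all rotations of a measure are carried by generic points -/
lemma rot_Gen {n : ℕ} (hn : 2 ≤ n) (μ : Measure UnitAddCircle) [IsProbabilityMeasure μ] :
    ∃ β : UnitAddCircle, μ ((fun x => x + β) ⁻¹' (Gen n)ᶜ) = 0 := by
  set s : Set (UnitAddCircle × UnitAddCircle) := (fun p => p.2 + p.1) ⁻¹' (Gen n)ᶜ with hs
  have hadd : Measurable fun p : UnitAddCircle × UnitAddCircle => p.2 + p.1 := by fun_prop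
  have hsm : MeasurableSet s := hadd (measurable_Gen n).compl
  have h1 : (μ.prod (volume : Measure UnitAddCircle)) (Prod.swap ⁻¹' s) = 0 := by
    rw [Measure.measure_prod_null (measurable_swap hsm)]
    refine Eventually.of_forall fun x => ?_
    have e : Prod.mk x ⁻¹' (Prod.swap ⁻¹' s) = (fun β => x + β) ⁻¹' (Gen n)ᶜ := by
      ext β; simp [hs]
    simp only [e, Pi.zero_apply]
    rw [measure_preimage_add]
    exact vol_Gen hn
  have h2 : ((volume : Measure UnitAddCircle).prod μ) s = 0 := by
    rw [← Measure.prod_swap, Measure.map_apply measurable_swap hsm]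
    exact h1
  have h3 := Measure.measure_ae_null_of_prod_null h2
  obtain ⟨β, hβ⟩ := h3.exists
  refine ⟨β, ?_⟩
  have e : Prod.mk β ⁻¹' s = (fun x => x + β) ⁻¹' (Gen n)ᶜ := by
    ext x; simp [hs]
  rw [← e]
  exact hβ

/-! ### rotations almost matching an invariant measure -/

/-- from continuous functions to sets -/
lemma sets_of_cont {ρ ν : Measure UnitAddCircle} [IsProbabilityMeasure ρ] [IsProbabilityMeasure ν]
    {ε : ℝ} (h : ∀ φ : C(UnitAddCircle, ℝ), (∀ x, 0 ≤ φ x ∧ φ x ≤ 1) →
      ε ≤ ∫ x, φ x ∂ρ + ∫ x, (1 - φ x) ∂ν) {B : Set UnitAddCircle} (hB : MeasurableSet B)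
    (hρ : ρ B = 0) (hν : ν Bᶜ = 0) : ε ≤ 0 := by
  apply le_of_forall_pos_le_add
  intro δ' hδ'
  set δ : ℝ := δ' / 2 with hδ
  have hδ0 : 0 < δ := by positivity
  have hρc : ρ Bᶜ = 1 := by rw [prob_compl_eq_one_iff hB]; exact hρ
  have hνc : ν B = 1 := by
    have := (prob_compl_eq_one_iff hB.compl).mpr hν
    rwa [compl_compl] at this
  have hlt : (1 : ℝ≥0∞) - ENNReal.ofReal δ < 1 :=
    ENNReal.sub_lt_self ENNReal.one_ne_top one_ne_zero (by simpa using hδ0)
  obtain ⟨C1, hC1B, hC1c, hC1⟩ := hB.compl.exists_lt_isCompact (μ := ρ) (by rw [hρc]; exact hlt)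
  obtain ⟨C2, hC2B, hC2c, hC2⟩ := hB.exists_lt_isCompact (μ := ν) (by rw [hνc]; exact hlt)
  obtain ⟨φ, hφ0, hφ1, hφ⟩ := exists_continuous_zero_one_of_isClosed hC1c.isClosed
    hC2c.isClosed (Set.disjoint_of_subset hC1B hC2B disjoint_compl_left)
  have hφ' : ∀ x, 0 ≤ φ x ∧ φ x ≤ 1 := hφ
  have aux : ∀ (τ : Measure UnitAddCircle) (_ : IsProbabilityMeasure τ) (C : Set UnitAddCircle)
      (_ : IsCompact C) (_ : 1 - ENNReal.ofReal δ < τ C) (g : UnitAddCircle → ℝ)
      (_ : Continuous g) (_ : ∀ x, g x ≤ 1) (_ : ∀ x ∈ C, g x ≤ 0), ∫ x, g x ∂τ ≤ δ := by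
    intro τ hτ C hCc hC g hg hg1 hg0
    have hCm := hCc.isClosed.measurableSet
    have h2 : ∫ x, g x ∂τ ≤ ∫ x, (Cᶜ).indicator (1 : UnitAddCircle → ℝ) x ∂τ := by
      apply integral_mono (integrable_cont τ hg)
        ((integrable_const (1:ℝ)).indicator hCm.compl)
      intro x
      by_cases hx : x ∈ C
      · rw [Set.indicator_of_notMem (by simpa using hx)]
        exact hg0 x hx
      · rw [Set.indicator_of_mem (by simpa using hx)]
        exact hg1 x
    rw [integral_indicator_one hCm.compl] at h2
    refine h2.trans ?_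
    rw [measureReal_def, measure_compl hCm (measure_ne_top _ _), measure_univ]
    have h3 : 1 - τ C ≤ ENNReal.ofReal δ := by
      rw [tsub_le_iff_left]
      exact tsub_le_iff_right.mp hC.le
    calc (1 - τ C).toReal ≤ (ENNReal.ofReal δ).toReal := ENNReal.toReal_mono ENNReal.ofReal_ne_top h3
      _ = δ := ENNReal.toReal_ofReal hδ0.le
  have h1 : ∫ x, φ x ∂ρ ≤ δ := aux ρ inferInstance C1 hC1c hC1 φ φ.continuous
    (fun x => (hφ' x).2) (fun x hx => (hφ0 hx).le)
  have h2 : ∫ x, (1 - φ x) ∂ν ≤ δ := aux ν inferInstance C2 hC2c hC2 (fun x => 1 - φ x)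
    (by fun_prop) (fun x => by have := (hφ' x).1; linarith)
    (fun x hx => by
      have : φ x = 1 := hφ1 hx
      simp [this])
  have h3 := h φ hφ'
  rw [hδ] at h1 h2
  linarith

/-- rotations of `μ` almost matching a measure invariant under `T n` -/
def KM (n : ℕ) (μ : Measure UnitAddCircle) (ε : ℝ) : Set UnitAddCircle :=
  {β | ∃ ν : ProbabilityMeasure UnitAddCircle,
    (∀ f : C(UnitAddCircle, ℝ), ∫ x, f (T n x) ∂(ν : Measure UnitAddCircle) =
      ∫ x, f x ∂(ν : Measure UnitAddCircle)) ∧
    ∀ φ : C(UnitAddCircle, ℝ), (∀ x, 0 ≤ φ x ∧ φ x ≤ 1) →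
      ε ≤ ∫ x, φ (x + β) ∂μ + ∫ x, (1 - φ x) ∂(ν : Measure UnitAddCircle)}

lemma continuous_int (f : UnitAddCircle → ℝ) (hf : Continuous f) :
    Continuous fun ν : ProbabilityMeasure UnitAddCircle =>
      ∫ x, f x ∂(ν : Measure UnitAddCircle) := by
  let g : BoundedContinuousFunction UnitAddCircle ℝ := BoundedContinuousFunction.mkOfCompact ⟨f, hf⟩
  exact ProbabilityMeasure.continuous_iff_forall_continuous_integral.1 continuous_id g

lemma KM_closed (n : ℕ) (μ : Measure UnitAddCircle) [IsProbabilityMeasure μ] (ε : ℝ) :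
    IsClosed (KM n μ ε) := by
  set S : Set (UnitAddCircle × ProbabilityMeasure UnitAddCircle) :=
    {p | (∀ f : C(UnitAddCircle, ℝ), ∫ x, f (T n x) ∂(p.2 : Measure UnitAddCircle) =
      ∫ x, f x ∂(p.2 : Measure UnitAddCircle)) ∧
    ∀ φ : C(UnitAddCircle, ℝ), (∀ x, 0 ≤ φ x ∧ φ x ≤ 1) →
      ε ≤ ∫ x, φ (x + p.1) ∂μ + ∫ x, (1 - φ x) ∂(p.2 : Measure UnitAddCircle)} with hS
  have hSc : IsClosed S := by
    have e : S = (⋂ f : C(UnitAddCircle, ℝ),
        {p : UnitAddCircle × ProbabilityMeasure UnitAddCircle |
          ∫ x, f (T n x) ∂(p.2 : Measure UnitAddCircle) =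
          ∫ x, f x ∂(p.2 : Measure UnitAddCircle)}) ∩
        ⋂ φ : C(UnitAddCircle, ℝ), ⋂ _ : ∀ x, 0 ≤ φ x ∧ φ x ≤ 1,
        {p : UnitAddCircle × ProbabilityMeasure UnitAddCircle |
          ε ≤ ∫ x, φ (x + p.1) ∂μ + ∫ x, (1 - φ x) ∂(p.2 : Measure UnitAddCircle)} := by
      ext p
      simp [hS]
    rw [e]
    refine IsClosed.inter (isClosed_iInter fun f => ?_)
      (isClosed_iInter fun φ => isClosed_iInter fun _ => ?_)
    · exact isClosed_eq
        ((continuous_int _ (f.continuous.comp (continuous_T n))).comp continuous_snd)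
        ((continuous_int _ f.continuous).comp continuous_snd)
    · exact isClosed_le continuous_const (((continuous_conv μ φ).comp continuous_fst).add
        ((continuous_int (fun x => 1 - φ x) (by fun_prop)).comp continuous_snd))
  have e : KM n μ ε = Prod.fst '' S := by
    ext β
    constructor
    · rintro ⟨ν, h1, h2⟩
      exact ⟨(β, ν), ⟨h1, h2⟩, rfl⟩
    · rintro ⟨⟨β', ν⟩, ⟨h1, h2⟩, rfl⟩
      exact ⟨ν, h1, h2⟩
  rw [e]
  exact isClosedMap_fst_of_compactSpace _ hSc

lemma KM_inv {n N : ℕ} {μ : Measure UnitAddCircle} [IsProbabilityMeasure μ]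
    (hμ : MeasurePreserving (T N) μ μ) (ε : ℝ) {β : UnitAddCircle}
    (hβ : β ∈ KM n μ ε) : N • β ∈ KM n μ ε := by
  obtain ⟨ν, h1, h2⟩ := hβ
  refine ⟨ν.map (measurable_T N).aemeasurable, fun f => ?_, fun φ hφ => ?_⟩
  · have hc : Continuous fun x : UnitAddCircle => f (T n x) :=
      f.continuous.comp (continuous_T n)
    have e1 := integral_map (μ := (ν : Measure UnitAddCircle)) (measurable_T N).aemeasurable
      (f := fun x => f (T n x)) hc.aestronglyMeasurable
    rw [ProbabilityMeasure.toMeasure_map, e1,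
      integral_map (measurable_T N).aemeasurable f.continuous.aestronglyMeasurable]
    have := h1 (f.comp ⟨T N, continuous_T N⟩)
    simp only [ContinuousMap.comp_apply, ContinuousMap.coe_mk] at this
    rw [← this]
    simp only [T_comm n N]
  · have h3 := h2 (φ.comp ⟨T N, continuous_T N⟩) (fun x => hφ _)
    simp only [ContinuousMap.comp_apply, ContinuousMap.coe_mk] at h3
    rw [ProbabilityMeasure.toMeasure_map, integral_map (measurable_T N).aemeasurable
      (by
        have : Continuous fun x => 1 - φ x := by fun_prop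
        exact this.aestronglyMeasurable)]
    have e : ∫ x, φ (T N (x + β)) ∂μ = ∫ x, φ (x + N • β) ∂μ := by
      have hc : Continuous fun x : UnitAddCircle => φ (x + N • β) := by fun_prop
      have := integral_map (μ := μ) (measurable_T N).aemeasurable (f := fun x => φ (x + N • β))
        hc.aestronglyMeasurable
      rw [hμ.map_eq] at this
      rw [this]
      simp only [T, smul_add]
    rw [e] at h3
    exact h3

lemma KM_ne_univ {n : ℕ} (hn : 2 ≤ n) {μ : Measure UnitAddCircle} [IsProbabilityMeasure μ]
    (hs : μ ⟂ₘ (volume : Measure UnitAddCircle)) {ε : ℝ} (hε : 0 < ε) :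
    KM n μ ε ≠ Set.univ := by
  intro huniv
  obtain ⟨E, hE, hE1, hE2⟩ := hs
  obtain ⟨β, hβ⟩ := rot_Gen hn μ
  obtain ⟨ν, h1, h2⟩ : β ∈ KM n μ ε := by rw [huniv]; trivial
  have hadd : Measurable fun x : UnitAddCircle => x + β := by fun_prop
  have hprob : IsProbabilityMeasure (μ.map (fun x => x + β)) :=
    Measure.isProbabilityMeasure_map hadd.aemeasurable
  -- invariance as measures
  have hν : MeasurePreserving (T n) (ν : Measure UnitAddCircle) ν := by
    refine ⟨measurable_T n, ?_⟩
    have hp : IsProbabilityMeasure ((ν : Measure UnitAddCircle).map (T n)) :=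
      Measure.isProbabilityMeasure_map (measurable_T n).aemeasurable
    apply ext_of_forall_integral_eq_of_IsFiniteMeasure
    intro f
    rw [integral_map (measurable_T n).aemeasurable f.continuous.aestronglyMeasurable]
    exact h1 f.toContinuousMap
  -- the carrier
  set F : Set UnitAddCircle := (fun x => x - β) ⁻¹' Eᶜ with hF
  have hsub : Measurable fun x : UnitAddCircle => x - β := by fun_prop
  have hFm : MeasurableSet F := hsub hE.compl
  have hFvol : (volume : Measure UnitAddCircle) F = 0 := by
    have e : F = (fun x => x + (-β)) ⁻¹' Eᶜ := by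
      ext x; simp [hF, sub_eq_add_neg]
    rw [e, measure_preimage_add_right]
    exact hE2
  have hνF := null_Gen hν hFm hFvol
  have h3 : (μ.map (fun x => x + β)) (Gen n ∩ F)ᶜ = 0 := by
    rw [Set.compl_inter]
    apply measure_union_null
    · rw [Measure.map_apply hadd (measurable_Gen n).compl]
      exact hβ
    · rw [Measure.map_apply hadd hFm.compl]
      have e : (fun x => x + β) ⁻¹' Fᶜ = E := by
        ext x; simp [hF]
      rw [e]
      exact hE1
  have h4 : ε ≤ 0 := by
    refine sets_of_cont (ρ := μ.map (fun x => x + β)) (ν := (ν : Measure UnitAddCircle))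
      (fun φ hφ => ?_) ((measurable_Gen n).inter hFm).compl h3 (by rw [compl_compl]; exact hνF)
    rw [integral_map hadd.aemeasurable φ.continuous.aestronglyMeasurable]
    exact h2 φ hφ
  linarith

section main

variable {P Q : ℕ}

lemma KM_finite (H : MI P Q) {n : ℕ} (hn : 2 ≤ n) {μ : Measure UnitAddCircle}
    [IsProbabilityMeasure μ] (hs : μ ⟂ₘ (volume : Measure UnitAddCircle))
    (hP : MeasurePreserving (T P) μ μ) (hQ : MeasurePreserving (T Q) μ μ) {ε : ℝ} (hε : 0 < ε) :
    (KM n μ ε).Finite := by
  by_contra hinf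
  exact KM_ne_univ hn hs hε (furstenberg H (KM_closed n μ ε) (fun x hx => KM_inv hP ε hx)
    (fun x hx => KM_inv hQ ε hx) hinf)

lemma mem_KM {n : ℕ} {μ ν : Measure UnitAddCircle} [IsProbabilityMeasure μ]
    [IsProbabilityMeasure ν] (hν : MeasurePreserving (T n) ν ν) {ε : ℝ} {β : UnitAddCircle}
    (h : ∀ B : Set UnitAddCircle, MeasurableSet B →
      2 * ε ≤ (μ.map (fun x => x + β)).real B + ν.real Bᶜ) : β ∈ KM n μ ε := by
  refine ⟨⟨ν, inferInstance⟩, fun f => ?_, fun φ hφ => ?_⟩
  · have := integral_map (μ := ν) (measurable_T n).aemeasurable (f := f)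
      f.continuous.aestronglyMeasurable
    rw [hν.map_eq] at this
    exact this.symm
  · simp only [ProbabilityMeasure.coe_mk]
    have hadd : Measurable fun x : UnitAddCircle => x + β := by fun_prop
    set B : Set UnitAddCircle := {x | 1 / 2 ≤ φ x} with hB
    have hBm : MeasurableSet B := measurableSet_le measurable_const φ.continuous.measurable
    have h1 := h B hBm
    have h2 : (μ.map (fun x => x + β)).real B ≤ 2 * ∫ x, φ (x + β) ∂μ := by
      rw [map_measureReal_apply hadd hBm]
      have hpre : MeasurableSet ((fun x : UnitAddCircle => x + β) ⁻¹' B) := hadd hBm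
      rw [← integral_indicator_one hpre, ← integral_const_mul]
      apply integral_mono ((integrable_const (1:ℝ)).indicator hpre)
        ((integrable_cont μ (by fun_prop)).const_mul _)
      intro x
      by_cases hx : x ∈ ((fun x : UnitAddCircle => x + β) ⁻¹' B)
      · rw [Set.indicator_of_mem hx]
        have : 1 / 2 ≤ φ (x + β) := hx
        simp only
        linarith
      · rw [Set.indicator_of_notMem hx]
        have := (hφ (x + β)).1
        simp only
        linarith
    have h3 : ν.real Bᶜ ≤ 2 * ∫ x, (1 - φ x) ∂ν := by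
      rw [← integral_indicator_one hBm.compl, ← integral_const_mul]
      apply integral_mono ((integrable_const (1:ℝ)).indicator hBm.compl)
        ((integrable_cont ν (by fun_prop)).const_mul _)
      intro x
      by_cases hx : x ∈ Bᶜ
      · rw [Set.indicator_of_mem hx]
        have : ¬ (1 / 2 ≤ φ x) := hx
        push Not at this
        simp only
        linarith
      · rw [Set.indicator_of_notMem hx]
        have := (hφ x).2
        simp only
        linarith
    linarith

/-- main theorem -/
theorem main (H : MI P Q) {μ : Measure UnitAddCircle} [IsProbabilityMeasure μ]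
    (hs : μ ⟂ₘ (volume : Measure UnitAddCircle))
    (hP : MeasurePreserving (T P) μ μ) (hQ : MeasurePreserving (T Q) μ μ)
    {n : ℕ} (hn : 2 ≤ n) :
    (∀ β : UnitAddCircle, (∀ k : ℕ, 0 < k → k • β ≠ 0) → ∀ ν : Measure UnitAddCircle,
      IsProbabilityMeasure ν → MeasurePreserving (T n) ν ν → μ.map (fun x => x + β) ⟂ₘ ν) ∧
    ∀ ε : ℝ, 0 < ε → {β : UnitAddCircle | ∃ ν : Measure UnitAddCircle,
      IsProbabilityMeasure ν ∧ MeasurePreserving (T n) ν ν ∧
      ∀ B : Set UnitAddCircle, MeasurableSet B →
        ε ≤ (μ.map (fun x => x + β)).real B + ν.real Bᶜ}.Finite := by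
  constructor
  · intro β hβ ν hνp hν
    have hadd : Measurable fun x : UnitAddCircle => x + β := by fun_prop
    have hprob : IsProbabilityMeasure (μ.map (fun x => x + β)) :=
      Measure.isProbabilityMeasure_map hadd.aemeasurable
    have hnot : ∀ ε : ℝ, 0 < ε → β ∉ KM n μ ε := by
      intro ε hε hmem
      have hInv : Inv P Q 1 (KM n μ ε) := by
        intro x hx
        rw [pow_one, pow_one]
        exact ⟨KM_inv hP ε hx, KM_inv hQ ε hx⟩
      exact infinite_of_nontors H le_rfl hInv hmem hβ (KM_finite H hn hs hP hQ hε)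
    have hex : ∀ k : ℕ, ∃ B : Set UnitAddCircle, MeasurableSet B ∧
        (μ.map (fun x => x + β)).real B + ν.real Bᶜ < (1 / 2 : ℝ) ^ k := by
      intro k
      by_contra hcon
      push Not at hcon
      refine hnot ((1 / 2 : ℝ) ^ k / 2) (by positivity) (mem_KM hν fun B hB => ?_)
      have := hcon B hB
      linarith
    choose B hB hBlt using hex
    have hgeo : ∑' k : ℕ, ENNReal.ofReal ((1 / 2 : ℝ) ^ k) ≠ ∞ := by
      rw [← ENNReal.ofReal_tsum_of_nonneg (fun n => by positivity)
        (summable_geometric_of_lt_one (by norm_num) (by norm_num))]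
      exact ENNReal.ofReal_ne_top
    have hsum1 : ∑' k, (μ.map (fun x => x + β)) (B k) ≠ ∞ := by
      refine ne_top_of_le_ne_top hgeo (ENNReal.tsum_le_tsum fun k => ?_)
      rw [← ofReal_measureReal]
      apply ENNReal.ofReal_le_ofReal
      have := hBlt k
      have h2 : 0 ≤ ν.real (B k)ᶜ := measureReal_nonneg
      linarith
    have hsum2 : ∑' k, ν (B k)ᶜ ≠ ∞ := by
      refine ne_top_of_le_ne_top hgeo (ENNReal.tsum_le_tsum fun k => ?_)
      rw [← ofReal_measureReal]
      apply ENNReal.ofReal_le_ofReal
      have := hBlt k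
      have h2 : 0 ≤ (μ.map (fun x => x + β)).real (B k) := measureReal_nonneg
      linarith
    have h1 := measure_limsup_atTop_eq_zero hsum1
    have h2 := measure_limsup_atTop_eq_zero hsum2
    refine ⟨limsup B atTop, MeasurableSet.measurableSet_limsup hB, h1, ?_⟩
    refine measure_mono_null ?_ h2
    intro x hx
    rw [Set.mem_compl_iff, mem_limsup_iff_frequently_mem, not_frequently] at hx
    rw [mem_limsup_iff_frequently_mem]
    exact (hx.mono fun n hn => hn).frequently
  · intro ε hε
    refine (KM_finite H hn hs hP hQ (ε := ε / 2) (by positivity)).subset ?_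
    rintro β ⟨ν, hνp, hν, hβ⟩
    exact mem_KM hν fun B hB => by
      have := hβ B hB
      linarith

end main

end Helper17.TranslM
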