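import Mathlib

set_option autoImplicit false
open scoped ComplexOrder BigOperators InnerProductSpace
open Finset Filter

namespace Helper17.FU

variable {G : Type*} [Group G]

/-- positive definite function on a group -/
def PD (ψ : G → ℂ) : Prop :=
  ∀ (s : Finset G) (c : G → ℂ), 0 ≤ ∑ i ∈ s, ∑ j ∈ s, star (c j) * c i * ψ (j⁻¹ * i)

/-- the set of normalised traces -/
def TR (G : Type*) [Group G] : Set (G → ℂ) :=
  {ψ : G → ℂ | ψ 1 = 1 ∧ (∀ g h : G, ψ (h * g * h⁻¹) = ψ g) ∧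
        ∀ (s : Finset G) (c : G → ℂ), 0 ≤ ∑ i ∈ s, ∑ j ∈ s, star (c j) * c i * ψ (j⁻¹ * i)}

/-- the sesquilinear form -/
noncomputable def form (φ : G → ℂ) (x y : G →₀ ℂ) : ℂ :=
  x.sum fun i a => y.sum fun j b => star a * b * φ (i⁻¹ * j)

lemma form_add_left (φ : G → ℂ) (x y z : G →₀ ℂ) :
    form φ (x + y) z = form φ x z + form φ y z := by
  unfold form
  refine Finsupp.sum_add_index' (fun i => ?_) (fun i a b => ?_)
  · simp [Finsupp.sum]
  · rw [← Finsupp.sum_add]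
    refine Finsupp.sum_congr (fun j _ => ?_)
    rw [star_add]; ring

lemma form_add_right (φ : G → ℂ) (x y z : G →₀ ℂ) :
    form φ x (y + z) = form φ x y + form φ x z := by
  unfold form
  rw [← Finsupp.sum_add]
  refine Finsupp.sum_congr (fun i _ => ?_)
  refine Finsupp.sum_add_index' (fun j => ?_) (fun j a b => ?_)
  · simp
  · ring

lemma form_smul_left (φ : G → ℂ) (x y : G →₀ ℂ) (r : ℂ) :
    form φ (r • x) y = star r * form φ x y := by
  unfold form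
  rw [Finsupp.sum_smul_index' (fun i => by simp [Finsupp.sum]), Finsupp.mul_sum]
  refine Finsupp.sum_congr (fun i _ => ?_)
  rw [Finsupp.mul_sum]
  refine Finsupp.sum_congr (fun j _ => ?_)
  rw [smul_eq_mul, star_mul']; ring

lemma form_smul_right (φ : G → ℂ) (x y : G →₀ ℂ) (r : ℂ) :
    form φ x (r • y) = r * form φ x y := by
  unfold form
  rw [Finsupp.mul_sum]
  refine Finsupp.sum_congr (fun i _ => ?_)
  rw [Finsupp.sum_smul_index' (fun i => by simp), Finsupp.mul_sum]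
  refine Finsupp.sum_congr (fun j _ => ?_)
  rw [smul_eq_mul]; ring

lemma form_single (φ : G → ℂ) (g h : G) (a b : ℂ) :
    form φ (Finsupp.single g a) (Finsupp.single h b) = star a * b * φ (g⁻¹ * h) := by
  unfold form
  rw [Finsupp.sum_single_index (by simp [Finsupp.sum]), Finsupp.sum_single_index (by simp)]

lemma form_zero_left (φ : G → ℂ) (x : G →₀ ℂ) : form φ 0 x = 0 := by simp [form]

lemma form_zero_right (φ : G → ℂ) (x : G →₀ ℂ) : form φ x 0 = 0 := by simp [form]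

lemma form_self_nonneg {φ : G → ℂ} (hφ : PD φ) (x : G →₀ ℂ) : 0 ≤ form φ x x := by
  have h := hφ x.support x
  rw [Finset.sum_comm] at h
  exact h

lemma pd_one {φ : G → ℂ} (hφ : PD φ) : 0 ≤ φ 1 := by
  have := form_self_nonneg hφ (Finsupp.single 1 1)
  rw [form_single] at this
  simpa using this

lemma pd_herm {φ : G → ℂ} (hφ : PD φ) (g : G) : φ g⁻¹ = star (φ g) := by
  have hi0 : (φ 1).im = 0 := (Complex.nonneg_iff.mp (pd_one hφ)).2.symm
  have key : ∀ a : ℂ, (a * φ g + star a * φ g⁻¹).im = 0 := by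
    intro a
    have h := form_self_nonneg hφ (Finsupp.single 1 1 + Finsupp.single g a)
    rw [form_add_left, form_add_right, form_add_right, form_single, form_single, form_single,
      form_single] at h
    have h2 := (Complex.nonneg_iff.mp h).2
    have h3 : (star a * a).im = 0 := by simp; ring
    have h4 : (star a * a * φ 1).im = 0 := by
      rw [Complex.mul_im, h3, hi0]; ring
    simp only [star_one, one_mul, mul_one, inv_one, inv_mul_cancel, Complex.add_im, hi0, h4] at h2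
    rw [Complex.add_im]
    linarith
  have h1 := key 1
  have h2 := key Complex.I
  simp at h1 h2
  apply Complex.ext
  · simp; linarith
  · simp; linarith

lemma form_herm {φ : G → ℂ} (hφ : PD φ) (x y : G →₀ ℂ) : star (form φ y x) = form φ x y := by
  induction x using Finsupp.induction_linear with
  | zero => rw [form_zero_left, form_zero_right, star_zero]
  | add x₁ x₂ h1 h2 => rw [form_add_left, form_add_right, star_add, h1, h2]
  | single g a =>
    induction y using Finsupp.induction_linear with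
    | zero => rw [form_zero_left, form_zero_right, star_zero]
    | add x₁ x₂ h1 h2 => rw [form_add_left, form_add_right, star_add, h1, h2]
    | single h b =>
      rw [form_single, form_single, star_mul', star_mul', star_star, ← pd_herm hφ, mul_inv_rev,
        inv_inv]
      ring

/-- the space carrying the form -/
def GV (_ : G → ℂ) := G →₀ ℂ

variable {φ : G → ℂ}

noncomputable instance : AddCommGroup (GV φ) := inferInstanceAs (AddCommGroup (G →₀ ℂ))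
noncomputable instance : Module ℂ (GV φ) := inferInstanceAs (Module ℂ (G →₀ ℂ))

/-- core of the pre-inner product space -/
@[reducible]
noncomputable def core (hφ : PD φ) : PreInnerProductSpace.Core ℂ (GV φ) where
  inner x y := form φ x y
  conj_inner_symm x y := form_herm hφ x y
  re_inner_nonneg x := (Complex.nonneg_iff.mp (form_self_nonneg hφ x)).1
  add_left x y z := form_add_left φ x y z
  smul_left x y r := form_smul_left φ x y r

noncomputable instance instSG [h : Fact (PD φ)] : SeminormedAddCommGroup (GV φ) :=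
  @InnerProductSpace.Core.toSeminormedAddCommGroup ℂ (GV φ) _ _ _ (core h.out)

noncomputable instance instIP [h : Fact (PD φ)] : InnerProductSpace ℂ (GV φ) :=
  InnerProductSpace.ofCore (core h.out)

/-- basis vector -/
noncomputable def dl (φ : G → ℂ) (g : G) : GV φ := Finsupp.single g (1 : ℂ)

lemma inner_eq [Fact (PD φ)] (x y : GV φ) : ⟪x, y⟫_ℂ = form φ x y := rfl

lemma inner_dl [Fact (PD φ)] (g h : G) : ⟪dl φ g, dl φ h⟫_ℂ = φ (g⁻¹ * h) := by
  rw [inner_eq, dl, dl, form_single]; simp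

/-- left translation -/
noncomputable def Lm (g : G) : GV φ →ₗ[ℂ] GV φ := Finsupp.lmapDomain ℂ ℂ (fun h => g * h)

/-- right translation -/
noncomputable def Rm (g : G) : GV φ →ₗ[ℂ] GV φ := Finsupp.lmapDomain ℂ ℂ (fun h => h * g)

/-- conjugation -/
noncomputable def Cm (g : G) : GV φ →ₗ[ℂ] GV φ := Finsupp.lmapDomain ℂ ℂ (fun h => g * h * g⁻¹)

lemma Lm_dl (g h : G) : Lm g (dl φ h) = dl φ (g * h) := by
  exact Finsupp.mapDomain_single

lemma Rm_dl (g h : G) : Rm g (dl φ h) = dl φ (h * g) := by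
  exact Finsupp.mapDomain_single

lemma Cm_dl (g h : G) : Cm g (dl φ h) = dl φ (g * h * g⁻¹) := by
  exact Finsupp.mapDomain_single

omit [Group G] in
/-- linear maps agreeing on basis vectors agree -/
lemma ext_dl {W : Type*} [AddCommMonoid W] [Module ℂ W] {A B : GV φ →ₗ[ℂ] W}
    (h : ∀ g, A (dl φ g) = B (dl φ g)) : A = B := by
  have : (A : (G →₀ ℂ) →ₗ[ℂ] W) = (B : (G →₀ ℂ) →ₗ[ℂ] W) := by
    apply Finsupp.lhom_ext'
    intro a
    ext
    exact h a
  exact this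

omit [Group G] in
lemma ind_dl {p : GV φ → Prop} (x : GV φ) (h0 : p 0) (hadd : ∀ x y, p x → p y → p (x + y))
    (hs : ∀ g (a : ℂ), p (a • dl φ g)) : p x := by
  have key : ∀ y : G →₀ ℂ, p y := by
    intro y
    induction y using Finsupp.induction_linear with
    | zero => exact h0
    | add x₁ x₂ h1 h2 => exact hadd _ _ h1 h2
    | single g a =>
      have := hs g a
      have e : (a • dl φ g : GV φ) = (Finsupp.single g a : G →₀ ℂ) := by
        show a • (Finsupp.single g (1 : ℂ)) = _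
        rw [Finsupp.smul_single, smul_eq_mul, mul_one]
      rw [e] at this
      exact this
  exact key x

lemma inner_Lm [Fact (PD φ)] (g : G) (x y : GV φ) : ⟪Lm g x, Lm g y⟫_ℂ = ⟪x, y⟫_ℂ := by
  refine ind_dl (p := fun x => ⟪Lm g x, Lm g y⟫_ℂ = ⟪x, y⟫_ℂ) x (by simp)
    (fun a b h1 h2 => by rw [map_add, inner_add_left, inner_add_left, h1, h2])
    (fun h a => ?_)
  refine ind_dl (p := fun y => ⟪Lm g (a • dl φ h), Lm g y⟫_ℂ = ⟪a • dl φ h, y⟫_ℂ) y (by simp)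
    (fun a b h1 h2 => by rw [map_add, inner_add_right, inner_add_right, h1, h2])
    (fun k b => ?_)
  rw [map_smul, map_smul, inner_smul_left, inner_smul_right, inner_smul_left, inner_smul_right,
    Lm_dl, Lm_dl, inner_dl, inner_dl]
  congr 3
  group

lemma inner_Rm [Fact (PD φ)] (hc : ∀ g h : G, φ (h * g * h⁻¹) = φ g) (g : G) (x y : GV φ) :
    ⟪Rm g x, Rm g y⟫_ℂ = ⟪x, y⟫_ℂ := by
  refine ind_dl (p := fun x => ⟪Rm g x, Rm g y⟫_ℂ = ⟪x, y⟫_ℂ) x (by simp)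
    (fun a b h1 h2 => by rw [map_add, inner_add_left, inner_add_left, h1, h2])
    (fun h a => ?_)
  refine ind_dl (p := fun y => ⟪Rm g (a • dl φ h), Rm g y⟫_ℂ = ⟪a • dl φ h, y⟫_ℂ) y (by simp)
    (fun a b h1 h2 => by rw [map_add, inner_add_right, inner_add_right, h1, h2])
    (fun k b => ?_)
  rw [map_smul, map_smul, inner_smul_left, inner_smul_right, inner_smul_left, inner_smul_right,
    Rm_dl, Rm_dl, inner_dl, inner_dl]
  congr 2
  rw [show (h * g)⁻¹ * (k * g) = g⁻¹ * (h⁻¹ * k) * (g⁻¹)⁻¹ by group]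
  exact hc _ _

lemma Cm_eq (g : G) (x : GV φ) : Cm g x = Rm g⁻¹ (Lm g x) := by
  have : (Cm g : GV φ →ₗ[ℂ] GV φ) = (Rm g⁻¹).comp (Lm g) := by
    apply ext_dl
    intro h
    rw [LinearMap.comp_apply, Lm_dl, Rm_dl, Cm_dl]
  rw [this]; rfl

lemma inner_Cm [Fact (PD φ)] (hc : ∀ g h : G, φ (h * g * h⁻¹) = φ g) (g : G) (x y : GV φ) :
    ⟪Cm g x, Cm g y⟫_ℂ = ⟪x, y⟫_ℂ := by
  rw [Cm_eq, Cm_eq, inner_Rm hc, inner_Lm]

lemma norm_of_inner [Fact (PD φ)] {x y : GV φ} (h : ⟪x, x⟫_ℂ = ⟪y, y⟫_ℂ) : ‖x‖ = ‖y‖ := by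
  have h1 := inner_self_eq_norm_sq (𝕜 := ℂ) x
  have h2 := inner_self_eq_norm_sq (𝕜 := ℂ) y
  rw [h] at h1
  have h3 : ‖x‖ ^ 2 = ‖y‖ ^ 2 := by rw [← h1, ← h2]
  exact (pow_left_inj₀ (norm_nonneg _) (norm_nonneg _) (by norm_num)).mp h3

lemma norm_Lm [Fact (PD φ)] (g : G) (x : GV φ) : ‖Lm g x‖ = ‖x‖ := norm_of_inner (inner_Lm g x x)

lemma norm_Rm [Fact (PD φ)] (hc : ∀ g h : G, φ (h * g * h⁻¹) = φ g) (g : G) (x : GV φ) :
    ‖Rm g x‖ = ‖x‖ := norm_of_inner (inner_Rm hc g x x)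

lemma norm_Cm [Fact (PD φ)] (hc : ∀ g h : G, φ (h * g * h⁻¹) = φ g) (g : G) (x : GV φ) :
    ‖Cm g x‖ = ‖x‖ := norm_of_inner (inner_Cm hc g x x)

lemma norm_dl [Fact (PD φ)] (h1 : φ 1 = 1) (g : G) : ‖dl φ g‖ = 1 := by
  have h := inner_self_eq_norm_sq (𝕜 := ℂ) (dl φ g)
  rw [inner_dl, inv_mul_cancel, h1] at h
  simp at h
  have h2 : ‖dl φ g‖ ^ 2 = 1 := by linarith
  exact (pow_eq_one_iff_of_nonneg (norm_nonneg _) (by norm_num)).mp h2

lemma Rm_Rm (g h : G) (x : GV φ) : Rm g (Rm h x) = Rm (h * g) x := by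
  have : ((Rm g).comp (Rm h) : GV φ →ₗ[ℂ] GV φ) = Rm (h * g) := by
    apply ext_dl
    intro k
    rw [LinearMap.comp_apply, Rm_dl, Rm_dl, Rm_dl, mul_assoc]
  rw [← this]; rfl

lemma Cm_Cm (g h : G) (x : GV φ) : Cm g (Cm h x) = Cm (g * h) x := by
  have : ((Cm g).comp (Cm h) : GV φ →ₗ[ℂ] GV φ) = Cm (g * h) := by
    apply ext_dl
    intro k
    rw [LinearMap.comp_apply, Cm_dl, Cm_dl, Cm_dl]
    congr 1; group
  rw [← this]; rfl

lemma Cm_one (x : GV φ) : Cm 1 x = x := by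
  have : (Cm 1 : GV φ →ₗ[ℂ] GV φ) = LinearMap.id := by
    apply ext_dl
    intro k
    rw [Cm_dl]; simp
  rw [this]; rfl

lemma Lm_Rm (g h : G) (x : GV φ) : Lm g (Rm h x) = Rm h (Lm g x) := by
  have : ((Lm g).comp (Rm h) : GV φ →ₗ[ℂ] GV φ) = (Rm h).comp (Lm g) := by
    apply ext_dl
    intro k
    rw [LinearMap.comp_apply, LinearMap.comp_apply, Rm_dl, Lm_dl, Lm_dl, Rm_dl, mul_assoc]
  have := congrArg (fun A : GV φ →ₗ[ℂ] GV φ => A x) this
  exact this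

/-- multiplication by an element on the left -/
noncomputable def mulL (x : GV φ) : GV φ →ₗ[ℂ] GV φ :=
  (x : G →₀ ℂ).sum fun i a => a • Lm i

/-- l1 norm -/
noncomputable def l1 (x : GV φ) : ℝ := (x : G →₀ ℂ).sum fun _ a => ‖a‖

lemma mulL_add (x y : GV φ) : mulL (x + y) = mulL x + mulL y := by
  unfold mulL
  exact Finsupp.sum_add_index' (fun i => by simp) (fun i a b => by rw [add_smul])

lemma mulL_smul_dl (a : ℂ) (g : G) : mulL (a • dl φ g) = a • (Lm g : GV φ →ₗ[ℂ] GV φ) := by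
  have e : (a • dl φ g : GV φ) = (Finsupp.single g a : G →₀ ℂ) := by
    show a • (Finsupp.single g (1 : ℂ)) = _
    rw [Finsupp.smul_single, smul_eq_mul, mul_one]
  rw [e]
  unfold mulL
  rw [Finsupp.sum_single_index (by simp)]

lemma mulL_zero : mulL (0 : GV φ) = 0 := by
  unfold mulL
  exact Finsupp.sum_zero_index

lemma mulL_dl (x : GV φ) (h : G) : mulL x (dl φ h) = Rm h x := by
  refine ind_dl (p := fun x => mulL x (dl φ h) = Rm h x) x ?_ (fun a b h1 h2 => ?_) (fun g a => ?_)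
  · rw [mulL_zero]; simp
  · rw [mulL_add, LinearMap.add_apply, h1, h2, map_add]
  · rw [mulL_smul_dl, LinearMap.smul_apply, Lm_dl, map_smul, Rm_dl]

lemma norm_mulL [Fact (PD φ)] (x z : GV φ) : ‖mulL x z‖ ≤ l1 x * ‖z‖ := by
  unfold mulL l1 Finsupp.sum
  rw [LinearMap.sum_apply, Finset.sum_mul]
  refine (norm_sum_le _ _).trans (Finset.sum_le_sum (fun i _ => ?_))
  rw [LinearMap.smul_apply, norm_smul, norm_Lm]

/-- the positive definite function attached to a vector -/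
noncomputable def psi [Fact (PD φ)] (x : GV φ) (g : G) : ℂ := ⟪x, Rm g x⟫_ℂ

lemma psi_sum [Fact (PD φ)] (hc : ∀ g h : G, φ (h * g * h⁻¹) = φ g) (x : GV φ) (s : Finset G)
    (c : G → ℂ) :
    ∑ i ∈ s, ∑ j ∈ s, star (c j) * c i * psi x (j⁻¹ * i) =
      ((‖mulL x (∑ p ∈ s, star (c p) • dl φ p⁻¹)‖ ^ 2 : ℝ) : ℂ) := by
  have h1 : ∀ i j : G, psi x (j⁻¹ * i) = ⟪Rm i⁻¹ x, Rm j⁻¹ x⟫_ℂ := by
    intro i j
    unfold psi
    rw [← inner_Rm hc i⁻¹ x (Rm (j⁻¹ * i) x), Rm_Rm]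
    congr 3
    group
  have h2 : mulL x (∑ p ∈ s, star (c p) • dl φ p⁻¹) = ∑ p ∈ s, star (c p) • Rm p⁻¹ x := by
    rw [map_sum]
    refine Finset.sum_congr rfl (fun p _ => ?_)
    rw [map_smul, mulL_dl]
  rw [h2]
  have h3 := inner_self_eq_norm_sq_to_K (𝕜 := ℂ) (∑ p ∈ s, star (c p) • Rm p⁻¹ x)
  have h4 : ((‖∑ p ∈ s, star (c p) • Rm p⁻¹ x‖ ^ 2 : ℝ) : ℂ) =
      ⟪∑ p ∈ s, star (c p) • Rm p⁻¹ x, ∑ p ∈ s, star (c p) • Rm p⁻¹ x⟫_ℂ := by
    rw [h3]; push_cast; rfl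
  rw [h4, sum_inner]
  refine Finset.sum_congr rfl (fun i _ => ?_)
  rw [inner_sum]
  refine Finset.sum_congr rfl (fun j _ => ?_)
  rw [h1, inner_smul_left, inner_smul_right]
  simp
  ring

lemma psi_pd [Fact (PD φ)] (hc : ∀ g h : G, φ (h * g * h⁻¹) = φ g) (x : GV φ) : PD (psi x) := by
  intro s c
  rw [psi_sum hc]
  rw [← Complex.ofReal_zero, Complex.real_le_real]
  positivity

lemma mulL_one (z : GV φ) : mulL (dl φ 1) z = z := by
  have h := mulL_smul_dl (φ := φ) 1 1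
  rw [one_smul, one_smul] at h
  rw [h]
  have : (Lm 1 : GV φ →ₗ[ℂ] GV φ) = LinearMap.id := by
    apply ext_dl
    intro k
    rw [Lm_dl]; simp
  rw [this]; rfl

lemma psi_one_dl [Fact (PD φ)] (g : G) : psi (dl φ 1) g = φ g := by
  unfold psi
  rw [Rm_dl, inner_dl]; simp

lemma psi_dom [Fact (PD φ)] (hc : ∀ g h : G, φ (h * g * h⁻¹) = φ g) (x : GV φ) (K : ℝ)
    (hK : l1 x ^ 2 ≤ K) : PD (fun g => (K : ℂ) * φ g - psi x g) := by
  intro s c
  have e : ∑ i ∈ s, ∑ j ∈ s, star (c j) * c i * ((K : ℂ) * φ (j⁻¹ * i) - psi x (j⁻¹ * i)) =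
      K * ∑ i ∈ s, ∑ j ∈ s, star (c j) * c i * psi (dl φ 1) (j⁻¹ * i) -
      ∑ i ∈ s, ∑ j ∈ s, star (c j) * c i * psi x (j⁻¹ * i) := by
    rw [Finset.mul_sum, ← Finset.sum_sub_distrib]
    refine Finset.sum_congr rfl (fun i _ => ?_)
    rw [Finset.mul_sum, ← Finset.sum_sub_distrib]
    refine Finset.sum_congr rfl (fun j _ => ?_)
    rw [psi_one_dl]
    ring
  rw [e, psi_sum hc, psi_sum hc, mulL_one]
  set z := ∑ p ∈ s, star (c p) • dl φ p⁻¹
  have h1 := norm_mulL x z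
  have hl : 0 ≤ l1 x := by
    unfold l1 Finsupp.sum
    exact Finset.sum_nonneg (fun i _ => norm_nonneg _)
  have h2 : ‖mulL x z‖ ^ 2 ≤ K * ‖z‖ ^ 2 := by
    calc ‖mulL x z‖ ^ 2 ≤ (l1 x * ‖z‖) ^ 2 := pow_le_pow_left₀ (norm_nonneg _) h1 2
      _ = l1 x ^ 2 * ‖z‖ ^ 2 := by ring
      _ ≤ K * ‖z‖ ^ 2 := mul_le_mul_of_nonneg_right hK (by positivity)
  have h3 : (K : ℂ) * ((‖z‖ ^ 2 : ℝ) : ℂ) - ((‖mulL x z‖ ^ 2 : ℝ) : ℂ) =
      ((K * ‖z‖ ^ 2 - ‖mulL x z‖ ^ 2 : ℝ) : ℂ) := by push_cast; ring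
  rw [h3, ← Complex.ofReal_zero, Complex.real_le_real]
  linarith

lemma psi_conj [Fact (PD φ)] (hc : ∀ g h : G, φ (h * g * h⁻¹) = φ g) (x : GV φ) (g h : G) :
    psi x (h * g * h⁻¹) = psi (Cm h⁻¹ x) g := by
  unfold psi
  rw [← inner_Rm hc h x (Rm (h * g * h⁻¹) x), Rm_Rm, ← inner_Lm h⁻¹ (Rm h x), Lm_Rm, Lm_Rm,
    Cm_eq, inv_inv, Rm_Rm]
  congr 3
  group

lemma psi_close [Fact (PD φ)] (hc : ∀ g h : G, φ (h * g * h⁻¹) = φ g) (x y : GV φ) (g : G) :
    ‖psi y g - psi x g‖ ≤ ‖y - x‖ * (‖y‖ + ‖x‖) := by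
  have e : psi y g - psi x g = ⟪y - x, Rm g y⟫_ℂ + ⟪x, Rm g (y - x)⟫_ℂ := by
    unfold psi
    rw [inner_sub_left, map_sub, inner_sub_right]; ring
  rw [e]
  calc _ ≤ ‖⟪y - x, Rm g y⟫_ℂ‖ + ‖⟪x, Rm g (y - x)⟫_ℂ‖ := norm_add_le _ _
    _ ≤ ‖y - x‖ * ‖Rm g y‖ + ‖x‖ * ‖Rm g (y - x)‖ :=
        add_le_add (norm_inner_le_norm _ _) (norm_inner_le_norm _ _)
    _ = _ := by rw [norm_Rm hc, norm_Rm hc]; ring

lemma psi_le [Fact (PD φ)] (hc : ∀ g h : G, φ (h * g * h⁻¹) = φ g) (x : GV φ) (g : G) :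
    ‖psi x g‖ ≤ ‖x‖ ^ 2 := by
  unfold psi
  calc _ ≤ ‖x‖ * ‖Rm g x‖ := norm_inner_le_norm _ _
    _ = _ := by rw [norm_Rm hc]; ring

end Helper17.FU
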