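import Mathlib

set_option autoImplicit false
open scoped ComplexOrder BigOperators
open Finset

namespace Helper17.LevelSets

/-- positive definite function on the integers -/
def PDZ (f : ℤ → ℂ) : Prop :=
  ∀ (s : Finset ℤ) (c : ℤ → ℂ), 0 ≤ ∑ i ∈ s, ∑ j ∈ s, star (c j) * c i * f (i - j)

/-- evaluation of a trigonometric polynomial -/
noncomputable def ev (z : ℂ) : (ℤ →₀ ℂ) →ₗ[ℂ] ℂ := Finsupp.linearCombination ℂ (fun n : ℤ => z ^ n)

/-- the functional attached to a function on the integers -/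
noncomputable def Ph (f : ℤ → ℂ) : (ℤ →₀ ℂ) →ₗ[ℂ] ℂ := Finsupp.linearCombination ℂ f

/-- number of pairs in the square of side `M` with a given difference -/
noncomputable def cnt (M : ℕ) (n : ℤ) : ℕ :=
  #{p ∈ range M ×ˢ range M | (p.1 : ℤ) - (p.2 : ℤ) = n}

lemma cnt_le (M : ℕ) (n : ℤ) : cnt M n ≤ M := by
  unfold cnt
  calc _ ≤ #(range M) := by
        apply Finset.card_le_card_of_injOn (fun p => p.2)
        · intro p hp
          simp only [coe_filter, mem_product, mem_range, Set.mem_ofPred_eq] at hp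
          simpa using hp.1.2
        · intro p hp q hq h
          simp only [coe_filter, mem_product, mem_range, Set.mem_ofPred_eq] at hp hq
          have h2 : p.2 = q.2 := h
          have h1 : p.1 = q.1 := by
            have := hp.2
            have := hq.2
            have h3 : (p.2 : ℤ) = q.2 := by exact_mod_cast h2
            omega
          exact Prod.ext h1 h2
    _ = M := by simp

lemma le_cnt (M : ℕ) (n : ℤ) : (M : ℤ) - 2 * n.natAbs ≤ cnt M n := by
  unfold cnt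
  have h : #(Ico n.natAbs (M - n.natAbs)) ≤
      #{p ∈ range M ×ˢ range M | (p.1 : ℤ) - (p.2 : ℤ) = n} := by
    apply Finset.card_le_card_of_injOn (fun b : ℕ => ((((b : ℤ) + n).toNat, b) : ℕ × ℕ))
    · intro b hb
      simp only [coe_Ico, Set.mem_Ico] at hb
      simp only [coe_filter, mem_product, mem_range, Set.mem_ofPred_eq]
      have : (0:ℤ) ≤ (b : ℤ) + n := by omega
      refine ⟨⟨?_, ?_⟩, ?_⟩
      · omega
      · omega
      · omega
    · intro a _ b _ h
      exact (Prod.ext_iff.mp h).2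
  rw [Nat.card_Ico] at h
  omega

lemma root_sum (N : ℕ) (hN : 0 < N) (n : ℤ) :
    ∑ t ∈ range N, ((Complex.exp (2 * Real.pi * Complex.I / N)) ^ t) ^ n =
      if (N : ℤ) ∣ n then (N : ℂ) else 0 := by
  have hprim : IsPrimitiveRoot (Complex.exp (2 * Real.pi * Complex.I / N)) N :=
    Complex.isPrimitiveRoot_exp N hN.ne'
  set ζ := Complex.exp (2 * Real.pi * Complex.I / N) with hζ
  have e1 : ∀ t : ℕ, (ζ ^ t) ^ n = (ζ ^ n) ^ t := by
    intro t
    rw [← zpow_natCast, ← zpow_natCast, ← zpow_mul, ← zpow_mul, mul_comm]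
  simp_rw [e1]
  split_ifs with h
  · have : ζ ^ n = 1 := (hprim.zpow_eq_one_iff_dvd n).mpr h
    simp [this]
  · have h1 : ζ ^ n ≠ 1 := fun hh => h ((hprim.zpow_eq_one_iff_dvd n).mp hh)
    rw [geom_sum_eq h1]
    have : (ζ ^ n) ^ N = 1 := by
      rw [← zpow_natCast, ← zpow_mul, mul_comm, zpow_mul, zpow_natCast, hprim.pow_eq_one, one_zpow]
    rw [this]; simp

/-- the Fejér type sum is nonnegative -/
lemma fejer_nonneg {f : ℤ → ℂ} (hf : PDZ f) (M : ℕ) (z : ℂ) (hz : ‖z‖ = 1) :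
    0 ≤ ∑ a ∈ range M, ∑ b ∈ range M, f ((a : ℤ) - b) * z ^ (-((a : ℤ) - b)) := by
  have hz0 : z ≠ 0 := by
    intro h; rw [h] at hz; simp at hz
  have hs : ∀ m : ℤ, star (z ^ m) = z ^ (-m) := by
    intro m
    have : star z = z⁻¹ := by
      rw [Complex.inv_def, Complex.normSq_eq_norm_sq, hz]; simp
    rw [star_zpow₀, this, inv_zpow, zpow_neg]
  have h := hf ((range M).image (fun a : ℕ => (a : ℤ))) (fun a => z ^ (-a))
  rw [Finset.sum_image (fun a _ b _ hab => by exact_mod_cast hab)] at h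
  have e : ∀ x : ℕ, ∑ j ∈ (range M).image (fun a : ℕ => (a : ℤ)),
      star (z ^ (-j)) * z ^ (-(x : ℤ)) * f ((x : ℤ) - j) =
      ∑ j ∈ range M, f ((x : ℤ) - j) * z ^ (-((x : ℤ) - j)) := by
    intro x
    rw [Finset.sum_image (fun a _ b _ hab => by exact_mod_cast hab)]
    refine Finset.sum_congr rfl (fun j _ => ?_)
    rw [hs, ← zpow_add₀ hz0, mul_comm]
    congr 2; ring
  simp only [e] at h
  exact h

lemma pos_functional {f : ℤ → ℂ} (hf : PDZ f) (P : ℤ →₀ ℂ)
    (hP : ∀ z : ℂ, ‖z‖ = 1 → 0 ≤ ev z P) : 0 ≤ (Ph f P).re := by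
  -- finite approximations
  have key : ∀ M : ℕ, 0 < M → 0 ≤ (∑ n ∈ P.support, P n * f n * (cnt M n : ℂ) / M).re := by
    intro M hM
    obtain ⟨D, hD⟩ : ∃ D : ℕ, ∀ n ∈ P.support, n.natAbs ≤ D :=
      ⟨P.support.sup Int.natAbs, fun n hn => Finset.le_sup (f := Int.natAbs) hn⟩
    set N := D + M + 1 with hN
    have hNpos : 0 < N := by omega
    set ζ := Complex.exp (2 * Real.pi * Complex.I / N) with hζ
    have hnorm : ∀ t : ℕ, ‖ζ ^ t‖ = 1 := by
      intro t
      have : ‖ζ‖ = 1 := by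
        have := (Complex.isPrimitiveRoot_exp N hNpos.ne').norm'_eq_one hNpos.ne'
        exact this
      rw [norm_pow, this, one_pow]
    have hnn : 0 ≤ ∑ t ∈ range N, ev (ζ ^ t) P *
        ∑ a ∈ range M, ∑ b ∈ range M, f ((a : ℤ) - b) * (ζ ^ t) ^ (-((a : ℤ) - b)) := by
      refine Finset.sum_nonneg (fun t _ => ?_)
      exact mul_nonneg (hP _ (hnorm t)) (fejer_nonneg hf M _ (hnorm t))
    have hcomp : ∑ t ∈ range N, ev (ζ ^ t) P *
        ∑ a ∈ range M, ∑ b ∈ range M, f ((a : ℤ) - b) * (ζ ^ t) ^ (-((a : ℤ) - b)) =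
        N * ∑ n ∈ P.support, P n * f n * (cnt M n : ℂ) := by
      have h1 : ∀ t ∈ range N, ev (ζ ^ t) P *
        ∑ a ∈ range M, ∑ b ∈ range M, f ((a : ℤ) - b) * (ζ ^ t) ^ (-((a : ℤ) - b)) =
        ∑ n ∈ P.support, ∑ a ∈ range M, ∑ b ∈ range M,
          P n * f ((a : ℤ) - b) * (ζ ^ t) ^ (n - ((a : ℤ) - b)) := by
        intro t _
        have hz0 : ζ ^ t ≠ 0 := by
          intro h; have := hnorm t; rw [h] at this; simp at this
        simp only [ev, Finsupp.linearCombination_apply, Finsupp.sum, smul_eq_mul]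
        rw [Finset.sum_mul]
        refine Finset.sum_congr rfl (fun n _ => ?_)
        rw [Finset.mul_sum]
        refine Finset.sum_congr rfl (fun a _ => ?_)
        rw [Finset.mul_sum]
        refine Finset.sum_congr rfl (fun b _ => ?_)
        rw [show n - ((a : ℤ) - b) = n + -((a : ℤ) - b) by ring, zpow_add₀ hz0]
        ring
      rw [Finset.sum_congr rfl h1, Finset.sum_comm, Finset.mul_sum]
      refine Finset.sum_congr rfl (fun n hn => ?_)
      rw [Finset.sum_comm]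
      have h2 : ∀ a ∈ range M, ∑ t ∈ range N, ∑ b ∈ range M,
          P n * f ((a : ℤ) - b) * (ζ ^ t) ^ (n - ((a : ℤ) - b)) =
          ∑ b ∈ range M, if (a : ℤ) - b = n then P n * f n * N else 0 := by
        intro a ha
        rw [Finset.sum_comm]
        refine Finset.sum_congr rfl (fun b hb => ?_)
        rw [← Finset.mul_sum, root_sum N hNpos]
        have hiff : ((N : ℤ) ∣ n - ((a : ℤ) - b)) ↔ (a : ℤ) - b = n := by
          constructor
          · intro hd
            have hlt : |n - ((a : ℤ) - b)| < N := by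
              have := hD n hn
              have ha' := Finset.mem_range.mp ha
              have hb' := Finset.mem_range.mp hb
              rw [abs_lt]; constructor <;> omega
            have := Int.eq_zero_of_abs_lt_dvd hd hlt
            omega
          · intro h; rw [h]; simp
        by_cases hc : (a : ℤ) - b = n
        · rw [if_pos (hiff.mpr hc), if_pos hc, hc]
        · rw [if_neg (fun h => hc (hiff.mp h)), if_neg hc, mul_zero]
      rw [Finset.sum_congr rfl h2]
      have h3 : (cnt M n : ℂ) = ∑ a ∈ range M, ∑ b ∈ range M,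
          if (a : ℤ) - b = n then (1 : ℂ) else 0 := by
        unfold cnt
        rw [Finset.card_filter, Finset.sum_product]
        push_cast
        rfl
      rw [h3, Finset.mul_sum, Finset.mul_sum]
      refine Finset.sum_congr rfl (fun a _ => ?_)
      rw [Finset.mul_sum, Finset.mul_sum]
      refine Finset.sum_congr rfl (fun b _ => ?_)
      split_ifs <;> ring
    rw [hcomp] at hnn
    have h4 : (∑ n ∈ P.support, P n * f n * (cnt M n : ℂ) / M) =
        ((1 / (N * M) : ℝ) : ℂ) * (N * ∑ n ∈ P.support, P n * f n * (cnt M n : ℂ)) := by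
      rw [← Finset.sum_div]
      push_cast
      have : (N : ℂ) ≠ 0 := by exact_mod_cast hNpos.ne'
      have : (M : ℂ) ≠ 0 := by exact_mod_cast hM.ne'
      field_simp
    rw [h4, Complex.re_ofReal_mul]
    have := (Complex.nonneg_iff.mp hnn).1
    positivity
  -- limit
  have hlim : Filter.Tendsto (fun M : ℕ => (∑ n ∈ P.support, P n * f n * (cnt M n : ℂ) / M).re)
      Filter.atTop (nhds (∑ n ∈ P.support, P n * f n).re) := by
    refine (Complex.continuous_re.tendsto _).comp ?_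
    refine tendsto_finsetSum _ (fun n _ => ?_)
    have hr : Filter.Tendsto (fun M : ℕ => (cnt M n : ℝ) / M) Filter.atTop (nhds 1) := by
      have hlow : Filter.Tendsto (fun M : ℕ => (1 : ℝ) - (2 * n.natAbs : ℝ) / M) Filter.atTop
          (nhds 1) := by
        have := (tendsto_const_div_atTop_nhds_zero_nat (2 * n.natAbs : ℝ)).const_sub 1
        simpa using this
      refine tendsto_of_tendsto_of_tendsto_of_le_of_le' hlow tendsto_const_nhds ?_ ?_
      · filter_upwards [Filter.eventually_gt_atTop 0] with M hM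
        have hM' : (0 : ℝ) < M := by exact_mod_cast hM
        rw [le_div_iff₀ hM', sub_mul, div_mul_cancel₀ _ hM'.ne', one_mul]
        have := le_cnt M n
        exact_mod_cast this
      · filter_upwards [Filter.eventually_gt_atTop 0] with M hM
        have hM' : (0 : ℝ) < M := by exact_mod_cast hM
        rw [div_le_one hM']
        exact_mod_cast cnt_le M n
    have hc : Filter.Tendsto (fun M : ℕ => (((cnt M n : ℝ) / M : ℝ) : ℂ)) Filter.atTop
        (nhds ((1 : ℝ) : ℂ)) :=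
      (Complex.continuous_ofReal.tendsto _).comp hr
    have := hc.const_mul (P n * f n)
    simp only [Complex.ofReal_one, mul_one] at this
    refine this.congr (fun M => ?_)
    push_cast
    ring
  have hfin : (Ph f P) = ∑ n ∈ P.support, P n * f n := by
    simp [Ph, Finsupp.linearCombination_apply, Finsupp.sum]
  rw [hfin]
  refine ge_of_tendsto hlim ?_
  filter_upwards [Filter.eventually_gt_atTop 0] with M hM
  exact key M hM

/-! ### consequences of positive definiteness -/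

lemma pdz_two {f : ℤ → ℂ} (hf : PDZ f) (n : ℤ) (hn : n ≠ 0) (a : ℂ) :
    0 ≤ f 0 + star a * a * f 0 + (a * f n + star a * f (-n)) := by
  have h := hf {0, n} (fun m => if m = 0 then 1 else a)
  have hne : (0 : ℤ) ∉ ({n} : Finset ℤ) := by simpa using hn.symm
  rw [Finset.sum_insert hne, Finset.sum_singleton, Finset.sum_insert hne, Finset.sum_singleton,
    Finset.sum_insert hne, Finset.sum_singleton] at h
  simp only [hn, if_true, if_false, sub_zero, zero_sub, sub_self, star_one, one_mul, mul_one] at h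
  convert h using 1
  ring

lemma pdz_zero_nonneg {f : ℤ → ℂ} (hf : PDZ f) : 0 ≤ f 0 := by
  have h := hf {0} (fun _ => 1)
  simpa using h

lemma pdz_herm {f : ℤ → ℂ} (hf : PDZ f) (n : ℤ) : f (-n) = star (f n) := by
  have h0 := pdz_zero_nonneg hf
  have hi0 : (f 0).im = 0 := (Complex.nonneg_iff.mp h0).2.symm
  by_cases hn : n = 0
  · subst hn
    apply Complex.ext <;> simp [hi0]
  · have h1 := (Complex.nonneg_iff.mp (pdz_two hf n hn 1)).2
    have h2 := (Complex.nonneg_iff.mp (pdz_two hf n hn Complex.I)).2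
    simp [hi0] at h1 h2
    apply Complex.ext
    · simp; linarith
    · simp; linarith

lemma pdz_norm_le {f : ℤ → ℂ} (hf : PDZ f) (h1 : f 0 = 1) (n : ℤ) : ‖f n‖ ≤ 1 := by
  by_cases hn : n = 0
  · subst hn; simp [h1]
  · by_cases h0 : f n = 0
    · simp [h0]
    · set a : ℂ := - (star (f n)) / ‖f n‖ with ha
      have hpos : (0 : ℝ) < ‖f n‖ := norm_pos_iff.mpr h0
      have h := (Complex.nonneg_iff.mp (pdz_two hf n hn a)).1
      rw [pdz_herm hf, h1] at h
      have hnn : star (f n) * f n = (‖f n‖ : ℂ) ^ 2 := by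
        have := Complex.conj_mul' (f n)
        simpa using this
      have hne : (‖f n‖ : ℂ) ≠ 0 := by exact_mod_cast hpos.ne'
      have e1 : a * f n = -(‖f n‖ : ℂ) := by
        rw [ha, div_mul_eq_mul_div, neg_mul, hnn]; field_simp
      have e2 : star a * star (f n) = -(‖f n‖ : ℂ) := by
        have : star a * star (f n) = star (a * f n) := by rw [star_mul']
        rw [this, e1]; simp
      have e3 : star a * a = 1 := by
        have hmul : star a * a * (f n * star (f n)) = (‖f n‖ : ℂ) ^ 2 := by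
          calc star a * a * (f n * star (f n)) = (star a * star (f n)) * (a * f n) := by ring
            _ = _ := by rw [e1, e2]; ring
        have hnn' : f n * star (f n) = (‖f n‖ : ℂ) ^ 2 := by rw [mul_comm]; exact hnn
        rw [hnn'] at hmul
        have : (‖f n‖ : ℂ) ^ 2 ≠ 0 := pow_ne_zero _ hne
        exact mul_right_cancel₀ this (by rw [hmul, one_mul])
      rw [e1, e2, e3] at h
      simp at h
      linarith

/-! ### the index set -/

/-- index set of the expansion -/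
abbrev J (L : ℕ) := Option ((Fin L × Fin L) × (Fin L × Fin L))

/-- the integers `2^a 3^b` -/
def uu {L : ℕ} (p : Fin L × Fin L) : ℤ := 2 ^ (p.1 : ℕ) * 3 ^ (p.2 : ℕ)

/-- value of an index -/
def vl {L : ℕ} : J L → ℤ
  | none => 0
  | some q => uu q.1 - uu q.2

/-- weights -/
def wt {L : ℕ} (x y : ℝ) : J L → ℝ
  | none => x
  | some _ => y

/-- the frequency of a tuple -/
def nv {L : ℕ} (V : ℤ) {k : ℕ} (e : Fin k → J L) : ℤ := ∑ i, vl (e i) * V ^ (i : ℕ)

lemma uu_inj {L : ℕ} : Function.Injective (uu (L := L)) := by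
  rintro ⟨a, b⟩ ⟨c, d⟩ h
  simp only [uu] at h
  have h' : 2 ^ (a : ℕ) * 3 ^ (b : ℕ) = 2 ^ (c : ℕ) * 3 ^ (d : ℕ) := by exact_mod_cast h
  have hf : ∀ m n : ℕ, (2 ^ m * 3 ^ n).factorization 2 = m ∧
      (2 ^ m * 3 ^ n).factorization 3 = n := by
    intro m n
    have h2 : (2 : ℕ).factorization = Finsupp.single 2 1 := Nat.prime_two.factorization
    have h3 : (3 : ℕ).factorization = Finsupp.single 3 1 := Nat.prime_three.factorization
    rw [Nat.factorization_mul (by positivity) (by positivity), Nat.factorization_pow,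
      Nat.factorization_pow, h2, h3]
    simp
  have h2 : (a : ℕ) = c := by
    rw [← (hf a b).1, h', (hf c d).1]
  have h3 : (b : ℕ) = d := by
    rw [← (hf a b).2, h', (hf c d).2]
  exact Prod.ext (Fin.ext h2) (Fin.ext h3)

lemma uu_pos {L : ℕ} (p : Fin L × Fin L) : 0 < uu p := by
  unfold uu; positivity

lemma uu_lt {L : ℕ} (p : Fin L × Fin L) : uu p < 6 ^ L := by
  have h1 : (2 : ℤ) ^ (p.1 : ℕ) ≤ 2 ^ L := pow_le_pow_right₀ (by norm_num) p.1.2.le
  have h2 : (3 : ℤ) ^ (p.2 : ℕ) < 3 ^ L := pow_lt_pow_right₀ (by norm_num) p.2.2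
  calc uu p = 2 ^ (p.1 : ℕ) * 3 ^ (p.2 : ℕ) := rfl
    _ ≤ 2 ^ L * 3 ^ (p.2 : ℕ) := by
        apply mul_le_mul_of_nonneg_right h1 (by positivity)
    _ < 2 ^ L * 3 ^ L := by
        apply mul_lt_mul_of_pos_left h2 (by positivity)
    _ = 6 ^ L := by rw [← mul_pow]; norm_num

lemma vl_abs {L : ℕ} (j : J L) : |vl j| < 6 ^ L := by
  cases j with
  | none => simp [vl]
  | some q =>
    simp only [vl]
    have := uu_pos q.1
    have := uu_pos q.2
    have := uu_lt q.1
    have := uu_lt q.2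
    rw [abs_lt]; constructor <;> linarith

lemma digits_unique (V B : ℤ) (hV : 2 * B ≤ V) :
    ∀ (k : ℕ) (d d' : Fin k → ℤ), (∀ i, |d i| < B) → (∀ i, |d' i| < B) →
      ∑ i, d i * V ^ (i : ℕ) = ∑ i, d' i * V ^ (i : ℕ) → d = d' := by
  intro k
  induction k with
  | zero => intro d d' _ _ _; exact Subsingleton.elim _ _
  | succ k ih =>
    intro d d' hd hd' h
    have hB : 0 < B := lt_of_le_of_lt (abs_nonneg _) (hd 0)
    have hVpos : 0 < V := by linarith
    rw [Fin.sum_univ_succ, Fin.sum_univ_succ] at h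
    simp only [Fin.val_zero, pow_zero, mul_one, Fin.val_succ] at h
    have e1 : ∀ g : Fin (k+1) → ℤ, ∑ i : Fin k, g i.succ * V ^ ((i : ℕ) + 1) =
        V * ∑ i : Fin k, g i.succ * V ^ (i : ℕ) := by
      intro g
      rw [Finset.mul_sum]
      refine Finset.sum_congr rfl (fun i _ => ?_)
      rw [pow_succ]; ring
    rw [e1, e1] at h
    have h0 : V ∣ d 0 - d' 0 := by
      refine ⟨∑ i : Fin k, d' i.succ * V ^ (i : ℕ) - ∑ i : Fin k, d i.succ * V ^ (i : ℕ), ?_⟩
      rw [mul_sub]; linarith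
    have h00 : d 0 = d' 0 := by
      have hlt : |d 0 - d' 0| < V := by
        calc |d 0 - d' 0| ≤ |d 0| + |d' 0| := abs_sub _ _
          _ < B + B := add_lt_add (hd 0) (hd' 0)
          _ ≤ V := by linarith
      have := Int.eq_zero_of_abs_lt_dvd h0 hlt
      linarith
    have h1 : ∑ i : Fin k, d i.succ * V ^ (i : ℕ) = ∑ i : Fin k, d' i.succ * V ^ (i : ℕ) := by
      have : V * ∑ i : Fin k, d i.succ * V ^ (i : ℕ) = V * ∑ i : Fin k, d' i.succ * V ^ (i : ℕ) := by
        linarith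
      exact mul_left_cancel₀ hVpos.ne' this
    have h2 := ih (fun i => d i.succ) (fun i => d' i.succ) (fun i => hd _) (fun i => hd' _) h1
    funext i
    refine Fin.cases h00 (fun j => ?_) i
    exact congrFun h2 j

lemma digits_bound (V B : ℤ) (hB : 0 < B) (hV : B ≤ V) :
    ∀ (k : ℕ) (d : Fin k → ℤ), (∀ i, |d i| < B) → |∑ i, d i * V ^ (i : ℕ)| < V ^ k := by
  intro k
  induction k with
  | zero => intro d _; simp
  | succ k ih =>
    intro d hd
    have hVpos : 0 < V := by linarith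
    rw [Fin.sum_univ_castSucc]
    have h1 := ih (fun i => d i.castSucc) (fun i => hd _)
    simp only [Fin.val_castSucc, Fin.val_last]
    have h2 : |d (Fin.last k) * V ^ k| ≤ (V - 1) * V ^ k := by
      rw [abs_mul, abs_of_pos (pow_pos hVpos k)]
      apply mul_le_mul_of_nonneg_right _ (pow_pos hVpos k).le
      have := hd (Fin.last k)
      linarith [Int.add_one_le_iff.mpr this]
    calc _ ≤ |∑ i : Fin k, d i.castSucc * V ^ (i : ℕ)| + |d (Fin.last k) * V ^ k| := abs_add_le _ _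
      _ < V ^ k + (V - 1) * V ^ k := add_lt_add_of_lt_of_le h1 h2
      _ = V ^ (k + 1) := by ring

lemma sum_wt {L : ℕ} (x y : ℝ) : ∑ j : J L, wt x y j = x + L ^ 4 * y := by
  rw [Fintype.sum_option]
  simp only [wt, Finset.sum_const, Finset.card_univ, Fintype.card_prod, Fintype.card_fin]
  rw [nsmul_eq_mul]
  push_cast
  ring

lemma sum_wt_fiber {L : ℕ} (x y : ℝ) (hx : 0 ≤ x) (hy : 0 ≤ y) (d : ℤ) :
    ∑ j : J L with vl j = d, wt x y j ≤ x + L ^ 2 * y := by
  rw [Finset.sum_filter, Fintype.sum_option]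
  apply add_le_add
  · split_ifs
    · exact le_refl _
    · exact hx
  · have e : ∑ q : (Fin L × Fin L) × (Fin L × Fin L),
        (if vl (some q) = d then wt x y (some q) else 0) =
        ∑ q : (Fin L × Fin L) × (Fin L × Fin L) with uu q.1 - uu q.2 = d, y := by
      rw [Finset.sum_filter]; rfl
    rw [e, Finset.sum_const, nsmul_eq_mul]
    apply mul_le_mul_of_nonneg_right _ hy
    have : #{q : (Fin L × Fin L) × (Fin L × Fin L) | uu q.1 - uu q.2 = d} ≤
        #(Finset.univ : Finset (Fin L × Fin L)) := by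
      apply Finset.card_le_card_of_injOn (fun q => q.2)
      · intro q _; simp
      · intro p hp q hq h
        simp only [coe_filter, mem_univ, true_and, Set.mem_ofPred_eq] at hp hq
        have h2 : p.2 = q.2 := h
        have h1 : uu p.1 = uu q.1 := by
          rw [h2] at hp; linarith
        exact Prod.ext (uu_inj h1) h2
    rw [Finset.card_univ, Fintype.card_prod, Fintype.card_fin] at this
    calc ((_ : ℕ) : ℝ) ≤ ((L * L : ℕ) : ℝ) := by exact_mod_cast this
      _ = L ^ 2 := by push_cast; ring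

lemma prod_le_AB {L : ℕ} (k : ℕ) (η : ℝ) (hη : 0 < η) (hη1 : η ≤ 1) (hL : 1 ≤ η * L)
    (e : Fin k → J L) :
    ∏ i, wt (η ^ 2) (1 / (L : ℝ) ^ 4) (e i) ≤
      ∏ i, wt η (η / (L : ℝ) ^ 4) (e i) + ∏ i, wt (η / L) (η / (L : ℝ) ^ 3) (e i) := by
  have hLpos : (0 : ℝ) < L := by
    by_contra h
    push Not at h
    nlinarith
  set σ : J L → ℤ := fun j => j.elim (-1) (fun _ => 1) with hσ
  have hA : ∀ j : J L, wt η (η / (L : ℝ) ^ 4) j = wt (η ^ 2) (1 / (L : ℝ) ^ 4) j * η ^ (σ j) := by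
    intro j
    cases j with
    | none => simp [wt, hσ]; field_simp
    | some q => simp [wt, hσ]; field_simp
  have hB : ∀ j : J L, wt (η / L) (η / (L : ℝ) ^ 3) j =
      wt (η ^ 2) (1 / (L : ℝ) ^ 4) j * (η * L) ^ (σ j) := by
    intro j
    cases j with
    | none => simp [wt, hσ]; field_simp
    | some q => simp [wt, hσ]; field_simp
  have hprodz : ∀ (x : ℝ), 0 < x → ∏ i, x ^ (σ (e i)) = x ^ (∑ i, σ (e i)) := by
    intro x hx
    induction (Finset.univ : Finset (Fin k)) using Finset.induction_on with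
    | empty => simp
    | insert a s ha ih => rw [Finset.prod_insert ha, Finset.sum_insert ha, zpow_add₀ hx.ne', ih]
  have hnn : 0 ≤ ∏ i, wt (η ^ 2) (1 / (L : ℝ) ^ 4) (e i) := by
    refine Finset.prod_nonneg (fun i _ => ?_)
    cases e i with
    | none => simp [wt]; positivity
    | some q => simp [wt]
  have eA : ∏ i, wt η (η / (L : ℝ) ^ 4) (e i) =
      (∏ i, wt (η ^ 2) (1 / (L : ℝ) ^ 4) (e i)) * η ^ (∑ i, σ (e i)) := by
    rw [← hprodz η hη, ← Finset.prod_mul_distrib]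
    exact Finset.prod_congr rfl (fun i _ => hA _)
  have eB : ∏ i, wt (η / L) (η / (L : ℝ) ^ 3) (e i) =
      (∏ i, wt (η ^ 2) (1 / (L : ℝ) ^ 4) (e i)) * (η * L) ^ (∑ i, σ (e i)) := by
    rw [← hprodz (η * L) (by positivity), ← Finset.prod_mul_distrib]
    exact Finset.prod_congr rfl (fun i _ => hB _)
  rw [eA, eB]
  rcases le_total (∑ i, σ (e i)) 0 with h | h
  · have h1 : 1 ≤ η ^ (∑ i, σ (e i)) := by
      obtain ⟨m, hm⟩ : ∃ m : ℕ, ∑ i, σ (e i) = -(m : ℤ) := by
        obtain ⟨m, hm⟩ := Int.eq_ofNat_of_zero_le (show 0 ≤ -(∑ i, σ (e i)) by linarith)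
        exact ⟨m, by linarith⟩
      rw [hm, zpow_neg, zpow_natCast]
      exact (one_le_inv₀ (pow_pos hη m)).mpr (pow_le_one₀ hη.le hη1)
    have h2 : 0 ≤ (η * L) ^ (∑ i, σ (e i)) := by positivity
    nlinarith [mul_nonneg hnn h2]
  · have h1 : 1 ≤ (η * L) ^ (∑ i, σ (e i)) := by
      obtain ⟨m, hm⟩ := Int.eq_ofNat_of_zero_le h
      rw [hm]
      exact one_le_pow₀ hL
    have h2 : 0 ≤ η ^ (∑ i, σ (e i)) := by positivity
    nlinarith [mul_nonneg hnn h2]

/-! ### pointwise inequalities -/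

lemma pt_prod {k : ℕ} (q g : Fin k → ℝ) (c : ℝ) (hc : 0 < c) (hq : ∀ i, 0 < q i)
    (hg : ∀ i, g i ≤ 1 - c / q i) : c ^ k * (1 + ∑ i, g i) ≤ ∏ i, q i := by
  have h1 : ∏ i, q i = c ^ k * ∏ i, (q i / c) := by
    rw [Finset.prod_div_distrib, Finset.prod_const, Finset.card_univ, Fintype.card_fin]
    field_simp
  rw [h1]
  apply mul_le_mul_of_nonneg_left _ (pow_pos hc k).le
  have h2 : ∏ i, (q i / c) = Real.exp (∑ i, Real.log (q i / c)) := by
    rw [Real.exp_sum]
    exact Finset.prod_congr rfl (fun i _ => (Real.exp_log (div_pos (hq i) hc)).symm)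
  rw [h2]
  have h3 : ∑ i, g i ≤ ∑ i, Real.log (q i / c) := by
    refine Finset.sum_le_sum (fun i _ => (hg i).trans ?_)
    have := Real.one_sub_inv_le_log_of_pos (div_pos (hq i) hc)
    rwa [inv_div] at this
  have h4 := Real.add_one_le_exp (∑ i, Real.log (q i / c))
  linarith

lemma pt_one (h r : ℂ) (δ : ℝ) (hδ : 0 < δ) (hr : r ≠ 0) :
    1 / 2 - (4 / δ) * ‖h - r‖ ^ 2 ≤ 1 - (‖r‖ ^ 2 / 4) / (δ + ‖h‖ ^ 2) := by
  have hrpos : 0 < ‖r‖ := norm_pos_iff.mpr hr
  have hq : 0 < δ + ‖h‖ ^ 2 := by positivity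
  rcases le_or_gt (‖r‖ / 4) ‖h - r‖ with hcase | hcase
  · have h1 : (‖r‖ ^ 2 / 4) / (δ + ‖h‖ ^ 2) ≤ (‖r‖ ^ 2 / 4) / δ := by
      apply div_le_div_of_nonneg_left (by positivity) hδ
      have : 0 ≤ ‖h‖ ^ 2 := by positivity
      linarith
    have h2 : (‖r‖ ^ 2 / 4) / δ ≤ (4 / δ) * ‖h - r‖ ^ 2 := by
      have : ‖r‖ ^ 2 / 16 ≤ ‖h - r‖ ^ 2 := by
        have := pow_le_pow_left₀ (by positivity) hcase 2
        calc ‖r‖ ^ 2 / 16 = (‖r‖ / 4) ^ 2 := by ring
          _ ≤ _ := this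
      calc (‖r‖ ^ 2 / 4) / δ = (4 / δ) * (‖r‖ ^ 2 / 16) := by ring
        _ ≤ _ := mul_le_mul_of_nonneg_left this (by positivity)
    linarith
  · have h1 : (3 / 4) * ‖r‖ ≤ ‖h‖ := by
      have := norm_sub_norm_le r h
      rw [norm_sub_rev] at this
      linarith
    have h2 : (9 / 16) * ‖r‖ ^ 2 ≤ δ + ‖h‖ ^ 2 := by
      have := pow_le_pow_left₀ (by positivity) h1 2
      nlinarith
    have h3 : (‖r‖ ^ 2 / 4) / (δ + ‖h‖ ^ 2) ≤ 1 / 2 := by
      rw [div_le_iff₀ hq]
      nlinarith [pow_pos hrpos 2]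
    have h4 : 0 ≤ (4 / δ) * ‖h - r‖ ^ 2 := by positivity
    linarith

/-! ### the main lower bound -/

/-- the averaged exponential sum -/
noncomputable def hh (L : ℕ) (w : ℂ) : ℂ := (1 / (L : ℂ) ^ 2) * ∑ p : Fin L × Fin L, w ^ (uu p)

/-- averages of `f` along differences -/
noncomputable def EE (f : ℤ → ℂ) (L : ℕ) : ℂ :=
  (1 / (L : ℂ) ^ 4) * ∑ q : (Fin L × Fin L) × (Fin L × Fin L), f (uu q.1 - uu q.2)

lemma star_zpow_circle (w : ℂ) (hw : ‖w‖ = 1) (m : ℤ) : star (w ^ m) = w ^ (-m) := by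
  have : star w = w⁻¹ := by
    rw [Complex.inv_def, Complex.normSq_eq_norm_sq, hw]; simp
  rw [star_zpow₀, this, inv_zpow, zpow_neg]

lemma hh_star (L : ℕ) (w : ℂ) (hw : ‖w‖ = 1) :
    star (hh L w) = (1 / (L : ℂ) ^ 2) * ∑ p : Fin L × Fin L, w ^ (-(uu p)) := by
  unfold hh
  rw [star_mul', star_sum]
  congr 1
  · simp
  · exact Finset.sum_congr rfl (fun p _ => star_zpow_circle w hw _)

lemma hh_normsq (L : ℕ) (w : ℂ) (hw : ‖w‖ = 1) :
    ((‖hh L w‖ ^ 2 : ℝ) : ℂ) = (1 / (L : ℂ) ^ 4) *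
      ∑ q : (Fin L × Fin L) × (Fin L × Fin L), w ^ (uu q.1 - uu q.2) := by
  have hw0 : w ≠ 0 := by intro h; rw [h] at hw; simp at hw
  have h1 : ((‖hh L w‖ ^ 2 : ℝ) : ℂ) = hh L w * star (hh L w) := by
    have := Complex.mul_conj' (hh L w)
    rw [show star (hh L w) = (starRingEnd ℂ) (hh L w) from rfl, this]; push_cast; rfl
  rw [h1, hh_star L w hw]
  unfold hh
  rw [show (1 / (L : ℂ) ^ 2 * ∑ p : Fin L × Fin L, w ^ uu p) *
      (1 / (L : ℂ) ^ 2 * ∑ p : Fin L × Fin L, w ^ (-uu p)) =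
      (1 / (L : ℂ) ^ 4) * ((∑ p : Fin L × Fin L, w ^ uu p) * ∑ p : Fin L × Fin L, w ^ (-uu p)) by
      ring]
  congr 1
  rw [Finset.sum_mul_sum]
  symm
  rw [Fintype.sum_prod_type (f := fun q : (Fin L × Fin L) × (Fin L × Fin L) =>
    w ^ (uu q.1 - uu q.2))]
  refine Finset.sum_congr rfl (fun p _ => ?_)
  refine Finset.sum_congr rfl (fun p' _ => ?_)
  rw [sub_eq_add_neg, zpow_add₀ hw0]

lemma iter_inv {f : ℤ → ℂ} (h2 : ∀ j, f (2 * j) = f j) (V : ℤ) (hV : ∃ v : ℕ, V = 2 ^ v)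
    (i : ℕ) (j : ℤ) : f (j * V ^ i) = f j := by
  obtain ⟨v, rfl⟩ := hV
  rw [← pow_mul]
  induction (v * i) with
  | zero => simp
  | succ n ih =>
    rw [pow_succ, show j * (2 ^ n * 2) = 2 * (j * 2 ^ n) by ring, h2, ih]

lemma f_uu {f : ℤ → ℂ} (h2 : ∀ j, f (2 * j) = f j) (h3 : ∀ j, f (3 * j) = f j)
    {L : ℕ} (p : Fin L × Fin L) : f (uu p) = f 1 := by
  unfold uu
  have a2 : ∀ (n : ℕ) (j : ℤ), f (2 ^ n * j) = f j := by
    intro n
    induction n with
    | zero => intro j; simp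
    | succ n ih => intro j; rw [pow_succ, mul_assoc, ih, h2]
  have a3 : ∀ (n : ℕ), f (3 ^ n) = f 1 := by
    intro n
    induction n with
    | zero => simp
    | succ n ih => rw [pow_succ, mul_comm, h3, ih]
  rw [a2, a3]

/-- the element whose evaluation is `|h - r|^2` -/
noncomputable def HE (L : ℕ) (r : ℂ) (W : ℤ) : ℤ →₀ ℂ :=
  (∑ q : (Fin L × Fin L) × (Fin L × Fin L),
      Finsupp.single ((uu q.1 - uu q.2) * W) (1 / (L : ℂ) ^ 4)) -
    (∑ p : Fin L × Fin L, (Finsupp.single (uu p * W) ((1 / (L : ℂ) ^ 2) * star r) +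
      Finsupp.single (-(uu p * W)) ((1 / (L : ℂ) ^ 2) * r))) +
    Finsupp.single 0 (r * star r)

lemma ev_HE (L : ℕ) (r : ℂ) (W : ℤ) (z : ℂ) (hz : ‖z‖ = 1) :
    ev z (HE L r W) = ((‖hh L (z ^ W) - r‖ ^ 2 : ℝ) : ℂ) := by
  have hz0 : z ≠ 0 := by intro h; rw [h] at hz; simp at hz
  have hw : ‖z ^ W‖ = 1 := by rw [norm_zpow, hz, one_zpow]
  have e1 : ev z (HE L r W) = (1 / (L : ℂ) ^ 4) *
      (∑ q : (Fin L × Fin L) × (Fin L × Fin L), (z ^ W) ^ (uu q.1 - uu q.2)) -
      ((1 / (L : ℂ) ^ 2) * (∑ p : Fin L × Fin L, (z ^ W) ^ (uu p)) * star r +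
        (1 / (L : ℂ) ^ 2) * (∑ p : Fin L × Fin L, (z ^ W) ^ (-(uu p))) * r) + r * star r := by
    unfold HE ev
    simp only [map_add, map_sub, map_sum, Finsupp.linearCombination_single, smul_eq_mul,
      zpow_zero, mul_one]
    rw [Finset.sum_add_distrib]
    congr 1
    congr 1
    · rw [Finset.mul_sum]
      refine Finset.sum_congr rfl (fun q _ => ?_)
      rw [← zpow_mul, mul_comm W]
    · congr 1
      · rw [Finset.mul_sum, Finset.sum_mul]
        refine Finset.sum_congr rfl (fun q _ => ?_)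
        rw [← zpow_mul, mul_comm W]; ring
      · rw [Finset.mul_sum, Finset.sum_mul]
        refine Finset.sum_congr rfl (fun q _ => ?_)
        rw [← zpow_mul, show W * -uu q = -(uu q * W) by ring]; ring
  rw [e1, ← hh_normsq L _ hw]
  have h1 : ((‖hh L (z ^ W) - r‖ ^ 2 : ℝ) : ℂ) =
      (hh L (z ^ W) - r) * star (hh L (z ^ W) - r) := by
    have := Complex.mul_conj' (hh L (z ^ W) - r)
    rw [show star (hh L (z ^ W) - r) = (starRingEnd ℂ) (hh L (z ^ W) - r) from rfl, this]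
    push_cast; rfl
  have h2 : ((‖hh L (z ^ W)‖ ^ 2 : ℝ) : ℂ) = hh L (z ^ W) * star (hh L (z ^ W)) := by
    have := Complex.mul_conj' (hh L (z ^ W))
    rw [show star (hh L (z ^ W)) = (starRingEnd ℂ) (hh L (z ^ W)) from rfl, this]
    push_cast; rfl
  rw [h1, h2, star_sub, hh_star L _ hw]
  simp only [hh]
  ring

lemma Ph_HE {f : ℤ → ℂ} (hf : PDZ f) (hf0 : f 0 = 1) (h2 : ∀ j, f (2 * j) = f j)
    (h3 : ∀ j, f (3 * j) = f j) (L : ℕ) (hL : 0 < L) (V : ℤ) (hV : ∃ v : ℕ, V = 2 ^ v) (i : ℕ) :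
    Ph f (HE L (f 1) (V ^ i)) = EE f L - f 1 * star (f 1) := by
  have hLc : (L : ℂ) ≠ 0 := by exact_mod_cast hL.ne'
  unfold HE Ph
  simp only [map_add, map_sub, map_sum, Finsupp.linearCombination_single, smul_eq_mul]
  have e1 : ∀ q : (Fin L × Fin L) × (Fin L × Fin L),
      (1 / (L : ℂ) ^ 4) * f ((uu q.1 - uu q.2) * V ^ i) = (1 / (L : ℂ) ^ 4) * f (uu q.1 - uu q.2) := by
    intro q; rw [iter_inv h2 V hV]
  have e2 : ∀ p : Fin L × Fin L, (1 / (L : ℂ) ^ 2) * star (f 1) * f (uu p * V ^ i) +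
      (1 / (L : ℂ) ^ 2) * (f 1) * f (-(uu p * V ^ i)) =
      (1 / (L : ℂ) ^ 2) * (2 * (f 1 * star (f 1))) := by
    intro p
    rw [pdz_herm hf, iter_inv h2 V hV, f_uu h2 h3]; ring
  simp only [e1, e2, hf0, mul_one]
  rw [← Finset.mul_sum, Finset.sum_const, Finset.card_univ, Fintype.card_prod, Fintype.card_fin,
    nsmul_eq_mul]
  unfold EE
  push_cast
  field_simp
  ring

/-- total weighted sum over tuples -/
noncomputable def TT (f : ℤ → ℂ) (L : ℕ) (V : ℤ) (k : ℕ) (x y : ℝ) : ℂ :=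
  ∑ e : Fin k → J L, ((∏ i, wt x y (e i) : ℝ) : ℂ) * f (nv V e)

lemma lower_bound {f : ℤ → ℂ} (hf : PDZ f) (hf0 : f 0 = 1) (h2 : ∀ j, f (2 * j) = f j)
    (h3 : ∀ j, f (3 * j) = f j) (L : ℕ) (hL : 0 < L) (V : ℤ) (hV : ∃ v : ℕ, V = 2 ^ v)
    (δ : ℝ) (hδ : 0 < δ) (h1 : f 1 ≠ 0) (hE : (EE f L).re - ‖f 1‖ ^ 2 ≤ δ / 8) (k : ℕ) :
    (‖f 1‖ ^ 2 / 4) ^ k ≤ (TT f L V k δ (1 / (L : ℝ) ^ 4)).re := by
  set s := ‖f 1‖ ^ 2 with hs
  have hspos : 0 < s := by
    have : 0 < ‖f 1‖ := norm_pos_iff.mpr h1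
    positivity
  set P : ℤ →₀ ℂ := (∑ e : Fin k → J L,
      Finsupp.single (nv V e) ((∏ i, wt δ (1 / (L : ℝ) ^ 4) (e i) : ℝ) : ℂ)) -
    (((s / 4) ^ k : ℝ) : ℂ) • (Finsupp.single 0 (1 : ℂ) + ∑ i : Fin k, (Finsupp.single 0 (1 / 2 : ℂ) -
      ((4 / δ : ℝ) : ℂ) • HE L (f 1) (V ^ (i : ℕ)))) with hP
  have hev : ∀ z : ℂ, ‖z‖ = 1 → 0 ≤ ev z P := by
    intro z hz
    have hz0 : z ≠ 0 := by intro h; rw [h] at hz; simp at hz
    have e1 : ev z (∑ e : Fin k → J L,
        Finsupp.single (nv V e) ((∏ i, wt δ (1 / (L : ℝ) ^ 4) (e i) : ℝ) : ℂ)) =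
        ((∏ i : Fin k, (δ + ‖hh L (z ^ (V ^ (i : ℕ)))‖ ^ 2) : ℝ) : ℂ) := by
      have e2 : ∀ i : Fin k, (((δ + ‖hh L (z ^ (V ^ (i : ℕ)))‖ ^ 2 : ℝ)) : ℂ) =
          ∑ j : J L, (wt δ (1 / (L : ℝ) ^ 4) j : ℂ) * z ^ (vl j * V ^ (i : ℕ)) := by
        intro i
        have hw : ‖z ^ (V ^ (i : ℕ))‖ = 1 := by rw [norm_zpow, hz, one_zpow]
        rw [Fintype.sum_option, Complex.ofReal_add, hh_normsq L _ hw]
        congr 1
        · simp [wt, vl]
        · rw [Finset.mul_sum]
          refine Finset.sum_congr rfl (fun q _ => ?_)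
          simp only [wt, vl]
          rw [← zpow_mul, mul_comm (V ^ (i : ℕ))]
          push_cast
          rfl
      rw [Complex.ofReal_prod]
      simp only [e2]
      rw [Finset.prod_univ_sum, Fintype.piFinset_univ]
      unfold ev
      rw [map_sum]
      refine Finset.sum_congr rfl (fun e _ => ?_)
      rw [Finsupp.linearCombination_single, smul_eq_mul, Finset.prod_mul_distrib,
        Complex.ofReal_prod]
      congr 1
      unfold nv
      induction (Finset.univ : Finset (Fin k)) using Finset.induction_on with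
      | empty => simp
      | insert a t ha ih => rw [Finset.prod_insert ha, Finset.sum_insert ha, zpow_add₀ hz0, ih]
    have e3 : ev z P = ((∏ i : Fin k, (δ + ‖hh L (z ^ (V ^ (i : ℕ)))‖ ^ 2) -
        (s / 4) ^ k * (1 + ∑ i : Fin k, (1 / 2 - (4 / δ) *
          ‖hh L (z ^ (V ^ (i : ℕ))) - f 1‖ ^ 2)) : ℝ) : ℂ) := by
      rw [hP, map_sub, e1, map_smul, map_add, map_sum]
      have e4 : ∀ i : Fin k, ev z (Finsupp.single 0 (1 / 2 : ℂ) -
          ((4 / δ : ℝ) : ℂ) • HE L (f 1) (V ^ (i : ℕ))) =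
          ((1 / 2 - (4 / δ) * ‖hh L (z ^ (V ^ (i : ℕ))) - f 1‖ ^ 2 : ℝ) : ℂ) := by
        intro i
        rw [map_sub, map_smul, ev_HE L _ _ z hz]
        simp only [ev, Finsupp.linearCombination_single, zpow_zero, smul_eq_mul, mul_one]
        push_cast
        ring
      simp only [e4]
      simp only [ev, Finsupp.linearCombination_single, zpow_zero, smul_eq_mul, mul_one]
      push_cast
      ring
    rw [e3]
    have := pt_prod (fun i : Fin k => δ + ‖hh L (z ^ (V ^ (i : ℕ)))‖ ^ 2)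
      (fun i : Fin k => 1 / 2 - (4 / δ) * ‖hh L (z ^ (V ^ (i : ℕ))) - f 1‖ ^ 2)
      (s / 4) (by positivity) (fun i => by positivity)
      (fun i => pt_one _ _ δ hδ h1)
    rw [← Complex.ofReal_zero, Complex.real_le_real]
    linarith
  have hpos := pos_functional hf P hev
  have e5 : Ph f P = TT f L V k δ (1 / (L : ℝ) ^ 4) - (((s / 4) ^ k : ℝ) : ℂ) *
      (1 + k * (1 / 2 - ((4 / δ : ℝ) : ℂ) * (EE f L - f 1 * star (f 1)))) := by
    rw [hP, map_sub, map_smul, map_add, map_sum, map_sum]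
    have e6 : ∀ i : Fin k, Ph f (Finsupp.single 0 (1 / 2 : ℂ) -
        ((4 / δ : ℝ) : ℂ) • HE L (f 1) (V ^ (i : ℕ))) =
        (1 / 2 - ((4 / δ : ℝ) : ℂ) * (EE f L - f 1 * star (f 1))) := by
      intro i
      rw [map_sub, map_smul, Ph_HE hf hf0 h2 h3 L hL V hV]
      simp [Ph, hf0]
    simp only [e6]
    rw [Finset.sum_const, Finset.card_univ, Fintype.card_fin, nsmul_eq_mul]
    unfold TT
    simp [Ph, hf0]
  rw [e5] at hpos
  have hst : f 1 * star (f 1) = ((s : ℝ) : ℂ) := by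
    have := Complex.mul_conj' (f 1)
    rw [show star (f 1) = (starRingEnd ℂ) (f 1) from rfl, this, hs]; push_cast; rfl
  rw [hst] at hpos
  have e7 : ((((s / 4) ^ k : ℝ) : ℂ) *
      (1 + k * (1 / 2 - ((4 / δ : ℝ) : ℂ) * (EE f L - (s : ℂ))))).re =
      (s / 4) ^ k * (1 + k * (1 / 2 - (4 / δ) * ((EE f L).re - s))) := by
    rw [Complex.re_ofReal_mul]
    congr 1
    have : (1 + (k : ℂ) * (1 / 2 - ((4 / δ : ℝ) : ℂ) * (EE f L - (s : ℂ)))) =
        ((1 + k / 2 + k * (4 / δ) * s : ℝ) : ℂ) - ((k * (4 / δ) : ℝ) : ℂ) * EE f L := by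
      push_cast; ring
    rw [this, Complex.sub_re, Complex.ofReal_re, Complex.re_ofReal_mul]
    ring
  rw [Complex.sub_re, e7] at hpos
  have h8 : (4 / δ) * ((EE f L).re - s) ≤ 1 / 2 := by
    calc (4 / δ) * ((EE f L).re - s) ≤ (4 / δ) * (δ / 8) :=
          mul_le_mul_of_nonneg_left hE (by positivity)
      _ = 1 / 2 := by field_simp; norm_num
  have h9 : 0 ≤ (k : ℝ) * (1 / 2 - (4 / δ) * ((EE f L).re - s)) :=
    mul_nonneg (by positivity) (by linarith)
  have h10 : (s / 4) ^ k ≤ (s / 4) ^ k * (1 + k * (1 / 2 - (4 / δ) * ((EE f L).re - s))) := by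
    have : 0 < (s / 4) ^ k := by positivity
    nlinarith
  linarith

/-! ### the counting -/

lemma wt_nonneg {L : ℕ} {x y : ℝ} (hx : 0 ≤ x) (hy : 0 ≤ y) (j : J L) : 0 ≤ wt x y j := by
  cases j with
  | none => exact hx
  | some q => exact hy

lemma sum_prod_wt {L : ℕ} (k : ℕ) (x y : ℝ) :
    ∑ e : Fin k → J L, ∏ i, wt x y (e i) = (x + L ^ 4 * y) ^ k := by
  rw [← sum_wt (L := L) x y]
  have := (Finset.prod_univ_sum (fun _ : Fin k => (Finset.univ : Finset (J L)))
    (fun _ j => wt x y j)).symm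
  rw [Fintype.piFinset_univ] at this
  rw [this, Finset.prod_const, Finset.card_univ, Fintype.card_fin]

lemma fiber_bound {L : ℕ} (V : ℤ) (hV : 2 * 6 ^ L ≤ V) (k : ℕ) (x y : ℝ) (hx : 0 ≤ x)
    (hy : 0 ≤ y) (n : ℤ) :
    ∑ e : Fin k → J L with nv V e = n, ∏ i, wt x y (e i) ≤ (x + L ^ 2 * y) ^ k := by
  by_cases hex : ∃ e0 : Fin k → J L, nv V e0 = n
  · obtain ⟨e0, he0⟩ := hex
    have hsub : (Finset.univ.filter (fun e : Fin k → J L => nv V e = n)) ⊆
        Fintype.piFinset (fun i => Finset.univ.filter (fun j : J L => vl j = vl (e0 i))) := by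
      intro e he
      rw [Finset.mem_filter] at he
      rw [Fintype.mem_piFinset]
      intro i
      rw [Finset.mem_filter]
      refine ⟨Finset.mem_univ _, ?_⟩
      have h := digits_unique V (6 ^ L) hV k (fun i => vl (e i)) (fun i => vl (e0 i))
        (fun i => vl_abs _) (fun i => vl_abs _) (by
          have : nv V e = nv V e0 := by rw [he.2, he0]
          exact this)
      exact congrFun h i
    calc ∑ e : Fin k → J L with nv V e = n, ∏ i, wt x y (e i)
        ≤ ∑ e ∈ Fintype.piFinset (fun i => Finset.univ.filter (fun j : J L => vl j = vl (e0 i))),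
          ∏ i, wt x y (e i) := by
          apply Finset.sum_le_sum_of_subset_of_nonneg hsub
          intro e _ _
          exact Finset.prod_nonneg (fun i _ => wt_nonneg hx hy _)
      _ = ∏ i, ∑ j : J L with vl j = vl (e0 i), wt x y j := by
          rw [← Finset.prod_univ_sum]
      _ ≤ ∏ _i : Fin k, (x + L ^ 2 * y) := by
          apply Finset.prod_le_prod
          · intro i _
            exact Finset.sum_nonneg (fun j _ => wt_nonneg hx hy _)
          · intro i _
            exact sum_wt_fiber x y hx hy _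
      _ = _ := by rw [Finset.prod_const, Finset.card_univ, Fintype.card_fin]
  · have : (Finset.univ.filter (fun e : Fin k → J L => nv V e = n)) = ∅ := by
      rw [Finset.filter_eq_empty_iff]
      intro e _ h
      exact hex ⟨e, h⟩
    rw [this, Finset.sum_empty]
    positivity

/-- the level set inside the frequencies -/
noncomputable def SS (f : ℤ → ℂ) (L : ℕ) (V : ℤ) (k : ℕ) (ε : ℝ) : Finset ℤ :=
  (Finset.univ.image (nv V : (Fin k → J L) → ℤ)).filter (fun n => ε ≤ ‖f n‖)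

lemma upper_bound {f : ℤ → ℂ} (hf : PDZ f) (hf0 : f 0 = 1) (L : ℕ) (V : ℤ)
    (hV : 2 * 6 ^ L ≤ V) (η : ℝ) (hη : 0 < η) (hη1 : η ≤ 1) (hL : 1 ≤ η * L) (ε : ℝ)
    (hε : 0 ≤ ε) (k : ℕ) :
    (TT f L V k (η ^ 2) (1 / (L : ℝ) ^ 4)).re ≤
      ε * (1 + η ^ 2) ^ k + (2 * η) ^ k + #(SS f L V k ε) * (2 * η / L) ^ k := by
  have hLpos : (0 : ℝ) < L := by
    by_contra h
    push Not at h
    nlinarith
  have h1 : (TT f L V k (η ^ 2) (1 / (L : ℝ) ^ 4)).re ≤
      ∑ e : Fin k → J L, (∏ i, wt (η ^ 2) (1 / (L : ℝ) ^ 4) (e i)) * ‖f (nv V e)‖ := by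
    refine (Complex.re_le_norm _).trans ?_
    unfold TT
    refine (norm_sum_le _ _).trans ?_
    refine Finset.sum_le_sum (fun e _ => ?_)
    rw [norm_mul, Complex.norm_real, Real.norm_of_nonneg]
    exact Finset.prod_nonneg (fun i _ => wt_nonneg (by positivity) (by positivity) _)
  refine h1.trans ?_
  have h2 : ∀ e : Fin k → J L, (∏ i, wt (η ^ 2) (1 / (L : ℝ) ^ 4) (e i)) * ‖f (nv V e)‖ ≤
      ε * (∏ i, wt (η ^ 2) (1 / (L : ℝ) ^ 4) (e i)) +
      (∏ i, wt η (η / (L : ℝ) ^ 4) (e i)) +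
      (if ε ≤ ‖f (nv V e)‖ then ∏ i, wt (η / L) (η / (L : ℝ) ^ 3) (e i) else 0) := by
    intro e
    have hnn : 0 ≤ ∏ i, wt (η ^ 2) (1 / (L : ℝ) ^ 4) (e i) :=
      Finset.prod_nonneg (fun i _ => wt_nonneg (by positivity) (by positivity) _)
    have hnA : 0 ≤ ∏ i, wt η (η / (L : ℝ) ^ 4) (e i) :=
      Finset.prod_nonneg (fun i _ => wt_nonneg (by positivity) (by positivity) _)
    split_ifs with hc
    · have := prod_le_AB k η hη hη1 hL e
      have hn1 := pdz_norm_le hf hf0 (nv V e)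
      nlinarith [mul_le_mul_of_nonneg_left hn1 hnn, mul_nonneg hε hnn]
    · push Not at hc
      nlinarith [mul_le_mul_of_nonneg_left hc.le hnn]
  refine (Finset.sum_le_sum (fun e _ => h2 e)).trans ?_
  rw [Finset.sum_add_distrib, Finset.sum_add_distrib, ← Finset.mul_sum, sum_prod_wt, sum_prod_wt]
  have e1 : η ^ 2 + (L : ℝ) ^ 4 * (1 / (L : ℝ) ^ 4) = 1 + η ^ 2 := by field_simp; ring
  have e2 : η + (L : ℝ) ^ 4 * (η / (L : ℝ) ^ 4) = 2 * η := by field_simp; ring
  rw [e1, e2]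
  have h3 : ∑ e : Fin k → J L, (if ε ≤ ‖f (nv V e)‖ then
      ∏ i, wt (η / L) (η / (L : ℝ) ^ 3) (e i) else 0) ≤ #(SS f L V k ε) * (2 * η / L) ^ k := by
    rw [← Finset.sum_filter]
    have hmaps : ∀ e ∈ Finset.univ.filter (fun e : Fin k → J L => ε ≤ ‖f (nv V e)‖),
        nv V e ∈ SS f L V k ε := by
      intro e he
      unfold SS
      rw [Finset.mem_filter] at he ⊢
      exact ⟨Finset.mem_image_of_mem _ (Finset.mem_univ _), he.2⟩
    rw [← Finset.sum_fiberwise_of_maps_to hmaps]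
    calc _ ≤ ∑ _n ∈ SS f L V k ε, (2 * η / L) ^ k := by
          refine Finset.sum_le_sum (fun n _ => ?_)
          calc _ ≤ ∑ e : Fin k → J L with nv V e = n,
                ∏ i, wt (η / L) (η / (L : ℝ) ^ 3) (e i) := by
                apply Finset.sum_le_sum_of_subset_of_nonneg
                · intro e he
                  rw [Finset.mem_filter] at he
                  rw [Finset.mem_filter]
                  exact ⟨Finset.mem_univ _, he.2⟩
                · intro e _ _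
                  exact Finset.prod_nonneg
                    (fun i _ => wt_nonneg (by positivity) (by positivity) _)
            _ ≤ (η / L + L ^ 2 * (η / (L : ℝ) ^ 3)) ^ k :=
                fiber_bound V hV k _ _ (by positivity) (by positivity) n
            _ = (2 * η / L) ^ k := by
                congr 1
                field_simp
                ring
      _ = _ := by rw [Finset.sum_const, nsmul_eq_mul]
  linarith

lemma card_SS {f : ℤ → ℂ} (hf : PDZ f) (hf0 : f 0 = 1) (h2 : ∀ j, f (2 * j) = f j)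
    (h3 : ∀ j, f (3 * j) = f j) (L : ℕ) (V : ℤ) (hV : ∃ v : ℕ, V = 2 ^ v)
    (hV6 : 2 * 6 ^ L ≤ V) (h1 : f 1 ≠ 0) (hL : 32 ≤ ‖f 1‖ ^ 2 * L)
    (hE : (EE f L).re - ‖f 1‖ ^ 2 ≤ (‖f 1‖ ^ 2 / 32) ^ 2 / 8) (k : ℕ) (hk : 1 ≤ k) :
    (2 * (L : ℝ)) ^ k ≤ #(SS f L V k ((‖f 1‖ ^ 2 / 32) ^ k)) := by
  set s := ‖f 1‖ ^ 2 with hs
  have hn : 0 < ‖f 1‖ := norm_pos_iff.mpr h1
  have hspos : 0 < s := by positivity
  have hs1 : s ≤ 1 := pow_le_one₀ hn.le (pdz_norm_le hf hf0 1)
  have hLpos : (0 : ℝ) < L := by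
    by_contra h
    push Not at h
    nlinarith
  have hLn : 0 < L := by exact_mod_cast hLpos
  have hlow := lower_bound hf hf0 h2 h3 L hLn V hV ((s / 32) ^ 2) (by positivity) h1 hE k
  have hup := upper_bound hf hf0 L V hV6 (s / 32) (by positivity) (by linarith)
    (by linarith) ((s / 32) ^ k) (by positivity) k
  have h4 := hlow.trans hup
  rw [← hs] at h4
  have h5 : (s / 32) ^ k * (1 + (s / 32) ^ 2) ^ k ≤ (s / 16) ^ k := by
    rw [← mul_pow]
    apply pow_le_pow_left₀ (by positivity)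
    nlinarith
  have h6 : (2 * (s / 32)) ^ k = (s / 16) ^ k := by congr 1; ring
  have h7 : (2 * (s / 32) / L) ^ k = (s / 16) ^ k / L ^ k := by
    rw [← div_pow]; congr 1; ring
  rw [h6, h7] at h4
  set N := (#(SS f L V k ((s / 32) ^ k)) : ℝ) with hN
  have h8 : (s / 4) ^ k = 4 ^ k * (s / 16) ^ k := by
    rw [← mul_pow]; congr 1; ring
  rw [h8] at h4
  have h9 : 0 < (s / 16) ^ k := by positivity
  have h10 : 4 ^ k * (s / 16) ^ k ≤ (2 + N / L ^ k) * (s / 16) ^ k := by
    calc 4 ^ k * (s / 16) ^ k ≤ _ := h4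
      _ ≤ (s / 16) ^ k + (s / 16) ^ k + N * ((s / 16) ^ k / L ^ k) := by linarith
      _ = _ := by ring
  have h11 : (4 : ℝ) ^ k ≤ 2 + N / L ^ k := le_of_mul_le_mul_right h10 h9
  have h12 : (2 : ℝ) ^ k + 2 ≤ 4 ^ k := by
    have : (2 : ℝ) ≤ 2 ^ k := by
      calc (2 : ℝ) = 2 ^ 1 := by norm_num
        _ ≤ 2 ^ k := pow_le_pow_right₀ (by norm_num) hk
    have h13 : (4 : ℝ) ^ k = 2 ^ k * 2 ^ k := by rw [← mul_pow]; norm_num
    rw [h13]; nlinarith
  have h14 : (2 : ℝ) ^ k ≤ N / L ^ k := by linarith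
  rw [le_div_iff₀ (by positivity)] at h14
  rw [mul_pow]
  exact h14

/-- number of positive integers up to `X` in the level set -/
noncomputable def posCount (f : ℤ → ℂ) (X : ℕ) (ε : ℝ) : ℕ :=
  #{n ∈ Finset.Icc 1 X | ε ≤ ‖f ((n : ℕ) : ℤ)‖}

lemma SS_le {f : ℤ → ℂ} (hf : PDZ f) (L : ℕ) (V : ℤ) (hV6 : 2 * 6 ^ L ≤ V) (k : ℕ) (ε : ℝ)
    (X : ℕ) (hX : V ^ k ≤ X) : #(SS f L V k ε) ≤ 1 + 2 * posCount f X ε := by
  have h6 : (0 : ℤ) < 6 ^ L := by positivity
  set A : Finset ℤ := {0} with hA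
  set B : Finset ℤ := ((Finset.Icc 1 X).filter (fun n : ℕ => ε ≤ ‖f (n : ℤ)‖)).image
    (fun n : ℕ => (n : ℤ)) with hB
  set C : Finset ℤ := ((Finset.Icc 1 X).filter (fun n : ℕ => ε ≤ ‖f (n : ℤ)‖)).image
    (fun n : ℕ => -(n : ℤ)) with hC
  have hsub : SS f L V k ε ⊆ A ∪ B ∪ C := by
    intro n hn
    unfold SS at hn
    rw [Finset.mem_filter, Finset.mem_image] at hn
    obtain ⟨⟨e, _, he⟩, hn2⟩ := hn
    have hb := digits_bound V (6 ^ L) h6 (by linarith) k (fun i => vl (e i)) (fun i => vl_abs _)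
    have hb' : |n| < X := by
      rw [← he]
      exact lt_of_lt_of_le hb hX
    have hnabs : ‖f (n.natAbs : ℤ)‖ = ‖f n‖ := by
      rcases Int.natAbs_eq n with h | h
      · rw [← h]
      · have h3 : f n = star (f (n.natAbs : ℤ)) := by
          conv_lhs => rw [h]
          exact pdz_herm hf _
        rw [h3, norm_star]
    by_cases h0 : n = 0
    · simp [hA, h0]
    · have hmem : n.natAbs ∈ (Finset.Icc 1 X).filter (fun n : ℕ => ε ≤ ‖f (n : ℤ)‖) := by
        rw [Finset.mem_filter, Finset.mem_Icc]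
        have hcast : (n.natAbs : ℤ) = |n| := Int.natCast_natAbs n
        refine ⟨⟨by omega, ?_⟩, ?_⟩
        · have : (n.natAbs : ℤ) < X := by rw [hcast]; exact hb'
          omega
        · rw [hnabs]; exact hn2
      rcases Int.natAbs_eq n with h | h
      · apply Finset.mem_union_left
        apply Finset.mem_union_right
        rw [hB, Finset.mem_image]
        exact ⟨n.natAbs, hmem, h.symm⟩
      · apply Finset.mem_union_right
        rw [hC, Finset.mem_image]
        exact ⟨n.natAbs, hmem, h.symm⟩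
  calc #(SS f L V k ε) ≤ #(A ∪ B ∪ C) := Finset.card_le_card hsub
    _ ≤ #A + #B + #C := (Finset.card_union_le _ _).trans
        (Nat.add_le_add_right (Finset.card_union_le _ _) _)
    _ ≤ 1 + posCount f X ε + posCount f X ε := by
        refine Nat.add_le_add (Nat.add_le_add ?_ Finset.card_image_le) Finset.card_image_le
        simp [hA]
    _ = _ := by ring

/-- main theorem on the integers -/
theorem levelZ {f : ℤ → ℂ} (hf : PDZ f) (hf0 : f 0 = 1) (h2 : ∀ j, f (2 * j) = f j)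
    (h3 : ∀ j, f (3 * j) = f j) (h1 : f 1 ≠ 0)
    (hE : Filter.Tendsto (fun L => EE f L) Filter.atTop (nhds ((‖f 1‖ ^ 2 : ℝ) : ℂ))) :
    ∃ c : ℝ, 0 < c ∧ ∀ X k : ℕ, 1 ≤ k → (k : ℝ) ≤ c * Real.log X →
      (Real.log X / (12 * k)) ^ k ≤ posCount f X ((‖f 1‖ ^ 2 / 32) ^ k) := by
  set s := ‖f 1‖ ^ 2 with hs
  have hn : 0 < ‖f 1‖ := norm_pos_iff.mpr h1
  have hspos : 0 < s := by positivity
  have hre : Filter.Tendsto (fun L => (EE f L).re) Filter.atTop (nhds s) := by
    have := (Complex.continuous_re.tendsto _).comp hE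
    rw [Complex.ofReal_re] at this
    exact this
  have hev : ∀ᶠ L : ℕ in Filter.atTop, (EE f L).re - s ≤ (s / 32) ^ 2 / 8 := by
    have : ∀ᶠ L : ℕ in Filter.atTop, (EE f L).re < s + (s / 32) ^ 2 / 8 :=
      hre.eventually (gt_mem_nhds (by linarith [show 0 < (s / 32) ^ 2 / 8 by positivity]))
    filter_upwards [this] with L hL
    linarith
  have hev2 : ∀ᶠ L : ℕ in Filter.atTop, 32 ≤ s * L := by
    have : Filter.Tendsto (fun L : ℕ => s * (L : ℝ)) Filter.atTop Filter.atTop :=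
      Filter.Tendsto.const_mul_atTop hspos tendsto_natCast_atTop_atTop
    exact this.eventually_ge_atTop 32
  obtain ⟨L0, hL0⟩ := Filter.eventually_atTop.mp (hev.and hev2)
  have hlog2 : 0 < Real.log 2 := Real.log_pos (by norm_num)
  set c : ℝ := 1 / (4 * Real.log 2 * (L0 + 1)) with hc
  refine ⟨c, by positivity, ?_⟩
  intro X k hk hkX
  have hkpos : (0 : ℝ) < k := by exact_mod_cast hk
  set t : ℝ := Real.log X / (4 * Real.log 2 * k) with ht
  have htL : (L0 : ℝ) + 1 ≤ t := by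
    rw [ht, le_div_iff₀ (by positivity)]
    have := mul_le_mul_of_nonneg_left hkX (show (0:ℝ) ≤ 4 * Real.log 2 * (L0 + 1) by positivity)
    have e : 4 * Real.log 2 * (L0 + 1) * (c * Real.log X) = Real.log X := by
      rw [hc]; field_simp
    rw [e] at this
    linarith
  set L := ⌊t⌋₊ with hLdef
  have htpos : 0 ≤ t := by linarith [show (0:ℝ) ≤ L0 by positivity]
  have hLt : (L : ℝ) ≤ t := Nat.floor_le htpos
  have hLL0 : L0 ≤ L := by
    rw [hLdef]
    apply Nat.le_floor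
    linarith
  have hLge1 : 1 ≤ L := by
    rw [hLdef]
    apply Nat.le_floor
    push_cast
    linarith [show (0:ℝ) ≤ L0 by positivity]
  have hLge : t / 2 ≤ L := by
    have h := Nat.lt_floor_add_one t
    rw [← hLdef] at h
    have : (1 : ℝ) ≤ L := by exact_mod_cast hLge1
    linarith
  have hXpos : 0 < Real.log X := by
    have : 0 < t := by linarith [show (0:ℝ) ≤ L0 by positivity]
    rw [ht] at this
    by_contra hneg
    push Not at hneg
    have := div_nonpos_of_nonpos_of_nonneg hneg (show (0:ℝ) ≤ 4 * Real.log 2 * k by positivity)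
    linarith
  have hX1 : (1 : ℝ) < X := by
    by_contra hneg
    push Not at hneg
    have := Real.log_nonpos (by positivity) hneg
    linarith
  -- the base
  set v := 3 * L + 1 with hv
  set V : ℤ := 2 ^ v with hV
  have hV6 : 2 * 6 ^ L ≤ V := by
    rw [hV, hv, pow_succ, pow_mul]
    have : (6 : ℤ) ^ L ≤ (2 ^ 3) ^ L := pow_le_pow_left₀ (by norm_num) (by norm_num) L
    linarith
  have hVX : V ^ k ≤ X := by
    have hreal : ((V ^ k : ℤ) : ℝ) ≤ X := by
      rw [hV]
      push_cast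
      rw [← pow_mul, ← Real.log_le_log_iff (by positivity) (by linarith), Real.log_pow]
      have h5 : ((v * k : ℕ) : ℝ) ≤ 4 * L * k := by
        rw [hv]; push_cast
        have : (1 : ℝ) ≤ L := by exact_mod_cast hLge1
        nlinarith
      calc ((v * k : ℕ) : ℝ) * Real.log 2 ≤ 4 * L * k * Real.log 2 :=
            mul_le_mul_of_nonneg_right h5 hlog2.le
        _ ≤ 4 * t * k * Real.log 2 := by
            apply mul_le_mul_of_nonneg_right _ hlog2.le
            apply mul_le_mul_of_nonneg_right _ hkpos.le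
            linarith
        _ = Real.log X := by
            rw [ht]; field_simp
    exact_mod_cast hreal
  have hcard := card_SS hf hf0 h2 h3 L V ⟨v, rfl⟩ hV6 h1 (hL0 L hLL0).2 (hL0 L hLL0).1 k hk
  have hle := SS_le hf L V hV6 k ((s / 32) ^ k) X hVX
  have hle' : ((#(SS f L V k ((s / 32) ^ k)) : ℕ) : ℝ) ≤
      1 + 2 * (posCount f X ((s / 32) ^ k) : ℝ) := by exact_mod_cast hle
  have h15 : (L : ℝ) ^ k ≤ 2 * (posCount f X ((s / 32) ^ k) : ℝ) := by
    have h16 : (1 : ℝ) ≤ (L : ℝ) ^ k := one_le_pow₀ (by exact_mod_cast hLge1)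
    have h17 : (2 * (L : ℝ)) ^ k = 2 ^ k * (L : ℝ) ^ k := mul_pow _ _ _
    have h18 : (2 : ℝ) ≤ 2 ^ k := by
      calc (2 : ℝ) = 2 ^ 1 := by norm_num
        _ ≤ 2 ^ k := pow_le_pow_right₀ (by norm_num) hk
    rw [← hs] at hcard
    nlinarith
  have h19 : ((L : ℝ) / 2) ^ k ≤ (posCount f X ((s / 32) ^ k) : ℝ) := by
    have h20 : ((L : ℝ) / 2) ^ k ≤ (L : ℝ) ^ k / 2 := by
      rw [div_pow]
      apply div_le_div_of_nonneg_left (by positivity) (by norm_num)
      calc (2 : ℝ) = 2 ^ 1 := by norm_num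
        _ ≤ 2 ^ k := pow_le_pow_right₀ (by norm_num) hk
    linarith
  refine le_trans (pow_le_pow_left₀ (by positivity) ?_ k) h19
  have h21 : Real.log X / (12 * k) ≤ t / 4 := by
    rw [ht, div_div, div_le_div_iff_of_pos_left hXpos (by positivity) (by positivity)]
    have := Real.log_two_lt_d9
    nlinarith
  linarith

end Helper17.LevelSets
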