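import Mathlib
import Pool.Agent.Helper17.FUCore
import Pool.Agent.Helper17.LevelSetsZ

set_option autoImplicit false
open scoped ComplexOrder BigOperators InnerProductSpace Topology
open Finset Filter

namespace Helper17.FU

variable {G : Type*} [Group G] {φ : G → ℂ}

lemma pd_bound {ψ : G → ℂ} (hψ : PD ψ) (g : G) : ‖ψ g‖ ≤ (ψ 1).re := by
  have : Fact (PD ψ) := ⟨hψ⟩
  have h1 : ∀ h : G, ‖dl ψ h‖ ^ 2 = (ψ 1).re := by
    intro h
    have h0 := inner_self_eq_norm_sq (𝕜 := ℂ) (dl ψ h)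
    rw [inner_dl, inv_mul_cancel] at h0
    rw [← h0]; rfl
  have h2 : ψ g = ⟪dl ψ 1, dl ψ g⟫_ℂ := by rw [inner_dl]; simp
  rw [h2]
  calc _ ≤ ‖dl ψ 1‖ * ‖dl ψ g‖ := norm_inner_le_norm _ _
    _ ≤ (‖dl ψ 1‖ ^ 2 + ‖dl ψ g‖ ^ 2) / 2 := by nlinarith [sq_nonneg (‖dl ψ 1‖ - ‖dl ψ g‖)]
    _ = _ := by rw [h1, h1]; ring

lemma pd_smul {ψ : G → ℂ} (hψ : PD ψ) (r : ℝ) (hr : 0 ≤ r) : PD (fun g => (r : ℂ) * ψ g) := by
  intro s c
  have h := hψ s c
  have e : ∑ i ∈ s, ∑ j ∈ s, star (c j) * c i * ((r : ℂ) * ψ (j⁻¹ * i)) =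
      (r : ℂ) * ∑ i ∈ s, ∑ j ∈ s, star (c j) * c i * ψ (j⁻¹ * i) := by
    rw [Finset.mul_sum]
    refine Finset.sum_congr rfl (fun i _ => ?_)
    rw [Finset.mul_sum]
    refine Finset.sum_congr rfl (fun j _ => ?_)
    ring
  rw [e]
  have : (0 : ℂ) ≤ (r : ℂ) := by rw [← Complex.ofReal_zero, Complex.real_le_real]; exact hr
  exact mul_nonneg this h

lemma pd_add {ψ₁ ψ₂ : G → ℂ} (h1 : PD ψ₁) (h2 : PD ψ₂) : PD (fun g => ψ₁ g + ψ₂ g) := by
  intro s c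
  have e : ∑ i ∈ s, ∑ j ∈ s, star (c j) * c i * (ψ₁ (j⁻¹ * i) + ψ₂ (j⁻¹ * i)) =
      ∑ i ∈ s, ∑ j ∈ s, star (c j) * c i * ψ₁ (j⁻¹ * i) +
      ∑ i ∈ s, ∑ j ∈ s, star (c j) * c i * ψ₂ (j⁻¹ * i) := by
    rw [← Finset.sum_add_distrib]
    refine Finset.sum_congr rfl (fun i _ => ?_)
    rw [← Finset.sum_add_distrib]
    refine Finset.sum_congr rfl (fun j _ => ?_)
    ring
  rw [e]
  exact add_nonneg (h1 s c) (h2 s c)

lemma extreme_dom (hφ : φ ∈ Set.extremePoints ℝ (TR G)) {ψ : G → ℂ} (hψ : PD ψ)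
    (hcψ : ∀ g h : G, ψ (h * g * h⁻¹) = ψ g) (K : ℝ)
    (hK : PD (fun g => (K : ℂ) * φ g - ψ g)) (g : G) : ψ g = ψ 1 * φ g := by
  have hmem := hφ.1
  have hφ1 : φ 1 = 1 := hmem.1
  have hφc : ∀ g h : G, φ (h * g * h⁻¹) = φ g := hmem.2.1
  have hφp : PD φ := hmem.2.2
  set a := (ψ 1).re with ha
  have h0 := pd_one hψ
  have ha0 : 0 ≤ a := (Complex.nonneg_iff.mp h0).1
  have hψ1 : ψ 1 = (a : ℂ) := by
    apply Complex.ext
    · simp [ha]
    · simp; exact (Complex.nonneg_iff.mp h0).2.symm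
  have hKa : 0 ≤ K - a := by
    have := (Complex.nonneg_iff.mp (pd_one hK)).1
    simp only [hφ1, mul_one] at this
    simpa [ha] using this
  rcases eq_or_lt_of_le ha0 with h | h
  · have hb := pd_bound hψ g
    rw [← ha, ← h] at hb
    have : ψ g = 0 := norm_le_zero_iff.mp hb
    rw [this, hψ1, ← h]; simp
  · set b := K + 1 - a with hb
    have hbpos : 0 < b := by linarith
    have hK1 : 0 < K + 1 := by linarith
    have haC : (a : ℂ) ≠ 0 := by exact_mod_cast h.ne'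
    have hbC : (b : ℂ) ≠ 0 := by exact_mod_cast hbpos.ne'
    have hKC : ((K + 1 : ℝ) : ℂ) ≠ 0 := by exact_mod_cast hK1.ne'
    set ψ₁ : G → ℂ := fun g => ((a⁻¹ : ℝ) : ℂ) * ψ g with hψ₁
    set ψ₂ : G → ℂ := fun g => ((b⁻¹ : ℝ) : ℂ) * (((K : ℂ) * φ g - ψ g) + φ g) with hψ₂
    have m1 : ψ₁ ∈ TR G := by
      refine ⟨?_, ?_, ?_⟩
      · simp only [hψ₁, hψ1]; push_cast; field_simp
      · intro g h; simp only [hψ₁, hcψ]
      · exact pd_smul hψ _ (by positivity)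
    have m2 : ψ₂ ∈ TR G := by
      refine ⟨?_, ?_, ?_⟩
      · simp only [hψ₂, hψ1, hφ1]
        rw [hb] at hbC ⊢
        push_cast at hbC ⊢
        field_simp
        ring
      · intro g h; simp only [hψ₂, hcψ, hφc]
      · exact pd_smul (pd_add hK hφp) _ (by positivity)
    have hseg : φ ∈ openSegment ℝ ψ₁ ψ₂ := by
      refine ⟨a / (K + 1), b / (K + 1), by positivity, by positivity, ?_, ?_⟩
      · rw [hb]; field_simp; ring
      · funext g
        simp only [Pi.add_apply, Pi.smul_apply, Complex.real_smul, hψ₁, hψ₂]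
        have hKC' : (K : ℂ) + 1 ≠ 0 := by push_cast at hKC; exact hKC
        push_cast
        field_simp
        ring
    have hfin := (mem_extremePoints.mp hφ).2 ψ₁ m1 ψ₂ m2 hseg
    have h5 := congrFun hfin.1 g
    simp only [hψ₁] at h5
    rw [hψ1, ← h5]
    push_cast
    field_simp

lemma norm_le_l1 [Fact (PD φ)] (h1 : φ 1 = 1) (x : GV φ) : ‖x‖ ≤ l1 x := by
  have h := norm_mulL x (dl φ 1)
  rw [mulL_dl, norm_dl h1, mul_one] at h
  have e : Rm 1 x = x := by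
    have : (Rm 1 : GV φ →ₗ[ℂ] GV φ) = LinearMap.id := by
      apply ext_dl
      intro k
      rw [Rm_dl]; simp
    rw [this]; rfl
  rwa [e] at h

lemma closed_nonneg_C : IsClosed {z : ℂ | 0 ≤ z} := by
  have : {z : ℂ | 0 ≤ z} = {z : ℂ | 0 ≤ z.re} ∩ {z : ℂ | 0 = z.im} := by
    ext z; simp [Complex.nonneg_iff]
  rw [this]
  exact (isClosed_le continuous_const Complex.continuous_re).inter
    (isClosed_eq continuous_const Complex.continuous_im)

lemma ultra_limit [Fact (PD φ)] (hφ : φ ∈ Set.extremePoints ℝ (TR G)) (x : ℕ → GV φ) (K : ℝ)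
    (hK : ∀ L, l1 (x L) ≤ K) (hinv : ∀ h : G, Tendsto (fun L => ‖Cm h (x L) - x L‖) atTop (𝓝 0))
    (U : Ultrafilter ℕ) (hU : (U : Filter ℕ) ≤ atTop) :
    ∃ l : G → ℂ, (∀ g, Tendsto (fun L => psi (x L) g) U (𝓝 (l g))) ∧ ∀ g, l g = l 1 * φ g := by
  have hφ1 : φ 1 = 1 := hφ.1.1
  have hφc : ∀ g h : G, φ (h * g * h⁻¹) = φ g := hφ.1.2.1
  have hl : ∀ L, 0 ≤ l1 (x L) := fun L => by
    unfold l1 Finsupp.sum
    exact Finset.sum_nonneg (fun i _ => norm_nonneg _)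
  have hK0 : 0 ≤ K := (hl 0).trans (hK 0)
  have hnx : ∀ L, ‖x L‖ ≤ K := fun L => (norm_le_l1 hφ1 _).trans (hK L)
  have hb : ∀ g L, psi (x L) g ∈ Metric.closedBall (0 : ℂ) (K ^ 2) := by
    intro g L
    rw [mem_closedBall_zero_iff]
    exact (psi_le hφc _ _).trans (pow_le_pow_left₀ (norm_nonneg _) (hnx L) 2)
  have hex : ∀ g, ∃ l : ℂ, Tendsto (fun L => psi (x L) g) U (𝓝 l) := by
    intro g
    have hc := isCompact_closedBall (0 : ℂ) (K ^ 2)
    have hle : ((U.map (fun L => psi (x L) g) : Ultrafilter ℂ) : Filter ℂ) ≤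
        𝓟 (Metric.closedBall (0 : ℂ) (K ^ 2)) := by
      rw [le_principal_iff]
      exact Filter.mem_map.mpr (Filter.univ_mem' (hb g))
    obtain ⟨l, _, hl⟩ := hc.ultrafilter_le_nhds _ hle
    exact ⟨l, hl⟩
  choose l hlim using hex
  refine ⟨l, hlim, ?_⟩
  have hpd : PD l := by
    intro s c
    have ht : Tendsto (fun L => ∑ i ∈ s, ∑ j ∈ s, star (c j) * c i * psi (x L) (j⁻¹ * i)) U
        (𝓝 (∑ i ∈ s, ∑ j ∈ s, star (c j) * c i * l (j⁻¹ * i))) :=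
      tendsto_finsetSum _ (fun i _ => tendsto_finsetSum _ (fun j _ => (hlim _).const_mul _))
    exact closed_nonneg_C.mem_of_tendsto ht (Filter.Eventually.of_forall (fun L =>
      psi_pd hφc (x L) s c))
  have hdom : PD (fun g => ((K ^ 2 : ℝ) : ℂ) * φ g - l g) := by
    intro s c
    have ht : Tendsto (fun L => ∑ i ∈ s, ∑ j ∈ s, star (c j) * c i *
        (((K ^ 2 : ℝ) : ℂ) * φ (j⁻¹ * i) - psi (x L) (j⁻¹ * i))) U
        (𝓝 (∑ i ∈ s, ∑ j ∈ s, star (c j) * c i *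
        (((K ^ 2 : ℝ) : ℂ) * φ (j⁻¹ * i) - l (j⁻¹ * i)))) :=
      tendsto_finsetSum _ (fun i _ => tendsto_finsetSum _ (fun j _ =>
        ((tendsto_const_nhds).sub (hlim _)).const_mul _))
    exact closed_nonneg_C.mem_of_tendsto ht (Filter.Eventually.of_forall (fun L =>
      psi_dom hφc (x L) (K ^ 2) (pow_le_pow_left₀ (hl L) (hK L) 2) s c))
  have hcl : ∀ g h : G, l (h * g * h⁻¹) = l g := by
    intro g h
    have ht : Tendsto (fun L => psi (x L) (h * g * h⁻¹) - psi (x L) g) U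
        (𝓝 (l (h * g * h⁻¹) - l g)) := (hlim _).sub (hlim _)
    have h0 : Tendsto (fun L => psi (x L) (h * g * h⁻¹) - psi (x L) g) atTop (𝓝 0) := by
      rw [tendsto_zero_iff_norm_tendsto_zero]
      have hb2 : Tendsto (fun L => ‖Cm h⁻¹ (x L) - x L‖ * (K + K)) atTop (𝓝 0) := by
        simpa using (hinv h⁻¹).mul_const (K + K)
      refine squeeze_zero (fun L => norm_nonneg _) (fun L => ?_) hb2
      rw [psi_conj hφc]
      refine (psi_close hφc _ _ _).trans ?_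
      apply mul_le_mul_of_nonneg_left _ (norm_nonneg _)
      rw [norm_Cm hφc]
      linarith [hnx L]
    have := tendsto_nhds_unique ht (h0.mono_left hU)
    exact sub_eq_zero.mp this
  exact fun g => extreme_dom hφ hpd hcl (K ^ 2) hdom g

omit [Group G] in
lemma l1_aux (a b : G →₀ ℂ) : ((a + b).sum fun _ t => ‖t‖) ≤ (a.sum fun _ t => ‖t‖) +
    (b.sum fun _ t => ‖t‖) := by
  classical
  have h1 : ∀ z : G →₀ ℂ, ∀ S : Finset G, z.support ⊆ S →
      (z.sum fun _ a => ‖a‖) = ∑ g ∈ S, ‖z g‖ := by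
    intro z S hS
    exact Finsupp.sum_of_support_subset z hS _ (fun i _ => norm_zero)
  rw [h1 a (a.support ∪ b.support) Finset.subset_union_left,
    h1 b (a.support ∪ b.support) Finset.subset_union_right,
    h1 (a + b) (a.support ∪ b.support) Finsupp.support_add, ← Finset.sum_add_distrib]
  exact Finset.sum_le_sum (fun g _ => norm_add_le _ _)

omit [Group G] in
lemma l1_add_le (x y : GV φ) : l1 (x + y) ≤ l1 x + l1 y := l1_aux x y

omit [Group G] in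
lemma l1_smul_dl (a : ℂ) (g : G) : l1 (a • dl φ g) = ‖a‖ := by
  have e : (a • dl φ g : GV φ) = (Finsupp.single g a : G →₀ ℂ) := by
    show a • (Finsupp.single g (1 : ℂ)) = _
    rw [Finsupp.smul_single, smul_eq_mul, mul_one]
  rw [e]
  unfold l1
  rw [Finsupp.sum_single_index (by simp)]

omit [Group G] in
lemma l1_sum_le {ι : Type*} (s : Finset ι) (x : ι → GV φ) : l1 (∑ i ∈ s, x i) ≤ ∑ i ∈ s, l1 (x i) := by
  classical
  induction s using Finset.induction_on with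
  | empty =>
    simp only [Finset.sum_empty]
    have : l1 (0 : GV φ) = 0 := by
      unfold l1
      exact Finsupp.sum_zero_index
    rw [this]
  | insert a s ha ih =>
    rw [Finset.sum_insert ha, Finset.sum_insert ha]
    exact (l1_add_le _ _).trans (add_le_add le_rfl ih)

/-- weak ergodicity: asymptotically central averages converge to scalars -/
lemma weak_limit [Fact (PD φ)] (hφ : φ ∈ Set.extremePoints ℝ (TR G)) (x : ℕ → GV φ)
    (hK : ∀ L, l1 (x L) ≤ 1) (hinv : ∀ h : G, Tendsto (fun L => ‖Cm h (x L) - x L‖) atTop (𝓝 0))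
    (g : G) :
    Tendsto (fun L => ⟪x L, dl φ g⟫_ℂ - ⟪x L, dl φ 1⟫_ℂ * φ g) atTop (𝓝 0) := by
  have hφ1 : φ 1 = 1 := hφ.1.1
  rw [tendsto_iff_ultrafilter]
  intro U hU
  have hpack : ∀ α : ℂ, ‖α‖ = 1 → ∃ l : G → ℂ,
      (∀ g, Tendsto (fun L => psi (α • dl φ 1 + x L) g) U (𝓝 (l g))) ∧ ∀ g, l g = l 1 * φ g := by
    intro α hα
    refine ultra_limit hφ (fun L => α • dl φ 1 + x L) 2 (fun L => ?_) (fun h => ?_) U hU
    · refine (l1_add_le _ _).trans ?_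
      rw [l1_smul_dl, hα]
      linarith [hK L]
    · have e : ∀ L, Cm h (α • dl φ 1 + x L) - (α • dl φ 1 + x L) = Cm h (x L) - x L := by
        intro L
        rw [map_add, map_smul, Cm_dl]
        simp
      simp only [e]
      exact hinv h
  obtain ⟨l1', h1, h1'⟩ := hpack 1 (by simp)
  obtain ⟨l2, h2, h2'⟩ := hpack (-1) (by simp)
  obtain ⟨l3, h3, h3'⟩ := hpack Complex.I (by simp)
  obtain ⟨l4, h4, h4'⟩ := hpack (-Complex.I) (by simp)
  have key : ∀ (L : ℕ) (g : G), ⟪x L, dl φ g⟫_ℂ = (1 / 4 : ℂ) *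
      (psi ((1 : ℂ) • dl φ 1 + x L) g - psi ((-1 : ℂ) • dl φ 1 + x L) g -
        Complex.I * (psi (Complex.I • dl φ 1 + x L) g - psi ((-Complex.I) • dl φ 1 + x L) g)) := by
    intro L g
    have hex : ∀ α : ℂ, psi (α • dl φ 1 + x L) g =
        (starRingEnd ℂ) α * α * ⟪dl φ 1, dl φ g⟫_ℂ + (starRingEnd ℂ) α * ⟪dl φ 1, Rm g (x L)⟫_ℂ +
        α * ⟪x L, dl φ g⟫_ℂ + ⟪x L, Rm g (x L)⟫_ℂ := by
      intro α
      unfold psi
      rw [map_add, map_smul, Rm_dl, one_mul, inner_add_left, inner_add_right, inner_add_right,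
        inner_smul_left, inner_smul_left, inner_smul_right, inner_smul_right]
      ring
    rw [hex, hex, hex, hex]
    simp only [map_one, map_neg, Complex.conj_I]
    ring_nf
    rw [Complex.I_sq]
    ring
  have hlimg : ∀ g, Tendsto (fun L => ⟪x L, dl φ g⟫_ℂ) U (𝓝 ((1 / 4 : ℂ) *
      (l1' g - l2 g - Complex.I * (l3 g - l4 g)))) := by
    intro g
    simp only [key]
    exact (((h1 g).sub (h2 g)).sub (((h3 g).sub (h4 g)).const_mul _)).const_mul _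
  have hfin := (hlimg g).sub ((hlimg 1).mul_const (φ g))
  have e0 : (1 / 4 : ℂ) * (l1' g - l2 g - Complex.I * (l3 g - l4 g)) -
      (1 / 4 : ℂ) * (l1' 1 - l2 1 - Complex.I * (l3 1 - l4 1)) * φ g = 0 := by
    rw [h1' g, h2' g, h3' g, h4' g]; ring
  rw [e0] at hfin
  exact hfin

/-! ### averages -/

/-- elements of the acting semigroup -/
def vv (s2 s3 : G) {L : ℕ} (p : Fin L × Fin L) : G := s2 ^ (p.1 : ℕ) * s3 ^ (p.2 : ℕ)

/-- averaging operator -/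
noncomputable def Av (s2 s3 : G) (L : ℕ) : GV φ →ₗ[ℂ] GV φ :=
  (1 / (L : ℂ) ^ 2) • ∑ p : Fin L × Fin L, Cm (vv s2 s3 p)

lemma Av_apply (s2 s3 : G) (L : ℕ) (y : GV φ) :
    Av s2 s3 L y = (1 / (L : ℂ) ^ 2) • ∑ p : Fin L × Fin L, Cm (vv s2 s3 p) y := by
  unfold Av
  rw [LinearMap.smul_apply, LinearMap.sum_apply]

lemma vv_comm {s2 s3 : G} (hc : s2 * s3 = s3 * s2) {L M : ℕ} (p : Fin L × Fin L)
    (q : Fin M × Fin M) : vv s2 s3 p * vv s2 s3 q = vv s2 s3 q * vv s2 s3 p := by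
  have h : Commute s2 s3 := hc
  unfold vv
  have h1 : Commute (s2 ^ (p.1 : ℕ) * s3 ^ (p.2 : ℕ)) (s2 ^ (q.1 : ℕ) * s3 ^ (q.2 : ℕ)) := by
    apply Commute.mul_right
    · apply Commute.mul_left
      · exact Commute.pow_pow_self _ _ _
      · exact (h.symm.pow_pow _ _)
    · apply Commute.mul_left
      · exact (h.pow_pow _ _)
      · exact Commute.pow_pow_self _ _ _
  exact h1

lemma Av_comm {s2 s3 : G} (hc : s2 * s3 = s3 * s2) (L M : ℕ) (y : GV φ) :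
    Av s2 s3 L (Av s2 s3 M y) = Av s2 s3 M (Av s2 s3 L y) := by
  rw [Av_apply s2 s3 L, Av_apply s2 s3 M, Av_apply s2 s3 M, Av_apply s2 s3 L]
  simp only [map_smul, map_sum]
  simp only [← Finset.smul_sum]
  rw [smul_comm, Finset.sum_comm]
  congr 2
  refine Finset.sum_congr rfl (fun q _ => Finset.sum_congr rfl (fun p _ => ?_))
  rw [Cm_Cm, Cm_Cm, vv_comm hc]

lemma norm_Av [Fact (PD φ)] (hφc : ∀ g h : G, φ (h * g * h⁻¹) = φ g) (s2 s3 : G) (L : ℕ)
    (y : GV φ) : ‖Av s2 s3 L y‖ ≤ ‖y‖ := by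
  rw [Av_apply, norm_smul]
  have h1 : ‖∑ p : Fin L × Fin L, Cm (vv s2 s3 p) y‖ ≤ (L : ℝ) ^ 2 * ‖y‖ := by
    refine (norm_sum_le _ _).trans ?_
    simp only [norm_Cm hφc]
    rw [Finset.sum_const, Finset.card_univ, Fintype.card_prod, Fintype.card_fin, nsmul_eq_mul]
    push_cast
    rw [pow_two]
  have h2 : ‖(1 / (L : ℂ) ^ 2)‖ = 1 / (L : ℝ) ^ 2 := by simp
  rw [h2]
  rcases Nat.eq_zero_or_pos L with h | h
  · subst h; simp
  · have hL : (0 : ℝ) < L := by exact_mod_cast h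
    calc 1 / (L : ℝ) ^ 2 * ‖∑ p : Fin L × Fin L, Cm (vv s2 s3 p) y‖
        ≤ 1 / (L : ℝ) ^ 2 * ((L : ℝ) ^ 2 * ‖y‖) := mul_le_mul_of_nonneg_left h1 (by positivity)
      _ = ‖y‖ := by field_simp

lemma sum_fin_shift {W : Type*} [AddCommGroup W] (F : ℕ → W) (L : ℕ) :
    ∑ a : Fin L, (F ((a : ℕ) + 1) - F a) = F L - F 0 := by
  rw [Fin.sum_univ_eq_sum_range (fun a => F (a + 1) - F a) L]
  exact Finset.sum_range_sub F L

/-- asymptotic invariance under the first generator -/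
lemma inv_s2 [Fact (PD φ)] (hφc : ∀ g h : G, φ (h * g * h⁻¹) = φ g) (s2 s3 : G) (y : GV φ)
    (L : ℕ) : ‖Cm s2 (Av s2 s3 L y) - Av s2 s3 L y‖ ≤ 2 * ‖y‖ / L := by
  rcases Nat.eq_zero_or_pos L with h | h
  · subst h; simp [Av_apply]
  have hL : (0 : ℝ) < L := by exact_mod_cast h
  have e : Cm s2 (Av s2 s3 L y) - Av s2 s3 L y = (1 / (L : ℂ) ^ 2) •
      ∑ b : Fin L, (Cm (s2 ^ L * s3 ^ (b : ℕ)) y - Cm (s2 ^ 0 * s3 ^ (b : ℕ)) y) := by
    rw [Av_apply, map_smul, map_sum, ← smul_sub, ← Finset.sum_sub_distrib, Fintype.sum_prod_type]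
    congr 1
    rw [Finset.sum_comm]
    refine Finset.sum_congr rfl (fun b _ => ?_)
    rw [← sum_fin_shift (fun a => Cm (s2 ^ a * s3 ^ (b : ℕ)) y) L]
    refine Finset.sum_congr rfl (fun a _ => ?_)
    rw [Cm_Cm]
    unfold vv
    congr 3
    rw [pow_succ', mul_assoc]
  rw [e, norm_smul]
  have h2 : ‖(1 / (L : ℂ) ^ 2)‖ = 1 / (L : ℝ) ^ 2 := by simp
  rw [h2]
  have h3 : ‖∑ b : Fin L, (Cm (s2 ^ L * s3 ^ (b : ℕ)) y - Cm (s2 ^ 0 * s3 ^ (b : ℕ)) y)‖ ≤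
      L * (2 * ‖y‖) := by
    refine (norm_sum_le _ _).trans ?_
    calc _ ≤ ∑ _b : Fin L, 2 * ‖y‖ := by
          refine Finset.sum_le_sum (fun b _ => ?_)
          refine (norm_sub_le _ _).trans ?_
          rw [norm_Cm hφc, norm_Cm hφc]; linarith
      _ = _ := by rw [Finset.sum_const, Finset.card_univ, Fintype.card_fin, nsmul_eq_mul]
  calc 1 / (L : ℝ) ^ 2 * _ ≤ 1 / (L : ℝ) ^ 2 * (L * (2 * ‖y‖)) :=
        mul_le_mul_of_nonneg_left h3 (by positivity)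
    _ = 2 * ‖y‖ / L := by field_simp

lemma inv_s3 [Fact (PD φ)] (hφc : ∀ g h : G, φ (h * g * h⁻¹) = φ g) {s2 s3 : G}
    (hc : s2 * s3 = s3 * s2) (y : GV φ)
    (L : ℕ) : ‖Cm s3 (Av s2 s3 L y) - Av s2 s3 L y‖ ≤ 2 * ‖y‖ / L := by
  rcases Nat.eq_zero_or_pos L with h | h
  · subst h; simp [Av_apply]
  have hL : (0 : ℝ) < L := by exact_mod_cast h
  have hcom : Commute s2 s3 := hc
  have e : Cm s3 (Av s2 s3 L y) - Av s2 s3 L y = (1 / (L : ℂ) ^ 2) •
      ∑ a : Fin L, (Cm (s2 ^ (a : ℕ) * s3 ^ L) y - Cm (s2 ^ (a : ℕ) * s3 ^ 0) y) := by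
    rw [Av_apply, map_smul, map_sum, ← smul_sub, ← Finset.sum_sub_distrib, Fintype.sum_prod_type]
    congr 1
    refine Finset.sum_congr rfl (fun a _ => ?_)
    rw [← sum_fin_shift (fun b => Cm (s2 ^ (a : ℕ) * s3 ^ b) y) L]
    refine Finset.sum_congr rfl (fun b _ => ?_)
    rw [Cm_Cm]
    unfold vv
    congr 3
    have h1 : s3 * s2 ^ (a : ℕ) = s2 ^ (a : ℕ) * s3 := (hcom.pow_left (a : ℕ)).symm
    rw [← mul_assoc, h1, pow_succ', mul_assoc]
  rw [e, norm_smul]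
  have h2 : ‖(1 / (L : ℂ) ^ 2)‖ = 1 / (L : ℝ) ^ 2 := by simp
  rw [h2]
  have h3 : ‖∑ a : Fin L, (Cm (s2 ^ (a : ℕ) * s3 ^ L) y - Cm (s2 ^ (a : ℕ) * s3 ^ 0) y)‖ ≤
      L * (2 * ‖y‖) := by
    refine (norm_sum_le _ _).trans ?_
    calc _ ≤ ∑ _b : Fin L, 2 * ‖y‖ := by
          refine Finset.sum_le_sum (fun b _ => ?_)
          refine (norm_sub_le _ _).trans ?_
          rw [norm_Cm hφc, norm_Cm hφc]; linarith
      _ = _ := by rw [Finset.sum_const, Finset.card_univ, Fintype.card_fin, nsmul_eq_mul]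
  calc 1 / (L : ℝ) ^ 2 * _ ≤ 1 / (L : ℝ) ^ 2 * (L * (2 * ‖y‖)) :=
        mul_le_mul_of_nonneg_left h3 (by positivity)
    _ = 2 * ‖y‖ / L := by field_simp

/-- asymptotic invariance is a subgroup property -/
lemma inv_all [Fact (PD φ)] (hφc : ∀ g h : G, φ (h * g * h⁻¹) = φ g) (x : ℕ → GV φ)
    (S : Set G) (hS : Subgroup.closure S = ⊤)
    (hinv : ∀ h ∈ S, Tendsto (fun L => ‖Cm h (x L) - x L‖) atTop (𝓝 0)) (h : G) :
    Tendsto (fun L => ‖Cm h (x L) - x L‖) atTop (𝓝 0) := by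
  have hmem : h ∈ Subgroup.closure S := by rw [hS]; trivial
  induction hmem using Subgroup.closure_induction with
  | mem g hg => exact hinv g hg
  | one =>
    have e : ∀ L, Cm 1 (x L) - x L = 0 := fun L => by rw [Cm_one]; simp
    simp only [e, norm_zero]
    exact tendsto_const_nhds
  | mul g k _ _ hg hk =>
    refine squeeze_zero (fun L => norm_nonneg _) (fun L => ?_) (by simpa using hk.add hg)
    have e : Cm (g * k) (x L) - x L = Cm g (Cm k (x L) - x L) + (Cm g (x L) - x L) := by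
      rw [map_sub, Cm_Cm]; abel
    rw [e]
    refine (norm_add_le _ _).trans ?_
    rw [norm_Cm hφc]
  | inv g _ hg =>
    refine hg.congr (fun L => ?_)
    have e : Cm g⁻¹ (x L) - x L = -(Cm g⁻¹ (Cm g (x L) - x L)) := by
      rw [map_sub, Cm_Cm]; simp [Cm_one]
    rw [e, norm_neg, norm_Cm hφc]

lemma tendsto_const_div (c : ℝ) : Tendsto (fun L : ℕ => c / (L : ℝ)) atTop (𝓝 0) :=
  tendsto_const_div_atTop_nhds_zero_nat c

/-- averages of averages are close to averages -/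
lemma Av_Av_close [Fact (PD φ)] (hφc : ∀ g h : G, φ (h * g * h⁻¹) = φ g) {s2 s3 : G}
    (hc : s2 * s3 = s3 * s2) (y : GV φ) (M : ℕ) (hM : 0 < M)
    (hinv : ∀ h : G, Tendsto (fun L => ‖Cm h (Av s2 s3 L y) - Av s2 s3 L y‖) atTop (𝓝 0)) :
    Tendsto (fun L => ‖Av s2 s3 L (Av s2 s3 M y) - Av s2 s3 L y‖) atTop (𝓝 0) := by
  have hMc : (M : ℂ) ≠ 0 := by exact_mod_cast hM.ne'
  have e : ∀ L, Av s2 s3 L (Av s2 s3 M y) - Av s2 s3 L y = (1 / (M : ℂ) ^ 2) •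
      ∑ q : Fin M × Fin M, (Cm (vv s2 s3 q) (Av s2 s3 L y) - Av s2 s3 L y) := by
    intro L
    rw [Av_comm hc L M, Av_apply s2 s3 M, Finset.sum_sub_distrib, smul_sub]
    congr 1
    rw [Finset.sum_const, Finset.card_univ, Fintype.card_prod, Fintype.card_fin,
      ← Nat.cast_smul_eq_nsmul ℂ, smul_smul]
    have : (1 / (M : ℂ) ^ 2) * ((M * M : ℕ) : ℂ) = 1 := by
      push_cast; field_simp
    rw [this, one_smul]
  simp only [e]
  have hb : Tendsto (fun L => ‖(1 / (M : ℂ) ^ 2)‖ *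
      ∑ q : Fin M × Fin M, ‖Cm (vv s2 s3 q) (Av s2 s3 L y) - Av s2 s3 L y‖) atTop (𝓝 0) := by
    have h1 : Tendsto (fun L => ∑ q : Fin M × Fin M,
        ‖Cm (vv s2 s3 q) (Av s2 s3 L y) - Av s2 s3 L y‖) atTop
        (𝓝 (∑ _q : Fin M × Fin M, (0 : ℝ))) :=
      tendsto_finsetSum _ (fun q _ => hinv _)
    have h2 := h1.const_mul (‖(1 / (M : ℂ) ^ 2)‖)
    rw [Finset.sum_const_zero, mul_zero] at h2
    exact h2
  refine squeeze_zero (fun L => norm_nonneg _) (fun L => ?_) hb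
  rw [norm_smul]
  exact mul_le_mul_of_nonneg_left (norm_sum_le _ _) (norm_nonneg _)

/-- the minimal norm argument -/
lemma strong_limit [Fact (PD φ)] (hφc : ∀ g h : G, φ (h * g * h⁻¹) = φ g) {s2 s3 : G}
    (hc : s2 * s3 = s3 * s2) (y : GV φ) (hy : ‖y‖ ≤ 1)
    (hinv : ∀ h : G, Tendsto (fun L => ‖Cm h (Av s2 s3 L y) - Av s2 s3 L y‖) atTop (𝓝 0))
    (s : ℝ)
    (hweak : ∀ M : ℕ, 0 < M → Tendsto (fun L => ⟪Av s2 s3 L y, Av s2 s3 M y⟫_ℂ) atTop
      (𝓝 (s : ℂ))) :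
    Tendsto (fun L => ‖Av s2 s3 L y‖ ^ 2) atTop (𝓝 s) := by
  set x : ℕ → GV φ := fun L => Av s2 s3 L y with hx
  have hx1 : ∀ L, ‖x L‖ ≤ 1 := fun L => (norm_Av hφc s2 s3 L y).trans hy
  set d : ℝ := ⨅ n : ℕ, ‖x (n + 1)‖ with hd
  have hbdd : BddBelow (Set.range (fun n : ℕ => ‖x (n + 1)‖)) :=
    ⟨0, by rintro _ ⟨n, rfl⟩; exact norm_nonneg _⟩
  have hdle : ∀ L, 0 < L → d ≤ ‖x L‖ := by
    intro L hL
    obtain ⟨n, rfl⟩ : ∃ n, L = n + 1 := ⟨L - 1, by omega⟩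
    exact ciInf_le hbdd n
  have hd0 : 0 ≤ d := le_ciInf (fun n => norm_nonneg _)
  have hd1 : d ≤ 1 := (hdle 1 one_pos).trans (hx1 1)
  -- eventually smaller than the norm of any element averaging to the same limit
  have hA : ∀ z : GV φ, Tendsto (fun L => ‖Av s2 s3 L z - x L‖) atTop (𝓝 0) →
      ∀ ε : ℝ, 0 < ε → ∀ᶠ L in atTop, ‖x L‖ ≤ ‖z‖ + ε := by
    intro z hz ε hε
    filter_upwards [hz.eventually (gt_mem_nhds hε)] with L hL
    have h1 : ‖x L‖ ≤ ‖Av s2 s3 L z‖ + ‖Av s2 s3 L z - x L‖ := by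
      have := norm_sub_norm_le (x L) (Av s2 s3 L z)
      rw [norm_sub_rev] at this
      linarith
    have h2 := norm_Av hφc s2 s3 L z
    linarith
  have hxM : ∀ M, 0 < M → Tendsto (fun L => ‖Av s2 s3 L (x M) - x L‖) atTop (𝓝 0) :=
    fun M hM => Av_Av_close hφc hc y M hM hinv
  have hhalf : ∀ M K, 0 < M → 0 < K → 2 * d ≤ ‖x M + x K‖ := by
    intro M K hM hK
    have ht : Tendsto (fun L => ‖Av s2 s3 L ((1 / 2 : ℂ) • (x M + x K)) - x L‖) atTop (𝓝 0) := by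
      have hsum := ((hxM M hM).add (hxM K hK))
      refine squeeze_zero (fun L => norm_nonneg _) (fun L => ?_) (by simpa using hsum)
      have e : Av s2 s3 L ((1 / 2 : ℂ) • (x M + x K)) - x L =
          (1 / 2 : ℂ) • ((Av s2 s3 L (x M) - x L) + (Av s2 s3 L (x K) - x L)) := by
        rw [map_smul, map_add]
        module
      rw [e, norm_smul]
      have h3 : ‖(1 / 2 : ℂ)‖ = 1 / 2 := by simp
      rw [h3]
      have h4 := norm_add_le (Av s2 s3 L (x M) - x L) (Av s2 s3 L (x K) - x L)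
      have h5 := norm_nonneg (Av s2 s3 L (x M) - x L)
      have h6 := norm_nonneg (Av s2 s3 L (x K) - x L)
      linarith
    have h1 : d ≤ ‖(1 / 2 : ℂ) • (x M + x K)‖ := by
      apply le_of_forall_pos_le_add
      intro ε hε
      have hev := (hA _ ht ε hε).and (eventually_gt_atTop 0)
      obtain ⟨L, hL, hL0⟩ := hev.exists
      exact (hdle L hL0).trans hL
    rw [norm_smul] at h1
    have h3 : ‖(1 / 2 : ℂ)‖ = 1 / 2 := by simp
    rw [h3] at h1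
    linarith
  have hlimd : Tendsto (fun L => ‖x L‖) atTop (𝓝 d) := by
    rw [Metric.tendsto_atTop]
    intro ε hε
    obtain ⟨n, hn⟩ := exists_lt_of_ciInf_lt (show (⨅ n : ℕ, ‖x (n + 1)‖) < d + ε / 2 by
      rw [← hd]; linarith)
    have hev := (hA _ (hxM (n + 1) (Nat.succ_pos _)) (ε / 4) (by linarith)).and
      (eventually_gt_atTop 0)
    obtain ⟨N, hN⟩ := eventually_atTop.mp hev
    refine ⟨N, fun L hL => ?_⟩
    have h1 := (hN L hL).1
    have h2 := hdle L (hN L hL).2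
    rw [Real.dist_eq, abs_lt]
    constructor <;> linarith
  -- identification of the limit
  have hkey : ∀ η : ℝ, 0 < η → |d ^ 2 - s| ≤ η := by
    intro η hη
    set ε : ℝ := min 1 (η ^ 2 / 12) with hε
    have hεpos : 0 < ε := by positivity
    have hε1 : ε ≤ 1 := min_le_left _ _
    have hε2 : ε ≤ η ^ 2 / 12 := min_le_right _ _
    have hev := (hlimd.eventually (gt_mem_nhds (show d < d + ε by linarith))).and
      (eventually_gt_atTop 0)
    obtain ⟨M, hM⟩ := eventually_atTop.mp hev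
    have hM0 := (hM M le_rfl).2
    have hclose : ∀ L, M ≤ L → ‖x L - x M‖ ≤ η := by
      intro L hL
      have h1 := parallelogram_law_with_norm ℂ (x L) (x M)
      have h2 := hhalf L M (hM L hL).2 hM0
      have h3 := (hM L hL).1
      have h4 := (hM M le_rfl).1
      have h5 : ‖x L - x M‖ * ‖x L - x M‖ ≤ η ^ 2 := by
        have h6 : (2 * d) * (2 * d) ≤ ‖x L + x M‖ * ‖x L + x M‖ :=
          mul_self_le_mul_self (by linarith) h2
        have h7 : ‖x L‖ * ‖x L‖ ≤ (d + ε) * (d + ε) := mul_self_le_mul_self (norm_nonneg _) h3.le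
        have h8 : ‖x M‖ * ‖x M‖ ≤ (d + ε) * (d + ε) := mul_self_le_mul_self (norm_nonneg _) h4.le
        nlinarith
      nlinarith [norm_nonneg (x L - x M)]
    have hlim1 : Tendsto (fun L => (⟪x L, x L⟫_ℂ - ⟪x L, x M⟫_ℂ)) atTop
        (𝓝 (((d ^ 2 : ℝ) : ℂ) - (s : ℂ))) := by
      refine Tendsto.sub ?_ (hweak M hM0)
      have h9 : Tendsto (fun L => ((‖x L‖ ^ 2 : ℝ) : ℂ)) atTop (𝓝 ((d ^ 2 : ℝ) : ℂ)) :=
        (Complex.continuous_ofReal.tendsto _).comp (hlimd.pow 2)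
      refine h9.congr (fun L => ?_)
      rw [inner_self_eq_norm_sq_to_K]; push_cast; rfl
    have hnorm : ‖((d ^ 2 : ℝ) : ℂ) - (s : ℂ)‖ ≤ η := by
      refine le_of_tendsto hlim1.norm ?_
      filter_upwards [eventually_ge_atTop M] with L hL
      rw [← inner_sub_right]
      calc _ ≤ ‖x L‖ * ‖x L - x M‖ := norm_inner_le_norm _ _
        _ ≤ 1 * η := mul_le_mul (hx1 L) (hclose L hL) (norm_nonneg _) (by norm_num)
        _ = η := one_mul _
    rw [← Complex.ofReal_sub, Complex.norm_real, Real.norm_eq_abs] at hnorm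
    exact hnorm
  have hds : d ^ 2 = s := by
    have h10 : |d ^ 2 - s| ≤ 0 := le_of_forall_pos_le_add (fun ε hε => by
      have := hkey ε hε; linarith)
    have := abs_nonpos_iff.mp h10
    linarith
  have := hlimd.pow 2
  rwa [hds] at this

/-! ### the functions on the integers -/

/-- restriction to the powers of an element -/
def rf (φ : G → ℂ) (τ : G) (m : ℤ) (j : ℤ) : ℂ := φ (τ ^ (m * j))

lemma rf_pdz [Fact (PD φ)] (τ : G) (m : ℤ) : LevelSets.PDZ (rf φ τ m) := by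
  intro s c
  set x : GV φ := ∑ i ∈ s, c i • dl φ (τ ^ (m * i)) with hx
  have h1 : ∑ i ∈ s, ∑ j ∈ s, star (c j) * c i * rf φ τ m (i - j) = ((‖x‖ ^ 2 : ℝ) : ℂ) := by
    have h2 : ((‖x‖ ^ 2 : ℝ) : ℂ) = ⟪x, x⟫_ℂ := by
      rw [inner_self_eq_norm_sq_to_K]; push_cast; rfl
    rw [h2, hx, sum_inner, Finset.sum_comm]
    refine Finset.sum_congr rfl (fun j _ => ?_)
    rw [inner_sum]
    refine Finset.sum_congr rfl (fun i _ => ?_)
    rw [inner_smul_left, inner_smul_right, inner_dl]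
    unfold rf
    have : (τ ^ (m * j))⁻¹ * τ ^ (m * i) = τ ^ (m * (i - j)) := by
      rw [← zpow_neg, ← zpow_add]; congr 1; ring
    rw [this]
    simp
    ring
  rw [h1, ← Complex.ofReal_zero, Complex.real_le_real]
  positivity

/-- conjugation acts by multiplication on exponents -/
lemma conj_pow {s2 τ : G} (h2 : s2 * τ * s2⁻¹ = τ ^ (2 : ℤ)) (j : ℤ) :
    s2 * τ ^ j * s2⁻¹ = τ ^ (2 * j) := by
  rw [← conj_zpow, h2, ← zpow_mul]

lemma conj_pow3 {s3 τ : G} (h3 : s3 * τ * s3⁻¹ = τ ^ (3 : ℤ)) (j : ℤ) :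
    s3 * τ ^ j * s3⁻¹ = τ ^ (3 * j) := by
  rw [← conj_zpow, h3, ← zpow_mul]

lemma conj_iter {s τ : G} {c : ℤ} (h : ∀ j : ℤ, s * τ ^ j * s⁻¹ = τ ^ (c * j)) (n : ℕ) (j : ℤ) :
    s ^ n * τ ^ j * (s ^ n)⁻¹ = τ ^ (c ^ n * j) := by
  induction n generalizing j with
  | zero => simp
  | succ n ih =>
    have e : s ^ (n + 1) * τ ^ j * (s ^ (n + 1))⁻¹ = s ^ n * (s * τ ^ j * s⁻¹) * (s ^ n)⁻¹ := by
      rw [pow_succ]; group
    rw [e, h, ih]
    congr 1; ring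

lemma conj_vv {s2 s3 τ : G} (h2 : s2 * τ * s2⁻¹ = τ ^ (2 : ℤ)) (h3 : s3 * τ * s3⁻¹ = τ ^ (3 : ℤ))
    {L : ℕ} (p : Fin L × Fin L) (j : ℤ) :
    vv s2 s3 p * τ ^ j * (vv s2 s3 p)⁻¹ = τ ^ (LevelSets.uu p * j) := by
  unfold vv LevelSets.uu
  have e : s2 ^ (p.1 : ℕ) * s3 ^ (p.2 : ℕ) * τ ^ j * (s2 ^ (p.1 : ℕ) * s3 ^ (p.2 : ℕ))⁻¹ =
      s2 ^ (p.1 : ℕ) * (s3 ^ (p.2 : ℕ) * τ ^ j * (s3 ^ (p.2 : ℕ))⁻¹) * (s2 ^ (p.1 : ℕ))⁻¹ := by
    group
  rw [e, conj_iter (conj_pow3 h3), conj_iter (conj_pow h2), mul_assoc]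

/-- ergodic part: the averages over differences converge -/
theorem ergodic_part (hφ : φ ∈ Set.extremePoints ℝ (TR G)) (s2 s3 τ : G)
    (h2 : s2 * τ * s2⁻¹ = τ ^ (2 : ℤ)) (h3 : s3 * τ * s3⁻¹ = τ ^ (3 : ℤ))
    (hc : s2 * s3 = s3 * s2) (hgen : Subgroup.closure {s2, s3, τ} = ⊤) (m : ℤ) :
    Tendsto (fun L => LevelSets.EE (rf φ τ m) L) atTop (𝓝 ((‖rf φ τ m 1‖ ^ 2 : ℝ) : ℂ)) := by
  have hφ1 : φ 1 = 1 := hφ.1.1
  have hφc : ∀ g h : G, φ (h * g * h⁻¹) = φ g := hφ.1.2.1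
  have hFact : Fact (PD φ) := ⟨hφ.1.2.2⟩
  set y : GV φ := dl φ (τ ^ m) with hy
  have hy1 : ‖y‖ ≤ 1 := (norm_dl hφ1 _).le
  have hAvy : ∀ L, Av s2 s3 L y = (1 / (L : ℂ) ^ 2) •
      ∑ p : Fin L × Fin L, dl φ (τ ^ (LevelSets.uu p * m)) := by
    intro L
    rw [Av_apply]
    congr 1
    refine Finset.sum_congr rfl (fun p _ => ?_)
    rw [hy, Cm_dl, conj_vv h2 h3]
  have hinv : ∀ h : G, Tendsto (fun L => ‖Cm h (Av s2 s3 L y) - Av s2 s3 L y‖) atTop (𝓝 0) := by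
    refine inv_all hφc (fun L => Av s2 s3 L y) {s2, s3, τ} hgen ?_
    intro h hh
    simp only [Set.mem_insert_iff, Set.mem_singleton_iff] at hh
    rcases hh with rfl | rfl | rfl
    · exact squeeze_zero (fun L => norm_nonneg _) (fun L => inv_s2 hφc _ _ y L)
        (tendsto_const_div _)
    · exact squeeze_zero (fun L => norm_nonneg _) (fun L => inv_s3 hφc hc y L)
        (tendsto_const_div _)
    · have e : ∀ L, Cm h (Av s2 s3 L y) - Av s2 s3 L y = 0 := by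
        intro L
        rw [hAvy, map_smul, map_sum]
        have : ∀ p : Fin L × Fin L, Cm h (dl φ (h ^ (LevelSets.uu p * m))) =
            dl φ (h ^ (LevelSets.uu p * m)) := by
          intro p
          rw [Cm_dl]
          congr 1
          group
        simp only [this, sub_self]
      simp only [e, norm_zero]
      exact tendsto_const_nhds
  have hl1 : ∀ L, l1 (Av s2 s3 L y) ≤ 1 := by
    intro L
    rw [hAvy, Finset.smul_sum]
    refine (l1_sum_le _ _).trans ?_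
    simp only [l1_smul_dl]
    rw [Finset.sum_const, Finset.card_univ, Fintype.card_prod, Fintype.card_fin, nsmul_eq_mul]
    rcases Nat.eq_zero_or_pos L with h | h
    · subst h; simp
    · have hL : (0 : ℝ) < L := by exact_mod_cast h
      have : ‖(1 / (L : ℂ) ^ 2)‖ = 1 / (L : ℝ) ^ 2 := by simp
      rw [this]
      push_cast
      apply le_of_eq
      field_simp
  have hfpd := rf_pdz (φ := φ) τ m
  have hff : ∀ j : ℤ, φ (τ ^ (2 * j)) = φ (τ ^ j) := by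
    intro j
    rw [← conj_pow h2, hφc]
  have hff3 : ∀ j : ℤ, φ (τ ^ (3 * j)) = φ (τ ^ j) := by
    intro j
    rw [← conj_pow3 h3, hφc]
  have huu : ∀ {L : ℕ} (p : Fin L × Fin L), φ (τ ^ (LevelSets.uu p * m)) = φ (τ ^ m) := by
    intro L p
    rw [← conj_vv h2 h3 p m, hφc]
  have hr1 : rf φ τ m 1 = φ (τ ^ m) := by unfold rf; rw [mul_one]
  have hinner1 : ∀ L, 0 < L → ⟪Av s2 s3 L y, dl φ 1⟫_ℂ = star (φ (τ ^ m)) := by
    intro L hL
    have hLc : (L : ℂ) ≠ 0 := by exact_mod_cast hL.ne'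
    rw [hAvy, inner_smul_left, sum_inner]
    have e : ∀ p : Fin L × Fin L, ⟪dl φ (τ ^ (LevelSets.uu p * m)), dl φ 1⟫_ℂ =
        star (φ (τ ^ m)) := by
      intro p
      rw [inner_dl, mul_one, pd_herm hFact.out, huu]
    simp only [e]
    rw [Finset.sum_const, Finset.card_univ, Fintype.card_prod, Fintype.card_fin, nsmul_eq_mul]
    push_cast
    simp only [map_div₀, map_one, map_pow, Complex.conj_natCast]
    field_simp
  have hweakg : ∀ g, Tendsto (fun L => ⟪Av s2 s3 L y, dl φ g⟫_ℂ) atTop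
      (𝓝 (star (φ (τ ^ m)) * φ g)) := by
    intro g
    have h := weak_limit hφ (fun L => Av s2 s3 L y) hl1 hinv g
    have h' : Tendsto (fun L => ⟪Av s2 s3 L y, dl φ g⟫_ℂ - star (φ (τ ^ m)) * φ g) atTop
        (𝓝 0) := by
      refine h.congr' ?_
      filter_upwards [eventually_gt_atTop 0] with L hL
      rw [hinner1 L hL]
    have := h'.add_const (star (φ (τ ^ m)) * φ g)
    simpa using this
  have hweak : ∀ M : ℕ, 0 < M → Tendsto (fun L => ⟪Av s2 s3 L y, Av s2 s3 M y⟫_ℂ) atTop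
      (𝓝 ((‖φ (τ ^ m)‖ ^ 2 : ℝ) : ℂ)) := by
    intro M hM
    have hMc : (M : ℂ) ≠ 0 := by exact_mod_cast hM.ne'
    have e : ∀ L, ⟪Av s2 s3 L y, Av s2 s3 M y⟫_ℂ = (1 / (M : ℂ) ^ 2) *
        ∑ p : Fin M × Fin M, ⟪Av s2 s3 L y, dl φ (τ ^ (LevelSets.uu p * m))⟫_ℂ := by
      intro L
      rw [hAvy M, inner_smul_right, inner_sum]
    simp only [e]
    have h1 : Tendsto (fun L => (1 / (M : ℂ) ^ 2) *
        ∑ p : Fin M × Fin M, ⟪Av s2 s3 L y, dl φ (τ ^ (LevelSets.uu p * m))⟫_ℂ) atTop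
        (𝓝 ((1 / (M : ℂ) ^ 2) * ∑ p : Fin M × Fin M,
          (star (φ (τ ^ m)) * φ (τ ^ (LevelSets.uu p * m))))) :=
      (tendsto_finsetSum _ (fun p _ => hweakg _)).const_mul _
    have e2 : (1 / (M : ℂ) ^ 2) * ∑ p : Fin M × Fin M,
          (star (φ (τ ^ m)) * φ (τ ^ (LevelSets.uu p * m))) = ((‖φ (τ ^ m)‖ ^ 2 : ℝ) : ℂ) := by
      simp only [huu]
      rw [Finset.sum_const, Finset.card_univ, Fintype.card_prod, Fintype.card_fin, nsmul_eq_mul]
      have := Complex.conj_mul' (φ (τ ^ m))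
      rw [show star (φ (τ ^ m)) = (starRingEnd ℂ) (φ (τ ^ m)) from rfl, this]
      push_cast
      field_simp
    rwa [e2] at h1
  have hstrong := strong_limit hφc hc y hy1 hinv (‖φ (τ ^ m)‖ ^ 2) hweak
  have hC : Tendsto (fun L => ((‖Av s2 s3 L y‖ ^ 2 : ℝ) : ℂ)) atTop
      (𝓝 ((‖φ (τ ^ m)‖ ^ 2 : ℝ) : ℂ)) := (Complex.continuous_ofReal.tendsto _).comp hstrong
  rw [hr1]
  refine hC.congr (fun L => ?_)
  have e3 : ((‖Av s2 s3 L y‖ ^ 2 : ℝ) : ℂ) = ⟪Av s2 s3 L y, Av s2 s3 L y⟫_ℂ := by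
    rw [inner_self_eq_norm_sq_to_K]; push_cast; rfl
  rw [e3, hAvy, inner_smul_left, inner_smul_right, sum_inner]
  unfold LevelSets.EE
  simp only [inner_sum, inner_dl]
  rw [← mul_assoc]
  congr 1
  · simp only [map_div₀, map_one, map_pow, Complex.conj_natCast]
    ring
  · rw [Finset.sum_comm]
    symm
    rw [Fintype.sum_prod_type (f := fun q : (Fin L × Fin L) × (Fin L × Fin L) =>
      rf φ τ m (LevelSets.uu q.1 - LevelSets.uu q.2))]
    refine Finset.sum_congr rfl (fun p _ => ?_)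
    refine Finset.sum_congr rfl (fun q _ => ?_)
    unfold rf
    rw [← zpow_neg, ← zpow_add]
    congr 2
    ring

end Helper17.FU
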