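import Mathlib
import Pool.Agent.Helper17.FUCore

set_option autoImplicit false
open scoped ComplexOrder InnerProductSpace
open Filter Helper17.FU

namespace Helper17.FUGroup

/-- rational numbers whose denominator divides a power of six -/
def IsS (q : ℚ) : Prop := ∃ K : ℕ, ∃ n : ℤ, 6 ^ K * q = n

lemma IsS.mul {p q : ℚ} (hp : IsS p) (hq : IsS q) : IsS (p * q) := by
  obtain ⟨K, n, h⟩ := hp
  obtain ⟨K', n', h'⟩ := hq
  refine ⟨K + K', n * n', ?_⟩
  push_cast
  rw [← h, ← h', pow_add]; ring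

lemma IsS.add {p q : ℚ} (hp : IsS p) (hq : IsS q) : IsS (p + q) := by
  obtain ⟨K, n, h⟩ := hp
  obtain ⟨K', n', h'⟩ := hq
  refine ⟨K + K', 6 ^ K' * n + 6 ^ K * n', ?_⟩
  push_cast
  rw [← h, ← h', pow_add]; ring

lemma IsS.neg {p : ℚ} (hp : IsS p) : IsS (-p) := by
  obtain ⟨K, n, h⟩ := hp
  refine ⟨K, -n, ?_⟩
  push_cast
  rw [← h]; ring

lemma isS_int (n : ℤ) : IsS n := ⟨0, n, by simp⟩

lemma isS_half : IsS (2⁻¹ : ℚ) := ⟨1, 3, by norm_num⟩

lemma isS_third : IsS (3⁻¹ : ℚ) := ⟨1, 2, by norm_num⟩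

/-- affine maps with coefficients having denominators dividing powers of six -/
def Aff (g : Equiv.Perm ℚ) : Prop :=
  ∃ β s : ℚ, β ≠ 0 ∧ IsS β ∧ IsS β⁻¹ ∧ IsS s ∧ ∀ x : ℚ, g x = β * x + s

lemma aff_of_mem {s2 s3 t : Equiv.Perm ℚ} (h2 : ∀ x : ℚ, s2 x = 2 * x)
    (h3 : ∀ x : ℚ, s3 x = 3 * x) (ht : ∀ x : ℚ, t x = x + 1) {g : Equiv.Perm ℚ}
    (hg : g ∈ Subgroup.closure {s2, s3, t}) : Aff g := by
  induction hg using Subgroup.closure_induction with
  | mem g hg =>
    simp only [Set.mem_insert_iff, Set.mem_singleton_iff] at hg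
    rcases hg with rfl | rfl | rfl
    · refine ⟨2, 0, by norm_num, ?_, isS_half, ?_, fun x => by rw [h2]; ring⟩
      · exact_mod_cast isS_int 2
      · exact_mod_cast isS_int 0
    · refine ⟨3, 0, by norm_num, ?_, isS_third, ?_, fun x => by rw [h3]; ring⟩
      · exact_mod_cast isS_int 3
      · exact_mod_cast isS_int 0
    · refine ⟨1, 1, by norm_num, ?_, ?_, ?_, fun x => by rw [ht]; ring⟩
      · exact_mod_cast isS_int 1
      · rw [inv_one]; exact_mod_cast isS_int 1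
      · exact_mod_cast isS_int 1
  | one =>
    refine ⟨1, 0, by norm_num, ?_, ?_, ?_, fun x => by simp⟩
    · exact_mod_cast isS_int 1
    · rw [inv_one]; exact_mod_cast isS_int 1
    · exact_mod_cast isS_int 0
  | mul g k _ _ hg hk =>
    obtain ⟨β, s, hβ, h1, h1', hs, hx⟩ := hg
    obtain ⟨γ, u, hγ, h4, h4', hu, hy⟩ := hk
    refine ⟨β * γ, β * u + s, mul_ne_zero hβ hγ, h1.mul h4, ?_, (h1.mul hu).add hs, ?_⟩
    · rw [mul_inv]; exact h1'.mul h4'
    · intro x
      rw [Equiv.Perm.mul_apply, hx, hy]; ring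
  | inv g _ hg =>
    obtain ⟨β, s, hβ, h1, h1', hs, hx⟩ := hg
    refine ⟨β⁻¹, -(β⁻¹ * s), inv_ne_zero hβ, h1', by rwa [inv_inv], (h1'.mul hs).neg, ?_⟩
    intro x
    rw [Equiv.Perm.inv_eq_iff_eq, hx]
    field_simp
    ring

lemma t_zpow {t : Equiv.Perm ℚ} (ht : ∀ x : ℚ, t x = x + 1) (n : ℤ) (x : ℚ) :
    (t ^ n) x = x + n := by
  have hinv : ∀ x : ℚ, t⁻¹ x = x - 1 := by
    intro x; rw [Equiv.Perm.inv_eq_iff_eq, ht]; ring
  have hnat : ∀ (n : ℕ) (x : ℚ), (t ^ n) x = x + n := by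
    intro n
    induction n with
    | zero => intro x; simp
    | succ n ih => intro x; rw [pow_succ, Equiv.Perm.mul_apply, ht, ih]; push_cast; ring
  have hnatinv : ∀ (n : ℕ) (x : ℚ), ((t⁻¹) ^ n) x = x - n := by
    intro n
    induction n with
    | zero => intro x; simp
    | succ n ih => intro x; rw [pow_succ, Equiv.Perm.mul_apply, hinv, ih]; push_cast; ring
  cases n with
  | ofNat n =>
    rw [Int.ofNat_eq_natCast, zpow_natCast, hnat]; push_cast; rfl
  | negSucc n =>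
    rw [zpow_negSucc, ← inv_pow, hnatinv]; push_cast; ring

/-- a trace vanishing on all nonzero integer translations is the regular one -/
lemma eq_indicator {s2 s3 t : Equiv.Perm ℚ} (h2 : ∀ x : ℚ, s2 x = 2 * x)
    (h3 : ∀ x : ℚ, s3 x = 3 * x) (ht : ∀ x : ℚ, t x = x + 1)
    (φ : (Subgroup.closure {s2, s3, t} : Subgroup (Equiv.Perm ℚ)) → ℂ)
    (hφ : φ ∈ TR (Subgroup.closure {s2, s3, t} : Subgroup (Equiv.Perm ℚ)))
    (τ : (Subgroup.closure {s2, s3, t} : Subgroup (Equiv.Perm ℚ)))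
    (hτ : (τ : Equiv.Perm ℚ) = t) (hz : ∀ m : ℤ, m ≠ 0 → φ (τ ^ m) = 0) :
    φ = Set.indicator ({1} : Set (Subgroup.closure {s2, s3, t} : Subgroup (Equiv.Perm ℚ)))
      (fun _ => (1 : ℂ)) := by
  have hφ1 : φ 1 = 1 := hφ.1
  have hφc := hφ.2.1
  have hFact : Fact (PD φ) := ⟨hφ.2.2⟩
  funext g
  by_cases hg1 : g = 1
  · rw [hg1, hφ1]; simp
  rw [Set.indicator_of_notMem (by simpa using hg1)]
  obtain ⟨β, s, hβ, hS1, hS1', hSs, hx⟩ := aff_of_mem h2 h3 ht g.2
  by_cases hβ1 : β = 1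
  · -- translations
    subst hβ1
    obtain ⟨K, n, hn⟩ := hSs
    set σ2 : (Subgroup.closure {s2, s3, t} : Subgroup (Equiv.Perm ℚ)) :=
      ⟨s2, Subgroup.subset_closure (by simp)⟩ with hσ2
    set σ3 : (Subgroup.closure {s2, s3, t} : Subgroup (Equiv.Perm ℚ)) :=
      ⟨s3, Subgroup.subset_closure (by simp)⟩ with hσ3
    have h6 : ∀ (K : ℕ) (x : ℚ), (((σ2 * σ3) ^ K : (Subgroup.closure {s2, s3, t} :
        Subgroup (Equiv.Perm ℚ))) : Equiv.Perm ℚ) x = 6 ^ K * x := by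
      intro K
      induction K with
      | zero => intro x; simp
      | succ K ih =>
        intro x
        rw [pow_succ, Subgroup.coe_mul, Equiv.Perm.mul_apply, ih, Subgroup.coe_mul,
          Equiv.Perm.mul_apply]
        show 6 ^ K * (s2 (s3 x)) = _
        rw [h2, h3, pow_succ]; ring
    have hconj : (σ2 * σ3) ^ K * g * ((σ2 * σ3) ^ K)⁻¹ = τ ^ n := by
      have : (σ2 * σ3) ^ K * g = τ ^ n * (σ2 * σ3) ^ K := by
        apply Subtype.ext
        ext x
        rw [Subgroup.coe_mul, Subgroup.coe_mul, Equiv.Perm.mul_apply, Equiv.Perm.mul_apply, h6, h6,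
          hx, Subgroup.coe_zpow, hτ, t_zpow ht]
        rw [← hn]; ring
      rw [this]; group
    have h0 : φ g = φ (τ ^ n) := by rw [← hconj, hφc]
    rw [h0]
    apply hz
    intro hn0
    apply hg1
    apply Subtype.ext
    ext x
    rw [hx]
    have : s = 0 := by
      rw [hn0] at hn
      have h6 : (6 : ℚ) ^ K ≠ 0 := by positivity
      simpa [h6] using hn
    rw [this]; simp
  · -- the remaining elements: Bessel inequality
    obtain ⟨K, n, hn⟩ := hS1
    set D : ℤ := 6 ^ K - n with hD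
    have hDQ : (D : ℚ) = 6 ^ K * (1 - β) := by
      rw [hD]; push_cast; rw [← hn]; ring
    have hD0 : D ≠ 0 := by
      intro h
      rw [h] at hDQ
      have h6 : (6 : ℚ) ^ K ≠ 0 := by positivity
      have : (1 - β) = 0 := by
        rcases mul_eq_zero.mp hDQ.symm with h' | h'
        · exact absurd h' h6
        · exact h'
      exact hβ1 (by linarith)
    have hconj : ∀ i : ℤ, φ (τ ^ (i * D) * g) = φ g := by
      intro i
      have : τ ^ (i * D) * g = τ ^ (i * 6 ^ K) * g * (τ ^ (i * 6 ^ K))⁻¹ := by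
        rw [eq_mul_inv_iff_mul_eq]
        apply Subtype.ext
        ext x
        simp only [Subgroup.coe_mul, Subgroup.coe_zpow, Equiv.Perm.mul_apply, hτ, t_zpow ht, hx]
        push_cast
        rw [hDQ]; ring
      rw [this, hφc]
    set v : ℕ → GV φ := fun i => dl φ (τ ^ (-((i : ℤ) * D))) with hv
    have horth : Orthonormal ℂ v := by
      constructor
      · intro i; exact norm_dl hφ1 _
      · intro i j hij
        show ⟪v i, v j⟫_ℂ = 0
        rw [hv, inner_dl, ← zpow_neg, ← zpow_add]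
        apply hz
        have hij' : (i : ℤ) - j ≠ 0 := by
          intro h; apply hij; omega
        have : - -((i : ℤ) * D) + -((j : ℤ) * D) = ((i : ℤ) - j) * D := by ring
        rw [this]
        exact mul_ne_zero hij' hD0
    have hin : ∀ i, ⟪v i, dl φ g⟫_ℂ = φ g := by
      intro i
      rw [hv, inner_dl, ← zpow_neg, neg_neg, hconj]
    by_contra hne
    have hpos : 0 < ‖φ g‖ := norm_pos_iff.mpr hne
    obtain ⟨N, hN⟩ := exists_nat_gt (1 / ‖φ g‖ ^ 2)
    have hB := horth.sum_inner_products_le (x := dl φ g) (s := Finset.range N)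
    simp only [hin] at hB
    rw [norm_dl hφ1, Finset.sum_const, Finset.card_range, nsmul_eq_mul] at hB
    rw [div_lt_iff₀ (by positivity)] at hN
    linarith


/-- relations in the group, packaged -/
lemma relations {s2 s3 t : Equiv.Perm ℚ} (h2 : ∀ x : ℚ, s2 x = 2 * x)
    (h3 : ∀ x : ℚ, s3 x = 3 * x) (ht : ∀ x : ℚ, t x = x + 1) :
    ∃ σ2 σ3 τ : (Subgroup.closure {s2, s3, t} : Subgroup (Equiv.Perm ℚ)),
      (σ2 : Equiv.Perm ℚ) = s2 ∧ (σ3 : Equiv.Perm ℚ) = s3 ∧ (τ : Equiv.Perm ℚ) = t ∧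
      σ2 * τ * σ2⁻¹ = τ ^ (2 : ℤ) ∧ σ3 * τ * σ3⁻¹ = τ ^ (3 : ℤ) ∧ σ2 * σ3 = σ3 * σ2 ∧
      Subgroup.closure {σ2, σ3, τ} = ⊤ := by
  set τ : (Subgroup.closure {s2, s3, t} : Subgroup (Equiv.Perm ℚ)) :=
    ⟨t, Subgroup.subset_closure (by simp)⟩ with hτd
  have hτ : (τ : Equiv.Perm ℚ) = t := rfl
  set σ2 : (Subgroup.closure {s2, s3, t} : Subgroup (Equiv.Perm ℚ)) :=
    ⟨s2, Subgroup.subset_closure (by simp)⟩ with hσ2
  set σ3 : (Subgroup.closure {s2, s3, t} : Subgroup (Equiv.Perm ℚ)) :=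
    ⟨s3, Subgroup.subset_closure (by simp)⟩ with hσ3
  refine ⟨σ2, σ3, τ, rfl, rfl, rfl, ?_, ?_, ?_, ?_⟩
  · rw [mul_inv_eq_iff_eq_mul]
    apply Subtype.ext
    ext x
    simp only [Subgroup.coe_mul, Subgroup.coe_zpow, Equiv.Perm.mul_apply, hτ, t_zpow ht, ht]
    show s2 (x + 1) = s2 x + _
    rw [h2, h2]; push_cast; ring
  · rw [mul_inv_eq_iff_eq_mul]
    apply Subtype.ext
    ext x
    simp only [Subgroup.coe_mul, Subgroup.coe_zpow, Equiv.Perm.mul_apply, hτ, t_zpow ht, ht]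
    show s3 (x + 1) = s3 x + _
    rw [h3, h3]; push_cast; ring
  · apply Subtype.ext
    ext x
    show s2 (s3 x) = s3 (s2 x)
    rw [h2, h3, h3, h2]; ring
  · have h := Subgroup.closure_closure_coe_preimage (k := ({s2, s3, t} : Set (Equiv.Perm ℚ)))
    rw [← h]
    congr 1
    ext g
    simp only [Set.mem_insert_iff, Set.mem_singleton_iff, Set.mem_preimage]
    constructor
    · rintro (rfl | rfl | rfl)
      · left; rfl
      · right; left; rfl
      · right; right; rfl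
    · rintro (h | h | h)
      · left; exact Subtype.ext h
      · right; left; exact Subtype.ext h
      · right; right; exact Subtype.ext h

end Helper17.FUGroup
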