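import Mathlib
import Pool.Agent.Helper17.FUErgodic

set_option autoImplicit false
open scoped ComplexOrder BigOperators InnerProductSpace Topology
open Finset Filter

namespace Helper17.FU

variable {G : Type*} [Group G]

/-! ### limits of positive definite functions -/

omit [Group G] in
lemma exists_ultra_limit {ι : Type*} (U : Ultrafilter ι) (ρ : ι → G → ℂ) (C : ℝ)
    (hb : ∀ i g, ‖ρ i g‖ ≤ C) : ∃ l : G → ℂ, ∀ g, Tendsto (fun i => ρ i g) U (𝓝 (l g)) := by
  have hex : ∀ g, ∃ l : ℂ, Tendsto (fun i => ρ i g) U (𝓝 l) := by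
    intro g
    have hc := isCompact_closedBall (0 : ℂ) C
    have hle : ((U.map (fun i => ρ i g) : Ultrafilter ℂ) : Filter ℂ) ≤
        𝓟 (Metric.closedBall (0 : ℂ) C) := by
      rw [le_principal_iff]
      exact Filter.mem_map.mpr (Filter.univ_mem' (fun i => by
        rw [Set.mem_preimage, mem_closedBall_zero_iff]; exact hb i g))
    obtain ⟨l, _, hl⟩ := hc.ultrafilter_le_nhds _ hle
    exact ⟨l, hl⟩
  choose l hl using hex
  exact ⟨l, hl⟩

lemma pd_limit {ι : Type*} {F : Filter ι} [F.NeBot] {ρ : ι → G → ℂ} {l : G → ℂ}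
    (hl : ∀ g, Tendsto (fun i => ρ i g) F (𝓝 (l g))) (hp : ∀ᶠ i in F, PD (ρ i)) : PD l := by
  intro s c
  have ht : Tendsto (fun L => ∑ i ∈ s, ∑ j ∈ s, star (c j) * c i * ρ L (j⁻¹ * i)) F
      (𝓝 (∑ i ∈ s, ∑ j ∈ s, star (c j) * c i * l (j⁻¹ * i))) :=
    tendsto_finsetSum _ (fun i _ => tendsto_finsetSum _ (fun j _ => (hl _).const_mul _))
  exact closed_nonneg_C.mem_of_tendsto ht (hp.mono (fun L hL => hL s c))

lemma pd_zero : PD (fun _ : G => (0 : ℂ)) := by
  intro s c
  simp

/-- pull back along a homomorphism -/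
lemma pd_comp {H : Type*} [Group H] {ψ : G → ℂ} (hψ : PD ψ) (u : H →* G) :
    PD (fun h => ψ (u h)) := by
  intro s c
  have : Fact (PD ψ) := ⟨hψ⟩
  set x : GV ψ := ∑ i ∈ s, c i • dl ψ (u i) with hx
  have h1 : ∑ i ∈ s, ∑ j ∈ s, star (c j) * c i * ψ (u (j⁻¹ * i)) = ((‖x‖ ^ 2 : ℝ) : ℂ) := by
    have h2 : ((‖x‖ ^ 2 : ℝ) : ℂ) = ⟪x, x⟫_ℂ := by
      rw [inner_self_eq_norm_sq_to_K]; push_cast; rfl
    rw [h2, hx, sum_inner, Finset.sum_comm]
    refine Finset.sum_congr rfl (fun j _ => ?_)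
    rw [inner_sum]
    refine Finset.sum_congr rfl (fun i _ => ?_)
    rw [inner_smul_left, inner_smul_right, inner_dl, map_mul, map_inv]
    simp
    ring
  rw [h1, ← Complex.ofReal_zero, Complex.real_le_real]
  positivity

/-! ### comparison of forms -/

lemma form_sub (φ ρ : G → ℂ) (x y : G →₀ ℂ) :
    form (fun g => φ g - ρ g) x y = form φ x y - form ρ x y := by
  unfold form
  rw [← Finsupp.sum_sub]
  refine Finsupp.sum_congr (fun i _ => ?_)
  rw [← Finsupp.sum_sub]
  refine Finsupp.sum_congr (fun j _ => ?_)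
  ring

lemma form_re_le {φ ρ : G → ℂ} (h : PD (fun g => φ g - ρ g)) (x : G →₀ ℂ) :
    (form ρ x x).re ≤ (form φ x x).re := by
  have := (Complex.nonneg_iff.mp (form_self_nonneg h x)).1
  rw [form_sub] at this
  simp only [Complex.sub_re] at this
  linarith

lemma form_sum_left {ι : Type*} (φ : G → ℂ) (s : Finset ι) (x : ι → G →₀ ℂ) (y : G →₀ ℂ) :
    form φ (∑ i ∈ s, x i) y = ∑ i ∈ s, form φ (x i) y := by
  classical
  induction s using Finset.induction_on with
  | empty => simp [form_zero_left]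
  | insert a s ha ih => rw [Finset.sum_insert ha, Finset.sum_insert ha, form_add_left, ih]

lemma form_sum_right {ι : Type*} (φ : G → ℂ) (s : Finset ι) (x : G →₀ ℂ) (y : ι → G →₀ ℂ) :
    form φ x (∑ i ∈ s, y i) = ∑ i ∈ s, form φ x (y i) := by
  classical
  induction s using Finset.induction_on with
  | empty => simp [form_zero_right]
  | insert a s ha ih => rw [Finset.sum_insert ha, Finset.sum_insert ha, form_add_right, ih]

/-- a finitely supported function seen as a vector -/
def gv (φ : G → ℂ) (x : G →₀ ℂ) : GV φ := x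

lemma norm_gv {ρ : G → ℂ} [Fact (PD ρ)] (x : G →₀ ℂ) : ‖gv ρ x‖ ^ 2 = (form ρ x x).re := by
  have := inner_self_eq_norm_sq (𝕜 := ℂ) (gv ρ x)
  rw [← this]; rfl

omit [Group G] in
lemma gv_sub {ρ : G → ℂ} (x y : G →₀ ℂ) : gv ρ (x - y) = gv ρ x - gv ρ y := rfl

/-! ### the last step on the integers -/

/-- the integers written multiplicatively -/
abbrev Zm := Multiplicative ℤ

/-- the averaged vector -/
noncomputable def yv (L : ℕ) : Zm →₀ ℂ :=
  (1 / (L : ℂ) ^ 2) • ∑ p : Fin L × Fin L,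
    Finsupp.single (Multiplicative.ofAdd (LevelSets.uu p)) (1 : ℂ)

lemma form_yv_yv (f : Zm → ℂ) (L : ℕ) :
    form f (yv L) (yv L) = LevelSets.EE (fun n => f (Multiplicative.ofAdd n)) L := by
  unfold yv LevelSets.EE
  rw [form_smul_left, form_smul_right, form_sum_left]
  simp only [form_sum_right, form_single]
  rw [← mul_assoc]
  congr 1
  · simp only [star_div₀, star_one, star_pow, Complex.star_def, Complex.conj_natCast]
    ring
  · rw [Finset.sum_comm]
    symm
    rw [Fintype.sum_prod_type (f := fun q : (Fin L × Fin L) × (Fin L × Fin L) =>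
      f (Multiplicative.ofAdd (LevelSets.uu q.1 - LevelSets.uu q.2)))]
    refine Finset.sum_congr rfl (fun p _ => ?_)
    refine Finset.sum_congr rfl (fun q _ => ?_)
    rw [star_one, one_mul, one_mul, ← ofAdd_neg, ← ofAdd_add]
    congr 2
    ring

lemma final_int (f ρ : Zm → ℂ) (hf : PD f) (hf1 : f 1 = 1) (hρ : PD ρ)
    (hfρ : PD (fun g => f g - ρ g))
    (hδρ : PD (fun g => Set.indicator ({1} : Set Zm) (fun _ => (1 : ℂ)) g - ρ g))
    (h2 : ∀ n : ℤ, f (Multiplicative.ofAdd (2 * n)) = f (Multiplicative.ofAdd n))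
    (h3 : ∀ n : ℤ, f (Multiplicative.ofAdd (3 * n)) = f (Multiplicative.ofAdd n))
    (hE : Tendsto (fun L => LevelSets.EE (fun n => f (Multiplicative.ofAdd n)) L) atTop
      (𝓝 ((‖f (Multiplicative.ofAdd 1)‖ ^ 2 : ℝ) : ℂ)))
    (hpos : 0 < (ρ 1).re) : f (Multiplicative.ofAdd 1) = 0 := by
  set r := f (Multiplicative.ofAdd 1) with hr
  have hFf : Fact (PD f) := ⟨hf⟩
  have hFρ : Fact (PD ρ) := ⟨hρ⟩
  have huu : ∀ {L : ℕ} (p : Fin L × Fin L), f (Multiplicative.ofAdd (LevelSets.uu p)) = r := by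
    intro L p
    exact LevelSets.f_uu (f := fun n => f (Multiplicative.ofAdd n)) h2 h3 p
  -- the norm of `y - r` in the form of f
  have hform : ∀ L : ℕ, 0 < L → (form f (yv L - r • Finsupp.single 1 (1 : ℂ))
      (yv L - r • Finsupp.single 1 (1 : ℂ))) =
      LevelSets.EE (fun n => f (Multiplicative.ofAdd n)) L - ((‖r‖ ^ 2 : ℝ) : ℂ) := by
    intro L hL
    have hLc : (L : ℂ) ≠ 0 := by exact_mod_cast hL.ne'
    have e1 : yv L - r • Finsupp.single (1 : Zm) (1 : ℂ) =
        yv L + (-r) • Finsupp.single (1 : Zm) (1 : ℂ) := by rw [neg_smul, sub_eq_add_neg]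
    have e2 : form f (Finsupp.single (1 : Zm) (1 : ℂ)) (yv L) = r := by
      unfold yv
      rw [form_smul_right, form_sum_right]
      simp only [form_single, star_one, one_mul, inv_one, huu]
      rw [Finset.sum_const, Finset.card_univ, Fintype.card_prod, Fintype.card_fin, nsmul_eq_mul]
      push_cast
      field_simp
    have e3 : form f (yv L) (Finsupp.single (1 : Zm) (1 : ℂ)) = star r := by
      rw [← form_herm hf, e2]
    have e4 : form f (Finsupp.single (1 : Zm) (1 : ℂ)) (Finsupp.single (1 : Zm) (1 : ℂ)) = 1 := by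
      rw [form_single]; simp [hf1]
    rw [e1, form_add_left, form_add_right, form_add_right, form_smul_left, form_smul_left,
      form_smul_right, form_smul_right, e2, e3, e4, form_yv_yv]
    have e5 : ((‖r‖ ^ 2 : ℝ) : ℂ) = r * star r := by
      have := Complex.mul_conj' r
      rw [show star r = (starRingEnd ℂ) r from rfl, this]; push_cast; rfl
    rw [e5, star_neg]
    ring
  have hlim1 : Tendsto (fun L => (form f (yv L - r • Finsupp.single 1 (1 : ℂ))
      (yv L - r • Finsupp.single 1 (1 : ℂ))).re) atTop (𝓝 0) := by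
    have h : Tendsto (fun L => (LevelSets.EE (fun n => f (Multiplicative.ofAdd n)) L -
        ((‖r‖ ^ 2 : ℝ) : ℂ)).re) atTop (𝓝 0) := by
      have h' := (Complex.continuous_re.tendsto _).comp (hE.sub_const ((‖r‖ ^ 2 : ℝ) : ℂ))
      rw [sub_self, Complex.zero_re] at h'
      exact h'
    refine h.congr' ?_
    filter_upwards [eventually_gt_atTop 0] with L hL
    rw [hform L hL]
  -- the norm of `y` in the regular form
  have hδ : ∀ L : ℕ, 0 < L → (form (fun g => Set.indicator ({1} : Set Zm) (fun _ => (1 : ℂ)) g)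
      (yv L) (yv L)).re = 1 / (L : ℝ) ^ 2 := by
    intro L hL
    have hLc : (L : ℝ) ≠ 0 := by exact_mod_cast hL.ne'
    rw [form_yv_yv]
    unfold LevelSets.EE
    have e : ∀ q : (Fin L × Fin L) × (Fin L × Fin L),
        Set.indicator ({1} : Set Zm) (fun _ => (1 : ℂ))
          (Multiplicative.ofAdd (LevelSets.uu q.1 - LevelSets.uu q.2)) =
        if q.1 = q.2 then 1 else 0 := by
      intro q
      by_cases h : q.1 = q.2
      · rw [if_pos h, h, sub_self, ofAdd_zero]; simp
      · rw [if_neg h, Set.indicator_of_notMem]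
        simp only [Set.mem_singleton_iff, ofAdd_eq_one]
        intro h'
        exact h (LevelSets.uu_inj (by linarith))
    simp only [e]
    rw [Fintype.sum_prod_type]
    simp only [Finset.sum_ite_eq, Finset.mem_univ, if_true]
    rw [Finset.sum_const, Finset.card_univ, Fintype.card_prod, Fintype.card_fin, nsmul_eq_mul]
    have : (1 / (L : ℂ) ^ 4 * (((L * L : ℕ) : ℂ) * 1)) = ((1 / (L : ℝ) ^ 2 : ℝ) : ℂ) := by
      push_cast
      have hLc' : (L : ℂ) ≠ 0 := by exact_mod_cast hL.ne'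
      field_simp
    rw [this, Complex.ofReal_re]
  set a : ℕ → ℝ := fun L => ‖gv ρ (yv L)‖ with ha
  set b : ℕ → ℝ := fun L => ‖gv ρ (yv L - r • Finsupp.single 1 (1 : ℂ))‖ with hb
  have ha0 : Tendsto a atTop (𝓝 0) := by
    have h1 : Tendsto (fun L => a L ^ 2) atTop (𝓝 0) := by
      refine squeeze_zero' (Eventually.of_forall (fun L => by positivity)) ?_
        (g := fun L : ℕ => 1 / (L : ℝ) ^ 2) ?_
      · filter_upwards [eventually_gt_atTop 0] with L hL
        rw [ha]
        show ‖gv ρ (yv L)‖ ^ 2 ≤ _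
        rw [norm_gv]
        refine (form_re_le hδρ (yv L)).trans ?_
        rw [hδ L hL]
      · have := tendsto_const_div_atTop_nhds_zero_nat (1 : ℝ)
        have h2 := this.pow 2
        simpa [div_pow] using h2
    have h2 := h1.sqrt
    rw [Real.sqrt_zero] at h2
    refine h2.congr (fun L => ?_)
    exact Real.sqrt_sq (by rw [ha]; exact norm_nonneg _)
  have hb0 : Tendsto b atTop (𝓝 0) := by
    have h1 : Tendsto (fun L => b L ^ 2) atTop (𝓝 0) := by
      refine squeeze_zero (fun L => by positivity) (fun L => ?_) hlim1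
      show ‖gv ρ (yv L - r • Finsupp.single 1 (1 : ℂ))‖ ^ 2 ≤ _
      rw [norm_gv]
      exact form_re_le hfρ _
    have h2 := h1.sqrt
    rw [Real.sqrt_zero] at h2
    refine h2.congr (fun L => ?_)
    exact Real.sqrt_sq (by rw [hb]; exact norm_nonneg _)
  have hle : ∀ L, ‖gv ρ (r • Finsupp.single 1 (1 : ℂ))‖ ≤ a L + b L := by
    intro L
    have e : gv ρ (r • Finsupp.single 1 (1 : ℂ)) =
        gv ρ (yv L) - gv ρ (yv L - r • Finsupp.single 1 (1 : ℂ)) := by
      rw [← gv_sub]
      congr 1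
      abel
    rw [e]
    exact norm_sub_le _ _
  have hab : Tendsto (fun L => a L + b L) atTop (𝓝 0) := by simpa using ha0.add hb0
  have hz : ‖gv ρ (r • Finsupp.single 1 (1 : ℂ))‖ ≤ 0 :=
    le_of_tendsto_of_tendsto tendsto_const_nhds hab (Eventually.of_forall hle)
  have hz2 : ‖gv ρ (r • Finsupp.single 1 (1 : ℂ))‖ ^ 2 = ‖r‖ ^ 2 * (ρ 1).re := by
    rw [norm_gv, form_smul_left, form_smul_right, form_single]
    have e5 : star r * (r * (star 1 * 1 * ρ (1⁻¹ * 1))) = ((‖r‖ ^ 2 : ℝ) : ℂ) * ρ 1 := by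
      have := Complex.conj_mul' r
      rw [show star r = (starRingEnd ℂ) r from rfl, ← mul_assoc, this]
      simp
    rw [e5, Complex.re_ofReal_mul]
  have hz3 : ‖gv ρ (r • Finsupp.single 1 (1 : ℂ))‖ = 0 :=
    le_antisymm hz (norm_nonneg _)
  rw [hz3] at hz2
  have : ‖r‖ ^ 2 * (ρ 1).re = 0 := by rw [← hz2]; ring
  rcases mul_eq_zero.mp this with h | h
  · exact norm_eq_zero.mp (pow_eq_zero_iff (by norm_num) |>.mp h)
  · exact absurd h hpos.ne'

/-! ### the set of translations with large overlap -/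

/-- characters of the integers -/
noncomputable def ech (b : UnitAddCircle) (g : Zm) : ℂ := fourier (Multiplicative.toAdd g) b

/-- parameters for which there is a common minorant of mass at least `c` -/
def KK (f g : Zm → ℂ) (c : ℝ) : Set UnitAddCircle :=
  {b | ∃ ρ : Zm → ℂ, PD ρ ∧ c ≤ (ρ 1).re ∧ PD (fun n => f n - ρ n) ∧
    PD (fun n => ech b n * g n - ρ n)}

lemma minorant_bound {f ρ : G → ℂ} (hf1 : f 1 = 1) (hρ : PD ρ) (h : PD (fun n => f n - ρ n))
    (n : G) : ‖ρ n‖ ≤ 1 := by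
  have h1 := pd_bound hρ n
  have h2 := (Complex.nonneg_iff.mp (pd_one h)).1
  rw [hf1] at h2
  simp only [Complex.sub_re, Complex.one_re] at h2
  linarith

lemma KK_closed {f g : Zm → ℂ} (hf1 : f 1 = 1) (c : ℝ) : IsClosed (KK f g c) := by
  classical
  rw [isClosed_iff_ultrafilter]
  intro b U hU hK
  have hch : ∀ b : UnitAddCircle, ∃ ρ : Zm → ℂ, (∀ n, ‖ρ n‖ ≤ 1) ∧ (b ∈ KK f g c →
      PD ρ ∧ c ≤ (ρ 1).re ∧ PD (fun n => f n - ρ n) ∧ PD (fun n => ech b n * g n - ρ n)) := by
    intro b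
    by_cases hb : b ∈ KK f g c
    · obtain ⟨ρ, h1, h2, h3, h4⟩ := hb
      exact ⟨ρ, minorant_bound hf1 h1 h3, fun _ => ⟨h1, h2, h3, h4⟩⟩
    · exact ⟨fun _ => 0, fun n => by simp, fun h => absurd h hb⟩
  choose ρ hρb hρ using hch
  obtain ⟨l, hl⟩ := exists_ultra_limit U ρ 1 (fun i n => hρb i n)
  have hev : ∀ᶠ b in (U : Filter UnitAddCircle), b ∈ KK f g c := hK
  refine ⟨l, ?_, ?_, ?_, ?_⟩
  · exact pd_limit hl (hev.mono (fun b hb => (hρ b hb).1))
  · have h1 := (Complex.continuous_re.tendsto _).comp (hl 1)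
    exact ge_of_tendsto h1 (hev.mono (fun b hb => (hρ b hb).2.1))
  · exact pd_limit (fun n => (tendsto_const_nhds).sub (hl n)) (hev.mono (fun b hb => (hρ b hb).2.2.1))
  · refine pd_limit (ρ := fun b n => ech b n * g n - ρ b n) (fun n => ?_)
      (hev.mono (fun b hb => (hρ b hb).2.2.2))
    have hc : Tendsto (fun b : UnitAddCircle => ech b n) U (𝓝 (ech b n)) := by
      have : Continuous (fun b : UnitAddCircle => ech b n) :=
        (fourier (T := (1 : ℝ)) (Multiplicative.toAdd n)).continuous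
      exact (this.tendsto b).mono_left hU
    exact (hc.mul_const _).sub (hl n)

/-- multiplication of the exponent as a homomorphism -/
def mulHom (q : ℤ) : Zm →* Zm := zpowGroupHom q

lemma mulHom_apply (q : ℤ) (n : Zm) : mulHom q n = Multiplicative.ofAdd (q * Multiplicative.toAdd n) := by
  unfold mulHom
  simp only [zpowGroupHom_apply]
  rw [← Multiplicative.toAdd.injective.eq_iff]
  simp [mul_comm]

lemma ech_mul (b : UnitAddCircle) (q : ℕ) (n : Zm) : ech b (mulHom q n) = ech (q • b) n := by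
  unfold ech
  rw [mulHom_apply, fourier_apply, fourier_apply]
  congr 2
  simp only [toAdd_ofAdd]
  rw [mul_comm, mul_smul, natCast_zsmul]

lemma KK_mul {f g : Zm → ℂ} (c : ℝ) (q : ℕ) (hf : ∀ n, f (mulHom q n) = f n)
    (hg : ∀ n, g (mulHom q n) = g n) (b : UnitAddCircle) (hb : b ∈ KK f g c) :
    q • b ∈ KK f g c := by
  obtain ⟨ρ, h1, h2, h3, h4⟩ := hb
  refine ⟨fun n => ρ (mulHom q n), pd_comp h1 _, by simpa using h2, ?_, ?_⟩
  · have := pd_comp h3 (mulHom q)
    simp only [hf] at this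
    exact this
  · have := pd_comp h4 (mulHom q)
    simp only [hg, ech_mul] at this
    exact this

lemma pd_sum {ι : Type*} (s : Finset ι) (ψ : ι → G → ℂ) (h : ∀ i ∈ s, PD (ψ i)) :
    PD (fun g => ∑ i ∈ s, ψ i g) := by
  classical
  induction s using Finset.induction_on with
  | empty => simpa using pd_zero
  | insert a s ha ih =>
    simp only [Finset.sum_insert ha]
    exact pd_add (h a (Finset.mem_insert_self _ _))
      (ih (fun i hi => h i (Finset.mem_insert_of_mem hi)))

/-- if every parameter has large overlap then there is a common minorant with the regular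
function -/
lemma KK_univ {f g : Zm → ℂ} (hf1 : f 1 = 1) (hg1 : g 1 = 1) (c : ℝ)
    (hK : KK f g c = Set.univ) : ∃ ρ : Zm → ℂ, PD ρ ∧ c ≤ (ρ 1).re ∧
      PD (fun n => f n - ρ n) ∧
      PD (fun n => Set.indicator ({1} : Set Zm) (fun _ => (1 : ℂ)) n - ρ n) := by
  have hmem : ∀ b : UnitAddCircle, ∃ ρ : Zm → ℂ, PD ρ ∧ c ≤ (ρ 1).re ∧ PD (fun n => f n - ρ n) ∧
      PD (fun n => ech b n * g n - ρ n) := by
    intro b
    have : b ∈ KK f g c := by rw [hK]; trivial
    exact this
  choose ρ hρ1 hρ2 hρ3 hρ4 using hmem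
  -- averages over roots of unity
  set R : ℕ → Zm → ℂ := fun N n =>
    ((1 / ((N + 1 : ℕ) : ℝ) : ℝ) : ℂ) * ∑ j ∈ range (N + 1), ρ (((j : ℝ) / ((N + 1 : ℕ) : ℝ) : ℝ) : UnitAddCircle) n with hR
  have hNpos : ∀ N : ℕ, (0 : ℝ) < ((N + 1 : ℕ) : ℝ) := fun N => by positivity
  have hRpd : ∀ N, PD (R N) := fun N =>
    pd_smul (pd_sum _ _ (fun j _ => hρ1 _)) _ (by positivity)
  have hsumconst : ∀ (N : ℕ) (z : ℂ), ((1 / ((N + 1 : ℕ) : ℝ) : ℝ) : ℂ) *
      ∑ _j ∈ range (N + 1), z = z := by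
    intro N z
    rw [Finset.sum_const, Finset.card_range, nsmul_eq_mul]
    have : ((N + 1 : ℕ) : ℂ) ≠ 0 := by exact_mod_cast (Nat.succ_ne_zero N)
    push_cast at this ⊢
    field_simp
  have hRf : ∀ N, PD (fun n => f n - R N n) := by
    intro N
    have h := pd_smul (pd_sum (range (N + 1))
      (fun j n => f n - ρ (((j : ℝ) / ((N + 1 : ℕ) : ℝ) : ℝ) : UnitAddCircle) n)
      (fun j _ => hρ3 _)) (1 / ((N + 1 : ℕ) : ℝ)) (by positivity)
    have e : (fun n => ((1 / ((N + 1 : ℕ) : ℝ) : ℝ) : ℂ) * ∑ j ∈ range (N + 1),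
        (f n - ρ (((j : ℝ) / ((N + 1 : ℕ) : ℝ) : ℝ) : UnitAddCircle) n)) =
        (fun n => f n - R N n) := by
      funext n
      rw [Finset.sum_sub_distrib, mul_sub, hsumconst]
    rwa [e] at h
  have hRc : ∀ N, c ≤ (R N 1).re := by
    intro N
    rw [hR]
    simp only
    rw [Complex.re_ofReal_mul, Complex.re_sum, one_div, inv_mul_eq_div, le_div_iff₀ (hNpos N)]
    calc c * ((N + 1 : ℕ) : ℝ) = ∑ _j ∈ range (N + 1), c := by
          rw [Finset.sum_const, Finset.card_range, nsmul_eq_mul]; ring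
      _ ≤ _ := Finset.sum_le_sum (fun j _ => hρ2 _)
  -- limit
  set U : Ultrafilter ℕ := Filter.hyperfilter ℕ with hU
  have hUle : (U : Filter ℕ) ≤ atTop := by
    rw [← Nat.cofinite_eq_atTop]; exact Filter.hyperfilter_le_cofinite
  obtain ⟨l, hl⟩ := exists_ultra_limit U R 1 (fun N n => minorant_bound hf1 (hRpd N) (hRf N) n)
  refine ⟨l, pd_limit hl (Eventually.of_forall hRpd), ?_, ?_, ?_⟩
  · have h1 := (Complex.continuous_re.tendsto _).comp (hl 1)
    exact ge_of_tendsto h1 (Eventually.of_forall hRc)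
  · exact pd_limit (fun n => (tendsto_const_nhds).sub (hl n)) (Eventually.of_forall hRf)
  · -- characters average to the regular function
    set A : ℕ → Zm → ℂ := fun N n => ((1 / ((N + 1 : ℕ) : ℝ) : ℝ) : ℂ) *
      ∑ j ∈ range (N + 1), ech (((j : ℝ) / ((N + 1 : ℕ) : ℝ) : ℝ) : UnitAddCircle) n with hA
    have hAval : ∀ N n, A N n = if ((N + 1 : ℕ) : ℤ) ∣ Multiplicative.toAdd n then 1 else 0 := by
      intro N n
      have e : ∀ j : ℕ, ech (((j : ℝ) / ((N + 1 : ℕ) : ℝ) : ℝ) : UnitAddCircle) n =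
          ((Complex.exp (2 * Real.pi * Complex.I / (N + 1 : ℕ))) ^ j) ^ (Multiplicative.toAdd n) := by
        intro j
        unfold ech
        rw [fourier_coe_apply, ← Complex.exp_nat_mul, ← Complex.exp_int_mul]
        congr 1
        push_cast
        ring
      rw [hA]
      simp only [e]
      rw [LevelSets.root_sum (N + 1) (Nat.succ_pos N)]
      have : ((N + 1 : ℕ) : ℂ) ≠ 0 := by exact_mod_cast (Nat.succ_ne_zero N)
      push_cast at this ⊢
      split_ifs
      · field_simp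
      · simp
    have hApd : ∀ N, PD (fun n => A N n * g n - R N n) := by
      intro N
      have h := pd_smul (pd_sum (range (N + 1))
        (fun j n => ech (((j : ℝ) / ((N + 1 : ℕ) : ℝ) : ℝ) : UnitAddCircle) n * g n -
          ρ (((j : ℝ) / ((N + 1 : ℕ) : ℝ) : ℝ) : UnitAddCircle) n)
        (fun j _ => hρ4 _)) (1 / ((N + 1 : ℕ) : ℝ)) (by positivity)
      have e : (fun n => ((1 / ((N + 1 : ℕ) : ℝ) : ℝ) : ℂ) * ∑ j ∈ range (N + 1),
          (ech (((j : ℝ) / ((N + 1 : ℕ) : ℝ) : ℝ) : UnitAddCircle) n * g n -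
            ρ (((j : ℝ) / ((N + 1 : ℕ) : ℝ) : ℝ) : UnitAddCircle) n)) =
          (fun n => A N n * g n - R N n) := by
        funext n
        rw [Finset.sum_sub_distrib, mul_sub, ← Finset.sum_mul, ← mul_assoc]
      rwa [e] at h
    have hAlim : ∀ n, Tendsto (fun N => A N n * g n) atTop
        (𝓝 (Set.indicator ({1} : Set Zm) (fun _ => (1 : ℂ)) n)) := by
      intro n
      by_cases hn : n = 1
      · subst hn
        have : ∀ N, A N 1 * g 1 = 1 := by
          intro N; rw [hAval, hg1]; simp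
        simp only [this]
        simp
      · rw [Set.indicator_of_notMem (by simpa using hn)]
        refine tendsto_const_nhds.congr' ?_
        filter_upwards [eventually_gt_atTop (Multiplicative.toAdd n).natAbs] with N hN
        rw [hAval, if_neg, zero_mul]
        intro hd
        have hn0 : Multiplicative.toAdd n ≠ 0 := by
          intro h0; apply hn
          rw [← ofAdd_toAdd n, h0, ofAdd_zero]
        have := Int.natAbs_le_of_dvd_ne_zero hd hn0
        simp at this
        omega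
    exact pd_limit (ρ := fun N n => A N n * g n - R N n)
      (fun n => ((hAlim n).mono_left hUle).sub (hl n)) (Eventually.of_forall hApd)

end Helper17.FU
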