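import Pool.Agent.Helper17.TranslM
import Pool.Agent.Helper17.FUTranslate

/-!
Positive-definite functions on the integers are Fourier transforms of measures on the circle
(Herglotz), and the singularity of the measure of an ergodic trace.
-/

set_option autoImplicit false
open Filter Topology MeasureTheory Helper17.TranslM
open scoped ENNReal ComplexOrder

namespace Helper17.Herglotz

/-- Fejer means -/
noncomputable def gN (f : ℤ → ℂ) (N : ℕ) (x : UnitAddCircle) : ℂ :=
  (N : ℂ)⁻¹ * ∑ i ∈ Finset.range N, ∑ j ∈ Finset.range N,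
    f ((i : ℤ) - j) * fourier (-((i : ℤ) - j)) x

lemma continuous_gN (f : ℤ → ℂ) (N : ℕ) : Continuous (gN f N) := by
  unfold gN; fun_prop

lemma gN_nonneg {f : ℤ → ℂ}
    (hf : ∀ (s : Finset ℤ) (c : ℤ → ℂ), 0 ≤ ∑ i ∈ s, ∑ j ∈ s, star (c j) * c i * f (i - j))
    (N : ℕ) (x : UnitAddCircle) : 0 ≤ gN f N x := by
  unfold gN
  apply mul_nonneg
  · simp
  have h := hf ((Finset.range N).map Nat.castEmbedding) (fun n => fourier (-n) x)
  simp only [Finset.sum_map, Nat.castEmbedding_apply] at h
  refine le_of_le_of_eq h (Finset.sum_congr rfl fun i _ => Finset.sum_congr rfl fun j _ => ?_)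
  have e1 : star ((fourier (-(j : ℤ)) x : ℂ)) = fourier (j : ℤ) x := by
    rw [fourier_neg]
    exact Complex.conj_conj _
  rw [e1, ← fourier_add, mul_comm, show (j : ℤ) + -(i : ℤ) = -((i : ℤ) - j) by ring]

lemma integral_gN {f : ℤ → ℂ} (N : ℕ) (m : ℤ) :
    ∫ x, fourier m x * gN f N x ∂(volume : Measure UnitAddCircle) =
      (N : ℂ)⁻¹ * ∑ i ∈ Finset.range N, ∑ j ∈ Finset.range N,
        (if (i : ℤ) - j = m then f m else 0) := by
  have e : ∀ x : UnitAddCircle, fourier m x * gN f N x = (N : ℂ)⁻¹ *
      ∑ i ∈ Finset.range N, ∑ j ∈ Finset.range N,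
        f ((i : ℤ) - j) * fourier (m - ((i : ℤ) - j)) x := by
    intro x
    unfold gN
    rw [mul_left_comm, Finset.mul_sum]
    congr 1
    refine Finset.sum_congr rfl fun i _ => ?_
    rw [Finset.mul_sum]
    refine Finset.sum_congr rfl fun j _ => ?_
    rw [mul_left_comm, ← fourier_add, sub_eq_add_neg m]
  simp only [e]
  rw [integral_const_mul, integral_finsetSum _ (fun i _ => integrable_cont _ (by fun_prop))]
  congr 1
  refine Finset.sum_congr rfl fun i _ => ?_
  rw [integral_finsetSum _ (fun j _ => integrable_cont _ (by fun_prop))]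
  refine Finset.sum_congr rfl fun j _ => ?_
  rw [integral_const_mul]
  by_cases h : (i : ℤ) - j = m
  · rw [if_pos h, h, sub_self]
    simp
  · rw [if_neg h, integral_fourier_vol (sub_ne_zero.mpr (Ne.symm h)), mul_zero]

/-- the number of pairs at a given distance -/
lemma count_pairs (m : ℤ) (N : ℕ) (z : ℂ) :
    ‖(∑ i ∈ Finset.range N, ∑ j ∈ Finset.range N, (if (i : ℤ) - j = m then z else 0)) - N * z‖ ≤
      m.natAbs * ‖z‖ := by
  rw [Finset.sum_comm]
  have e : ∀ j ∈ Finset.range N, (∑ i ∈ Finset.range N, (if (i : ℤ) - j = m then z else 0)) =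
      if 0 ≤ (j : ℤ) + m ∧ (j : ℤ) + m < N then z else 0 := by
    intro j hj
    by_cases h : 0 ≤ (j : ℤ) + m ∧ (j : ℤ) + m < N
    · rw [if_pos h, Finset.sum_eq_single ((j : ℤ) + m).toNat]
      · rw [if_pos]
        rw [Int.toNat_of_nonneg h.1]; ring
      · intro b _ hb
        rw [if_neg]
        intro hb'
        apply hb
        have : (b : ℤ) = j + m := by linarith
        rw [← this]; simp
      · intro hb
        exfalso
        apply hb
        rw [Finset.mem_range]
        have := h.2
        omega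
    · rw [if_neg h]
      refine Finset.sum_eq_zero fun i hi => if_neg fun hi' => h ?_
      rw [Finset.mem_range] at hi
      have : (j : ℤ) + m = i := by linarith
      rw [this]
      omega
  rw [Finset.sum_congr rfl e]
  have e2 : (N : ℂ) * z = ∑ j ∈ Finset.range N, z := by simp
  rw [e2, ← Finset.sum_sub_distrib]
  have e3 : ∀ j ∈ Finset.range N, ((if 0 ≤ (j : ℤ) + m ∧ (j : ℤ) + m < N then z else 0) - z) =
      if 0 ≤ (j : ℤ) + m ∧ (j : ℤ) + m < N then 0 else -z := by
    intro j _
    split_ifs <;> simp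
  rw [Finset.sum_congr rfl e3]
  refine (norm_sum_le _ _).trans ?_
  have e4 : ∀ j ∈ Finset.range N, ‖(if 0 ≤ (j : ℤ) + m ∧ (j : ℤ) + m < N then (0:ℂ) else -z)‖ =
      if ¬ (0 ≤ (j : ℤ) + m ∧ (j : ℤ) + m < N) then ‖z‖ else 0 := by
    intro j _
    split_ifs <;> simp
  rw [Finset.sum_congr rfl e4, ← Finset.sum_filter, Finset.sum_const, nsmul_eq_mul]
  apply mul_le_mul_of_nonneg_right _ (norm_nonneg _)
  have hcard : (Finset.filter (fun j : ℕ => ¬ (0 ≤ (j : ℤ) + m ∧ (j : ℤ) + m < N))
      (Finset.range N)).card ≤ m.natAbs := by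
    rcases le_total 0 m with hm | hm
    · calc _ ≤ (Finset.Ico (N - m.natAbs) N).card := by
            apply Finset.card_le_card
            intro j hj
            rw [Finset.mem_filter, Finset.mem_range] at hj
            rw [Finset.mem_Ico]
            omega
        _ ≤ m.natAbs := by rw [Nat.card_Ico]; omega
    · calc _ ≤ (Finset.range m.natAbs).card := by
            apply Finset.card_le_card
            intro j hj
            rw [Finset.mem_filter, Finset.mem_range] at hj
            rw [Finset.mem_range]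
            omega
        _ = m.natAbs := Finset.card_range _
  exact_mod_cast hcard

/-- **Herglotz.** -/
theorem herglotz {f : ℤ → ℂ}
    (hf : ∀ (s : Finset ℤ) (c : ℤ → ℂ), 0 ≤ ∑ i ∈ s, ∑ j ∈ s, star (c j) * c i * f (i - j))
    (h0 : f 0 = 1) :
    ∃ μ : Measure UnitAddCircle, IsProbabilityMeasure μ ∧
      ∀ m : ℤ, ∫ x, (fourier m x : ℂ) ∂μ = f m := by
  set ρ : ℕ → Measure UnitAddCircle := fun N =>
    (volume : Measure UnitAddCircle).withDensity (fun x => ENNReal.ofReal (gN f (N + 1) x).re)
    with hρ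
  have hreal : ∀ N x, ((gN f N x).re : ℂ) = gN f N x := by
    intro N x
    have := gN_nonneg hf N x
    rw [Complex.le_def] at this
    apply Complex.ext
    · simp
    · simpa using this.2
  have hre : ∀ N x, 0 ≤ (gN f N x).re := by
    intro N x
    have := gN_nonneg hf N x
    rw [Complex.le_def] at this
    simpa using this.1
  have hmeas : ∀ N, Measurable fun x => (gN f N x).re := by
    intro N
    exact (Complex.continuous_re.comp (continuous_gN f N)).measurable
  have hint : ∀ (N : ℕ) (m : ℤ), ∫ x, (fourier m x : ℂ) ∂(ρ N) =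
      ∫ x, fourier m x * gN f (N + 1) x ∂(volume : Measure UnitAddCircle) := by
    intro N m
    rw [hρ]
    simp only
    rw [integral_withDensity_eq_integral_toReal_smul₀ (hmeas _).ennreal_ofReal.aemeasurable
      (Eventually.of_forall fun x => ENNReal.ofReal_lt_top)]
    refine integral_congr_ae (Eventually.of_forall fun x => ?_)
    simp only
    rw [ENNReal.toReal_ofReal (hre _ x), Complex.real_smul, hreal, mul_comm]
  have hprob : ∀ N, IsProbabilityMeasure (ρ N) := by
    intro N
    have h1 : ρ N Set.univ = ENNReal.ofReal (∫ x, (gN f (N + 1) x).re) := by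
      rw [hρ]
      simp only
      have hc : Continuous fun x => (gN f (N + 1) x).re :=
        Complex.continuous_re.comp (continuous_gN f _)
      rw [withDensity_apply _ MeasurableSet.univ, Measure.restrict_univ,
        ofReal_integral_eq_lintegral_ofReal (integrable_cont _ hc)
          (Eventually.of_forall fun x => hre _ x)]
    have h2 : ((∫ x, (gN f (N + 1) x).re : ℝ) : ℂ) = 1 := by
      rw [← integral_complex_ofReal]
      simp only [hreal]
      have := integral_gN (f := f) (N + 1) 0
      simp only [fourier_zero, one_mul] at this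
      rw [this]
      have e : ∀ i ∈ Finset.range (N + 1), ∑ j ∈ Finset.range (N + 1),
          (if (i : ℤ) - j = 0 then f 0 else 0) = 1 := by
        intro i hi
        rw [Finset.sum_eq_single i]
        · simp [h0]
        · intro b _ hb
          rw [if_neg]
          intro h
          apply hb
          omega
        · intro h; exact absurd hi h
      rw [Finset.sum_congr rfl e, Finset.sum_const, Finset.card_range, nsmul_eq_mul, mul_one]
      exact inv_mul_cancel₀ (by exact_mod_cast Nat.succ_ne_zero N)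
    have h3 : (∫ x, (gN f (N + 1) x).re : ℝ) = 1 := by exact_mod_cast h2
    exact ⟨by rw [h1, h3, ENNReal.ofReal_one]⟩
  have hlim : ∀ m : ℤ, Tendsto (fun N => ∫ x, (fourier m x : ℂ) ∂(ρ N)) atTop (𝓝 (f m)) := by
    intro m
    rw [tendsto_iff_norm_sub_tendsto_zero]
    have hb : ∀ N : ℕ, ‖∫ x, (fourier m x : ℂ) ∂(ρ N) - f m‖ ≤
        (m.natAbs * ‖f m‖) * ((N : ℝ) + 1)⁻¹ := by
      intro N
      rw [hint, integral_gN (N + 1)]
      have h1 := count_pairs m (N + 1) (f m)
      have hN : ((N + 1 : ℕ) : ℂ) ≠ 0 := by exact_mod_cast Nat.succ_ne_zero N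
      have e : (((N + 1 : ℕ) : ℂ)⁻¹ * ∑ i ∈ Finset.range (N + 1), ∑ j ∈ Finset.range (N + 1),
          (if (i : ℤ) - j = m then f m else 0)) - f m = ((N + 1 : ℕ) : ℂ)⁻¹ *
          ((∑ i ∈ Finset.range (N + 1), ∑ j ∈ Finset.range (N + 1),
          (if (i : ℤ) - j = m then f m else 0)) - ((N + 1 : ℕ) : ℂ) * f m) := by
        field_simp
      rw [e, norm_mul, norm_inv, Complex.norm_natCast, mul_comm]
      push_cast at h1 ⊢
      exact mul_le_mul_of_nonneg_right h1 (by positivity)
    refine squeeze_zero (fun N => norm_nonneg _) hb ?_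
    have : Tendsto (fun N : ℕ => ((N : ℝ) + 1)⁻¹) atTop (𝓝 0) := by
      have := tendsto_one_div_add_atTop_nhds_zero_nat (𝕜 := ℝ)
      simpa [one_div] using this
    simpa using this.const_mul (m.natAbs * ‖f m‖)
  -- a limit point
  set P : ℕ → ProbabilityMeasure UnitAddCircle := fun N => ⟨ρ N, hprob N⟩ with hP
  obtain ⟨μ, -, hμ⟩ := isCompact_univ.ultrafilter_le_nhds
    ((hyperfilter ℕ).map P) (by simp)
  have hμ' : Tendsto P (hyperfilter ℕ) (𝓝 μ) := hμ
  refine ⟨μ, inferInstance, fun m => ?_⟩
  rw [ProbabilityMeasure.tendsto_iff_forall_integral_rclike_tendsto ℂ] at hμ'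
  have h1 := hμ' (BoundedContinuousFunction.mkOfCompact (fourier m))
  simp only [BoundedContinuousFunction.mkOfCompact_apply] at h1
  have h2 : Tendsto (fun N => ∫ x, (fourier m x : ℂ) ∂(ρ N)) (hyperfilter ℕ : Filter ℕ)
      (𝓝 (f m)) := (hlim m).mono_left Nat.hyperfilter_le_atTop
  exact tendsto_nhds_unique h1 h2

open Helper17.FU

/-- Fourier transforms of finite measures are positive-definite -/
lemma pd_of_measure (σ : Measure UnitAddCircle) [IsFiniteMeasure σ] :
    PD (fun g : Zm => ∫ x, (fourier (Multiplicative.toAdd g) x : ℂ) ∂σ) := by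
  intro s c
  have e : ∀ x : UnitAddCircle, ∑ i ∈ s, ∑ j ∈ s, star (c j) * c i *
      (fourier (Multiplicative.toAdd (j⁻¹ * i)) x : ℂ) =
      star (∑ j ∈ s, c j * fourier (Multiplicative.toAdd j) x) *
        (∑ i ∈ s, c i * fourier (Multiplicative.toAdd i) x) := by
    intro x
    rw [star_sum, Finset.sum_mul_sum, Finset.sum_comm]
    refine Finset.sum_congr rfl fun j _ => Finset.sum_congr rfl fun i _ => ?_
    rw [toAdd_mul, toAdd_inv, fourier_add, fourier_neg, star_mul']
    have : (starRingEnd ℂ) (fourier (Multiplicative.toAdd j) x) =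
      star (fourier (Multiplicative.toAdd j) x : ℂ) := rfl
    rw [this]
    ring
  have e2 : ∑ i ∈ s, ∑ j ∈ s, star (c j) * c i *
      (∫ x, (fourier (Multiplicative.toAdd (j⁻¹ * i)) x : ℂ) ∂σ) =
      ∫ x, star (∑ j ∈ s, c j * fourier (Multiplicative.toAdd j) x) *
        (∑ i ∈ s, c i * fourier (Multiplicative.toAdd i) x) ∂σ := by
    simp only [← e]
    rw [integral_finsetSum _ (fun i _ => integrable_cont _ (by fun_prop))]
    refine Finset.sum_congr rfl fun i _ => ?_
    rw [integral_finsetSum _ (fun j _ => integrable_cont _ (by fun_prop))]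
    refine Finset.sum_congr rfl fun j _ => ?_
    rw [integral_const_mul]
  rw [e2]
  have e3 : ∀ x : UnitAddCircle, star (∑ j ∈ s, c j * fourier (Multiplicative.toAdd j) x) *
        (∑ i ∈ s, c i * fourier (Multiplicative.toAdd i) x) =
      ((‖∑ i ∈ s, c i * fourier (Multiplicative.toAdd i) x‖ ^ 2 : ℝ) : ℂ) := by
    intro x
    have := Complex.conj_mul' (∑ i ∈ s, c i * (fourier (Multiplicative.toAdd i) x : ℂ))
    push_cast
    exact this
  simp only [e3]
  rw [integral_complex_ofReal]
  exact_mod_cast integral_nonneg fun x => by positivity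

/-- the measure of an ergodic function is singular -/
theorem singular_of_ergodic {μ : Measure UnitAddCircle} [IsProbabilityMeasure μ]
    (h2 : MeasurePreserving (T 2) μ μ) (h3 : MeasurePreserving (T 3) μ μ)
    (hE : ∀ m : ℤ, Tendsto (fun L => LevelSets.EE
      (fun n => ∫ x, (fourier (m * n) x : ℂ) ∂μ) L) atTop
      (𝓝 ((‖∫ x, (fourier m x : ℂ) ∂μ‖ ^ 2 : ℝ) : ℂ)))
    (hne : ∃ m : ℤ, m ≠ 0 ∧ ∫ x, (fourier m x : ℂ) ∂μ ≠ 0) :
    μ ⟂ₘ (volume : Measure UnitAddCircle) := by
  by_cases hc : μ (Gen 2) = 0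
  · exact ⟨Gen 2, measurable_Gen 2, hc, vol_Gen le_rfl⟩
  exfalso
  obtain ⟨m, hm, hne⟩ := hne
  apply hne
  set c : ℝ := μ.real (Gen 2) with hcdef
  have hcpos : 0 < c := by
    rw [hcdef, measureReal_def]
    exact ENNReal.toReal_pos hc (measure_ne_top _ _)
  have hc1 : c ≤ 1 := by
    rw [hcdef]; exact measureReal_le_one
  have hmul : ∀ (N : ℕ) (_ : MeasurePreserving (T N) μ μ) (n : ℤ),
      ∫ x, (fourier (N * n) x : ℂ) ∂μ = ∫ x, (fourier n x : ℂ) ∂μ := by
    intro N hN n
    have := integral_map (μ := μ) (measurable_T N).aemeasurable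
      (f := fun x => (fourier n x : ℂ)) (fourier n).continuous.aestronglyMeasurable
    rw [hN.map_eq] at this
    rw [this]
    refine integral_congr_ae (Eventually.of_forall fun x => ?_)
    simp only [T, fourier_apply]
    congr 1
    congr 1
    rw [← natCast_zsmul, smul_smul, mul_comm]
  set ρ : Zm → ℂ := fun g => (c : ℂ) *
    ∫ x, (fourier (m * Multiplicative.toAdd g) x : ℂ) ∂(volume : Measure UnitAddCircle) with hρ
  have hvol : ∀ g : Zm, Set.indicator ({1} : Set Zm) (fun _ => (1 : ℂ)) g =
      ∫ x, (fourier (m * Multiplicative.toAdd g) x : ℂ) ∂(volume : Measure UnitAddCircle) := by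
    intro g
    by_cases hg : g = 1
    · subst hg; simp
    · rw [Set.indicator_of_notMem (by simpa using hg), integral_fourier_vol]
      intro h0
      rcases mul_eq_zero.mp h0 with h | h
      · exact hm h
      · apply hg
        rw [← ofAdd_toAdd g, h, ofAdd_zero]
  have hcomp : ∀ σ : Measure UnitAddCircle, IsFiniteMeasure σ →
      PD (fun g : Zm => ∫ x, (fourier (m * Multiplicative.toAdd g) x : ℂ) ∂σ) := by
    intro σ _
    exact pd_comp (pd_of_measure σ) (mulHom m)
  have hρpd : PD ρ := pd_smul (hcomp _ inferInstance) c hcpos.le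
  have hfin := final_int
    (fun g => ∫ x, (fourier (m * Multiplicative.toAdd g) x : ℂ) ∂μ) ρ
    (hcomp μ inferInstance) (by simp) hρpd ?_ ?_ ?_ ?_ ?_ ?_
  · simpa using hfin
  · -- f - ρ
    have e : (fun g : Zm => ∫ x, (fourier (m * Multiplicative.toAdd g) x : ℂ) ∂μ - ρ g) =
        fun g : Zm => ∫ x, (fourier (m * Multiplicative.toAdd g) x : ℂ)
          ∂(μ.restrict (Gen 2)ᶜ) := by
      funext g
      have h1 := integral_add_compl (measurable_Gen 2)
        (integrable_cont μ (fourier (m * Multiplicative.toAdd g)).continuous)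
      have h4 : ∫ x in Gen 2, (fourier (m * Multiplicative.toAdd g) x : ℂ) ∂μ = ρ g := by
        rw [restrict_Gen h2, integral_smul_measure]
        rw [hρ, hcdef, measureReal_def]
        simp only [Complex.real_smul]
      rw [← h1, h4]
      ring
    rw [e]
    exact hcomp _ inferInstance
  · have e : (fun g => Set.indicator ({1} : Set Zm) (fun _ => (1 : ℂ)) g - ρ g) =
        fun g : Zm => (((1 - c : ℝ)) : ℂ) *
        ∫ x, (fourier (m * Multiplicative.toAdd g) x : ℂ) ∂(volume : Measure UnitAddCircle) := by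
      funext g
      rw [hvol g, hρ]
      push_cast
      ring
    rw [e]
    exact pd_smul (hcomp _ inferInstance) (1 - c) (by linarith)
  · intro n
    simp only [toAdd_ofAdd]
    have := hmul 2 h2 (m * n)
    rw [← this]
    congr 2
    funext x
    push_cast
    congr 2
    ring
  · intro n
    simp only [toAdd_ofAdd]
    have := hmul 3 h3 (m * n)
    rw [← this]
    congr 2
    funext x
    push_cast
    congr 2
    ring
  · simpa using hE m
  · rw [hρ]
    simpa using hcpos

end Helper17.Herglotz
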