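import Mathlib

/-!
# Support filtrations on Laurent polynomial rings and the unit lemma
-/

open scoped BigOperators Pointwise
open AddMonoidAlgebra

noncomputable section

namespace FQ

section basic

variable {Γ : Type*}

/-- `f` is supported in `S` -/
def SuppIn (f : AddMonoidAlgebra ℂ Γ) (S : Set Γ) : Prop := ∀ q, f.coeff q ≠ 0 → q ∈ S

lemma SuppIn.mono {f : AddMonoidAlgebra ℂ Γ} {S T : Set Γ} (h : SuppIn f S) (hST : S ⊆ T) :
    SuppIn f T := fun q hq => hST (h q hq)

lemma SuppIn.zero (S : Set Γ) : SuppIn (0 : AddMonoidAlgebra ℂ Γ) S := by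
  intro q hq; simp at hq

lemma SuppIn.add {f g : AddMonoidAlgebra ℂ Γ} {S : Set Γ} (hf : SuppIn f S) (hg : SuppIn g S) :
    SuppIn (f + g) S := by
  intro q hq
  rw [coeff_add, Finsupp.add_apply] at hq
  by_cases h : f.coeff q = 0
  · rw [h, zero_add] at hq; exact hg q hq
  · exact hf q h

lemma SuppIn.neg {f : AddMonoidAlgebra ℂ Γ} {S : Set Γ} (hf : SuppIn f S) :
    SuppIn (-f) S := by
  intro q hq
  rw [coeff_neg, Finsupp.neg_apply, neg_ne_zero] at hq
  exact hf q hq

lemma SuppIn.sub {f g : AddMonoidAlgebra ℂ Γ} {S : Set Γ} (hf : SuppIn f S) (hg : SuppIn g S) :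
    SuppIn (f - g) S := by
  rw [sub_eq_add_neg]; exact hf.add hg.neg

lemma SuppIn.sum {ι : Type*} (s : Finset ι) (f : ι → AddMonoidAlgebra ℂ Γ) {S : Set Γ}
    (hf : ∀ i ∈ s, SuppIn (f i) S) : SuppIn (∑ i ∈ s, f i) S := by
  classical
  induction s using Finset.induction_on with
  | empty => simpa using SuppIn.zero S
  | insert i s hi ih =>
    rw [Finset.sum_insert hi]
    exact (hf i (Finset.mem_insert_self _ _)).add
      (ih fun j hj => hf j (Finset.mem_insert_of_mem hj))

lemma SuppIn.single {q : Γ} {a : ℂ} {S : Set Γ} (hq : q ∈ S) :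
    SuppIn (AddMonoidAlgebra.single q a) S := by
  classical
  intro p hp
  rw [coeff_single, Finsupp.single_apply] at hp
  split_ifs at hp with h
  · rw [← h]; exact hq
  · exact absurd rfl hp

lemma SuppIn.mul [AddCommGroup Γ] {f g : AddMonoidAlgebra ℂ Γ} {S T U : Set Γ} (hf : SuppIn f S)
    (hg : SuppIn g T) (h : ∀ a ∈ S, ∀ b ∈ T, a + b ∈ U) : SuppIn (f * g) U := by
  classical
  intro q hq
  have h1 : q ∈ (f * g).coeff.support := by simpa using hq
  have h2 := support_coeff_mul_subset f g h1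
  obtain ⟨a, ha, b, hb, rfl⟩ := Finset.mem_add.mp h2
  exact h a (hf a (by simpa using ha)) b (hg b (by simpa using hb))

lemma SuppIn.smul {f : AddMonoidAlgebra ℂ Γ} {S : Set Γ} (hf : SuppIn f S) (a : ℂ) :
    SuppIn (a • f) S := by
  intro q hq
  apply hf
  intro h
  apply hq
  simp [h]

lemma eq_sum_single (f : AddMonoidAlgebra ℂ Γ) :
    f = ∑ q ∈ f.coeff.support, AddMonoidAlgebra.single q (f.coeff q) := by
  conv_lhs => rw [← sum_coeff_single f]
  rfl

lemma single_eq_smul (q : Γ) (a : ℂ) :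
    AddMonoidAlgebra.single q a = a • AddMonoidAlgebra.single q (1:ℂ) := by
  rw [smul_single, smul_eq_mul, mul_one]

/-- restriction of the support to a set -/
def rst (S : Set Γ) (f : AddMonoidAlgebra ℂ Γ) : AddMonoidAlgebra ℂ Γ :=
  .ofCoeff (by classical exact f.coeff.filter (· ∈ S))

lemma coeff_rst (S : Set Γ) [DecidablePred (· ∈ S)] (f : AddMonoidAlgebra ℂ Γ) (q : Γ) :
    (rst S f).coeff q = if q ∈ S then f.coeff q else 0 := by
  classical
  simp only [rst, Finsupp.filter_apply]
  congr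

lemma suppIn_rst (S : Set Γ) (f : AddMonoidAlgebra ℂ Γ) : SuppIn (rst S f) S := by
  classical
  intro q hq
  rw [coeff_rst] at hq
  by_contra h
  rw [if_neg h] at hq
  exact hq rfl

lemma suppIn_rst' {S T : Set Γ} {f : AddMonoidAlgebra ℂ Γ} (hf : SuppIn f T) :
    SuppIn (rst S f) T := by
  classical
  intro q hq
  rw [coeff_rst] at hq
  split_ifs at hq
  · exact hf q hq
  · exact absurd rfl hq

end basic

section noeth

variable {M : Type*} [AddCommMonoid M]

lemma isNoetherianRing_addMonoidAlgebra [AddMonoid.FG M] :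
    IsNoetherianRing (AddMonoidAlgebra ℂ M) := by
  have : Algebra.FiniteType ℂ (AddMonoidAlgebra ℂ M) := inferInstance
  exact Algebra.FiniteType.isNoetherianRing ℂ _

end noeth

section unitlemma

variable {Γ : Type*} [AddCommGroup Γ] [Module.Finite ℤ Γ]

lemma addMonoidFG_of_submodule (K : AddSubgroup Γ) : AddMonoid.FG K := by
  have h1 : Module.Finite ℤ (AddSubgroup.toIntSubmodule K) := inferInstance
  have h2 : AddGroup.FG (AddSubgroup.toIntSubmodule K) := Module.Finite.iff_addGroup_fg.mp h1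
  exact AddGroup.fg_iff_addMonoid_fg.mp h2

/-- The Noetherian property of the ring of initial forms. -/
lemma exists_drops (P : Ideal (AddMonoidAlgebra ℂ Γ)) (θ : Γ →+ ℝ) :
    ∃ D : Finset ℝ, (∀ δ ∈ D, 0 < δ ∧ ∃ q, θ q = δ) ∧
    ∀ (v : ℝ) (h : AddMonoidAlgebra ℂ Γ), SuppIn h {q | θ q = v} →
      (∃ p ∈ P, SuppIn (p - h) {q | θ q < v}) →
      ∃ h', h - h' ∈ P ∧ SuppIn h' {q | ∃ δ ∈ D, θ q = v - δ} := by
  classical
  let K : AddSubgroup Γ := θ.ker
  have : AddMonoid.FG K := addMonoidFG_of_submodule K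
  have hN : IsNoetherianRing (AddMonoidAlgebra ℂ K) := isNoetherianRing_addMonoidAlgebra
  let ι : AddMonoidAlgebra ℂ K →+* AddMonoidAlgebra ℂ Γ :=
    AddMonoidAlgebra.mapDomainRingHom ℂ K.subtype
  have hι : ∀ (k : K) (a : ℂ), ι (single k a) = single (k : Γ) a := by
    intro k a
    simp [ι]
  have hιsupp : ∀ g, SuppIn (ι g) {q | θ q = 0} := by
    intro g
    rw [eq_sum_single g, map_sum]
    apply SuppIn.sum
    intro k _
    rw [hι]
    apply SuppIn.single
    exact k.2
  have hlift : ∀ h : AddMonoidAlgebra ℂ Γ, SuppIn h {q | θ q = 0} → ∃ g, ι g = h := by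
    intro h hh
    refine ⟨∑ q ∈ h.coeff.support.attach, single (⟨q, hh q (Finsupp.mem_support_iff.mp q.2)⟩ : K) (h.coeff q), ?_⟩
    rw [map_sum]
    conv_rhs => rw [eq_sum_single h]
    rw [← Finset.sum_attach h.coeff.support]
    exact Finset.sum_congr rfl fun q _ => hι _ _
  -- the ideal of initial forms of degree zero
  let Q : Ideal (AddMonoidAlgebra ℂ K) :=
    { carrier := {g | ∃ p ∈ P, SuppIn (p - ι g) {q | θ q < 0}}
      zero_mem' := ⟨0, P.zero_mem, by simpa using SuppIn.zero _⟩
      add_mem' := by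
        rintro a b ⟨p, hp, h1⟩ ⟨p', hp', h2⟩
        refine ⟨p + p', P.add_mem hp hp', ?_⟩
        have : p + p' - ι (a + b) = (p - ι a) + (p' - ι b) := by rw [map_add]; ring
        rw [this]
        exact h1.add h2
      smul_mem' := by
        rintro b a ⟨p, hp, h1⟩
        refine ⟨ι b * p, P.mul_mem_left _ hp, ?_⟩
        have : ι b * p - ι (b • a) = ι b * (p - ι a) := by
          rw [smul_eq_mul, map_mul]; ring
        rw [this]
        refine (hιsupp b).mul h1 ?_
        intro q hq q' hq'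
        simp only [Set.mem_ofPred_eq, map_add] at *
        linarith }
  have hQ : ∀ g, g ∈ Q ↔ ∃ p ∈ P, SuppIn (p - ι g) {q | θ q < 0} := fun g => Iff.rfl
  obtain ⟨s, hs⟩ := (isNoetherianRing_iff_ideal_fg _).mp hN Q
  have hsQ : ∀ g ∈ s, g ∈ Q := fun g hg => hs ▸ Ideal.subset_span hg
  choose! p hpP hpS using fun g (hg : g ∈ s) => (hQ g).mp (hsQ g hg)
  -- the drops
  set D : Finset ℝ := s.biUnion fun g => (p g - ι g).coeff.support.image fun q => -θ q with hD
  refine ⟨D, ?_, ?_⟩
  · intro δ hδ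
    simp only [hD, Finset.mem_biUnion, Finset.mem_image] at hδ
    obtain ⟨g, hg, q, hq, rfl⟩ := hδ
    have := hpS g hg q (by simpa using hq)
    simp only [Set.mem_ofPred_eq] at this
    exact ⟨by linarith, -q, by rw [map_neg]⟩
  · intro v h hh ⟨p', hp', hpS'⟩
    by_cases h0 : h = 0
    · exact ⟨0, by rw [h0]; simp, SuppIn.zero _⟩
    -- a monomial of level v
    obtain ⟨q₀, hq₀⟩ : ∃ q, h.coeff q ≠ 0 := by
      by_contra hcon
      push Not at hcon
      apply h0
      ext q
      simpa using hcon q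
    have hθ : θ q₀ = v := hh q₀ hq₀
    have hu : single (-q₀) (1:ℂ) * single q₀ (1:ℂ) = 1 := by
      rw [single_mul_single, neg_add_cancel, one_mul, one_def]
    -- normalised form
    have h1 : SuppIn (single (-q₀) (1:ℂ) * h) {q | θ q = 0} := by
      refine (SuppIn.single (S := {-q₀}) rfl).mul hh ?_
      rintro a rfl b hb
      simp only [Set.mem_ofPred_eq, map_add, map_neg] at *
      linarith
    obtain ⟨g, hg⟩ := hlift _ h1
    have hgQ : g ∈ Q := by
      rw [hQ]
      refine ⟨single (-q₀) 1 * p', P.mul_mem_left _ hp', ?_⟩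
      have : single (-q₀) 1 * p' - ι g = single (-q₀) 1 * (p' - h) := by
        rw [hg]; ring
      rw [this]
      refine (SuppIn.single (S := {-q₀}) rfl).mul hpS' ?_
      rintro a rfl b hb
      simp only [Set.mem_ofPred_eq, map_add, map_neg] at *
      linarith
    rw [← hs] at hgQ
    obtain ⟨c, hc⟩ := Submodule.mem_span_finset'.mp hgQ
    -- the reduction
    refine ⟨single q₀ 1 * ∑ x : s, ι (c x) * -(p x - ι x), ?_, ?_⟩
    · have e1 : h = single q₀ 1 * ι g := by
        rw [hg, ← mul_assoc, mul_comm (single q₀ (1:ℂ)), hu, one_mul]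
      have e2 : h - single q₀ 1 * ∑ x : s, ι (c x) * -(p x - ι x) =
          single q₀ 1 * ∑ x : s, ι (c x) * p x := by
        rw [e1, ← mul_sub, ← hc, map_sum, ← Finset.sum_sub_distrib]
        congr 1
        refine Finset.sum_congr rfl fun x _ => ?_
        rw [smul_eq_mul, map_mul]
        ring
      rw [e2]
      apply P.mul_mem_left
      exact P.sum_mem fun x _ => P.mul_mem_left _ (hpP x x.2)
    · have h3 : SuppIn (∑ x : s, ι (c x) * -(p x - ι x)) {q | ∃ δ ∈ D, θ q = - δ} := by
        apply SuppIn.sum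
        intro x _
        have h4 : SuppIn (-(p x - ι x)) {q | ∃ δ ∈ D, θ q = -δ} := by
          apply SuppIn.neg
          intro q hq
          refine ⟨-θ q, ?_, by ring⟩
          simp only [hD, Finset.mem_biUnion, Finset.mem_image]
          exact ⟨x, x.2, q, by simpa using hq, rfl⟩
        refine (hιsupp (c x)).mul h4 ?_
        rintro a ha b ⟨δ, hδ, hb⟩
        refine ⟨δ, hδ, ?_⟩
        simp only [Set.mem_ofPred_eq, map_add] at *
        linarith
      refine (SuppIn.single (S := {q₀}) rfl).mul h3 ?_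
      rintro a rfl b ⟨δ, hδ, hb⟩
      refine ⟨δ, hδ, ?_⟩
      rw [map_add, hθ, hb]
      ring

omit [Module.Finite ℤ Γ] in
/-- Descending reduction. -/
lemma reduction (P : Ideal (AddMonoidAlgebra ℂ Γ)) (θ : Γ →+ ℝ) (D : Finset ℝ)
    (hD : ∀ δ ∈ D, 0 < δ)
    (hred : ∀ (v : ℝ) (h : AddMonoidAlgebra ℂ Γ), SuppIn h {q | θ q = v} →
      (∃ p ∈ P, SuppIn (p - h) {q | θ q < v}) →
      ∃ h', h - h' ∈ P ∧ SuppIn h' {q | ∃ δ ∈ D, θ q = v - δ})
    (X : Set Γ) (hX : ∀ q ∈ X, ∀ q', (∃ δ ∈ D, θ q' = θ q - δ) → q' ∈ X)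
    (a : AddMonoidAlgebra ℂ Γ) (ha : SuppIn a X) (μ : ℝ)
    (htop : ∀ a', a - a' ∈ P → SuppIn a' X → ∀ v, μ < v → SuppIn a' {q | θ q ≤ v} →
      ∃ p ∈ P, SuppIn (p - rst {q | θ q = v} a') {q | θ q < v}) :
    ∃ a', a - a' ∈ P ∧ SuppIn a' X ∧ SuppIn a' {q | θ q ≤ μ} := by
  classical
  -- minimal drop
  obtain ⟨ε, hε0, hε⟩ : ∃ ε : ℝ, 0 < ε ∧ ∀ δ ∈ D, ε ≤ δ := by
    rcases D.eq_empty_or_nonempty with h | h
    · exact ⟨1, one_pos, by simp [h]⟩
    · exact ⟨D.min' h, hD _ (D.min'_mem h), fun δ hδ => D.min'_le δ hδ⟩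
  -- one band
  have hband : ∀ τ : ℝ, (∃ a', a - a' ∈ P ∧ SuppIn a' X ∧ SuppIn a' {q | θ q ≤ max τ μ}) →
      ∃ a', a - a' ∈ P ∧ SuppIn a' X ∧ SuppIn a' {q | θ q ≤ max (τ - ε) μ} := by
    intro τ hτ
    -- number of levels in the band
    let lev : AddMonoidAlgebra ℂ Γ → Finset ℝ := fun f =>
      (f.coeff.support.image θ).filter (fun v => max (τ - ε) μ < v)
    have hmin : ∃ n : ℕ, ∃ a', (a - a' ∈ P ∧ SuppIn a' X ∧ SuppIn a' {q | θ q ≤ max τ μ}) ∧
        (lev a').card = n := by
      obtain ⟨a', h⟩ := hτ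
      exact ⟨_, a', h, rfl⟩
    obtain ⟨a', ⟨hP, hXa, hτa⟩, hcard⟩ := Nat.find_spec hmin
    have hleast := fun m hm => Nat.find_min hmin (m := m) hm
    by_cases hl : lev a' = ∅
    · refine ⟨a', hP, hXa, ?_⟩
      intro q hq
      by_contra hcon
      simp only [Set.mem_ofPred_eq, not_le] at hcon
      have : θ q ∈ lev a' := by
        simp only [lev, Finset.mem_filter, Finset.mem_image]
        exact ⟨⟨q, by simpa using hq, rfl⟩, hcon⟩
      rw [hl] at this
      simp at this
    · exfalso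
      have hne : (lev a').Nonempty := Finset.nonempty_iff_ne_empty.mpr hl
      set v := (lev a').max' hne with hv
      have hvmem := (lev a').max'_mem hne
      rw [← hv] at hvmem
      have hvgt : max (τ - ε) μ < v := (Finset.mem_filter.mp hvmem).2
      have hvle : SuppIn a' {q | θ q ≤ v} := by
        intro q hq
        by_contra hcon
        simp only [Set.mem_ofPred_eq, not_le] at hcon
        have : θ q ∈ lev a' := by
          simp only [lev, Finset.mem_filter, Finset.mem_image]
          exact ⟨⟨q, by simpa using hq, rfl⟩, hvgt.trans hcon⟩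
        have := (lev a').le_max' _ this
        linarith
      have hvτ : v ≤ max τ μ := by
        obtain ⟨q, hq, hqv⟩ := Finset.mem_image.mp (Finset.mem_filter.mp hvmem).1
        have := hτa q (by simpa using hq)
        rw [← hqv]; exact this
      have hvτ' : v ≤ τ := by
        rcases le_max_iff.mp hvτ with h | h
        · exact h
        · have := (le_max_right (τ - ε) μ).trans_lt hvgt
          linarith
      obtain ⟨p, hpP, hpS⟩ := htop a' hP hXa v ((le_max_right _ _).trans_lt hvgt) hvle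
      obtain ⟨h', hh'P, hh'S⟩ := hred v (rst {q | θ q = v} a') (suppIn_rst _ _) ⟨p, hpP, hpS⟩
      -- the new element
      set b := a' - rst {q | θ q = v} a' + h' with hb
      have hbP : a - b ∈ P := by
        have : a - b = (a - a') + (rst {q | θ q = v} a' - h') := by rw [hb]; ring
        rw [this]
        exact P.add_mem hP hh'P
      by_cases hvs : rst {q | θ q = v} a' = 0
      · -- impossible: v is a level
        obtain ⟨q, hq, hqv⟩ := Finset.mem_image.mp (Finset.mem_filter.mp hvmem).1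
        have h1 : (rst {q | θ q = v} a').coeff q = 0 := by rw [hvs]; simp
        rw [coeff_rst, if_pos (by exact hqv)] at h1
        exact (by simpa using hq : a'.coeff q ≠ 0) h1
      have hq₀ : ∃ q₀ ∈ X, θ q₀ = v := by
        obtain ⟨q, hq, hqv⟩ := Finset.mem_image.mp (Finset.mem_filter.mp hvmem).1
        exact ⟨q, hXa q (by simpa using hq), hqv⟩
      obtain ⟨q₀, hq₀X, hq₀v⟩ := hq₀
      have hh'X : SuppIn h' X := by
        intro q hq
        obtain ⟨δ, hδ, hδq⟩ := hh'S q hq
        exact hX q₀ hq₀X q ⟨δ, hδ, by rw [hδq, hq₀v]⟩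
      have hbX : SuppIn b X := (hXa.sub (suppIn_rst' hXa)).add hh'X
      have hh'v : SuppIn h' {q | θ q ≤ τ - ε} := by
        intro q hq
        obtain ⟨δ, hδ, hδq⟩ := hh'S q hq
        have := hε δ hδ
        simp only [Set.mem_ofPred_eq]
        linarith
      have hbτ : SuppIn b {q | θ q ≤ max τ μ} := by
        refine (hτa.sub (suppIn_rst' hτa)).add (hh'v.mono fun q hq => ?_)
        simp only [Set.mem_ofPred_eq] at *
        exact (hq.trans (by linarith)).trans (le_max_left _ _)
      have hlevsub : lev b ⊆ (lev a').erase v := by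
        intro w hw
        simp only [lev, Finset.mem_filter, Finset.mem_image] at hw
        obtain ⟨⟨q, hq, rfl⟩, hw2⟩ := hw
        have hq' : b.coeff q ≠ 0 := by simpa using hq
        have hh'0 : h'.coeff q = 0 := by
          by_contra hne2
          have := hh'v q hne2
          simp only [Set.mem_ofPred_eq] at this
          have h3 := (le_max_left (τ - ε) μ).trans_lt hw2
          linarith
        have hbq : b.coeff q = a'.coeff q - (rst {q | θ q = v} a').coeff q := by
          rw [hb, coeff_add, coeff_sub, Finsupp.add_apply, Finsupp.sub_apply, hh'0, add_zero]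
        rw [hbq, coeff_rst] at hq'
        rw [Finset.mem_erase]
        by_cases hqv : θ q = v
        · rw [if_pos (by exact hqv), sub_self] at hq'
          exact absurd rfl hq'
        · rw [if_neg (by simpa using hqv), sub_zero] at hq'
          refine ⟨hqv, ?_⟩
          simp only [lev, Finset.mem_filter, Finset.mem_image]
          exact ⟨⟨q, by simpa using hq', rfl⟩, hw2⟩
      have hcardlt : (lev b).card < (lev a').card := by
        refine (Finset.card_le_card hlevsub).trans_lt ?_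
        exact Finset.card_erase_lt_of_mem hvmem
      rw [hcard] at hcardlt
      exact hleast _ hcardlt ⟨b, ⟨hbP, hbX, hbτ⟩, rfl⟩
  -- iterate
  obtain ⟨τ₀, hτ₀⟩ : ∃ τ₀ : ℝ, SuppIn a {q | θ q ≤ τ₀} := by
    refine ⟨∑ q ∈ a.coeff.support, |θ q|, fun q hq => ?_⟩
    have h1 : |θ q| ≤ ∑ q ∈ a.coeff.support, |θ q| :=
      Finset.single_le_sum (f := fun q => |θ q|) (fun _ _ => abs_nonneg _) (by simpa using hq)
    exact (le_abs_self _).trans h1
  have hiter : ∀ k : ℕ, ∃ a', a - a' ∈ P ∧ SuppIn a' X ∧ SuppIn a' {q | θ q ≤ max (τ₀ - k * ε) μ} := by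
    intro k
    induction k with
    | zero =>
      refine ⟨a, by simp, ha, hτ₀.mono fun q hq => ?_⟩
      simp only [Set.mem_ofPred_eq] at *
      simp [hq]
    | succ k ih =>
      have := hband _ ih
      have e : τ₀ - k * ε - ε = τ₀ - ((k + 1 : ℕ) : ℝ) * ε := by push_cast; ring
      rwa [e] at this
  obtain ⟨k, hk⟩ := exists_nat_gt ((τ₀ - μ) / ε)
  obtain ⟨a', h1, h2, h3⟩ := hiter k
  refine ⟨a', h1, h2, ?_⟩
  have h4 : τ₀ - k * ε ≤ μ := by
    rw [div_lt_iff₀ hε0] at hk
    linarith
  rwa [max_eq_right h4] at h3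

/-- an integral functional positive on the drops -/
lemma exists_int_functional (θ : Γ →+ ℝ) (D : Finset ℝ) (hD : ∀ δ ∈ D, 0 < δ ∧ ∃ q, θ q = δ) :
    ∃ (l : Γ →+ ℤ), (∀ q, θ q = 0 → l q = 0) ∧ ∀ q, θ q ∈ D → 0 < l q := by
  classical
  let G : Submodule ℤ ℝ := LinearMap.range θ.toIntLinearMap
  have hfin : Module.Finite ℤ G := inferInstance
  have hfree : Module.Free ℤ G := inferInstance
  let b := Module.finBasis ℤ G
  -- choose the multiplier
  let S : G → ℝ := fun g => ∑ i, |((b.repr g i : ℤ) : ℝ)|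
  obtain ⟨N, hN⟩ : ∃ N : ℕ, ∀ g : G, (g : ℝ) ∈ D → S g < 2 * (N * (g:ℝ)) := by
    have h1 : ∀ δ ∈ D, ∃ N : ℕ, ∀ g : G, (g : ℝ) = δ → S g < 2 * (N * (g:ℝ)) := by
      intro δ hδ
      obtain ⟨hδ0, q, hq⟩ := hD δ hδ
      have hmem : δ ∈ G := ⟨q, hq⟩
      obtain ⟨N, hN⟩ := exists_nat_gt (S ⟨δ, hmem⟩ / (2 * δ))
      refine ⟨N, fun g hg => ?_⟩
      have hg' : g = ⟨δ, hmem⟩ := Subtype.ext hg
      rw [hg']
      rw [div_lt_iff₀ (by positivity)] at hN
      simp only
      linarith
    choose! N hN using h1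
    refine ⟨∑ δ ∈ D, N δ, fun g hg => ?_⟩
    refine (hN g hg g rfl).trans_le ?_
    have h2 : N (g:ℝ) ≤ ∑ δ ∈ D, N δ :=
      Finset.single_le_sum (f := N) (fun _ _ => Nat.zero_le _) hg
    have h3 : (N (g:ℝ) : ℝ) ≤ ((∑ δ ∈ D, N δ : ℕ) : ℝ) := by exact_mod_cast h2
    have h4 := (hD _ hg).1
    have h5 := mul_le_mul_of_nonneg_right h3 h4.le
    linarith
  let lG : G →ₗ[ℤ] ℤ := b.constr ℤ fun i => round (N * ((b i : G) : ℝ))
  let θ' : Γ →+ G :=
    { toFun := fun q => ⟨θ q, ⟨q, rfl⟩⟩
      map_zero' := by ext; simp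
      map_add' := fun x y => by ext; simp }
  refine ⟨lG.toAddMonoidHom.comp θ', ?_, ?_⟩
  · intro q hq
    have : θ' q = 0 := by ext; exact hq
    simp [this]
  · intro q hq
    have hlG : ∀ g : G, |((lG g : ℤ) : ℝ) - N * (g : ℝ)| ≤ S g / 2 := by
      intro g
      have e1 : ((lG g : ℤ) : ℝ) = ∑ i, ((b.repr g i : ℤ) : ℝ) * round (N * ((b i : G) : ℝ)) := by
        simp only [lG, Module.Basis.constr_apply_fintype, Module.Basis.equivFun_apply, smul_eq_mul]
        push_cast
        rfl
      have e2 : (g : ℝ) = ∑ i, ((b.repr g i : ℤ) : ℝ) * ((b i : G) : ℝ) := by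
        conv_lhs => rw [← b.sum_repr g]
        rw [Submodule.coe_sum]
        refine Finset.sum_congr rfl fun i _ => ?_
        simp
      have e3 : ((lG g : ℤ) : ℝ) - N * (g : ℝ) = ∑ i, ((b.repr g i : ℤ) : ℝ) *
          (round (N * ((b i : G) : ℝ)) - N * ((b i : G) : ℝ)) := by
        rw [e1]
        conv_lhs => rw [e2]
        rw [Finset.mul_sum, ← Finset.sum_sub_distrib]
        exact Finset.sum_congr rfl fun i _ => by ring
      rw [e3]
      refine (Finset.abs_sum_le_sum_abs _ _).trans ?_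
      simp only [S]
      rw [Finset.sum_div]
      refine Finset.sum_le_sum fun i _ => ?_
      rw [abs_mul, abs_sub_comm]
      have := abs_sub_round (N * ((b i : G) : ℝ))
      have h0 := abs_nonneg ((b.repr g i : ℤ) : ℝ)
      nlinarith
    have h1 := hlG (θ' q)
    have h2 := hN (θ' q) hq
    have h3 : ((θ' q : G) : ℝ) = θ q := rfl
    rw [h3] at h1 h2
    rw [abs_le] at h1
    have h4 : (0:ℝ) < ((lG (θ' q) : ℤ) : ℝ) := by linarith [h1.1]
    have h5 : 0 < lG (θ' q) := by exact_mod_cast h4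
    exact h5

/-- the Krull intersection step -/
lemma krull_step (P : Ideal (AddMonoidAlgebra ℂ Γ)) [P.IsPrime] (l : Γ →+ ℤ)
    (J : AddMonoidAlgebra ℂ Γ) (hJ : J ∉ P)
    (h : ∀ M : ℤ, ∃ f, J - f ∈ P ∧ SuppIn f {q | l q < M}) :
    ∃ σ, 1 - σ ∈ P ∧ SuppIn σ {q | l q < 0} := by
  classical
  -- generator of the value group
  obtain ⟨g, hg⟩ : ∃ g : ℤ, l.range = AddSubgroup.closure {g} := Int.subgroup_cyclic _
  have hg' : ∃ g : ℤ, 0 < g ∧ (∃ s, l s = g) ∧ ∀ q, ∃ k : ℤ, l q = k * g := by
    have hmem : g ∈ l.range := by rw [hg]; exact AddSubgroup.subset_closure rfl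
    obtain ⟨s, hs⟩ := hmem
    have hall : ∀ q, ∃ k : ℤ, l q = k * g := by
      intro q
      have : l q ∈ l.range := ⟨q, rfl⟩
      rw [hg, AddSubgroup.mem_closure_singleton] at this
      obtain ⟨k, hk⟩ := this
      exact ⟨k, by rw [← hk]; simp⟩
    rcases lt_trichotomy g 0 with h0 | h0 | h0
    · refine ⟨-g, by omega, ⟨-s, by rw [map_neg, hs]⟩, fun q => ?_⟩
      obtain ⟨k, hk⟩ := hall q
      exact ⟨-k, by rw [hk]; ring⟩
    · exfalso
      obtain ⟨f, hf1, hf2⟩ := h 0
      have hf0 : f = 0 := by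
        ext q
        by_contra hne
        have h2 := hf2 q (by simpa using hne)
        obtain ⟨k, hk⟩ := hall q
        simp only [Set.mem_ofPred_eq] at h2
        rw [hk, h0, mul_zero] at h2
        exact lt_irrefl _ h2
      rw [hf0, sub_zero] at hf1
      exact hJ hf1
    · exact ⟨g, h0, ⟨s, hs⟩, hall⟩
  obtain ⟨g, hg0, ⟨s, hs⟩, hall⟩ := hg'
  -- the monoid
  let Mn : AddSubmonoid Γ :=
    { carrier := {q | l q ≤ 0}
      zero_mem' := by simp
      add_mem' := by
        intro a b ha hb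
        simp only [Set.mem_ofPred_eq, map_add] at *
        omega }
  have hFG : AddMonoid.FG Mn := by
    let K : AddSubgroup Γ := l.ker
    have hK : AddMonoid.FG K := addMonoidFG_of_submodule K
    let φ : K × ℕ →+ Mn :=
      { toFun := fun x => ⟨(x.1 : Γ) - x.2 • s, by
          change l ((x.1 : Γ) - x.2 • s) ≤ 0
          rw [map_sub, map_nsmul, hs]
          have : l (x.1 : Γ) = 0 := x.1.2
          rw [this]
          have : (0:ℤ) ≤ x.2 • g := by positivity
          omega⟩
        map_zero' := by ext; simp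
        map_add' := fun x y => by
          ext
          simp only [Prod.fst_add, Prod.snd_add, AddSubgroup.coe_add, AddSubmonoid.coe_add, add_smul]
          abel }
    have hφ : Function.Surjective φ := by
      rintro ⟨q, hq⟩
      obtain ⟨k, hk⟩ := hall q
      have hq' : l q ≤ 0 := hq
      have hk0 : k ≤ 0 := by
        rw [hk] at hq'
        by_contra hcon
        push Not at hcon
        have := mul_pos hcon hg0
        omega
      have hmem : q + (-k).toNat • s ∈ K := by
        change l (q + (-k).toNat • s) = 0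
        rw [map_add, map_nsmul, hs, hk, nsmul_eq_mul]
        have : (((-k).toNat : ℕ) : ℤ) = -k := Int.toNat_of_nonneg (by omega)
        rw [this]; ring
      refine ⟨(⟨q + (-k).toNat • s, hmem⟩, (-k).toNat), ?_⟩
      ext
      simp [φ]
    have : AddMonoid.FG (K × ℕ) := inferInstance
    exact AddMonoid.fg_of_surjective φ hφ
  have hN : IsNoetherianRing (AddMonoidAlgebra ℂ Mn) := isNoetherianRing_addMonoidAlgebra
  let ι : AddMonoidAlgebra ℂ Mn →+* AddMonoidAlgebra ℂ Γ :=
    AddMonoidAlgebra.mapDomainRingHom ℂ Mn.subtype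
  have hι : ∀ (k : Mn) (a : ℂ), ι (single k a) = single (k : Γ) a := by
    intro k a
    simp [ι]
  have hιsupp : ∀ g, SuppIn (ι g) {q | l q ≤ 0} := by
    intro g
    rw [eq_sum_single g, map_sum]
    apply SuppIn.sum
    intro k _
    rw [hι]
    apply SuppIn.single
    exact k.2
  have hlift : ∀ h : AddMonoidAlgebra ℂ Γ, SuppIn h {q | l q ≤ 0} → ∃ g, ι g = h := by
    intro h hh
    refine ⟨∑ q ∈ h.coeff.support.attach, single (⟨q, hh q (Finsupp.mem_support_iff.mp q.2)⟩ : Mn) (h.coeff q), ?_⟩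
    rw [map_sum]
    conv_rhs => rw [eq_sum_single h]
    rw [← Finset.sum_attach h.coeff.support]
    exact Finset.sum_congr rfl fun q _ => hι _ _
  let PB : Ideal (AddMonoidAlgebra ℂ Mn) := P.comap ι
  have hPB : PB.IsPrime := Ideal.comap_isPrime ι P
  have hNq : IsNoetherianRing (AddMonoidAlgebra ℂ Mn ⧸ PB) := inferInstance
  have hdom : IsDomain (AddMonoidAlgebra ℂ Mn ⧸ PB) := inferInstance
  have hsneg : -s ∈ Mn := by change l (-s) ≤ 0; rw [map_neg, hs]; omega
  let e : AddMonoidAlgebra ℂ Mn := single ⟨-s, hsneg⟩ 1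
  have he : ι e = single (-s) 1 := hι _ _
  let mk := Ideal.Quotient.mk PB
  -- the element J inside
  obtain ⟨f₀, hf₀1, hf₀2⟩ := h 0
  obtain ⟨j, hj⟩ := hlift f₀ (hf₀2.mono fun q hq => le_of_lt (by exact hq : l q < 0))
  have hjP : j ∉ PB := by
    intro hc
    apply hJ
    have h1 : ι j ∈ P := hc
    rw [hj] at h1
    have := P.add_mem hf₀1 h1
    simpa using this
  have hpow : ∀ k : ℕ, mk j ∈ (Ideal.span {mk e}) ^ k := by
    intro k
    obtain ⟨f, hf1, hf2⟩ := h (-(k * g))
    have h1 : SuppIn (single (k • s) 1 * f) {q | l q ≤ 0} := by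
      refine (SuppIn.single (S := {k • s}) rfl).mul hf2 ?_
      rintro a rfl b hb
      simp only [Set.mem_ofPred_eq, map_add, map_nsmul, hs, nsmul_eq_mul] at *
      omega
    obtain ⟨u, hu⟩ := hlift _ h1
    have h2 : j - e ^ k * u ∈ PB := by
      change ι (j - e ^ k * u) ∈ P
      rw [map_sub, map_mul, map_pow, hj, he, hu, single_pow, one_pow, ← mul_assoc,
        single_mul_single, smul_neg, neg_add_cancel, one_mul, ← one_def, one_mul]
      have : f₀ - f = (J - f) - (J - f₀) := by ring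
      rw [this]
      exact P.sub_mem hf1 hf₀1
    have h3 : mk j = mk e ^ k * mk u := by
      rw [← map_pow, ← map_mul]
      exact (Ideal.Quotient.eq).mpr h2
    rw [h3, Ideal.span_singleton_pow]
    exact Ideal.mul_mem_right _ _ (Ideal.mem_span_singleton_self _)
  have htop : Ideal.span {mk e} = ⊤ := by
    by_contra hne
    have h1 := Ideal.iInf_pow_eq_bot_of_isDomain (Ideal.span {mk e}) hne
    have h2 : mk j ∈ (⨅ i : ℕ, Ideal.span {mk e} ^ i) := by
      rw [Submodule.mem_iInf]
      exact hpow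
    rw [h1] at h2
    exact hjP (Ideal.Quotient.eq_zero_iff_mem.mp (by simpa using h2))
  rw [Ideal.eq_top_iff_one, Ideal.mem_span_singleton'] at htop
  obtain ⟨c, hc⟩ := htop
  obtain ⟨u, rfl⟩ := Ideal.Quotient.mk_surjective c
  have h5 : mk (1 - u * e) = 0 := by
    rw [map_sub, map_mul, map_one]
    rw [sub_eq_zero]
    exact hc.symm
  have h5' : 1 - u * e ∈ PB := Ideal.Quotient.eq_zero_iff_mem.mp h5
  have h6 : ι (1 - u * e) ∈ P := h5'
  rw [map_sub, map_one, map_mul, he] at h6
  refine ⟨ι u * single (-s) 1, h6, ?_⟩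
  refine (hιsupp u).mul (SuppIn.single (S := {-s}) rfl) ?_
  rintro a ha b rfl
  simp only [Set.mem_ofPred_eq, map_add, map_neg, hs] at *
  omega

/-- **The unit lemma.** If a nonzero element of the domain `ℂ[Γ]/P` can be represented with
arbitrarily negative `θ`-support, then `1` can be represented with negative `θ`-support. -/
theorem unit_lemma (P : Ideal (AddMonoidAlgebra ℂ Γ)) [P.IsPrime] (θ : Γ →+ ℝ)
    (J : AddMonoidAlgebra ℂ Γ) (hJ : J ∉ P)
    (h : ∀ M : ℝ, ∃ f, J - f ∈ P ∧ SuppIn f {q | θ q < M}) :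
    ∃ σ, 1 - σ ∈ P ∧ SuppIn σ {q | θ q < 0} := by
  classical
  obtain ⟨D, hD, hred⟩ := exists_drops P θ
  obtain ⟨l, hl0, hlD⟩ := exists_int_functional θ D hD
  -- l depends only on θ
  have hlθ : ∀ q q', θ q = θ q' → l q = l q' := by
    intro q q' hqq
    have := hl0 (q - q') (by rw [map_sub, hqq, sub_self])
    rw [map_sub] at this
    omega
  have hldrop : ∀ q q' : Γ, ∀ δ ∈ D, θ q' = θ q - δ → 0 < l q - l q' := by
    intro q q' δ hδ hq
    have := hlD (q - q') (by rw [map_sub, hq]; simpa using hδ)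
    rwa [map_sub] at this
  -- comparison constant
  obtain ⟨c, hc0, hc⟩ : ∃ c : ℝ, 0 < c ∧ ∀ q, θ q ∈ D → c * θ q ≤ l q := by
    refine ⟨1 / (1 + ∑ δ ∈ D, |δ|), by positivity, fun q hq => ?_⟩
    have h1 : |θ q| ≤ ∑ δ ∈ D, |δ| :=
      Finset.single_le_sum (f := fun δ : ℝ => |δ|) (fun _ _ => abs_nonneg _) hq
    have h2 : (1:ℝ) ≤ l q := by exact_mod_cast hlD q hq
    have h3 := (le_abs_self (θ q)).trans h1
    have h4 : 0 ≤ ∑ δ ∈ D, |δ| := Finset.sum_nonneg fun _ _ => abs_nonneg _
    rw [one_div, inv_mul_le_iff₀ (by positivity)]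
    nlinarith
  -- step 1: J has arbitrarily negative l-support
  have hstep1 : ∀ M : ℤ, ∃ f, J - f ∈ P ∧ SuppIn f {q | l q < M} := by
    intro M
    obtain ⟨B, hB⟩ : ∃ B : ℝ, SuppIn J {q | (l q : ℝ) - c * θ q ≤ B} := by
      refine ⟨∑ q ∈ J.coeff.support, |(l q : ℝ) - c * θ q|, fun q hq => ?_⟩
      have h1 : |(l q : ℝ) - c * θ q| ≤ ∑ q ∈ J.coeff.support, |(l q : ℝ) - c * θ q| :=
        Finset.single_le_sum (f := fun q => |(l q : ℝ) - c * θ q|) (fun _ _ => abs_nonneg _)
          (by simpa using hq)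
      exact (le_abs_self _).trans h1
    obtain ⟨a', h1, h2, h3⟩ := reduction P θ D (fun δ hδ => (hD δ hδ).1) hred
      {q | (l q : ℝ) - c * θ q ≤ B} (by
        rintro q hq q' ⟨δ, hδ, hqq⟩
        simp only [Set.mem_ofPred_eq] at *
        have h4 : θ (q - q') ∈ D := by rw [map_sub, hqq]; simpa using hδ
        have h5 := hc _ h4
        rw [map_sub, map_sub] at h5
        push_cast at h5
        linarith) J hB ((M - 1 - B) / c) (by
        intro a' ha'P _ v _ hv
        obtain ⟨f, hf1, hf2⟩ := h v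
        refine ⟨a' - f, ?_, ?_⟩
        · have : a' - f = (J - f) - (J - a') := by ring
          rw [this]; exact P.sub_mem hf1 ha'P
        · intro q hq
          simp only [Set.mem_ofPred_eq]
          by_contra hcon
          push Not at hcon
          apply hq
          have hfq : f.coeff q = 0 := by
            by_contra hne
            have := hf2 q hne
            simp only [Set.mem_ofPred_eq] at this
            linarith
          rw [coeff_sub, coeff_sub, Finsupp.sub_apply, Finsupp.sub_apply, hfq, coeff_rst]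
          rcases eq_or_lt_of_le hcon with h6 | h6
          · rw [if_pos (by exact h6.symm)]; ring
          · have hq0 : a'.coeff q = 0 := by
              by_contra hne
              have := hv q hne
              simp only [Set.mem_ofPred_eq] at this
              linarith
            rw [hq0]; simp)
    refine ⟨a', h1, fun q hq => ?_⟩
    have h4 := h2 q hq
    have h5 := h3 q hq
    simp only [Set.mem_ofPred_eq] at *
    rw [le_div_iff₀ hc0] at h5
    have h6 : (l q : ℝ) ≤ M - 1 := by linarith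
    have h7 : l q ≤ M - 1 := by exact_mod_cast h6
    omega
  obtain ⟨σ, hσ1, hσ2⟩ := krull_step P l J hJ hstep1
  -- step 2: reduce σ
  obtain ⟨a', h1, h2, h3⟩ := reduction P θ D (fun δ hδ => (hD δ hδ).1) hred
    {q | l q < 0} (by
      rintro q hq q' ⟨δ, hδ, hqq⟩
      simp only [Set.mem_ofPred_eq] at *
      have := hldrop q q' δ hδ hqq
      omega) σ hσ2 0 (by
      intro a' ha'P _ v hv0 hv
      refine ⟨-(1 - σ) - (σ - a'), ?_, ?_⟩
      · exact P.sub_mem (P.neg_mem hσ1) ha'P
      · have e : -(1 - σ) - (σ - a') - rst {q | θ q = v} a' = a' - rst {q | θ q = v} a' - 1 := by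
          ring
        rw [e]
        have h1s : SuppIn (1 : AddMonoidAlgebra ℂ Γ) {q | θ q < v} := by
          rw [one_def]
          apply SuppIn.single
          simpa using hv0
        refine SuppIn.sub ?_ h1s
        intro q hq
        simp only [Set.mem_ofPred_eq]
        by_contra hcon
        push Not at hcon
        apply hq
        rw [coeff_sub, Finsupp.sub_apply, coeff_rst]
        rcases eq_or_lt_of_le hcon with h6 | h6
        · rw [if_pos (by exact h6.symm)]; ring
        · have hq0 : a'.coeff q = 0 := by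
            by_contra hne
            have := hv q hne
            simp only [Set.mem_ofPred_eq] at this
            linarith
          rw [hq0]; simp)
  refine ⟨a', ?_, fun q hq => ?_⟩
  · have : 1 - a' = (1 - σ) + (σ - a') := by ring
    rw [this]; exact P.add_mem hσ1 h1
  · have h4 := h2 q hq
    have h5 := h3 q hq
    simp only [Set.mem_ofPred_eq] at *
    rcases eq_or_lt_of_le h5 with h6 | h6
    · have := hl0 q h6
      omega
    · exact h6

/-- version for radical ideals -/
theorem unit_lemma_radical (I : Ideal (AddMonoidAlgebra ℂ Γ)) (hI : I.IsRadical) (θ : Γ →+ ℝ)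
    (h : ∀ P ∈ I.minimalPrimes, ∃ J, J ∉ P ∧ ∀ M : ℝ, ∃ f, J - f ∈ P ∧ SuppIn f {q | θ q < M}) :
    ∃ σ, 1 - σ ∈ I ∧ SuppIn σ {q | θ q < 0} := by
  classical
  have hFG : AddMonoid.FG Γ := by
    have h2 : AddGroup.FG Γ := Module.Finite.iff_addGroup_fg.mp inferInstance
    exact AddGroup.fg_iff_addMonoid_fg.mp h2
  have hN : IsNoetherianRing (AddMonoidAlgebra ℂ Γ) := isNoetherianRing_addMonoidAlgebra
  have hfin : I.minimalPrimes.Finite := Ideal.finite_minimalPrimes_of_isNoetherianRing _ I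
  have key : ∀ P ∈ I.minimalPrimes, ∃ σ, 1 - σ ∈ P ∧ SuppIn σ {q | θ q < 0} := by
    intro P hP
    have hprime : P.IsPrime := hP.1.1
    obtain ⟨J, hJ, hJ2⟩ := h P hP
    exact unit_lemma P θ J hJ hJ2
  choose! σ hσ1 hσ2 using key
  -- the product
  have hprod : ∀ s : Finset (Ideal (AddMonoidAlgebra ℂ Γ)), (∀ P ∈ s, P ∈ I.minimalPrimes) →
      SuppIn (1 - ∏ P ∈ s, (1 - σ P)) {q | θ q < 0} := by
    intro s
    induction s using Finset.induction_on with
    | empty => intro _; simpa using SuppIn.zero _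
    | insert P s hP ih =>
      intro hs
      have h1 := ih fun Q hQ => hs Q (Finset.mem_insert_of_mem hQ)
      have h2 := hσ2 P (hs P (Finset.mem_insert_self _ _))
      rw [Finset.prod_insert hP]
      set W := ∏ P ∈ s, (1 - σ P)
      have e : 1 - (1 - σ P) * W = (1 - W) + σ P - σ P * (1 - W) := by ring
      rw [e]
      refine (h1.add h2).sub (h2.mul h1 ?_)
      intro a ha b hb
      simp only [Set.mem_ofPred_eq, map_add] at *
      linarith
  refine ⟨1 - ∏ P ∈ hfin.toFinset, (1 - σ P), ?_, hprod _ fun P hP => by simpa using hP⟩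
  rw [sub_sub_cancel]
  have hI' : ∀ x, x ∈ sInf I.minimalPrimes → x ∈ I := by
    intro x hx
    rw [Ideal.sInf_minimalPrimes, hI.radical] at hx
    exact hx
  apply hI'
  rw [Submodule.mem_sInf]
  intro P hP
  have hPm : P ∈ hfin.toFinset := by simpa using hP
  rw [← Finset.mul_prod_erase _ _ hPm]
  exact Ideal.mul_mem_right _ P (hσ1 P hP)

end unitlemma

end FQ
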