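import Mathlib

/-!
# Fourier quasicrystals: basic notation

Pairings, complex exponentials, Fourier-Laplace transforms of test functions.
-/

open scoped BigOperators SchwartzMap FourierTransform RealInnerProductSpace ContDiff
open MeasureTheory Complex

noncomputable section

namespace FQ

/-- The real space. -/
abbrev E (d : ℕ) := EuclideanSpace ℝ (Fin d)

variable {d : ℕ}

/-- bilinear pairing of a real vector with a complex vector -/
def pr (q : E d) (z : Fin d → ℂ) : ℂ := ∑ j, (q j : ℂ) * z j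

/-- The exponential `e_q(z) = exp(2 pi i <q,z>)`. -/
def ex (q : E d) (z : Fin d → ℂ) : ℂ := Complex.exp (2 * Real.pi * I * pr q z)

/-- complexification of a real vector -/
def cx (x : E d) : Fin d → ℂ := fun j => (x j : ℂ)

@[simp] lemma cx_apply (x : E d) (j : Fin d) : cx x j = (x j : ℂ) := rfl

lemma cx_injective : Function.Injective (cx : E d → (Fin d → ℂ)) := by
  intro x y h
  ext j
  have := congrFun h j
  simpa using this

@[simp] lemma cx_add (x y : E d) : cx (x + y) = cx x + cx y := by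
  ext j; simp [cx]
@[simp] lemma cx_sub (x y : E d) : cx (x - y) = cx x - cx y := by
  ext j; simp [cx]
@[simp] lemma cx_neg (x : E d) : cx (-x) = -cx x := by
  ext j; simp [cx]
@[simp] lemma cx_zero : cx (0 : E d) = 0 := by
  ext j; simp [cx]
lemma cx_smul (a : ℝ) (x : E d) : cx (a • x) = (a : ℂ) • cx x := by
  ext j; simp [cx]

lemma pr_add_left (p q : E d) (z : Fin d → ℂ) : pr (p + q) z = pr p z + pr q z := by
  simp [pr, add_mul, Finset.sum_add_distrib]
lemma pr_sub_left (p q : E d) (z : Fin d → ℂ) : pr (p - q) z = pr p z - pr q z := by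
  simp [pr, sub_mul, Finset.sum_sub_distrib]
lemma pr_neg_left (p : E d) (z : Fin d → ℂ) : pr (-p) z = - pr p z := by
  simp [pr]
lemma pr_smul_left (a : ℝ) (p : E d) (z : Fin d → ℂ) : pr (a • p) z = a * pr p z := by
  simp [pr, Finset.mul_sum, mul_assoc]
@[simp] lemma pr_zero_left (z : Fin d → ℂ) : pr (0 : E d) z = 0 := by simp [pr]
lemma pr_add_right (p : E d) (z w : Fin d → ℂ) : pr p (z + w) = pr p z + pr p w := by
  simp [pr, mul_add, Finset.sum_add_distrib]
lemma pr_sub_right (p : E d) (z w : Fin d → ℂ) : pr p (z - w) = pr p z - pr p w := by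
  simp [pr, mul_sub, Finset.sum_sub_distrib]
lemma pr_neg_right (p : E d) (z : Fin d → ℂ) : pr p (-z) = - pr p z := by
  simp [pr]
lemma pr_smul_right (a : ℂ) (p : E d) (z : Fin d → ℂ) : pr p (a • z) = a * pr p z := by
  simp only [pr, Pi.smul_apply, smul_eq_mul, Finset.mul_sum]
  exact Finset.sum_congr rfl fun j _ => by ring
@[simp] lemma pr_zero_right (p : E d) : pr p (0 : Fin d → ℂ) = 0 := by simp [pr]

lemma pr_cx (p x : E d) : pr p (cx x) = ((⟪p, x⟫ : ℝ) : ℂ) := by
  simp only [pr, cx, PiLp.inner_apply, RCLike.inner_apply, conj_trivial]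
  push_cast
  exact Finset.sum_congr rfl fun j _ => by ring

lemma ex_add_left (p q : E d) (z : Fin d → ℂ) : ex (p + q) z = ex p z * ex q z := by
  simp [ex, pr_add_left, mul_add, Complex.exp_add]
lemma ex_add_right (p : E d) (z w : Fin d → ℂ) : ex p (z + w) = ex p z * ex p w := by
  simp [ex, pr_add_right, mul_add, Complex.exp_add]
@[simp] lemma ex_zero_left (z : Fin d → ℂ) : ex (0 : E d) z = 1 := by simp [ex]
@[simp] lemma ex_zero_right (p : E d) : ex p (0 : Fin d → ℂ) = 1 := by simp [ex]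
lemma ex_ne_zero (p : E d) (z : Fin d → ℂ) : ex p z ≠ 0 := Complex.exp_ne_zero _
lemma ex_neg_left (p : E d) (z : Fin d → ℂ) : ex (-p) z = (ex p z)⁻¹ := by
  simp [ex, pr_neg_left, Complex.exp_neg]
lemma ex_neg_right (p : E d) (z : Fin d → ℂ) : ex p (-z) = (ex p z)⁻¹ := by
  simp [ex, pr_neg_right, Complex.exp_neg]
lemma ex_sub_left (p q : E d) (z : Fin d → ℂ) : ex (p - q) z = ex p z * (ex q z)⁻¹ := by
  rw [sub_eq_add_neg, ex_add_left, ex_neg_left]
lemma ex_sub_right (p : E d) (z w : Fin d → ℂ) : ex p (z - w) = ex p z * (ex p w)⁻¹ := by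
  rw [sub_eq_add_neg, ex_add_right, ex_neg_right]
lemma ex_nsmul_left (n : ℕ) (p : E d) (z : Fin d → ℂ) : ex (n • p) z = (ex p z) ^ n := by
  induction n with
  | zero => simp
  | succ n ih => rw [succ_nsmul, ex_add_left, ih, pow_succ]

lemma ex_cx (p x : E d) : ex p (cx x) = Complex.exp (((2 * Real.pi * ⟪p, x⟫ : ℝ) : ℂ) * I) := by
  rw [ex, pr_cx]; push_cast; ring_nf

@[simp] lemma norm_ex_cx (p x : E d) : ‖ex p (cx x)‖ = 1 := by
  rw [ex_cx, Complex.norm_exp_ofReal_mul_I]

lemma conj_ex_cx (p x : E d) : (starRingEnd ℂ) (ex p (cx x)) = ex (-p) (cx x) := by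
  rw [ex_cx, ex_cx, ← Complex.exp_conj, map_mul, Complex.conj_ofReal, Complex.conj_I,
    inner_neg_left]
  congr 1
  push_cast
  ring

lemma norm_ex (p : E d) (z : Fin d → ℂ) :
    ‖ex p z‖ = Real.exp (-2 * Real.pi * ∑ j, p j * (z j).im) := by
  rw [ex, Complex.norm_exp]
  congr 1
  have h : (2 * (Real.pi : ℂ) * I * pr p z).re = -2 * Real.pi * (pr p z).im := by
    simp [Complex.mul_re, Complex.mul_im]
  rw [h, pr]
  congr 1
  rw [Complex.im_sum]
  simp

lemma norm_ex_le (z : Fin d → ℂ) : ∃ B : ℝ, 0 ≤ B ∧ ∀ p : E d, ‖ex p z‖ ≤ Real.exp (B * ‖p‖) := by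
  refine ⟨2 * Real.pi * ∑ j, |(z j).im|, by positivity, fun p => ?_⟩
  rw [norm_ex]
  apply Real.exp_le_exp.mpr
  have h1 : |∑ j, p j * (z j).im| ≤ (∑ j, |(z j).im|) * ‖p‖ := by
    refine (Finset.abs_sum_le_sum_abs _ _).trans ?_
    rw [Finset.sum_mul]
    refine Finset.sum_le_sum fun j _ => ?_
    rw [abs_mul, mul_comm]
    refine mul_le_mul_of_nonneg_left ?_ (abs_nonneg _)
    have := EuclideanSpace.norm_eq p
    rw [this]
    apply Real.le_sqrt_of_sq_le
    rw [← Real.norm_eq_abs]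
    exact Finset.single_le_sum (f := fun i => ‖p i‖ ^ 2) (fun i _ => by positivity)
      (Finset.mem_univ j)
  have h2 := neg_abs_le (∑ j, p j * (z j).im)
  have hpi := Real.pi_pos
  nlinarith

@[fun_prop]
lemma continuous_pr_left (z : Fin d → ℂ) : Continuous fun q : E d => pr q z := by
  unfold pr; fun_prop
@[fun_prop]
lemma continuous_pr_right (q : E d) : Continuous fun z : Fin d → ℂ => pr q z := by
  unfold pr; fun_prop
@[fun_prop]
lemma continuous_ex_left (z : Fin d → ℂ) : Continuous fun q : E d => ex q z := by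
  unfold ex; fun_prop
@[fun_prop]
lemma continuous_ex_right (q : E d) : Continuous fun z : Fin d → ℂ => ex q z := by
  unfold ex; fun_prop
@[fun_prop]
lemma continuous_cx : Continuous (cx : E d → (Fin d → ℂ)) := by
  unfold cx; fun_prop

lemma contDiff_ex_left (z : Fin d → ℂ) : ContDiff ℝ ∞ fun q : E d => ex q z := by
  unfold ex pr
  apply ContDiff.cexp
  apply ContDiff.mul contDiff_const
  apply ContDiff.sum
  intro j _
  apply ContDiff.mul _ contDiff_const
  exact Complex.ofRealCLM.contDiff.comp (EuclideanSpace.proj j : E d →L[ℝ] ℝ).contDiff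

/-- Test functions with support in the ball of centre `η`, radius `r`. -/
structure TF (h : E d → ℂ) (η : E d) (r : ℝ) : Prop where
  smooth : ContDiff ℝ ∞ h
  supp : ∀ ξ, r ≤ ‖ξ - η‖ → h ξ = 0

/-- Fourier-Laplace transform -/
def psi (h : E d → ℂ) (z : Fin d → ℂ) : ℂ := ∫ ξ : E d, h ξ * ex (-ξ) z

namespace TF

variable {h : E d → ℂ} {η : E d} {r : ℝ}

lemma hasCompactSupport (H : TF h η r) : HasCompactSupport h := by
  apply HasCompactSupport.of_support_subset_isCompact (isCompact_closedBall η r)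
  intro ξ hξ
  by_contra hn
  apply hξ
  apply H.supp
  simp only [Metric.mem_closedBall, not_le, dist_eq_norm] at hn
  exact hn.le

lemma continuous (H : TF h η r) : Continuous h := H.smooth.continuous

lemma mono (H : TF h η r) {r' : ℝ} (hr : r ≤ r') : TF h η r' :=
  ⟨H.smooth, fun ξ hξ => H.supp ξ (hr.trans hξ)⟩

lemma mono' (H : TF h η r) {η' : E d} {r' : ℝ} (hr : r + ‖η - η'‖ ≤ r') : TF h η' r' := by
  refine ⟨H.smooth, fun ξ hξ => H.supp ξ ?_⟩
  have : ‖ξ - η'‖ ≤ ‖ξ - η‖ + ‖η - η'‖ := by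
    calc ‖ξ - η'‖ = ‖(ξ - η) + (η - η')‖ := by congr 1; abel
      _ ≤ _ := norm_add_le _ _
  linarith

lemma mul_ex (H : TF h η r) (t : Fin d → ℂ) : TF (fun ξ => h ξ * ex ξ t) η r :=
  ⟨H.smooth.mul (contDiff_ex_left t), fun ξ hξ => by simp [H.supp ξ hξ]⟩

lemma integrable_mul_ex (H : TF h η r) (z : Fin d → ℂ) :
    Integrable (fun ξ : E d => h ξ * ex (-ξ) z) := by
  apply Continuous.integrable_of_hasCompactSupport
  · exact H.continuous.mul ((continuous_ex_left z).comp continuous_neg)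
  · exact H.hasCompactSupport.mul_right

lemma integrable (H : TF h η r) : Integrable h :=
  H.continuous.integrable_of_hasCompactSupport H.hasCompactSupport

/-- as a Schwartz map -/
def toS (H : TF h η r) : 𝓢(E d, ℂ) := H.hasCompactSupport.toSchwartzMap H.smooth

@[simp] lemma toS_apply (H : TF h η r) (ξ : E d) : H.toS ξ = h ξ := rfl

lemma coe_toS (H : TF h η r) : (H.toS : E d → ℂ) = h := rfl

end TF

lemma psi_cx (h : E d → ℂ) (x : E d) : psi h (cx x) = 𝓕 h x := by
  rw [Real.fourier_eq']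
  unfold psi
  congr 1
  ext ξ
  rw [ex_cx, smul_eq_mul, mul_comm]
  congr 2
  rw [inner_neg_left]
  push_cast
  ring

lemma psi_cx_sub (h : E d → ℂ) (x : E d) (t : Fin d → ℂ) :
    psi h (cx x - t) = 𝓕 (fun ξ => h ξ * ex ξ t) x := by
  rw [← psi_cx]
  unfold psi
  congr 1
  ext ξ
  rw [ex_sub_right, ex_neg_left (p := ξ) (z := t), inv_inv]
  ring

lemma TF.decay {h : E d → ℂ} {η : E d} {r : ℝ} (H : TF h η r) (M : ℕ) :
    ∃ C : ℝ, 0 < C ∧ ∀ x : E d, ‖psi h (cx x)‖ ≤ C * ((1 + ‖x‖) ^ M)⁻¹ := by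
  have h0 := SchwartzMap.one_add_le_sup_seminorm_apply (𝕜 := ℂ) (m := (M, 0)) (k := M) (n := 0)
    le_rfl le_rfl (𝓕 H.toS)
  set C := 2 ^ (M, 0).1 * ((Finset.Iic (M, 0)).sup fun m => SchwartzMap.seminorm ℂ m.1 m.2) (𝓕 H.toS)
    with hC
  refine ⟨max C 1, by positivity, fun x => ?_⟩
  have h1 := h0 x
  rw [norm_iteratedFDeriv_zero] at h1
  have h2 : (𝓕 H.toS) x = psi h (cx x) := by
    rw [psi_cx, SchwartzMap.fourier_coe]; rfl
  rw [h2] at h1
  rw [← div_eq_mul_inv, le_div_iff₀ (by positivity), mul_comm]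
  exact h1.trans (le_max_left _ _)

end FQ
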