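import Pool.Agent.Helper17.FQMean

/-!
# Fourier quasicrystal data: translation boundedness, finite generation of the spectrum
-/

open scoped BigOperators SchwartzMap FourierTransform RealInnerProductSpace ContDiff
open MeasureTheory Complex Filter Topology

noncomputable section

namespace FQ

variable {d : ℕ}

/-- Fourier quasicrystal data, tested against compactly supported functions. -/
structure FQS (d : ℕ) where
  /-- the point set -/
  L : Set (E d)
  /-- the coefficients -/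
  c : E d → ℂ
  fin : ∀ R : ℝ, {ξ | c ξ ≠ 0 ∧ ‖ξ‖ ≤ R}.Finite
  summ : ∀ (h : E d → ℂ) (η : E d) (r : ℝ), TF h η r → ∀ t : Fin d → ℂ,
    Summable (fun x : L => psi h (cx x - t))
  fq : ∀ (h : E d → ℂ) (η : E d) (r : ℝ), TF h η r → ∀ t : Fin d → ℂ,
    ∑' x : L, psi h (cx x - t) = ∑' ξ, c ξ * h ξ * ex ξ t

namespace FQS

variable (F : FQS d)

lemma supp_finite {h : E d → ℂ} {η : E d} {r : ℝ} (H : TF h η r) :
    {ξ | F.c ξ * h ξ ≠ 0}.Finite := by
  refine (F.fin (r + ‖η‖)).subset fun ξ hξ => ⟨left_ne_zero_of_mul hξ, ?_⟩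
  have h1 : h ξ ≠ 0 := right_ne_zero_of_mul hξ
  by_contra hcon
  push Not at hcon
  apply h1
  apply H.supp
  have : ‖ξ‖ ≤ ‖ξ - η‖ + ‖η‖ := by
    calc ‖ξ‖ = ‖(ξ - η) + η‖ := by congr 1; abel
      _ ≤ _ := norm_add_le _ _
  linarith

/-- the support as a finset -/
def sp (h : E d → ℂ) {η : E d} {r : ℝ} (H : TF h η r) : Finset (E d) :=
  (F.supp_finite H).toFinset

lemma mem_sp {h : E d → ℂ} {η : E d} {r : ℝ} (H : TF h η r) (ξ : E d) :
    ξ ∈ F.sp h H ↔ F.c ξ * h ξ ≠ 0 := by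
  simp [sp]

lemma tsum_eq {h : E d → ℂ} {η : E d} {r : ℝ} (H : TF h η r) (g : E d → ℂ) :
    ∑' ξ, F.c ξ * h ξ * g ξ = ∑ ξ ∈ F.sp h H, F.c ξ * h ξ * g ξ := by
  apply tsum_eq_sum
  intro ξ hξ
  rw [F.mem_sp] at hξ
  push Not at hξ
  rw [hξ, zero_mul]

/-- translation boundedness -/
lemma card_ball (ρ : ℝ) : ∃ K : ℕ, ∀ t : E d, {x ∈ F.L | ‖x - t‖ ≤ ρ}.Finite ∧
    {x ∈ F.L | ‖x - t‖ ≤ ρ}.ncard ≤ K := by
  classical
  obtain ⟨h, hh, -, -, hnn, hlb⟩ := exists_pos_test d (r := 1 / (4 * (|ρ| + 1))) (by positivity)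
  set A : ℝ := ∑ ξ ∈ F.sp h hh, ‖F.c ξ * h ξ‖ with hA
  have hA0 : 0 ≤ A := Finset.sum_nonneg fun _ _ => norm_nonneg _
  have key : ∀ (t : E d) (s : Finset (E d)), (∀ x ∈ s, x ∈ F.L ∧ ‖x - t‖ ≤ ρ) →
      (s.card : ℝ) ≤ 4 * A := by
    intro t s hs
    have h1 := F.summ h 0 _ hh (cx t)
    have h2 := F.fq h 0 _ hh (cx t)
    rw [F.tsum_eq hh] at h2
    -- real parts
    have h3 : Summable (fun x : F.L => (psi h (cx x - cx t)).re) :=
      (Complex.hasSum_re h1.hasSum).summable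
    have h4 : ∑' x : F.L, (psi h (cx x - cx t)).re ≤ A := by
      rw [← Complex.re_tsum h1, h2]
      refine (Complex.re_le_norm _).trans ((norm_sum_le _ _).trans ?_)
      refine Finset.sum_le_sum fun ξ _ => ?_
      rw [norm_mul, norm_ex_cx, mul_one]
    set s' : Finset F.L := s.subtype (· ∈ F.L) with hs'
    have hcard : s'.card = s.card := by
      rw [hs', Finset.card_subtype, Finset.filter_true_of_mem]
      exact fun x hx => (hs x hx).1
    have h5 : ∑ x ∈ s', (psi h (cx x - cx t)).re ≤ A := by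
      refine (h3.sum_le_tsum s' fun x _ => ?_).trans h4
      obtain ⟨a, ha, -, ha2⟩ := hnn (x - t)
      rw [← cx_sub, ha2]
      simpa using ha
    have h6 : ∑ x ∈ s', (1 / 4 : ℝ) ≤ ∑ x ∈ s', (psi h (cx x - cx t)).re := by
      refine Finset.sum_le_sum fun x hx => ?_
      have hx2 := (hs x (by simpa [hs'] using hx)).2
      obtain ⟨a, ha, ha2⟩ := hlb (x - t) (by
        have : ‖(x : E d) - t‖ ≤ |ρ| + 1 := hx2.trans ((le_abs_self ρ).trans (by linarith))
        calc ‖(x : E d) - t‖ * (1 / (4 * (|ρ| + 1))) ≤ (|ρ| + 1) * (1 / (4 * (|ρ| + 1))) := by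
              gcongr
          _ = 1 / 4 := by field_simp)
      rw [← cx_sub, ha]
      simpa using ha2
    rw [Finset.sum_const, hcard, nsmul_eq_mul] at h6
    linarith
  refine ⟨⌊4 * A⌋₊, fun t => ?_⟩
  have hfin : {x ∈ F.L | ‖x - t‖ ≤ ρ}.Finite := by
    by_contra hinf
    obtain ⟨s, hs, hs2⟩ := Set.Infinite.exists_subset_card_eq hinf (⌊4 * A⌋₊ + 1)
    have := key t s fun x hx => hs hx
    rw [hs2] at this
    push_cast at this
    have h7 := Nat.lt_floor_add_one (4 * A)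
    linarith
  refine ⟨hfin, ?_⟩
  rw [Set.ncard_eq_toFinset_card _ hfin]
  apply Nat.le_floor
  exact key t _ fun x hx => by simpa using hx

end FQS

/-! ### labelling -/

/-- integer vector as a real vector -/
def zv (m : Fin d → ℤ) : E d := WithLp.toLp 2 (fun j => (m j : ℝ))

@[simp] lemma zv_apply (m : Fin d → ℤ) (j : Fin d) : zv m j = (m j : ℝ) := rfl

/-- index type for classes -/
abbrev KK (d K : ℕ) := (Fin d → Fin 3) × Fin K

/-- offsets -/
def off {K : ℕ} (j : KK d K) : E d := WithLp.toLp 2 (fun i => ((j.1 i : ℕ) : ℝ))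

@[simp] lemma off_apply {K : ℕ} (j : KK d K) (i : Fin d) : off j i = ((j.1 i : ℕ) : ℝ) := rfl

/-- A set with at most `K` points in each unit cell can be enumerated in classes. -/
lemma labelling (K : ℕ) (S : Set (E d))
    (hS : ∀ m : Fin d → ℤ, {x ∈ S | ∀ i, ⌊x i⌋ = m i}.Finite ∧
      {x ∈ S | ∀ i, ⌊x i⌋ = m i}.ncard ≤ K) :
    ∃ (y : KK d K → (Fin d → ℤ) → E d) (b : KK d K × (Fin d → ℤ) → ℂ)
      (lab : S → KK d K × (Fin d → ℤ)), Function.Injective lab ∧
      (∀ j, IsCl (y j) (off j) 1) ∧ (∀ x : S, y (lab x).1 (lab x).2 = x) ∧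
      (∀ x : S, b (lab x) = 1) ∧ (∀ p, p ∉ Set.range lab → b p = 0) := by
  classical
  -- enumeration of cells
  have hen : ∀ m : Fin d → ℤ, ∃ e : {x // x ∈ S ∧ ∀ i, ⌊x i⌋ = m i} → Fin K,
      Function.Injective e := by
    intro m
    have hfin := (hS m).1
    have : Fintype {x // x ∈ S ∧ ∀ i, ⌊x i⌋ = m i} := hfin.fintype
    have hcard : Fintype.card {x // x ∈ S ∧ ∀ i, ⌊x i⌋ = m i} ≤ Fintype.card (Fin K) := by
      rw [Fintype.card_fin]
      refine le_trans (le_of_eq ?_) (hS m).2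
      rw [← Nat.card_eq_fintype_card]
      rfl
    obtain ⟨e⟩ := Function.Embedding.nonempty_of_card_le hcard
    exact ⟨e, e.injective⟩
  choose e he using hen
  set fl : E d → (Fin d → ℤ) := fun x i => ⌊x i⌋ with hfl
  set lab : S → KK d K × (Fin d → ℤ) := fun x =>
    ((fun i => ⟨(fl x i % 3).toNat, by
        have h1 := Int.emod_nonneg (fl x i) (by norm_num : (3:ℤ) ≠ 0)
        have h2 := Int.emod_lt_of_pos (fl x i) (by norm_num : (0:ℤ) < 3)
        omega⟩, e (fl x) ⟨x, x.2, fun i => rfl⟩), fun i => fl x i / 3) with hlab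
  have hrec : ∀ (x : S) (i : Fin d), fl x i = 3 * (lab x).2 i + (((lab x).1.1 i : ℕ) : ℤ) := by
    intro x i
    simp only [hlab]
    have h1 := Int.emod_nonneg (fl x i) (by norm_num : (3:ℤ) ≠ 0)
    have h2 := Int.mul_ediv_add_emod (fl x i) 3
    rw [Int.toNat_of_nonneg h1]
    omega
  have hinj : Function.Injective lab := by
    intro x x' hxx
    have h1 : fl x = fl x' := by
      ext i
      rw [hrec, hrec, hxx]
    have h2 : (lab x).1.2 = (lab x').1.2 := by rw [hxx]
    simp only [hlab] at h2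
    have h3 : ∀ (m m' : Fin d → ℤ) (hm : m = m') (a : {x // x ∈ S ∧ ∀ i, ⌊x i⌋ = m i})
        (a' : {x // x ∈ S ∧ ∀ i, ⌊x i⌋ = m' i}), e m a = e m' a' → (a : E d) = a' := by
      intro m m' hm a a' h
      subst hm
      rw [he m h]
    exact Subtype.ext (h3 _ _ h1 _ _ h2)
  refine ⟨fun j m => if h : ∃ x : S, lab x = (j, m) then h.choose else
      WithLp.toLp 2 (fun i => 3 * (m i : ℝ) + off j i),
    fun p => if p ∈ Set.range lab then 1 else 0, lab, hinj, ?_, ?_, ?_, ?_⟩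
  · intro j m i
    by_cases h : ∃ x : S, lab x = (j, m)
    · simp only [h, dif_pos]
      have h1 := h.choose_spec
      set x := h.choose with hx
      have h2 := hrec x i
      rw [h1] at h2
      simp only at h2
      have h3 : (fl x i : ℝ) = 3 * (m i : ℝ) + ((j.1 i : ℕ) : ℝ) := by
        rw [h2]; push_cast; ring
      have h4 := Int.floor_le ((x : E d) i)
      have h5 := Int.lt_floor_add_one ((x : E d) i)
      have h6 : (fl x i : ℝ) = ⌊(x : E d) i⌋ := rfl
      rw [off_apply, ← h3, h6, abs_le]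
      constructor <;> linarith
    · simp only [h, dif_neg, not_false_eq_true]
      simp
  · intro x
    have h : ∃ x' : S, lab x' = ((lab x).1, (lab x).2) := ⟨x, rfl⟩
    simp only [h, dif_pos]
    have := h.choose_spec
    exact congrArg Subtype.val (hinj this)
  · intro x
    simp
  · intro p hp
    simp only [hp, if_false]

/-- Transfer of sums along a labelling. -/
lemma label_tsum {K : ℕ} {S : Set (E d)} {y : KK d K → (Fin d → ℤ) → E d}
    {b : KK d K × (Fin d → ℤ) → ℂ} {lab : S → KK d K × (Fin d → ℤ)}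
    (hinj : Function.Injective lab) (hy : ∀ x : S, y (lab x).1 (lab x).2 = x)
    (hb : ∀ x : S, b (lab x) = 1) (hb0 : ∀ p, p ∉ Set.range lab → b p = 0) (φ : E d → ℂ) :
    ∑' p : KK d K × (Fin d → ℤ), b p * φ (y p.1 p.2) = ∑' x : S, φ x := by
  have h1 : (fun x : S => φ x) = (fun p : KK d K × (Fin d → ℤ) => b p * φ (y p.1 p.2)) ∘ lab := by
    ext x
    simp only [Function.comp_apply]
    rw [hy x, hb x, one_mul]
  rw [h1]
  refine (hinj.tsum_eq (f := fun p : KK d K × (Fin d → ℤ) => b p * φ (y p.1 p.2)) ?_).symm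
  intro p hp
  by_contra hcon
  apply hp
  simp only
  rw [hb0 p hcon, zero_mul]

end FQ
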