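import Pool.Agent.Helper17.FQFlow

/-!
# Positive density of the points where a real field is large
-/

open scoped BigOperators SchwartzMap FourierTransform RealInnerProductSpace ContDiff
open MeasureTheory Complex Filter Topology

noncomputable section

namespace FQ

variable {d n : ℕ}

namespace FQG

variable (G : FQG d n)

/-- large scale averages over the point set -/
lemma mass (f : A n) {h : E d → ℂ} (H : TF h 0 1) : ∃ T₁ : ℝ, 1 ≤ T₁ ∧ ∀ T : ℝ, T₁ ≤ T →
    (Summable fun x : G.F.L => G.ev (cx x) f * psi h (cx (T⁻¹ • (x : E d)))) ∧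
    ∑' x : G.F.L, G.ev (cx x) f * psi h (cx (T⁻¹ • (x : E d))) =
      G.Cc f 0 * (((T ^ d : ℝ) : ℂ) * h 0) := by
  classical
  -- a gap around zero
  have hfin := G.Cc_fin f 1
  obtain ⟨ε, hε, hgap⟩ : ∃ ε : ℝ, 0 < ε ∧ ∀ r : Gm n, G.Cc f r ≠ 0 → ‖G.L r‖ < ε → r = 0 := by
    set S : Finset (Gm n) := hfin.toFinset.filter (fun r => r ≠ 0) with hS
    have hpos : ∀ r ∈ S, 0 < ‖G.L r‖ := by
      intro r hr
      rw [norm_pos_iff]
      intro h0
      have h1 : r = 0 := G.inj (by rw [h0, map_zero])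
      exact (Finset.mem_filter.mp hr).2 h1
    rcases S.eq_empty_or_nonempty with he | hne
    · refine ⟨1, one_pos, fun r hr hr1 => ?_⟩
      by_contra hr0
      have : r ∈ S := by
        rw [hS, Finset.mem_filter, Set.Finite.mem_toFinset]
        exact ⟨⟨hr, hr1.le⟩, hr0⟩
      rw [he] at this
      simp at this
    · obtain ⟨r₀, hr₀, hmin⟩ := S.exists_min_image (fun r => ‖G.L r‖) hne
      refine ⟨min 1 ‖G.L r₀‖, lt_min one_pos (hpos r₀ hr₀), fun r hr hr1 => ?_⟩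
      by_contra hr0
      have h1 : r ∈ S := by
        rw [hS, Finset.mem_filter, Set.Finite.mem_toFinset]
        exact ⟨⟨hr, (hr1.trans_le (min_le_left _ _)).le⟩, hr0⟩
      have h2 := hmin r h1
      have h3 := hr1.trans_le (min_le_right _ _)
      linarith
  refine ⟨max 1 (1 / ε), le_max_left _ _, fun T hT => ?_⟩
  have hT1 : 1 ≤ T := (le_max_left _ _).trans hT
  have hT2 : 1 / ε ≤ T := (le_max_right _ _).trans hT
  have hT0 : 0 < T := by linarith
  have hs : 0 < T⁻¹ := by positivity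
  have HT := H.scale hs
  set hh : E d → ℂ := fun ξ => ((((T⁻¹) ^ d : ℝ)) : ℂ)⁻¹ * h ((T⁻¹)⁻¹ • ξ) with hhh
  have hpsi : ∀ x : E d, psi hh (cx x - 0) = psi h (cx (T⁻¹ • x)) := by
    intro x
    rw [sub_zero, hhh, psi_scale h hs, cx_smul]
  have h1 := G.fq_elf f HT 0
  simp only [hpsi] at h1
  constructor
  · have h2 := G.F.summ _ _ _ HT 0
    simp only [hpsi] at h2
    refine Summable.of_norm_bounded (h2.norm.mul_left (∑ q ∈ f.coeff.support, ‖f.coeff q‖))
      fun x => ?_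
    rw [norm_mul]
    exact mul_le_mul_of_nonneg_right (G.norm_ev_le f _) (norm_nonneg _)
  · rw [h1, G.ev_eq]
    have h3 : ∀ p, (G.elf f hh).coeff p =
        G.Cc f p * (((((T⁻¹) ^ d : ℝ)) : ℂ)⁻¹ * h ((T⁻¹)⁻¹ • G.L p)) := fun p => G.coeff_elf f HT p
    rw [Finset.sum_eq_single 0]
    · rw [h3, map_zero, smul_zero, ex_zero_left, mul_one, inv_pow]
      push_cast
      rw [inv_inv]
    · intro p hp hp0
      rw [Finsupp.mem_support_iff, h3] at hp
      exfalso
      apply hp0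
      apply hgap p (left_ne_zero_of_mul hp)
      have h4 : h ((T⁻¹)⁻¹ • G.L p) ≠ 0 := right_ne_zero_of_mul (right_ne_zero_of_mul hp)
      have h5 : ‖(T⁻¹)⁻¹ • G.L p‖ < 1 := by
        by_contra hcon
        push Not at hcon
        exact h4 (H.supp _ (by rwa [sub_zero]))
      rw [norm_smul, inv_inv, Real.norm_eq_abs, abs_of_pos hT0] at h5
      rw [div_le_iff₀ hε] at hT2
      by_contra hcon
      push Not at hcon
      nlinarith
    · intro h0
      have : (G.elf f hh).coeff 0 = 0 := by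
        simpa using h0
      rw [this, zero_mul]

lemma ev_sq {β : Fin d → A n} (hβ : ∀ j, G.IsR (β j)) (x : E d) :
    G.ev (cx x) (∑ j, β j * β j) = ((‖G.vf β x‖ ^ 2 : ℝ) : ℂ) := by
  rw [map_sum, EuclideanSpace.norm_sq_eq]
  push_cast
  refine Finset.sum_congr rfl fun j _ => ?_
  rw [map_mul, ← G.ofReal_vf hβ, Real.norm_eq_abs]
  norm_cast
  rw [sq_abs, sq]

/-- **positive density** of the points where the field is large -/
theorem density {β : Fin d → A n} (hβ : ∀ j, G.IsR (β j)) (hne : ∃ j, β j ∉ G.I) :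
    ∃ δ : ℝ, 0 < δ ∧ ∃ c : ℝ, 0 < c ∧ ∃ T₀ : ℝ, 1 ≤ T₀ ∧ ∀ T : ℝ, T₀ ≤ T →
      ∃ S : Finset (E d), (∀ x ∈ S, x ∈ G.F.L ∧ δ ≤ ‖G.vf β x‖) ∧
        c * T ^ d ≤ ∑ x ∈ S, ((1 + ‖x‖ / T) ^ (2 * d + 1))⁻¹ := by
  classical
  obtain ⟨h, H, hpsi0, ⟨a₀, ha₀, hh0⟩, hpos, -⟩ := exists_pos_test d one_pos
  choose r hr0 hr1 hr using hpos
  obtain ⟨C, hC, hdec⟩ := H.decay (2 * d + 1)
  obtain ⟨M, hM0, hM⟩ := G.vf_bdd β
  set g : A n := ∑ j, β j * β j with hg
  -- positivity of the mean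
  have hgpos : 0 < (G.Cc g 0).re := by
    have h1 : 0 < ((G.elf g h).coeff 0).re := by
      have hev : ∀ t : E d, G.ev (cx t) (G.elf g h) =
          ((∑' x : G.F.L, ‖G.vf β x‖ ^ 2 * r ((x : E d) - t) : ℝ) : ℂ) := by
        intro t
        rw [← G.fq_elf g H, Complex.ofReal_tsum]
        refine tsum_congr fun x => ?_
        rw [G.ev_sq hβ, ← cx_sub, hr]
        push_cast
        rfl
      have hsum : ∀ t : E d, Summable fun x : G.F.L => ‖G.vf β x‖ ^ 2 * r ((x : E d) - t) := by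
        intro t
        have h2 := G.F.summ _ _ _ H (cx t)
        refine Summable.of_norm_bounded (h2.norm.mul_left (M ^ 2)) fun x => ?_
        rw [← cx_sub, hr, Real.norm_eq_abs, abs_mul, Complex.norm_real, Real.norm_eq_abs,
          abs_of_nonneg (by positivity : 0 ≤ ‖G.vf β x‖ ^ 2)]
        exact mul_le_mul_of_nonneg_right (pow_le_pow_left₀ (norm_nonneg _) (hM _) 2) (abs_nonneg _)
      apply G.coeff_zero_pos
      · intro t
        exact ⟨_, tsum_nonneg fun x => mul_nonneg (by positivity) (hr0 _), hev t⟩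
      · -- a point where the field is non-zero
        obtain ⟨j, hj⟩ := hne
        rw [G.mem_I] at hj
        push Not at hj
        obtain ⟨x₀, hx₀, hxj⟩ := hj
        refine ⟨x₀, ?_⟩
        rw [hev]
        have hb : 0 < ‖G.vf β x₀‖ ^ 2 := by
          have : G.vf β x₀ ≠ 0 := by
            intro h0
            apply hxj
            rw [← G.ofReal_vf hβ, h0]
            simp
          positivity
        have h3 : ‖G.vf β x₀‖ ^ 2 ≤ ∑' x : G.F.L, ‖G.vf β x‖ ^ 2 * r ((x : E d) - x₀) := by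
          have h4 := (hsum x₀).le_tsum (⟨x₀, hx₀⟩ : G.F.L)
            (fun x _ => mul_nonneg (by positivity) (hr0 _))
          refine le_trans (le_of_eq ?_) h4
          have h5 : r (x₀ - x₀) = 1 := by
            have := hr (x₀ - x₀)
            rw [sub_self, cx_zero, hpsi0] at this
            rw [sub_self]
            exact_mod_cast this.symm
          simp only [h5, mul_one]
        have h6 : (0:ℝ) < ∑' x : G.F.L, ‖G.vf β x‖ ^ 2 * r ((x : E d) - x₀) := hb.trans_le h3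
        exact_mod_cast h6.ne'
    rw [G.coeff_elf g H, map_zero, hh0, Complex.re_mul_ofReal] at h1
    exact (pos_iff_pos_of_mul_pos h1).mpr ha₀
  obtain ⟨T₁, hT₁, hmg⟩ := G.mass g H
  obtain ⟨T₂, hT₂, hm1⟩ := G.mass 1 H
  set Dg : ℝ := (G.Cc g 0).re with hDg
  set D1 : ℝ := |(G.Cc 1 0).re| with hD1
  set δ : ℝ := Real.sqrt (Dg / (2 * (D1 + 1))) with hδ
  have hδ0 : 0 < δ := Real.sqrt_pos.mpr (by positivity)
  have hδ2 : δ ^ 2 = Dg / (2 * (D1 + 1)) := Real.sq_sqrt (by positivity)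
  refine ⟨δ, hδ0, Dg * a₀ / (4 * M ^ 2 * C), by positivity, max T₁ T₂, le_max_of_le_left hT₁,
    fun T hT => ?_⟩
  have hTg := (le_max_left _ _).trans hT
  have hT1' := (le_max_right _ _).trans hT
  have hT0 : 0 < T := by linarith
  obtain ⟨hs1, he1⟩ := hmg T hTg
  obtain ⟨hs2, he2⟩ := hm1 T hT1'
  -- real versions
  have e1 : ∀ x : G.F.L, G.ev (cx x) g * psi h (cx (T⁻¹ • (x : E d))) =
      ((‖G.vf β x‖ ^ 2 * r (T⁻¹ • (x : E d)) : ℝ) : ℂ) := by
    intro x; rw [G.ev_sq hβ, hr]; push_cast; rfl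
  have e2 : ∀ x : G.F.L, G.ev (cx x) 1 * psi h (cx (T⁻¹ • (x : E d))) =
      ((r (T⁻¹ • (x : E d)) : ℝ) : ℂ) := by
    intro x; rw [map_one, one_mul, hr]
  simp only [e1] at hs1 he1
  simp only [e2] at hs2 he2
  have hs1' : Summable fun x : G.F.L => ‖G.vf β x‖ ^ 2 * r (T⁻¹ • (x : E d)) :=
    Complex.summable_ofReal.mp hs1
  have hs2' : Summable fun x : G.F.L => r (T⁻¹ • (x : E d)) := Complex.summable_ofReal.mp hs2
  have hTd : 0 < T ^ d := by positivity
  have he1' : ∑' x : G.F.L, ‖G.vf β x‖ ^ 2 * r (T⁻¹ • (x : E d)) = Dg * (T ^ d * a₀) := by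
    rw [← Complex.ofReal_tsum, hh0] at he1
    have := congrArg Complex.re he1
    rw [Complex.ofReal_re] at this
    rw [this, ← Complex.ofReal_mul, Complex.re_mul_ofReal]
  have he2' : ∑' x : G.F.L, r (T⁻¹ • (x : E d)) ≤ D1 * (T ^ d * a₀) := by
    rw [← Complex.ofReal_tsum, hh0] at he2
    have := congrArg Complex.re he2
    rw [Complex.ofReal_re] at this
    rw [this, ← Complex.ofReal_mul, Complex.re_mul_ofReal]
    exact mul_le_mul_of_nonneg_right (le_abs_self _) (by positivity)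
  -- the part where the field is large
  set ι : G.F.L → ℝ := fun x => if δ ≤ ‖G.vf β x‖ then r (T⁻¹ • (x : E d)) else 0 with hι
  have hι0 : ∀ x, 0 ≤ ι x := by
    intro x; simp only [hι]; split_ifs
    · exact hr0 _
    · exact le_rfl
  have hsι : Summable ι := Summable.of_nonneg_of_le hι0 (fun x => by
    simp only [hι]; split_ifs
    · exact le_rfl
    · exact hr0 _) hs2'
  have hpt : ∀ x : G.F.L, ‖G.vf β x‖ ^ 2 * r (T⁻¹ • (x : E d)) ≤
      δ ^ 2 * r (T⁻¹ • (x : E d)) + M ^ 2 * ι x := by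
    intro x
    have hrx := hr0 (T⁻¹ • (x : E d))
    simp only [hι]
    split_ifs with hc
    · have h1 : ‖G.vf β x‖ ^ 2 ≤ M ^ 2 := pow_le_pow_left₀ (norm_nonneg _) (hM _) 2
      nlinarith [sq_nonneg δ]
    · push Not at hc
      have h1 : ‖G.vf β x‖ ^ 2 ≤ δ ^ 2 := pow_le_pow_left₀ (norm_nonneg _) hc.le 2
      nlinarith
  have hbig : Dg * (T ^ d * a₀) ≤ δ ^ 2 * (D1 * (T ^ d * a₀)) + M ^ 2 * ∑' x, ι x := by
    rw [← he1']
    calc ∑' x : G.F.L, ‖G.vf β x‖ ^ 2 * r (T⁻¹ • (x : E d))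
        ≤ ∑' x : G.F.L, (δ ^ 2 * r (T⁻¹ • (x : E d)) + M ^ 2 * ι x) :=
          hs1'.tsum_le_tsum hpt ((hs2'.mul_left _).add (hsι.mul_left _))
      _ = δ ^ 2 * ∑' x : G.F.L, r (T⁻¹ • (x : E d)) + M ^ 2 * ∑' x, ι x := by
          rw [(hs2'.mul_left _).tsum_add (hsι.mul_left _), tsum_mul_left, tsum_mul_left]
      _ ≤ _ := by
          have := mul_le_mul_of_nonneg_left he2' (sq_nonneg δ)
          linarith
  have hιbig : Dg * a₀ / (2 * M ^ 2) * T ^ d ≤ ∑' x, ι x := by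
    have h1 : δ ^ 2 * (D1 * (T ^ d * a₀)) ≤ Dg / 2 * (T ^ d * a₀) := by
      rw [hδ2]
      have h2 : Dg / (2 * (D1 + 1)) * D1 ≤ Dg / 2 := by
        have hD10 : 0 ≤ D1 := abs_nonneg _
        rw [div_mul_eq_mul_div, div_le_div_iff₀ (by positivity) (by norm_num)]
        nlinarith
      calc Dg / (2 * (D1 + 1)) * (D1 * (T ^ d * a₀)) = (Dg / (2 * (D1 + 1)) * D1) * (T ^ d * a₀) := by
            ring
        _ ≤ _ := mul_le_mul_of_nonneg_right h2 (by positivity)
    have h3 : Dg / 2 * (T ^ d * a₀) ≤ M ^ 2 * ∑' x, ι x := by linarith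
    have h4 : Dg * a₀ / (2 * M ^ 2) * T ^ d = (Dg / 2 * (T ^ d * a₀)) / M ^ 2 := by
      field_simp
    rw [h4, div_le_iff₀ (by positivity)]
    linarith
  -- a finite part
  have hlt : Dg * a₀ / (4 * M ^ 2) * T ^ d < ∑' x, ι x := by
    refine lt_of_lt_of_le ?_ hιbig
    apply mul_lt_mul_of_pos_right _ hTd
    apply div_lt_div_of_pos_left (by positivity) (by positivity)
    have : 0 < M ^ 2 := by positivity
    linarith
  obtain ⟨s, hs⟩ := (hsι.hasSum.eventually_const_lt hlt).exists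
  refine ⟨(s.filter fun x : G.F.L => δ ≤ ‖G.vf β x‖).map (Function.Embedding.subtype _), ?_, ?_⟩
  · intro x hx
    rw [Finset.mem_map] at hx
    obtain ⟨x', hx', rfl⟩ := hx
    exact ⟨x'.2, (Finset.mem_filter.mp hx').2⟩
  · rw [Finset.sum_map]
    have h1 : ∑ x ∈ s, ι x = ∑ x ∈ s.filter (fun x : G.F.L => δ ≤ ‖G.vf β x‖),
        r (T⁻¹ • (x : E d)) := by
      rw [Finset.sum_filter]
    rw [h1] at hs
    have h2 : ∑ x ∈ s.filter (fun x : G.F.L => δ ≤ ‖G.vf β x‖), r (T⁻¹ • (x : E d)) ≤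
        C * ∑ x ∈ s.filter (fun x : G.F.L => δ ≤ ‖G.vf β x‖),
          ((1 + ‖(Function.Embedding.subtype (fun y => y ∈ G.F.L)) x‖ / T) ^ (2 * d + 1))⁻¹ := by
      rw [Finset.mul_sum]
      refine Finset.sum_le_sum fun x _ => ?_
      have h3 := hdec (T⁻¹ • (x : E d))
      rw [hr, Complex.norm_real, Real.norm_eq_abs, abs_of_nonneg (hr0 _), norm_smul,
        Real.norm_eq_abs, abs_of_pos (by positivity : 0 < T⁻¹), inv_mul_eq_div] at h3
      exact h3
    have h4 : Dg * a₀ / (4 * M ^ 2 * C) * T ^ d = (Dg * a₀ / (4 * M ^ 2) * T ^ d) / C := by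
      field_simp
    rw [h4, div_le_iff₀ hC]
    rw [mul_comm C] at h2
    exact hs.le.trans h2

end FQG

end FQ
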