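import Pool.Agent.Helper17.FQSetup

/-!
# Dimension bound for the space of trigonometric polynomials modulo the null ideal
-/

open scoped BigOperators SchwartzMap FourierTransform RealInnerProductSpace ContDiff
open MeasureTheory Complex Filter Topology

noncomputable section

namespace FQ

variable {d n : ℕ}

lemma fin_ball (n : ℕ) (N : ℝ) : {q : Gm n | ‖q‖ ≤ N}.Finite := by
  refine (Set.finite_Icc (fun _ => -⌊N⌋ : Gm n) (fun _ => ⌊N⌋)).subset ?_
  intro q hq
  have h1 : ∀ i, |q i| ≤ ⌊N⌋ := by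
    intro i
    have h2 : ‖q i‖ ≤ N := (norm_le_pi_norm q i).trans hq
    rw [Int.norm_eq_abs] at h2
    rw [Int.le_floor]
    exact_mod_cast h2
  exact ⟨fun i => (abs_le.mp (h1 i)).1, fun i => (abs_le.mp (h1 i)).2⟩

/-- the polynomial with given coefficients on a finite set -/
def toA (W : Finset (Gm n)) : EuclideanSpace ℂ W →ₗ[ℂ] A n where
  toFun b := ∑ q : W, .single (q : Gm n) (b q)
  map_add' b c := by
    rw [← Finset.sum_add_distrib]
    refine Finset.sum_congr rfl fun q _ => ?_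
    rw [PiLp.add_apply, AddMonoidAlgebra.single_add]
  map_smul' a b := by
    rw [RingHom.id_apply, Finset.smul_sum]
    refine Finset.sum_congr rfl fun q _ => ?_
    rw [PiLp.smul_apply, AddMonoidAlgebra.smul_single]

lemma coeff_toA (W : Finset (Gm n)) (b : EuclideanSpace ℂ W) (q : W) :
    (toA W b).coeff q = b q := by
  classical
  change (∑ q : W, AddMonoidAlgebra.single (q : Gm n) (b q)).coeff q = b q
  rw [AddMonoidAlgebra.coeff_sum, Finsupp.finsetSum_apply, Finset.sum_eq_single q]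
  · rw [AddMonoidAlgebra.coeff_single, Finsupp.single_eq_same]
  · intro p _ hp
    rw [AddMonoidAlgebra.coeff_single, Finsupp.single_apply, if_neg]
    exact fun h => hp (Subtype.ext h)
  · intro h; exact absurd (Finset.mem_univ _) h

lemma coeff_toA' (W : Finset (Gm n)) (b : EuclideanSpace ℂ W) {p : Gm n} (hp : p ∉ W) :
    (toA W b).coeff p = 0 := by
  classical
  change (∑ q : W, AddMonoidAlgebra.single (q : Gm n) (b q)).coeff p = 0
  rw [AddMonoidAlgebra.coeff_sum, Finsupp.finsetSum_apply]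
  refine Finset.sum_eq_zero fun q _ => ?_
  rw [AddMonoidAlgebra.coeff_single, Finsupp.single_apply, if_neg]
  rintro rfl
  exact hp q.2

/-- sums over the support -/
lemma sum_toA (W : Finset (Gm n)) (b : EuclideanSpace ℂ W) {M : Type*} [AddCommMonoid M]
    (φ : Gm n → ℂ → M) (hφ : ∀ q, φ q 0 = 0) :
    ∑ q ∈ (toA W b).coeff.support, φ q ((toA W b).coeff q) = ∑ q : W, φ q (b q) := by
  classical
  have h1 : (toA W b).coeff.support ⊆ W := by
    intro p hp
    by_contra h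
    rw [Finsupp.mem_support_iff] at hp
    exact hp (coeff_toA' W b h)
  rw [Finset.sum_subset h1, ← Finset.sum_coe_sort]
  · exact Finset.sum_congr rfl fun q _ => by rw [coeff_toA]
  · intro p _ hp
    rw [Finsupp.notMem_support_iff.mp hp, hφ]

namespace FQG

variable (G : FQG d n)

lemma ev_toA (W : Finset (Gm n)) (b : EuclideanSpace ℂ W) (z : Fin d → ℂ) :
    G.ev z (toA W b) = ∑ q : W, b q * ex (G.L q) z := by
  rw [G.ev_eq]
  exact sum_toA W b (fun q a => a * ex (G.L q) z) (fun q => zero_mul _)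

lemma Cc_toA (W : Finset (Gm n)) (b : EuclideanSpace ℂ W) (r : Gm n) :
    G.Cc (toA W b) r = ∑ q : W, b q * G.cc (r - q) :=
  sum_toA W b (fun q a => a * G.cc (r - q)) (fun q => zero_mul _)

/-- **dimension bound** -/
theorem dim_bound : ∃ R : ℝ, ∀ L₀ : ℝ, ∃ Cf : ℕ, ∀ N : ℕ,
    {q : Gm n | ‖G.L q‖ ≤ L₀ ∧ ‖q‖ ≤ N}.Finite ∧
    ∃ (k : ℕ) (u : Fin k → A n),
      (k : ℝ) ≤ ({r : Gm n | ‖G.L r‖ < R ∧ ‖r‖ ≤ (N + Cf : ℕ)}.ncard : ℝ) ∧
      (∀ j, SuppIn (u j) {q : Gm n | ‖G.L q‖ ≤ L₀ ∧ ‖q‖ ≤ N}) ∧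
      (∀ j, ∑ q ∈ (u j).coeff.support, ‖(u j).coeff q‖ ^ 2 ≤ 1) ∧
      ∀ y : E d, (∀ f ∈ G.I, G.ev (cx y) f = 0) →
        ({q : Gm n | ‖G.L q‖ ≤ L₀ ∧ ‖q‖ ≤ N}.ncard : ℝ) ≤ ∑ j, ‖G.ev (cx y) (u j)‖ ^ 2 := by
  classical
  obtain ⟨R, hR, hnull⟩ := G.null_criterion
  refine ⟨R, fun L₀ => ?_⟩
  obtain ⟨Cf, hCf⟩ : ∃ Cf : ℕ, ∀ p, G.cc p ≠ 0 → ‖G.L p‖ ≤ R + L₀ → ‖p‖ ≤ Cf := by
    have hfin := G.fin (R + L₀)
    obtain ⟨B, hB⟩ := (hfin.image (fun p => ‖p‖)).bddAbove
    refine ⟨⌈B⌉₊, fun p hp hp' => ?_⟩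
    exact (hB ⟨p, ⟨hp, hp'⟩, rfl⟩).trans (Nat.le_ceil B)
  refine ⟨Cf, fun N => ?_⟩
  have hW : {q : Gm n | ‖G.L q‖ ≤ L₀ ∧ ‖q‖ ≤ N}.Finite :=
    (fin_ball n N).subset fun q hq => hq.2
  have hRf : {r : Gm n | ‖G.L r‖ < R ∧ ‖r‖ ≤ (N + Cf : ℕ)}.Finite :=
    (fin_ball n (N + Cf : ℕ)).subset fun q hq => hq.2
  set W : Finset (Gm n) := hW.toFinset with hWdef
  set Rf : Finset (Gm n) := hRf.toFinset with hRfdef
  refine ⟨hW, ?_⟩
  let V := EuclideanSpace ℂ W
  let Nl : Submodule ℂ V := (G.I.restrictScalars ℂ).comap (toA W)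
  have hNl : ∀ b : V, b ∈ Nl ↔ toA W b ∈ G.I := fun b => Iff.rfl
  let ob := stdOrthonormalBasis ℂ Nlᗮ
  have hsupp : ∀ b : V, SuppIn (toA W b) {q : Gm n | ‖G.L q‖ ≤ L₀ ∧ ‖q‖ ≤ N} := by
    intro b q hq
    by_contra hcon
    apply hq
    apply coeff_toA'
    rw [hWdef, Set.Finite.mem_toFinset]
    exact hcon
  refine ⟨Module.finrank ℂ Nlᗮ, fun j => toA W (ob j : V), ?_, fun j => hsupp _, ?_, ?_⟩
  · -- the rank bound
    let Φ : V →ₗ[ℂ] (Rf → ℂ) :=
      { toFun := fun b r => ∑ q : W, b q * G.cc ((r : Gm n) - q)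
        map_add' := fun b c => by
          ext r
          change ∑ q : W, (b q + c q) * G.cc ((r : Gm n) - q) =
            ∑ q : W, b q * G.cc ((r : Gm n) - q) + ∑ q : W, c q * G.cc ((r : Gm n) - q)
          simp only [add_mul, Finset.sum_add_distrib]
        map_smul' := fun a b => by
          ext r
          change ∑ q : W, (a * b q) * G.cc ((r : Gm n) - q) =
            a * ∑ q : W, b q * G.cc ((r : Gm n) - q)
          simp only [mul_assoc, Finset.mul_sum] }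
    have hinj : Function.Injective (Φ.comp Nlᗮ.subtype) := by
      rw [injective_iff_map_eq_zero]
      intro b hb
      have h1 : toA W (b : V) ∈ G.I := by
        apply hnull
        intro r hr
        rw [G.Cc_toA]
        by_cases hr' : r ∈ Rf
        · exact congrFun hb ⟨r, hr'⟩
        · refine Finset.sum_eq_zero fun q _ => ?_
          have h2 : G.cc (r - q) = 0 := by
            by_contra hne
            apply hr'
            rw [hRfdef, Set.Finite.mem_toFinset]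
            have hq : (q : Gm n) ∈ {q : Gm n | ‖G.L q‖ ≤ L₀ ∧ ‖q‖ ≤ N} :=
              (Set.Finite.mem_toFinset hW).mp q.2
            refine ⟨hr, ?_⟩
            have h3 := hCf (r - q) hne (by
              rw [map_sub]
              exact (norm_sub_le _ _).trans (add_le_add hr.le hq.1))
            calc ‖r‖ = ‖(r - (q : Gm n)) + q‖ := by congr 1; abel
              _ ≤ ‖r - (q : Gm n)‖ + ‖(q : Gm n)‖ := norm_add_le _ _
              _ ≤ Cf + N := add_le_add h3 hq.2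
              _ = _ := by push_cast; ring
          rw [h2, mul_zero]
      have h4 : (b : V) ∈ Nl := h1
      have h5 : (b : V) ∈ Nl ⊓ Nlᗮ := ⟨h4, b.2⟩
      rw [Submodule.inf_orthogonal_eq_bot] at h5
      exact Subtype.ext h5
    have h6 := LinearMap.finrank_le_finrank_of_injective hinj
    rw [Module.finrank_pi, Fintype.card_coe] at h6
    have h7 : {r : Gm n | ‖G.L r‖ < R ∧ ‖r‖ ≤ (N + Cf : ℕ)}.ncard = Rf.card :=
      Set.ncard_eq_toFinset_card _ hRf
    rw [h7]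
    exact_mod_cast h6
  · -- normalisation
    intro j
    have h1 := sum_toA W (ob j : V) (fun _ a => ‖a‖ ^ 2) (fun q => by simp)
    simp only at h1 ⊢
    rw [h1, ← EuclideanSpace.norm_sq_eq]
    have h2 : ‖(ob j : V)‖ = 1 := ob.orthonormal.1 j
    rw [h2]; norm_num
  · intro y hy
    let ay : V := WithLp.toLp 2 fun q : W => (starRingEnd ℂ) (ex (G.L q) (cx y))
    have hinner : ∀ b : V, inner ℂ b ay = (starRingEnd ℂ) (G.ev (cx y) (toA W b)) := by
      intro b
      rw [G.ev_toA, map_sum, PiLp.inner_apply]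
      refine Finset.sum_congr rfl fun q _ => ?_
      rw [RCLike.inner_apply, map_mul, mul_comm]
    have hay : ay ∈ Nlᗮ := by
      rw [Submodule.mem_orthogonal]
      intro b hb
      rw [hinner, hy _ hb, map_zero]
    have h1 := ob.sum_sq_norm_inner_right (⟨ay, hay⟩ : Nlᗮ)
    have h2 : ‖(⟨ay, hay⟩ : Nlᗮ)‖ ^ 2 = W.card := by
      have h3 : ‖(⟨ay, hay⟩ : Nlᗮ)‖ = ‖ay‖ := rfl
      rw [h3, EuclideanSpace.norm_sq_eq]
      have h4 : ∀ q : W, ‖ay q‖ ^ 2 = 1 := by
        intro q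
        change ‖(starRingEnd ℂ) (ex (G.L q) (cx y))‖ ^ 2 = 1
        rw [RCLike.norm_conj, norm_ex_cx, one_pow]
      simp only [h4]
      simp
    rw [h2] at h1
    have h5 : {q : Gm n | ‖G.L q‖ ≤ L₀ ∧ ‖q‖ ≤ N}.ncard = W.card :=
      Set.ncard_eq_toFinset_card _ hW
    rw [h5, ← h1]
    refine Finset.sum_le_sum fun j _ => le_of_eq ?_
    have h6 : inner ℂ (ob j) (⟨ay, hay⟩ : Nlᗮ) = inner ℂ (ob j : V) ay := rfl
    rw [h6, hinner, RCLike.norm_conj]

end FQG

end FQ
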