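import Pool.Agent.Helper17.FQKey

/-!
# If the Jacobian condition fails, a real vector field preserves the null ideal
-/

open scoped BigOperators SchwartzMap FourierTransform RealInnerProductSpace ContDiff
open MeasureTheory Complex Filter Topology

noncomputable section

namespace FQ

variable {d n : ℕ}

lemma noeth_A (n : ℕ) : IsNoetherianRing (A n) := by
  have hFG : AddMonoid.FG (Gm n) := by
    have h2 : AddGroup.FG (Gm n) := Module.Finite.iff_addGroup_fg.mp inferInstance
    exact AddGroup.fg_iff_addMonoid_fg.mp h2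
  exact isNoetherianRing_addMonoidAlgebra

namespace FQG

variable (G : FQG d n)

/-- linear algebra over the fraction field -/
lemma exists_relation_aux (P : Ideal (A n)) [hP : P.IsPrime] (K : Type) [Field K]
    [Algebra (A n ⧸ P) K] [IsFractionRing (A n ⧸ P) K]
    (h : ∀ F : Fin d → A n, (∀ i, F i ∈ G.I) → G.Jac F ∈ P) :
    ∃ α : Fin d → A n, (∀ f ∈ G.I, ∑ j, α j * G.D j f ∈ P) ∧ ∃ j, α j ∉ P := by
  classical
  let B := A n ⧸ P
  let φ : A n →+* K := (algebraMap B K).comp (Ideal.Quotient.mk P)
  have hφ : ∀ x, φ x = 0 ↔ x ∈ P := by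
    intro x
    rw [← Ideal.Quotient.eq_zero_iff_mem]
    constructor
    · intro hx
      exact (IsFractionRing.injective B K) (by rw [map_zero]; exact hx)
    · intro hx
      change algebraMap B K (Ideal.Quotient.mk P x) = 0
      rw [hx, map_zero]
  set s : Set (Fin d → K) := {v | ∃ f ∈ G.I, v = fun j => φ (G.D j f)} with hs
  have hne : Submodule.span K s ≠ ⊤ := by
    intro htop
    obtain ⟨f, hf1, -, hf3⟩ := Submodule.exists_fun_fin_finrank_span_eq K s
    have hrank : Module.finrank K (Submodule.span K s) = d := by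
      rw [htop, finrank_top, Module.finrank_fin_fun]
    let e : Fin d ≃ Fin (Module.finrank K (Submodule.span K s)) := finCongr hrank.symm
    have hli : LinearIndependent K (fun i => f (e i)) := hf3.comp _ e.injective
    choose g hgI hg using fun i => hf1 (e i)
    have hmat : IsUnit (Matrix.of fun i j => φ (G.D j (g i))) := by
      rw [← Matrix.linearIndependent_rows_iff_isUnit]
      convert hli using 1
      ext i j
      rw [hg i]
      rfl
    have hdet := (Matrix.isUnit_iff_isUnit_det _).mp hmat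
    have hdet2 : Matrix.det (Matrix.of fun i j => φ (G.D j (g i))) = φ (G.Jac g) := by
      unfold Jac
      rw [RingHom.map_det]
      congr 1
    rw [hdet2, (hφ _).mpr (h g hgI)] at hdet
    exact not_isUnit_zero hdet
  obtain ⟨x, hx⟩ : ∃ x : Fin d → K, x ∉ Submodule.span K s := by
    by_contra hcon
    push Not at hcon
    exact hne (Submodule.eq_top_iff'.mpr hcon)
  obtain ⟨ψ, hψx, hψs⟩ := Submodule.exists_dual_map_eq_bot_of_notMem hx inferInstance
  have hψ0 : ∀ f ∈ G.I, ψ (fun j => φ (G.D j f)) = 0 := by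
    intro f hf
    have h1 : (fun j => φ (G.D j f)) ∈ Submodule.span K s := Submodule.subset_span ⟨f, hf, rfl⟩
    have h2 : ψ (fun j => φ (G.D j f)) ∈ (Submodule.span K s).map ψ := Submodule.mem_map_of_mem h1
    rw [hψs] at h2
    exact (Submodule.mem_bot K).mp h2
  set β : Fin d → K := fun j => ψ (Pi.single j 1) with hβ
  have hψβ : ∀ v, ψ v = ∑ j, v j * β j := by
    intro v
    conv_lhs => rw [← Finset.univ_sum_single v]
    rw [map_sum]
    refine Finset.sum_congr rfl fun j _ => ?_
    have : (Pi.single j (v j) : Fin d → K) = v j • Pi.single j 1 := by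
      ext i
      simp [Pi.single_apply]
    rw [this, map_smul, smul_eq_mul]
  obtain ⟨j₀, hj₀⟩ : ∃ j, β j ≠ 0 := by
    by_contra hcon
    push Not at hcon
    apply hψx
    rw [hψβ]
    simp [hcon]
  obtain ⟨b, hb⟩ := IsLocalization.exist_integer_multiples_of_finite (nonZeroDivisors B) β
  choose c hc using hb
  have hlift : ∀ j, ∃ a : A n, Ideal.Quotient.mk P a = c j := fun j =>
    Ideal.Quotient.mk_surjective _
  choose α hα using hlift
  have hφα : ∀ j, φ (α j) = algebraMap B K b * β j := by
    intro j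
    change algebraMap B K (Ideal.Quotient.mk P (α j)) = _
    rw [hα j, hc j, Algebra.smul_def]
  refine ⟨α, ?_, j₀, ?_⟩
  · intro f hf
    rw [← hφ, map_sum]
    have h1 : ∀ j, φ (α j * G.D j f) = algebraMap B K b * (φ (G.D j f) * β j) := by
      intro j
      rw [map_mul, hφα]; ring
    simp only [h1]
    rw [← Finset.mul_sum, ← hψβ, hψ0 f hf, mul_zero]
  · rw [← hφ, hφα]
    apply mul_ne_zero _ hj₀
    have hb0 : (b : B) ≠ 0 := nonZeroDivisors.ne_zero b.2
    intro h0
    exact hb0 ((IsFractionRing.injective B K) (by rw [map_zero]; exact h0))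

/-- linear algebra over the fraction field -/
lemma exists_relation (P : Ideal (A n)) [hP : P.IsPrime]
    (h : ∀ F : Fin d → A n, (∀ i, F i ∈ G.I) → G.Jac F ∈ P) :
    ∃ α : Fin d → A n, (∀ f ∈ G.I, ∑ j, α j * G.D j f ∈ P) ∧ ∃ j, α j ∉ P :=
  G.exists_relation_aux P (FractionRing (A n ⧸ P)) h

/-- derivation preserving the ideal -/
lemma exists_field_complex (P : Ideal (A n)) (hPm : P ∈ G.I.minimalPrimes)
    (h : ∀ F : Fin d → A n, (∀ i, F i ∈ G.I) → G.Jac F ∈ P) :
    ∃ α : Fin d → A n, (∀ f ∈ G.I, ∑ j, α j * G.D j f ∈ G.I) ∧ ∃ j, α j ∉ G.I := by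
  classical
  have hP : P.IsPrime := hPm.1.1
  have hN := noeth_A n
  obtain ⟨α, h1, j₀, hj₀⟩ := G.exists_relation P h
  have hfin : G.I.minimalPrimes.Finite := Ideal.finite_minimalPrimes_of_isNoetherianRing _ _
  -- element in the other minimal primes
  have hg : ∀ P' ∈ hfin.toFinset.erase P, ∃ g ∈ P', g ∉ P := by
    intro P' hP'
    rw [Finset.mem_erase, Set.Finite.mem_toFinset] at hP'
    by_contra hcon
    push Not at hcon
    have h2 : P' ≤ P := hcon
    have h3 : P ≤ P' := hPm.2 hP'.2.1 h2
    exact hP'.1 (le_antisymm h2 h3)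
  choose! g hg1 hg2 using hg
  set g₀ : A n := ∏ P' ∈ hfin.toFinset.erase P, g P' with hg₀
  have hg₀P : g₀ ∉ P := by
    intro hmem
    rw [hg₀] at hmem
    obtain ⟨P', hP', h2⟩ := (hP.prod_mem_iff).mp hmem
    exact hg2 P' hP' h2
  have hmul : ∀ x ∈ P, g₀ * x ∈ G.I := by
    intro x hx
    have h2 : g₀ * x ∈ sInf G.I.minimalPrimes := by
      rw [Submodule.mem_sInf]
      intro P' hP'
      by_cases hPP : P' = P
      · rw [hPP]; exact P.mul_mem_left _ hx
      · have hmem : P' ∈ hfin.toFinset.erase P := by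
          rw [Finset.mem_erase, Set.Finite.mem_toFinset]
          exact ⟨hPP, hP'⟩
        have h3 : g₀ ∈ P' := by
          rw [hg₀, ← Finset.mul_prod_erase _ _ hmem]
          exact Ideal.mul_mem_right _ _ (hg1 P' hmem)
        exact Ideal.mul_mem_right _ _ h3
    rw [Ideal.sInf_minimalPrimes, G.I_radical.radical] at h2
    exact h2
  refine ⟨fun j => g₀ * α j, fun f hf => ?_, j₀, fun hmem => ?_⟩
  · have h2 := hmul _ (h1 f hf)
    rw [Finset.mul_sum] at h2
    simpa only [mul_assoc] using h2
  · have h2 : g₀ * α j₀ ∈ P := hPm.1.2 hmem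
    rcases hP.mem_or_mem h2 with h3 | h3
    · exact hg₀P h3
    · exact hj₀ h3

/-- real valued elements -/
def IsR (f : A n) : Prop := ∀ t : E d, (starRingEnd ℂ) (G.ev (cx t) f) = G.ev (cx t) f

include G in
lemma ev_st_st (f : A n) : st (st f) = f := by
  apply G.ext_ev
  intro t
  rw [G.ev_st, G.ev_st, Complex.conj_conj]

lemma st_D (j : Fin d) (f : A n) : st (G.D j f) = -G.D j (st f) := by
  -- compare coefficients through linearity
  have hst_add : ∀ f g : A n, st (f + g) = st f + st g := by
    intro f g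
    apply G.ext_ev
    intro t
    rw [G.ev_st, map_add, map_add, map_add, G.ev_st, G.ev_st]
  have hst_single : ∀ (q : Gm n) (a : ℂ), st (AddMonoidAlgebra.single q a) =
      AddMonoidAlgebra.single (-q) ((starRingEnd ℂ) a) := by
    intro q a
    apply G.ext_ev
    intro t
    rw [G.ev_st, G.ev_single, G.ev_single, map_mul, conj_ex_cx, map_neg]
  induction f using AddMonoidAlgebra.induction_linear with
  | zero =>
    have h0 : st (0 : A n) = 0 := by simp [st]
    rw [G.D_zero, h0, G.D_zero, neg_zero]
  | add f g hf hg =>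
    rw [G.D_add, hst_add, hf, hg, hst_add, G.D_add]; ring
  | single q a =>
    rw [G.D_single, hst_single, hst_single, G.D_single, ← AddMonoidAlgebra.single_neg]
    congr 1
    rw [map_mul, Complex.conj_ofReal, map_neg, PiLp.neg_apply]
    push_cast
    ring

/-- real derivation preserving the ideal -/
lemma exists_field_real (P : Ideal (A n)) (hPm : P ∈ G.I.minimalPrimes)
    (h : ∀ F : Fin d → A n, (∀ i, F i ∈ G.I) → G.Jac F ∈ P) :
    ∃ β : Fin d → A n, (∀ j, G.IsR (β j)) ∧ (∀ f ∈ G.I, ∑ j, β j * G.D j f ∈ G.I) ∧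
      ∃ j, β j ∉ G.I := by
  obtain ⟨α, h1, j₀, hj₀⟩ := G.exists_field_complex P hPm h
  have hstm : ∀ f g : A n, st (f * g) = st f * st g := by
    intro f g
    apply G.ext_ev
    intro t
    rw [G.ev_st, map_mul, map_mul, map_mul, G.ev_st, G.ev_st]
  have hsts : ∀ f : Fin d → A n, st (∑ j, f j) = ∑ j, st (f j) := by
    intro f
    apply G.ext_ev
    intro t
    rw [G.ev_st, map_sum, map_sum, map_sum]
    simp only [G.ev_st]
  -- the conjugate derivation
  have h2 : ∀ f ∈ G.I, ∑ j, st (α j) * G.D j f ∈ G.I := by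
    intro f hf
    have h3 := G.st_mem_I (h1 _ (G.st_mem_I hf))
    rw [hsts] at h3
    have h4 : ∑ j, st (α j * G.D j (st f)) = -∑ j, st (α j) * G.D j f := by
      rw [← Finset.sum_neg_distrib]
      refine Finset.sum_congr rfl fun j _ => ?_
      rw [hstm, G.st_D, G.ev_st_st, mul_neg]
    rw [h4] at h3
    simpa using G.I.neg_mem h3
  by_cases hc : ∃ j, α j + st (α j) ∉ G.I
  · refine ⟨fun j => α j + st (α j), fun j t => ?_, fun f hf => ?_, hc⟩
    · rw [map_add, G.ev_st, map_add, Complex.conj_conj, add_comm]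
    · have := G.I.add_mem (h1 f hf) (h2 f hf)
      rw [← Finset.sum_add_distrib] at this
      simpa only [add_mul] using this
  · push Not at hc
    refine ⟨fun j => AddMonoidAlgebra.single 0 Complex.I * (α j - st (α j)), fun j t => ?_,
      fun f hf => ?_, j₀, fun hmem => ?_⟩
    · rw [map_mul, G.ev_single, map_zero, ex_zero_left, map_sub, G.ev_st, mul_one, map_mul,
        map_sub, Complex.conj_conj, Complex.conj_I]
      ring
    · have h3 := G.I.mul_mem_left (AddMonoidAlgebra.single 0 Complex.I)
        (G.I.sub_mem (h1 f hf) (h2 f hf))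
      rw [← Finset.sum_sub_distrib, Finset.mul_sum] at h3
      convert h3 using 1
      refine Finset.sum_congr rfl fun j _ => ?_
      ring
    · apply hj₀
      have h3 : α j₀ - st (α j₀) ∈ G.I := by
        have h4 := G.I.mul_mem_left (AddMonoidAlgebra.single 0 (-Complex.I)) hmem
        rw [← mul_assoc, AddMonoidAlgebra.single_mul_single] at h4
        have h5 : -Complex.I * Complex.I = 1 := by rw [neg_mul, Complex.I_mul_I, neg_neg]
        rw [h5, add_zero, ← AddMonoidAlgebra.one_def, one_mul] at h4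
        exact h4
      have h6 := G.I.add_mem h3 (hc j₀)
      have h7 : α j₀ - st (α j₀) + (α j₀ + st (α j₀)) = 2 * α j₀ := by ring
      rw [h7] at h6
      have h8 := G.I.mul_mem_left (AddMonoidAlgebra.single 0 (1/2:ℂ)) h6
      have h9 : (AddMonoidAlgebra.single 0 (1/2:ℂ) : A n) * (2 * α j₀) = α j₀ := by
        have h10 : (2 : A n) = AddMonoidAlgebra.single 0 (2:ℂ) := by
          rw [AddMonoidAlgebra.ofNat_def]
        rw [h10, ← mul_assoc, AddMonoidAlgebra.single_mul_single]
        norm_num
        rw [← AddMonoidAlgebra.one_def, one_mul]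
      rwa [h9] at h8

end FQG

end FQ
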