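import Pool.Agent.Helper17.FQAlg

/-!
# A finite order functional at a point of the variety of a prime ideal
-/

open scoped BigOperators
open Filter Topology

noncomputable section

namespace FQ

variable {n : ℕ}

/-- exponential bound for multiplication operators on a finite dimensional quotient -/
lemma mult_bound (V : Type) [AddCommGroup V] [Module ℂ V] [Module.Finite ℂ V]
    (T : Multiplicative (Fin n → ℤ) →* Module.End ℂ V) (v₀ : V) (φ : V →ₗ[ℂ] ℂ) :
    ∃ C c : ℝ, 0 ≤ C ∧ 0 ≤ c ∧ ∀ q : Fin n → ℤ,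
      ‖φ (T (Multiplicative.ofAdd q) v₀)‖ ≤ C * Real.exp (c * ‖q‖) := by
  classical
  let b := Module.finBasis ℂ V
  let nr : V → ℝ := fun v => ∑ i, ‖b.repr v i‖
  have hnr0 : ∀ v, 0 ≤ nr v := fun v => Finset.sum_nonneg fun _ _ => norm_nonneg _
  -- every linear functional is bounded
  have hφ : ∀ φ : V →ₗ[ℂ] ℂ, ∃ K : ℝ, 0 ≤ K ∧ ∀ v, ‖φ v‖ ≤ K * nr v := by
    intro φ
    refine ⟨∑ i, ‖φ (b i)‖, Finset.sum_nonneg fun _ _ => norm_nonneg _, fun v => ?_⟩
    conv_lhs => rw [← b.sum_repr v]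
    rw [map_sum]
    refine (norm_sum_le _ _).trans ?_
    rw [Finset.mul_sum]
    refine Finset.sum_le_sum fun i _ => ?_
    rw [map_smul, norm_smul, mul_comm]
    gcongr
    exact Finset.single_le_sum (f := fun i => ‖φ (b i)‖) (fun _ _ => norm_nonneg _)
      (Finset.mem_univ i)
  -- every endomorphism is bounded
  have hT : ∀ S : Module.End ℂ V, ∃ K : ℝ, 0 ≤ K ∧ ∀ v, nr (S v) ≤ K * nr v := by
    intro S
    have h1 := fun i => hφ ((b.coord i).comp S)
    choose K hK0 hK using h1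
    refine ⟨∑ i, K i, Finset.sum_nonneg fun i _ => hK0 i, fun v => ?_⟩
    rw [Finset.sum_mul]
    exact Finset.sum_le_sum fun i _ => hK i v
  -- a common constant
  obtain ⟨M, hM1, hM⟩ : ∃ M : ℝ, 1 ≤ M ∧ ∀ (i : Fin n) (v : V),
      nr (T (Multiplicative.ofAdd (Pi.single i 1)) v) ≤ M * nr v ∧
      nr (T (Multiplicative.ofAdd (-Pi.single i 1)) v) ≤ M * nr v := by
    have h1 := fun i : Fin n => hT (T (Multiplicative.ofAdd (Pi.single i 1)))
    have h2 := fun i : Fin n => hT (T (Multiplicative.ofAdd (-Pi.single i 1)))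
    choose K hK0 hK using h1
    choose K' hK'0 hK' using h2
    refine ⟨1 + ∑ i, (K i + K' i), ?_, fun i v => ?_⟩
    · have : 0 ≤ ∑ i, (K i + K' i) := Finset.sum_nonneg fun i _ => add_nonneg (hK0 i) (hK'0 i)
      linarith
    · have h3 : K i + K' i ≤ ∑ i, (K i + K' i) :=
        Finset.single_le_sum (f := fun i => K i + K' i)
          (fun i _ => add_nonneg (hK0 i) (hK'0 i)) (Finset.mem_univ i)
      have h4 := hK0 i
      have h5 := hK'0 i
      constructor
      · refine (hK i v).trans ?_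
        have := hnr0 v
        gcongr
        linarith
      · refine (hK' i v).trans ?_
        have := hnr0 v
        gcongr
        linarith
  have hM0 : 0 ≤ M := by linarith
  -- powers
  have hpow : ∀ (i : Fin n) (k : ℤ) (v : V),
      nr (T (Multiplicative.ofAdd (k • Pi.single i (1:ℤ))) v) ≤ M ^ k.natAbs * nr v := by
    intro i k v
    have hnat : ∀ (m : ℕ) (v : V), nr (T (Multiplicative.ofAdd ((m : ℤ) • Pi.single i (1:ℤ))) v) ≤ M ^ m * nr v ∧
        nr (T (Multiplicative.ofAdd (-(m : ℤ) • Pi.single i (1:ℤ))) v) ≤ M ^ m * nr v := by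
      intro m
      induction m with
      | zero => intro v; simp
      | succ m ih =>
        intro v
        have e1 : ((m + 1 : ℕ) : ℤ) • Pi.single i (1:ℤ) = Pi.single i (1:ℤ) + (m:ℤ) • (Pi.single i (1:ℤ) : Fin n → ℤ) := by
          push_cast; rw [add_smul, one_smul, add_comm]
        have e2 : -((m + 1 : ℕ) : ℤ) • Pi.single i (1:ℤ) = -Pi.single i (1:ℤ) + -(m:ℤ) • (Pi.single i (1:ℤ) : Fin n → ℤ) := by
          push_cast; rw [neg_smul, add_smul, one_smul, neg_smul, neg_add, add_comm]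
        constructor
        · rw [e1, ofAdd_add, map_mul, Module.End.mul_apply]
          refine ((hM i _).1).trans ?_
          rw [pow_succ, mul_comm (M ^ m), mul_assoc]
          exact mul_le_mul_of_nonneg_left (ih v).1 hM0
        · rw [e2, ofAdd_add, map_mul, Module.End.mul_apply]
          refine ((hM i _).2).trans ?_
          rw [pow_succ, mul_comm (M ^ m), mul_assoc]
          exact mul_le_mul_of_nonneg_left (ih v).2 hM0
    rcases Int.natAbs_eq k with h | h
    · have := (hnat k.natAbs v).1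
      rwa [← h] at this
    · have := (hnat k.natAbs v).2
      rwa [← h] at this
  have hall : ∀ (q : Fin n → ℤ) (s : Finset (Fin n)) (v : V),
      nr (T (Multiplicative.ofAdd (∑ i ∈ s, q i • Pi.single i (1:ℤ))) v) ≤
        M ^ (∑ i ∈ s, (q i).natAbs) * nr v := by
    intro q s
    induction s using Finset.induction_on with
    | empty => intro v; simp
    | insert i s hi ih =>
      intro v
      rw [Finset.sum_insert hi, Finset.sum_insert hi, ofAdd_add, map_mul, Module.End.mul_apply]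
      refine (hpow i (q i) _).trans ?_
      rw [pow_add, mul_assoc]
      exact mul_le_mul_of_nonneg_left (ih v) (by positivity)
  obtain ⟨K, hK0, hK⟩ := hφ φ
  refine ⟨K * nr v₀, Real.log M * n, mul_nonneg hK0 (hnr0 _),
    mul_nonneg (Real.log_nonneg hM1) (by positivity), fun q => ?_⟩
  have hq : q = ∑ i, q i • (Pi.single i (1:ℤ) : Fin n → ℤ) := by
    ext j
    simp [Finset.sum_apply, Pi.single_apply]
  have h1 := hall q Finset.univ v₀
  rw [← hq] at h1
  have h2 : ((∑ i, (q i).natAbs : ℕ) : ℝ) ≤ n * ‖q‖ := by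
    push_cast
    calc ∑ i, ((q i).natAbs : ℝ) ≤ ∑ _i : Fin n, ‖q‖ := by
          refine Finset.sum_le_sum fun i _ => ?_
          have := norm_le_pi_norm q i
          rw [Int.norm_eq_abs] at this
          rw [Nat.cast_natAbs]
          push_cast
          exact this
      _ = n * ‖q‖ := by simp
  have h3 : M ^ (∑ i, (q i).natAbs) ≤ Real.exp (Real.log M * n * ‖q‖) := by
    rw [← Real.rpow_natCast, Real.rpow_def_of_pos (by linarith)]
    apply Real.exp_le_exp.mpr
    rw [mul_assoc]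
    exact mul_le_mul_of_nonneg_left h2 (Real.log_nonneg hM1)
  calc ‖φ (T (Multiplicative.ofAdd q) v₀)‖ ≤ K * nr (T (Multiplicative.ofAdd q) v₀) := hK _
    _ ≤ K * (M ^ (∑ i, (q i).natAbs) * nr v₀) := by gcongr
    _ ≤ K * (Real.exp (Real.log M * n * ‖q‖) * nr v₀) := by
        have := hnr0 v₀
        gcongr
    _ = _ := by ring

/-- **Local functional.** -/
theorem local_functional (P : Ideal (AddMonoidAlgebra ℂ (Fin n → ℤ))) [P.IsPrime]
    (χ : AddMonoidAlgebra ℂ (Fin n → ℤ) →ₐ[ℂ] ℂ) (hP : P ≤ RingHom.ker χ.toRingHom)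
    (J : AddMonoidAlgebra ℂ (Fin n → ℤ)) (hJ : J ∉ P) :
    ∃ Θ : AddMonoidAlgebra ℂ (Fin n → ℤ) →ₗ[ℂ] ℂ, (∀ f ∈ P, Θ f = 0) ∧
      (∀ S, Θ (J * S) = χ S) ∧
      ∃ C c : ℝ, 0 ≤ C ∧ 0 ≤ c ∧
        ∀ q, ‖Θ (AddMonoidAlgebra.single q 1)‖ ≤ C * Real.exp (c * ‖q‖) := by
  classical
  have hFG : AddMonoid.FG (Fin n → ℤ) := by
    have h2 : AddGroup.FG (Fin n → ℤ) := Module.Finite.iff_addGroup_fg.mp inferInstance
    exact AddGroup.fg_iff_addMonoid_fg.mp h2
  have hN : IsNoetherianRing (AddMonoidAlgebra ℂ (Fin n → ℤ)) := isNoetherianRing_addMonoidAlgebra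
  have hFT : Algebra.FiniteType ℂ (AddMonoidAlgebra ℂ (Fin n → ℤ)) := inferInstance
  set m : Ideal (AddMonoidAlgebra ℂ (Fin n → ℤ)) := RingHom.ker χ.toRingHom with hm
  have hχmem : ∀ f, f ∈ m ↔ χ f = 0 := fun f => RingHom.mem_ker
  have hχsurj : Function.Surjective χ.toRingHom := by
    intro a
    refine ⟨algebraMap ℂ _ a, ?_⟩
    exact χ.commutes a
  have hmax : m.IsMaximal := RingHom.ker_isMaximal_of_surjective _ hχsurj
  -- Krull
  obtain ⟨k, hk⟩ : ∃ k : ℕ, J ∉ P ⊔ m ^ k := by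
    by_contra hcon
    push Not at hcon
    have hdom : IsDomain (AddMonoidAlgebra ℂ (Fin n → ℤ) ⧸ P) := inferInstance
    let mk := Ideal.Quotient.mk P
    have hne : m.map mk ≠ ⊤ := by
      intro h
      have h1 : (1 : AddMonoidAlgebra ℂ (Fin n → ℤ) ⧸ P) ∈ m.map mk := by rw [h]; trivial
      rw [Ideal.mem_map_iff_of_surjective mk Ideal.Quotient.mk_surjective] at h1
      obtain ⟨x, hx, hx1⟩ := h1
      have h2 : x - 1 ∈ P := by
        rw [← Ideal.Quotient.eq_zero_iff_mem, map_sub, map_one]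
        exact sub_eq_zero.mpr hx1
      have h3 : x - 1 ∈ m := hP h2
      have h4 : (1 : AddMonoidAlgebra ℂ (Fin n → ℤ)) ∈ m := by
        have := m.sub_mem hx h3
        simpa using this
      exact hmax.ne_top ((Ideal.eq_top_iff_one _).mpr h4)
    have h1 := Ideal.iInf_pow_eq_bot_of_isDomain (m.map mk) hne
    have h2 : mk J ∈ (⨅ i : ℕ, (m.map mk) ^ i) := by
      rw [Submodule.mem_iInf]
      intro i
      rw [← Ideal.map_pow]
      have h3 := hcon i
      have h4 : mk J ∈ (P ⊔ m ^ i).map mk := Ideal.mem_map_of_mem _ h3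
      rw [Ideal.map_sup, Ideal.map_quotient_self, bot_sup_eq] at h4
      exact h4
    rw [h1] at h2
    exact hJ (Ideal.Quotient.eq_zero_iff_mem.mp (by simpa using h2))
  set Q : Ideal (AddMonoidAlgebra ℂ (Fin n → ℤ)) := P ⊔ m ^ k with hQ
  have hPQ : P ≤ Q := le_sup_left
  have hmQ : m ^ k ≤ Q := le_sup_right
  -- finite dimensional
  have hfin : Module.Finite ℂ (AddMonoidAlgebra ℂ (Fin n → ℤ) ⧸ Q) := by
    rw [Module.finite_iff_krullDimLE_zero]
    apply Ring.KrullDimLE.mk₀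
    intro I hI
    have h1 : (I.comap (Ideal.Quotient.mk Q)).IsPrime := Ideal.comap_isPrime _ I
    have h2 : m ≤ I.comap (Ideal.Quotient.mk Q) := by
      apply h1.le_of_pow_le (n := k)
      intro x hx
      change Ideal.Quotient.mk Q x ∈ I
      rw [Ideal.Quotient.eq_zero_iff_mem.mpr (hmQ hx)]
      exact I.zero_mem
    have h3 : m = I.comap (Ideal.Quotient.mk Q) := hmax.eq_of_le h1.ne_top h2
    have h4 : (I.comap (Ideal.Quotient.mk Q)).IsMaximal := h3 ▸ hmax
    have h5 := Ideal.map_eq_top_or_isMaximal_of_surjective (Ideal.Quotient.mk Q)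
      Ideal.Quotient.mk_surjective h4
    rw [Ideal.map_comap_of_surjective _ Ideal.Quotient.mk_surjective] at h5
    exact h5.resolve_left hI.ne_top
  -- socle element
  have hex : ∃ j : ℕ, ∀ b ∈ m ^ j, b * J ∈ Q := ⟨k, fun b hb => Q.mul_mem_right _ (hmQ hb)⟩
  have hj0 := Nat.find_spec hex
  have hjmin := fun j hj => Nat.find_min hex (m := j) hj
  have hjpos : 0 < Nat.find hex := by
    rw [Nat.pos_iff_ne_zero]
    intro h
    rw [h] at hj0
    apply hk
    have := hj0 1 (by simp)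
    simpa using this
  obtain ⟨b, hb, hbJ⟩ : ∃ b ∈ m ^ (Nat.find hex - 1), b * J ∉ Q := by
    have := hjmin (Nat.find hex - 1) (by omega)
    push Not at this
    exact this
  have hsoc : ∀ x ∈ m, x * (b * J) ∈ Q := by
    intro x hx
    rw [← mul_assoc]
    apply hj0
    have h1 : x * b ∈ m * m ^ (Nat.find hex - 1) := Ideal.mul_mem_mul hx hb
    rw [← pow_succ'] at h1
    have h2 : Nat.find hex - 1 + 1 = Nat.find hex := by omega
    rwa [h2] at h1
  -- functional
  set v : AddMonoidAlgebra ℂ (Fin n → ℤ) ⧸ Q := Ideal.Quotient.mk Q (b * J) with hv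
  have hv0 : v ≠ 0 := fun h => hbJ (Ideal.Quotient.eq_zero_iff_mem.mp h)
  obtain ⟨φ, hφ⟩ := Module.Projective.exists_dual_ne_zero ℂ hv0
  let mkl : AddMonoidAlgebra ℂ (Fin n → ℤ) →ₗ[ℂ] (AddMonoidAlgebra ℂ (Fin n → ℤ) ⧸ Q) :=
    (Ideal.Quotient.mkₐ ℂ Q).toLinearMap
  let Θ : AddMonoidAlgebra ℂ (Fin n → ℤ) →ₗ[ℂ] ℂ :=
    (φ v)⁻¹ • (φ.comp (mkl.comp (LinearMap.mulLeft ℂ b)))
  have hΘ : ∀ f, Θ f = (φ v)⁻¹ * φ (Ideal.Quotient.mk Q (b * f)) := fun f => rfl
  refine ⟨Θ, ?_, ?_, ?_⟩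
  · intro f hf
    rw [hΘ, Ideal.Quotient.eq_zero_iff_mem.mpr (Q.mul_mem_left _ (hPQ hf)), map_zero, mul_zero]
  · intro S
    rw [hΘ]
    have h1 : b * (J * S) - algebraMap ℂ _ (χ S) * (b * J) ∈ Q := by
      have : b * (J * S) - algebraMap ℂ _ (χ S) * (b * J) =
          (S - algebraMap ℂ _ (χ S)) * (b * J) := by ring
      rw [this]
      apply hsoc
      rw [hχmem, map_sub, AlgHom.commutes]
      simp
    have h2 : Ideal.Quotient.mk Q (b * (J * S)) = χ S • v := by
      have h3 := (Ideal.Quotient.eq).mpr h1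
      rw [h3, map_mul, ← hv, Algebra.smul_def]
      rfl
    rw [h2, map_smul, smul_eq_mul, mul_comm (χ S), ← mul_assoc, inv_mul_cancel₀ hφ, one_mul]
  · let T : Multiplicative (Fin n → ℤ) →* Module.End ℂ (AddMonoidAlgebra ℂ (Fin n → ℤ) ⧸ Q) :=
      { toFun := fun q => LinearMap.mulLeft ℂ (Ideal.Quotient.mk Q (AddMonoidAlgebra.single q.toAdd 1))
        map_one' := by
          rw [toAdd_one, ← AddMonoidAlgebra.one_def, map_one, LinearMap.mulLeft_one]; rfl
        map_mul' := fun x y => by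
          rw [toAdd_mul]
          have : AddMonoidAlgebra.single (x.toAdd + y.toAdd) (1:ℂ) =
            AddMonoidAlgebra.single x.toAdd 1 * AddMonoidAlgebra.single y.toAdd 1 := by
            rw [AddMonoidAlgebra.single_mul_single, one_mul]
          rw [this, map_mul]
          ext z
          simp }
    obtain ⟨C, c, hC, hc, hb⟩ := mult_bound _ T (Ideal.Quotient.mk Q b) φ
    refine ⟨‖(φ v)⁻¹‖ * C, c, by positivity, hc, fun q => ?_⟩
    rw [hΘ, norm_mul, mul_assoc]
    refine mul_le_mul_of_nonneg_left ?_ (norm_nonneg _)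
    have h1 := hb q
    have h2 : T (Multiplicative.ofAdd q) (Ideal.Quotient.mk Q b) =
        Ideal.Quotient.mk Q (b * AddMonoidAlgebra.single q 1) := by
      change Ideal.Quotient.mk Q (AddMonoidAlgebra.single q 1) * Ideal.Quotient.mk Q b = _
      rw [← map_mul, mul_comm]
    rwa [h2] at h1

end FQ
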