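import Mathlib

/-!
# Elementary symmetric functions of summable families
-/

open scoped BigOperators
open Filter Topology

noncomputable section

namespace FQ

/-- Newton recursion -/
def newt {R : Type*} [CommRing R] [Algebra ℂ R] (P : ℕ → R) : ℕ → R
  | 0 => 1
  | m + 1 => ((m : ℂ) + 1)⁻¹ • ∑ j : Fin (m + 1), (-1) ^ (j : ℕ) * newt P (m - j) * P (j + 1)
  termination_by m => m
  decreasing_by omega

lemma newt_zero {R : Type*} [CommRing R] [Algebra ℂ R] (P : ℕ → R) : newt P 0 = 1 := by
  rw [newt]

lemma newt_succ {R : Type*} [CommRing R] [Algebra ℂ R] (P : ℕ → R) (m : ℕ) :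
    newt P (m + 1) = ((m : ℂ) + 1)⁻¹ •
      ∑ j ∈ Finset.range (m + 1), (-1) ^ j * newt P (m - j) * P (j + 1) := by
  rw [newt, Finset.sum_range]

lemma map_newt {R R' : Type*} [CommRing R] [Algebra ℂ R] [CommRing R'] [Algebra ℂ R']
    (φ : R →ₐ[ℂ] R') (P : ℕ → R) (m : ℕ) : φ (newt P m) = newt (fun j => φ (P j)) m := by
  induction m using Nat.strong_induction_on with
  | _ m ih =>
    cases m with
    | zero => rw [newt_zero, newt_zero, map_one]
    | succ m =>
      rw [newt_succ, newt_succ, map_smul, map_sum]
      congr 1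
      refine Finset.sum_congr rfl fun j hj => ?_
      rw [map_mul, map_mul, ih (m - j) (by omega)]
      simp

section fam

variable {ι : Type*}

/-- elementary symmetric function of a finite subfamily -/
def es (a : ι → ℂ) (S : Finset ι) (m : ℕ) : ℂ := ∑ T ∈ S.powersetCard m, ∏ i ∈ T, a i

lemma es_zero (a : ι → ℂ) (S : Finset ι) : es a S 0 = 1 := by simp [es]

lemma es_insert [DecidableEq ι] (a : ι → ℂ) {S : Finset ι} {i : ι} (hi : i ∉ S) (m : ℕ) :
    es a (insert i S) (m + 1) = es a S (m + 1) + a i * es a S m := by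
  unfold es
  rw [Finset.powersetCard_succ_insert hi, Finset.sum_union]
  · congr 1
    rw [Finset.sum_image, Finset.mul_sum]
    · refine Finset.sum_congr rfl fun T hT => ?_
      rw [Finset.prod_insert]
      intro h
      exact hi ((Finset.mem_powersetCard.mp hT).1 h)
    · intro T hT T' hT' h
      have h1 : i ∉ T := fun h => hi ((Finset.mem_powersetCard.mp hT).1 h)
      have h2 : i ∉ T' := fun h => hi ((Finset.mem_powersetCard.mp hT').1 h)
      rw [← Finset.erase_insert h1, ← Finset.erase_insert h2, h]
  · rw [Finset.disjoint_left]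
    intro T hT hT'
    obtain ⟨T', -, rfl⟩ := Finset.mem_image.mp hT'
    exact hi ((Finset.mem_powersetCard.mp hT).1 (Finset.mem_insert_self _ _))

lemma norm_es_le (a : ι → ℂ) (S : Finset ι) (m : ℕ) :
    ‖es a S m‖ ≤ (∑ i ∈ S, ‖a i‖) ^ m / m.factorial := by
  classical
  induction S using Finset.induction_on generalizing m with
  | empty =>
    cases m with
    | zero => simp [es]
    | succ m =>
      have : (∅ : Finset ι).powersetCard (m + 1) = ∅ :=
        Finset.powersetCard_eq_empty.mpr (by simp)
      simp [es, this]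
  | insert i S hi ih =>
    cases m with
    | zero => simp [es_zero]
    | succ m =>
      rw [es_insert a hi, Finset.sum_insert hi]
      refine (norm_add_le _ _).trans ?_
      rw [norm_mul]
      set s := ∑ i ∈ S, ‖a i‖ with hs
      have hs0 : 0 ≤ s := Finset.sum_nonneg fun _ _ => norm_nonneg _
      have h1 := ih (m + 1)
      have h2 := ih m
      have h3 : s ^ (m + 1) + (m + 1) * (‖a i‖ * s ^ m) ≤ (‖a i‖ + s) ^ (m + 1) := by
        have : ∀ k : ℕ, s ^ (k + 1) + (k + 1) * (‖a i‖ * s ^ k) ≤ (‖a i‖ + s) ^ (k + 1) := by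
          intro k
          induction k with
          | zero => simp; linarith
          | succ k ihk =>
            have h4 : (s ^ (k + 1) + (k + 1) * (‖a i‖ * s ^ k)) * (‖a i‖ + s) ≤
                (‖a i‖ + s) ^ (k + 1) * (‖a i‖ + s) := by gcongr
            rw [← pow_succ] at h4
            refine le_trans ?_ h4
            push_cast
            have h5 : 0 ≤ ((k:ℝ) + 1) * (‖a i‖ * s ^ k) * ‖a i‖ := by positivity
            have h6 : (s ^ (k + 1) + (k + 1) * (‖a i‖ * s ^ k)) * (‖a i‖ + s) =
              s ^ (k + 1 + 1) + (k + 1 + 1) * (‖a i‖ * s ^ (k + 1)) +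
                ((k:ℝ) + 1) * (‖a i‖ * s ^ k) * ‖a i‖ := by ring
            rw [h6]
            linarith
        exact this m
      have hf : ((m + 1).factorial : ℝ) = (m + 1) * m.factorial := by
        rw [Nat.factorial_succ]; push_cast; ring
      have hf0 : (0:ℝ) < m.factorial := by exact_mod_cast Nat.factorial_pos m
      calc ‖es a S (m + 1)‖ + ‖a i‖ * ‖es a S m‖
          ≤ s ^ (m + 1) / (m + 1).factorial + ‖a i‖ * (s ^ m / m.factorial) := by gcongr
        _ = (s ^ (m + 1) + (m + 1) * (‖a i‖ * s ^ m)) / (m + 1).factorial := by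
            rw [hf]; field_simp
        _ ≤ _ := by gcongr

/-- Newton's identity for finite families. -/
lemma es_eq_newt (a : ι → ℂ) (S : Finset ι) (m : ℕ) :
    es a S m = newt (fun j => ∑ i ∈ S, a i ^ j) m := by
  classical
  have hev : ∀ k, MvPolynomial.aeval (fun i : S => a i) (MvPolynomial.esymm S ℂ k) = es a S k := by
    intro k
    rw [MvPolynomial.aeval_esymm_eq_multiset_esymm]
    rw [Finset.esymm_map_val]
    unfold es
    refine Finset.sum_bij (fun T _ => T.map (Function.Embedding.subtype _)) ?_ ?_ ?_ ?_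
    · intro T hT
      rw [Finset.mem_powersetCard] at hT ⊢
      refine ⟨fun x hx => ?_, by rw [Finset.card_map]; exact hT.2⟩
      obtain ⟨y, _, rfl⟩ := Finset.mem_map.mp hx
      exact y.2
    · intro T _ T' _ h
      exact Finset.map_injective _ h
    · intro T hT
      rw [Finset.mem_powersetCard] at hT
      refine ⟨T.subtype (· ∈ S), ?_, ?_⟩
      · rw [Finset.mem_powersetCard]
        refine ⟨Finset.subset_univ _, ?_⟩
        rw [Finset.card_subtype, Finset.filter_true_of_mem fun x hx => hT.1 hx]
        exact hT.2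
      · ext x
        simp only [Finset.mem_map, Finset.mem_subtype, Function.Embedding.coe_subtype,
          Subtype.exists, exists_and_right, exists_eq_right]
        exact ⟨fun ⟨_, h⟩ => h, fun h => ⟨hT.1 h, h⟩⟩
    · intro T _
      rw [Finset.prod_map]
      rfl
  have hps : ∀ k, MvPolynomial.aeval (fun i : S => a i) (MvPolynomial.psum S ℂ k) =
      ∑ i ∈ S, a i ^ k := by
    intro k
    rw [MvPolynomial.psum, map_sum]
    simp only [map_pow, MvPolynomial.aeval_X]
    exact Finset.sum_coe_sort S (fun i => a i ^ k)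
  induction m using Nat.strong_induction_on with
  | _ m ih =>
    cases m with
    | zero => rw [newt_zero, es_zero]
    | succ m =>
      have h1 := congrArg (MvPolynomial.aeval (fun i : S => a i))
        (MvPolynomial.mul_esymm_eq_sum S ℂ (m + 1))
      rw [map_mul, map_natCast, hev, map_mul, map_sum] at h1
      simp only [map_mul, hev, hps, map_pow, map_neg, map_one] at h1
      rw [newt_succ]
      have h2 : ∑ x ∈ Finset.HasAntidiagonal.antidiagonal (m + 1) with x.1 < m + 1,
          (-1) ^ x.1 * es a S x.1 * ∑ i ∈ S, a i ^ x.2 =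
          ∑ j ∈ Finset.range (m + 1), (-1) ^ (m - j) * es a S (m - j) * ∑ i ∈ S, a i ^ (j + 1) := by
        refine Finset.sum_bij' (fun x _ => m - x.1) (fun j _ => (m - j, j + 1)) ?_ ?_ ?_ ?_ ?_
        · rintro ⟨x, y⟩ hx
          simp only [Finset.mem_filter, Finset.HasAntidiagonal.mem_antidiagonal, Finset.mem_range] at *
          omega
        · intro j hj
          simp only [Finset.mem_filter, Finset.HasAntidiagonal.mem_antidiagonal, Finset.mem_range] at *
          omega
        · rintro ⟨x, y⟩ hx
          simp only [Finset.mem_filter, Finset.HasAntidiagonal.mem_antidiagonal, Prod.mk.injEq] at *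
          omega
        · intro j hj
          simp only [Finset.mem_range] at *
          omega
        · rintro ⟨x, y⟩ hx
          simp only [Finset.mem_filter, Finset.HasAntidiagonal.mem_antidiagonal] at hx
          have e1 : m - (m - x) = x := by omega
          have e2 : m - x + 1 = y := by omega
          simp only [e1, e2]
      rw [h2, Finset.mul_sum] at h1
      have h3 : ((m + 1 : ℕ) : ℂ) = (m : ℂ) + 1 := by push_cast; ring
      rw [h3] at h1
      have h4 : ((m : ℂ) + 1) ≠ 0 := by exact_mod_cast Nat.succ_ne_zero m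
      rw [smul_eq_mul, eq_inv_mul_iff_mul_eq₀ h4, h1]
      refine Finset.sum_congr rfl fun j hj => ?_
      rw [ih (m - j) (by omega)]
      have hj' : j ≤ m := by
        have := Finset.mem_range.mp hj; omega
      have h5 : (-1 : ℂ) ^ (m + 1 + 1) * (-1) ^ (m - j) = (-1) ^ j := by
        rw [← pow_add]
        have : m + 1 + 1 + (m - j) = j + 2 * (m - j + 1) := by omega
        rw [this, pow_add, pow_mul]; simp
      rw [← mul_assoc, ← mul_assoc, h5]

variable (a : ι → ℂ) (ha : Summable fun i => ‖a i‖)

include ha in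
lemma summable_pow (j : ℕ) : Summable fun i => ‖a i ^ (j + 1)‖ := by
  obtain ⟨C, hC⟩ : ∃ C, ∀ i, ‖a i‖ ≤ C := ⟨∑' i, ‖a i‖, fun i => ha.le_tsum i fun _ _ => norm_nonneg _⟩
  have : ∀ i, ‖a i ^ (j + 1)‖ ≤ C ^ j * ‖a i‖ := by
    intro i
    rw [norm_pow, pow_succ]
    gcongr
    exact hC i
  exact Summable.of_nonneg_of_le (fun _ => norm_nonneg _) this (ha.mul_left _)

/-- elementary symmetric functions of a summable family -/
def ee (m : ℕ) : ℂ := newt (fun j => ∑' i, a i ^ j) m

include ha in
lemma tendsto_newt (m : ℕ) : Tendsto (fun S : Finset ι => es a S m) atTop (𝓝 (ee a m)) := by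
  have key : ∀ m, Tendsto (fun S : Finset ι => newt (fun j => ∑ i ∈ S, a i ^ j) m) atTop
      (𝓝 (ee a m)) := by
    intro m
    induction m using Nat.strong_induction_on with
    | _ m ih =>
      cases m with
      | zero => simp only [ee, newt_zero]; exact tendsto_const_nhds
      | succ m =>
        simp only [ee, newt_succ]
        refine Tendsto.const_smul ?_ _
        refine tendsto_finsetSum _ fun j hj => ?_
        refine (Tendsto.const_mul _ (ih (m - j) (by omega))).mul ?_
        exact (summable_pow a ha j).of_norm.hasSum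
  simp only [es_eq_newt]
  exact key m

include ha in
lemma norm_ee_le (m : ℕ) : ‖ee a m‖ ≤ (∑' i, ‖a i‖) ^ m / m.factorial := by
  refine le_of_tendsto (tendsto_newt a ha m).norm (Eventually.of_forall fun S => ?_)
  refine (norm_es_le a S m).trans ?_
  gcongr
  exact ha.sum_le_tsum S fun _ _ => norm_nonneg _

/-- the elementary symmetric functions with one member deleted -/
def ed (x : ι) (m : ℕ) : ℂ := ∑ j ∈ Finset.range (m + 1), (-1) ^ j * ee a (m - j) * a x ^ j

lemma es_erase [DecidableEq ι] (S : Finset ι) (x : ι) (hx : x ∈ S) (m : ℕ) :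
    es a (S.erase x) m = ∑ j ∈ Finset.range (m + 1), (-1) ^ j * es a S (m - j) * a x ^ j := by
  induction m with
  | zero => simp [es_zero]
  | succ m ih =>
    have h1 := es_insert a (Finset.notMem_erase x S) m
    rw [Finset.insert_erase hx] at h1
    have h2 : es a (S.erase x) (m + 1) = es a S (m + 1) - a x * es a (S.erase x) m := by
      rw [h1]; ring
    have h3 : ∑ j ∈ Finset.range (m + 1 + 1), (-1) ^ j * es a S (m + 1 - j) * a x ^ j =
        ∑ j ∈ Finset.range (m + 1), (-1) ^ (j + 1) * es a S (m - j) * a x ^ (j + 1) +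
          es a S (m + 1) := by
      rw [Finset.sum_range_succ']
      simp
    have h4 : ∑ j ∈ Finset.range (m + 1), (-1) ^ (j + 1) * es a S (m - j) * a x ^ (j + 1) =
        -(a x * ∑ j ∈ Finset.range (m + 1), (-1) ^ j * es a S (m - j) * a x ^ j) := by
      rw [Finset.mul_sum, ← Finset.sum_neg_distrib]
      refine Finset.sum_congr rfl fun j _ => ?_
      ring
    rw [h2, ih, h3, h4]
    ring

include ha in
lemma norm_ed_le (x : ι) (m : ℕ) : ‖ed a x m‖ ≤ (∑' i, ‖a i‖) ^ m / m.factorial := by
  classical
  have h1 : Tendsto (fun S : Finset ι => ∑ j ∈ Finset.range (m + 1),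
      (-1) ^ j * es a S (m - j) * a x ^ j) atTop (𝓝 (ed a x m)) := by
    unfold ed
    refine tendsto_finsetSum _ fun j _ => ?_
    exact (Tendsto.const_mul _ (tendsto_newt a ha (m - j))).mul_const _
  refine le_of_tendsto h1.norm ?_
  filter_upwards [eventually_ge_atTop {x}] with S hS
  rw [← es_erase a S x (by simpa using hS)]
  refine (norm_es_le a _ m).trans ?_
  gcongr
  exact ha.sum_le_tsum _ fun _ _ => norm_nonneg _

/-- the infinite product as an alternating series -/
lemma prod_one_sub (S : Finset ι) :
    ∏ i ∈ S, (1 - a i) = ∑ m ∈ Finset.range (S.card + 1), (-1) ^ m * es a S m := by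
  have h1 : ∏ i ∈ S, (1 - a i) = ∏ i ∈ S, (1 + (-1) * a i) := by
    refine Finset.prod_congr rfl fun i _ => by ring
  rw [h1, Finset.prod_one_add, Finset.sum_powerset]
  refine Finset.sum_congr rfl fun m _ => ?_
  unfold es
  rw [Finset.mul_sum]
  refine Finset.sum_congr rfl fun T hT => ?_
  rw [Finset.prod_mul_distrib, Finset.prod_const, (Finset.mem_powersetCard.mp hT).2]

include ha in
lemma tendsto_alt : Tendsto (fun m => ∑ j ∈ Finset.range (m + 1), (-1) ^ j * ee a j) atTop
    (𝓝 (∏' i, (1 - a i))) := by
  classical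
  set A := ∑' i, ‖a i‖ with hA
  have hA0 : 0 ≤ A := tsum_nonneg fun _ => norm_nonneg _
  have hexp : Summable fun k : ℕ => A ^ k / k.factorial := Real.summable_pow_div_factorial A
  -- tails
  have htail : Tendsto (fun m => ∑' k, A ^ (k + (m + 1)) / ((k + (m + 1)).factorial : ℝ)) atTop (𝓝 0) := by
    have := tendsto_sum_nat_add (fun k : ℕ => A ^ k / (k.factorial : ℝ))
    exact this.comp (tendsto_add_atTop_nat 1)
  have hbound : ∀ m, ‖(∑ j ∈ Finset.range (m + 1), (-1) ^ j * ee a j) - ∏' i, (1 - a i)‖ ≤
      ∑' k, A ^ (k + (m + 1)) / ((k + (m + 1)).factorial : ℝ) := by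
    intro m
    have h1 : Tendsto (fun S : Finset ι => (∑ j ∈ Finset.range (m + 1), (-1) ^ j * es a S j) -
        ∏ i ∈ S, (1 - a i)) atTop
        (𝓝 ((∑ j ∈ Finset.range (m + 1), (-1) ^ j * ee a j) - ∏' i, (1 - a i))) := by
      refine Tendsto.sub ?_ ?_
      · exact tendsto_finsetSum _ fun j _ => Tendsto.const_mul _ (tendsto_newt a ha j)
      · have hm : Multipliable fun i => 1 - a i := by
          have h2 : Summable fun i => ‖-a i‖ := by simpa using ha
          have := multipliable_one_add_of_summable h2
          simpa [sub_eq_add_neg] using this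
        exact hm.hasProd
    refine le_of_tendsto h1.norm (Eventually.of_forall fun S => ?_)
    rw [prod_one_sub]
    -- difference of partial sums
    set N := max (m + 1) (S.card + 1) with hN
    have hzero : ∀ j, S.card < j → es a S j = 0 := by
      intro j hj
      unfold es
      rw [Finset.powersetCard_eq_empty.mpr hj, Finset.sum_empty]
    have e1 : ∑ j ∈ Finset.range (S.card + 1), (-1) ^ j * es a S j =
        ∑ j ∈ Finset.range N, (-1) ^ j * es a S j := by
      apply Finset.sum_subset
      · intro j hj
        rw [Finset.mem_range] at *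
        exact hj.trans_le (le_max_right _ _)
      · intro j _ hj
        rw [Finset.mem_range, not_lt] at hj
        rw [hzero j (by omega), mul_zero]
    have e2 : ∑ j ∈ Finset.range N, (-1) ^ j * es a S j =
        ∑ j ∈ Finset.range (m + 1), (-1) ^ j * es a S j +
        ∑ k ∈ Finset.range (N - (m + 1)), (-1) ^ (m + 1 + k) * es a S (m + 1 + k) := by
      rw [← Finset.sum_range_add_sum_Ico _ (le_max_left (m + 1) (S.card + 1)),
        Finset.sum_Ico_eq_sum_range]
    rw [e1, e2, sub_add_cancel_left, norm_neg]
    refine (norm_sum_le _ _).trans ?_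
    have hsh : Summable fun k : ℕ => A ^ (k + (m + 1)) / ((k + (m + 1)).factorial : ℝ) :=
      (summable_nat_add_iff (m + 1)).mpr hexp
    refine le_trans (Finset.sum_le_sum fun k _ => ?_)
      (hsh.sum_le_tsum (Finset.range (N - (m + 1))) fun _ _ => by positivity)
    rw [norm_mul, norm_pow, norm_neg, norm_one, one_pow, one_mul]
    rw [show m + 1 + k = k + (m + 1) by ring]
    refine (norm_es_le a S _).trans ?_
    gcongr
    exact ha.sum_le_tsum S fun _ _ => norm_nonneg _
  rw [tendsto_iff_norm_sub_tendsto_zero]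
  exact squeeze_zero (fun _ => norm_nonneg _) hbound htail

end fam

end FQ
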