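import Pool.Agent.Helper17.FQLin
import Pool.Agent.Helper17.FQSym
import Pool.Agent.Helper17.FQLoc

/-!
# The zero set of the null ideal is the point set (given the Jacobian condition)
-/

open scoped BigOperators SchwartzMap FourierTransform RealInnerProductSpace ContDiff
open MeasureTheory Complex Filter Topology

noncomputable section

namespace FQ

variable {d n : ℕ}

lemma newt_congr {R : Type*} [CommRing R] [Algebra ℂ R] {P P' : ℕ → R}
    (h : ∀ j, P (j + 1) = P' (j + 1)) (m : ℕ) : newt P m = newt P' m := by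
  induction m using Nat.strong_induction_on with
  | _ m ih =>
    cases m with
    | zero => rw [newt_zero, newt_zero]
    | succ m =>
      rw [newt_succ, newt_succ]
      congr 1
      refine Finset.sum_congr rfl fun j hj => ?_
      rw [ih (m - j) (by omega), h j]

/-- convolution powers -/
def cpow (ρ : E d → ℂ) : ℕ → (E d → ℂ)
  | 0 => ρ
  | j + 1 => cv volume ρ (cpow ρ j)

lemma TF.cpow {ρ : E d → ℂ} {η : E d} {r : ℝ} (H : TF ρ η r) (j : ℕ) :
    TF (FQ.cpow ρ j) (((j : ℝ) + 1) • η) ((j + 1) * r) := by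
  induction j with
  | zero => simpa [FQ.cpow] using H
  | succ j ih =>
    have h1 := ih.conv H
    have e1 : FQ.cpow ρ (j + 1) = FQ.cv volume ρ (FQ.cpow ρ j) := rfl
    rw [e1]
    have e2 : (((j + 1 : ℕ) : ℝ) + 1) • η = η + ((j : ℝ) + 1) • η := by
      push_cast; module
    have e3 : (((j + 1 : ℕ) : ℝ) + 1) * r = r + ((j : ℝ) + 1) * r := by
      push_cast; ring
    rw [e2, e3]
    exact h1

lemma psi_cpow {ρ : E d → ℂ} {η : E d} {r : ℝ} (H : TF ρ η r) (j : ℕ) (z : Fin d → ℂ) :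
    psi (cpow ρ j) z = psi ρ z ^ (j + 1) := by
  induction j with
  | zero => simp [cpow]
  | succ j ih =>
    have e1 : cpow ρ (j + 1) = cv volume ρ (cpow ρ j) := rfl
    rw [e1, psi_conv (H.cpow j) H, ih, pow_succ (psi ρ z) (j + 1), mul_comm]

lemma card_int_ball (n : ℕ) {R : ℝ} (hR : 0 ≤ R) (s : Finset (Gm n)) (hs : ∀ q ∈ s, ‖q‖ ≤ R) :
    (s.card : ℝ) ≤ Real.exp (2 * n * R) := by
  have hsub : s ⊆ Fintype.piFinset (fun _ : Fin n => Finset.Icc (-⌊R⌋) ⌊R⌋) := by
    intro q hq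
    rw [Fintype.mem_piFinset]
    intro i
    have h1 := (norm_le_pi_norm q i).trans (hs q hq)
    rw [Int.norm_eq_abs] at h1
    have h2 : |q i| ≤ ⌊R⌋ := by
      rw [Int.le_floor]; exact_mod_cast h1
    rw [Finset.mem_Icc]
    exact abs_le.mp h2
  have h1 := Finset.card_le_card hsub
  rw [Fintype.card_piFinset] at h1
  simp only [Int.card_Icc, Finset.prod_const, Finset.card_univ, Fintype.card_fin] at h1
  have h0 : 0 ≤ ⌊R⌋ := Int.floor_nonneg.mpr hR
  have h2 : ((⌊R⌋ + 1 - -⌊R⌋).toNat : ℝ) ≤ Real.exp (2 * R) := by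
    have h3 : ((⌊R⌋ + 1 - -⌊R⌋).toNat : ℤ) = 2 * ⌊R⌋ + 1 := by
      rw [Int.toNat_of_nonneg (by omega)]; ring
    have h4 : ((⌊R⌋ + 1 - -⌊R⌋).toNat : ℝ) = 2 * (⌊R⌋ : ℝ) + 1 := by
      rw [← Int.cast_natCast (R := ℝ), h3]
      push_cast
      ring
    rw [h4]
    have h5 := Int.floor_le R
    have h6 := Real.add_one_le_exp (2 * R)
    linarith
  calc (s.card : ℝ) ≤ (((⌊R⌋ + 1 - -⌊R⌋).toNat ^ n : ℕ) : ℝ) := by exact_mod_cast h1
    _ = ((⌊R⌋ + 1 - -⌊R⌋).toNat : ℝ) ^ n := by push_cast; ring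
    _ ≤ Real.exp (2 * R) ^ n := by gcongr
    _ = _ := by rw [← Real.exp_nat_mul]; congr 1; ring

/-- uniform weight sums over the point set -/
lemma FQS.wt_sum (F : FQS d) : ∃ C : ℝ, 0 ≤ C ∧ ∀ t : E d,
    Summable (fun x : F.L => wt ((x : E d) - t)) ∧ ∑' x : F.L, wt ((x : E d) - t) ≤ C := by
  obtain ⟨K, hK⟩ := F.cell_bound
  refine ⟨Fintype.card (KK d K) * (2 ^ (2 * d) * Clat d), by
    have := Clat_pos d; positivity, fun t => ?_⟩
  obtain ⟨y, b, lab, hinj, hcl, hy, hb, hb0⟩ := labelling K (F.tr t) (hK t)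
  have hcl' : ∀ j, IsCl (y j) (off j) (3/2) := fun j m i => (hcl j m i).trans (by norm_num)
  have h1 : Summable fun p : KK d K × (Fin d → ℤ) => wt (y p.1 p.2) := by
    rw [summable_prod_of_nonneg (fun _ => wt_nonneg _)]
    refine ⟨fun j => ?_, (hasSum_fintype _).summable⟩
    have := (cl_sum (hcl' j) 0).1
    simpa using this
  have h2 : ∑' p : KK d K × (Fin d → ℤ), wt (y p.1 p.2) ≤
      Fintype.card (KK d K) * (2 ^ (2 * d) * Clat d) := by
    rw [h1.tsum_prod, tsum_fintype]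
    calc ∑ j, ∑' m, wt (y j m) ≤ ∑ _j : KK d K, (2 ^ (2 * d) * Clat d) := by
          refine Finset.sum_le_sum fun j _ => ?_
          have := (cl_sum (hcl' j) 0).2
          simpa using this
      _ = _ := by simp
  -- transfer
  have h3 : Summable fun x : F.tr t => wt (x : E d) := by
    have := h1.comp_injective hinj
    refine this.congr fun x => ?_
    simp only [Function.comp_apply]
    rw [hy x]
  have h4 : ∑' x : F.tr t, wt (x : E d) ≤ ∑' p : KK d K × (Fin d → ℤ), wt (y p.1 p.2) := by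
    have e : (fun x : F.tr t => wt (x : E d)) =
        (fun p : KK d K × (Fin d → ℤ) => wt (y p.1 p.2)) ∘ lab := by
      ext x; simp only [Function.comp_apply]; rw [hy x]
    rw [e]
    exact tsum_comp_le_tsum_of_inj h1 (fun _ => wt_nonneg _) hinj
  let e : F.L ≃ F.tr t :=
    { toFun := fun x => ⟨x - t, by simp [FQS.tr]⟩
      invFun := fun x => ⟨x + t, x.2⟩
      left_inv := fun x => by ext; simp
      right_inv := fun x => by ext; simp }
  have h5 : Summable (fun x : F.L => wt ((x : E d) - t)) := by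
    have := e.summable_iff.mpr h3
    exact this
  refine ⟨h5, ?_⟩
  have h6 : ∑' x : F.L, wt ((x : E d) - t) = ∑' x : F.tr t, wt (x : E d) := by
    rw [← e.tsum_eq]; rfl
  rw [h6]
  exact h4.trans h2

/-- choice of the kernel -/
lemma exists_kernel (S : Set (E d)) (z₀ : Fin d → ℂ) (hz₀ : z₀ ∉ cx '' S) :
    ∃ (ρ : E d → ℂ) (η : E d) (r : ℝ), 0 < r ∧ TF ρ η r ∧ psi ρ 0 = 1 ∧
      ∀ x ∈ S, 1 - psi ρ (cx x - z₀) ≠ 0 := by
  obtain ⟨b, hb, -, hb1, hb2, -⟩ := exists_bump d (r := 1) one_pos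
  by_cases him : ∀ j, (z₀ j).im = 0
  · -- real point
    set y : E d := WithLp.toLp 2 (fun j => (z₀ j).re) with hy
    have hzy : z₀ = cx y := by
      ext j
      apply Complex.ext
      · simp [hy]
      · simp [him j]
    refine ⟨b, 0, 1, one_pos, hb, hb1, fun x hx => ?_⟩
    have hxy : x - y ≠ 0 := by
      intro h
      apply hz₀
      exact ⟨x, hx, by rw [hzy, sub_eq_zero.mp h]⟩
    obtain ⟨a, ha, -, ha2⟩ := hb2 (x - y)
    rw [hzy, ← cx_sub, ha]
    have := ha2 hxy
    intro h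
    have h2 : (1 : ℂ) = a := sub_eq_zero.mp h
    have h3 : (1 : ℝ) = a := by exact_mod_cast h2
    linarith
  · push Not at him
    obtain ⟨j₀, hj₀⟩ := him
    set v : E d := WithLp.toLp 2 (fun j => (z₀ j).im) with hv
    have hv0 : v ≠ 0 := by
      intro h
      apply hj₀
      have : v j₀ = 0 := by rw [h]; simp
      simpa [hv] using this
    have hvn : 0 < ‖v‖ ^ 2 := by
      have := norm_pos_iff.mpr hv0; positivity
    -- uniform bound
    have H := hb.mul_ex z₀
    obtain ⟨C, hC, hdec⟩ := H.decay 0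
    have hbd : ∀ x : E d, ‖psi b (cx x - z₀)‖ ≤ C := by
      intro x
      rw [psi_cx_sub, ← psi_cx]
      simpa using hdec x
    set c : ℝ := C / ‖v‖ ^ 2 with hc
    refine ⟨fun ξ => b (ξ + (-(c • v))), 0 - (-(c • v)), 1, one_pos, hb.shift _, ?_, ?_⟩
    · rw [psi_shift, hb1]; simp
    · intro x _
      rw [psi_shift]
      have h1 : ‖ex (-(c • v)) (cx x - z₀)‖ = Real.exp (-2 * Real.pi * (c * ‖v‖ ^ 2)) := by
        rw [norm_ex]
        congr 2
        rw [EuclideanSpace.norm_sq_eq, Finset.mul_sum]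
        refine Finset.sum_congr rfl fun j _ => ?_
        simp [hv]
        ring
      have h2 : c * ‖v‖ ^ 2 = C := by rw [hc]; field_simp
      have h3 : ‖ex (-(c • v)) (cx x - z₀) * psi b (cx x - z₀)‖ < 1 := by
        rw [norm_mul, h1, h2]
        have h4 : Real.exp (-2 * Real.pi * C) * C < 1 := by
          have h5 := Real.add_one_le_exp (2 * Real.pi * C)
          have h6 : Real.exp (-2 * Real.pi * C) * Real.exp (2 * Real.pi * C) = 1 := by
            rw [← Real.exp_add]; simp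
          have h7 : C < Real.exp (2 * Real.pi * C) := by
            have := Real.pi_gt_three
            nlinarith
          have h8 := Real.exp_pos (-2 * Real.pi * C)
          nlinarith
        refine lt_of_le_of_lt ?_ h4
        exact mul_le_mul_of_nonneg_left (hbd x) (Real.exp_pos _).le
      intro h
      have h9 := sub_eq_zero.mp h
      rw [← h9] at h3
      simp at h3

namespace FQG

variable (G : FQG d n)

/-- **Main theorem, given the Jacobian condition.** -/
theorem zero_set (hJ : G.HJ) (z₀ : Fin d → ℂ) (hz₀ : ∀ f ∈ G.I, G.ev z₀ f = 0) :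
    z₀ ∈ cx '' G.F.L := by
  classical
  by_contra hnot
  obtain ⟨ρ, η, r, hr, hρ, hρ0, hker⟩ := exists_kernel G.F.L z₀ hnot
  -- the point as a character
  have hIle : G.I ≤ RingHom.ker (G.ev z₀).toRingHom := fun f hf => hz₀ f hf
  have hprime : (RingHom.ker (G.ev z₀).toRingHom).IsPrime := RingHom.ker_isPrime _
  obtain ⟨P, hPmin, hPle⟩ := Ideal.exists_minimalPrimes_le hIle
  have hP : P.IsPrime := hPmin.1.1
  obtain ⟨F, hF, hFP⟩ := hJ P hPmin
  obtain ⟨Θ, hΘ1, hΘ2, C₀, c₀, hC₀, hc₀, hΘ3⟩ := local_functional P (G.ev z₀) hPle (G.Jac F) hFP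
  obtain ⟨C, hC, hlin⟩ := G.linear_bound hJ
  -- the elements
  set PP : ℕ → A n := fun j => match j with
    | 0 => 0
    | j + 1 => G.el (cpow ρ j) with hPP
  set e : ℕ → A n := newt PP with he
  set M : ℕ → A n := fun j => G.Ky F (cpow ρ j) with hM
  set N : ℕ → A n := fun m => ∑ j ∈ Finset.range (m + 1), (-1) ^ (m - j) * e (m - j) * M j with hN
  set S : ℕ → A n := fun m => ∑ j ∈ Finset.range (m + 1), (-1) ^ j * e j with hS
  -- families
  set a : (Fin d → ℂ) → G.F.L → ℂ := fun t x => psi ρ (cx x - t) with ha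
  have haz : Summable fun x => ‖a z₀ x‖ := by
    have := G.F.summ ρ η r hρ z₀
    exact this.norm
  have hat : ∀ t, Summable fun x => ‖a t x‖ := fun t => (G.F.summ ρ η r hρ t).norm
  have hev_e : ∀ t m, G.ev t (e m) = ee (a t) m := by
    intro t m
    rw [he, map_newt, ee]
    apply newt_congr
    intro j
    simp only [hPP]
    rw [← G.fq_el (hρ.cpow j)]
    congr 1
    ext x
    rw [psi_cpow hρ]
  -- uniform bound of the l1 norms on real points
  obtain ⟨C₁, hC₁, hwt⟩ := G.F.wt_sum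
  obtain ⟨C₂, hC₂, hdec⟩ := hρ.decay'
  set A₀ := C₂ * C₁ with hA₀
  have hA₀0 : 0 ≤ A₀ := by positivity
  have hAt : ∀ t : E d, ∑' x, ‖a (cx t) x‖ ≤ A₀ := by
    intro t
    have h1 : ∀ x : G.F.L, ‖a (cx t) x‖ ≤ C₂ * wt ((x : E d) - t) := by
      intro x
      simp only [ha]
      rw [← cx_sub]
      exact hdec _
    refine ((hat _).tsum_le_tsum h1 ((hwt t).1.mul_left _)).trans ?_
    rw [tsum_mul_left]
    exact mul_le_mul_of_nonneg_left (hwt t).2 hC₂.le
  -- values of `N`
  have hev_M : ∀ t j, G.ev t (M j) = ∑' x : G.F.L, G.Dl F t (cx x - t) * a t x ^ (j + 1) := by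
    intro t j
    simp only [hM]
    rw [G.ev_Ky F (hρ.cpow j)]
    congr 1; ext x
    rw [psi_cpow hρ]
  -- bound of Dl at real points
  set D₁ : ℝ := ∑ Q ∈ tup F, ‖G.tc F Q‖ with hD₁
  have hD₁0 : 0 ≤ D₁ := Finset.sum_nonneg fun _ _ => norm_nonneg _
  have hDl : ∀ t x : E d, ‖G.Dl F (cx t) (cx x - cx t)‖ ≤ D₁ := by
    intro t x
    rw [G.Dl_expand]
    refine (norm_sum_le _ _).trans (Finset.sum_le_sum fun Q _ => ?_)
    rw [norm_mul, norm_mul, norm_ex_cx, mul_one, norm_prod]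
    refine mul_le_of_le_one_right (norm_nonneg _) ?_
    refine Finset.prod_le_one (fun _ _ => norm_nonneg _) fun i _ => ?_
    rw [← cx_sub]
    exact norm_kap_cx_le _ _
  have hev_N : ∀ (t : E d) m, ‖G.ev (cx t) (N m)‖ ≤ D₁ * A₀ * (A₀ ^ m / m.factorial) := by
    intro t m
    have hsum : ∀ j, Summable fun x : G.F.L => G.Dl F (cx t) (cx x - cx t) * a (cx t) x ^ (j + 1) := by
      intro j
      apply Summable.of_norm
      have := (summable_pow (a (cx t)) (hat (cx t)) j).mul_left D₁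
      refine Summable.of_nonneg_of_le (fun _ => norm_nonneg _) (fun x => ?_) this
      rw [norm_mul]
      exact mul_le_mul_of_nonneg_right (hDl t x) (norm_nonneg _)
    have e1 : G.ev (cx t) (N m) = (-1) ^ m * ∑' x : G.F.L,
        G.Dl F (cx t) (cx x - cx t) * a (cx t) x * ed (a (cx t)) x m := by
      simp only [hN]
      rw [map_sum]
      have e2 : ∀ x : G.F.L, G.Dl F (cx t) (cx x - cx t) * a (cx t) x * ed (a (cx t)) x m =
          ∑ j ∈ Finset.range (m + 1), (-1) ^ j * ee (a (cx t)) (m - j) *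
            (G.Dl F (cx t) (cx x - cx t) * a (cx t) x ^ (j + 1)) := by
        intro x
        unfold ed
        rw [Finset.mul_sum]
        refine Finset.sum_congr rfl fun j _ => ?_
        ring
      simp only [e2]
      rw [Summable.tsum_finsetSum (fun j _ => (hsum j).mul_left _), Finset.mul_sum]
      refine Finset.sum_congr rfl fun j hj => ?_
      rw [map_mul, map_mul, hev_e, hev_M, tsum_mul_left, map_pow, map_neg, map_one]
      have hjm : j ≤ m := by have := Finset.mem_range.mp hj; omega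
      have h3 : (-1 : ℂ) ^ (m - j) = (-1) ^ m * (-1) ^ j := by
        rw [← pow_add]
        have : m + j = (m - j) + 2 * j := by omega
        rw [this, pow_add, pow_mul]; simp
      rw [h3]; ring
    rw [e1, norm_mul, norm_pow, norm_neg, norm_one, one_pow, one_mul]
    have h4 : ∀ x : G.F.L, ‖G.Dl F (cx t) (cx x - cx t) * a (cx t) x * ed (a (cx t)) x m‖ ≤
        D₁ * (A₀ ^ m / m.factorial) * ‖a (cx t) x‖ := by
      intro x
      rw [norm_mul, norm_mul]
      have h5 : ‖ed (a (cx t)) x m‖ ≤ A₀ ^ m / m.factorial := by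
        refine (norm_ed_le _ (hat (cx t)) x m).trans ?_
        have h6 : 0 ≤ ∑' i, ‖a (cx t) i‖ := tsum_nonneg fun _ => norm_nonneg _
        have := hAt t
        gcongr
      calc ‖G.Dl F (cx t) (cx x - cx t)‖ * ‖a (cx t) x‖ * ‖ed (a (cx t)) x m‖
          ≤ D₁ * ‖a (cx t) x‖ * (A₀ ^ m / m.factorial) := by
            have := hDl t x
            gcongr
        _ = _ := by ring
    have h7 : Summable fun x : G.F.L => D₁ * (A₀ ^ m / m.factorial) * ‖a (cx t) x‖ :=
      (hat (cx t)).mul_left _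
    have h8 := Summable.of_nonneg_of_le (fun _ => norm_nonneg _) h4 h7
    refine (norm_tsum_le_tsum_norm h8).trans ((h8.tsum_le_tsum h4 h7).trans ?_)
    rw [tsum_mul_left]
    calc D₁ * (A₀ ^ m / m.factorial) * ∑' x, ‖a (cx t) x‖ ≤ D₁ * (A₀ ^ m / m.factorial) * A₀ := by
          have := hAt t
          gcongr
      _ = _ := by ring
  -- membership
  have hNI : ∀ m, G.Jac F * S m - N m ∈ G.I := by
    intro m
    have h1 : ∀ j, G.Jac F - M j ∈ G.I := by
      intro j
      have := G.key F hF (hρ.cpow j)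
      rw [psi_cpow hρ, hρ0, one_pow, ← AddMonoidAlgebra.one_def, mul_one] at this
      exact this
    have h2 : G.Jac F * S m - N m =
        ∑ j ∈ Finset.range (m + 1), (-1) ^ (m - j) * e (m - j) * (G.Jac F - M j) := by
      simp only [hS, hN]
      rw [Finset.mul_sum]
      have h3 : ∑ j ∈ Finset.range (m + 1), G.Jac F * ((-1) ^ j * e j) =
          ∑ j ∈ Finset.range (m + 1), G.Jac F * ((-1) ^ (m - j) * e (m - j)) := by
        rw [← Finset.sum_range_reflect]
        refine Finset.sum_congr rfl fun j hj => ?_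
        have : m + 1 - 1 - j = m - j := by omega
        rw [this]
      rw [h3, ← Finset.sum_sub_distrib]
      refine Finset.sum_congr rfl fun j _ => ?_
      ring
    rw [h2]
    exact G.I.sum_mem fun j _ => G.I.mul_mem_left _ (h1 j)
  -- degrees
  set ρ₀ : ℝ := r + ‖η‖ with hρ₀
  have hρ₀0 : 0 ≤ ρ₀ := by positivity
  set B₁ : ℝ := C * (1 + ρ₀) with hB₁
  have hB₁0 : 0 ≤ B₁ := by positivity
  have hdegP : ∀ j, SuppIn (PP (j + 1)) {q | ‖q‖ ≤ B₁ * (j + 1)} := by
    intro j
    simp only [hPP]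
    refine (G.suppIn_el (hρ.cpow j)).mono ?_
    rintro q ⟨hq1, hq2⟩
    have h1 := hlin q hq1
    have h2 : ‖G.L q‖ ≤ (j + 1) * ρ₀ := by
      have h3 : ‖G.L q‖ ≤ ‖G.L q - ((j:ℝ) + 1) • η‖ + ‖((j:ℝ) + 1) • η‖ := by
        calc ‖G.L q‖ = ‖(G.L q - ((j:ℝ) + 1) • η) + ((j:ℝ) + 1) • η‖ := by congr 1; abel
          _ ≤ _ := norm_add_le _ _
      rw [norm_smul, Real.norm_eq_abs, abs_of_pos (by positivity : (0:ℝ) < (j:ℝ) + 1)] at h3
      rw [hρ₀]; linarith
    calc ‖q‖ ≤ C * (1 + ‖G.L q‖) := h1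
      _ ≤ C * (1 + (j + 1) * ρ₀) := by gcongr
      _ ≤ B₁ * (j + 1) := by
          rw [hB₁]
          have h4 : (0:ℝ) ≤ j := by positivity
          have h5 : 0 ≤ C * j := by positivity
          nlinarith
  have hdege : ∀ m, SuppIn (e m) {q | ‖q‖ ≤ B₁ * m} := by
    intro m
    induction m using Nat.strong_induction_on with
    | _ m ih =>
      cases m with
      | zero =>
        rw [he, newt_zero, AddMonoidAlgebra.one_def]
        apply SuppIn.single
        simp
      | succ m =>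
        rw [he, newt_succ]
        apply SuppIn.smul
        apply SuppIn.sum
        intro j hj
        have hjm : j ≤ m := by have := Finset.mem_range.mp hj; omega
        have h1 := ih (m - j) (by omega)
        have h2 : SuppIn ((-1) ^ j * newt PP (m - j)) {q | ‖q‖ ≤ B₁ * ((m - j : ℕ) : ℝ)} := by
          rcases neg_one_pow_eq_or (A n) j with h | h
          · rw [h, one_mul]; exact h1
          · rw [h, neg_one_mul]; exact h1.neg
        refine h2.mul (hdegP j) ?_
        intro p hp q hq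
        simp only [Set.mem_ofPred_eq] at *
        refine (norm_add_le _ _).trans ?_
        have h3 : (((m - j : ℕ) : ℝ)) = m - j := by push_cast [hjm]; ring
        rw [h3] at hp
        push_cast
        nlinarith
  -- degree of Ky
  obtain ⟨B₂, hB₂0, hB₂⟩ : ∃ B₂ : ℝ, 0 ≤ B₂ ∧ ∀ Q ∈ tup F, ‖∑ i, Q i‖ ≤ B₂ := by
    refine ⟨∑ Q ∈ tup F, ‖∑ i, Q i‖, Finset.sum_nonneg fun _ _ => norm_nonneg _, fun Q hQ => ?_⟩
    exact Finset.single_le_sum (f := fun Q : Fin d → Gm n => ‖∑ i, Q i‖)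
      (fun _ _ => norm_nonneg _) hQ
  set B₃ : ℝ := C * (1 + ρ₀ + G.tN F) + B₂ with hB₃
  have htN := G.tN_nonneg F
  have hB₃0 : 0 ≤ B₃ := by positivity
  have hdegM : ∀ j, SuppIn (M j) {q | ‖q‖ ≤ B₃ * (j + 1)} := by
    intro j
    refine (G.suppIn_Ky F (hρ.cpow j)).mono ?_
    rintro p ⟨Q, hQ, q, rfl, hq1, hq2⟩
    have h1 := hlin q hq1
    have h2 : ‖G.L q‖ ≤ (j + 1) * ρ₀ + G.tN F := by
      have h3 : ‖G.L q‖ ≤ ‖G.L q - ((j:ℝ) + 1) • η‖ + ‖((j:ℝ) + 1) • η‖ := by
        calc ‖G.L q‖ = ‖(G.L q - ((j:ℝ) + 1) • η) + ((j:ℝ) + 1) • η‖ := by congr 1; abel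
          _ ≤ _ := norm_add_le _ _
      rw [norm_smul, Real.norm_eq_abs, abs_of_pos (by positivity : (0:ℝ) < (j:ℝ) + 1)] at h3
      rw [hρ₀]; linarith
    have h4 := hB₂ Q hQ
    simp only [Set.mem_ofPred_eq]
    calc ‖(∑ i, Q i) + q‖ ≤ ‖∑ i, Q i‖ + ‖q‖ := norm_add_le _ _
      _ ≤ B₂ + C * (1 + ((j + 1) * ρ₀ + G.tN F)) := by
          refine add_le_add h4 (h1.trans ?_)
          gcongr
      _ ≤ B₃ * (j + 1) := by
          rw [hB₃]
          have h5 : (0:ℝ) ≤ j := by positivity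
          have h6 : 0 ≤ C * j := by positivity
          have h7 : 0 ≤ C * G.tN F * j := by positivity
          have h8 : 0 ≤ B₂ * j := by positivity
          nlinarith
  set B₄ : ℝ := B₁ + B₃ with hB₄
  have hB₄0 : 0 ≤ B₄ := by positivity
  have hdegN : ∀ m, SuppIn (N m) {q | ‖q‖ ≤ B₄ * (m + 1)} := by
    intro m
    simp only [hN]
    apply SuppIn.sum
    intro j hj
    have hjm : j ≤ m := by have := Finset.mem_range.mp hj; omega
    have h2 : SuppIn ((-1) ^ (m - j) * e (m - j)) {q | ‖q‖ ≤ B₁ * ((m - j : ℕ) : ℝ)} := by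
      rcases neg_one_pow_eq_or (A n) (m - j) with h | h
      · rw [h, one_mul]; exact hdege _
      · rw [h, neg_one_mul]; exact (hdege _).neg
    refine h2.mul (hdegM j) ?_
    intro p hp q hq
    simp only [Set.mem_ofPred_eq] at *
    refine (norm_add_le _ _).trans ?_
    have h3 : (((m - j : ℕ) : ℝ)) = m - j := by push_cast [hjm]; ring
    rw [h3] at hp
    have h4 : (j : ℝ) ≤ m := by exact_mod_cast hjm
    have h5 : (0:ℝ) ≤ j := by positivity
    have h6 : 0 ≤ B₁ * (j + 1) := by positivity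
    have h7 : 0 ≤ B₃ * (m - j) := mul_nonneg hB₃0 (by linarith)
    rw [hB₄]
    nlinarith
  -- bound of Θ (N m)
  have hΘN : ∀ m, ‖Θ (N m)‖ ≤ (D₁ * A₀ * C₀ * Real.exp ((2 * n + c₀) * B₄)) *
      ((A₀ * Real.exp ((2 * n + c₀) * B₄)) ^ m / m.factorial) := by
    intro m
    have h1 : Θ (N m) = ∑ q ∈ (N m).coeff.support, (N m).coeff q * Θ (AddMonoidAlgebra.single q 1) := by
      conv_lhs => rw [eq_sum_single (N m)]
      rw [map_sum]
      refine Finset.sum_congr rfl fun q _ => ?_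
      rw [single_eq_smul, map_smul, smul_eq_mul]
    rw [h1]
    set Rm : ℝ := B₄ * (m + 1) with hRm
    have hRm0 : 0 ≤ Rm := by positivity
    have h2 : ∀ q ∈ (N m).coeff.support, ‖q‖ ≤ Rm := fun q hq =>
      hdegN m q (by simpa using hq)
    have h3 : ∀ q ∈ (N m).coeff.support, ‖(N m).coeff q * Θ (AddMonoidAlgebra.single q 1)‖ ≤
        D₁ * A₀ * (A₀ ^ m / m.factorial) * (C₀ * Real.exp (c₀ * Rm)) := by
      intro q hq
      rw [norm_mul]
      refine mul_le_mul (G.norm_coeff_le (N m) (fun t => hev_N t m) q) ?_ (norm_nonneg _)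
        (by positivity)
      refine (hΘ3 q).trans ?_
      have := h2 q hq
      gcongr
    refine (norm_sum_le _ _).trans ((Finset.sum_le_sum h3).trans ?_)
    rw [Finset.sum_const, nsmul_eq_mul]
    have h4 := card_int_ball n hRm0 _ h2
    calc ((N m).coeff.support.card : ℝ) * (D₁ * A₀ * (A₀ ^ m / m.factorial) * (C₀ * Real.exp (c₀ * Rm)))
        ≤ Real.exp (2 * n * Rm) * (D₁ * A₀ * (A₀ ^ m / m.factorial) * (C₀ * Real.exp (c₀ * Rm))) := by
          gcongr
      _ = D₁ * A₀ * C₀ * (A₀ ^ m / m.factorial) * (Real.exp (2 * n * Rm) * Real.exp (c₀ * Rm)) := by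
          ring
      _ = D₁ * A₀ * C₀ * (A₀ ^ m / m.factorial) *
            (Real.exp ((2 * n + c₀) * B₄) ^ m * Real.exp ((2 * n + c₀) * B₄)) := by
          rw [← Real.exp_add, ← Real.exp_nat_mul, ← Real.exp_add]
          congr 2
          rw [hRm]; ring
      _ = _ := by rw [mul_pow]; ring
  have hlim0 : Tendsto (fun m => Θ (N m)) atTop (𝓝 0) := by
    rw [tendsto_zero_iff_norm_tendsto_zero]
    refine squeeze_zero (fun _ => norm_nonneg _) hΘN ?_
    have h1 := FloorSemiring.tendsto_pow_div_factorial_atTop (A₀ * Real.exp ((2 * n + c₀) * B₄))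
    have h2 := h1.const_mul (D₁ * A₀ * C₀ * Real.exp ((2 * n + c₀) * B₄))
    rwa [mul_zero] at h2
  have hval : ∀ m, G.ev z₀ (S m) = Θ (N m) := by
    intro m
    rw [← hΘ2 (S m)]
    have h1 := hΘ1 _ (hPmin.1.2 (hNI m))
    rw [map_sub, sub_eq_zero] at h1
    exact h1
  have hS' : ∀ m, G.ev z₀ (S m) = ∑ j ∈ Finset.range (m + 1), (-1) ^ j * ee (a z₀) j := by
    intro m
    simp only [hS]
    rw [map_sum]
    refine Finset.sum_congr rfl fun j _ => ?_
    rw [map_mul, hev_e, map_pow, map_neg, map_one]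
  have hlim1 := tendsto_alt (a z₀) haz
  have hlim2 : Tendsto (fun m => ∑ j ∈ Finset.range (m + 1), (-1) ^ j * ee (a z₀) j) atTop (𝓝 0) := by
    refine hlim0.congr fun m => ?_
    rw [← hval, hS']
  have hzero := tendsto_nhds_unique hlim1 hlim2
  have hne : ∏' x, (1 + -(a z₀ x)) ≠ 0 := by
    apply tprod_one_add_ne_zero_of_summable
    · intro x
      rw [← sub_eq_add_neg]
      exact hker x x.2
    · simpa using haz
  apply hne
  simpa [sub_eq_add_neg] using hzero

end FQG

end FQ
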