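import Pool.Agent.Helper17.FQField

/-!
# Flow curves inside the real zero set of the null ideal
-/

open scoped BigOperators SchwartzMap FourierTransform RealInnerProductSpace ContDiff
open MeasureTheory Complex Filter Topology

noncomputable section

namespace FQ

variable {d n : ℕ}

lemma norm_ex_sub_le (p x y : E d) : ‖ex p (cx x) - ex p (cx y)‖ ≤ 2 * Real.pi * ‖p‖ * ‖x - y‖ := by
  have h1 : ex p (cx x) - ex p (cx y) = ex p (cx y) * (ex p (cx (x - y)) - 1) := by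
    rw [cx_sub, ex_sub_right]
    have := ex_ne_zero p (cx y)
    field_simp
  rw [h1, norm_mul, norm_ex_cx, one_mul, ex_cx, mul_comm _ Complex.I]
  refine (Real.norm_exp_I_mul_ofReal_sub_one_le).trans ?_
  rw [Real.norm_eq_abs, abs_mul, abs_of_pos (by positivity : (0:ℝ) < 2 * Real.pi), mul_assoc (2 * Real.pi)]
  exact mul_le_mul_of_nonneg_left (abs_real_inner_le_norm _ _) (by positivity)

lemma hasDerivWithinAt_ex (p : E d) {γ : ℝ → E d} {v : E d} {s : Set ℝ} {t : ℝ}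
    (h : HasDerivWithinAt γ v s t) :
    HasDerivWithinAt (fun t => ex p (cx (γ t)))
      (2 * Real.pi * Complex.I * (⟪p, v⟫ : ℝ) * ex p (cx (γ t))) s t := by
  have h1 : HasDerivWithinAt (fun t => (⟪p, γ t⟫ : ℝ)) (⟪p, v⟫ : ℝ) s t :=
    (innerSL ℝ p).hasFDerivAt.comp_hasDerivWithinAt t h
  have h2 : HasDerivWithinAt (fun t => (((⟪p, γ t⟫ : ℝ)) : ℂ)) (((⟪p, v⟫ : ℝ)) : ℂ) s t :=
    h1.ofReal_comp
  have h3 := (h2.const_mul (2 * Real.pi * Complex.I)).cexp
  have e1 : (fun t => ex p (cx (γ t))) = fun t => Complex.exp (2 * Real.pi * Complex.I * ((⟪p, γ t⟫ : ℝ) : ℂ)) := by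
    ext t
    rw [ex, pr_cx]
  rw [e1]
  refine h3.congr_deriv ?_
  rw [ex, pr_cx]
  ring

namespace FQG

variable (G : FQG d n)

/-- the real vector field -/
def vf (β : Fin d → A n) (x : E d) : E d := WithLp.toLp 2 fun j => (G.ev (cx x) (β j)).re

@[simp] lemma vf_apply (β : Fin d → A n) (x : E d) (j : Fin d) :
    G.vf β x j = (G.ev (cx x) (β j)).re := rfl

lemma ofReal_vf {β : Fin d → A n} (hβ : ∀ j, G.IsR (β j)) (x : E d) (j : Fin d) :
    ((G.vf β x j : ℝ) : ℂ) = G.ev (cx x) (β j) := by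
  rw [vf_apply]
  exact Complex.conj_eq_iff_re.mp (hβ j x)

lemma hasDerivWithinAt_ev (f : A n) {γ : ℝ → E d} {v : E d} {s : Set ℝ} {t : ℝ}
    (h : HasDerivWithinAt γ v s t) :
    HasDerivWithinAt (fun t => G.ev (cx (γ t)) f)
      (2 * Real.pi * Complex.I * ∑ j, ((v j : ℝ) : ℂ) * G.ev (cx (γ t)) (G.D j f)) s t := by
  induction f using AddMonoidAlgebra.induction_linear with
  | zero =>
    simp only [map_zero, G.D_zero, mul_zero, Finset.sum_const_zero]
    exact hasDerivWithinAt_const _ _ _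
  | add f g hf hg =>
    have h1 := hf.add hg
    have e1 : (fun t => G.ev (cx (γ t)) (f + g)) = fun t => G.ev (cx (γ t)) f + G.ev (cx (γ t)) g := by
      ext t; rw [map_add]
    rw [e1]
    refine h1.congr_deriv ?_
    rw [← mul_add, ← Finset.sum_add_distrib]
    congr 1
    refine Finset.sum_congr rfl fun j _ => ?_
    rw [G.D_add, map_add, mul_add]
  | single q a =>
    have h1 := (hasDerivWithinAt_ex (G.L q) h).const_mul a
    have e1 : (fun t => G.ev (cx (γ t)) (.single q a)) = fun t => a * ex (G.L q) (cx (γ t)) := by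
      ext t; rw [G.ev_single]
    rw [e1]
    refine h1.congr_deriv ?_
    simp only [G.D_single, G.ev_single]
    have e2 : ((⟪G.L q, v⟫ : ℝ) : ℂ) = ∑ j, ((v j : ℝ) : ℂ) * ((G.L q j : ℝ) : ℂ) := by
      rw [← pr_cx, pr]
      exact Finset.sum_congr rfl fun j _ => by rw [cx_apply]; ring
    rw [e2, Finset.mul_sum, Finset.mul_sum, Finset.sum_mul, Finset.mul_sum]
    refine Finset.sum_congr rfl fun j _ => ?_
    ring

lemma ev_lip (f : A n) : ∃ K : ℝ, 0 ≤ K ∧ ∀ x y : E d,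
    ‖G.ev (cx x) f - G.ev (cx y) f‖ ≤ K * ‖x - y‖ := by
  refine ⟨∑ q ∈ f.coeff.support, ‖f.coeff q‖ * (2 * Real.pi * ‖G.L q‖),
    Finset.sum_nonneg fun _ _ => by positivity, fun x y => ?_⟩
  rw [G.ev_eq, G.ev_eq, ← Finset.sum_sub_distrib, Finset.sum_mul]
  refine (norm_sum_le _ _).trans (Finset.sum_le_sum fun q _ => ?_)
  rw [← mul_sub, norm_mul, mul_assoc]
  exact mul_le_mul_of_nonneg_left (norm_ex_sub_le _ _ _) (norm_nonneg _)

lemma vf_bdd (β : Fin d → A n) : ∃ M : ℝ, 0 < M ∧ ∀ x, ‖G.vf β x‖ ≤ M := by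
  refine ⟨(∑ j, ∑ q ∈ (β j).coeff.support, ‖(β j).coeff q‖) * (d + 1) + 1, by
    have : 0 ≤ ∑ j, ∑ q ∈ (β j).coeff.support, ‖(β j).coeff q‖ :=
      Finset.sum_nonneg fun _ _ => Finset.sum_nonneg fun _ _ => norm_nonneg _
    positivity, fun x => ?_⟩
  have h0 : 0 ≤ ∑ j, ∑ q ∈ (β j).coeff.support, ‖(β j).coeff q‖ :=
      Finset.sum_nonneg fun _ _ => Finset.sum_nonneg fun _ _ => norm_nonneg _
  have h1 := norm_le_of_coord (x := G.vf β x) h0 (fun i => by
    rw [vf_apply]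
    refine (Complex.abs_re_le_norm _).trans ((G.norm_ev_le _ _).trans ?_)
    exact Finset.single_le_sum (f := fun j => ∑ q ∈ (β j).coeff.support, ‖(β j).coeff q‖)
      (fun _ _ => Finset.sum_nonneg fun _ _ => norm_nonneg _) (Finset.mem_univ i))
  linarith

lemma vf_lip (β : Fin d → A n) : ∃ K : ℝ, 0 < K ∧ ∀ x y, ‖G.vf β x - G.vf β y‖ ≤ K * ‖x - y‖ := by
  choose K hK0 hK using fun j => G.ev_lip (β j)
  have h0 : 0 ≤ ∑ j, K j := Finset.sum_nonneg fun j _ => hK0 j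
  refine ⟨(∑ j, K j) * (d + 1) + 1, by positivity, fun x y => ?_⟩
  have h1 := norm_le_of_coord (x := G.vf β x - G.vf β y) (c := (∑ j, K j) * ‖x - y‖) (by positivity)
    (fun i => by
      rw [PiLp.sub_apply, vf_apply, vf_apply, ← Complex.sub_re]
      refine (Complex.abs_re_le_norm _).trans ((hK i x y).trans ?_)
      gcongr
      exact Finset.single_le_sum (f := K) (fun j _ => hK0 j) (Finset.mem_univ i))
  have h2 := norm_nonneg (x - y)
  nlinarith

/-- elements of the null ideal vanish along flow curves starting in the point set -/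
lemma vanish_on_curve {β : Fin d → A n} (hβ : ∀ j, G.IsR (β j))
    (hI : ∀ f ∈ G.I, ∑ j, β j * G.D j f ∈ G.I) {γ : ℝ → E d} {τ : ℝ}
    (h0 : γ 0 ∈ G.F.L) (hγ : ∀ t ∈ Set.Icc 0 τ, HasDerivWithinAt γ (G.vf β (γ t)) (Set.Icc 0 τ) t) :
    ∀ t ∈ Set.Icc 0 τ, ∀ f ∈ G.I, G.ev (cx (γ t)) f = 0 := by
  classical
  have hN := noeth_A n
  obtain ⟨s, hs⟩ := (isNoetherianRing_iff_ideal_fg _).mp hN G.I
  have hsI : ∀ g ∈ s, g ∈ G.I := fun g hg => hs ▸ Ideal.subset_span hg
  -- structure constants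
  have hstr : ∀ g : s, ∃ c : s → A n, ∑ j, β j * G.D j (g : A n) = ∑ k : s, c k * (k : A n) := by
    intro g
    have h1 := hI g (hsI g g.2)
    rw [← hs] at h1
    obtain ⟨c, hc⟩ := Submodule.mem_span_finset'.mp h1
    exact ⟨c, by rw [← hc]; rfl⟩
  choose c hc using hstr
  set u : ℝ → (s → ℂ) := fun t g => G.ev (cx (γ t)) (g : A n) with hu
  set u' : ℝ → (s → ℂ) := fun t g => 2 * Real.pi * Complex.I *
    ∑ k : s, G.ev (cx (γ t)) (c g k) * u t k with hu'
  have hder : ∀ t ∈ Set.Icc 0 τ, HasDerivWithinAt u (u' t) (Set.Icc 0 τ) t := by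
    intro t ht
    rw [hasDerivWithinAt_pi]
    intro g
    have h1 := G.hasDerivWithinAt_ev (g : A n) (hγ t ht)
    refine h1.congr_deriv ?_
    symm
    simp only [hu', hu]
    congr 1
    have h2 : ∑ j, ((G.vf β (γ t) j : ℝ) : ℂ) * G.ev (cx (γ t)) (G.D j (g : A n)) =
        G.ev (cx (γ t)) (∑ j, β j * G.D j (g : A n)) := by
      rw [map_sum]
      refine Finset.sum_congr rfl fun j _ => ?_
      rw [map_mul, G.ofReal_vf hβ]
    rw [h2, hc g, map_sum]
    refine Finset.sum_congr rfl fun k _ => ?_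
    rw [map_mul]
  -- bound
  set K : ℝ := 2 * Real.pi * ∑ g : s, ∑ k : s, ∑ q ∈ (c g k).coeff.support, ‖(c g k).coeff q‖ with hK
  have hbound : ∀ t, ‖u' t‖ ≤ K * ‖u t‖ := by
    intro t
    have hK0 : 0 ≤ K := by
      have : 0 ≤ ∑ g : s, ∑ k : s, ∑ q ∈ (c g k).coeff.support, ‖(c g k).coeff q‖ :=
        Finset.sum_nonneg fun _ _ => Finset.sum_nonneg fun _ _ =>
          Finset.sum_nonneg fun _ _ => norm_nonneg _
      positivity
    rw [pi_norm_le_iff_of_nonneg (by positivity)]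
    intro g
    simp only [hu']
    rw [norm_mul]
    have e1 : ‖(2 : ℂ) * Real.pi * Complex.I‖ = 2 * Real.pi := by
      simp [abs_of_pos Real.pi_pos]
    rw [e1, hK, mul_assoc (2 * Real.pi)]
    apply mul_le_mul_of_nonneg_left _ (by positivity)
    refine (norm_sum_le _ _).trans ?_
    have h3 : ∑ k : s, ‖G.ev (cx (γ t)) (c g k) * u t k‖ ≤
        (∑ k : s, ∑ q ∈ (c g k).coeff.support, ‖(c g k).coeff q‖) * ‖u t‖ := by
      rw [Finset.sum_mul]
      refine Finset.sum_le_sum fun k _ => ?_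
      rw [norm_mul]
      exact mul_le_mul (G.norm_ev_le _ _) (norm_le_pi_norm (u t) k) (norm_nonneg _)
        (Finset.sum_nonneg fun _ _ => norm_nonneg _)
    refine h3.trans (mul_le_mul_of_nonneg_right ?_ (norm_nonneg _))
    exact Finset.single_le_sum
      (f := fun g : s => ∑ k : s, ∑ q ∈ (c g k).coeff.support, ‖(c g k).coeff q‖)
      (fun _ _ => Finset.sum_nonneg fun _ _ => Finset.sum_nonneg fun _ _ => norm_nonneg _)
      (Finset.mem_univ g)
  have hu0 : u 0 = 0 := by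
    ext g
    exact (G.mem_I _).mp (hsI g g.2) _ h0
  have hzero := eq_zero_of_abs_deriv_le_mul_abs_self_of_eq_zero_right (f := u) (f' := u') (K := K)
    (a := 0) (b := τ) (fun t ht => (hder t ht).continuousWithinAt)
    (fun t ht => ((hder t (Set.Ico_subset_Icc_self ht)).mono_of_mem_nhdsWithin
      (Icc_mem_nhdsGE_of_mem ht))) hu0 (fun t _ => hbound t)
  intro t ht f hf
  rw [← hs] at hf
  obtain ⟨c, hc⟩ := Submodule.mem_span_finset'.mp hf
  rw [← hc, map_sum]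
  apply Finset.sum_eq_zero
  intro g _
  rw [smul_eq_mul, map_mul]
  have h1 : u t g = 0 := by rw [hzero t ht]; rfl
  have h2 : G.ev (cx (γ t)) (g : A n) = 0 := h1
  rw [h2, mul_zero]

/-- existence of flow curves with their metric properties -/
lemma exists_curve {β : Fin d → A n} {M K : ℝ} (hM : 0 < M) (hMb : ∀ x, ‖G.vf β x‖ ≤ M)
    (hK : 0 < K) (hKb : ∀ x y, ‖G.vf β x - G.vf β y‖ ≤ K * ‖x - y‖) {τ : ℝ} (hτ : 0 < τ) (x : E d) :
    ∃ γ : ℝ → E d, γ 0 = x ∧
      (∀ t ∈ Set.Icc 0 τ, HasDerivWithinAt γ (G.vf β (γ t)) (Set.Icc 0 τ) t) ∧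
      (∀ t ∈ Set.Icc 0 τ, ‖γ t - x‖ ≤ M * τ) ∧
      (∀ t ∈ Set.Icc 0 τ, ∀ t' ∈ Set.Icc 0 τ,
        ‖γ t - γ t' - (t - t') • G.vf β x‖ ≤ K * (M * τ) * |t - t'|) := by
  have h0 : (0:ℝ) ∈ Set.Icc 0 τ := ⟨le_rfl, hτ.le⟩
  have hPL : IsPicardLindelof (fun _ => G.vf β) (⟨0, h0⟩ : Set.Icc (0:ℝ) τ) x
      (⟨M * τ, by positivity⟩ : NNReal) 0 ⟨M, hM.le⟩ ⟨K, hK.le⟩ := by
    apply IsPicardLindelof.of_time_independent
    · intro y _
      exact hMb y
    · apply LipschitzWith.lipschitzOnWith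
      apply LipschitzWith.of_dist_le_mul
      intro y z
      rw [dist_eq_norm, dist_eq_norm]
      exact hKb y z
    · simp only [sub_zero, sub_self, NNReal.coe_zero]
      rw [max_eq_left hτ.le]
      exact le_refl (M * τ)
  obtain ⟨γ, hγ0, hγ⟩ := hPL.exists_eq_forall_mem_Icc_hasDerivWithinAt₀
  have hdisp : ∀ t ∈ Set.Icc 0 τ, ‖γ t - x‖ ≤ M * τ := by
    intro t ht
    have h1 := Convex.norm_image_sub_le_of_norm_hasDerivWithin_le (f := γ) (C := M)
      (fun t ht => hγ t ht) (fun t _ => hMb _) (convex_Icc 0 τ) h0 ht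
    simp only at hγ0
    rw [hγ0] at h1
    refine h1.trans ?_
    rw [sub_zero, Real.norm_eq_abs, abs_of_nonneg ht.1]
    exact mul_le_mul_of_nonneg_left ht.2 hM.le
  refine ⟨γ, hγ0, fun t ht => hγ t ht, hdisp, fun t ht t' ht' => ?_⟩
  have h2 : ∀ t ∈ Set.Icc 0 τ, HasDerivWithinAt (fun t => γ t - t • G.vf β x)
      (G.vf β (γ t) - G.vf β x) (Set.Icc 0 τ) t := by
    intro t ht
    have h3 := (hasDerivWithinAt_id t (Set.Icc 0 τ)).smul_const (G.vf β x)
    rw [one_smul] at h3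
    exact (hγ t ht).sub h3
  have h4 := Convex.norm_image_sub_le_of_norm_hasDerivWithin_le (C := K * (M * τ)) h2
    (fun t ht => (hKb _ _).trans (mul_le_mul_of_nonneg_left (hdisp t ht) hK.le))
    (convex_Icc 0 τ) ht' ht
  rw [Real.norm_eq_abs] at h4
  refine le_trans (le_of_eq ?_) h4
  congr 1
  module

end FQG

end FQ
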