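import Pool.Agent.Helper17.FQData

/-!
# Finite generation of the spectrum and the null criterion
-/

open scoped BigOperators SchwartzMap FourierTransform RealInnerProductSpace ContDiff
open MeasureTheory Complex Filter Topology

noncomputable section

namespace FQ

variable {d : ℕ}

lemma TF.continuous_psi {h : E d → ℂ} {η : E d} {r : ℝ} (H : TF h η r) :
    Continuous fun x : E d => psi h (cx x) := by
  have : (fun x : E d => psi h (cx x)) = ((𝓕 H.toS : 𝓢(E d, ℂ)) : E d → ℂ) := by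
    ext x
    rw [psi_cx, SchwartzMap.fourier_coe]; rfl
  rw [this]
  exact SchwartzMap.continuous _

lemma norm_le_of_coord {x : E d} {c : ℝ} (hc : 0 ≤ c) (h : ∀ i, |x i| ≤ c) : ‖x‖ ≤ c * (d + 1) := by
  rw [EuclideanSpace.norm_eq]
  apply Real.sqrt_le_iff.mpr
  refine ⟨by positivity, ?_⟩
  calc ∑ i, ‖x i‖ ^ 2 ≤ ∑ _i : Fin d, c ^ 2 := by
        refine Finset.sum_le_sum fun i _ => ?_
        rw [Real.norm_eq_abs]
        exact pow_le_pow_left₀ (abs_nonneg _) (h i) 2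
    _ = d * c ^ 2 := by simp
    _ ≤ (c * (d + 1)) ^ 2 := by
        rw [mul_pow]
        have : (d:ℝ) ≤ ((d:ℝ) + 1) ^ 2 := by nlinarith [(Nat.cast_nonneg d : (0:ℝ) ≤ d)]
        have h2 : 0 ≤ c ^ 2 := by positivity
        nlinarith

/-- for a class with fixed offset the weights are dominated by a fixed summable sequence -/
lemma cl_dom (o : E d) : ∃ C : ℝ, 0 < C ∧ ∀ z : (Fin d → ℤ) → E d, IsCl z o 1 → ∀ m,
    wt (z m) ≤ C * ((1 + ‖m‖) ^ (2 * d))⁻¹ := by
  refine ⟨(‖o‖ + 2) ^ (2 * d), by positivity, fun z hz m => ?_⟩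
  unfold wt
  rw [← div_eq_mul_inv, inv_eq_one_div, div_le_div_iff₀ (by positivity) (by positivity), one_mul,
    ← mul_pow]
  apply pow_le_pow_left₀ (by positivity)
  have key : ‖m‖ ≤ ‖z m‖ + ‖o‖ + 1 := by
    rw [pi_norm_le_iff_of_nonneg (by positivity)]
    intro i
    rw [Int.norm_eq_abs]
    have h1 := hz m i
    have h2 := abs_apply_le_norm (z m) i
    have h3 := abs_apply_le_norm o i
    rw [abs_le] at h1 h2 h3 ⊢
    have h4 := norm_nonneg (z m)
    have h5 := norm_nonneg o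
    constructor <;> linarith [h1.1, h1.2, h2.1, h2.2, h3.1, h3.2]
  have h4 := norm_nonneg (z m)
  have h5 := norm_nonneg o
  nlinarith

/-- grouping by location -/
lemma tsum_group {P : Type*} (Y : P → E d) (B : P → ℂ) (φ : E d → ℂ)
    (hs : Summable fun p => B p * φ (Y p))
    (h0 : ∀ x, ∑' p, (if Y p = x then B p else 0) = 0) : ∑' p, B p * φ (Y p) = 0 := by
  classical
  have e := Equiv.sigmaFiberEquiv Y
  rw [← (Equiv.sigmaFiberEquiv Y).tsum_eq (fun p => B p * φ (Y p))]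
  rw [Summable.tsum_sigma]
  · have : ∀ x, ∑' p : {p // Y p = x}, B ((Equiv.sigmaFiberEquiv Y) ⟨x, p⟩) *
        φ (Y ((Equiv.sigmaFiberEquiv Y) ⟨x, p⟩)) = 0 := by
      intro x
      have e1 : ∀ p : {p // Y p = x}, B ((Equiv.sigmaFiberEquiv Y) ⟨x, p⟩) *
        φ (Y ((Equiv.sigmaFiberEquiv Y) ⟨x, p⟩)) = B p * φ x := by
        intro p
        simp only [Equiv.sigmaFiberEquiv_apply]
        rw [p.2]
      simp only [e1]
      rw [tsum_mul_right]
      have e2 : ∑' p : {p // Y p = x}, B p = ∑' p, (if Y p = x then B p else 0) := by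
        refine (tsum_subtype {p | Y p = x} B).trans ?_
        congr 1
        ext p
        simp [Set.indicator_apply]
      rw [e2, h0, zero_mul]
    simp only [this, tsum_zero]
  · exact (Equiv.sigmaFiberEquiv Y).summable_iff.mpr hs

namespace FQS

variable (F : FQS d)

/-- translated point set -/
def tr (t : E d) : Set (E d) := {x | x + t ∈ F.L}

lemma cell_bound : ∃ K : ℕ, ∀ (t : E d) (m : Fin d → ℤ),
    {x ∈ F.tr t | ∀ i, ⌊x i⌋ = m i}.Finite ∧ {x ∈ F.tr t | ∀ i, ⌊x i⌋ = m i}.ncard ≤ K := by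
  obtain ⟨K, hK⟩ := F.card_ball (1 * (d + 1))
  refine ⟨K, fun t m => ?_⟩
  have hmaps : Set.MapsTo (fun x : E d => x + t) {x ∈ F.tr t | ∀ i, ⌊x i⌋ = m i}
      {x ∈ F.L | ‖x - (zv m + t)‖ ≤ 1 * (d + 1)} := by
    intro x hx
    refine ⟨hx.1, ?_⟩
    have e : x + t - (zv m + t) = x - zv m := by abel
    simp only [e]
    apply norm_le_of_coord zero_le_one
    intro i
    rw [PiLp.sub_apply, zv_apply, ← hx.2 i]
    have h1 := Int.floor_le (x i)
    have h2 := Int.lt_floor_add_one (x i)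
    rw [abs_le]; constructor <;> linarith
  obtain ⟨hf, hn⟩ := hK (zv m + t)
  have hinj : Set.InjOn (fun x : E d => x + t) {x ∈ F.tr t | ∀ i, ⌊x i⌋ = m i} :=
    (add_left_injective t).injOn
  exact ⟨Set.Finite.of_injOn hmaps hinj hf,
    (Set.ncard_le_ncard_of_injOn _ hmaps hinj hf).trans hn⟩

lemma tsum_tr (t : E d) (φ : E d → ℂ) : ∑' x : F.tr t, φ x = ∑' x : F.L, φ (x - t) := by
  let e : F.L ≃ F.tr t :=
    { toFun := fun x => ⟨x - t, by simp [tr]⟩
      invFun := fun x => ⟨x + t, x.2⟩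
      left_inv := fun x => by ext; simp
      right_inv := fun x => by ext; simp }
  rw [← e.tsum_eq]
  rfl

/-- the labelled family is uniformly locally finite; sums of bounded coefficients converge -/
lemma summable_fam {κ : Type*} [Finite κ] {y : κ → (Fin d → ℤ) → E d} {o : κ → E d}
    (hy : ∀ j, IsCl (y j) (o j) 1) {b : κ × (Fin d → ℤ) → ℂ} (hb : Bdd b)
    {h : E d → ℂ} {η : E d} {r : ℝ} (H : TF h η r) :
    Summable fun p : κ × (Fin d → ℤ) => b p * psi h (cx (y p.1 p.2)) := by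
  have := Fintype.ofFinite κ
  obtain ⟨B, hB⟩ := hb
  obtain ⟨C, hC, hdec⟩ := H.decay'
  apply Summable.of_norm
  have h1 : ∀ p : κ × (Fin d → ℤ), ‖b p * psi h (cx (y p.1 p.2))‖ ≤
      B * (C * wt (y p.1 p.2)) := by
    intro p
    rw [norm_mul]
    have hB0 : 0 ≤ B := (norm_nonneg _).trans (hB p)
    exact mul_le_mul (hB p) (hdec _) (norm_nonneg _) hB0
  refine Summable.of_nonneg_of_le (fun _ => norm_nonneg _) h1 ?_
  apply Summable.mul_left
  apply Summable.mul_left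
  rw [summable_prod_of_nonneg (fun _ => wt_nonneg _)]
  refine ⟨fun j => ?_, (hasSum_fintype _).summable⟩
  have := (cl_sum (z := y j) (o := o j) (fun m i => (hy j m i).trans (by norm_num)) 0).1
  simpa using this

/-- finite generation of the spectrum -/
theorem fg : ∃ R : ℝ, ∀ ξ, F.c ξ ≠ 0 →
    ξ ∈ AddSubgroup.closure {ξ | F.c ξ ≠ 0 ∧ ‖ξ‖ ≤ R} := by
  classical
  obtain ⟨K, hK⟩ := F.cell_bound
  obtain ⟨R, hR, huniq⟩ := uniq d (KK d K ⊕ KK d K)
  refine ⟨R, fun ξ₀ hξ₀ => ?_⟩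
  by_contra hcon
  set T : Finset (E d) := (F.fin R).toFinset with hT
  have hTc : (T : Set (E d)) = {ξ | F.c ξ ≠ 0 ∧ ‖ξ‖ ≤ R} := by simp [hT]
  rw [← hTc] at hcon
  -- the translations
  have hseq : ∀ n : ℕ, ∃ t : E d, (∀ ξ ∈ T, ‖ex ξ (cx t) - 1‖ < 1 / ((n:ℝ) + 1)) ∧
      1 / 2 ≤ 1 - (ex ξ₀ (cx t)).re := fun n =>
    exists_char_approx T ξ₀ hcon (by positivity)
  choose t ht1 ht2 using hseq
  -- labellings
  have hlab : ∀ s : E d, ∃ (y : KK d K → (Fin d → ℤ) → E d) (b : KK d K × (Fin d → ℤ) → ℂ),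
      (∀ j, IsCl (y j) (off j) 1) ∧ (∀ p, b p = 0 ∨ b p = 1) ∧
      ∀ φ : E d → ℂ, ∑' p : KK d K × (Fin d → ℤ), b p * φ (y p.1 p.2) = ∑' x : F.L, φ (x - s) := by
    intro s
    obtain ⟨y, b, lab, hinj, hcl, hy, hb, hb0⟩ := labelling K (F.tr s) (hK s)
    refine ⟨y, b, hcl, fun p => ?_, fun φ => ?_⟩
    · by_cases hp : p ∈ Set.range lab
      · obtain ⟨x, rfl⟩ := hp
        exact Or.inr (hb x)
      · exact Or.inl (hb0 p hp)
    · rw [label_tsum hinj hy hb hb0, F.tsum_tr]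
  choose Y B hcl hB01 hsum using hlab
  -- ultrafilter limits
  let U : Ultrafilter ℕ := Filter.hyperfilter ℕ
  have hUtop : (U : Filter ℕ) ≤ atTop := Nat.hyperfilter_le_atTop
  have hYlim : ∀ (j : KK d K) (m : Fin d → ℤ), ∃ v : E d, (∀ i, |v i - (3 * (m i : ℝ) + off j i)| ≤ 1) ∧
      Tendsto (fun n => Y (t n) j m) U (𝓝 v) := by
    intro j m
    set S : Set (E d) := {v | ∀ i, |v i - (3 * (m i : ℝ) + off j i)| ≤ 1} with hS
    have hSclosed : IsClosed S := by
      have : S = ⋂ i, {v : E d | |v i - (3 * (m i : ℝ) + off j i)| ≤ 1} := by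
        ext v; simp [hS]
      rw [this]
      apply isClosed_iInter
      intro i
      exact isClosed_le (by fun_prop) continuous_const
    have hSbdd : Bornology.IsBounded S := by
      rw [isBounded_iff_forall_norm_le]
      refine ⟨1 * (d+1) + ‖(WithLp.toLp 2 (fun i => 3 * (m i : ℝ) + off j i) : E d)‖, fun v hv => ?_⟩
      have h1 : ‖v - WithLp.toLp 2 (fun i => 3 * (m i : ℝ) + off j i)‖ ≤ 1 * (d + 1) := by
        apply norm_le_of_coord zero_le_one
        intro i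
        exact hv i
      calc ‖v‖ = ‖(v - WithLp.toLp 2 (fun i => 3 * (m i : ℝ) + off j i)) +
            WithLp.toLp 2 (fun i => 3 * (m i : ℝ) + off j i)‖ := by congr 1; abel
        _ ≤ _ := norm_add_le _ _
        _ ≤ _ := by gcongr
    have hScomp : IsCompact S := Metric.isCompact_of_isClosed_isBounded hSclosed hSbdd
    have hmem : ∀ n, Y (t n) j m ∈ S := fun n i => hcl (t n) j m i
    obtain ⟨v, hv, hlim⟩ := hScomp.ultrafilter_le_nhds (U.map fun n => Y (t n) j m) (by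
      rw [le_principal_iff]
      exact Filter.mem_map.mpr (Filter.Eventually.of_forall hmem))
    exact ⟨v, hv, hlim⟩
  choose Yi hYi1 hYi2 using hYlim
  have hBlim : ∀ p : KK d K × (Fin d → ℤ), ∃ v : ℂ, ‖v‖ ≤ 1 ∧
      Tendsto (fun n => B (t n) p) U (𝓝 v) := by
    intro p
    have hcomp := isCompact_closedBall (0:ℂ) 1
    obtain ⟨v, hv, hlim⟩ := hcomp.ultrafilter_le_nhds (U.map fun n => B (t n) p) (by
      rw [le_principal_iff]
      apply Filter.mem_map.mpr
      apply Filter.Eventually.of_forall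
      intro n
      rw [mem_closedBall_zero_iff]
      rcases hB01 (t n) p with h | h <;> simp [h])
    exact ⟨v, by simpa using hv, hlim⟩
  choose Bi hBi1 hBi2 using hBlim
  -- convergence of sums
  have hconv : ∀ (h : E d → ℂ) (η : E d) (r : ℝ), TF h η r →
      Tendsto (fun n => ∑' p : KK d K × (Fin d → ℤ), B (t n) p * psi h (cx (Y (t n) p.1 p.2))) U
        (𝓝 (∑' p : KK d K × (Fin d → ℤ), Bi p * psi h (cx (Yi p.1 p.2)))) := by
    intro h η r H
    obtain ⟨C, hC, hdec⟩ := H.decay'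
    have hdom : ∀ j : KK d K, ∃ D : ℝ, 0 < D ∧ ∀ z : (Fin d → ℤ) → E d, IsCl z (off j) 1 → ∀ m,
        wt (z m) ≤ D * ((1 + ‖m‖) ^ (2 * d))⁻¹ := fun j => cl_dom (off j)
    choose D hD0 hD using hdom
    apply tendsto_tsum_of_dominated_convergence
      (bound := fun p : KK d K × (Fin d → ℤ) => C * (D p.1 * ((1 + ‖p.2‖) ^ (2 * d))⁻¹))
    · apply Summable.mul_left
      rw [summable_prod_of_nonneg]
      · exact ⟨fun j => (summable_lat d).mul_left (D j), (hasSum_fintype _).summable⟩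
      · intro p
        have := hD0 p.1
        simp only [Pi.zero_apply]
        positivity
    · intro p
      refine (hBi2 p).mul ?_
      exact (H.continuous_psi.tendsto _).comp (hYi2 p.1 p.2)
    · apply Eventually.of_forall
      intro n p
      rw [norm_mul]
      have h1 : ‖B (t n) p‖ ≤ 1 := by rcases hB01 (t n) p with h | h <;> simp [h]
      calc ‖B (t n) p‖ * ‖psi h (cx (Y (t n) p.1 p.2))‖
          ≤ 1 * (C * wt (Y (t n) p.1 p.2)) := by
            apply mul_le_mul h1 (hdec _) (norm_nonneg _) zero_le_one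
        _ ≤ 1 * (C * (D p.1 * ((1 + ‖p.2‖) ^ (2 * d))⁻¹)) := by
            gcongr
            exact hD p.1 _ (hcl (t n) p.1) p.2
        _ = _ := one_mul _
  -- value of the sums
  have hval : ∀ (h : E d → ℂ) (η : E d) (r : ℝ) (H : TF h η r) (s : E d),
      ∑' p : KK d K × (Fin d → ℤ), B s p * psi h (cx (Y s p.1 p.2)) =
      ∑ ξ ∈ F.sp h H, F.c ξ * h ξ * ex ξ (cx s) := by
    intro h η r H s
    rw [hsum s (fun x => psi h (cx x)), ← F.tsum_eq H, ← F.fq h η r H]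
    congr 1; ext x; rw [cx_sub]
  -- the difference family
  set YY : KK d K ⊕ KK d K → (Fin d → ℤ) → E d := Sum.elim Yi (Y 0) with hYY
  set BB : (KK d K ⊕ KK d K) × (Fin d → ℤ) → ℂ := fun p =>
    Sum.elim (fun j => Bi (j, p.2)) (fun j => -B 0 (j, p.2)) p.1 with hBB
  have hclYY : ∀ j, IsCl (YY j) (Sum.elim off off j) 1 := by
    rintro (j | j)
    · exact fun m i => hYi1 j m i
    · exact hcl 0 j
  have hBBb : Bdd BB := by
    refine ⟨1, ?_⟩
    rintro ⟨j | j, m⟩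
    · exact hBi1 (j, m)
    · simp only [hBB, Sum.elim_inr, norm_neg]
      rcases hB01 0 (j, m) with h | h <;> simp [h]
  have hsplit : ∀ (h : E d → ℂ) (η : E d) (r : ℝ), TF h η r →
      ∑' p : (KK d K ⊕ KK d K) × (Fin d → ℤ), BB p * psi h (cx (YY p.1 p.2)) =
      ∑' p : KK d K × (Fin d → ℤ), Bi p * psi h (cx (Yi p.1 p.2)) -
      ∑' p : KK d K × (Fin d → ℤ), B 0 p * psi h (cx (Y 0 p.1 p.2)) := by
    intro h η r H
    have hs := summable_fam hclYY hBBb H
    have hs1 : Summable fun p : KK d K × (Fin d → ℤ) => Bi p * psi h (cx (Yi p.1 p.2)) :=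
      summable_fam (o := off) (fun j m i => hYi1 j m i) ⟨1, hBi1⟩ H
    have hs2 : Summable fun p : KK d K × (Fin d → ℤ) => B 0 p * psi h (cx (Y 0 p.1 p.2)) :=
      summable_fam (o := off) (hcl 0) ⟨1, fun p => by rcases hB01 0 p with h | h <;> simp [h]⟩ H
    rw [hs.tsum_prod, hs1.tsum_prod, hs2.tsum_prod, tsum_fintype, tsum_fintype, tsum_fintype,
      Fintype.sum_sum_type, sub_eq_add_neg, ← Finset.sum_neg_distrib]
    congr 1
    refine Finset.sum_congr rfl fun j _ => ?_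
    rw [← tsum_neg]
    congr 1; ext m
    simp [hBB, hYY]
  have hlimval : ∀ (h : E d → ℂ) (η : E d) (r : ℝ) (H : TF h η r),
      Tendsto (fun n => ∑ ξ ∈ F.sp h H, F.c ξ * h ξ * (ex ξ (cx (t n)) - 1)) U
      (𝓝 (∑' p : (KK d K ⊕ KK d K) × (Fin d → ℤ), BB p * psi h (cx (YY p.1 p.2)))) := by
    intro h η r H
    rw [hsplit h η r H, hval h η r H 0]
    have := (hconv h η r H).sub_const (∑ ξ ∈ F.sp h H, F.c ξ * h ξ * ex ξ (cx 0))
    refine this.congr fun n => ?_
    rw [hval h η r H, ← Finset.sum_sub_distrib]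
    refine Finset.sum_congr rfl fun ξ _ => ?_
    rw [cx_zero, ex_zero_right]; ring
  have hgap : Gap (fun p : (KK d K ⊕ KK d K) × (Fin d → ℤ) => YY p.1 p.2) BB R := by
    intro h H
    have h1 := hlimval h 0 R H
    have h2 : Tendsto (fun n => ∑ ξ ∈ F.sp h H, F.c ξ * h ξ * (ex ξ (cx (t n)) - 1)) U
        (𝓝 (∑ ξ ∈ F.sp h H, 0)) := by
      refine tendsto_finsetSum _ fun ξ hξ => ?_
      rw [F.mem_sp] at hξ
      have hξT : ξ ∈ T := by
        rw [hT, Set.Finite.mem_toFinset]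
        refine ⟨left_ne_zero_of_mul hξ, ?_⟩
        by_contra hc
        push Not at hc
        apply right_ne_zero_of_mul hξ
        apply H.supp
        rw [sub_zero]; exact hc.le
      have h3 : Tendsto (fun n => ex ξ (cx (t n)) - 1) atTop (𝓝 0) := by
        rw [tendsto_zero_iff_norm_tendsto_zero]
        exact squeeze_zero (fun _ => norm_nonneg _) (fun n => (ht1 n ξ hξT).le)
          tendsto_one_div_add_atTop_nhds_zero_nat
      have h4 := (h3.mono_left hUtop).const_mul (F.c ξ * h ξ)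
      simpa using h4
    rw [Finset.sum_const_zero] at h2
    exact tendsto_nhds_unique h1 h2
  have hzero := huniq YY (Sum.elim off off) hclYY BB hBBb hgap
  -- conclusion at ξ₀
  have hall : ∀ (h : E d → ℂ) (η : E d) (r : ℝ) (H : TF h η r),
      Tendsto (fun n => ∑ ξ ∈ F.sp h H, F.c ξ * h ξ * (ex ξ (cx (t n)) - 1)) U (𝓝 0) := by
    intro h η r H
    have h1 := hlimval h η r H
    rwa [tsum_group (fun p : (KK d K ⊕ KK d K) × (Fin d → ℤ) => YY p.1 p.2) BB
      (fun x => psi h (cx x)) (summable_fam hclYY hBBb H) hzero] at h1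
  -- isolate ξ₀
  obtain ⟨r, hr0, hr⟩ : ∃ r : ℝ, 0 < r ∧ ∀ ξ, F.c ξ ≠ 0 → ‖ξ - ξ₀‖ < r → ξ = ξ₀ := by
    have hfin : ({ξ | F.c ξ ≠ 0 ∧ ‖ξ‖ ≤ ‖ξ₀‖ + 1} \ {ξ₀}).Finite :=
      (F.fin (‖ξ₀‖ + 1)).subset Set.sdiff_subset
    have hopen : IsOpen ({ξ | F.c ξ ≠ 0 ∧ ‖ξ‖ ≤ ‖ξ₀‖ + 1} \ {ξ₀})ᶜ := hfin.isClosed.isOpen_compl
    have hmem : ξ₀ ∈ ({ξ | F.c ξ ≠ 0 ∧ ‖ξ‖ ≤ ‖ξ₀‖ + 1} \ {ξ₀})ᶜ := by simp
    obtain ⟨r, hr0, hr⟩ := Metric.isOpen_iff.mp hopen ξ₀ hmem
    refine ⟨min r 1, by positivity, fun ξ hξ hξr => ?_⟩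
    by_contra hne
    have h1 : ξ ∈ Metric.ball ξ₀ r := by
      rw [Metric.mem_ball, dist_eq_norm]
      exact hξr.trans_le (min_le_left _ _)
    apply hr h1
    refine ⟨⟨hξ, ?_⟩, hne⟩
    have h2 : ‖ξ - ξ₀‖ ≤ 1 := hξr.le.trans (min_le_right _ _)
    calc ‖ξ‖ = ‖ξ₀ + (ξ - ξ₀)‖ := by congr 1; abel
      _ ≤ ‖ξ₀‖ + ‖ξ - ξ₀‖ := norm_add_le _ _
      _ ≤ _ := by linarith
  obtain ⟨a, ha0, har⟩ : ∃ a : E d → ℂ, TF a 0 r ∧ a 0 ≠ 0 := by
    obtain ⟨h, hh, -, ⟨a, ha, ha2⟩, -⟩ := exists_pos_test d hr0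
    exact ⟨h, hh, by rw [ha2]; exact_mod_cast ha.ne'⟩
  have H : TF (fun ξ => a (ξ + (-ξ₀))) ξ₀ r := by
    have := ha0.shift (-ξ₀)
    simpa using this
  have hsp : F.sp _ H = {ξ₀} := by
    ext ξ
    rw [F.mem_sp, Finset.mem_singleton]
    constructor
    · intro h
      apply hr ξ (left_ne_zero_of_mul h)
      by_contra hc
      push Not at hc
      exact right_ne_zero_of_mul h (H.supp ξ hc)
    · rintro rfl
      simp only [add_neg_cancel]
      exact mul_ne_zero hξ₀ har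
  have hfinal := hall _ ξ₀ r H
  rw [hsp] at hfinal
  simp only [Finset.sum_singleton, add_neg_cancel] at hfinal
  have h5 : Tendsto (fun n => ex ξ₀ (cx (t n)) - 1) U (𝓝 0) := by
    have h6 := hfinal.const_mul (F.c ξ₀ * a 0)⁻¹
    rw [mul_zero] at h6
    refine h6.congr fun n => ?_
    rw [← mul_assoc, inv_mul_cancel₀ (mul_ne_zero hξ₀ har), one_mul]
  have h6 : Tendsto (fun n => 1 - (ex ξ₀ (cx (t n))).re) U (𝓝 0) := by
    have := ((Complex.continuous_re.tendsto _).comp h5).neg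
    simp only [Complex.zero_re, neg_zero] at this
    refine this.congr fun n => ?_
    simp
  have h7 := ge_of_tendsto h6 (Eventually.of_forall ht2)
  norm_num at h7

end FQS

end FQ
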