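import Pool.Agent.Helper17.FQSieve

open scoped BigOperators SchwartzMap FourierTransform RealInnerProductSpace ContDiff
open MeasureTheory Complex Filter Topology

noncomputable section

namespace FQ

variable {d n : ℕ}

lemma osc_limit (s : E d) (hs : s ≠ 0) {W : E d → ℝ} :
    Tendsto (fun T : ℝ => ∫ w : E d, ex s (cx (T • w)) * (W w : ℂ)) atTop (𝓝 0) := by
  have h1 := tendsto_integral_exp_inner_smul_cocompact (fun w : E d => (W w : ℂ))
  have h2 : Tendsto (fun T : ℝ => -(T • s)) atTop (cocompact (E d)) := by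
    rw [← Metric.cobounded_eq_cocompact, ← tendsto_norm_atTop_iff_cobounded]
    simp only [norm_neg, norm_smul, Real.norm_eq_abs]
    exact (tendsto_abs_atTop_atTop).atTop_mul_const (norm_pos_iff.mpr hs)
  refine (h1.comp h2).congr fun T => ?_
  simp only [Function.comp_apply]
  refine integral_congr_ae (Eventually.of_forall fun w => ?_)
  simp only
  rw [Circle.smul_def, Real.fourierChar_apply, smul_eq_mul, ex_cx]
  congr 3
  rw [inner_neg_right, neg_neg, inner_smul_right, inner_smul_right, real_inner_comm]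

lemma wsc {T : ℝ} (hT : 0 < T) (φ : E d → ℂ) :
    ((T ^ d : ℝ) : ℂ)⁻¹ * ∫ z : E d, φ z * ((((1 + ‖z‖ / T) ^ (2 * d + 1))⁻¹ : ℝ) : ℂ) =
      ∫ w : E d, φ (T • w) * ((((1 + ‖w‖) ^ (2 * d + 1))⁻¹ : ℝ) : ℂ) := by
  have h1 := MeasureTheory.Measure.integral_comp_smul (μ := (volume : Measure (E d)))
    (fun z : E d => φ z * ((((1 + ‖z‖ / T) ^ (2 * d + 1))⁻¹ : ℝ) : ℂ)) T
  rw [finrank_euclideanSpace, Fintype.card_fin, abs_of_pos (by positivity), Complex.real_smul] at h1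
  rw [← Complex.ofReal_inv, ← h1]
  congr 1
  ext w
  rw [norm_smul, Real.norm_eq_abs, abs_of_pos hT, mul_div_cancel_left₀ _ hT.ne']

theorem mean_weight (S : Finset (E d)) (a : E d → ℂ) :
    Integrable (fun z : E d => ((1 + ‖z‖) ^ (2 * d + 1))⁻¹) ∧
    (∀ T : ℝ, 0 < T → Integrable (fun z : E d =>
      ‖∑ p ∈ S, a p * ex p (cx z)‖ ^ 2 * ((1 + ‖z‖ / T) ^ (2 * d + 1))⁻¹)) ∧
    Tendsto (fun T : ℝ => (T ^ d)⁻¹ * ∫ z : E d,
      ‖∑ p ∈ S, a p * ex p (cx z)‖ ^ 2 * ((1 + ‖z‖ / T) ^ (2 * d + 1))⁻¹) atTop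
      (𝓝 ((∑ p ∈ S, ‖a p‖ ^ 2) * ∫ z : E d, ((1 + ‖z‖) ^ (2 * d + 1))⁻¹)) := by
  classical
  have i1 : Integrable (fun z : E d => ((1 + ‖z‖) ^ (2 * d + 1))⁻¹) := by
    have := integrable_weight d one_pos
    simpa using this
  refine ⟨i1, fun T hT => ?_, ?_⟩
  · have h1 := (integrable_weight d hT).bdd_mul (c := (∑ p ∈ S, ‖a p‖) ^ 2)
      (f := fun z => ‖tsm S a z‖ ^ 2) (by have := continuous_tsm S a; fun_prop)
      (Eventually.of_forall fun z => by
        rw [Real.norm_eq_abs, abs_of_nonneg (by positivity)]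
        exact pow_le_pow_left₀ (norm_nonneg _) (norm_tsm_le S a z) 2)
    exact h1
  · -- complexify
    have e1 : ∀ T : ℝ, 0 < T → (((T ^ d)⁻¹ * ∫ z : E d,
        ‖∑ p ∈ S, a p * ex p (cx z)‖ ^ 2 * ((1 + ‖z‖ / T) ^ (2 * d + 1))⁻¹ : ℝ) : ℂ) =
        ∑ p ∈ S, ∑ q ∈ S, a p * (starRingEnd ℂ) (a q) *
          ∫ w : E d, ex (p - q) (cx (T • w)) * ((((1 + ‖w‖) ^ (2 * d + 1))⁻¹ : ℝ) : ℂ) := by
      intro T hT
      rw [Complex.ofReal_mul, Complex.ofReal_inv, ← integral_complex_ofReal]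
      have e2 : ∀ z : E d, ((‖∑ p ∈ S, a p * ex p (cx z)‖ ^ 2 *
          ((1 + ‖z‖ / T) ^ (2 * d + 1))⁻¹ : ℝ) : ℂ) =
          (∑ p ∈ S, ∑ q ∈ S, a p * (starRingEnd ℂ) (a q) * ex (p - q) (cx z)) *
            ((((1 + ‖z‖ / T) ^ (2 * d + 1))⁻¹ : ℝ) : ℂ) := by
        intro z
        rw [Complex.ofReal_mul]
        congr 1
        rw [Complex.ofReal_pow, ← Complex.mul_conj', map_sum, Finset.sum_mul_sum]
        refine Finset.sum_congr rfl fun p _ => Finset.sum_congr rfl fun q _ => ?_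
        rw [map_mul, conj_ex_cx, sub_eq_add_neg, ex_add_left]
        ring
      simp only [e2]
      rw [wsc hT (fun z => ∑ p ∈ S, ∑ q ∈ S, a p * (starRingEnd ℂ) (a q) * ex (p - q) (cx z))]
      simp only [Finset.sum_mul]
      have hi : ∀ p q : E d, Integrable fun w : E d => a p * (starRingEnd ℂ) (a q) *
          ex (p - q) (cx (T • w)) * ((((1 + ‖w‖) ^ (2 * d + 1))⁻¹ : ℝ) : ℂ) := by
        intro p q
        have h3 : Integrable fun w : E d => ((((1 + ‖w‖) ^ (2 * d + 1))⁻¹ : ℝ) : ℂ) := i1.ofReal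
        refine h3.bdd_mul (c := ‖a p * (starRingEnd ℂ) (a q)‖) ?_ (Eventually.of_forall fun w => ?_)
        · have := continuous_cx (d := d)
          fun_prop
        · rw [norm_mul, norm_ex_cx, mul_one]
      rw [integral_finsetSum _ fun p _ => integrable_finsetSum _ fun q _ => hi p q]
      refine Finset.sum_congr rfl fun p _ => ?_
      rw [integral_finsetSum _ fun q _ => hi p q]
      refine Finset.sum_congr rfl fun q _ => ?_
      rw [← integral_const_mul]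
      simp only [mul_assoc]
    have h4 : Tendsto (fun T : ℝ => ∑ p ∈ S, ∑ q ∈ S, a p * (starRingEnd ℂ) (a q) *
          ∫ w : E d, ex (p - q) (cx (T • w)) * ((((1 + ‖w‖) ^ (2 * d + 1))⁻¹ : ℝ) : ℂ)) atTop
        (𝓝 (∑ p ∈ S, ∑ q ∈ S, a p * (starRingEnd ℂ) (a q) *
          (if p = q then ((∫ w : E d, ((1 + ‖w‖) ^ (2 * d + 1))⁻¹ : ℝ) : ℂ) else 0))) := by
      refine tendsto_finsetSum _ fun p _ => tendsto_finsetSum _ fun q _ => Tendsto.const_mul _ ?_
      split_ifs with hpq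
      · subst hpq
        simp only [sub_self, ex_zero_left, one_mul]
        rw [integral_complex_ofReal]
        exact tendsto_const_nhds
      · exact osc_limit (p - q) (sub_ne_zero.mpr hpq)
    have h5 : ∑ p ∈ S, ∑ q ∈ S, a p * (starRingEnd ℂ) (a q) *
          (if p = q then ((∫ w : E d, ((1 + ‖w‖) ^ (2 * d + 1))⁻¹ : ℝ) : ℂ) else 0) =
        (((∑ p ∈ S, ‖a p‖ ^ 2) * ∫ z : E d, ((1 + ‖z‖) ^ (2 * d + 1))⁻¹ : ℝ) : ℂ) := by
      rw [Complex.ofReal_mul, Complex.ofReal_sum, Finset.sum_mul]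
      refine Finset.sum_congr rfl fun p hp => ?_
      simp only [mul_ite, mul_zero]
      rw [Finset.sum_ite_eq, if_pos hp, Complex.mul_conj', Complex.ofReal_pow]
    rw [h5] at h4
    have h6 := (Complex.continuous_re.tendsto _).comp h4
    rw [Complex.ofReal_re] at h6
    refine h6.congr' ?_
    filter_upwards [eventually_gt_atTop 0] with T hT
    simp only [Function.comp_apply]
    rw [← e1 T hT, Complex.ofReal_re]

end FQ
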