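import Pool.Agent.Helper17.FQFin

/-!
# The weighted large sieve estimate
-/

open scoped BigOperators SchwartzMap FourierTransform RealInnerProductSpace ContDiff
open MeasureTheory Complex Filter Topology

noncomputable section

namespace FQ

variable {d : ℕ}

/-- a reproducing kernel -/
lemma repro (d : ℕ) : ∃ φ : E d → ℂ, Continuous φ ∧ Integrable φ ∧
    (∃ C : ℝ, 0 < C ∧ ∀ u, ‖φ u‖ ≤ C * ((1 + ‖u‖) ^ (4 * d + 3))⁻¹) ∧
    ∀ p : E d, ‖p‖ ≤ 1 → ∫ u, φ u * ex p (cx u) = 1 := by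
  let f : ContDiffBump (0 : E d) := ⟨1, 2, by norm_num, by norm_num⟩
  have H : TF (fun ξ : E d => ((f ξ : ℝ) : ℂ)) 0 2 := by
    refine ⟨Complex.ofRealCLM.contDiff.comp f.contDiff, fun ξ hξ => ?_⟩
    rw [f.zero_of_le_dist (by rw [dist_eq_norm]; exact hξ)]
    simp
  set h : E d → ℂ := fun ξ : E d => ((f ξ : ℝ) : ℂ) with hh
  let Φ : 𝓢(E d, ℂ) := 𝓕 H.toS
  have hS : ∀ u, psi h (cx u) = Φ u := by
    intro u
    rw [psi_cx, SchwartzMap.fourier_coe]; rfl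
  have hSf : (fun u : E d => psi h (cx u)) = ⇑Φ := funext hS
  refine ⟨fun u => psi h (cx u), ?_, ?_, H.decay _, ?_⟩
  · rw [hSf]; exact Φ.continuous
  · rw [hSf]; exact Φ.integrable
  · intro p hp
    have h1 : 𝓕⁻ Φ = H.toS := FourierTransform.fourierInv_fourier_eq _
    have h2 : (𝓕⁻ Φ : 𝓢(E d, ℂ)) p = 1 := by
      rw [h1, TF.toS_apply, hh]
      simp only
      rw [f.one_of_mem_closedBall (by simpa using hp)]
      simp
    rw [← h2, SchwartzMap.fourierInv_coe, Real.fourierInv_eq']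
    refine integral_congr_ae (Eventually.of_forall fun u => ?_)
    simp only [smul_eq_mul]
    rw [hS u, ex_cx, mul_comm, real_inner_comm]

/-- Cauchy-Schwarz -/
lemma cs_integral {φ g : E d → ℂ} (hφ : Integrable φ) (hgc : Continuous g)
    {B : ℝ} (hB : ∀ z, ‖g z‖ ≤ B) :
    ‖∫ z, φ z * g z‖ ^ 2 ≤ (∫ z, ‖φ z‖) * ∫ z, ‖φ z‖ * ‖g z‖ ^ 2 := by
  have h1 : ‖∫ z, φ z * g z‖ ≤ ∫ z, ‖φ z‖ * ‖g z‖ := by
    refine (norm_integral_le_integral_norm _).trans (le_of_eq ?_)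
    simp only [norm_mul]
  have i1 : Integrable fun z => ‖φ z‖ * ‖g z‖ := by
    have := hφ.norm.mul_bdd (c := B) (f := fun z => ‖φ z‖) (g := fun z => ‖g z‖) (by fun_prop)
      (Eventually.of_forall fun z => by simpa using hB z)
    exact this
  have i2 : Integrable fun z => ‖φ z‖ * ‖g z‖ ^ 2 := by
    have := hφ.norm.mul_bdd (c := B ^ 2) (f := fun z => ‖φ z‖) (g := fun z => ‖g z‖ ^ 2)
      (by fun_prop) (Eventually.of_forall fun z => by
        rw [Real.norm_eq_abs, abs_of_nonneg (by positivity)]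
        exact pow_le_pow_left₀ (norm_nonneg _) (hB z) 2)
    exact this
  set P := ∫ z, ‖φ z‖ with hP
  set Q := ∫ z, ‖φ z‖ * ‖g z‖ with hQ
  set R := ∫ z, ‖φ z‖ * ‖g z‖ ^ 2 with hR
  have hP0 : 0 ≤ P := integral_nonneg fun _ => norm_nonneg _
  have hQ0 : 0 ≤ Q := integral_nonneg fun _ => by positivity
  have h2 : ∀ l : ℝ, 0 ≤ R - 2 * l * Q + l ^ 2 * P := by
    intro l
    have h3 : R - 2 * l * Q + l ^ 2 * P = ∫ z, ‖φ z‖ * (‖g z‖ - l) ^ 2 := by
      have e : ∀ z, ‖φ z‖ * (‖g z‖ - l) ^ 2 =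
          ‖φ z‖ * ‖g z‖ ^ 2 - (2 * l * (‖φ z‖ * ‖g z‖) - l ^ 2 * ‖φ z‖) := fun z => by ring
      simp only [e]
      have i3 : Integrable fun z => 2 * l * (‖φ z‖ * ‖g z‖) := i1.const_mul _
      have i4 : Integrable fun z => l ^ 2 * ‖φ z‖ := hφ.norm.const_mul _
      have i5 : Integrable fun z => 2 * l * (‖φ z‖ * ‖g z‖) - l ^ 2 * ‖φ z‖ := i3.sub i4
      rw [integral_sub i2 i5, integral_sub i3 i4, integral_const_mul, integral_const_mul]
      ring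
    rw [h3]
    exact integral_nonneg fun _ => by positivity
  have h4 : Q ^ 2 ≤ P * R := by
    rcases hP0.eq_or_lt with h0 | h0
    · -- P = 0: Q must vanish
      have hQz : Q = 0 := by
        by_contra hne
        have hQp : 0 < Q := lt_of_le_of_ne hQ0 (Ne.symm hne)
        have := h2 ((R + 1) / (2 * Q))
        rw [← h0] at this
        have e : 2 * ((R + 1) / (2 * Q)) * Q = R + 1 := by field_simp
        rw [e] at this
        linarith
      rw [hQz, ← h0]; simp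
    · have := h2 (Q / P)
      have e : R - 2 * (Q / P) * Q + (Q / P) ^ 2 * P = R - Q ^ 2 / P := by
        field_simp
        ring
      rw [e] at this
      have h5 : Q ^ 2 / P ≤ R := by linarith
      rw [div_le_iff₀ h0] at h5
      linarith
  calc ‖∫ z, φ z * g z‖ ^ 2 ≤ Q ^ 2 := pow_le_pow_left₀ (norm_nonneg _) h1 2
    _ ≤ _ := h4

/-- sums over separated indices -/
lemma idx_sum {κ : ℝ} (hκ : 0 < κ) : ∃ C : ℝ, 0 < C ∧ ∀ (m : ℕ) (g : ℕ → ℝ),
    (∀ i < m, 0 ≤ g i) → (∀ i < m, ∀ j < m, κ * |(i:ℝ) - j| ≤ g i + g j) →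
    ∑ i ∈ Finset.range m, ((1 + g i) ^ 2)⁻¹ ≤ C := by
  set μ : ℝ := min 1 (κ / 2) with hμ
  have hμ0 : 0 < μ := by positivity
  have hs : Summable fun k : ℤ => (μ ^ 2)⁻¹ * ((1 + |(k:ℝ)|) ^ 2)⁻¹ := summable_int_aux.mul_left _
  refine ⟨∑' k : ℤ, (μ ^ 2)⁻¹ * ((1 + |(k:ℝ)|) ^ 2)⁻¹ + 1, by
    have : 0 ≤ ∑' k : ℤ, (μ ^ 2)⁻¹ * ((1 + |(k:ℝ)|) ^ 2)⁻¹ := tsum_nonneg fun k => by positivity
    linarith, fun m g hg h => ?_⟩
  rcases Nat.eq_zero_or_pos m with rfl | hm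
  · simp only [Finset.range_zero, Finset.sum_empty]
    have : 0 ≤ ∑' k : ℤ, (μ ^ 2)⁻¹ * ((1 + |(k:ℝ)|) ^ 2)⁻¹ := tsum_nonneg fun k => by positivity
    linarith
  obtain ⟨i₀, hi₀, hmin⟩ := Finset.exists_min_image (Finset.range m) g ⟨0, by simpa using hm⟩
  rw [Finset.mem_range] at hi₀
  have h1 : ∀ i ∈ Finset.range m, ((1 + g i) ^ 2)⁻¹ ≤
      (fun k : ℤ => (μ ^ 2)⁻¹ * ((1 + |(k:ℝ)|) ^ 2)⁻¹) ((i : ℤ) - i₀) := by
    intro i hi
    have hi' := Finset.mem_range.mp hi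
    simp only
    rw [← mul_inv, ← mul_pow]
    have h2 := h i hi' i₀ hi₀
    have h3 := hmin i hi
    have h4 : μ * (1 + |(((i:ℤ) - i₀ : ℤ) : ℝ)|) ≤ 1 + g i := by
      push_cast
      have h5 : μ ≤ 1 := min_le_left _ _
      have h6 : μ * |(i:ℝ) - i₀| ≤ κ / 2 * |(i:ℝ) - i₀| :=
        mul_le_mul_of_nonneg_right (min_le_right _ _) (abs_nonneg _)
      nlinarith
    have h7 : 0 < μ * (1 + |(((i:ℤ) - i₀ : ℤ) : ℝ)|) := by positivity
    exact inv_anti₀ (by positivity) (pow_le_pow_left₀ h7.le h4 2)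
  calc ∑ i ∈ Finset.range m, ((1 + g i) ^ 2)⁻¹
      ≤ ∑ i ∈ Finset.range m, (fun k : ℤ => (μ ^ 2)⁻¹ * ((1 + |(k:ℝ)|) ^ 2)⁻¹) ((i : ℤ) - i₀) :=
        Finset.sum_le_sum h1
    _ = ∑ k ∈ (Finset.range m).image (fun i : ℕ => (i : ℤ) - i₀),
          (μ ^ 2)⁻¹ * ((1 + |(k:ℝ)|) ^ 2)⁻¹ := by
        rw [Finset.sum_image]
        intro a _ b _ hab
        simpa using hab
    _ ≤ ∑' k : ℤ, (μ ^ 2)⁻¹ * ((1 + |(k:ℝ)|) ^ 2)⁻¹ :=
        hs.sum_le_tsum _ fun k _ => by positivity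
    _ ≤ _ := by linarith

lemma weight_le {T : ℝ} (hT : 1 ≤ T) (x z : E d) (k : ℕ) :
    ((1 + ‖x‖ / T) ^ k)⁻¹ ≤ (1 + ‖x - z‖) ^ k * ((1 + ‖z‖ / T) ^ k)⁻¹ := by
  have hT0 : 0 < T := by linarith
  have h1 : 1 + ‖z‖ / T ≤ (1 + ‖x‖ / T) * (1 + ‖x - z‖) := by
    have h2 : ‖z‖ ≤ ‖x‖ + ‖x - z‖ := by
      calc ‖z‖ = ‖x - (x - z)‖ := by congr 1; abel
        _ ≤ _ := norm_sub_le _ _
    have h3 : ‖z‖ / T ≤ ‖x‖ / T + ‖x - z‖ := by
      rw [div_add' _ _ _ hT0.ne', div_le_div_iff_of_pos_right hT0]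
      nlinarith [norm_nonneg (x - z)]
    have h4 : 0 ≤ ‖x‖ / T * ‖x - z‖ := by positivity
    nlinarith
  rw [← div_eq_mul_inv, inv_eq_one_div, div_le_div_iff₀ (by positivity) (by positivity), one_mul,
    ← mul_pow, mul_comm (1 + ‖x - z‖)]
  exact pow_le_pow_left₀ (by positivity) h1 k

lemma integrable_weight (d : ℕ) {T : ℝ} (hT : 0 < T) :
    Integrable (fun z : E d => ((1 + ‖z‖ / T) ^ (2 * d + 1))⁻¹) := by
  have h1 : Integrable (fun z : E d => (1 + ‖z‖) ^ (-((2 * d + 1 : ℕ) : ℝ))) := by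
    apply integrable_one_add_norm
    rw [finrank_euclideanSpace, Fintype.card_fin]
    push_cast
    have : (0:ℝ) ≤ d := Nat.cast_nonneg d
    linarith
  have h2 : Integrable (fun z : E d => ((1 + ‖z‖) ^ (2 * d + 1))⁻¹) := by
    refine h1.congr (Eventually.of_forall fun z => ?_)
    simp only
    rw [Real.rpow_neg (by positivity), Real.rpow_natCast]
  have h3 := h2.comp_smul (R := T⁻¹) (by positivity)
  refine h3.congr (Eventually.of_forall fun z => ?_)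
  simp only
  rw [norm_smul, Real.norm_eq_abs, abs_of_pos (by positivity), inv_mul_eq_div]

/-- trigonometric sum -/
def tsm (P : Finset (E d)) (a : E d → ℂ) (x : E d) : ℂ := ∑ p ∈ P, a p * ex p (cx x)

lemma continuous_tsm (P : Finset (E d)) (a : E d → ℂ) : Continuous (tsm P a) := by
  unfold tsm
  have := continuous_cx (d := d)
  fun_prop

lemma norm_tsm_le (P : Finset (E d)) (a : E d → ℂ) (x : E d) : ‖tsm P a x‖ ≤ ∑ p ∈ P, ‖a p‖ := by
  refine (norm_sum_le _ _).trans (Finset.sum_le_sum fun p _ => ?_)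
  rw [norm_mul, norm_ex_cx, mul_one]

/-- reproducing formula for trigonometric sums with small frequencies -/
lemma repro_tsm {φ : E d → ℂ} (hφ : Integrable φ)
    (hφ1 : ∀ p : E d, ‖p‖ ≤ 1 → ∫ u, φ u * ex p (cx u) = 1) {L : ℝ} (hL : 0 < L)
    (P : Finset (E d)) (a : E d → ℂ) (hP : ∀ p ∈ P, ‖p‖ ≤ L) (y : E d) :
    tsm P a y = ∫ v, φ v * tsm P a (y - L⁻¹ • v) := by
  unfold tsm
  have e1 : ∀ v, φ v * ∑ p ∈ P, a p * ex p (cx (y - L⁻¹ • v)) =
      ∑ p ∈ P, a p * ex p (cx y) * (φ v * ex (-(L⁻¹ • p)) (cx v)) := by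
    intro v
    rw [Finset.mul_sum]
    refine Finset.sum_congr rfl fun p _ => ?_
    have e2 : ex p (cx (y - L⁻¹ • v)) = ex p (cx y) * ex (-(L⁻¹ • p)) (cx v) := by
      rw [cx_sub, ex_sub_right, ex_neg_left]
      congr 2
      rw [cx_smul]
      unfold ex
      rw [pr_smul_right, pr_smul_left]
    rw [e2]; ring
  simp only [e1]
  rw [integral_finsetSum]
  · refine Finset.sum_congr rfl fun p hp => ?_
    rw [integral_const_mul, hφ1, mul_one]
    rw [norm_neg, norm_smul, norm_inv, Real.norm_eq_abs, abs_of_pos hL, inv_mul_le_iff₀ hL, mul_one]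
    exact hP p hp
  · intro p _
    apply Integrable.const_mul
    refine hφ.mul_bdd (c := 1) ?_ (Eventually.of_forall fun v => by simp)
    exact ((continuous_ex_right _).comp continuous_cx).aestronglyMeasurable

/-- pointwise bound -/
lemma tsm_sq_le {φ : E d → ℂ} (hφ : Integrable φ)
    (hφ1 : ∀ p : E d, ‖p‖ ≤ 1 → ∫ u, φ u * ex p (cx u) = 1) {L : ℝ} (hL : 0 < L)
    (P : Finset (E d)) (a : E d → ℂ) (hP : ∀ p ∈ P, ‖p‖ ≤ L) (y : E d) :
    ‖tsm P a y‖ ^ 2 ≤ (∫ v, ‖φ v‖) * (L ^ d * ∫ z, ‖φ (L • (y - z))‖ * ‖tsm P a z‖ ^ 2) := by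
  have hc : Continuous fun v : E d => tsm P a (y - L⁻¹ • v) :=
    (continuous_tsm P a).comp (by fun_prop)
  have h1 := cs_integral hφ hc (B := ∑ p ∈ P, ‖a p‖) (fun v => norm_tsm_le P a _)
  rw [← repro_tsm hφ hφ1 hL P a hP y] at h1
  refine h1.trans (le_of_eq ?_)
  congr 1
  -- change of variables
  have h2 : ∫ v, ‖φ v‖ * ‖tsm P a (y - L⁻¹ • v)‖ ^ 2 =
      L ^ d * ∫ w : E d, ‖φ (L • w)‖ * ‖tsm P a (y - w)‖ ^ 2 := by
    have h3 := MeasureTheory.Measure.integral_comp_smul (μ := (volume : Measure (E d)))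
      (fun v : E d => ‖φ v‖ * ‖tsm P a (y - L⁻¹ • v)‖ ^ 2) L
    rw [finrank_euclideanSpace, Fintype.card_fin, abs_of_pos (by positivity), smul_eq_mul] at h3
    have h4 : (fun x : E d => ‖φ (L • x)‖ * ‖tsm P a (y - L⁻¹ • L • x)‖ ^ 2) =
        fun w : E d => ‖φ (L • w)‖ * ‖tsm P a (y - w)‖ ^ 2 := by
      ext w
      rw [smul_smul, inv_mul_cancel₀ hL.ne', one_smul]
    rw [h4] at h3
    rw [h3, ← mul_assoc, mul_inv_cancel₀ (by positivity), one_mul]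
  rw [h2]
  congr 1
  rw [← integral_sub_left_eq_self (μ := (volume : Measure (E d)))
    (fun w : E d => ‖φ (L • w)‖ * ‖tsm P a (y - w)‖ ^ 2) y]
  congr 1
  ext z
  rw [sub_sub_cancel]

/-- the weighted large sieve -/
theorem sieve (F : FQS d) {κ : ℝ} (hκ : 0 < κ) : ∃ C : ℝ, 0 < C ∧ ∀ (Lr : ℝ) (m : ℕ), 1 ≤ Lr →
    ∀ (S : Finset (E d)), (∀ x ∈ S, x ∈ F.L) →
    ∀ y : E d → ℕ → E d, (∀ x ∈ S, ∀ i < m, ‖y x i - x‖ ≤ 1) →
    (∀ x ∈ S, ∀ i < m, ∀ j < m, κ * |(i:ℝ) - j| ≤ Lr * ‖y x i - y x j‖) →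
    ∀ (P : Finset (E d)) (a : E d → ℂ), (∀ p ∈ P, ‖p‖ ≤ Lr) → ∀ T : ℝ, 1 ≤ T →
    ∑ x ∈ S, ((1 + ‖x‖ / T) ^ (2 * d + 1))⁻¹ * ∑ i ∈ Finset.range m, ‖tsm P a (y x i)‖ ^ 2 ≤
    C * Lr ^ d * ∫ z : E d, ‖tsm P a z‖ ^ 2 * ((1 + ‖z‖ / T) ^ (2 * d + 1))⁻¹ := by
  classical
  obtain ⟨φ, hφc, hφi, ⟨C₁, hC₁, hφd⟩, hφ1⟩ := repro d
  obtain ⟨C₂, hC₂, hidx⟩ := idx_sum hκ
  obtain ⟨C₃, hC₃, hwt⟩ := F.wt_sum
  set A₀ : ℝ := ∫ v, ‖φ v‖ with hA₀
  have hA₀0 : 0 ≤ A₀ := integral_nonneg fun _ => norm_nonneg _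
  refine ⟨A₀ * (C₁ * 2 ^ (4 * d + 1) * C₂ * C₃) + 1, by positivity, ?_⟩
  intro L m hL S hS y hy1 hy2 P a hP T hT
  have hL0 : 0 < L := by linarith
  have hT0 : 0 < T := by linarith
  set W : E d → ℝ := fun x => ((1 + ‖x‖ / T) ^ (2 * d + 1))⁻¹ with hW
  have hW0 : ∀ x, 0 ≤ W x := fun x => by simp only [hW]; positivity
  -- kernel bound
  have hker : ∀ z : E d, ∑ x ∈ S, W x * ∑ i ∈ Finset.range m, ‖φ (L • (y x i - z))‖ ≤
      C₁ * 2 ^ (4 * d + 1) * C₂ * C₃ * W z := by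
    intro z
    have h1 : ∀ x ∈ S, W x * ∑ i ∈ Finset.range m, ‖φ (L • (y x i - z))‖ ≤
        C₁ * 2 ^ (4 * d + 1) * C₂ * W z * wt (x - z) := by
      intro x hx
      have h2 : ∀ i ∈ Finset.range m, ‖φ (L • (y x i - z))‖ ≤
          C₁ * 2 ^ (4 * d + 1) * ((1 + ‖x - z‖) ^ (4 * d + 1))⁻¹ *
            ((1 + L * ‖y x i - z‖) ^ 2)⁻¹ := by
        intro i hi
        have hi' := Finset.mem_range.mp hi
        have h3 := hφd (L • (y x i - z))
        rw [norm_smul, Real.norm_eq_abs, abs_of_pos hL0] at h3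
        refine h3.trans ?_
        have h4 : 1 + ‖x - z‖ ≤ 2 * (1 + L * ‖y x i - z‖) := by
          have h5 : ‖x - z‖ ≤ 1 + ‖y x i - z‖ := by
            calc ‖x - z‖ = ‖(y x i - z) - (y x i - x)‖ := by congr 1; abel
              _ ≤ ‖y x i - z‖ + ‖y x i - x‖ := norm_sub_le _ _
              _ ≤ 1 + ‖y x i - z‖ := by have := hy1 x hx i hi'; linarith
          have h6 : ‖y x i - z‖ ≤ L * ‖y x i - z‖ := le_mul_of_one_le_left (norm_nonneg _) hL
          linarith [norm_nonneg (y x i - z)]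
        have h7 : ((1 + L * ‖y x i - z‖) ^ (4 * d + 1))⁻¹ ≤
            2 ^ (4 * d + 1) * ((1 + ‖x - z‖) ^ (4 * d + 1))⁻¹ := by
          rw [← div_eq_mul_inv, inv_eq_one_div, div_le_div_iff₀ (by positivity) (by positivity),
            one_mul, ← mul_pow]
          exact pow_le_pow_left₀ (by positivity) h4 _
        have h8 : ((1 + L * ‖y x i - z‖) ^ (4 * d + 3))⁻¹ =
            ((1 + L * ‖y x i - z‖) ^ (4 * d + 1))⁻¹ * ((1 + L * ‖y x i - z‖) ^ 2)⁻¹ := by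
          rw [← mul_inv, ← pow_add]
        rw [h8, ← mul_assoc]
        apply mul_le_mul_of_nonneg_right _ (by positivity)
        rw [mul_assoc]
        exact mul_le_mul_of_nonneg_left h7 hC₁.le
      have h9 : ∑ i ∈ Finset.range m, ((1 + L * ‖y x i - z‖) ^ 2)⁻¹ ≤ C₂ := by
        apply hidx m (fun i => L * ‖y x i - z‖)
        · intro i _; positivity
        · intro i hi j hj
          refine (hy2 x hx i hi j hj).trans ?_
          rw [← mul_add]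
          apply mul_le_mul_of_nonneg_left _ hL0.le
          calc ‖y x i - y x j‖ = ‖(y x i - z) - (y x j - z)‖ := by congr 1; abel
            _ ≤ _ := norm_sub_le _ _
      have h10 : ∑ i ∈ Finset.range m, ‖φ (L • (y x i - z))‖ ≤
          C₁ * 2 ^ (4 * d + 1) * ((1 + ‖x - z‖) ^ (4 * d + 1))⁻¹ * C₂ := by
        refine (Finset.sum_le_sum h2).trans ?_
        rw [← Finset.mul_sum]
        exact mul_le_mul_of_nonneg_left h9 (by positivity)
      have h11 : W x ≤ (1 + ‖x - z‖) ^ (2 * d + 1) * W z := weight_le hT x z _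
      calc W x * ∑ i ∈ Finset.range m, ‖φ (L • (y x i - z))‖
          ≤ ((1 + ‖x - z‖) ^ (2 * d + 1) * W z) *
            (C₁ * 2 ^ (4 * d + 1) * ((1 + ‖x - z‖) ^ (4 * d + 1))⁻¹ * C₂) :=
            mul_le_mul h11 h10 (Finset.sum_nonneg fun _ _ => norm_nonneg _)
              (mul_nonneg (by positivity) (hW0 z))
        _ = C₁ * 2 ^ (4 * d + 1) * C₂ * W z * wt (x - z) := by
            unfold wt
            have e : ((1 + ‖x - z‖) ^ (4 * d + 1))⁻¹ =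
                ((1 + ‖x - z‖) ^ (2 * d + 1))⁻¹ * ((1 + ‖x - z‖) ^ (2 * d))⁻¹ := by
              rw [← mul_inv, ← pow_add]
              congr 2
              ring
            rw [e]
            have h12 : ((1 + ‖x - z‖) ^ (2 * d + 1)) ≠ 0 := by positivity
            field_simp
    refine (Finset.sum_le_sum h1).trans ?_
    rw [← Finset.mul_sum]
    have h13 : ∑ x ∈ S, wt (x - z) ≤ C₃ := by
      have h14 := (hwt z)
      let S' : Finset F.L := S.attach.map ⟨fun x => ⟨x.1, hS x.1 x.2⟩, fun a b hab => by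
        ext1; exact congrArg (fun u : F.L => (u : E d)) hab⟩
      have h15 : ∑ x ∈ S, wt (x - z) = ∑ x ∈ S', wt ((x : E d) - z) := by
        rw [Finset.sum_map, ← Finset.sum_attach]
        rfl
      rw [h15]
      exact (h14.1.sum_le_tsum _ fun _ _ => wt_nonneg _).trans h14.2
    calc C₁ * 2 ^ (4 * d + 1) * C₂ * W z * ∑ x ∈ S, wt (x - z)
        ≤ C₁ * 2 ^ (4 * d + 1) * C₂ * W z * C₃ :=
          mul_le_mul_of_nonneg_left h13 (mul_nonneg (by positivity) (hW0 z))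
      _ = _ := by ring
  -- integrability
  have hB : ∀ z, ‖tsm P a z‖ ^ 2 ≤ (∑ p ∈ P, ‖a p‖) ^ 2 := fun z =>
    pow_le_pow_left₀ (norm_nonneg _) (norm_tsm_le P a z) 2
  have hcf := continuous_tsm P a
  have i1 : Integrable fun z : E d => ‖tsm P a z‖ ^ 2 * W z := by
    have := (integrable_weight d hT0).bdd_mul (c := (∑ p ∈ P, ‖a p‖) ^ 2)
      (f := fun z => ‖tsm P a z‖ ^ 2) (by fun_prop)
      (Eventually.of_forall fun z => by
        rw [Real.norm_eq_abs, abs_of_nonneg (by positivity)]; exact hB z)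
    exact this
  have i2 : ∀ w : E d, Integrable fun z : E d => ‖φ (L • (w - z))‖ * ‖tsm P a z‖ ^ 2 := by
    intro w
    have h1 : Integrable fun z : E d => φ (L • (w - z)) :=
      ((hφi.comp_smul hL0.ne').comp_sub_left w)
    have := h1.norm.mul_bdd (c := (∑ p ∈ P, ‖a p‖) ^ 2)
      (g := fun z => ‖tsm P a z‖ ^ 2) (by fun_prop)
      (Eventually.of_forall fun z => by
        rw [Real.norm_eq_abs, abs_of_nonneg (by positivity)]; exact hB z)
    exact this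
  -- main chain
  have hstep : ∑ x ∈ S, W x * ∑ i ∈ Finset.range m, ‖tsm P a (y x i)‖ ^ 2 ≤
      A₀ * L ^ d * ∫ z, (∑ x ∈ S, W x * ∑ i ∈ Finset.range m, ‖φ (L • (y x i - z))‖) *
        ‖tsm P a z‖ ^ 2 := by
    have h1 : ∫ z, (∑ x ∈ S, W x * ∑ i ∈ Finset.range m, ‖φ (L • (y x i - z))‖) *
        ‖tsm P a z‖ ^ 2 = ∑ x ∈ S, W x * ∑ i ∈ Finset.range m,
          ∫ z, ‖φ (L • (y x i - z))‖ * ‖tsm P a z‖ ^ 2 := by
      simp only [Finset.sum_mul]
      rw [integral_finsetSum]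
      · refine Finset.sum_congr rfl fun x _ => ?_
        have e : ∀ z, W x * (∑ i ∈ Finset.range m, ‖φ (L • (y x i - z))‖) * ‖tsm P a z‖ ^ 2 =
            W x * ∑ i ∈ Finset.range m, ‖φ (L • (y x i - z))‖ * ‖tsm P a z‖ ^ 2 := by
          intro z; rw [mul_assoc, Finset.sum_mul]
        simp only [e]
        rw [integral_const_mul, integral_finsetSum]
        intro i _
        exact i2 _
      · intro x _
        have e : ∀ z, W x * (∑ i ∈ Finset.range m, ‖φ (L • (y x i - z))‖) * ‖tsm P a z‖ ^ 2 =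
            W x * ∑ i ∈ Finset.range m, ‖φ (L • (y x i - z))‖ * ‖tsm P a z‖ ^ 2 := by
          intro z; rw [mul_assoc, Finset.sum_mul]
        simp only [e]
        exact (integrable_finsetSum _ fun i _ => i2 _).const_mul _
    rw [h1, Finset.mul_sum]
    refine Finset.sum_le_sum fun x _ => ?_
    have h2 : ∑ i ∈ Finset.range m, ‖tsm P a (y x i)‖ ^ 2 ≤
        ∑ i ∈ Finset.range m, A₀ * (L ^ d * ∫ z, ‖φ (L • (y x i - z))‖ * ‖tsm P a z‖ ^ 2) :=
      Finset.sum_le_sum fun i _ => tsm_sq_le hφi hφ1 hL0 P a hP (y x i)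
    refine (mul_le_mul_of_nonneg_left h2 (hW0 x)).trans (le_of_eq ?_)
    rw [Finset.mul_sum, Finset.mul_sum, Finset.mul_sum]
    refine Finset.sum_congr rfl fun i _ => ?_
    ring
  refine hstep.trans ?_
  have h3 : ∫ z, (∑ x ∈ S, W x * ∑ i ∈ Finset.range m, ‖φ (L • (y x i - z))‖) *
        ‖tsm P a z‖ ^ 2 ≤ ∫ z, (C₁ * 2 ^ (4 * d + 1) * C₂ * C₃) * (‖tsm P a z‖ ^ 2 * W z) := by
    apply integral_mono_of_nonneg
    · refine Eventually.of_forall fun z => ?_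
      simp only [Pi.zero_apply]
      exact mul_nonneg (Finset.sum_nonneg fun x _ => mul_nonneg (hW0 x)
        (Finset.sum_nonneg fun _ _ => norm_nonneg _)) (by positivity)
    · exact i1.const_mul _
    · refine Eventually.of_forall fun z => ?_
      simp only
      have := mul_le_mul_of_nonneg_right (hker z) (by positivity : 0 ≤ ‖tsm P a z‖ ^ 2)
      refine this.trans (le_of_eq ?_)
      ring
  rw [integral_const_mul] at h3
  have h4 : 0 ≤ ∫ z, ‖tsm P a z‖ ^ 2 * W z :=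
    integral_nonneg fun z => mul_nonneg (by positivity) (hW0 z)
  calc A₀ * L ^ d * ∫ z, (∑ x ∈ S, W x * ∑ i ∈ Finset.range m, ‖φ (L • (y x i - z))‖) *
        ‖tsm P a z‖ ^ 2
      ≤ A₀ * L ^ d * ((C₁ * 2 ^ (4 * d + 1) * C₂ * C₃) * ∫ z, ‖tsm P a z‖ ^ 2 * W z) :=
        mul_le_mul_of_nonneg_left h3 (by positivity)
    _ ≤ _ := by
        have h5 : 0 ≤ L ^ d * ∫ z, ‖tsm P a z‖ ^ 2 * W z := by positivity
        nlinarith

end FQ
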