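import Pool.Agent.Helper17.FQFlow
import Pool.Agent.Helper17.FQSieve
import Pool.Agent.Helper17.FQDens
import Pool.Agent.Helper7.FQCount
import Pool.Agent.Helper17.FQDim
import Pool.Agent.Helper17.FQMW

/-!
# The Jacobian condition holds for every Fourier quasicrystal
-/

open scoped BigOperators SchwartzMap FourierTransform RealInnerProductSpace ContDiff
open MeasureTheory Complex Filter Topology

noncomputable section

namespace FQ

variable {d n : ℕ}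

namespace FQG

variable (G : FQG d n)

/-- elements of the algebra as trigonometric sums -/
lemma ev_tsm (f : A n) : ∃ (P : Finset (E d)) (a : E d → ℂ),
    (∀ z : E d, G.ev (cx z) f = tsm P a z) ∧ (∀ p ∈ P, ∃ q, f.coeff q ≠ 0 ∧ G.L q = p) ∧
    ∑ p ∈ P, ‖a p‖ ^ 2 = ∑ q ∈ f.coeff.support, ‖f.coeff q‖ ^ 2 := by
  classical
  have hinv : ∀ q, Function.invFun G.L (G.L q) = q := Function.leftInverse_invFun G.inj
  refine ⟨f.coeff.support.image G.L, fun p => f.coeff (Function.invFun G.L p), fun z => ?_,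
    fun p hp => ?_, ?_⟩
  · rw [G.ev_eq, tsm, Finset.sum_image G.inj.injOn]
    exact Finset.sum_congr rfl fun q _ => by rw [hinv]
  · obtain ⟨q, hq, rfl⟩ := Finset.mem_image.mp hp
    exact ⟨q, by simpa using hq, rfl⟩
  · rw [Finset.sum_image G.inj.injOn]
    exact Finset.sum_congr rfl fun q _ => by simp only [hinv]

theorem HJ_holds : G.HJ := by
  classical
  by_contra hcon
  unfold HJ at hcon
  push Not at hcon
  obtain ⟨P, hPm, hJac⟩ := hcon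
  obtain ⟨β, hβR, hβI, hβne⟩ := G.exists_field_real P hPm hJac
  obtain ⟨M, hM0, hM⟩ := G.vf_bdd β
  obtain ⟨K, hK0, hK⟩ := G.vf_lip β
  obtain ⟨δ, hδ, c, hc, T₀, hT₀, hdens⟩ := G.density hβR hβne
  -- the time
  set τ : ℝ := min (1 / M) (δ / (2 * (K * M))) with hτ
  have hτ0 : 0 < τ := by positivity
  have hτ1 : M * τ ≤ 1 := by
    have : τ ≤ 1 / M := min_le_left _ _
    rw [le_div_iff₀ hM0] at this
    linarith
  have hτ2 : K * (M * τ) ≤ δ / 2 := by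
    have : τ ≤ δ / (2 * (K * M)) := min_le_right _ _
    rw [le_div_iff₀ (by positivity)] at this
    linarith
  choose γ hγ0 hγd hγ1 hγ2 using fun x => G.exists_curve hM0 hM hK0 hK hτ0 x
  have hvan : ∀ x ∈ G.F.L, ∀ t ∈ Set.Icc 0 τ, ∀ f ∈ G.I, G.ev (cx (γ x t)) f = 0 := by
    intro x hx
    exact G.vanish_on_curve hβR hβI (by rw [hγ0 x]; exact hx) (hγd x)
  have hκ : 0 < δ * τ / 2 := by positivity
  obtain ⟨C, hC, hsieve⟩ := sieve G.F hκ
  obtain ⟨R, hdim⟩ := G.dim_bound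
  choose Cf hCf using hdim
  set J : ℝ := ∫ z : E d, ((1 + ‖z‖) ^ (2 * d + 1))⁻¹ with hJ
  have hJ0 : 0 ≤ J := integral_nonneg fun z => by positivity
  refine G.count_contra R c (C * J) hc (fun s => Cf (s * (d + 1))) fun s hs N => ?_
  set L₀ : ℝ := s * (d + 1) with hL₀
  have hs1 : (1:ℝ) ≤ s := by exact_mod_cast hs
  have hL1 : 1 ≤ L₀ := by
    have : (0:ℝ) ≤ d := Nat.cast_nonneg d
    rw [hL₀]; nlinarith
  set m : ℕ := s * (d + 1) with hm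
  have hmL : (m : ℝ) = L₀ := by rw [hm, hL₀]; push_cast; ring
  obtain ⟨hWfin, k, u, hk, husupp, hunorm, hbig⟩ := hCf L₀ N
  set W : ℕ := {q : Gm n | ‖G.L q‖ ≤ L₀ ∧ ‖q‖ ≤ N}.ncard with hW
  -- representation
  choose Pj aj hrep hfreq hsq using fun j => G.ev_tsm (u j)
  have hPj : ∀ j, ∀ p ∈ Pj j, ‖p‖ ≤ L₀ := by
    intro j p hp
    obtain ⟨q, hq, rfl⟩ := hfreq j p hp
    exact (husupp j q hq).1
  -- the points
  set y : E d → ℕ → E d := fun x i => γ x (i * (τ / L₀)) with hy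
  have hL0 : 0 < L₀ := by linarith
  have htime : ∀ i < m, (i : ℝ) * (τ / L₀) ∈ Set.Icc 0 τ := by
    intro i hi
    refine ⟨by positivity, ?_⟩
    have h1 : (i:ℝ) ≤ L₀ := by rw [← hmL]; exact_mod_cast hi.le
    rw [mul_div_assoc', div_le_iff₀ hL0]
    nlinarith
  have hy1 : ∀ x, ∀ i < m, ‖y x i - x‖ ≤ 1 := fun x i hi => (hγ1 x _ (htime i hi)).trans hτ1
  have hy2 : ∀ x, δ ≤ ‖G.vf β x‖ → ∀ i < m, ∀ j < m,
      δ * τ / 2 * |(i:ℝ) - j| ≤ L₀ * ‖y x i - y x j‖ := by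
    intro x hx i hi j hj
    have h1 := hγ2 x _ (htime i hi) _ (htime j hj)
    have e1 : (i:ℝ) * (τ / L₀) - j * (τ / L₀) = ((i:ℝ) - j) * (τ / L₀) := by ring
    rw [e1, abs_mul, abs_of_pos (by positivity : 0 < τ / L₀)] at h1
    have h2 : ‖(((i:ℝ) - j) * (τ / L₀)) • G.vf β x‖ ≤ ‖y x i - y x j‖ +
        ‖y x i - y x j - (((i:ℝ) - j) * (τ / L₀)) • G.vf β x‖ := by
      have := norm_sub_le (y x i - y x j) (y x i - y x j - (((i:ℝ) - j) * (τ / L₀)) • G.vf β x)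
      rwa [sub_sub_cancel] at this
    rw [norm_smul, Real.norm_eq_abs, abs_mul, abs_of_pos (by positivity : 0 < τ / L₀)] at h2
    set q : ℝ := |(i:ℝ) - j| * (τ / L₀) with hq
    have hq0 : 0 ≤ q := by positivity
    have h3 : q * δ ≤ q * ‖G.vf β x‖ := mul_le_mul_of_nonneg_left hx hq0
    have h4 : K * (M * τ) * q ≤ δ / 2 * q := mul_le_mul_of_nonneg_right hτ2 hq0
    have h5 : q * (δ / 2) ≤ ‖y x i - y x j‖ := by
      have h6 : ‖y x i - y x j - (((i:ℝ) - j) * (τ / L₀)) • G.vf β x‖ ≤ K * (M * τ) * q := h1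
      linarith
    have h7 : δ * τ / 2 * |(i:ℝ) - j| = L₀ * (q * (δ / 2)) := by
      rw [hq]; field_simp
    rw [h7]
    exact mul_le_mul_of_nonneg_left h5 hL0.le
  -- the inequality for each T
  have hT : ∀ T : ℝ, T₀ ≤ T → c * L₀ * W ≤ C * L₀ ^ d * ∑ j, (T ^ d)⁻¹ *
      ∫ z : E d, ‖tsm (Pj j) (aj j) z‖ ^ 2 * ((1 + ‖z‖ / T) ^ (2 * d + 1))⁻¹ := by
    intro T hT
    have hT1 : 1 ≤ T := hT₀.trans hT
    have hTp : 0 < T := by linarith
    obtain ⟨S, hS, hSw⟩ := hdens T hT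
    have h1 : ∀ j, ∑ x ∈ S, ((1 + ‖x‖ / T) ^ (2 * d + 1))⁻¹ *
        ∑ i ∈ Finset.range m, ‖tsm (Pj j) (aj j) (y x i)‖ ^ 2 ≤
        C * L₀ ^ d * ∫ z : E d, ‖tsm (Pj j) (aj j) z‖ ^ 2 * ((1 + ‖z‖ / T) ^ (2 * d + 1))⁻¹ :=
      fun j => hsieve L₀ m hL1 S (fun x hx => (hS x hx).1) y (fun x _ => hy1 x)
        (fun x hx => hy2 x (hS x hx).2) (Pj j) (aj j) (hPj j) T hT1
    have h2 := Finset.sum_le_sum (s := Finset.univ) fun j _ => h1 j
    rw [← Finset.mul_sum, Finset.sum_comm] at h2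
    have h3 : ∑ x ∈ S, ((1 + ‖x‖ / T) ^ (2 * d + 1))⁻¹ * (L₀ * W) ≤
        ∑ x ∈ S, ∑ j, ((1 + ‖x‖ / T) ^ (2 * d + 1))⁻¹ *
          ∑ i ∈ Finset.range m, ‖tsm (Pj j) (aj j) (y x i)‖ ^ 2 := by
      refine Finset.sum_le_sum fun x hx => ?_
      rw [← Finset.mul_sum]
      apply mul_le_mul_of_nonneg_left _ (by positivity)
      rw [Finset.sum_comm, ← hmL]
      calc (m : ℝ) * W = ∑ _i ∈ Finset.range m, (W : ℝ) := by simp
        _ ≤ _ := by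
          refine Finset.sum_le_sum fun i hi => ?_
          have h4 := hbig (y x i) (hvan x (hS x hx).1 _ (htime i (Finset.mem_range.mp hi)))
          refine h4.trans (le_of_eq ?_)
          exact Finset.sum_congr rfl fun j _ => by rw [hrep]
    rw [← Finset.sum_mul] at h3
    have h5 : c * T ^ d * (L₀ * W) ≤ C * L₀ ^ d * ∑ j,
        ∫ z : E d, ‖tsm (Pj j) (aj j) z‖ ^ 2 * ((1 + ‖z‖ / T) ^ (2 * d + 1))⁻¹ :=
      (mul_le_mul_of_nonneg_right hSw (by positivity)).trans (h3.trans h2)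
    rw [← Finset.mul_sum]
    have hTd : 0 < T ^ d := by positivity
    have h6 : c * L₀ * W = (T ^ d)⁻¹ * (c * T ^ d * (L₀ * W)) := by field_simp
    rw [h6]
    calc (T ^ d)⁻¹ * (c * T ^ d * (L₀ * W)) ≤ (T ^ d)⁻¹ * (C * L₀ ^ d * ∑ j,
        ∫ z : E d, ‖tsm (Pj j) (aj j) z‖ ^ 2 * ((1 + ‖z‖ / T) ^ (2 * d + 1))⁻¹) :=
          mul_le_mul_of_nonneg_left h5 (by positivity)
      _ = _ := by ring
  -- limit
  have hlim : Tendsto (fun T : ℝ => C * L₀ ^ d * ∑ j, (T ^ d)⁻¹ *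
      ∫ z : E d, ‖tsm (Pj j) (aj j) z‖ ^ 2 * ((1 + ‖z‖ / T) ^ (2 * d + 1))⁻¹) atTop
      (𝓝 (C * L₀ ^ d * ∑ j, (∑ p ∈ Pj j, ‖aj j p‖ ^ 2) * J)) :=
    (tendsto_finsetSum _ fun j _ => (mean_weight (Pj j) (aj j)).2.2).const_mul _
  have h7 : c * L₀ * W ≤ C * L₀ ^ d * ∑ j, (∑ p ∈ Pj j, ‖aj j p‖ ^ 2) * J :=
    ge_of_tendsto hlim (by
      filter_upwards [eventually_ge_atTop T₀] with T hT'
      exact hT T hT')
  have h8 : ∑ j, (∑ p ∈ Pj j, ‖aj j p‖ ^ 2) * J ≤ k * J := by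
    calc ∑ j, (∑ p ∈ Pj j, ‖aj j p‖ ^ 2) * J ≤ ∑ _j : Fin k, 1 * J := by
          refine Finset.sum_le_sum fun j _ => mul_le_mul_of_nonneg_right ?_ hJ0
          rw [hsq]; exact hunorm j
      _ = _ := by simp
  calc c * L₀ * W ≤ C * L₀ ^ d * ∑ j, (∑ p ∈ Pj j, ‖aj j p‖ ^ 2) * J := h7
    _ ≤ C * L₀ ^ d * (k * J) := mul_le_mul_of_nonneg_left h8 (by positivity)
    _ = (C * J) * L₀ ^ d * k := by ring
    _ ≤ _ := mul_le_mul_of_nonneg_left hk (by positivity)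

end FQG

end FQ
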