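import Pool.Agent.Helper17.FQSetup

/-!
# Derivations and the key (Bezoutian) identity
-/

open scoped BigOperators SchwartzMap FourierTransform RealInnerProductSpace ContDiff
open MeasureTheory Complex Filter Topology

noncomputable section

namespace FQ

variable {d n : ℕ}

/-! ### iterated averages -/

/-- iterated averaging -/
def avgs (l : List (E d)) (h : E d → ℂ) : E d → ℂ := l.foldr avg h

lemma TF.avgs {h : E d → ℂ} {η : E d} {r : ℝ} (H : TF h η r) (l : List (E d)) :
    TF (FQ.avgs l h) η (r + (l.map norm).sum) := by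
  induction l with
  | nil => simpa [FQ.avgs] using H
  | cons q l ih =>
    have := ih.avg q
    have e : FQ.avgs (q :: l) h = FQ.avg q (FQ.avgs l h) := rfl
    rw [e]
    apply this.mono
    simp only [List.map_cons, List.sum_cons]
    linarith

lemma psi_avgs {h : E d → ℂ} {η : E d} {r : ℝ} (H : TF h η r) (l : List (E d)) (z : Fin d → ℂ) :
    psi (avgs l h) z = (l.map fun q => kap q z).prod * psi h z := by
  induction l with
  | nil => simp [avgs]
  | cons q l ih =>
    have e : avgs (q :: l) h = avg q (avgs l h) := rfl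
    rw [e, psi_avg (H.avgs l), ih, List.map_cons, List.prod_cons, mul_assoc]

namespace FQG

variable (G : FQG d n)

/-! ### Derivations -/

/-- the derivation `D_j e_q = q_j e_q` (partial derivative divided by `2 pi i`) -/
def D (j : Fin d) (f : A n) : A n :=
  .ofCoeff (Finsupp.onFinset f.coeff.support (fun q => ((G.L q j : ℝ) : ℂ) * f.coeff q) (by
    intro q hq
    simpa using right_ne_zero_of_mul hq))

@[simp] lemma coeff_D (j : Fin d) (f : A n) (q : Gm n) :
    (G.D j f).coeff q = ((G.L q j : ℝ) : ℂ) * f.coeff q := rfl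

lemma D_add (j : Fin d) (f g : A n) : G.D j (f + g) = G.D j f + G.D j g := by
  ext q; simp [mul_add]

lemma D_zero (j : Fin d) : G.D j 0 = 0 := by ext q; simp

lemma D_single (j : Fin d) (q : Gm n) (a : ℂ) :
    G.D j (.single q a) = .single q (((G.L q j : ℝ) : ℂ) * a) := by
  classical
  ext p
  rw [coeff_D, AddMonoidAlgebra.coeff_single, AddMonoidAlgebra.coeff_single, Finsupp.single_apply,
    Finsupp.single_apply]
  split_ifs with h
  · rw [h]
  · simp

lemma D_mul (j : Fin d) (f g : A n) : G.D j (f * g) = G.D j f * g + f * G.D j g := by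
  induction f using AddMonoidAlgebra.induction_linear with
  | zero => simp [D_zero]
  | add f₁ f₂ h₁ h₂ => rw [add_mul, D_add, h₁, h₂, D_add]; ring
  | single p a =>
    induction g using AddMonoidAlgebra.induction_linear with
    | zero => simp [D_zero]
    | add g₁ g₂ h₁ h₂ => rw [mul_add, D_add, h₁, h₂, D_add]; ring
    | single q b =>
      rw [AddMonoidAlgebra.single_mul_single, D_single, D_single, D_single,
        AddMonoidAlgebra.single_mul_single, AddMonoidAlgebra.single_mul_single,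
        ← AddMonoidAlgebra.single_add]
      congr 1
      rw [map_add, PiLp.add_apply]
      push_cast
      ring

lemma suppIn_D {f : A n} {S : Set (Gm n)} (hf : SuppIn f S) (j : Fin d) : SuppIn (G.D j f) S := by
  intro q hq
  rw [coeff_D] at hq
  exact hf q (right_ne_zero_of_mul hq)

/-- the Jacobian -/
def Jac (F : Fin d → A n) : A n := Matrix.det (Matrix.of fun i j => G.D j (F i))

/-- the row functions of the Bezoutian -/
def Bz (f : A n) (z ζ : Fin d → ℂ) (j : Fin d) : ℂ :=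
  ∑ q ∈ f.coeff.support, f.coeff q * ex (G.L q) z * kap (G.L q) ζ * ((G.L q j : ℝ) : ℂ)

lemma ev_add_sub (f : A n) (z ζ : Fin d → ℂ) :
    G.ev (z + ζ) f - G.ev z f = 2 * Real.pi * Complex.I * ∑ j, G.Bz f z ζ j * ζ j := by
  rw [G.ev_eq, G.ev_eq, ← Finset.sum_sub_distrib]
  simp only [Bz, Finset.sum_mul]
  rw [Finset.sum_comm, Finset.mul_sum]
  refine Finset.sum_congr rfl fun q _ => ?_
  rw [ex_add_right]
  have h1 := ex_sub_one (G.L q) ζ
  have h2 : f.coeff q * (ex (G.L q) z * ex (G.L q) ζ) - f.coeff q * ex (G.L q) z =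
      f.coeff q * ex (G.L q) z * (ex (G.L q) ζ - 1) := by ring
  rw [h2, h1, pr, Finset.mul_sum, Finset.mul_sum, Finset.sum_mul, Finset.mul_sum]
  refine Finset.sum_congr rfl fun j _ => ?_
  ring

lemma Bz_zero (f : A n) (z : Fin d → ℂ) (j : Fin d) : G.Bz f z 0 j = G.ev z (G.D j f) := by
  simp only [Bz, kap_zero_right]
  have : G.ev z (G.D j f) = ∑ q ∈ f.coeff.support, (G.D j f).coeff q * ex (G.L q) z := by
    rw [G.ev_eq]
    apply Finset.sum_subset
    · intro q hq
      rw [Finsupp.mem_support_iff, coeff_D] at hq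
      simpa using right_ne_zero_of_mul hq
    · intro q _ hq
      have : (G.D j f).coeff q = 0 := by
        by_contra hcon
        exact hq (Finsupp.mem_support_iff.mpr hcon)
      rw [this, zero_mul]
  rw [this]
  refine Finset.sum_congr rfl fun q _ => ?_
  rw [coeff_D]
  ring

/-- the Bezoutian determinant -/
def Dl (F : Fin d → A n) (z ζ : Fin d → ℂ) : ℂ :=
  Matrix.det (Matrix.of fun i j => G.Bz (F i) z ζ j)

lemma Dl_zero (F : Fin d → A n) (z : Fin d → ℂ) : G.Dl F z 0 = G.ev z (G.Jac F) := by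
  unfold Dl Jac
  have h1 : G.ev z (Matrix.det (Matrix.of fun i j => G.D j (F i))) =
      Matrix.det ((Matrix.of fun i j => G.D j (F i)).map (G.ev z)) :=
    (G.ev z).map_det _
  rw [h1]
  congr 1
  ext i j
  simp [G.Bz_zero]

lemma Dl_eq_zero (F : Fin d → A n) (z ζ : Fin d → ℂ) (hζ : ζ ≠ 0)
    (h1 : ∀ i, G.ev z (F i) = 0) (h2 : ∀ i, G.ev (z + ζ) (F i) = 0) : G.Dl F z ζ = 0 := by
  unfold Dl
  rw [← Matrix.exists_mulVec_eq_zero_iff]
  refine ⟨ζ, hζ, ?_⟩
  ext i
  have h3 := G.ev_add_sub (F i) z ζ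
  rw [h1, h2, sub_zero] at h3
  have h4 : (2 : ℂ) * Real.pi * Complex.I ≠ 0 := Complex.two_pi_I_ne_zero
  have h5 := (mul_eq_zero.mp h3.symm).resolve_left h4
  simpa [Matrix.mulVec, dotProduct] using h5

/-- index set of the expansion -/
def tup (F : Fin d → A n) : Finset (Fin d → Gm n) :=
  Fintype.piFinset fun i => (F i).coeff.support

/-- coefficient in the expansion -/
def tc (F : Fin d → A n) (Q : Fin d → Gm n) : ℂ :=
  (∏ i, (F i).coeff (Q i)) * Matrix.det (Matrix.of fun i j => ((G.L (Q i) j : ℝ) : ℂ))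

lemma Dl_expand (F : Fin d → A n) (z ζ : Fin d → ℂ) :
    G.Dl F z ζ = ∑ Q ∈ tup F, G.tc F Q * ex (G.L (∑ i, Q i)) z * ∏ i, kap (G.L (Q i)) ζ := by
  classical
  unfold Dl tup
  have h1 : (Matrix.of fun i j => G.Bz (F i) z ζ j) =
      fun i => ∑ q ∈ (F i).coeff.support, ((F i).coeff q * ex (G.L q) z * kap (G.L q) ζ) •
        (fun j => ((G.L q j : ℝ) : ℂ)) := by
    ext i j
    simp [Bz]
  have h2 : Matrix.det (Matrix.of fun i j => G.Bz (F i) z ζ j) =
      (Matrix.detRowAlternating (R := ℂ) (n := Fin d)).toMultilinearMap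
        (fun i => ∑ q ∈ (F i).coeff.support, ((F i).coeff q * ex (G.L q) z * kap (G.L q) ζ) •
        (fun j => ((G.L q j : ℝ) : ℂ))) := by
    rw [h1]; rfl
  rw [h2, MultilinearMap.map_sum_finset]
  refine Finset.sum_congr rfl fun Q _ => ?_
  rw [MultilinearMap.map_smul_univ]
  unfold tc
  have h3 : ex (G.L (∑ i, Q i)) z = ∏ i, ex (G.L (Q i)) z := by
    have : ∀ s : Finset (Fin d), ex (G.L (∑ i ∈ s, Q i)) z = ∏ i ∈ s, ex (G.L (Q i)) z := by
      intro s
      induction s using Finset.induction_on with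
      | empty => simp
      | insert i s hi ih => rw [Finset.sum_insert hi, Finset.prod_insert hi, map_add, ex_add_left, ih]
    exact this _
  rw [h3, Finset.prod_mul_distrib, Finset.prod_mul_distrib, smul_eq_mul]
  have h4 : (Matrix.detRowAlternating (R := ℂ) (n := Fin d)).toMultilinearMap
      (fun i => (fun j => ((G.L (Q i) j : ℝ) : ℂ))) =
      Matrix.det (Matrix.of fun i j => ((G.L (Q i) j : ℝ) : ℂ)) := rfl
  rw [h4]
  ring

/-- list of frequencies of a tuple -/
def tl (Q : Fin d → Gm n) : List (E d) := List.ofFn fun i => G.L (Q i)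

/-- The element of the group algebra given by the key identity. -/
def Ky (F : Fin d → A n) (h : E d → ℂ) : A n :=
  ∑ Q ∈ tup F, .single (∑ i, Q i) (G.tc F Q) * G.el (avgs (G.tl Q) h)

lemma ev_Ky (F : Fin d → A n) {h : E d → ℂ} {η : E d} {r : ℝ} (H : TF h η r) (t : Fin d → ℂ) :
    G.ev t (G.Ky F h) = ∑' x : G.F.L, G.Dl F t (cx x - t) * psi h (cx x - t) := by
  unfold Ky
  rw [map_sum]
  have e1 : ∀ x : E d, G.Dl F t (cx x - t) * psi h (cx x - t) =
      ∑ Q ∈ tup F, G.tc F Q * ex (G.L (∑ i, Q i)) t * psi (avgs (G.tl Q) h) (cx x - t) := by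
    intro x
    rw [G.Dl_expand, Finset.sum_mul]
    refine Finset.sum_congr rfl fun Q _ => ?_
    rw [psi_avgs H, tl, List.map_ofFn, List.prod_ofFn, mul_assoc]
    rfl
  simp only [e1]
  rw [Summable.tsum_finsetSum]
  · refine Finset.sum_congr rfl fun Q _ => ?_
    rw [tsum_mul_left, map_mul, G.ev_single, G.fq_el (H.avgs (G.tl Q))]
  · intro Q _
    exact (G.F.summ _ _ _ (H.avgs (G.tl Q)) t).mul_left _

/-- total length of the frequencies -/
def tN (F : Fin d → A n) : ℝ := ∑ i, ∑ q ∈ (F i).coeff.support, ‖G.L q‖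

lemma tN_nonneg (F : Fin d → A n) : 0 ≤ G.tN F :=
  Finset.sum_nonneg fun _ _ => Finset.sum_nonneg fun _ _ => norm_nonneg _

lemma tl_sum_le (F : Fin d → A n) {Q : Fin d → Gm n} (hQ : Q ∈ tup F) :
    ((G.tl Q).map norm).sum ≤ G.tN F := by
  rw [tl, List.map_ofFn, List.sum_ofFn]
  refine Finset.sum_le_sum fun i _ => ?_
  exact Finset.single_le_sum (f := fun q => ‖G.L q‖) (fun _ _ => norm_nonneg _)
    (Fintype.mem_piFinset.mp hQ i)

lemma norm_sum_tup_le (F : Fin d → A n) {Q : Fin d → Gm n} (hQ : Q ∈ tup F) :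
    ‖G.L (∑ i, Q i)‖ ≤ G.tN F := by
  rw [map_sum]
  refine (norm_sum_le _ _).trans (Finset.sum_le_sum fun i _ => ?_)
  exact Finset.single_le_sum (f := fun q => ‖G.L q‖) (fun _ _ => norm_nonneg _)
    (Fintype.mem_piFinset.mp hQ i)

lemma suppIn_Ky (F : Fin d → A n) {h : E d → ℂ} {η : E d} {r : ℝ} (H : TF h η r) :
    SuppIn (G.Ky F h) {p | ∃ Q ∈ tup F, ∃ q, p = (∑ i, Q i) + q ∧ G.cc q ≠ 0 ∧
      ‖G.L q - η‖ < r + G.tN F} := by
  unfold Ky
  apply SuppIn.sum
  intro Q hQ
  refine (SuppIn.single (S := {∑ i, Q i}) rfl).mul (G.suppIn_el (H.avgs (G.tl Q))) ?_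
  rintro a rfl q ⟨hq1, hq2⟩
  exact ⟨Q, hQ, q, rfl, hq1, hq2.trans_le (by linarith [G.tl_sum_le F hQ])⟩

/-- **Key identity**, as membership in the null ideal. -/
lemma key (F : Fin d → A n) (hF : ∀ i, F i ∈ G.I) {h : E d → ℂ} {η : E d} {r : ℝ}
    (H : TF h η r) : G.Jac F * .single 0 (psi h 0) - G.Ky F h ∈ G.I := by
  classical
  rw [mem_I]
  intro x₁ hx₁
  rw [map_sub, map_mul, G.ev_single, map_zero, ex_zero_left, mul_one, G.ev_Ky F H]
  rw [tsum_eq_single (⟨x₁, hx₁⟩ : G.F.L)]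
  · simp only [sub_self]
    rw [G.Dl_zero]; ring
  · intro x hx
    rw [G.Dl_eq_zero F, zero_mul]
    · intro h0
      apply hx
      have : cx (x : E d) = cx x₁ := sub_eq_zero.mp h0
      exact Subtype.ext (cx_injective this)
    · intro i
      exact (G.mem_I _).mp (hF i) x₁ hx₁
    · intro i
      rw [add_sub_cancel]
      exact (G.mem_I _).mp (hF i) x x.2

/-- normalised test functions at arbitrary centres -/
lemma exists_test_at (η : E d) {r : ℝ} (hr : 0 < r) : ∃ h : E d → ℂ, TF h η r ∧ psi h 0 = 1 := by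
  obtain ⟨b, hb, -, hb1, -⟩ := exists_bump d hr
  refine ⟨fun ξ => b (ξ + -η), ?_, ?_⟩
  · have := hb.shift (-η)
    simpa using this
  · rw [psi_shift, hb1]; simp

/-- the assumption provided by the dimension argument -/
def HJ : Prop := ∀ P ∈ G.I.minimalPrimes, ∃ F : Fin d → A n, (∀ i, F i ∈ G.I) ∧ G.Jac F ∉ P

/-- directional functional -/
def dir (u : E d) : Gm n →+ ℝ :=
  { toFun := fun q => ⟪u, G.L q⟫
    map_zero' := by simp
    map_add' := fun a b => by rw [map_add, inner_add_right] }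

@[simp] lemma dir_apply (u : E d) (q : Gm n) : G.dir u q = ⟪u, G.L q⟫ := rfl

lemma exists_dir (hJ : G.HJ) (u : E d) (hu : u ≠ 0) :
    ∃ σ : A n, 1 - σ ∈ G.I ∧ SuppIn σ {q | (⟪u, G.L q⟫ : ℝ) < 0} := by
  refine unit_lemma_radical G.I G.I_radical (G.dir u) fun P hP => ?_
  obtain ⟨F, hF, hFP⟩ := hJ P hP
  refine ⟨G.Jac F, hFP, fun M => ?_⟩
  have hu2 : 0 < ‖u‖ ^ 2 := by
    have := norm_pos_iff.mpr hu
    positivity
  -- centre far away
  set c : ℝ := (|M| + ‖u‖ * (1 + 2 * G.tN F) + 1) / ‖u‖ ^ 2 with hc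
  obtain ⟨h, hh, hh1⟩ := exists_test_at (-(c • u)) one_pos
  refine ⟨G.Ky F h, ?_, ?_⟩
  · have h1 := G.key F hF hh
    rw [hh1, ← AddMonoidAlgebra.one_def, mul_one] at h1
    exact hP.1.2 h1
  · refine (G.suppIn_Ky F hh).mono ?_
    rintro p ⟨Q, hQ, q, rfl, -, hq⟩
    simp only [Set.mem_ofPred_eq, dir_apply, map_add, inner_add_right]
    have h1 : (⟪u, G.L (∑ i, Q i)⟫ : ℝ) ≤ ‖u‖ * G.tN F :=
      (real_inner_le_norm _ _).trans (mul_le_mul_of_nonneg_left (G.norm_sum_tup_le F hQ)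
        (norm_nonneg _))
    have h2 : (⟪u, G.L q⟫ : ℝ) = ⟪u, G.L q - -(c • u)⟫ - c * ‖u‖ ^ 2 := by
      rw [inner_sub_right, inner_neg_right, inner_smul_right, real_inner_self_eq_norm_sq]
      ring
    have h3 : (⟪u, G.L q - -(c • u)⟫ : ℝ) ≤ ‖u‖ * (1 + G.tN F) :=
      (real_inner_le_norm _ _).trans (mul_le_mul_of_nonneg_left hq.le (norm_nonneg _))
    have h4 : c * ‖u‖ ^ 2 = |M| + ‖u‖ * (1 + 2 * G.tN F) + 1 := by
      rw [hc]; field_simp
    have h5 := neg_abs_le M
    rw [h2, h4]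
    nlinarith

end FQG

end FQ
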