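import Pool.Agent.Helper17.FQTest

/-!
# Lattice sums, the Neumann lemma
-/

open scoped BigOperators SchwartzMap FourierTransform RealInnerProductSpace ContDiff
open MeasureTheory Complex

noncomputable section

namespace FQ

variable {d : ℕ}

/-! ### sums over the lattice -/

lemma summable_int_aux : Summable (fun k : ℤ => ((1 + |(k:ℝ)|) ^ 2)⁻¹) := by
  have h1 : Summable (fun k : ℕ => ((1 + (k:ℝ)) ^ 2)⁻¹) := by
    have := (summable_nat_add_iff 1).mpr (Real.summable_nat_pow_inv (p := 2).mpr one_lt_two)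
    refine this.congr fun k => ?_
    push_cast
    ring_nf
  apply Summable.of_nat_of_neg
  · refine h1.congr fun k => ?_
    simp
  · refine h1.congr fun k => ?_
    simp

/-- the lattice weight is summable -/
lemma summable_lat (d : ℕ) : Summable (fun m : Fin d → ℤ => ((1 + ‖m‖) ^ (2 * d))⁻¹) := by
  set C := ∑' k : ℤ, ((1 + |(k:ℝ)|) ^ 2)⁻¹ with hC
  apply summable_of_sum_le (c := C ^ d)
  · intro m; positivity
  · intro s
    -- a box containing s
    obtain ⟨N, hN⟩ : ∃ N : ℕ, ∀ m ∈ s, ∀ j, |m j| ≤ N := by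
      refine ⟨∑ m ∈ s, ∑ j, (m j).natAbs, fun m hm j => ?_⟩
      have h1 : (m j).natAbs ≤ ∑ j, (m j).natAbs :=
        Finset.single_le_sum (f := fun j => (m j).natAbs) (fun _ _ => Nat.zero_le _)
          (Finset.mem_univ j)
      have h2 : ∑ j, (m j).natAbs ≤ ∑ m ∈ s, ∑ j, (m j).natAbs :=
        Finset.single_le_sum (f := fun m : Fin d → ℤ => ∑ j, (m j).natAbs)
          (fun _ _ => Nat.zero_le _) hm
      rw [Int.abs_eq_natAbs]
      exact_mod_cast h1.trans h2
    have hsub : s ⊆ Fintype.piFinset (fun _ : Fin d => Finset.Icc (-(N:ℤ)) N) := by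
      intro m hm
      rw [Fintype.mem_piFinset]
      intro j
      rw [Finset.mem_Icc]
      exact abs_le.mp (hN m hm j)
    calc ∑ m ∈ s, ((1 + ‖m‖) ^ (2 * d))⁻¹
        ≤ ∑ m ∈ s, ∏ j, ((1 + |(m j:ℝ)|) ^ 2)⁻¹ := by
          refine Finset.sum_le_sum fun m _ => ?_
          rw [Finset.prod_inv_distrib]
          apply inv_anti₀
          · apply Finset.prod_pos; intro j _; positivity
          · have : (1 + ‖m‖) ^ (2 * d) = ∏ _j : Fin d, (1 + ‖m‖) ^ 2 := by
              rw [Finset.prod_const, Finset.card_univ, Fintype.card_fin, ← pow_mul]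
            rw [this]
            refine Finset.prod_le_prod (fun j _ => by positivity) fun j _ => ?_
            have : |(m j:ℝ)| ≤ ‖m‖ := by
              have := norm_le_pi_norm m j
              rwa [Int.norm_eq_abs] at this
            gcongr
      _ ≤ ∑ m ∈ Fintype.piFinset (fun _ : Fin d => Finset.Icc (-(N:ℤ)) N),
            ∏ j, ((1 + |(m j:ℝ)|) ^ 2)⁻¹ := by
          apply Finset.sum_le_sum_of_subset_of_nonneg hsub
          intro m _ _
          apply Finset.prod_nonneg; intro j _; positivity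
      _ = ∏ _j : Fin d, ∑ k ∈ Finset.Icc (-(N:ℤ)) N, ((1 + |(k:ℝ)|) ^ 2)⁻¹ := by
          rw [Finset.prod_univ_sum]
      _ ≤ ∏ _j : Fin d, C := by
          refine Finset.prod_le_prod (fun j _ => Finset.sum_nonneg fun _ _ => by positivity)
            fun j _ => ?_
          exact summable_int_aux.sum_le_tsum _ (fun _ _ => by positivity)
      _ = C ^ d := by simp

/-- the lattice constant -/
def Clat (d : ℕ) : ℝ := ∑' m : Fin d → ℤ, ((1 + ‖m‖) ^ (2 * d))⁻¹

lemma Clat_pos (d : ℕ) : 0 < Clat d := by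
  have h := (summable_lat d).sum_le_tsum {0} (fun _ _ => by positivity)
  simp only [Finset.sum_singleton, norm_zero, add_zero, one_pow, inv_one] at h
  exact lt_of_lt_of_le one_pos h

/-- the weight on the real space -/
def wt (x : E d) : ℝ := ((1 + ‖x‖) ^ (2 * d))⁻¹

lemma wt_pos (x : E d) : 0 < wt x := by unfold wt; positivity
lemma wt_nonneg (x : E d) : 0 ≤ wt x := (wt_pos x).le
lemma wt_le_one (x : E d) : wt x ≤ 1 := by
  unfold wt
  apply inv_le_one_of_one_le₀
  apply one_le_pow₀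
  have := norm_nonneg x; linarith

lemma abs_apply_le_norm (x : E d) (i : Fin d) : |x i| ≤ ‖x‖ := by
  rw [EuclideanSpace.norm_eq]
  apply Real.le_sqrt_of_sq_le
  rw [← Real.norm_eq_abs]
  exact Finset.single_le_sum (f := fun i => ‖x i‖ ^ 2) (fun i _ => by positivity)
    (Finset.mem_univ i)

/-- a class: points near the lattice `3 ℤ^d + o`. -/
def IsCl (z : (Fin d → ℤ) → E d) (o : E d) (c : ℝ) : Prop :=
  ∀ m i, |z m i - (3 * (m i : ℝ) + o i)| ≤ c

lemma cl_lower {z : (Fin d → ℤ) → E d} {o : E d} (hz : IsCl z o (3/2)) (x : E d) :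
    ∃ n : Fin d → ℤ, ∀ m, (1 + ‖m - n‖) / 2 ≤ 1 + ‖z m - x‖ := by
  refine ⟨fun i => round ((x i - o i) / 3), fun m => ?_⟩
  set n : Fin d → ℤ := fun i => round ((x i - o i) / 3) with hn
  have hn1 : ∀ i, |3 * (n i : ℝ) - (x i - o i)| ≤ 3 / 2 := by
    intro i
    have h := abs_sub_round ((x i - o i) / 3)
    have h2 : 3 * (n i : ℝ) - (x i - o i) = -(3 * ((x i - o i) / 3 - round ((x i - o i) / 3))) := by
      simp only [hn]; ring
    rw [h2, abs_neg, abs_mul]
    norm_num
    linarith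
  have key : ‖m - n‖ ≤ 1 + 2 * ‖z m - x‖ := by
    rw [pi_norm_le_iff_of_nonneg (by positivity)]
    intro i
    rw [Pi.sub_apply, Int.norm_eq_abs]
    push_cast
    have h1 := hz m i
    have h2 := hn1 i
    have h3 := abs_apply_le_norm (z m - x) i
    rw [PiLp.sub_apply] at h3
    rw [abs_le] at h1 h2 h3 ⊢
    constructor <;> linarith [norm_nonneg (z m - x), h1.1, h1.2, h2.1, h2.2, h3.1, h3.2]
  linarith

lemma cl_sum {z : (Fin d → ℤ) → E d} {o : E d} (hz : IsCl z o (3/2)) (x : E d) :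
    Summable (fun m => wt (z m - x)) ∧ ∑' m, wt (z m - x) ≤ 2 ^ (2 * d) * Clat d := by
  obtain ⟨n, hn⟩ := cl_lower hz x
  have hle : ∀ m, wt (z m - x) ≤ 2 ^ (2 * d) * ((1 + ‖m - n‖) ^ (2 * d))⁻¹ := by
    intro m
    unfold wt
    rw [← div_eq_mul_inv, inv_eq_one_div, div_le_div_iff₀ (by positivity) (by positivity), one_mul,
      ← mul_pow]
    apply pow_le_pow_left₀ (by positivity)
    have := hn m
    linarith
  have hs : Summable fun m : Fin d → ℤ => 2 ^ (2 * d) * ((1 + ‖m - n‖) ^ (2 * d))⁻¹ := by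
    apply Summable.mul_left
    exact (Equiv.subRight n).summable_iff.mpr (summable_lat d)
  have hs1 : Summable (fun m => wt (z m - x)) :=
    Summable.of_nonneg_of_le (fun m => wt_nonneg _) hle hs
  refine ⟨hs1, ?_⟩
  refine (hs1.tsum_le_tsum hle hs).trans ?_
  rw [tsum_mul_left]
  apply le_of_eq
  congr 1
  exact (Equiv.subRight n).tsum_eq (fun m : Fin d → ℤ => ((1 + ‖m‖) ^ (2 * d))⁻¹)

/-! ### Neumann series -/

lemma neumann {ι : Type*} (κ : ι → ι → ℂ) (hs : ∀ m, Summable (fun m' => ‖κ m m'‖))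
    (hb : ∀ m, ∑' m', ‖κ m m'‖ ≤ 1 / 2) (f : ι → ℂ) (hf : ∀ m, ‖f m‖ ≤ 1) :
    ∃ a : ι → ℂ, (∃ B, ∀ m, ‖a m‖ ≤ B) ∧ ∀ m, a m + ∑' m', κ m m' * a m' = f m := by
  let _ : TopologicalSpace ι := ⊥
  have _ : DiscreteTopology ι := ⟨rfl⟩
  have hsum : ∀ (a : ι → ℂ) (B : ℝ), (∀ m, ‖a m‖ ≤ B) → ∀ m,
      Summable (fun m' => κ m m' * a m') ∧ ‖∑' m', κ m m' * a m'‖ ≤ 1 / 2 * B := by
    intro a B hB m
    have hB0 : 0 ≤ B := (norm_nonneg _).trans (hB m)
    have h1 : Summable (fun m' => ‖κ m m'‖ * B) := (hs m).mul_right B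
    have h2 : ∀ m', ‖κ m m' * a m'‖ ≤ ‖κ m m'‖ * B := fun m' => by
      rw [norm_mul]; exact mul_le_mul_of_nonneg_left (hB m') (norm_nonneg _)
    have h3 : Summable (fun m' => ‖κ m m' * a m'‖) :=
      Summable.of_nonneg_of_le (fun _ => norm_nonneg _) h2 h1
    refine ⟨h3.of_norm, ?_⟩
    refine (norm_tsum_le_tsum_norm h3).trans ((h3.tsum_le_tsum h2 h1).trans ?_)
    rw [tsum_mul_right]
    exact mul_le_mul_of_nonneg_right (hb m) hB0
  let F : BoundedContinuousFunction ι ℂ → BoundedContinuousFunction ι ℂ := fun a =>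
    BoundedContinuousFunction.ofNormedAddCommGroupDiscrete
      (fun m => f m - ∑' m', κ m m' * a m') (1 + 1 / 2 * ‖a‖) (by
        intro m
        refine (norm_sub_le _ _).trans (add_le_add (hf m) ?_)
        exact (hsum a ‖a‖ (fun m => a.norm_coe_le_norm m) m).2)
  have hF : ContractingWith (1/2) F := by
    refine ⟨by
      rw [← NNReal.coe_lt_coe]; norm_num, ?_⟩
    apply LipschitzWith.of_dist_le_mul
    intro a b
    rw [dist_eq_norm, dist_eq_norm]
    rw [BoundedContinuousFunction.norm_le (by positivity)]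
    intro m
    have e1 : (F a - F b) m = -∑' m', κ m m' * (a - b) m' := by
      have ha := (hsum a ‖a‖ (fun m => a.norm_coe_le_norm m) m).1
      have hb' := (hsum b ‖b‖ (fun m => b.norm_coe_le_norm m) m).1
      change (f m - ∑' m', κ m m' * a m') - (f m - ∑' m', κ m m' * b m') = _
      have : (fun m' => κ m m' * (a - b) m') = fun m' => κ m m' * a m' - κ m m' * b m' := by
        ext m'; simp [mul_sub]
      rw [this, ha.tsum_sub hb']
      ring
    rw [e1, norm_neg]
    refine ((hsum (a - b) ‖a - b‖ (fun m => (a - b).norm_coe_le_norm m) m).2).trans ?_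
    simp
  have _ : Nonempty (BoundedContinuousFunction ι ℂ) := ⟨0⟩
  let a := ContractingWith.fixedPoint F hF
  have ha : F a = a := hF.fixedPoint_isFixedPt
  refine ⟨a, ⟨‖a‖, fun m => a.norm_coe_le_norm m⟩, fun m => ?_⟩
  have h1 : (F a) m = a m := by rw [ha]
  change f m - ∑' m', κ m m' * a m' = a m at h1
  rw [← h1]
  ring

end FQ
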