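import Pool.Agent.Helper17.FQKey

/-!
# Linear growth of the spectrum in the lattice norm
-/

open scoped BigOperators SchwartzMap FourierTransform RealInnerProductSpace ContDiff
open MeasureTheory Complex Filter Topology

noncomputable section

namespace FQ

variable {d n : ℕ}

namespace FQG

variable (G : FQG d n)

lemma Cc_sub (f g : A n) (r : Gm n) : G.Cc (f - g) r = G.Cc f r - G.Cc g r := by
  have h : ∀ f : A n, G.Cc f r = f.coeff.sum fun q a => a * G.cc (r - q) := fun f => rfl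
  rw [h, h, h, AddMonoidAlgebra.coeff_sub]
  exact Finsupp.sum_sub_index fun q a b => by ring

lemma Cc_one (r : Gm n) : G.Cc 1 r = G.cc r := by
  have h : ∀ f : A n, G.Cc f r = f.coeff.sum fun q a => a * G.cc (r - q) := fun f => rfl
  rw [h, AddMonoidAlgebra.one_def, AddMonoidAlgebra.coeff_single, Finsupp.sum_single_index]
  · simp
  · simp

/-- numeric step -/
lemma numstep {x y s w ε B : ℝ} (hε : 0 < ε) (hx : B ^ 2 / ε + ε ≤ x) (hy : 0 ≤ y)
    (h8 : y ^ 2 = x ^ 2 - 2 * s + w) (h6 : ε * x ≤ s) (h9 : w ≤ B ^ 2) : y ≤ x - ε / 2 := by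
  have h0 : 0 ≤ B ^ 2 / ε := by positivity
  have h10 : B ^ 2 ≤ ε * x := by
    have : B ^ 2 / ε ≤ x := by linarith
    rw [div_le_iff₀ hε] at this
    linarith
  have h11 : y ^ 2 ≤ (x - ε / 2) ^ 2 := by
    nlinarith [sq_nonneg ε]
  have h12 : 0 ≤ x - ε / 2 := by linarith
  exact (sq_le_sq₀ hy h12).mp h11

/-- **Linear bound.** -/
theorem linear_bound (hJ : G.HJ) : ∃ C : ℝ, 0 ≤ C ∧ ∀ q, G.cc q ≠ 0 → ‖q‖ ≤ C * (1 + ‖G.L q‖) := by
  classical
  -- a relation for every direction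
  have h1 : ∀ u : Metric.sphere (0 : E d) 1, ∃ σ : A n, 1 - σ ∈ G.I ∧
      SuppIn σ {q | 0 < (⟪(u : E d), G.L q⟫ : ℝ)} := by
    intro u
    have hu : (u : E d) ≠ 0 := by
      intro h
      have := u.2
      rw [h] at this
      simp at this
    obtain ⟨σ, h2, h3⟩ := G.exists_dir hJ (-(u : E d)) (neg_ne_zero.mpr hu)
    refine ⟨σ, h2, h3.mono fun q hq => ?_⟩
    simp only [Set.mem_ofPred_eq, inner_neg_left] at *
    linarith
  choose σ hσI hσS using h1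
  have h2 : ∀ u : Metric.sphere (0 : E d) 1, ∃ δ : ℝ, 0 < δ ∧
      ∀ q ∈ (σ u).coeff.support, δ < (⟪(u : E d), G.L q⟫ : ℝ) := by
    intro u
    rcases (σ u).coeff.support.eq_empty_or_nonempty with h | h
    · exact ⟨1, one_pos, by simp [h]⟩
    · obtain ⟨q₀, hq₀, hmin⟩ := Finset.exists_min_image _ (fun q => (⟪(u : E d), G.L q⟫ : ℝ)) h
      have h3 := hσS u q₀ (by simpa using hq₀)
      simp only [Set.mem_ofPred_eq] at h3
      exact ⟨(⟪(u : E d), G.L q₀⟫ : ℝ) / 2, by positivity, fun q hq => by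
        have := hmin q hq
        linarith⟩
  choose δ hδ0 hδ using h2
  -- compactness
  have hcomp : IsCompact (Metric.sphere (0 : E d) 1) := isCompact_sphere 0 1
  obtain ⟨T, hT⟩ := hcomp.elim_finite_subcover
    (fun u : Metric.sphere (0 : E d) 1 =>
      {v : E d | ∀ q ∈ (σ u).coeff.support, δ u < (⟪v, G.L q⟫ : ℝ)})
    (fun u => by
      have : {v : E d | ∀ q ∈ (σ u).coeff.support, δ u < (⟪v, G.L q⟫ : ℝ)} =
          ⋂ q ∈ (σ u).coeff.support, {v : E d | δ u < (⟪v, G.L q⟫ : ℝ)} := by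
        ext v; simp
      rw [this]
      apply isOpen_biInter_finset
      intro q _
      exact isOpen_lt continuous_const (by fun_prop))
    (fun u hu => Set.mem_iUnion.mpr ⟨⟨u, hu⟩, hδ ⟨u, hu⟩⟩)
  -- uniform constants
  obtain ⟨ε, hε0, hε⟩ : ∃ ε : ℝ, 0 < ε ∧ ∀ u ∈ T, ε ≤ δ u := by
    rcases T.eq_empty_or_nonempty with h | h
    · exact ⟨1, one_pos, by simp [h]⟩
    · obtain ⟨u₀, hu₀, hmin⟩ := Finset.exists_min_image _ δ h
      exact ⟨δ u₀, hδ0 u₀, fun u hu => hmin u hu⟩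
  set B : ℝ := ∑ u ∈ T, ∑ q ∈ (σ u).coeff.support, ‖G.L q‖ with hB
  set C₃ : ℝ := ∑ u ∈ T, ∑ q ∈ (σ u).coeff.support, ‖q‖ with hC₃
  have hB0 : 0 ≤ B := Finset.sum_nonneg fun _ _ => Finset.sum_nonneg fun _ _ => norm_nonneg _
  have hC0 : 0 ≤ C₃ := Finset.sum_nonneg fun _ _ => Finset.sum_nonneg fun _ _ => norm_nonneg _
  have hBq : ∀ u ∈ T, ∀ q ∈ (σ u).coeff.support, ‖G.L q‖ ≤ B := by
    intro u hu q hq
    have h3 : ‖G.L q‖ ≤ ∑ q ∈ (σ u).coeff.support, ‖G.L q‖ :=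
      Finset.single_le_sum (f := fun q => ‖G.L q‖) (fun _ _ => norm_nonneg _) hq
    exact h3.trans (Finset.single_le_sum
      (f := fun u => ∑ q ∈ (σ u).coeff.support, ‖G.L q‖)
      (fun _ _ => Finset.sum_nonneg fun _ _ => norm_nonneg _) hu)
  have hCq : ∀ u ∈ T, ∀ q ∈ (σ u).coeff.support, ‖q‖ ≤ C₃ := by
    intro u hu q hq
    have h3 : ‖q‖ ≤ ∑ q ∈ (σ u).coeff.support, ‖q‖ :=
      Finset.single_le_sum (f := fun q => ‖q‖) (fun _ _ => norm_nonneg _) hq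
    exact h3.trans (Finset.single_le_sum
      (f := fun u => ∑ q ∈ (σ u).coeff.support, ‖q‖)
      (fun _ _ => Finset.sum_nonneg fun _ _ => norm_nonneg _) hu)
  set R₃ : ℝ := B ^ 2 / ε + ε with hR₃
  have hR0 : 0 < R₃ := by positivity
  -- the step
  have hstep : ∀ q, G.cc q ≠ 0 → R₃ ≤ ‖G.L q‖ →
      ∃ p, G.cc (q - p) ≠ 0 ∧ ‖p‖ ≤ C₃ ∧ ‖G.L (q - p)‖ ≤ ‖G.L q‖ - ε / 2 := by
    intro q hq hqR
    have hLq : 0 < ‖G.L q‖ := hR0.trans_le hqR
    have hsph : (‖G.L q‖⁻¹ • G.L q) ∈ Metric.sphere (0 : E d) 1 := by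
      simp only [mem_sphere_iff_norm, sub_zero, norm_smul, norm_inv, norm_norm]
      exact inv_mul_cancel₀ hLq.ne'
    obtain ⟨u, hu⟩ := Set.mem_iUnion.mp (hT hsph)
    obtain ⟨huT, hu2⟩ := Set.mem_iUnion.mp hu
    simp only [Set.mem_ofPred_eq] at hu2
    have h3 := G.Cc_eq_zero (hσI u) q
    rw [G.Cc_sub, G.Cc_one] at h3
    have h4 : G.Cc (σ u) q ≠ 0 := by
      intro h; rw [h, sub_zero] at h3; exact hq h3
    obtain ⟨p, hp, hp2⟩ := Finset.exists_ne_zero_of_sum_ne_zero h4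
    refine ⟨p, right_ne_zero_of_mul hp2, hCq u huT p hp, ?_⟩
    have h5 := hu2 p hp
    rw [inner_smul_left] at h5
    simp only [conj_trivial] at h5
    have h6 : ε * ‖G.L q‖ ≤ ⟪G.L q, G.L p⟫ := by
      have h7 : ε < ‖G.L q‖⁻¹ * ⟪G.L q, G.L p⟫ := (hε u huT).trans_lt h5
      rw [inv_mul_eq_div, lt_div_iff₀ hLq] at h7
      exact h7.le
    have h8 : ‖G.L (q - p)‖ ^ 2 = ‖G.L q‖ ^ 2 - 2 * ⟪G.L q, G.L p⟫ + ‖G.L p‖ ^ 2 := by
      rw [map_sub, norm_sub_sq_real]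
    have h9 : ‖G.L p‖ ^ 2 ≤ B ^ 2 := by
      have := hBq u huT p hp
      gcongr
    exact numstep hε0 hqR (norm_nonneg _) h8 h6 h9
  -- bounded part
  have hfin := G.fin R₃
  set M₀ : ℝ := ∑ q ∈ hfin.toFinset, ‖q‖ with hM₀
  have hM0 : 0 ≤ M₀ := Finset.sum_nonneg fun _ _ => norm_nonneg _
  have hind : ∀ k : ℕ, ∀ q, G.cc q ≠ 0 → ‖G.L q‖ ≤ R₃ + k * (ε / 2) → ‖q‖ ≤ M₀ + k * C₃ := by
    intro k
    induction k with
    | zero =>
      intro q hq hqR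
      have : q ∈ hfin.toFinset := by
        rw [Set.Finite.mem_toFinset]
        exact ⟨hq, by simpa using hqR⟩
      have h3 : ‖q‖ ≤ M₀ := Finset.single_le_sum (f := fun q => ‖q‖) (fun _ _ => norm_nonneg _) this
      simpa using h3
    | succ k ih =>
      intro q hq hqR
      by_cases hc : R₃ ≤ ‖G.L q‖
      · obtain ⟨p, hp1, hp2, hp3⟩ := hstep q hq hc
        have h3 := ih (q - p) hp1 (by push_cast at hqR; linarith)
        have h4 : ‖q‖ ≤ ‖q - p‖ + ‖p‖ := by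
          calc ‖q‖ = ‖(q - p) + p‖ := by congr 1; abel
            _ ≤ _ := norm_add_le _ _
        push_cast
        linarith
      · push Not at hc
        have h3 := ih q hq (hc.le.trans (by
          have : 0 ≤ (k:ℝ) * (ε / 2) := by positivity
          linarith))
        push_cast
        linarith
  refine ⟨M₀ + (2 / ε + 1) * C₃, by positivity, fun q hq => ?_⟩
  obtain ⟨k, hk1, hk2⟩ : ∃ k : ℕ, ‖G.L q‖ ≤ k * (ε / 2) ∧ (k:ℝ) ≤ 2 / ε * ‖G.L q‖ + 1 := by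
    refine ⟨⌈2 / ε * ‖G.L q‖⌉₊, ?_, (Nat.ceil_lt_add_one (by positivity)).le⟩
    have h3 := Nat.le_ceil (2 / ε * ‖G.L q‖)
    calc ‖G.L q‖ = (2 / ε * ‖G.L q‖) * (ε / 2) := by field_simp
      _ ≤ _ := by gcongr
  have h3 := hind k q hq (by linarith)
  have h4 := norm_nonneg (G.L q)
  have h5 : 0 < 2 / ε := by positivity
  calc ‖q‖ ≤ M₀ + k * C₃ := h3
    _ ≤ M₀ + (2 / ε * ‖G.L q‖ + 1) * C₃ := by gcongr
    _ ≤ (M₀ + (2 / ε + 1) * C₃) * (1 + ‖G.L q‖) := by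
        have h6 : 0 ≤ M₀ * ‖G.L q‖ := by positivity
        have h7 : 0 ≤ 2 / ε * C₃ := by positivity
        have h8 : 0 ≤ C₃ * ‖G.L q‖ := by positivity
        nlinarith

end FQG

end FQ
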