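import Pool.Agent.Helper17.FQHJ

/-!
# Fourier quasicrystal sets: definitions and the passage to the data used in the proof
-/

open scoped BigOperators SchwartzMap FourierTransform RealInnerProductSpace ContDiff
open MeasureTheory Complex Filter Topology

noncomputable section

namespace FQ

variable {d : ℕ}

/-- A set of points of a Euclidean space is locally finite if it has finitely many points in every
closed ball centred at the origin. -/
def LocFin (S : Set (EuclideanSpace ℝ (Fin d))) : Prop :=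
  ∀ R : ℝ, (S ∩ Metric.closedBall 0 R).Finite

/-- Fourier quasicrystal sets. -/
def IsFQ (S : Set (EuclideanSpace ℝ (Fin d))) : Prop :=
  ∃ (S' : Set (EuclideanSpace ℝ (Fin d))) (c : EuclideanSpace ℝ (Fin d) → ℂ),
    (∀ ξ ∈ S', c ξ ≠ 0) ∧
    (∀ f : 𝓢(EuclideanSpace ℝ (Fin d), ℂ), ∑' x : S, (𝓕 f : 𝓢(EuclideanSpace ℝ (Fin d), ℂ)) x =
      ∑' ξ : S', c ξ * f ξ) ∧
    LocFin S ∧ LocFin S' ∧
    ∃ C : ℝ, 0 < C ∧ ∃ m : ℕ, ∀ R : ℝ, 1 < R →
      ((S ∩ Metric.ball 0 R).ncard : ℝ) + ∑' ξ : (S' ∩ Metric.ball 0 R : Set _), ‖c ξ‖ ≤ C * R ^ m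

/-- Trigonometric polynomials on `ℂ^d` with real frequencies. -/
def IsTrig (f : (Fin d → ℂ) → ℂ) : Prop :=
  ∃ (N : ℕ) (a : Fin N → ℂ) (l : Fin N → Fin d → ℝ), ∀ x : Fin d → ℂ,
    f x = ∑ k, a k * Complex.exp (2 * Real.pi * Complex.I * ∑ j, (l k j : ℂ) * x j)

lemma summable_growth {S : Set (E d)} {C : ℝ} {m : ℕ} (hC : 0 ≤ C)
    (hfin : LocFin S) (hg : ∀ R : ℝ, 1 < R → ((S ∩ Metric.ball 0 R).ncard : ℝ) ≤ C * R ^ m) :
    Summable fun x : S => ((1 + ‖(x : E d)‖) ^ (m + 2))⁻¹ := by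
  classical
  have hs : Summable fun k : ℕ => C * 2 ^ m * ((1 + (k:ℝ)) ^ 2)⁻¹ := by
    apply Summable.mul_left
    have := (Real.summable_one_div_nat_add_rpow 1 2).mpr (by norm_num)
    refine this.congr fun k => ?_
    rw [abs_of_nonneg (by positivity), one_div, add_comm]
    norm_cast
  apply summable_of_sum_le (c := ∑' k : ℕ, C * 2 ^ m * ((1 + (k:ℝ)) ^ 2)⁻¹)
    (fun x => by positivity)
  intro u
  have h1 : ∑ x ∈ u, ((1 + ‖(x : E d)‖) ^ (m + 2))⁻¹ =
      ∑ k ∈ u.image (fun x : S => ⌊‖(x : E d)‖⌋₊),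
        ∑ x ∈ u.filter (fun x : S => ⌊‖(x : E d)‖⌋₊ = k), ((1 + ‖(x : E d)‖) ^ (m + 2))⁻¹ :=
    (Finset.sum_fiberwise_of_maps_to (fun x hx => Finset.mem_image_of_mem _ hx) _).symm
  rw [h1]
  refine le_trans (Finset.sum_le_sum fun k _ => ?_) (hs.sum_le_tsum _ fun k _ => by positivity)
  have h2 : ∀ x ∈ u.filter (fun x : S => ⌊‖(x : E d)‖⌋₊ = k),
      ((1 + ‖(x : E d)‖) ^ (m + 2))⁻¹ ≤ ((1 + (k:ℝ)) ^ (m + 2))⁻¹ := by
    intro x hx
    rw [Finset.mem_filter] at hx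
    have h3 : (k : ℝ) ≤ ‖(x : E d)‖ := by
      rw [← hx.2]; exact Nat.floor_le (norm_nonneg _)
    exact inv_anti₀ (by positivity) (pow_le_pow_left₀ (by positivity) (by linarith) _)
  refine (Finset.sum_le_sum h2).trans ?_
  rw [Finset.sum_const, nsmul_eq_mul]
  have h4 : ((u.filter (fun x : S => ⌊‖(x : E d)‖⌋₊ = k)).card : ℝ) ≤ C * ((k:ℝ) + 2) ^ m := by
    refine le_trans ?_ (hg ((k:ℝ) + 2) (by
      have : (0:ℝ) ≤ k := Nat.cast_nonneg k
      linarith))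
    norm_cast
    rw [← Finset.card_image_of_injective _ (Subtype.val_injective (p := fun x => x ∈ S)),
      ← Set.ncard_coe_finset]
    apply Set.ncard_le_ncard
    · intro x hx
      simp only [Finset.coe_image, Set.mem_image, Finset.mem_coe, Finset.mem_filter] at hx
      obtain ⟨x', ⟨_, hx'⟩, rfl⟩ := hx
      refine ⟨x'.2, ?_⟩
      rw [mem_ball_zero_iff]
      have := Nat.lt_floor_add_one ‖(x' : E d)‖
      rw [hx'] at this
      push_cast
      linarith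
    · refine (hfin ((k:ℝ) + 2)).subset ?_
      refine Set.inter_subset_inter_right _ ?_
      push_cast
      exact Metric.ball_subset_closedBall
  calc ((u.filter (fun x : S => ⌊‖(x : E d)‖⌋₊ = k)).card : ℝ) * ((1 + (k:ℝ)) ^ (m + 2))⁻¹
      ≤ (C * ((k:ℝ) + 2) ^ m) * ((1 + (k:ℝ)) ^ (m + 2))⁻¹ :=
        mul_le_mul_of_nonneg_right h4 (by positivity)
    _ ≤ (C * (2 * (1 + (k:ℝ))) ^ m) * ((1 + (k:ℝ)) ^ (m + 2))⁻¹ := by
        gcongr
        linarith [(Nat.cast_nonneg k : (0:ℝ) ≤ k)]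
    _ = C * 2 ^ m * ((1 + (k:ℝ)) ^ 2)⁻¹ := by
        rw [mul_pow, pow_add]
        have : (1 + (k:ℝ)) ≠ 0 := by positivity
        field_simp

/-- An FQ-set gives data. -/
lemma exists_FQS {S : Set (E d)} (h : IsFQ S) : ∃ F : FQS d, F.L = S := by
  classical
  obtain ⟨S', c, hc, hfq, hfin, hfin', C, hC, m, hg⟩ := h
  have hg' : ∀ R : ℝ, 1 < R → ((S ∩ Metric.ball 0 R).ncard : ℝ) ≤ C * R ^ m := by
    intro R hR
    have h1 := hg R hR
    have h2 : 0 ≤ ∑' ξ : (S' ∩ Metric.ball 0 R : Set _), ‖c ξ‖ := tsum_nonneg fun _ => norm_nonneg _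
    linarith
  have hsum := summable_growth hC.le hfin hg'
  refine ⟨⟨S, fun ξ => if ξ ∈ S' then c ξ else 0, ?_, ?_, ?_⟩, rfl⟩
  · intro R
    refine (hfin' R).subset ?_
    rintro ξ ⟨h1, h2⟩
    refine ⟨?_, by simpa using h2⟩
    by_contra hcon
    exact h1 (if_neg hcon)
  · intro h η r H t
    obtain ⟨K, hK, hdec⟩ := (H.mul_ex t).decay (m + 2)
    refine Summable.of_norm_bounded (hsum.mul_left K) fun x => ?_
    rw [psi_cx_sub, ← psi_cx]
    exact hdec x
  · intro h η r H t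
    have h1 := hfq (H.mul_ex t).toS
    have h2 : ∀ x : E d, (𝓕 (H.mul_ex t).toS : 𝓢(E d, ℂ)) x = psi h (cx x - t) := by
      intro x
      rw [psi_cx_sub, SchwartzMap.fourier_coe]; rfl
    simp only [h2, TF.toS_apply] at h1
    refine h1.trans ?_
    rw [tsum_subtype S' (fun ξ => c ξ * (h ξ * ex ξ t))]
    refine tsum_congr fun ξ => ?_
    by_cases hξ : ξ ∈ S'
    · rw [Set.indicator_of_mem hξ, if_pos hξ]; ring
    · rw [Set.indicator_of_notMem hξ, if_neg hξ]; ring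

lemma isTrig_ev {n : ℕ} (G : FQG d n) (f : A n) : IsTrig fun z => G.ev z f := by
  refine ⟨f.coeff.support.card, fun k => f.coeff (f.coeff.support.equivFin.symm k),
    fun k j => G.L (f.coeff.support.equivFin.symm k) j, fun x => ?_⟩
  simp only [G.ev_eq]
  rw [← Finset.sum_coe_sort,
    ← f.coeff.support.equivFin.symm.sum_comp (fun q => f.coeff q * ex (G.L q) x)]
  rfl

theorem main (S : Set (E d)) (hS : IsFQ S) :
    ∃ (m : ℕ) (f : Fin m → (Fin d → ℂ) → ℂ), (∀ i, IsTrig (f i)) ∧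
      ∀ z : Fin d → ℂ, (∀ i, f i z = 0) ↔ ∃ x ∈ S, ∀ j, z j = ((x j : ℝ) : ℂ) := by
  classical
  obtain ⟨F, rfl⟩ := exists_FQS hS
  obtain ⟨n, G, rfl⟩ := exists_FQG F
  obtain ⟨s, hs⟩ := (isNoetherianRing_iff_ideal_fg _).mp (noeth_A n) G.I
  refine ⟨s.card, fun i z => G.ev z (s.equivFin.symm i : A n), fun i => isTrig_ev G _,
    fun z => ⟨fun hz => ?_, ?_⟩⟩
  · obtain ⟨x, hx, hxz⟩ := G.zero_set G.HJ_holds z (by
      intro f hf
      have h1 : G.I ≤ RingHom.ker (G.ev z).toRingHom := by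
        rw [← hs, Ideal.span_le]
        intro g hg
        have := hz (s.equivFin ⟨g, hg⟩)
        simpa using this
      exact h1 hf)
    exact ⟨x, hx, fun j => by rw [← hxz]; rfl⟩
  · rintro ⟨x, hx, hxz⟩ i
    have h1 : z = cx x := by ext j; exact hxz j
    simp only [h1]
    have h2 : (s.equivFin.symm i : A n) ∈ G.I := by
      rw [← hs]; exact Ideal.subset_span (s.equivFin.symm i).2
    exact (G.mem_I _).mp h2 x hx

end FQ
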