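import Pool.Agent.Helper17.FQUniq

/-!
# Averages of exponentials
-/

open scoped BigOperators SchwartzMap FourierTransform RealInnerProductSpace ContDiff
open MeasureTheory Complex Filter Topology

noncomputable section

namespace FQ

variable {d : ℕ}

/-- averaging along multiples of `η` -/
def Av (η : E d) (N : ℕ) (f : E d → ℂ) : ℂ := (N : ℂ)⁻¹ * ∑ n ∈ Finset.range N, f ((n : ℝ) • η)

lemma Av_add (η : E d) (N : ℕ) (f g : E d → ℂ) :
    Av η N (fun t => f t + g t) = Av η N f + Av η N g := by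
  simp [Av, Finset.sum_add_distrib, mul_add]

lemma Av_sum (η : E d) (N : ℕ) {ι : Type*} (s : Finset ι) (f : ι → E d → ℂ) :
    Av η N (fun t => ∑ i ∈ s, f i t) = ∑ i ∈ s, Av η N (f i) := by
  simp only [Av]
  rw [Finset.sum_comm, Finset.mul_sum]

lemma Av_const_mul (η : E d) (N : ℕ) (a : ℂ) (f : E d → ℂ) :
    Av η N (fun t => a * f t) = a * Av η N f := by
  simp only [Av, ← Finset.mul_sum]
  ring

lemma norm_Av_le (η : E d) (N : ℕ) (f : E d → ℂ) {B : ℝ} (hB : ∀ t, ‖f t‖ ≤ B) :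
    ‖Av η N f‖ ≤ B := by
  have hB0 : 0 ≤ B := (norm_nonneg _).trans (hB 0)
  unfold Av
  rw [norm_mul, norm_inv, Complex.norm_natCast]
  rcases Nat.eq_zero_or_pos N with h | h
  · simp [h, hB0]
  · have hN : (0:ℝ) < N := by exact_mod_cast h
    rw [inv_mul_le_iff₀ hN]
    refine (norm_sum_le _ _).trans ?_
    refine (Finset.sum_le_sum fun n _ => hB _).trans ?_
    simp

lemma Av_re_nonneg (η : E d) (N : ℕ) (f : E d → ℂ) (hf : ∀ t, 0 ≤ (f t).re) :
    0 ≤ (Av η N f).re := by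
  unfold Av
  have : ((N : ℂ)⁻¹ * ∑ n ∈ Finset.range N, f ((n : ℝ) • η)).re =
      (N : ℝ)⁻¹ * ∑ n ∈ Finset.range N, (f ((n : ℝ) • η)).re := by
    rw [← Complex.re_sum, ← Complex.re_ofReal_mul]
    push_cast
    rfl
  rw [this]
  exact mul_nonneg (by positivity) (Finset.sum_nonneg fun n _ => hf _)

/-- a direction along which all given exponentials average to zero -/
lemma exists_avg (P : Finset (E d)) : ∃ η : E d, ∀ q ∈ P,
    Tendsto (fun N : ℕ => Av η N (fun t => ex q (cx t))) atTop (𝓝 (if q = 0 then 1 else 0)) := by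
  classical
  -- generic direction
  obtain ⟨v, hv⟩ : ∃ v : E d, ∀ q ∈ P, q ≠ 0 → ⟪q, v⟫ ≠ (0:ℝ) := by
    let ι := {q : E d // q ∈ P ∧ q ≠ 0}
    have : Finite ι := by
      have : {q : E d | q ∈ P ∧ q ≠ 0}.Finite := (P.finite_toSet).subset fun q hq => hq.1
      exact this.to_subtype
    obtain ⟨v, hv⟩ := Module.Dual.exists_forall_ne_zero_of_forall_exists
      (fun i : ι => (innerSL ℝ (i : E d)).toLinearMap) (fun i => ⟨i, by
        simp only [ContinuousLinearMap.coe_coe, innerSL_apply_apply]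
        rw [real_inner_self_eq_norm_sq]
        exact pow_ne_zero _ (norm_ne_zero_iff.mpr i.2.2)⟩)
    exact ⟨v, fun q hq hq0 => by simpa using hv ⟨q, hq, hq0⟩⟩
  -- scale
  set M : ℝ := ∑ q ∈ P, |(⟪q, v⟫ : ℝ)| with hM
  have hM0 : 0 ≤ M := Finset.sum_nonneg fun _ _ => abs_nonneg _
  set c : ℝ := 1 / (2 * (M + 1)) with hc
  have hc0 : 0 < c := by positivity
  refine ⟨c • v, fun q hq => ?_⟩
  by_cases hq0 : q = 0
  · rw [if_pos hq0]
    apply tendsto_const_nhds.congr'
    filter_upwards [eventually_gt_atTop 0] with N hN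
    simp only [Av, hq0, ex_zero_left, Finset.sum_const, Finset.card_range, nsmul_eq_mul, mul_one]
    rw [inv_mul_cancel₀]
    exact_mod_cast hN.ne'
  · rw [if_neg hq0]
    set u : ℂ := ex q (cx (c • v)) with hu
    have hu1 : ‖u‖ = 1 := norm_ex_cx _ _
    have hune : u ≠ 1 := by
      intro h
      rw [hu, ex_cx, Complex.exp_eq_one_iff] at h
      obtain ⟨n, hn⟩ := h
      have h3 : ((2 * Real.pi * ⟪q, c • v⟫ : ℝ) : ℂ) = 2 * Real.pi * n := by
        have hI : (I : ℂ) ≠ 0 := Complex.I_ne_zero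
        apply mul_right_cancel₀ hI
        rw [hn]; ring
      have h4 : 2 * Real.pi * ⟪q, c • v⟫ = 2 * Real.pi * n := by exact_mod_cast h3
      have h5 : (⟪q, c • v⟫ : ℝ) = n := mul_left_cancel₀ (by positivity) h4
      rw [inner_smul_right] at h5
      have h6 : |c * (⟪q, v⟫:ℝ)| ≤ 1 / 2 := by
        rw [abs_mul, abs_of_pos hc0]
        have : |(⟪q, v⟫:ℝ)| ≤ M := Finset.single_le_sum (f := fun q : E d => |(⟪q, v⟫:ℝ)|)
          (fun _ _ => abs_nonneg _) hq
        calc c * |(⟪q, v⟫:ℝ)| ≤ c * (M + 1) := by gcongr; linarith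
          _ = 1 / 2 := by rw [hc]; field_simp
      rw [h5] at h6
      have h7 : |n| < 1 := by
        have : |(n:ℝ)| < 1 := by linarith
        exact_mod_cast this
      have h8 : n = 0 := Int.abs_lt_one_iff.mp h7
      rw [h8] at h5
      have h9 : (c : ℝ) * ⟪q, v⟫ ≠ 0 := mul_ne_zero hc0.ne' (hv q hq hq0)
      apply h9
      simpa using h5
    have hpow : ∀ n : ℕ, ex q (cx ((n:ℝ) • (c • v))) = u ^ n := by
      intro n
      rw [hu, ← ex_nsmul_left, ex_cx, ex_cx, inner_smul_right, ← Nat.cast_smul_eq_nsmul ℝ,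
        inner_smul_left]
      simp
    rw [tendsto_zero_iff_norm_tendsto_zero]
    have hbd : ∀ N : ℕ, ‖Av (c • v) N (fun t => ex q (cx t))‖ ≤ 2 / ‖u - 1‖ * (N : ℝ)⁻¹ := by
      intro N
      simp only [Av, hpow]
      rw [geom_sum_eq hune, norm_mul, norm_inv, Complex.norm_natCast, norm_div, mul_comm]
      gcongr
      refine (norm_sub_le _ _).trans ?_
      rw [norm_pow, hu1, one_pow, norm_one]
      norm_num
    refine squeeze_zero (fun _ => norm_nonneg _) hbd ?_
    have := (tendsto_inv_atTop_nhds_zero_nat (𝕜 := ℝ)).const_mul (2 / ‖u - 1‖)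
    simpa using this

/-- Approximation of the trivial character on `T`, away from the trivial one at `ξ₀`. -/
lemma exists_char_approx (T : Finset (E d)) (ξ₀ : E d)
    (hξ₀ : ξ₀ ∉ AddSubgroup.closure (T : Set (E d))) {ε : ℝ} (hε : 0 < ε) :
    ∃ t : E d, (∀ ξ ∈ T, ‖ex ξ (cx t) - 1‖ < ε) ∧ 1 / 2 ≤ 1 - (ex ξ₀ (cx t)).re := by
  classical
  -- Følner sets
  set F : ℕ → Finset (E d) := fun N =>
    (Fintype.piFinset (fun _ : T => Finset.range N)).image (fun n => ∑ i : T, n i • (i : E d))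
    with hF
  have hFmem : ∀ N x, x ∈ F N ↔ ∃ n : T → ℕ, (∀ i, n i < N) ∧ ∑ i : T, n i • (i : E d) = x := by
    intro N x
    simp only [hF, Finset.mem_image, Fintype.mem_piFinset, Finset.mem_range]
  have hFΓ : ∀ N, ∀ x ∈ F N, x ∈ AddSubgroup.closure (T : Set (E d)) := by
    intro N x hx
    obtain ⟨n, -, rfl⟩ := (hFmem N x).mp hx
    exact AddSubgroup.sum_mem _ fun i _ => AddSubgroup.nsmul_mem _
      (AddSubgroup.subset_closure i.2) _
  have hFmono : ∀ N, F N ⊆ F (N + 1) := by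
    intro N x hx
    obtain ⟨n, hn, h⟩ := (hFmem N x).mp hx
    exact (hFmem _ x).mpr ⟨n, fun i => (hn i).trans (Nat.lt_succ_self N), h⟩
  have hFadd : ∀ N, ∀ ξ ∈ T, ∀ x ∈ F N, x + ξ ∈ F (N + 1) := by
    intro N ξ hξ x hx
    obtain ⟨n, hn, h⟩ := (hFmem N x).mp hx
    refine (hFmem _ _).mpr ⟨fun i => n i + if i = ⟨ξ, hξ⟩ then 1 else 0, fun i => ?_, ?_⟩
    · have := hn i
      change (n i + if i = ⟨ξ, hξ⟩ then 1 else 0) < N + 1
      split_ifs <;> omega
    · simp only [add_smul, Finset.sum_add_distrib, h]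
      congr 1
      simp
  have hFcard : ∀ N, (F N).card ≤ N ^ T.card := by
    intro N
    refine Finset.card_image_le.trans ?_
    rw [Fintype.card_piFinset]
    simp
  have hF1 : 1 ≤ (F 1).card := by
    rw [Nat.one_le_iff_ne_zero, Finset.card_ne_zero]
    exact ⟨0, (hFmem 1 0).mpr ⟨fun _ => 0, fun _ => Nat.lt_one_iff.mpr rfl, by simp⟩⟩
  -- growth
  have hgrow : ∀ δ : ℝ, 0 < δ → ∃ N, 1 ≤ N ∧ ((F (N + 1)).card : ℝ) ≤ (1 + δ) * (F N).card := by
    intro δ hδ
    by_contra hcon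
    push Not at hcon
    have h1 : ∀ k : ℕ, (1 + δ) ^ k ≤ ((F (k + 1)).card : ℝ) := by
      intro k
      induction k with
      | zero => simpa using hF1
      | succ k ih =>
        have := hcon (k + 1) (by omega)
        rw [pow_succ]
        nlinarith
    have h2 : ∀ k : ℕ, (1 + δ) ^ k ≤ ((k:ℝ) + 1) ^ T.card := by
      intro k
      refine (h1 k).trans ?_
      exact_mod_cast hFcard (k + 1)
    have h3 := tendsto_pow_const_div_const_pow_of_one_lt T.card (r := 1 + δ) (by linarith)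
    -- (k+1)^n/(1+δ)^k → 0
    have h4 : Tendsto (fun k : ℕ => (((k:ℝ) + 1) ^ T.card / (1 + δ) ^ k)) atTop (𝓝 0) := by
      have h5 := (h3.comp (tendsto_add_atTop_nat 1)).const_mul (1 + δ)
      rw [mul_zero] at h5
      refine h5.congr fun k => ?_
      simp only [Function.comp_apply]
      push_cast
      rw [pow_succ]
      field_simp
    have h5 := h4.eventually (gt_mem_nhds one_pos)
    obtain ⟨k, hk⟩ := h5.exists
    rw [div_lt_one (by positivity)] at hk
    linarith [h2 k]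
  -- choose δ
  obtain ⟨n, hn⟩ : ∃ n : ℝ, n = (T.card : ℝ) := ⟨_, rfl⟩
  have hn0 : 0 ≤ n := by rw [hn]; positivity
  set δ : ℝ := min 1 (ε ^ 2) / (64 * (n + 1)) with hδ
  have hδ0 : 0 < δ := by positivity
  obtain ⟨N, -, hN⟩ := hgrow δ hδ0
  set G := F N with hG
  have hG0 : (0:ℝ) < G.card := by
    have : 0 < (F 1).card := hF1
    have hne : G.Nonempty := by
      by_contra hh
      rw [Finset.not_nonempty_iff_eq_empty] at hh
      have h6 : (0:E d) ∈ F (N + 1) :=
        (hFmem _ 0).mpr ⟨fun _ => 0, fun _ => Nat.succ_pos _, by simp⟩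
      have h7 : 0 < (F (N+1)).card := Finset.card_pos.mpr ⟨0, h6⟩
      rw [hh] at hN
      simp only [Finset.card_empty, CharP.cast_eq_zero, mul_zero] at hN
      have h8 : (0:ℝ) < (F (N+1)).card := by exact_mod_cast h7
      linarith
    exact_mod_cast Finset.card_pos.mpr hne
  -- the overlap
  have hover : ∀ ξ ∈ T, (1 - δ) * G.card ≤ ((G.filter fun x => x + ξ ∈ G).card : ℝ) := by
    intro ξ hξ
    have h1 : (G.filter fun x => ¬ (x + ξ ∈ G)).card + G.card ≤ (F (N + 1)).card := by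
      have h2 : ((G.filter fun x => ¬ (x + ξ ∈ G)).image (fun x => x + ξ)).card =
          (G.filter fun x => ¬ (x + ξ ∈ G)).card :=
        Finset.card_image_of_injective _ (add_left_injective ξ)
      rw [← h2, ← Finset.card_union_of_disjoint]
      · apply Finset.card_le_card
        intro x hx
        rcases Finset.mem_union.mp hx with h | h
        · obtain ⟨y, hy, rfl⟩ := Finset.mem_image.mp h
          exact hFadd N ξ hξ y (Finset.mem_filter.mp hy).1
        · exact hFmono N h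
      · rw [Finset.disjoint_left]
        intro x hx hx2
        obtain ⟨y, hy, rfl⟩ := Finset.mem_image.mp hx
        exact (Finset.mem_filter.mp hy).2 hx2
    have h3 : (G.filter fun x => x + ξ ∈ G).card + (G.filter fun x => ¬ (x + ξ ∈ G)).card = G.card :=
      Finset.card_filter_add_card_filter_not _
    have h1' : ((G.filter fun x => ¬ (x + ξ ∈ G)).card : ℝ) + G.card ≤ (F (N + 1)).card := by
      exact_mod_cast h1
    have h3' : ((G.filter fun x => x + ξ ∈ G).card : ℝ) +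
        (G.filter fun x => ¬ (x + ξ ∈ G)).card = G.card := by exact_mod_cast h3
    linarith
  -- averages
  set D : E d → ℂ := fun t => ∑ x ∈ G, ∑ y ∈ G, ex (x - y) (cx t) with hD
  have hDnn : ∀ t, D t = ((‖∑ x ∈ G, ex x (cx t)‖ ^ 2 : ℝ) : ℂ) := by
    intro t
    rw [← Complex.normSq_eq_norm_sq, ← Complex.mul_conj, map_sum, Finset.sum_mul_sum]
    refine Finset.sum_congr rfl fun x _ => Finset.sum_congr rfl fun y _ => ?_
    rw [conj_ex_cx, ← ex_add_left, sub_eq_add_neg]
  -- all frequencies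
  set Q : Finset (E d) := insert 0 (insert ξ₀ T) with hQ
  set P : Finset (E d) := Q.biUnion fun ξ => G.biUnion fun x => G.image fun y => x - y + ξ with hP
  obtain ⟨η, hη⟩ := exists_avg P
  have hlim : ∀ ξ ∈ Q, Tendsto (fun M => Av η M (fun t => D t * ex ξ (cx t))) atTop
      (𝓝 ((G.filter fun x => x + ξ ∈ G).card : ℂ)) := by
    intro ξ hξ
    have e1 : ∀ M, Av η M (fun t => D t * ex ξ (cx t)) =
        ∑ x ∈ G, ∑ y ∈ G, Av η M (fun t => ex (x - y + ξ) (cx t)) := by
      intro M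
      rw [← Finset.sum_congr rfl fun x _ => Av_sum η M G (fun y t => ex (x - y + ξ) (cx t)),
        ← Av_sum]
      congr 1
      ext t
      simp only [hD, Finset.sum_mul, ex_add_left]
    simp only [e1]
    have e2 : ((G.filter fun x => x + ξ ∈ G).card : ℂ) =
        ∑ x ∈ G, ∑ y ∈ G, (if x - y + ξ = 0 then 1 else 0) := by
      have : ∀ x ∈ G, ∑ y ∈ G, (if x - y + ξ = 0 then (1:ℂ) else 0) =
          if x + ξ ∈ G then 1 else 0 := by
        intro x _
        have h1 : ∀ y, (x - y + ξ = 0) ↔ (x + ξ = y) := by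
          intro y
          constructor
          · intro h
            have : x + ξ - y = 0 := by rw [← h]; abel
            exact sub_eq_zero.mp this
          · intro h; rw [← h]; abel
        simp only [h1]
        rw [Finset.sum_ite_eq]
      rw [Finset.sum_congr rfl this, Finset.sum_ite]
      simp
    rw [e2]
    refine tendsto_finsetSum _ fun x hx => tendsto_finsetSum _ fun y hy => hη _ ?_
    simp only [hP, Finset.mem_biUnion, Finset.mem_image]
    exact ⟨ξ, hξ, x, hx, y, hy, rfl⟩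
  -- suppose not
  by_contra hcon
  push Not at hcon
  set A : ℝ := 16 * (n+1) / min 1 (ε^2) with hA
  have hA0 : 0 < A := by positivity
  -- pointwise inequality
  have hpt : ∀ t : E d, 0 ≤ (D t * (1/2 - (1 - ex ξ₀ (cx t))
      + ((A:ℂ) / ((n:ℂ)+1)) * ∑ ξ ∈ T, (1 - ex ξ (cx t)))).re := by
    intro t
    rw [hDnn, Complex.re_ofReal_mul]
    apply mul_nonneg (by positivity)
    have e1 : (1/2 - (1 - ex ξ₀ (cx t)) + ((A:ℂ) / (n+1)) * ∑ ξ ∈ T, (1 - ex ξ (cx t))).re =
        1/2 - (1 - (ex ξ₀ (cx t)).re) + A/(n+1) * ∑ ξ ∈ T, (1 - (ex ξ (cx t)).re) := by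
      have : ((A:ℂ) / ((n:ℝ)+1)) = ((A/(n+1) : ℝ) : ℂ) := by push_cast; rfl
      rw [this, Complex.add_re, Complex.re_ofReal_mul, Complex.re_sum]
      simp
    rw [e1]
    have hnn : ∀ ξ ∈ T, 0 ≤ 1 - (ex ξ (cx t)).re := by
      intro ξ _
      have := (Complex.abs_re_le_norm (ex ξ (cx t))).trans (norm_ex_cx ξ t).le
      have := (abs_le.mp this).2
      linarith
    by_cases hall : ∀ ξ ∈ T, ‖ex ξ (cx t) - 1‖ < ε
    · have h1 := hcon t hall
      have h2 : 0 ≤ A/(n+1) * ∑ ξ ∈ T, (1 - (ex ξ (cx t)).re) :=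
        mul_nonneg (by positivity) (Finset.sum_nonneg hnn)
      linarith
    · push Not at hall
      obtain ⟨ξ, hξ, hξ2⟩ := hall
      have h1 : ε ^ 2 / 2 ≤ 1 - (ex ξ (cx t)).re := by
        have h2 : ‖ex ξ (cx t) - 1‖ ^ 2 = 2 * (1 - (ex ξ (cx t)).re) := by
          rw [← Complex.normSq_eq_norm_sq, Complex.normSq_sub]
          have : Complex.normSq (ex ξ (cx t)) = 1 := by
            rw [Complex.normSq_eq_norm_sq, norm_ex_cx]; norm_num
          rw [this]
          simp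
          ring
        have h3 : ε ^ 2 ≤ ‖ex ξ (cx t) - 1‖ ^ 2 := by gcongr
        linarith
      have h4 : ε ^ 2 / 2 ≤ ∑ ξ ∈ T, (1 - (ex ξ (cx t)).re) :=
        h1.trans (Finset.single_le_sum (f := fun ξ => 1 - (ex ξ (cx t)).re) hnn hξ)
      have h5 : 2 ≤ A/(n+1) * (ε^2/2) := by
        have h6 : A/(n+1) = 16 / min 1 (ε^2) := by rw [hA]; field_simp
        rw [h6, div_mul_eq_mul_div, le_div_iff₀ (by positivity)]
        have : min 1 (ε^2) ≤ ε^2 := min_le_right _ _
        have h7 : 0 < ε^2 := by positivity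
        linarith
      have h6 : A/(n+1) * (ε^2/2) ≤ A/(n+1) * ∑ ξ ∈ T, (1 - (ex ξ (cx t)).re) := by gcongr
      have h7 : 1 - (ex ξ₀ (cx t)).re ≤ 2 := by
        have := (Complex.abs_re_le_norm (ex ξ₀ (cx t))).trans (norm_ex_cx ξ₀ t).le
        have := (abs_le.mp this).1
        linarith
      linarith
  have hav : ∀ M, 0 ≤ (Av η M (fun t => D t * (1/2 - (1 - ex ξ₀ (cx t))
      + ((A:ℂ) / ((n:ℂ)+1)) * ∑ ξ ∈ T, (1 - ex ξ (cx t))))).re := fun M => Av_re_nonneg _ _ _ hpt
  have hzero : (G.filter fun x => x + ξ₀ ∈ G).card = 0 := by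
    rw [Finset.card_eq_zero, Finset.filter_eq_empty_iff]
    intro x hx hx2
    apply hξ₀
    have h1 := hFΓ N x hx
    have h2 := hFΓ N _ hx2
    have : ξ₀ = (x + ξ₀) - x := by abel
    rw [this]
    exact AddSubgroup.sub_mem _ h2 h1
  have hfull : (G.filter fun x => x + (0:E d) ∈ G).card = G.card := by
    congr 1
    rw [Finset.filter_eq_self]
    intro x hx; simpa using hx
  have hL : Tendsto (fun M => Av η M (fun t => D t * (1/2 - (1 - ex ξ₀ (cx t))
      + ((A:ℂ) / ((n:ℂ)+1)) * ∑ ξ ∈ T, (1 - ex ξ (cx t))))) atTop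
      (𝓝 (-(1/2) * (G.card : ℂ) + ((G.filter fun x => x + ξ₀ ∈ G).card : ℂ)
        + (A / (n+1)) * ∑ ξ ∈ T, ((G.card : ℂ) - ((G.filter fun x => x + ξ ∈ G).card : ℂ)))) := by
    have e1 : ∀ M, Av η M (fun t => D t * (1/2 - (1 - ex ξ₀ (cx t))
      + ((A:ℂ) / ((n:ℂ)+1)) * ∑ ξ ∈ T, (1 - ex ξ (cx t)))) =
        -(1/2) * Av η M (fun t => D t * ex 0 (cx t)) + Av η M (fun t => D t * ex ξ₀ (cx t))
        + (A / (n+1)) * ∑ ξ ∈ T, (Av η M (fun t => D t * ex 0 (cx t))
            + (-1) * Av η M (fun t => D t * ex ξ (cx t))) := by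
      intro M
      simp only [← Av_const_mul, ← Av_add, ← Av_sum]
      congr 1
      ext t
      simp only [ex_zero_left]
      have : ∑ x ∈ T, (D t * 1 + -1 * (D t * ex x (cx t))) = D t * ∑ x ∈ T, (1 - ex x (cx t)) := by
        rw [Finset.mul_sum]
        exact Finset.sum_congr rfl fun x _ => by ring
      rw [this]
      ring
    simp only [e1]
    have h0 : Tendsto (fun M => Av η M (fun t => D t * ex 0 (cx t))) atTop (𝓝 (G.card : ℂ)) := by
      have := hlim 0 (by simp [hQ])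
      rwa [hfull] at this
    refine ((h0.const_mul _).add (hlim ξ₀ (by simp [hQ]))).add (Tendsto.const_mul _ ?_)
    refine tendsto_finsetSum _ fun ξ hξ => ?_
    have := h0.add ((hlim ξ (by simp [hQ, hξ])).const_mul (-1))
    convert this using 2
    ring
  have hfin := ge_of_tendsto ((Complex.continuous_re.tendsto _).comp hL) (Eventually.of_forall hav)
  rw [hzero] at hfin
  have e3 : ((-(1/2) * (G.card : ℂ) + ((0:ℕ) : ℂ)
        + ((A:ℂ) / (n+1)) * ∑ ξ ∈ T, ((G.card : ℂ) - ((G.filter fun x => x + ξ ∈ G).card : ℂ)))).re =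
      -(1/2) * (G.card:ℝ) + A/(n+1) * ∑ ξ ∈ T, ((G.card:ℝ) - ((G.filter fun x => x + ξ ∈ G).card:ℝ)) := by
    have : (-(1/2) * (G.card : ℂ) + ((0:ℕ) : ℂ)
        + ((A:ℂ) / (n+1)) * ∑ ξ ∈ T, ((G.card : ℂ) - ((G.filter fun x => x + ξ ∈ G).card : ℂ))) =
      ((-(1/2) * (G.card:ℝ) + A/(n+1) * ∑ ξ ∈ T, ((G.card:ℝ) - ((G.filter fun x => x + ξ ∈ G).card:ℝ)) : ℝ) : ℂ) := by
      push_cast
      ring
    rw [this, Complex.ofReal_re]
  rw [e3] at hfin
  have h8 : ∑ ξ ∈ T, ((G.card:ℝ) - ((G.filter fun x => x + ξ ∈ G).card:ℝ)) ≤ n * (δ * G.card) := by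
    refine (Finset.sum_le_sum (g := fun _ => δ * (G.card:ℝ)) fun ξ hξ => ?_).trans (by simp [hn])
    have := hover ξ hξ
    linarith
  have h9 : A/(n+1) * (n * (δ * G.card)) ≤ 1/4 * G.card := by
    have e4 : A/(n+1) * (n * (δ * G.card)) = (1/4) * (n/(n+1)) * G.card := by
      rw [hA, hδ]
      have hmm : 0 < min 1 (ε^2) := by positivity
      generalize min 1 (ε^2) = mm at hmm
      generalize ((G.card : ℕ) : ℝ) = gg
      field_simp
      ring
    rw [e4]
    have : n/(n+1) ≤ 1 := by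
      rw [div_le_one (by positivity)]; linarith
    nlinarith
  have h10 : A/(n+1) * ∑ ξ ∈ T, ((G.card:ℝ) - ((G.filter fun x => x + ξ ∈ G).card:ℝ)) ≤
      A/(n+1) * (n * (δ * G.card)) := by gcongr
  linarith

end FQ
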