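import Pool.Agent.Helper17.FQGen
import Pool.Agent.Helper17.FQAlg

/-!
# The algebra of trigonometric polynomials with frequencies in a lattice
-/

open scoped BigOperators SchwartzMap FourierTransform RealInnerProductSpace ContDiff
open MeasureTheory Complex Filter Topology

noncomputable section

namespace FQ

variable {d n : ℕ}

/-- frequencies -/
abbrev Gm (n : ℕ) := Fin n → ℤ

/-- the group algebra -/
abbrev A (n : ℕ) := AddMonoidAlgebra ℂ (Gm n)

/-- FQ data together with a lattice of frequencies. -/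
structure FQG (d n : ℕ) where
  /-- data -/
  F : FQS d
  /-- frequency map -/
  L : Gm n →+ E d
  inj : Function.Injective L
  rng : ∀ ξ, F.c ξ ≠ 0 → ∃ q, L q = ξ
  /-- the standard lattice inside -/
  std : Gm d →+ Gm n
  hstd : ∀ m, L (std m) = zv m

lemma exists_FQG (F : FQS d) : ∃ (n : ℕ) (G : FQG d n), G.F = F := by
  classical
  obtain ⟨R, hR⟩ := F.fg
  set S : Set (E d) := {ξ | F.c ξ ≠ 0 ∧ ‖ξ‖ ≤ R} with hS
  have hSfin : S.Finite := F.fin R
  set T : Set (E d) := S ∪ Set.range (fun j : Fin d => zv (Pi.single j 1)) with hT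
  have hTfin : T.Finite := hSfin.union (Set.finite_range _)
  let G : Submodule ℤ (E d) := Submodule.span ℤ T
  have hGfin : Module.Finite ℤ G := by
    rw [Module.Finite.iff_fg]
    exact ⟨hTfin.toFinset, by simp [G]⟩
  have hE : IsAddTorsionFree (E d) := IsAddTorsionFree.of_module_rat (E d)
  have hGfree : Module.Free ℤ G := inferInstance
  let b := Module.finBasis ℤ G
  let n := Module.finrank ℤ G
  let e : Gm n ≃ₗ[ℤ] G := b.equivFun.symm
  let L : Gm n →+ E d := (G.subtype.comp e.toLinearMap).toAddMonoidHom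
  have hL : ∀ q, L q = (e q : E d) := fun q => rfl
  have hmem : ∀ m : Gm d, zv m ∈ G := by
    intro m
    have : zv m = ∑ j, m j • zv (Pi.single j 1 : Gm d) := by
      ext i
      rw [zv_apply, WithLp.ofLp_sum, Finset.sum_apply]
      simp only [PiLp.smul_apply, zv_apply]
      rw [Finset.sum_eq_single i]
      · simp
      · intro j _ hj
        rw [Pi.single_eq_of_ne (Ne.symm hj)]
        simp
      · simp
    rw [this]
    refine Submodule.sum_mem _ fun j _ => Submodule.smul_mem _ _ (Submodule.subset_span ?_)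
    exact Or.inr ⟨j, rfl⟩
  let zl : Gm d →ₗ[ℤ] G :=
    { toFun := fun m => ⟨zv m, hmem m⟩
      map_add' := fun a b => by ext i; simp
      map_smul' := fun a b => by ext i; simp }
  refine ⟨n, ⟨F, L, ?_, ?_, (e.symm.toLinearMap.comp zl).toAddMonoidHom, ?_⟩, rfl⟩
  · intro a b hab
    rw [hL, hL] at hab
    exact e.injective (Subtype.ext hab)
  · intro ξ hξ
    have h1 : ξ ∈ AddSubgroup.closure S := hR ξ hξ
    have h2 : AddSubgroup.closure S ≤ G.toAddSubgroup := by
      rw [AddSubgroup.closure_le]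
      intro x hx
      exact Submodule.subset_span (Or.inl hx)
    refine ⟨e.symm ⟨ξ, h2 h1⟩, ?_⟩
    rw [hL]; simp
  · intro m
    rw [hL]
    simp [zl]

namespace FQG

variable (G : FQG d n)

/-- coefficients on the lattice -/
def cc (q : Gm n) : ℂ := G.F.c (G.L q)

/-- evaluation at a complex point -/
def ev (z : Fin d → ℂ) : A n →ₐ[ℂ] ℂ :=
  AddMonoidAlgebra.lift ℂ ℂ (Gm n)
    { toFun := fun q => ex (G.L q.toAdd) z
      map_one' := by simp
      map_mul' := fun a b => by rw [toAdd_mul, map_add, ex_add_left] }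

@[simp] lemma ev_single (z : Fin d → ℂ) (q : Gm n) (a : ℂ) :
    G.ev z (.single q a) = a * ex (G.L q) z := by
  unfold ev
  rw [AddMonoidAlgebra.lift_single]
  simp

lemma ev_eq (z : Fin d → ℂ) (f : A n) :
    G.ev z f = ∑ q ∈ f.coeff.support, f.coeff q * ex (G.L q) z := by
  conv_lhs => rw [eq_sum_single f]
  rw [map_sum]
  exact Finset.sum_congr rfl fun q _ => G.ev_single z q _

lemma continuous_ev (f : A n) : Continuous fun z => G.ev z f := by
  simp only [G.ev_eq]
  fun_prop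

lemma norm_ev_le (f : A n) (t : E d) : ‖G.ev (cx t) f‖ ≤ ∑ q ∈ f.coeff.support, ‖f.coeff q‖ := by
  rw [G.ev_eq]
  refine (norm_sum_le _ _).trans (Finset.sum_le_sum fun q _ => ?_)
  rw [norm_mul, norm_ex_cx, mul_one]

/-- averages of a trigonometric polynomial -/
lemma exists_avg (s : Finset (A n)) : ∃ η : E d, ∀ f ∈ s,
    Tendsto (fun N : ℕ => Av η N (fun t => G.ev (cx t) f)) atTop (𝓝 (f.coeff 0)) := by
  classical
  obtain ⟨η, hη⟩ := FQ.exists_avg (s.biUnion fun f => f.coeff.support.image G.L)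
  refine ⟨η, fun f hf => ?_⟩
  simp only [G.ev_eq]
  have e1 : ∀ N, Av η N (fun t => ∑ q ∈ f.coeff.support, f.coeff q * ex (G.L q) (cx t)) =
      ∑ q ∈ f.coeff.support, f.coeff q * Av η N (fun t => ex (G.L q) (cx t)) := by
    intro N
    rw [Av_sum]
    exact Finset.sum_congr rfl fun q _ => Av_const_mul _ _ _ _
  simp only [e1]
  have e2 : f.coeff 0 = ∑ q ∈ f.coeff.support, f.coeff q * (if G.L q = 0 then 1 else 0) := by
    have h1 : ∀ q, G.L q = 0 ↔ q = 0 := fun q =>
      ⟨fun h => G.inj (by rw [h, map_zero]), fun h => by rw [h, map_zero]⟩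
    simp only [h1, mul_ite, mul_one, mul_zero]
    rw [Finset.sum_ite_eq']
    split_ifs with h
    · rfl
    · simpa using h
  rw [e2]
  refine tendsto_finsetSum _ fun q hq => Tendsto.const_mul _ (hη _ ?_)
  rw [Finset.mem_biUnion]
  exact ⟨f, hf, Finset.mem_image_of_mem _ hq⟩

/-- coefficients are bounded by the sup norm -/
lemma norm_coeff_le (f : A n) {B : ℝ} (hB : ∀ t : E d, ‖G.ev (cx t) f‖ ≤ B) (q : Gm n) :
    ‖f.coeff q‖ ≤ B := by
  set g : A n := .single (-q) 1 * f with hg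
  have h0 : g.coeff 0 = f.coeff q := by
    rw [hg, AddMonoidAlgebra.coeff_single_mul_apply]
    simp
  obtain ⟨η, hη⟩ := G.exists_avg {g}
  have h1 := hη g (by simp)
  rw [h0] at h1
  refine le_of_tendsto h1.norm (Eventually.of_forall fun N => norm_Av_le _ _ _ fun t => ?_)
  rw [hg, map_mul, norm_mul, G.ev_single, one_mul, norm_ex_cx, one_mul]
  exact hB t

/-- faithfulness -/
lemma ext_ev {f g : A n} (h : ∀ t : E d, G.ev (cx t) f = G.ev (cx t) g) : f = g := by
  rw [← sub_eq_zero]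
  ext q
  have := G.norm_coeff_le (f - g) (B := 0) (fun t => by rw [map_sub, h t, sub_self, norm_zero]) q
  simpa using this

/-- a nonnegative trigonometric polynomial which is positive somewhere has positive mean -/
lemma coeff_zero_pos (f : A n) (hf : ∀ t : E d, ∃ a : ℝ, 0 ≤ a ∧ G.ev (cx t) f = (a : ℂ))
    (hne : ∃ t : E d, G.ev (cx t) f ≠ 0) : 0 < (f.coeff 0).re := by
  -- square
  set B : ℝ := 1 + ∑ q ∈ f.coeff.support, ‖f.coeff q‖ with hB
  have hB0 : 0 < B := by
    have : 0 ≤ ∑ q ∈ f.coeff.support, ‖f.coeff q‖ := Finset.sum_nonneg fun _ _ => norm_nonneg _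
    linarith
  have hfB : ∀ t : E d, ‖G.ev (cx t) f‖ ≤ B := fun t => (G.norm_ev_le f t).trans (by linarith)
  -- a nonzero coefficient
  obtain ⟨q, hq⟩ : ∃ q, f.coeff q ≠ 0 := by
    by_contra hcon
    push Not at hcon
    obtain ⟨t, ht⟩ := hne
    apply ht
    have : f = 0 := by ext q; simpa using hcon q
    rw [this, map_zero]
  -- compare the averages of `f` and of `|f - a e_q|^2`-type expressions
  obtain ⟨η, hη⟩ := G.exists_avg {f, .single (-q) 1 * f}
  have h1 := hη f (by simp)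
  have h2 := hη (.single (-q) 1 * f) (by simp)
  have h0 : (AddMonoidAlgebra.single (-q) (1:ℂ) * f).coeff 0 = f.coeff q := by
    rw [AddMonoidAlgebra.coeff_single_mul_apply]
    simp
  rw [h0] at h2
  -- |Av(e_{-q} f)| ≤ Av |f| = Av f
  have h3 : ∀ N, ‖Av η N (fun t => G.ev (cx t) (.single (-q) 1 * f))‖ ≤
      (Av η N (fun t => G.ev (cx t) f)).re := by
    intro N
    unfold Av
    rw [norm_mul, norm_inv, Complex.norm_natCast]
    have e1 : ((N : ℂ)⁻¹ * ∑ m ∈ Finset.range N, G.ev (cx ((m:ℝ) • η)) f).re =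
        (N : ℝ)⁻¹ * ∑ m ∈ Finset.range N, (G.ev (cx ((m:ℝ) • η)) f).re := by
      rw [← Complex.re_sum, ← Complex.re_ofReal_mul]
      push_cast
      rfl
    rw [e1]
    refine mul_le_mul_of_nonneg_left ?_ (by positivity)
    refine (norm_sum_le _ _).trans (Finset.sum_le_sum fun m _ => ?_)
    simp only
    rw [map_mul, norm_mul, G.ev_single, one_mul, norm_ex_cx, one_mul]
    obtain ⟨a, ha0, ha⟩ := hf ((m:ℝ) • η)
    rw [ha, Complex.ofReal_re, Complex.norm_real, Real.norm_eq_abs, abs_of_nonneg ha0]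
  have h4 := le_of_tendsto_of_tendsto h2.norm ((Complex.continuous_re.tendsto _).comp h1)
    (Eventually.of_forall h3)
  exact (norm_pos_iff.mpr hq).trans_le h4

/-! ### The Fourier quasicrystal formula on the lattice -/

lemma fin (R : ℝ) : {q : Gm n | G.cc q ≠ 0 ∧ ‖G.L q‖ ≤ R}.Finite :=
  Set.Finite.of_injOn (f := G.L) (t := {ξ | G.F.c ξ ≠ 0 ∧ ‖ξ‖ ≤ R})
    (fun q hq => ⟨hq.1, hq.2⟩) G.inj.injOn (G.F.fin R)

lemma norm_lt_of_TF {h : E d → ℂ} {η : E d} {r : ℝ} (H : TF h η r) {ξ : E d} (hξ : h ξ ≠ 0) :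
    ‖ξ‖ ≤ r + ‖η‖ := by
  by_contra hcon
  push Not at hcon
  apply hξ
  apply H.supp
  have : ‖ξ‖ ≤ ‖ξ - η‖ + ‖η‖ := by
    calc ‖ξ‖ = ‖(ξ - η) + η‖ := by congr 1; abel
      _ ≤ _ := norm_add_le _ _
  linarith

lemma el_fin {h : E d → ℂ} {η : E d} {r : ℝ} (H : TF h η r) :
    {q : Gm n | G.cc q * h (G.L q) ≠ 0}.Finite :=
  (G.fin (r + ‖η‖)).subset fun q hq =>
    ⟨left_ne_zero_of_mul hq, norm_lt_of_TF H (right_ne_zero_of_mul hq)⟩

/-- the trigonometric polynomial attached to a test function -/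
def el (h : E d → ℂ) : A n := by
  classical
  exact if hf : {q : Gm n | G.cc q * h (G.L q) ≠ 0}.Finite then
    .ofCoeff (Finsupp.ofSupportFinite (fun q => G.cc q * h (G.L q)) hf) else 0

lemma coeff_el {h : E d → ℂ} {η : E d} {r : ℝ} (H : TF h η r) (q : Gm n) :
    (G.el h).coeff q = G.cc q * h (G.L q) := by
  unfold el
  rw [dif_pos (G.el_fin H)]
  rfl

lemma suppIn_el {h : E d → ℂ} {η : E d} {r : ℝ} (H : TF h η r) :
    SuppIn (G.el h) {q | G.cc q ≠ 0 ∧ ‖G.L q - η‖ < r} := by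
  intro q hq
  rw [G.coeff_el H] at hq
  refine ⟨left_ne_zero_of_mul hq, ?_⟩
  by_contra hcon
  push Not at hcon
  exact right_ne_zero_of_mul hq (H.supp _ hcon)

/-- The basic formula -/
lemma fq_el {h : E d → ℂ} {η : E d} {r : ℝ} (H : TF h η r) (t : Fin d → ℂ) :
    ∑' x : G.F.L, psi h (cx x - t) = G.ev t (G.el h) := by
  rw [G.F.fq h η r H, G.ev_eq]
  have h1 : ∑' ξ, G.F.c ξ * h ξ * ex ξ t = ∑' q : Gm n, G.F.c (G.L q) * h (G.L q) * ex (G.L q) t := by
    refine (G.inj.tsum_eq (f := fun ξ => G.F.c ξ * h ξ * ex ξ t) ?_).symm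
    intro ξ hξ
    obtain ⟨q, hq⟩ := G.rng ξ (left_ne_zero_of_mul (left_ne_zero_of_mul hξ))
    exact ⟨q, hq⟩
  rw [h1]
  rw [tsum_eq_sum (s := (G.el h).coeff.support)]
  · refine Finset.sum_congr rfl fun q _ => ?_
    rw [G.coeff_el H]
    rfl
  · intro q hq
    have : (G.el h).coeff q = 0 := by simpa using hq
    rw [G.coeff_el H] at this
    change G.F.c (G.L q) * h (G.L q) * ex (G.L q) t = 0
    have h2 : G.F.c (G.L q) * h (G.L q) = 0 := this
    rw [h2, zero_mul]

/-- twisted element -/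
def elf (f : A n) (h : E d → ℂ) : A n :=
  ∑ q ∈ f.coeff.support, .single q (f.coeff q) * G.el (fun ξ => h (ξ + G.L q))

/-- convolved coefficients -/
def Cc (f : A n) (r : Gm n) : ℂ := ∑ q ∈ f.coeff.support, f.coeff q * G.cc (r - q)

lemma coeff_elf (f : A n) {h : E d → ℂ} {η : E d} {r : ℝ} (H : TF h η r) (p : Gm n) :
    (G.elf f h).coeff p = G.Cc f p * h (G.L p) := by
  unfold elf Cc
  rw [AddMonoidAlgebra.coeff_sum, Finset.sum_mul]
  rw [Finsupp.finsetSum_apply]
  refine Finset.sum_congr rfl fun q _ => ?_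
  rw [AddMonoidAlgebra.coeff_single_mul_apply, G.coeff_el (H.shift (G.L q))]
  have e : -q + p = p - q := by abel
  rw [e, map_sub, sub_add_cancel]
  ring

lemma fq_elf (f : A n) {h : E d → ℂ} {η : E d} {r : ℝ} (H : TF h η r) (t : Fin d → ℂ) :
    ∑' x : G.F.L, G.ev (cx x) f * psi h (cx x - t) = G.ev t (G.elf f h) := by
  unfold elf
  rw [map_sum]
  have e1 : ∀ x : E d, G.ev (cx x) f * psi h (cx x - t) =
      ∑ q ∈ f.coeff.support, f.coeff q * ex (G.L q) t *
        psi (fun ξ => h (ξ + G.L q)) (cx x - t) := by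
    intro x
    rw [G.ev_eq, Finset.sum_mul]
    refine Finset.sum_congr rfl fun q _ => ?_
    rw [psi_shift, ex_sub_right]
    have := ex_ne_zero (G.L q) t
    field_simp
  simp only [e1]
  rw [Summable.tsum_finsetSum]
  · refine Finset.sum_congr rfl fun q _ => ?_
    rw [tsum_mul_left, map_mul, G.ev_single, G.fq_el (H.shift (G.L q))]
  · intro q _
    exact (G.F.summ _ _ _ (H.shift (G.L q)) t).mul_left _

/-- finiteness for convolved coefficients -/
lemma Cc_fin (f : A n) (R : ℝ) : {r : Gm n | G.Cc f r ≠ 0 ∧ ‖G.L r‖ ≤ R}.Finite := by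
  classical
  have h1 : {r : Gm n | G.Cc f r ≠ 0 ∧ ‖G.L r‖ ≤ R} ⊆
      ⋃ q ∈ f.coeff.support, (fun p => p + q) '' {p : Gm n | G.cc p ≠ 0 ∧ ‖G.L p‖ ≤ R + ‖G.L q‖} := by
    rintro r ⟨hr, hrR⟩
    obtain ⟨q, hq, hqr⟩ := Finset.exists_ne_zero_of_sum_ne_zero hr
    simp only [Set.mem_iUnion, Set.mem_image]
    refine ⟨q, hq, r - q, ⟨right_ne_zero_of_mul hqr, ?_⟩, by abel⟩
    rw [map_sub]
    exact (norm_sub_le _ _).trans (by linarith)
  refine Set.Finite.subset ?_ h1
  exact Set.Finite.biUnion (Finset.finite_toSet _) fun q _ => (G.fin _).image _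

/-! ### The null ideal -/

/-- The ideal of trigonometric polynomials vanishing on the point set. -/
def I : Ideal (A n) := ⨅ x ∈ G.F.L, RingHom.ker (G.ev (cx x)).toRingHom

lemma mem_I (f : A n) : f ∈ G.I ↔ ∀ x ∈ G.F.L, G.ev (cx x) f = 0 := by
  simp only [I, Submodule.mem_iInf, RingHom.mem_ker]
  rfl

lemma I_radical : G.I.IsRadical := by
  intro f hf
  obtain ⟨k, hk⟩ := hf
  rw [mem_I] at hk ⊢
  intro x hx
  have := hk x hx
  rw [map_pow] at this
  have hk0 : k ≠ 0 := by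
    rintro rfl
    rw [pow_zero] at this
    exact one_ne_zero this
  exact (pow_eq_zero_iff hk0).mp this

/-- vanishing on the point set kills the convolved coefficients -/
lemma Cc_eq_zero {f : A n} (hf : f ∈ G.I) (r : Gm n) : G.Cc f r = 0 := by
  obtain ⟨a, ha, -, ⟨α, hα, hα2⟩, -⟩ := exists_pos_test d one_pos
  have H := ha.shift (-(G.L r))
  have h1 : G.elf f (fun ξ => a (ξ + -(G.L r))) = 0 := by
    apply G.ext_ev
    intro t
    rw [← G.fq_elf f H, map_zero]
    have : ∀ x : G.F.L, G.ev (cx x) f * psi (fun ξ => a (ξ + -(G.L r))) (cx x - cx t) = 0 := by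
      intro x
      rw [(G.mem_I f).mp hf x x.2, zero_mul]
    simp only [this, tsum_zero]
  have h2 := G.coeff_elf f H r
  rw [h1, add_neg_cancel, hα2] at h2
  have h3 : G.Cc f r * (α : ℂ) = 0 := by rw [← h2]; simp
  exact (mul_eq_zero.mp h3).resolve_right (by exact_mod_cast hα.ne')

/-- **Null criterion** -/
lemma null_criterion : ∃ R : ℝ, 0 < R ∧ ∀ f : A n, (∀ r, ‖G.L r‖ < R → G.Cc f r = 0) → f ∈ G.I := by
  classical
  obtain ⟨K, hK⟩ := G.F.cell_bound
  obtain ⟨R, hR, huniq⟩ := uniq d (KK d K)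
  refine ⟨R, hR, fun f hf => ?_⟩
  have hK0 := hK 0
  obtain ⟨y, b, lab, hinj, hcl, hy, hb, hb0⟩ := labelling K (G.F.tr 0) hK0
  have htr : G.F.tr 0 = G.F.L := by ext x; simp [FQS.tr]
  set b' : KK d K × (Fin d → ℤ) → ℂ := fun p => b p * G.ev (cx (y p.1 p.2)) f with hb'
  have hb1 : ∀ p, ‖b p‖ ≤ 1 := by
    intro p
    by_cases hp : p ∈ Set.range lab
    · obtain ⟨x, rfl⟩ := hp
      rw [hb x]; simp
    · rw [hb0 p hp]; simp
  have hbdd : Bdd b' := by
    refine ⟨∑ q ∈ f.coeff.support, ‖f.coeff q‖, fun p => ?_⟩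
    rw [hb', norm_mul]
    calc ‖b p‖ * ‖G.ev (cx (y p.1 p.2)) f‖ ≤ 1 * ∑ q ∈ f.coeff.support, ‖f.coeff q‖ := by
          apply mul_le_mul (hb1 p) (G.norm_ev_le f _) (norm_nonneg _) zero_le_one
      _ = _ := one_mul _
  have hgap : Gap (fun p : KK d K × (Fin d → ℤ) => y p.1 p.2) b' R := by
    intro h H
    have h1 : ∀ p, b' p * psi h (cx (y p.1 p.2)) =
        b p * (fun x : E d => G.ev (cx x) f * psi h (cx x)) (y p.1 p.2) := by
      intro p; simp only [hb']; ring
    rw [tsum_congr h1, label_tsum hinj hy hb hb0 (fun x : E d => G.ev (cx x) f * psi h (cx x))]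
    refine (G.F.tsum_tr 0 (fun x : E d => G.ev (cx x) f * psi h (cx x))).trans ?_
    have h2 : (fun x : G.F.L => (fun x : E d => G.ev (cx x) f * psi h (cx x)) ((x : E d) - 0)) =
        fun x : G.F.L => G.ev (cx x) f * psi h (cx x - 0) := by
      ext x; simp
    rw [h2, G.fq_elf f H]
    have h3 : G.elf f h = 0 := by
      ext p
      rw [G.coeff_elf f H]
      by_cases hp : ‖G.L p‖ < R
      · rw [hf p hp, zero_mul]; simp
      · push Not at hp
        rw [H.supp _ (by simpa using hp), mul_zero]; simp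
    rw [h3, map_zero]
  have hz := huniq y off hcl b' hbdd hgap
  rw [mem_I]
  intro x hx
  have h4 := hz x
  -- only one label
  have hx' : x ∈ G.F.tr 0 := by rw [htr]; exact hx
  rw [tsum_eq_single (lab ⟨x, hx'⟩)] at h4
  · rw [if_pos (hy ⟨x, hx'⟩)] at h4
    simp only [hb', hb, one_mul, hy] at h4
    exact h4
  · intro p hp
    split_ifs with h5
    · by_cases hpr : p ∈ Set.range lab
      · obtain ⟨x', rfl⟩ := hpr
        rw [hy x'] at h5
        exact absurd (by rw [← Subtype.ext h5 (a1 := x') (a2 := ⟨x, hx'⟩)]) hp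
      · simp [hb', hb0 p hpr]
    · rfl

/-! ### Conjugation -/

/-- conjugation -/
def st (f : A n) : A n := ∑ q ∈ f.coeff.support, .single (-q) ((starRingEnd ℂ) (f.coeff q))

lemma ev_st (f : A n) (t : E d) : G.ev (cx t) (st f) = (starRingEnd ℂ) (G.ev (cx t) f) := by
  unfold st
  rw [map_sum, G.ev_eq, map_sum]
  refine Finset.sum_congr rfl fun q _ => ?_
  rw [G.ev_single, map_mul, conj_ex_cx, map_neg]

lemma st_mem_I {f : A n} (hf : f ∈ G.I) : st f ∈ G.I := by
  rw [mem_I] at hf ⊢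
  intro x hx
  rw [G.ev_st, hf x hx, map_zero]

end FQG

end FQ
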