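import Pool.Agent.Helper17.FQBasic

/-!
# Operations on test functions
-/

open scoped BigOperators SchwartzMap FourierTransform RealInnerProductSpace ContDiff Convolution
open MeasureTheory Complex

noncomputable section

namespace FQ

variable {d : ℕ}

/-! ### translation -/

lemma TF.shift {h : E d → ℂ} {η : E d} {r : ℝ} (H : TF h η r) (q : E d) :
    TF (fun ξ => h (ξ + q)) (η - q) r := by
  refine ⟨H.smooth.comp (contDiff_id.add contDiff_const), fun ξ hξ => H.supp _ ?_⟩
  have : ξ + q - η = ξ - (η - q) := by abel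
  rwa [this]

lemma psi_shift (h : E d → ℂ) (q : E d) (z : Fin d → ℂ) :
    psi (fun ξ => h (ξ + q)) z = ex q z * psi h z := by
  unfold psi
  rw [← integral_const_mul]
  rw [← integral_add_right_eq_self (μ := volume) (fun ξ : E d => ex q z * (h ξ * ex (-ξ) z)) q]
  congr 1
  ext ξ
  have : ex (-ξ) z = ex q z * ex (-(ξ + q)) z := by
    rw [← ex_add_left]; congr 1; abel
  rw [this]
  ring

/-! ### convolution -/

/-- convolution -/
def cv (μ : Measure (E d)) (f h : E d → ℂ) : E d → ℂ :=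
  f ⋆[ContinuousLinearMap.mul ℝ ℂ, μ] h

lemma cv_apply (μ : Measure (E d)) (f h : E d → ℂ) (ξ : E d) :
    cv μ f h ξ = ∫ s, f s * h (ξ - s) ∂μ := by
  simp [cv, convolution]

lemma TF.cv {h : E d → ℂ} {η : E d} {r : ℝ} (H : TF h η r) {μ : Measure (E d)} {f : E d → ℂ}
    (hf : Integrable f μ) {η' : E d} {r' : ℝ} (hsupp : ∀ s, r' < ‖s - η'‖ → f s = 0) :
    TF (cv μ f h) (η' + η) (r' + r) := by
  constructor
  · exact H.hasCompactSupport.contDiff_convolution_right _ hf.locallyIntegrable H.smooth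
  · intro ξ hξ
    rw [cv_apply]
    have : (fun s => f s * h (ξ - s)) = fun _ => 0 := by
      ext s
      by_cases hs : r' < ‖s - η'‖
      · rw [hsupp s hs, zero_mul]
      · rw [H.supp, mul_zero]
        have h1 : ‖ξ - (η' + η)‖ ≤ ‖ξ - s - η‖ + ‖s - η'‖ := by
          calc ‖ξ - (η' + η)‖ = ‖(ξ - s - η) + (s - η')‖ := by congr 1; abel
            _ ≤ _ := norm_add_le _ _
        push Not at hs
        linarith
    rw [this, integral_zero]

lemma psi_cv {h : E d → ℂ} {η : E d} {r : ℝ} (H : TF h η r) {μ : Measure (E d)} [SFinite μ]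
    {f : E d → ℂ} (z : Fin d → ℂ) (hf : Integrable (fun s => f s * ex (-s) z) μ) :
    psi (cv μ f h) z = (∫ s, f s * ex (-s) z ∂μ) * psi h z := by
  have h1 := integral_convolution (μ := volume) (ν := μ) (L := ContinuousLinearMap.mul ℝ ℂ)
    hf (H.integrable_mul_ex z)
  unfold psi
  rw [ContinuousLinearMap.mul_apply'] at h1
  rw [← h1]
  congr 1
  ext ξ
  rw [cv_apply, convolution, ← integral_mul_const]
  congr 1
  ext s
  rw [ContinuousLinearMap.mul_apply']
  have : ex (-ξ) z = ex (-s) z * ex (-(ξ - s)) z := by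
    rw [← ex_add_left]; congr 1; abel
  rw [this]
  ring

/-- product of transforms -/
lemma TF.conv {h h' : E d → ℂ} {η η' : E d} {r r' : ℝ} (H : TF h η r) (H' : TF h' η' r') :
    TF (FQ.cv volume h' h) (η' + η) (r' + r) :=
  H.cv H'.integrable fun s hs => H'.supp s hs.le

lemma psi_conv {h h' : E d → ℂ} {η η' : E d} {r r' : ℝ} (H : TF h η r) (H' : TF h' η' r')
    (z : Fin d → ℂ) : psi (cv volume h' h) z = psi h' z * psi h z :=
  psi_cv H z (H'.integrable_mul_ex z)

/-! ### averaging along a segment -/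

/-- the function `κ_q(z) = ∫_0^1 e_q(t z) dt` -/
def kap (q : E d) (z : Fin d → ℂ) : ℂ := ∫ t in Set.Icc (0:ℝ) 1, ex (t • q) z

/-- the segment measure -/
def segM (q : E d) : Measure (E d) :=
  (volume.restrict (Set.Icc (0:ℝ) 1)).map (fun t : ℝ => -(t • q))

instance (q : E d) : IsFiniteMeasure (segM q) := by
  unfold segM; infer_instance

lemma integral_segM (q : E d) (f : E d → ℂ) (hf : Continuous f) :
    ∫ s, f s ∂(segM q) = ∫ t in Set.Icc (0:ℝ) 1, f (-(t • q)) := by
  unfold segM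
  rw [integral_map]
  · exact (by fun_prop : Continuous fun t : ℝ => -(t • q)).aemeasurable
  · exact hf.aestronglyMeasurable

lemma integrable_segM (q : E d) (f : E d → ℂ) (hf : Continuous f) :
    Integrable f (segM q) := by
  unfold segM
  rw [integrable_map_measure]
  · have : Continuous (f ∘ fun t : ℝ => -(t • q)) := hf.comp (by fun_prop)
    exact this.continuousOn.integrableOn_compact isCompact_Icc
  · exact hf.aestronglyMeasurable
  · exact (by fun_prop : Continuous fun t : ℝ => -(t • q)).aemeasurable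

/-- averaging -/
def avg (q : E d) (h : E d → ℂ) : E d → ℂ := cv (segM q) (fun _ => 1) h

lemma avg_apply (q : E d) {h : E d → ℂ} (hh : Continuous h) (ξ : E d) :
    avg q h ξ = ∫ t in Set.Icc (0:ℝ) 1, h (ξ + t • q) := by
  unfold avg
  rw [cv_apply, integral_segM q _ (by fun_prop)]
  congr 1
  ext t
  simp

lemma TF.avg {h : E d → ℂ} {η : E d} {r : ℝ} (H : TF h η r) (q : E d) :
    TF (FQ.avg q h) η (r + ‖q‖) := by
  constructor
  · exact H.hasCompactSupport.contDiff_convolution_right _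
      (integrable_const (1:ℂ)).locallyIntegrable H.smooth
  · intro ξ hξ
    rw [avg_apply q H.continuous]
    have : Set.EqOn (fun t : ℝ => h (ξ + t • q)) (fun _ => 0) (Set.Icc 0 1) := by
      intro t ht
      apply H.supp
      have h1 : ‖ξ - η‖ ≤ ‖ξ + t • q - η‖ + ‖t • q‖ := by
        calc ‖ξ - η‖ = ‖(ξ + t • q - η) - t • q‖ := by congr 1; abel
          _ ≤ _ := norm_sub_le _ _
      have h2 : ‖t • q‖ ≤ ‖q‖ := by
        rw [norm_smul, Real.norm_eq_abs, abs_of_nonneg ht.1]
        exact mul_le_of_le_one_left (norm_nonneg _) ht.2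
      linarith
    rw [setIntegral_congr_fun measurableSet_Icc this]
    simp

lemma psi_avg {h : E d → ℂ} {η : E d} {r : ℝ} (H : TF h η r) (q : E d) (z : Fin d → ℂ) :
    psi (avg q h) z = kap q z * psi h z := by
  unfold avg
  rw [psi_cv H z (integrable_segM q _ (by fun_prop)), integral_segM q _ (by fun_prop)]
  unfold kap
  simp

lemma kap_zero_right (q : E d) : kap q (0 : Fin d → ℂ) = 1 := by
  simp [kap]

lemma norm_kap_cx_le (q : E d) (x : E d) : ‖kap q (cx x)‖ ≤ 1 := by
  unfold kap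
  refine (norm_setIntegral_le_of_norm_le_const (C := 1) (by simp) fun t _ => ?_).trans ?_
  · simp
  · simp

/-- the fundamental relation `e_q(z) - 1 = 2 pi i <q,z> κ_q(z)`. -/
lemma ex_sub_one (q : E d) (z : Fin d → ℂ) :
    ex q z - 1 = 2 * Real.pi * I * pr q z * kap q z := by
  unfold kap
  rw [← integral_const_mul, integral_Icc_eq_integral_Ioc,
    ← intervalIntegral.integral_of_le zero_le_one]
  have h1 : ∀ t ∈ Set.uIcc (0:ℝ) 1, HasDerivAt (fun t : ℝ => ex (t • q) z)
      (2 * Real.pi * I * pr q z * ex (t • q) z) t := by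
    intro t _
    unfold ex
    simp only [pr_smul_left]
    have h2 : HasDerivAt (fun t : ℝ => 2 * (Real.pi : ℂ) * I * ((t : ℂ) * pr q z))
        (2 * Real.pi * I * (1 * pr q z)) t :=
      ((Complex.ofRealCLM.hasDerivAt (x := t)).mul_const (pr q z)).const_mul _
    have h3 := h2.cexp
    convert h3 using 1
    ring
  rw [intervalIntegral.integral_eq_sub_of_hasDerivAt h1]
  · simp
  · apply Continuous.intervalIntegrable
    fun_prop

/-! ### scaling -/

lemma TF.scale {h : E d → ℂ} {r : ℝ} (H : TF h 0 r) {s : ℝ} (hs : 0 < s) :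
    TF (fun ξ => ((s ^ d : ℝ) : ℂ)⁻¹ * h (s⁻¹ • ξ)) 0 (s * r) := by
  refine ⟨contDiff_const.mul (H.smooth.comp (contDiff_const_smul _)), fun ξ hξ => ?_⟩
  rw [H.supp, mul_zero]
  rw [sub_zero] at hξ ⊢
  rw [norm_smul, norm_inv, Real.norm_eq_abs, abs_of_pos hs, inv_mul_eq_div, le_div_iff₀ hs,
    mul_comm]
  exact hξ

lemma psi_scale (h : E d → ℂ) {s : ℝ} (hs : 0 < s) (z : Fin d → ℂ) :
    psi (fun ξ => ((s ^ d : ℝ) : ℂ)⁻¹ * h (s⁻¹ • ξ)) z = psi h ((s : ℂ) • z) := by
  unfold psi
  have h1 := MeasureTheory.Measure.integral_comp_inv_smul (μ := (volume : Measure (E d)))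
    (fun ξ : E d => h ξ * ex (-ξ) ((s : ℂ) • z)) s
  have h2 : (fun ξ : E d => h (s⁻¹ • ξ) * ex (-(s⁻¹ • ξ)) ((s : ℂ) • z))
      = fun ξ => h (s⁻¹ • ξ) * ex (-ξ) z := by
    ext ξ
    congr 1
    unfold ex
    rw [pr_smul_right, ← smul_neg, pr_smul_left]
    congr 2
    rw [← mul_assoc, Complex.ofReal_inv, mul_inv_cancel₀ (by exact_mod_cast hs.ne'), one_mul]
  rw [h2] at h1
  simp only [mul_assoc]
  rw [integral_const_mul, h1]
  rw [finrank_euclideanSpace, Fintype.card_fin, abs_of_pos (by positivity), Complex.real_smul]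
  rw [← mul_assoc, inv_mul_cancel₀, one_mul]
  exact_mod_cast (by positivity : (s ^ d : ℝ) ≠ 0)

/-! ### linear operations -/

lemma TF.const_mul {h : E d → ℂ} {η : E d} {r : ℝ} (H : TF h η r) (a : ℂ) :
    TF (fun ξ => a * h ξ) η r :=
  ⟨contDiff_const.mul H.smooth, fun ξ hξ => by rw [H.supp ξ hξ, mul_zero]⟩

lemma psi_const_mul (h : E d → ℂ) (a : ℂ) (z : Fin d → ℂ) :
    psi (fun ξ => a * h ξ) z = a * psi h z := by
  unfold psi
  rw [← integral_const_mul]
  congr 1; ext ξ; ring

lemma TF.add {h h' : E d → ℂ} {η : E d} {r : ℝ} (H : TF h η r) (H' : TF h' η r) :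
    TF (fun ξ => h ξ + h' ξ) η r :=
  ⟨H.smooth.add H'.smooth, fun ξ hξ => by rw [H.supp ξ hξ, H'.supp ξ hξ, add_zero]⟩

lemma psi_add {h h' : E d → ℂ} {η η' : E d} {r r' : ℝ} (H : TF h η r) (H' : TF h' η' r')
    (z : Fin d → ℂ) : psi (fun ξ => h ξ + h' ξ) z = psi h z + psi h' z := by
  unfold psi
  rw [← integral_add (H.integrable_mul_ex z) (H'.integrable_mul_ex z)]
  congr 1; ext ξ; ring

/-! ### bump functions -/

/-- Existence of a normalised even nonnegative bump with its main properties. -/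
lemma exists_bump (d : ℕ) {r : ℝ} (hr : 0 < r) :
    ∃ b : E d → ℂ, TF b 0 r ∧ (∃ β : E d → ℝ, (∀ ξ, b ξ = (β ξ : ℂ)) ∧ (∀ ξ, 0 ≤ β ξ) ∧
        (∀ ξ, β (-ξ) = β ξ)) ∧
      psi b 0 = 1 ∧ (∀ x : E d, ∃ a : ℝ, psi b (cx x) = (a : ℂ) ∧ |a| ≤ 1 ∧ (x ≠ 0 → a < 1)) ∧
      (∀ x : E d, ‖x‖ * r ≤ 1 / 8 → ∃ a : ℝ, psi b (cx x) = (a : ℂ) ∧ 1 / 2 ≤ a) := by
  let f : ContDiffBump (0 : E d) := ⟨r / 2, r, by positivity, by linarith⟩
  set β : E d → ℝ := fun ξ => f.normed volume ξ with hβ
  have hβc : Continuous β := f.continuous_normed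
  have hβi : Integrable β := f.integrable_normed
  have hβ1 : ∫ ξ, β ξ = 1 := f.integral_normed
  have hβ0 : ∀ ξ, 0 ≤ β ξ := fun ξ => f.nonneg_normed ξ
  have hβneg : ∀ ξ, β (-ξ) = β ξ := fun ξ => f.normed_neg ξ
  have hβs : ∀ ξ, r ≤ ‖ξ‖ → β ξ = 0 := by
    intro ξ hξ
    have : ξ ∉ Function.support (f.normed volume) := by
      rw [f.support_normed_eq]
      simp only [Metric.mem_ball, dist_zero_right, not_lt]
      exact hξ
    simpa using this
  set b : E d → ℂ := fun ξ => (β ξ : ℂ) with hb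
  have hTF : TF b 0 r := by
    refine ⟨Complex.ofRealCLM.contDiff.comp f.contDiff_normed, fun ξ hξ => ?_⟩
    rw [sub_zero] at hξ
    simp [hb, hβs ξ hξ]
  -- real formula
  have hreal : ∀ x : E d, psi b (cx x) = ((∫ ξ, β ξ * Real.cos (2 * Real.pi * ⟪ξ, x⟫) : ℝ) : ℂ) := by
    intro x
    have e1 : psi b (cx x) = ∫ ξ : E d, b ξ * ex ξ (cx x) := by
      unfold psi
      rw [← integral_neg_eq_self (fun ξ : E d => b ξ * ex ξ (cx x))]
      congr 1; ext ξ
      simp only [hb, hβneg]
    have e2 : psi b (cx x) = ∫ ξ : E d, (b ξ * ex (-ξ) (cx x) + b ξ * ex ξ (cx x)) / 2 := by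
      rw [integral_div, integral_add (hTF.integrable_mul_ex _) ?_]
      · rw [← e1]
        change _ = (psi b (cx x) + psi b (cx x)) / 2
        ring
      · apply Continuous.integrable_of_hasCompactSupport
        · exact hTF.continuous.mul (continuous_ex_left _)
        · exact hTF.hasCompactSupport.mul_right
    rw [e2]
    refine Eq.trans ?_ (integral_ofReal (f := fun ξ : E d => β ξ * Real.cos (2 * Real.pi * ⟪ξ, x⟫)))
    congr 1
    ext ξ
    rw [ex_cx, ex_cx, inner_neg_left, RCLike.ofReal_mul]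
    change _ = ((β ξ : ℂ)) * ((Real.cos (2 * Real.pi * ⟪ξ, x⟫) : ℝ) : ℂ)
    rw [Complex.ofReal_cos]
    simp only [hb, Complex.cos]
    push_cast
    ring_nf
  have hint : ∀ x : E d, Integrable (fun ξ => β ξ * Real.cos (2 * Real.pi * ⟪ξ, x⟫)) := by
    intro x
    have : (fun ξ => β ξ * Real.cos (2 * Real.pi * ⟪ξ, x⟫)) =
      fun ξ => Real.cos (2 * Real.pi * ⟪ξ, x⟫) * β ξ := by ext; ring
    rw [this]
    refine hβi.bdd_mul (c := 1) ?_ (Filter.Eventually.of_forall fun ξ => ?_)
    · exact (by fun_prop : Continuous fun ξ : E d =>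
        Real.cos (2 * Real.pi * ⟪ξ, x⟫)).aestronglyMeasurable
    · rw [Real.norm_eq_abs]; exact Real.abs_cos_le_one _
  refine ⟨b, hTF, ⟨β, fun _ => rfl, hβ0, hβneg⟩, ?_, fun x => ⟨_, hreal x, ?_, ?_⟩, fun x hx =>
    ⟨_, hreal x, ?_⟩⟩
  · have := hreal 0
    rw [cx_zero] at this
    rw [this]
    simp [hβ1]
  · refine abs_le.mpr ⟨?_, ?_⟩
    · rw [← hβ1, ← integral_neg]
      refine integral_mono hβi.neg (hint x) fun ξ => ?_
      have := Real.neg_one_le_cos (2 * Real.pi * ⟪ξ, x⟫)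
      have h0 := hβ0 ξ
      simp only
      nlinarith
    · rw [← hβ1]
      refine integral_mono (hint x) hβi fun ξ => ?_
      have := Real.cos_le_one (2 * Real.pi * ⟪ξ, x⟫)
      have h0 := hβ0 ξ
      simp only
      nlinarith
  · intro hx
    have h1 : 0 < ∫ ξ, (β ξ - β ξ * Real.cos (2 * Real.pi * ⟪ξ, x⟫)) := by
      rw [integral_pos_iff_support_of_nonneg]
      · -- open nonempty set
        have hcont : Continuous fun ξ : E d => β ξ - β ξ * Real.cos (2 * Real.pi * ⟪ξ, x⟫) := by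
          fun_prop
        have hopen := hcont.isOpen_support
        refine hopen.measure_pos (μ := (volume : Measure (E d))) ?_
        -- a point in the support
        set c : ℝ := min (r / 2 / ‖x‖) (1 / (4 * ‖x‖ ^ 2)) with hc
        have hxn : 0 < ‖x‖ := norm_pos_iff.mpr hx
        have hc0 : 0 < c := by positivity
        refine ⟨c • x, ?_⟩
        simp only [Function.mem_support]
        have hb1 : 0 < β (c • x) := by
          have : c • x ∈ Function.support (f.normed volume) := by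
            rw [f.support_normed_eq]
            simp only [Metric.mem_ball, dist_zero_right]
            rw [norm_smul, Real.norm_eq_abs, abs_of_pos hc0]
            have : c * ‖x‖ ≤ r / 2 / ‖x‖ * ‖x‖ := by
              gcongr; exact min_le_left _ _
            rw [div_mul_cancel₀ _ hxn.ne'] at this
            have h3 : f.rOut = r := rfl
            rw [h3]; linarith
          have h2 : β (c • x) ≠ 0 := by simpa using this
          exact lt_of_le_of_ne (hβ0 _) (Ne.symm h2)
        have hcos : Real.cos (2 * Real.pi * ⟪c • x, x⟫) < 1 := by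
          rw [inner_smul_left, real_inner_self_eq_norm_sq]
          simp only [conj_trivial]
          have h4 : c * ‖x‖ ^ 2 ≤ 1 / 4 := by
            have : c * ‖x‖ ^ 2 ≤ 1 / (4 * ‖x‖ ^ 2) * ‖x‖ ^ 2 := by
              gcongr; exact min_le_right _ _
            refine this.trans (le_of_eq ?_)
            field_simp
          have h5 : 0 < 2 * Real.pi * (c * ‖x‖ ^ 2) := by positivity
          have h6 : 2 * Real.pi * (c * ‖x‖ ^ 2) ≤ Real.pi / 2 := by
            have := Real.pi_pos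
            nlinarith
          rw [← Real.cos_zero]
          exact Real.cos_lt_cos_of_nonneg_of_le_pi_div_two le_rfl h6 h5
        have : 0 < β (c • x) * (1 - Real.cos (2 * Real.pi * ⟪c • x, x⟫)) :=
          mul_pos hb1 (by linarith)
        intro h7
        rw [mul_sub, mul_one] at this
        linarith
      · intro ξ
        have := Real.cos_le_one (2 * Real.pi * ⟪ξ, x⟫)
        have h0 := hβ0 ξ
        simp only [Pi.zero_apply]
        nlinarith
      · exact hβi.sub (hint x)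
    rw [integral_sub hβi (hint x), hβ1] at h1
    linarith
  · have h1 : (1:ℝ) / 2 = ∫ ξ, β ξ * (1 / 2) := by
      rw [integral_mul_const, hβ1]; norm_num
    rw [h1]
    refine integral_mono (hβi.mul_const _) (hint x) fun ξ => ?_
    simp only
    by_cases hξ : r ≤ ‖ξ‖
    · rw [hβs ξ hξ]; simp
    · push Not at hξ
      refine mul_le_mul_of_nonneg_left ?_ (hβ0 ξ)
      have h2 : |⟪ξ, x⟫| ≤ 1 / 8 := by
        refine (abs_real_inner_le_norm ξ x).trans ?_
        have := norm_nonneg x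
        nlinarith
      have h3 : |2 * Real.pi * ⟪ξ, x⟫| ≤ 1 := by
        rw [abs_mul, abs_of_pos (by positivity : (0:ℝ) < 2 * Real.pi)]
        have := Real.pi_le_four
        have h4 := abs_nonneg (⟪ξ, x⟫ : ℝ)
        nlinarith [Real.pi_pos]
      have h5 := Real.one_sub_sq_div_two_le_cos (x := 2 * Real.pi * ⟪ξ, x⟫)
      have h6 : (2 * Real.pi * ⟪ξ, x⟫) ^ 2 ≤ 1 := by
        rw [← sq_abs]; exact pow_le_one₀ (abs_nonneg _) h3
      linarith

/-- A test function with nonnegative transform, bounded below near zero. -/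
lemma exists_pos_test (d : ℕ) {r : ℝ} (hr : 0 < r) :
    ∃ h : E d → ℂ, TF h 0 r ∧ psi h 0 = 1 ∧ (∃ a : ℝ, 0 < a ∧ h 0 = (a : ℂ)) ∧
      (∀ x : E d, ∃ a : ℝ, 0 ≤ a ∧ a ≤ 1 ∧ psi h (cx x) = (a : ℂ)) ∧
      (∀ x : E d, ‖x‖ * r ≤ 1 / 4 → ∃ a : ℝ, psi h (cx x) = (a : ℂ) ∧ 1 / 4 ≤ a) := by
  obtain ⟨b, hb, ⟨β, hβ, hβ0, hβneg⟩, hb1, hb2, hb3⟩ := exists_bump d (r := r / 2) (by positivity)
  refine ⟨cv volume b b, ?_, ?_, ?_, ?_, ?_⟩
  · have := hb.conv hb
    simpa using this
  · rw [psi_conv hb hb, hb1, one_mul]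
  · rw [cv_apply]
    have hneg : ∃ ξ, b ξ ≠ 0 := by
      by_contra hcon
      push Not at hcon
      have : psi b 0 = 0 := by
        unfold psi; simp [hcon]
      rw [this] at hb1
      exact zero_ne_one hb1
    have hβc : Continuous β := by
      have : β = fun ξ => (b ξ).re := by ext ξ; simp [hβ ξ]
      rw [this]
      exact Complex.continuous_re.comp hb.continuous
    have hcs : HasCompactSupport fun ξ => β ξ * β ξ := by
      have h1 : (fun ξ => β ξ * β ξ) = fun ξ => (b ξ).re * (b ξ).re := by ext ξ; simp [hβ ξ]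
      rw [h1]
      apply HasCompactSupport.mul_right
      exact hb.hasCompactSupport.comp_left (g := Complex.re) rfl
    refine ⟨∫ ξ, β ξ * β ξ, ?_, ?_⟩
    · obtain ⟨ξ₀, hξ₀⟩ := hneg
      have h2 : (0 : ℝ) < β ξ₀ * β ξ₀ := by
        have : β ξ₀ ≠ 0 := by
          intro h3; apply hξ₀; rw [hβ, h3]; simp
        exact mul_self_pos.mpr this
      exact Continuous.integral_pos_of_hasCompactSupport_nonneg_nonzero
        (hβc.mul hβc) hcs (fun ξ => mul_self_nonneg _) h2.ne'
    · refine Eq.trans ?_ (integral_ofReal (f := fun ξ : E d => β ξ * β ξ))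
      congr 1
      ext s
      rw [hβ, hβ, zero_sub, hβneg]
      exact (RCLike.ofReal_mul _ _).symm
  · intro x
    obtain ⟨a, ha, ha1, -⟩ := hb2 x
    refine ⟨a * a, mul_self_nonneg a, ?_, ?_⟩
    · rw [abs_le] at ha1; nlinarith
    · rw [psi_conv hb hb, ha]; push_cast; ring
  · intro x hx
    obtain ⟨a, ha, ha1⟩ := hb3 x (by linarith)
    refine ⟨a * a, ?_, by nlinarith⟩
    rw [psi_conv hb hb, ha]; push_cast; ring

end FQ
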