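import Pool.Agent.Helper17.FQLat

/-!
# The uniqueness theorem for families with a large spectral gap
-/

open scoped BigOperators SchwartzMap FourierTransform RealInnerProductSpace ContDiff
open MeasureTheory Complex

noncomputable section

namespace FQ

variable {d : ℕ}

/-- interpolation kernel for one class -/
lemma interp (d : ℕ) : ∃ r : ℝ, 0 < r ∧ ∃ ρ : E d → ℂ, TF ρ 0 r ∧
    ∀ (z : (Fin d → ℤ) → E d), (∀ m m', m ≠ m' → ‖m - m'‖ / 2 ≤ ‖z m - z m'‖) →
    ∀ m₁ : Fin d → ℤ, ∃ a : (Fin d → ℤ) → ℂ, (∃ B, ∀ m, ‖a m‖ ≤ B) ∧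
      ∀ m, ∑' m', a m' * psi ρ (cx (z m - z m')) = if m = m₁ then 1 else 0 := by
  obtain ⟨b, hb, -, hb1, -, -⟩ := exists_bump d (r := 1) one_pos
  obtain ⟨C, hC, hdec⟩ := hb.decay (2 * d + 1)
  set s : ℝ := max 1 (C * 4 * 2 ^ (2 * d) * Clat d) with hs
  have hs1 : 1 ≤ s := le_max_left _ _
  have hs0 : 0 < s := by linarith
  refine ⟨s * 1, by linarith, fun ξ => ((s ^ d : ℝ) : ℂ)⁻¹ * b (s⁻¹ • ξ), hb.scale hs0, ?_⟩
  intro z hz m₁
  have hpsi : ∀ x : E d, psi (fun ξ => ((s ^ d : ℝ) : ℂ)⁻¹ * b (s⁻¹ • ξ)) (cx x)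
      = psi b (cx (s • x)) := by
    intro x
    rw [psi_scale b hs0, cx_smul]
  simp only [hpsi]
  have hbd : ∀ m m', m ≠ m' → ‖psi b (cx (s • (z m - z m')))‖ ≤
      C * (2 / s) * 2 ^ (2 * d) * ((1 + ‖m - m'‖) ^ (2 * d))⁻¹ := by
    intro m m' hm
    refine (hdec _).trans ?_
    have h1 := hz m m' hm
    have h2 : 1 ≤ ‖m - m'‖ := by
      have h3 : m - m' ≠ 0 := sub_ne_zero.mpr hm
      obtain ⟨i, hi⟩ := Function.ne_iff.mp h3
      have h4 := norm_le_pi_norm (m - m') i
      refine le_trans ?_ h4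
      rw [Int.norm_eq_abs]
      exact_mod_cast Int.one_le_abs hi
    set t := ‖m - m'‖ with ht
    have h5 : ‖s • (z m - z m')‖ = s * ‖z m - z m'‖ := by
      rw [norm_smul, Real.norm_eq_abs, abs_of_pos hs0]
    rw [h5]
    have h6 : s / 2 ≤ 1 + s * ‖z m - z m'‖ := by nlinarith
    have h7 : (1 + t) / 2 ≤ 1 + s * ‖z m - z m'‖ := by nlinarith [norm_nonneg (z m - z m')]
    have h8 : s / 2 * ((1 + t) / 2) ^ (2 * d) ≤ (1 + s * ‖z m - z m'‖) ^ (2 * d + 1) := by
      rw [pow_succ, mul_comm]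
      apply mul_le_mul _ h6 (by positivity) (by positivity)
      exact pow_le_pow_left₀ (by positivity) h7 _
    calc C * ((1 + s * ‖z m - z m'‖) ^ (2 * d + 1))⁻¹
        ≤ C * (s / 2 * ((1 + t) / 2) ^ (2 * d))⁻¹ := by
          gcongr
      _ = C * (2 / s) * 2 ^ (2 * d) * ((1 + t) ^ (2 * d))⁻¹ := by
          rw [div_pow]
          field_simp
  set κ : (Fin d → ℤ) → (Fin d → ℤ) → ℂ := fun m m' =>
    if m' = m then 0 else psi b (cx (s • (z m - z m'))) with hκ
  have hκb : ∀ m m', ‖κ m m'‖ ≤ C * (2 / s) * 2 ^ (2 * d) * ((1 + ‖m - m'‖) ^ (2 * d))⁻¹ := by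
    intro m m'
    simp only [hκ]
    split_ifs with h
    · rw [norm_zero]; positivity
    · exact hbd m m' (Ne.symm h)
  have hsumm : ∀ m : Fin d → ℤ, Summable (fun m' : Fin d → ℤ =>
      C * (2 / s) * 2 ^ (2 * d) * ((1 + ‖m - m'‖) ^ (2 * d))⁻¹) := by
    intro m
    apply Summable.mul_left
    exact (Equiv.subLeft m).summable_iff.mpr (summable_lat d)
  have hκs : ∀ m, Summable (fun m' => ‖κ m m'‖) := fun m =>
    Summable.of_nonneg_of_le (fun _ => norm_nonneg _) (hκb m) (hsumm m)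
  have hκt : ∀ m, ∑' m', ‖κ m m'‖ ≤ 1 / 2 := by
    intro m
    refine ((hκs m).tsum_le_tsum (hκb m) (hsumm m)).trans ?_
    rw [tsum_mul_left]
    have e1 : ∑' m' : Fin d → ℤ, ((1 + ‖m - m'‖) ^ (2 * d))⁻¹ = Clat d :=
      (Equiv.subLeft m).tsum_eq (fun m : Fin d → ℤ => ((1 + ‖m‖) ^ (2 * d))⁻¹)
    rw [e1]
    have h2 : C * 4 * 2 ^ (2 * d) * Clat d ≤ s := le_max_right _ _
    have h3 : C * (2 / s) * 2 ^ (2 * d) * Clat d = (C * 4 * 2 ^ (2 * d) * Clat d) / s * (1/2) := by
      field_simp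
      ring
    rw [h3]
    have h4 : (C * 4 * 2 ^ (2 * d) * Clat d) / s ≤ 1 := (div_le_one hs0).mpr h2
    linarith
  obtain ⟨a, ⟨B, hB⟩, ha⟩ := neumann κ hκs hκt (fun m => if m = m₁ then 1 else 0) (by
    intro m; split_ifs <;> simp)
  refine ⟨a, ⟨B, hB⟩, fun m => ?_⟩
  rw [← ha m]
  have hB0 : 0 ≤ B := (norm_nonneg _).trans (hB m)
  have hs2 : Summable (fun m' => κ m m' * a m') := by
    apply Summable.of_norm
    refine Summable.of_nonneg_of_le (fun _ => norm_nonneg _) (fun m' => ?_) ((hκs m).mul_right B)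
    rw [norm_mul]
    exact mul_le_mul_of_nonneg_left (hB m') (norm_nonneg _)
  have hs3 : Summable (fun m' => if m' = m then a m else 0) :=
    (hasSum_ite_eq m (a m)).summable
  have e2 : (fun m' => a m' * psi b (cx (s • (z m - z m')))) =
      fun m' => (if m' = m then a m else 0) + κ m m' * a m' := by
    ext m'
    simp only [hκ]
    split_ifs with h
    · rw [h, sub_self, smul_zero, cx_zero, hb1]; ring
    · ring
  rw [e2, hs3.tsum_add hs2, tsum_ite_eq]

/-! ### Multipliers -/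

section mult

variable {ι : Type*}

/-- spectral gap -/
def Gap (y : ι → E d) (b : ι → ℂ) (R : ℝ) : Prop :=
  ∀ h : E d → ℂ, TF h 0 R → ∑' i, b i * psi h (cx (y i)) = 0

/-- bounded family -/
def Bdd (b : ι → ℂ) : Prop := ∃ B, ∀ i, ‖b i‖ ≤ B

/-- uniform local finiteness -/
def ULF (y : ι → E d) : Prop :=
  ∃ C, ∀ x : E d, Summable (fun i => wt (y i - x)) ∧ ∑' i, wt (y i - x) ≤ C

lemma TF.decay' {h : E d → ℂ} {η : E d} {r : ℝ} (H : TF h η r) :
    ∃ C : ℝ, 0 < C ∧ ∀ x : E d, ‖psi h (cx x)‖ ≤ C * wt x := by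
  obtain ⟨C, hC, h⟩ := H.decay (2 * d)
  exact ⟨C, hC, h⟩

lemma ULF.summable_psi {y : ι → E d} (hy : ULF y) {h : E d → ℂ} {η : E d} {r : ℝ}
    (H : TF h η r) (x : E d) : Summable (fun i => ‖psi h (cx (y i - x))‖) := by
  obtain ⟨C, hC⟩ := hy
  obtain ⟨C', hC', h'⟩ := H.decay'
  exact Summable.of_nonneg_of_le (fun _ => norm_nonneg _) (fun i => h' _)
    ((hC x).1.mul_left C')

/-- A multiplier reducing the gap by at most `ρ`. -/
def Mul (y : ι → E d) (G : E d → ℂ) (ρ : ℝ) : Prop :=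
  ∀ b : ι → ℂ, Bdd b → ∀ R, Gap y b R →
    Bdd (fun i => b i * G (y i)) ∧ Gap y (fun i => b i * G (y i)) (R - ρ)

lemma Mul.comp {y : ι → E d} {G G' : E d → ℂ} {ρ ρ' : ℝ} (H : Mul y G ρ) (H' : Mul y G' ρ') :
    Mul y (fun x => G x * G' x) (ρ + ρ') := by
  intro b hb R hR
  obtain ⟨h1, h2⟩ := H b hb R hR
  obtain ⟨h3, h4⟩ := H' _ h1 _ h2
  simp only [mul_assoc] at h3 h4
  refine ⟨h3, ?_⟩
  rw [← sub_sub]
  exact h4

lemma Mul.one (y : ι → E d) : Mul y (fun _ => 1) 0 := by
  intro b hb R hR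
  simpa using ⟨hb, hR⟩

lemma Mul.mono {y : ι → E d} {G : E d → ℂ} {ρ ρ' : ℝ} (H : Mul y G ρ) (h : ρ ≤ ρ') :
    Mul y G ρ' := by
  intro b hb R hR
  obtain ⟨h1, h2⟩ := H b hb R hR
  exact ⟨h1, fun f hf => h2 f (hf.mono (by linarith))⟩

lemma mul_class {y : ι → E d} (hy : ULF y) {z : (Fin d → ℤ) → E d} {o : E d}
    (hz : IsCl z o (3/2)) {ρ : E d → ℂ} {r : ℝ} (hρ : TF ρ 0 r) (a : (Fin d → ℤ) → ℂ)
    (ha : ∃ B, ∀ m, ‖a m‖ ≤ B) :
    Mul y (fun x => ∑' m, a m * psi ρ (cx (x - z m))) r := by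
  obtain ⟨A, hA⟩ := ha
  have hA0 : 0 ≤ A := (norm_nonneg _).trans (hA 0)
  obtain ⟨C', hC', hdec⟩ := hρ.decay'
  set D := 2 ^ (2 * d) * Clat d with hD
  have hD0 : 0 ≤ D := by have := Clat_pos d; positivity
  have hwt : ∀ x y : E d, wt (x - y) = wt (y - x) := by
    intro x y; unfold wt; rw [norm_sub_rev]
  have hterm : ∀ x : E d, ∀ m, ‖a m * psi ρ (cx (x - z m))‖ ≤ A * C' * wt (z m - x) := by
    intro x m
    rw [norm_mul, hwt (z m) x, mul_assoc]
    exact mul_le_mul (hA m) (hdec _) (norm_nonneg _) hA0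
  have hsum : ∀ x : E d, Summable (fun m => ‖a m * psi ρ (cx (x - z m))‖) := fun x =>
    Summable.of_nonneg_of_le (fun _ => norm_nonneg _) (hterm x) ((cl_sum hz x).1.mul_left _)
  have htot : ∀ x : E d, ∑' m, ‖a m * psi ρ (cx (x - z m))‖ ≤ A * C' * D := by
    intro x
    refine ((hsum x).tsum_le_tsum (hterm x) ((cl_sum hz x).1.mul_left _)).trans ?_
    rw [tsum_mul_left]
    exact mul_le_mul_of_nonneg_left (cl_sum hz x).2 (by positivity)
  intro b hb R hR
  obtain ⟨B, hB⟩ := hb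
  refine ⟨⟨B * (A * C' * D), fun i => ?_⟩, ?_⟩
  · rw [norm_mul]
    have hB0 : 0 ≤ B := (norm_nonneg _).trans (hB i)
    exact mul_le_mul (hB i) ((norm_tsum_le_tsum_norm (hsum _)).trans (htot _)) (norm_nonneg _) hB0
  · intro h hh
    -- the auxiliary test functions
    have haux : ∀ m, ∑' i, b i * (a m * psi ρ (cx (y i - z m)) * psi h (cx (y i))) = 0 := by
      intro m
      have h1 : TF (cv volume (fun ξ => ρ ξ * ex ξ (cx (z m))) h) 0 R := by
        have := hh.conv (hρ.mul_ex (cx (z m)))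
        rw [add_zero] at this
        exact this.mono (by linarith)
      have h2 := hR _ (h1.const_mul (a m))
      rw [← h2]
      congr 1; ext i
      rw [psi_const_mul, psi_conv hh (hρ.mul_ex (cx (z m)))]
      have : psi (fun ξ => ρ ξ * ex ξ (cx (z m))) (cx (y i)) = psi ρ (cx (y i - z m)) := by
        rw [cx_sub, psi_cx_sub, psi_cx]
      rw [this]
      ring
    have e1 : ∀ i, b i * (∑' m, a m * psi ρ (cx (y i - z m))) * psi h (cx (y i)) =
        ∑' m, b i * (a m * psi ρ (cx (y i - z m)) * psi h (cx (y i))) := by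
      intro i
      rw [tsum_mul_left, tsum_mul_right]
      ring
    simp only [e1]
    have hcomm : Summable (Function.uncurry fun (i : ι) (m : Fin d → ℤ) =>
        b i * (a m * psi ρ (cx (y i - z m)) * psi h (cx (y i)))) → ∑' (i : ι) (m : Fin d → ℤ),
        b i * (a m * psi ρ (cx (y i - z m)) * psi h (cx (y i))) = 0 := by
      intro hs
      rw [← Summable.tsum_comm hs]
      simp only [haux, tsum_zero]
    apply hcomm
    · -- summability
      apply Summable.of_norm
      have hpsi := hy.summable_psi hh 0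
      simp only [sub_zero] at hpsi
      rw [← summable_abs_iff]
      simp only [abs_norm]
      rcases isEmpty_or_nonempty ι with hι | ⟨⟨i₀⟩⟩
      · exact summable_empty
      have hB0 : 0 ≤ B := (norm_nonneg _).trans (hB i₀)
      rw [summable_prod_of_nonneg (fun _ => norm_nonneg _)]
      simp only [Function.uncurry]
      constructor
      · intro i
        have := (hsum (y i)).mul_left (‖b i‖ * ‖psi h (cx (y i))‖)
        refine this.congr fun m => ?_
        simp only [norm_mul]; ring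
      · have hs4 : Summable (fun i => B * (A * C' * D) * ‖psi h (cx (y i))‖) := hpsi.mul_left _
        refine Summable.of_nonneg_of_le (fun i => tsum_nonneg fun _ => norm_nonneg _) (fun i => ?_) hs4
        have e3 : ∀ m, ‖b i * (a m * psi ρ (cx (y i - z m)) * psi h (cx (y i)))‖ =
            ‖b i‖ * ‖psi h (cx (y i))‖ * ‖a m * psi ρ (cx (y i - z m))‖ := by
          intro m; simp only [norm_mul]; ring
        simp only [e3]
        rw [tsum_mul_left]
        calc ‖b i‖ * ‖psi h (cx (y i))‖ * ∑' m, ‖a m * psi ρ (cx (y i - z m))‖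
            ≤ B * ‖psi h (cx (y i))‖ * (A * C' * D) := by
              apply mul_le_mul _ (htot _) (tsum_nonneg fun _ => norm_nonneg _) (by positivity)
              exact mul_le_mul_of_nonneg_right (hB i) (norm_nonneg _)
          _ = B * (A * C' * D) * ‖psi h (cx (y i))‖ := by ring

lemma mul_exp {y : ι → E d} (hy : ULF y) (s : E d) (c : ℂ) :
    Mul y (fun x => ex s (cx x) - c) ‖s‖ := by
  intro b hb R hR
  obtain ⟨B, hB⟩ := hb
  refine ⟨⟨B * (1 + ‖c‖), fun i => ?_⟩, ?_⟩
  · rw [norm_mul]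
    have hB0 : 0 ≤ B := (norm_nonneg _).trans (hB i)
    refine mul_le_mul (hB i) ((norm_sub_le _ _).trans ?_) (norm_nonneg _) hB0
    simp
  · intro h hh
    have h1 : TF (fun ξ => h (ξ + s)) 0 R := by
      have := hh.shift s
      apply this.mono'
      simp
    have h2 : TF h 0 R := hh.mono (by have := norm_nonneg s; linarith)
    have e1 := hR _ h1
    have e2 := hR _ h2
    simp only [psi_shift] at e1
    have hs := hy.summable_psi h2 0
    simp only [sub_zero] at hs
    have s1 : Summable fun i => b i * (ex s (cx (y i)) * psi h (cx (y i))) := by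
      apply Summable.of_norm
      refine Summable.of_nonneg_of_le (fun _ => norm_nonneg _) (fun i => ?_) (hs.mul_left B)
      rw [norm_mul, norm_mul, norm_ex_cx, one_mul]
      exact mul_le_mul_of_nonneg_right (hB i) (norm_nonneg _)
    have s2 : Summable fun i => b i * psi h (cx (y i)) := by
      apply Summable.of_norm
      refine Summable.of_nonneg_of_le (fun _ => norm_nonneg _) (fun i => ?_) (hs.mul_left B)
      rw [norm_mul]
      exact mul_le_mul_of_nonneg_right (hB i) (norm_nonneg _)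
    have e3 : (fun i => b i * (ex s (cx (y i)) - c) * psi h (cx (y i))) =
        fun i => b i * (ex s (cx (y i)) * psi h (cx (y i))) - c * (b i * psi h (cx (y i))) := by
      ext i; ring
    rw [e3, s1.tsum_sub (s2.mul_left c), tsum_mul_left, e1, e2]
    ring

end mult

/-- separate two points by a small exponential -/
lemma exists_sep {x y : E d} (h : x ≠ y) : ∃ s : E d, ‖s‖ ≤ 1 ∧ ex s (cx x) ≠ ex s (cx y) := by
  have hxy : 0 < ‖x - y‖ := norm_pos_iff.mpr (sub_ne_zero.mpr h)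
  set c : ℝ := min (1 / ‖x - y‖) (1 / (2 * ‖x - y‖ ^ 2)) with hc
  have hc0 : 0 < c := by positivity
  refine ⟨c • (x - y), ?_, ?_⟩
  · rw [norm_smul, Real.norm_eq_abs, abs_of_pos hc0]
    have : c * ‖x - y‖ ≤ 1 / ‖x - y‖ * ‖x - y‖ := by gcongr; exact min_le_left _ _
    rwa [one_div, inv_mul_cancel₀ hxy.ne'] at this
  · intro heq
    have h1 : ex (c • (x - y)) (cx (x - y)) = 1 := by
      rw [cx_sub, ex_sub_right, heq, mul_inv_cancel₀ (ex_ne_zero _ _)]
    rw [ex_cx, inner_smul_left, real_inner_self_eq_norm_sq, Complex.exp_eq_one_iff] at h1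
    obtain ⟨n, hn⟩ := h1
    have h2 : (c * ‖x - y‖ ^ 2 : ℝ) = n := by
      have h3 : ((2 * Real.pi * (c * ‖x - y‖ ^ 2) : ℝ) : ℂ) = 2 * Real.pi * n := by
        have hI : (I : ℂ) ≠ 0 := Complex.I_ne_zero
        apply mul_right_cancel₀ hI
        simp only [conj_trivial] at hn
        rw [hn]; ring
      have h4 : 2 * Real.pi * (c * ‖x - y‖ ^ 2) = 2 * Real.pi * n := by exact_mod_cast h3
      exact mul_left_cancel₀ (by positivity) h4
    have h5 : 0 < c * ‖x - y‖ ^ 2 := by positivity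
    have h6 : c * ‖x - y‖ ^ 2 ≤ 1 / 2 := by
      have : c * ‖x - y‖ ^ 2 ≤ 1 / (2 * ‖x - y‖ ^ 2) * ‖x - y‖ ^ 2 := by
        gcongr; exact min_le_right _ _
      refine this.trans (le_of_eq ?_)
      field_simp
    rw [h2] at h5 h6
    have h7 : (0:ℤ) < n := by exact_mod_cast h5
    have h8 : (1:ℤ) ≤ n := h7
    have h9 : (1:ℝ) ≤ n := by exact_mod_cast h8
    linarith

/-- **Uniqueness theorem** for indexed families. -/
theorem uniq (d : ℕ) (κ : Type) [Fintype κ] : ∃ R : ℝ, 0 < R ∧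
    ∀ (y : κ → (Fin d → ℤ) → E d) (o : κ → E d), (∀ j, IsCl (y j) (o j) 1) →
    ∀ b : κ × (Fin d → ℤ) → ℂ, Bdd b → Gap (fun p : κ × (Fin d → ℤ) => y p.1 p.2) b R →
    ∀ x : E d, ∑' p : κ × (Fin d → ℤ), (if y p.1 p.2 = x then b p else 0) = 0 := by
  classical
  obtain ⟨r, hr, ρ, hρ, hint⟩ := interp d
  refine ⟨Fintype.card κ * (r + 1) + 1, by positivity, ?_⟩
  intro y o hy b hb hgap x
  set Y : κ × (Fin d → ℤ) → E d := fun p => y p.1 p.2 with hY
  have hy' : ∀ j, IsCl (y j) (o j) (3/2) := fun j m i => (hy j m i).trans (by norm_num)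
  have hULF : ULF Y := by
    refine ⟨Fintype.card κ * (2 ^ (2 * d) * Clat d), fun x => ?_⟩
    have h1 : Summable fun p : κ × (Fin d → ℤ) => wt (y p.1 p.2 - x) := by
      rw [summable_prod_of_nonneg (fun _ => wt_nonneg _)]
      exact ⟨fun j => (cl_sum (hy' j) x).1, (hasSum_fintype _).summable⟩
    refine ⟨h1, ?_⟩
    rw [h1.tsum_prod, tsum_fintype]
    calc ∑ j, ∑' m, wt (y j m - x) ≤ ∑ _j : κ, (2 ^ (2 * d) * Clat d) :=
          Finset.sum_le_sum fun j _ => (cl_sum (hy' j) x).2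
      _ = _ := by simp
  -- killing one class
  have hkill : ∀ j, ∃ G : E d → ℂ, Mul Y G (r + 1) ∧ G x ≠ 0 ∧ ∀ m, y j m ≠ x → G (y j m) = 0 := by
    intro j
    set m₁ : Fin d → ℤ := fun i => round ((x i - o j i) / 3) with hm₁
    have hm₁x : ∀ i, |x i - (3 * (m₁ i : ℝ) + o j i)| ≤ 3 / 2 := by
      intro i
      have h := abs_sub_round ((x i - o j i) / 3)
      have h2 : x i - (3 * (m₁ i : ℝ) + o j i) =
          3 * ((x i - o j i) / 3 - round ((x i - o j i) / 3)) := by
        simp only [hm₁]; ring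
      rw [h2, abs_mul]
      norm_num
      linarith
    set z : (Fin d → ℤ) → E d := fun m => if m = m₁ then x else y j m with hz
    have hzcl : IsCl z (o j) (3/2) := by
      intro m i
      simp only [hz]
      split_ifs with h
      · rw [h]; exact hm₁x i
      · exact hy' j m i
    have hzc : ∀ m i, |z m i - (3 * (m i : ℝ) + o j i)| ≤ if m = m₁ then 3/2 else 1 := by
      intro m i
      simp only [hz]
      split_ifs with h
      · rw [h]; exact hm₁x i
      · exact hy j m i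
    have hsep : ∀ m m', m ≠ m' → ‖m - m'‖ / 2 ≤ ‖z m - z m'‖ := by
      intro m m' hmm
      have hne : m - m' ≠ 0 := sub_ne_zero.mpr hmm
      -- a coordinate realizing the norm
      have h1 : 1 ≤ ‖m - m'‖ := by
        obtain ⟨i, hi⟩ := Function.ne_iff.mp hne
        refine le_trans ?_ (norm_le_pi_norm (m - m') i)
        rw [Int.norm_eq_abs]
        exact_mod_cast Int.one_le_abs hi
      have h2 : ‖m - m'‖ ≤ (2 * ‖z m - z m'‖ + 5) / 6 ∨ ‖m - m'‖ ≤ 0 := by
        left
        rw [pi_norm_le_iff_of_nonneg (by positivity)]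
        intro i
        rw [Pi.sub_apply, Int.norm_eq_abs]
        push_cast
        have h3 := hzc m i
        have h4 := hzc m' i
        have h5 := abs_apply_le_norm (z m - z m') i
        rw [PiLp.sub_apply] at h5
        have h6 : (if m = m₁ then (3/2:ℝ) else 1) + (if m' = m₁ then (3/2:ℝ) else 1) ≤ 5/2 := by
          split_ifs with ha hb
          · exact absurd (ha.trans hb.symm) hmm
          all_goals norm_num
        rw [abs_le] at h3 h4 h5 ⊢
        constructor <;> linarith [h3.1, h3.2, h4.1, h4.2, h5.1, h5.2]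
      rcases h2 with h2 | h2
      · linarith
      · linarith
    obtain ⟨a, haB, ha⟩ := hint z hsep m₁
    set g : E d → ℂ := fun x => ∑' m, a m * psi ρ (cx (x - z m)) with hg
    have hgz : ∀ m, g (z m) = if m = m₁ then 1 else 0 := fun m => ha m
    have hgx : g x = 1 := by
      have := hgz m₁
      simpa [hz] using this
    have hgy : ∀ m, m ≠ m₁ → g (y j m) = 0 := by
      intro m hm
      have := hgz m
      simpa [hz, hm] using this
    have hmg : Mul Y g r := mul_class hULF hzcl hρ a haB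
    by_cases hx1 : y j m₁ = x
    · refine ⟨g, hmg.mono (by linarith), by rw [hgx]; exact one_ne_zero, fun m hm => ?_⟩
      by_cases hmm : m = m₁
      · rw [hmm] at hm; exact absurd hx1 hm
      · exact hgy m hmm
    · obtain ⟨s, hs, hse⟩ := exists_sep hx1
      refine ⟨fun x' => g x' * (ex s (cx x') - ex s (cx (y j m₁))), ?_, ?_, ?_⟩
      · exact (hmg.comp (mul_exp hULF s _)).mono (by linarith)
      · simp only
        rw [hgx, one_mul]
        exact sub_ne_zero.mpr (Ne.symm hse)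
      · intro m hm
        simp only
        by_cases hmm : m = m₁
        · rw [hmm, sub_self, mul_zero]
        · rw [hgy m hmm, zero_mul]
  -- combine
  have hcomb : ∀ S : Finset κ, ∃ G : E d → ℂ, Mul Y G (S.card * (r + 1)) ∧ G x ≠ 0 ∧
      ∀ j ∈ S, ∀ m, y j m ≠ x → G (y j m) = 0 := by
    intro S
    induction S using Finset.induction_on with
    | empty => exact ⟨fun _ => 1, by simpa using Mul.one Y, one_ne_zero, by simp⟩
    | insert j S hj ih =>
      obtain ⟨G, hG1, hG2, hG3⟩ := ih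
      obtain ⟨G', hG'1, hG'2, hG'3⟩ := hkill j
      refine ⟨fun x => G x * G' x, ?_, mul_ne_zero hG2 hG'2, ?_⟩
      · have := hG1.comp hG'1
        apply this.mono
        rw [Finset.card_insert_of_notMem hj]
        push_cast
        linarith
      · intro j' hj' m hm
        rcases Finset.mem_insert.mp hj' with h | h
        · rw [h] at hm ⊢
          simp only
          rw [hG'3 m hm, mul_zero]
        · simp only
          rw [hG3 j' h m hm, zero_mul]
  obtain ⟨G, hG1, hG2, hG3⟩ := hcomb Finset.univ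
  obtain ⟨-, hgap'⟩ := hG1 b hb _ hgap
  rw [Finset.card_univ] at hgap'
  obtain ⟨β, hβ, -, hβ1, -, -⟩ := exists_bump d (r := 1) one_pos
  have hβx : TF (fun ξ => β ξ * ex ξ (cx x)) 0 (Fintype.card κ * (r + 1) + 1 - Fintype.card κ * (r+1)) := by
    have := hβ.mul_ex (cx x)
    apply this.mono; linarith
  have h1 := hgap' _ hβx
  have h2 : ∀ p : κ × (Fin d → ℤ), b p * G (Y p) * psi (fun ξ => β ξ * ex ξ (cx x)) (cx (Y p)) =
      G x * (if Y p = x then b p else 0) := by
    intro p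
    split_ifs with h
    · rw [h, psi_cx, ← psi_cx_sub, sub_self, hβ1]; ring
    · rw [hG3 p.1 (Finset.mem_univ _) p.2 h]; ring
  simp only [h2] at h1
  rw [tsum_mul_left] at h1
  exact (mul_eq_zero.mp h1).resolve_left hG2

end FQ
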