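import Mathlib

set_option autoImplicit false
open Filter Topology

/-!
Topological rigidity on the circle: an infinite closed set stable under multiplication by two
multiplicatively independent integers is the whole circle (Furstenberg 1967, following the argument
of Boshernitzan).
-/

namespace Helper17.FurstPQ

/-- multiplicatively independent integers -/
structure MI (P Q : ℕ) : Prop where
  hP : 2 ≤ P
  hQ : 2 ≤ Q
  irr : Irrational (Real.log P / Real.log Q)

variable {P Q : ℕ}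

lemma MI.logP (H : MI P Q) : 0 < Real.log P :=
  Real.log_pos (by exact_mod_cast (lt_of_lt_of_le one_lt_two H.hP))

lemma MI.logQ (H : MI P Q) : 0 < Real.log Q :=
  Real.log_pos (by exact_mod_cast (lt_of_lt_of_le one_lt_two H.hQ))

lemma small_comb (a b : ℝ) (hab : Irrational (a / b)) (δ : ℝ) (hδ : 0 < δ) :
    ∃ p q : ℤ, 0 < p * a - q * b ∧ p * a - q * b < δ := by
  have hd := dense_addSubgroupClosure_pair_iff.mpr hab
  obtain ⟨x, hx, hx2⟩ := hd.exists_mem_open (isOpen_Ioo (a := (0:ℝ)) (b := δ)) ⟨δ / 2, by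
    constructor <;> linarith⟩
  obtain ⟨m, n, hmn⟩ := AddSubgroup.mem_closure_pair.mp hx
  refine ⟨m, -n, ?_, ?_⟩
  · have := hx2.1
    rw [← hmn] at this
    simp only [zsmul_eq_mul] at this
    push_cast
    linarith
  · have := hx2.2
    rw [← hmn] at this
    simp only [zsmul_eq_mul] at this
    push_cast
    linarith

lemma gapsA (a b δ : ℝ) (hb : 0 < b) (p q : ℕ) (h0 : 0 < p * a - q * b)
    (h1 : p * a - q * b ≤ δ) :
    ∃ T : ℝ, ∀ t, T ≤ t → ∃ i j : ℕ, t < i * a + j * b ∧ i * a + j * b ≤ t + δ := by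
  set d := p * a - q * b with hd
  set K : ℕ := ⌈b / d⌉₊ with hK
  refine ⟨(K * q + 1) * b, fun t ht => ?_⟩
  have ht0 : 0 ≤ t := le_trans (by positivity) ht
  set j : ℕ := ⌊t / b⌋₊ with hj
  have hj1 : (j : ℝ) * b ≤ t := by
    have := Nat.floor_le (show 0 ≤ t / b by positivity)
    rw [le_div_iff₀ hb] at this
    exact this
  have hj2 : t < ((j : ℝ) + 1) * b := by
    have := Nat.lt_floor_add_one (t / b)
    rw [div_lt_iff₀ hb] at this
    exact this
  have hjK : K * q ≤ j := by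
    rw [hj]
    apply Nat.le_floor
    rw [le_div_iff₀ hb]
    push_cast
    nlinarith
  set k : ℕ := ⌊(t - j * b) / d⌋₊ + 1 with hk
  have hx0 : 0 ≤ (t - j * b) / d := div_nonneg (by linarith) h0.le
  have hkK : k ≤ K := by
    rw [hk]
    have h2 : (t - j * b) / d < K := by
      calc (t - j * b) / d < b / d := by
            apply div_lt_div_of_pos_right _ h0
            linarith
        _ ≤ K := Nat.le_ceil _
    have h3 : ⌊(t - j * b) / d⌋₊ < K := (Nat.floor_lt hx0).mpr h2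
    omega
  have hk1 : t - j * b < k * d := by
    have := Nat.lt_floor_add_one ((t - j * b) / d)
    rw [div_lt_iff₀ h0] at this
    rw [hk]; push_cast; exact this
  have hk2 : (k : ℝ) * d ≤ t - j * b + d := by
    have := Nat.floor_le hx0
    rw [le_div_iff₀ h0] at this
    rw [hk]; push_cast; linarith
  have hkq : k * q ≤ j := (Nat.mul_le_mul_right q hkK).trans hjK
  refine ⟨k * p, j - k * q, ?_, ?_⟩
  · have e : ((k * p : ℕ) : ℝ) * a + ((j - k * q : ℕ) : ℝ) * b = j * b + k * d := by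
      rw [Nat.cast_sub hkq, hd]; push_cast; ring
    rw [e]; linarith
  · have e : ((k * p : ℕ) : ℝ) * a + ((j - k * q : ℕ) : ℝ) * b = j * b + k * d := by
      rw [Nat.cast_sub hkq, hd]; push_cast; ring
    rw [e]; linarith

lemma gaps (a b : ℝ) (ha : 0 < a) (hb : 0 < b) (hab : Irrational (a / b)) (δ : ℝ) (hδ : 0 < δ) :
    ∃ T : ℝ, ∀ t, T ≤ t → ∃ i j : ℕ, t < i * a + j * b ∧ i * a + j * b ≤ t + δ := by
  obtain ⟨p, q, h0, h1⟩ := small_comb a b hab (min δ (min a b)) (by positivity)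
  have hd : (p : ℝ) * a - q * b < δ := h1.trans_le (min_le_left _ _)
  have hda : (p : ℝ) * a - q * b < a := h1.trans_le ((min_le_right _ _).trans (min_le_left _ _))
  have hdb : (p : ℝ) * a - q * b < b := h1.trans_le ((min_le_right _ _).trans (min_le_right _ _))
  rcases le_or_gt 0 p with hp | hp
  · rcases le_or_gt 0 q with hq | hq
    · obtain ⟨p', rfl⟩ := Int.eq_ofNat_of_zero_le hp
      obtain ⟨q', rfl⟩ := Int.eq_ofNat_of_zero_le hq
      push_cast at h0 hd
      exact gapsA a b δ hb p' q' h0 hd.le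
    · exfalso
      have h2 : (q : ℝ) ≤ -1 := by exact_mod_cast Int.le_sub_one_of_lt hq
      have h3 : (0 : ℝ) ≤ p := by exact_mod_cast hp
      nlinarith
  · have hp' : (p : ℝ) ≤ -1 := by exact_mod_cast Int.le_sub_one_of_lt hp
    have hq : q < 0 := by
      by_contra hq
      push Not at hq
      have h3 : (0 : ℝ) ≤ q := by exact_mod_cast hq
      nlinarith
    obtain ⟨p', hp2⟩ := Int.eq_ofNat_of_zero_le (show 0 ≤ -p by omega)
    obtain ⟨q', hq2⟩ := Int.eq_ofNat_of_zero_le (show 0 ≤ -q by omega)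
    have hp3 : (p : ℝ) = -(p' : ℝ) := by
      have : p = -(p' : ℤ) := by omega
      rw [this]; push_cast; ring
    have hq3 : (q : ℝ) = -(q' : ℝ) := by
      have : q = -(q' : ℤ) := by omega
      rw [this]; push_cast; ring
    rw [hp3, hq3] at h0 hd
    obtain ⟨T, hT⟩ := gapsA b a δ ha q' p' (by linarith) (by linarith)
    refine ⟨T, fun t ht => ?_⟩
    obtain ⟨i, j, h4, h5⟩ := hT t ht
    exact ⟨j, i, by linarith, by linarith⟩

/-- the semigroup generated by `P^r` and `Q^r` is not lacunary -/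
lemma nonlac (H : MI P Q) (r : ℕ) (hr : 1 ≤ r) (ε : ℝ) (hε : 0 < ε) :
    ∃ Y : ℝ, 1 ≤ Y ∧ ∀ y, Y ≤ y → ∃ i j : ℕ, y < ((P ^ r) ^ i * (Q ^ r) ^ j : ℕ) ∧
      (((P ^ r) ^ i * (Q ^ r) ^ j : ℕ) : ℝ) ≤ (1 + ε) * y := by
  have h2 : 0 < Real.log P := H.logP
  have h3 : 0 < Real.log Q := H.logQ
  have hP0 : 0 < P := lt_of_lt_of_le two_pos H.hP
  have hQ0 : 0 < Q := lt_of_lt_of_le two_pos H.hQ
  have hr0 : (0 : ℝ) < r := by exact_mod_cast hr
  have hirr : Irrational ((r * Real.log P) / (r * Real.log Q)) := by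
    rw [mul_div_mul_left _ _ hr0.ne']
    exact H.irr
  obtain ⟨T, hT⟩ := gaps (r * Real.log P) (r * Real.log Q) (by positivity) (by positivity) hirr
    (Real.log (1 + ε)) (Real.log_pos (by linarith))
  refine ⟨max 1 (Real.exp T), le_max_left _ _, fun y hy => ?_⟩
  have hy1 : 1 ≤ y := (le_max_left _ _).trans hy
  have hy0 : 0 < y := by linarith
  have hyT : T ≤ Real.log y := by
    rw [Real.le_log_iff_exp_le hy0]
    exact (le_max_right _ _).trans hy
  obtain ⟨i, j, h4, h5⟩ := hT _ hyT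
  have e : Real.log (((P ^ r) ^ i * (Q ^ r) ^ j : ℕ) : ℝ) =
      i * (r * Real.log P) + j * (r * Real.log Q) := by
    push_cast
    rw [Real.log_mul (by positivity) (by positivity), Real.log_pow, Real.log_pow, Real.log_pow,
      Real.log_pow]
  have hpos : (0 : ℝ) < (((P ^ r) ^ i * (Q ^ r) ^ j : ℕ) : ℝ) := by positivity
  refine ⟨i, j, ?_, ?_⟩
  · rw [← Real.log_lt_log_iff hy0 hpos, e]; exact h4
  · rw [← Real.log_le_log_iff hpos (by positivity), e, Real.log_mul (by positivity) hy0.ne']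
    linarith

/-- stability under multiplication by `2^r` and `3^r` -/
def Inv (P Q r : ℕ) (A : Set UnitAddCircle) : Prop :=
  ∀ x ∈ A, (P ^ r) • x ∈ A ∧ (Q ^ r) • x ∈ A

lemma Inv.mul {r : ℕ} {A : Set UnitAddCircle} (h : Inv P Q r A) {x : UnitAddCircle} (hx : x ∈ A)
    (i j : ℕ) : ((P ^ r) ^ i * (Q ^ r) ^ j) • x ∈ A := by
  have h2 : ∀ (i : ℕ) (x : UnitAddCircle), x ∈ A → ((P ^ r) ^ i) • x ∈ A := by
    intro i
    induction i with
    | zero => intro x hx; simpa using hx
    | succ i ih =>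
      intro x hx
      rw [pow_succ, mul_smul]
      exact ih _ (h x hx).1
  have h3 : ∀ (j : ℕ) (x : UnitAddCircle), x ∈ A → ((Q ^ r) ^ j) • x ∈ A := by
    intro i
    induction i with
    | zero => intro x hx; simpa using hx
    | succ i ih =>
      intro x hx
      rw [pow_succ, mul_smul]
      exact ih _ (h x hx).2
  rw [mul_smul]
  exact h2 i _ (h3 j x hx)

lemma Inv.of_one {A : Set UnitAddCircle} (h : Inv P Q 1 A) (r : ℕ) : Inv P Q r A := by
  intro x hx
  have h1 := h.mul hx r 0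
  have h2 := h.mul hx 0 r
  simp only [pow_one, pow_zero, mul_one, one_mul] at h1 h2
  exact ⟨h1, h2⟩

lemma norm_coe_le (x : ℝ) : ‖((x : ℝ) : UnitAddCircle)‖ ≤ |x| := by
  rw [UnitAddCircle.norm_eq]
  have := round_le x 0
  simpa using this

lemma exists_rep (x : UnitAddCircle) : ∃ ξ : ℝ, ((ξ : ℝ) : UnitAddCircle) = x ∧ |ξ| = ‖x‖ := by
  obtain ⟨y, rfl⟩ := QuotientAddGroup.mk_surjective x
  refine ⟨y - round y, ?_, ?_⟩
  · have : ((round y : ℤ) : ℝ) = (round y : ℤ) • (1 : ℝ) := by simp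
    rw [AddCircle.coe_sub, this, AddCircle.coe_zsmul, AddCircle.coe_period]
    simp
  · exact (UnitAddCircle.norm_eq).symm

lemma dense_pos (H : MI P Q) {r : ℕ} (hr : 1 ≤ r) {A : Set UnitAddCircle} (hA : IsClosed A) (h : Inv P Q r A)
    (hacc : ∀ δ : ℝ, 0 < δ → ∃ ξ : ℝ, 0 < ξ ∧ ξ < δ ∧ ((ξ : ℝ) : UnitAddCircle) ∈ A) :
    A = Set.univ := by
  rw [Set.eq_univ_iff_forall]
  intro z
  rw [← hA.closure_eq, Metric.mem_closure_iff]
  intro η hη
  obtain ⟨Y, hY1, hY⟩ := nonlac H r hr (η / 4) (by linarith)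
  obtain ⟨ξ, hξ0, hξ1, hξA⟩ := hacc (1 / Y) (by positivity)
  obtain ⟨z0, rfl⟩ := QuotientAddGroup.mk_surjective z
  set θ : ℝ := 1 + Int.fract z0 with hθ
  have hθ1 : 1 ≤ θ := by have := Int.fract_nonneg z0; linarith
  have hθ2 : θ < 2 := by have := Int.fract_lt_one z0; linarith
  have hy : Y ≤ θ / ξ := by
    rw [le_div_iff₀ hξ0]
    rw [lt_div_iff₀ (by linarith)] at hξ1
    nlinarith
  obtain ⟨i, j, h4, h5⟩ := hY _ hy
  set s : ℕ := (P ^ r) ^ i * (Q ^ r) ^ j with hs
  refine ⟨s • ((ξ : ℝ) : UnitAddCircle), h.mul hξA i j, ?_⟩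
  have hz : ((z0 : ℝ) : UnitAddCircle) = ((θ : ℝ) : UnitAddCircle) := by
    have e : θ = z0 + ((1 - ⌊z0⌋ : ℤ) : ℝ) := by
      rw [hθ]; push_cast; rw [← Int.self_sub_floor]; ring
    have e2 : (((1 - ⌊z0⌋ : ℤ)) : ℝ) = (1 - ⌊z0⌋ : ℤ) • (1 : ℝ) := by simp
    rw [e, AddCircle.coe_add, e2, AddCircle.coe_zsmul, AddCircle.coe_period]
    simp
  have hz' : (QuotientAddGroup.mk z0 : UnitAddCircle) = ((θ : ℝ) : UnitAddCircle) := hz
  rw [hz', dist_comm, dist_eq_norm, ← AddCircle.coe_nsmul, ← AddCircle.coe_sub]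
  refine lt_of_le_of_lt (norm_coe_le _) ?_
  rw [nsmul_eq_mul]
  rw [div_lt_iff₀ hξ0] at h4
  have h6 : (s : ℝ) * ξ ≤ (1 + η / 4) * θ := by
    calc (s : ℝ) * ξ ≤ ((1 + η / 4) * (θ / ξ)) * ξ := mul_le_mul_of_nonneg_right h5 hξ0.le
      _ = (1 + η / 4) * θ := by field_simp
  rw [abs_lt]
  constructor
  · linarith
  · nlinarith

lemma dense_acc (H : MI P Q) {r : ℕ} (hr : 1 ≤ r) {A : Set UnitAddCircle} (hA : IsClosed A) (h : Inv P Q r A)
    (hacc : ∀ δ : ℝ, 0 < δ → ∃ x ∈ A, x ≠ 0 ∧ ‖x‖ < δ) : A = Set.univ := by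
  by_cases hp : ∀ δ : ℝ, 0 < δ → ∃ ξ : ℝ, 0 < ξ ∧ ξ < δ ∧ ((ξ : ℝ) : UnitAddCircle) ∈ A
  · exact dense_pos H hr hA h hp
  push Not at hp
  obtain ⟨δ0, hδ0, hno⟩ := hp
  have hneg : (Neg.neg ⁻¹' A) = Set.univ := by
    refine dense_pos H hr (hA.preimage continuous_neg) ?_ ?_
    · intro x hx
      simp only [Set.mem_preimage, ← smul_neg] at hx ⊢
      exact h _ hx
    · intro δ hδ
      obtain ⟨x, hxA, hx0, hxδ⟩ := hacc (min δ δ0) (by positivity)
      obtain ⟨ξ, rfl, hξ⟩ := exists_rep x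
      have hξδ : |ξ| < min δ δ0 := by rw [hξ]; exact hxδ
      have hξ0 : ξ ≠ 0 := by rintro rfl; simp at hx0
      rcases lt_or_gt_of_ne hξ0 with hlt | hgt
      · refine ⟨-ξ, by linarith, ?_, ?_⟩
        · rw [← abs_of_neg hlt]; exact hξδ.trans_le (min_le_left _ _)
        · simpa using hxA
      · exfalso
        refine hno ξ hgt ?_ hxA
        rw [← abs_of_pos hgt]; exact hξδ.trans_le (min_le_right _ _)
  rw [Set.eq_univ_iff_forall] at hneg ⊢
  intro z
  have := hneg (-z)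
  simpa using this

/-- accumulation point -/
def Acc (A : Set UnitAddCircle) (x : UnitAddCircle) : Prop :=
  ∀ δ : ℝ, 0 < δ → ∃ y ∈ A, y ≠ x ∧ ‖y - x‖ < δ

lemma exists_acc {A : Set UnitAddCircle} (h : A.Infinite) : ∃ x, Acc A x := by
  obtain ⟨x, hx⟩ := h.exists_accPt_principal
  refine ⟨x, fun δ hδ => ?_⟩
  rw [accPt_iff_nhds] at hx
  obtain ⟨y, ⟨hy1, hy2⟩, hy3⟩ := hx _ (Metric.ball_mem_nhds x hδ)
  exact ⟨y, hy2, hy3, by rwa [← dist_eq_norm]⟩

lemma Acc.mem {A : Set UnitAddCircle} (hA : IsClosed A) {x : UnitAddCircle} (h : Acc A x) :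
    x ∈ A := by
  rw [← hA.closure_eq, Metric.mem_closure_iff]
  intro ε hε
  obtain ⟨y, hy, _, h3⟩ := h ε hε
  exact ⟨y, hy, by rw [dist_comm, dist_eq_norm]; exact h3⟩

lemma infinite_of_nontors (H : MI P Q) {r : ℕ} (hr : 1 ≤ r) {B : Set UnitAddCircle} (h : Inv P Q r B)
    {x : UnitAddCircle} (hx : x ∈ B) (hnt : ∀ n : ℕ, 0 < n → n • x ≠ 0) : B.Infinite := by
  have hinj : Function.Injective (fun i : ℕ => ((P ^ r) ^ i * (Q ^ r) ^ 0) • x) := by
    have key : ∀ i j : ℕ, i < j → ((P ^ r) ^ i * (Q ^ r) ^ 0) • x ≠ ((P ^ r) ^ j * (Q ^ r) ^ 0) • x := by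
      intro i j hij heq
      simp only [pow_zero, mul_one] at heq
      have hlt : (P ^ r) ^ i < (P ^ r) ^ j :=
        Nat.pow_lt_pow_right (Nat.one_lt_pow (by omega) (lt_of_lt_of_le one_lt_two H.hP)) hij
      have : ((P ^ r) ^ j - (P ^ r) ^ i) • x = 0 := by
        have h5 : ((P ^ r) ^ j - (P ^ r) ^ i) • x + ((P ^ r) ^ i) • x = ((P ^ r) ^ j) • x := by
          rw [← add_smul]; congr 1; omega
        rw [heq] at h5
        simpa using h5
      exact hnt _ (by omega) this
    intro i j hij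
    rcases lt_trichotomy i j with h1 | h1 | h1
    · exact absurd hij (key i j h1)
    · exact h1
    · exact absurd hij.symm (key j i h1)
  exact Set.infinite_of_injective_forall_mem hinj (fun i => h.mul hx i 0)

lemma diff_univ (H : MI P Q) {r : ℕ} (hr : 1 ≤ r) {B : Set UnitAddCircle} (hB : IsClosed B) (h : Inv P Q r B)
    (hne : B.Nonempty) (hnt : ∀ x ∈ B, ∀ n : ℕ, 0 < n → n • x ≠ 0) (w : UnitAddCircle) :
    ∃ x ∈ B, ∃ y ∈ B, x - y = w := by
  set D : Set UnitAddCircle := (fun p : UnitAddCircle × UnitAddCircle => p.1 - p.2) '' (B ×ˢ B)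
    with hD
  have hDc : IsClosed D := by
    apply IsCompact.isClosed
    exact (hB.isCompact.prod hB.isCompact).image (continuous_fst.sub continuous_snd)
  have hDi : Inv P Q r D := by
    rintro _ ⟨⟨x, y⟩, ⟨hx, hy⟩, rfl⟩
    constructor
    · exact ⟨((P ^ r) • x, (P ^ r) • y), ⟨(h x hx).1, (h y hy).1⟩, by simp [smul_sub]⟩
    · exact ⟨((Q ^ r) • x, (Q ^ r) • y), ⟨(h x hx).2, (h y hy).2⟩, by simp [smul_sub]⟩
  obtain ⟨x0, hx0⟩ := hne
  obtain ⟨x, hx⟩ := exists_acc (infinite_of_nontors H hr h hx0 (hnt x0 hx0))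
  have hxB := hx.mem hB
  have hDu : D = Set.univ := by
    refine dense_acc H hr hDc hDi (fun δ hδ => ?_)
    obtain ⟨y, hy, hne, hlt⟩ := hx δ hδ
    exact ⟨y - x, ⟨(y, x), ⟨hy, hxB⟩, rfl⟩, sub_ne_zero.mpr hne, hlt⟩
  have : w ∈ D := by rw [hDu]; trivial
  obtain ⟨⟨a, b⟩, ⟨ha, hb⟩, hab⟩ := this
  exact ⟨a, ha, b, hb, hab⟩

lemma exists_tors (H : MI P Q) {B : Set UnitAddCircle} (hB : IsClosed B) (h : Inv P Q 1 B)
    (hne : B.Nonempty) : ∃ x ∈ B, ∃ n : ℕ, 0 < n ∧ n • x = 0 := by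
  by_contra hcon
  push Not at hcon
  have huniv : B = Set.univ := by
    rw [Set.eq_univ_iff_forall]
    intro z
    rw [← hB.closure_eq, Metric.mem_closure_iff]
    intro η hη
    obtain ⟨M, hM⟩ := exists_nat_gt (1 / η)
    have hP0 : 0 < P := lt_of_lt_of_le two_pos H.hP
    have hQ0 : 0 < Q := lt_of_lt_of_le two_pos H.hQ
    have hPQ : 1 ≤ P * Q := Nat.mul_pos hP0 hQ0
    set m : ℕ := P * Q * M + 1 with hm
    have hm0 : 0 < m := by omega
    have hmR : (0 : ℝ) < m := by exact_mod_cast hm0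
    have hmη : 1 / (m : ℝ) < η := by
      rw [div_lt_iff₀ hmR]
      rw [div_lt_iff₀ hη] at hM
      have : (M : ℝ) ≤ m := by
        have h9 : M ≤ m := by rw [hm]; nlinarith
        exact_mod_cast h9
      nlinarith
    set r : ℕ := Nat.totient m with hr
    have hr1 : 1 ≤ r := Nat.totient_pos.mpr hm0
    have hc2 : Nat.Coprime P m := by
      rw [hm, show P * Q * M = Q * M * P by ring]
      exact Nat.coprime_mul_right_add_right P 1 (Q * M) |>.mpr (Nat.coprime_one_right P)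
    have hc3 : Nat.Coprime Q m := by
      rw [hm, show P * Q * M = P * M * Q by ring]
      exact Nat.coprime_mul_right_add_right Q 1 (P * M) |>.mpr (Nat.coprime_one_right Q)
    set q : UnitAddCircle := (((1 : ℝ) / m : ℝ) : UnitAddCircle) with hq
    have hfix : ∀ a : ℕ, 0 < a → Nat.Coprime a m → (a ^ r) • q = q := by
      intro a hapos ha
      have h1 : a ^ r ≡ 1 [MOD m] := Nat.ModEq.pow_totient ha
      have ha0 : 0 < a ^ r := by positivity
      obtain ⟨c, hc⟩ : m ∣ a ^ r - 1 := (Nat.modEq_iff_dvd' ha0).mp h1.symm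
      have h2 : a ^ r = 1 + m * c := by omega
      rw [h2, add_smul, one_smul, hq, ← AddCircle.coe_nsmul, nsmul_eq_mul]
      have h3 : ((m * c : ℕ) : ℝ) * (1 / (m : ℝ)) = c := by
        push_cast; field_simp
      rw [h3]
      have : ((c : ℝ) : UnitAddCircle) = 0 := by
        have e : (c : ℝ) = c • (1 : ℝ) := by simp
        rw [e, AddCircle.coe_nsmul, AddCircle.coe_period]; simp
      rw [this, add_zero]
    have hInvr := h.of_one r
    have hchain : ∀ k : ℕ, ({x | ∀ i ≤ k, x + i • q ∈ B} : Set UnitAddCircle).Nonempty := by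
      intro k
      induction k with
      | zero =>
        obtain ⟨x, hx⟩ := hne
        refine ⟨x, fun i hi => ?_⟩
        have : i = 0 := by omega
        subst this; simpa using hx
      | succ k ih =>
        have hcl : IsClosed ({x | ∀ i ≤ k, x + i • q ∈ B} : Set UnitAddCircle) := by
          have : ({x | ∀ i ≤ k, x + i • q ∈ B} : Set UnitAddCircle) =
              ⋂ i : ℕ, ⋂ _ : i ≤ k, (fun x => x + i • q) ⁻¹' B := by
            ext x; simp
          rw [this]
          exact isClosed_iInter (fun i => isClosed_iInter (fun _ =>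
            hB.preimage (continuous_id.add continuous_const)))
        have hinv : Inv P Q r ({x | ∀ i ≤ k, x + i • q ∈ B} : Set UnitAddCircle) := by
          intro x hx
          constructor
          · intro i hi
            have e : (P ^ r) • x + i • q = (P ^ r) • (x + i • q) := by
              rw [smul_add, smul_comm (P ^ r) i q, hfix P (lt_of_lt_of_le two_pos H.hP) hc2]
            rw [e]
            exact (hInvr _ (hx i hi)).1
          · intro i hi
            have e : (Q ^ r) • x + i • q = (Q ^ r) • (x + i • q) := by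
              rw [smul_add, smul_comm (Q ^ r) i q, hfix Q (lt_of_lt_of_le two_pos H.hQ) hc3]
            rw [e]
            exact (hInvr _ (hx i hi)).2
        obtain ⟨y, hy, x, hx, hyx⟩ := diff_univ H hr1 hcl hinv ih (fun x hx => by
          have := hx 0 (Nat.zero_le _)
          simp only [zero_smul, add_zero] at this
          exact hcon x this) q
        refine ⟨x, fun i hi => ?_⟩
        rcases Nat.eq_zero_or_pos i with h0 | h0
        · subst h0; exact hx 0 (Nat.zero_le _)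
        · have h1 := hy (i - 1) (by omega)
          have h2 : y = x + q := by rw [← hyx]; abel
          have h3 : y + (i - 1) • q = x + i • q := by
            rw [h2, add_assoc]
            congr 1
            nth_rewrite 1 [← one_smul ℕ q]
            rw [← add_smul]; congr 1; omega
          rwa [h3] at h1
    obtain ⟨x, hx⟩ := hchain m
    obtain ⟨t, ht⟩ := QuotientAddGroup.mk_surjective (z - x)
    have ht' : ((Int.fract t : ℝ) : UnitAddCircle) = z - x := by
      rw [← ht]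
      have e : Int.fract t = t - ((⌊t⌋ : ℤ) • (1 : ℝ)) := by
        rw [zsmul_eq_mul, mul_one]; exact (Int.self_sub_floor t).symm
      rw [e, AddCircle.coe_sub, AddCircle.coe_zsmul, AddCircle.coe_period]
      simp
    set i : ℕ := ⌊Int.fract t * m⌋₊ with hi
    have hi0 : 0 ≤ Int.fract t * m := mul_nonneg (Int.fract_nonneg t) hmR.le
    have him : i ≤ m := by
      rw [hi]
      apply Nat.floor_le_of_le
      have := Int.fract_lt_one t
      nlinarith
    refine ⟨x + i • q, hx i him, ?_⟩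
    rw [dist_eq_norm]
    have e : z - (x + i • q) = (((Int.fract t - i * (1 / m) : ℝ)) : UnitAddCircle) := by
      rw [AddCircle.coe_sub, ht', hq, ← AddCircle.coe_nsmul, nsmul_eq_mul]; abel
    rw [e]
    refine lt_of_le_of_lt (norm_coe_le _) (lt_of_le_of_lt ?_ hmη)
    have h1 := Nat.floor_le hi0
    have h2 := Nat.lt_floor_add_one (Int.fract t * m)
    rw [← hi] at h1 h2
    have h3 : Int.fract t - i * (1 / m) = (Int.fract t * m - i) / m := by field_simp
    rw [h3, abs_div, abs_of_pos hmR]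
    apply div_le_div_of_nonneg_right _ hmR.le
    rw [abs_le]; constructor <;> linarith
  have h0 : (0 : UnitAddCircle) ∈ B := by rw [huniv]; trivial
  exact hcon 0 h0 1 one_pos (by simp)

lemma smul_ne_of_close (n : ℕ) (hn : 0 < n) (x y : UnitAddCircle) (hne : y ≠ x)
    (h : ‖y - x‖ < 1 / n) : n • y ≠ n • x := by
  intro heq
  have hnR : (0 : ℝ) < n := by exact_mod_cast hn
  have h0 : n • (y - x) = 0 := by rw [smul_sub, heq, sub_self]
  obtain ⟨ξ, hξ, hξn⟩ := exists_rep (y - x)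
  rw [← hξ, ← AddCircle.coe_nsmul, nsmul_eq_mul, AddCircle.coe_eq_zero_iff] at h0
  obtain ⟨k, hk⟩ := h0
  simp only [zsmul_eq_mul, mul_one] at hk
  have hlt : |(n : ℝ) * ξ| < 1 := by
    rw [abs_mul, abs_of_pos hnR, hξn]
    rw [lt_div_iff₀ hnR] at h
    linarith
  rw [← hk] at hlt
  have hk0 : k = 0 := by
    have : |k| < 1 := by exact_mod_cast hlt
    exact Int.abs_lt_one_iff.mp this
  rw [hk0] at hk
  have hξ0 : ξ = 0 := by
    have : (n : ℝ) * ξ = 0 := by rw [← hk]; simp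
    rcases mul_eq_zero.mp this with h1 | h1
    · exact absurd h1 hnR.ne'
    · exact h1
  rw [hξ0] at hξ
  apply hne
  have : y - x = 0 := by rw [← hξ]; simp
  exact sub_eq_zero.mp this

lemma norm_nsmul_le' (n : ℕ) (x : UnitAddCircle) : ‖n • x‖ ≤ n * ‖x‖ := norm_nsmul_le

lemma Acc.smul {A : Set UnitAddCircle} {x : UnitAddCircle} (h : Acc A x) (n : ℕ) (hn : 0 < n)
    (hA : ∀ y ∈ A, n • y ∈ A) : Acc A (n • x) := by
  intro δ hδ
  have hnR : (0 : ℝ) < n := by exact_mod_cast hn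
  obtain ⟨y, hy, hne, hlt⟩ := h (min (1 / n) (δ / n)) (by positivity)
  refine ⟨n • y, hA y hy, smul_ne_of_close n hn x y hne (hlt.trans_le (min_le_left _ _)), ?_⟩
  rw [← smul_sub]
  calc ‖n • (y - x)‖ ≤ n * ‖y - x‖ := norm_nsmul_le' n _
    _ < n * (δ / n) := mul_lt_mul_of_pos_left (hlt.trans_le (min_le_right _ _)) hnR
    _ = δ := by field_simp

/-- removing the part of an integer made of primes dividing another one -/
lemma coprime_part (N : ℕ) (hN : 0 < N) : ∀ n : ℕ, 0 < n → ∃ i n' : ℕ, 0 < n' ∧ n ∣ N ^ i * n' ∧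
    Nat.Coprime N n' := by
  intro n
  induction n using Nat.strong_induction_on with
  | _ n ih =>
    intro hn
    by_cases h : Nat.Coprime N n
    · exact ⟨0, n, hn, by simp, h⟩
    · have hg : Nat.gcd N n ≠ 1 := h
      have hg0 : 0 < Nat.gcd N n := Nat.gcd_pos_of_pos_left n hN
      obtain ⟨n1, hn1⟩ := Nat.gcd_dvd_right N n
      obtain ⟨t, ht⟩ := Nat.gcd_dvd_left N n
      have hn10 : 0 < n1 := by
        rcases Nat.eq_zero_or_pos n1 with h0 | h0
        · rw [h0, mul_zero] at hn1; omega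
        · exact h0
      have hlt : n1 < n := by
        rw [hn1]
        have : 2 ≤ Nat.gcd N n := by omega
        nlinarith
      obtain ⟨i, n', h1, h2, h3⟩ := ih n1 hlt hn10
      refine ⟨i + 1, n', h1, ?_, h3⟩
      have h4 : n ∣ Nat.gcd N n * (N ^ i * n') := by
        conv_lhs => rw [hn1]
        exact Nat.mul_dvd_mul_left _ h2
      refine h4.trans ?_
      rw [pow_succ, mul_comm (N ^ i) N, mul_assoc]
      exact Nat.mul_dvd_mul_right (Nat.gcd_dvd_left N n) _

/-- **Furstenberg's theorem** for multiplication by two multiplicatively independent integers. -/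
theorem furstenberg (H : MI P Q) {A : Set UnitAddCircle} (hA : IsClosed A)
    (h2 : ∀ x ∈ A, P • x ∈ A) (h3 : ∀ x ∈ A, Q • x ∈ A) (hinf : A.Infinite) : A = Set.univ := by
  have hP0 : 0 < P := lt_of_lt_of_le two_pos H.hP
  have hQ0 : 0 < Q := lt_of_lt_of_le two_pos H.hQ
  have h1 : Inv P Q 1 A := fun x hx => by
    rw [pow_one, pow_one]; exact ⟨h2 x hx, h3 x hx⟩
  set A' : Set UnitAddCircle := {x | Acc A x} with hA'
  have hcl : IsClosed A' := by
    rw [← closure_subset_iff_isClosed]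
    intro x hx δ hδ
    rw [Metric.mem_closure_iff] at hx
    obtain ⟨y, hy, hyx⟩ := hx (δ / 2) (by linarith)
    by_cases hxy : y = x
    · subst hxy; exact hy δ hδ
    · have hpos : 0 < ‖y - x‖ := norm_pos_iff.mpr (sub_ne_zero.mpr hxy)
      obtain ⟨w, hw, hwy, hwlt⟩ := hy (min (δ / 2) ‖y - x‖) (by positivity)
      refine ⟨w, hw, ?_, ?_⟩
      · rintro rfl
        have := hwlt.trans_le (min_le_right _ _)
        rw [norm_sub_rev] at this
        exact lt_irrefl _ this
      · calc ‖w - x‖ = ‖(w - y) + (y - x)‖ := by congr 1; abel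
          _ ≤ ‖w - y‖ + ‖y - x‖ := norm_add_le _ _
          _ < δ / 2 + δ / 2 := by
              apply add_lt_add (hwlt.trans_le (min_le_left _ _))
              rw [← dist_eq_norm, dist_comm]; exact hyx
          _ = δ := by ring
  have hinv : Inv P Q 1 A' := by
    intro x hx
    rw [pow_one, pow_one]
    exact ⟨Acc.smul hx P hP0 h2, Acc.smul hx Q hQ0 h3⟩
  obtain ⟨x0, hx0⟩ := exists_acc hinf
  obtain ⟨p, hp, n, hn, hnp⟩ := exists_tors H hcl hinv ⟨x0, hx0⟩
  -- make the order coprime to both integers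
  obtain ⟨p', hp', q, hq, hqp, hc2, hc3⟩ : ∃ p' ∈ A', ∃ q : ℕ, 0 < q ∧ q • p' = 0 ∧
      Nat.Coprime P q ∧ Nat.Coprime Q q := by
    obtain ⟨i, q, hq0, hdvd, hcop⟩ := coprime_part (P * Q) (Nat.mul_pos hP0 hQ0) n hn
    refine ⟨((P ^ 1) ^ i * (Q ^ 1) ^ i) • p, hinv.mul hp i i, q, hq0, ?_, ?_, ?_⟩
    · rw [smul_smul]
      obtain ⟨c, hc⟩ := hdvd
      have : q * ((P ^ 1) ^ i * (Q ^ 1) ^ i) = c * n := by
        rw [pow_one, pow_one, ← mul_pow, mul_comm q, hc, mul_comm]
      rw [this, mul_smul, hnp, smul_zero]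
    · exact Nat.Coprime.coprime_mul_right hcop
    · exact Nat.Coprime.coprime_mul_left hcop
  set r : ℕ := Nat.totient q with hr
  have hr1 : 1 ≤ r := Nat.totient_pos.mpr hq
  have hfix : ∀ a : ℕ, 0 < a → Nat.Coprime a q → (a ^ r) • p' = p' := by
    intro a ha0 ha
    have h4 : a ^ r ≡ 1 [MOD q] := Nat.ModEq.pow_totient ha
    obtain ⟨c, hc⟩ : q ∣ a ^ r - 1 :=
      (Nat.modEq_iff_dvd' (Nat.succ_le_of_lt (by positivity))).mp h4.symm
    have h5 : a ^ r = 1 + c * q := by
      have : 0 < a ^ r := by positivity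
      rw [mul_comm c q]; omega
    rw [h5, add_smul, one_smul, mul_smul, hqp]; simp
  have hB : ((fun x => x + p') ⁻¹' A) = Set.univ := by
    refine dense_acc H hr1 (hA.preimage (continuous_id.add continuous_const)) ?_ ?_
    · intro x hx
      simp only [Set.mem_preimage] at hx ⊢
      have h6 := (h1.of_one r) _ hx
      rw [smul_add, smul_add, hfix P (lt_of_lt_of_le two_pos H.hP) hc2, hfix Q (lt_of_lt_of_le two_pos H.hQ) hc3] at h6
      exact h6
    · intro δ hδ
      obtain ⟨y, hy, hne, hlt⟩ := hp' δ hδ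
      exact ⟨y - p', by simpa using hy, sub_ne_zero.mpr hne, hlt⟩
  rw [Set.eq_univ_iff_forall] at hB ⊢
  intro z
  have := hB (z - p')
  simpa using this

end Helper17.FurstPQ
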