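import Mathlib

set_option autoImplicit false

/-!
# Adaptive reading of independent uniform items: an abstract supermartingale inequality
-/

namespace Pool.Agent.Helper17.Read

open Finset

variable {I : Type*} [Fintype I] [DecidableEq I] {V : I → Type*} [∀ i, Fintype (V i)]
  [∀ i, DecidableEq (V i)]

/-- What has been read so far. -/
abbrev Hist {I : Type*} (V : I → Type*) := (i : I) → Option (V i)

/-- The outcome `ω` agrees with the history `h`. -/
def Ext (h : Hist V) (ω : (i : I) → V i) : Prop := ∀ i v, h i = some v → ω i = v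

/-- One step of the reading strategy `σ`. -/
def stp (σ : Hist V → Option I) (ω : (i : I) → V i) (h : Hist V) : Hist V :=
  match σ h with
  | none => h
  | some i => Function.update h i (some (ω i))

/-- The history after `t` steps, starting from `h`. -/
def hst (σ : Hist V → Option I) (ω : (i : I) → V i) (h : Hist V) (t : ℕ) : Hist V :=
  (stp σ ω)^[t] h

open Classical in
/-- The outcomes that agree with the history. -/
noncomputable def cyl (h : Hist V) : Finset ((i : I) → V i) := univ.filter fun ω => Ext h ω

omit [Fintype I] [∀ i, Fintype (V i)] [∀ i, DecidableEq (V i)] in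
lemma stp_none {σ : Hist V → Option I} {h : Hist V} (hs : σ h = none) (ω : (i : I) → V i) :
    stp σ ω h = h := by
  unfold stp; rw [hs]

omit [Fintype I] [∀ i, Fintype (V i)] [∀ i, DecidableEq (V i)] in
lemma stp_some {σ : Hist V → Option I} {h : Hist V} {i : I} (hs : σ h = some i)
    (ω : (i : I) → V i) : stp σ ω h = Function.update h i (some (ω i)) := by
  unfold stp; rw [hs]

omit [Fintype I] [∀ i, Fintype (V i)] [∀ i, DecidableEq (V i)] in
@[simp] lemma hst_zero (σ : Hist V → Option I) (ω : (i : I) → V i) (h : Hist V) :
    hst σ ω h 0 = h := rfl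

omit [Fintype I] [∀ i, Fintype (V i)] [∀ i, DecidableEq (V i)] in
lemma hst_succ (σ : Hist V → Option I) (ω : (i : I) → V i) (h : Hist V) (t : ℕ) :
    hst σ ω h (t + 1) = stp σ ω (hst σ ω h t) :=
  Function.iterate_succ_apply' _ _ _

omit [Fintype I] [∀ i, Fintype (V i)] [∀ i, DecidableEq (V i)] in
lemma hst_succ' (σ : Hist V → Option I) (ω : (i : I) → V i) (h : Hist V) (t : ℕ) :
    hst σ ω h (t + 1) = hst σ ω (stp σ ω h) t :=
  Function.iterate_succ_apply _ _ _

omit [Fintype I] [∀ i, Fintype (V i)] [∀ i, DecidableEq (V i)] in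
lemma ext_update {h : Hist V} {ω : (i : I) → V i} {i : I} {v : V i} (hi : h i = none) :
    Ext (Function.update h i (some v)) ω ↔ Ext h ω ∧ ω i = v := by
  constructor
  · intro H
    refine ⟨?_, ?_⟩
    · intro j w hj
      have hne : j ≠ i := by
        rintro rfl
        rw [hi] at hj; exact absurd hj (by simp)
      exact H j w (by rw [Function.update_of_ne hne]; exact hj)
    · exact H i v (by rw [Function.update_self])
  · rintro ⟨H, hv⟩ j w hj
    by_cases hne : j = i
    · subst hne
      rw [Function.update_self, Option.some_inj] at hj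
      rw [hv, hj]
    · rw [Function.update_of_ne hne] at hj
      exact H j w hj

omit [Fintype I] [∀ i, Fintype (V i)] [∀ i, DecidableEq (V i)] in
lemma ext_stp {σ : Hist V → Option I} {ω : (i : I) → V i} {h : Hist V}
    (hσ : ∀ i, σ h = some i → h i = none) (H : Ext h ω) : Ext (stp σ ω h) ω := by
  cases hs : σ h with
  | none => rw [stp_none hs]; exact H
  | some i => rw [stp_some hs, ext_update (hσ i hs)]; exact ⟨H, rfl⟩

omit [Fintype I] [∀ i, Fintype (V i)] [∀ i, DecidableEq (V i)] in
lemma ext_hst {σ : Hist V → Option I} {ω : (i : I) → V i} {h : Hist V}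
    (hσ : ∀ h i, σ h = some i → h i = none) (H : Ext h ω) (t : ℕ) : Ext (hst σ ω h t) ω := by
  induction t with
  | zero => exact H
  | succ t ih => rw [hst_succ]; exact ext_stp (hσ _) ih

omit [Fintype I] [∀ i, Fintype (V i)] [∀ i, DecidableEq (V i)] in
/-- Nothing is forgotten. -/
lemma stp_keep {σ : Hist V → Option I} (hσ : ∀ h i, σ h = some i → h i = none)
    (ω : (i : I) → V i) {h : Hist V} {j : I} {w : V j} (hj : h j = some w) :
    stp σ ω h j = some w := by
  cases hs : σ h with
  | none => rw [stp_none hs]; exact hj
  | some i =>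
    rw [stp_some hs]
    have hne : j ≠ i := by
      rintro rfl
      rw [hσ h j hs] at hj; exact absurd hj (by simp)
    rw [Function.update_of_ne hne]; exact hj

omit [Fintype I] [∀ i, Fintype (V i)] [∀ i, DecidableEq (V i)] in
lemma hst_keep {σ : Hist V → Option I} (hσ : ∀ h i, σ h = some i → h i = none)
    (ω : (i : I) → V i) {h : Hist V} {j : I} {w : V j} {s t : ℕ} (hst' : s ≤ t)
    (hj : hst σ ω h s j = some w) : hst σ ω h t j = some w := by
  induction t, hst' using Nat.le_induction with
  | base => exact hj
  | succ t _ ih => rw [hst_succ]; exact stp_keep hσ ω ih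

omit [∀ i, DecidableEq (V i)] in
lemma mem_cyl {h : Hist V} {ω : (i : I) → V i} : ω ∈ cyl h ↔ Ext h ω := by
  simp [cyl]

lemma card_cyl_update {h : Hist V} {i : I} (hi : h i = none) (v : V i) :
    (cyl (Function.update h i (some v))).card * Fintype.card (V i) = (cyl h).card := by
  classical
  rw [← Finset.card_univ (α := V i), ← Finset.card_product]
  apply Finset.card_bij' (fun q _ => Function.update q.1 i q.2)
    (fun ω _ => (Function.update ω i v, ω i))
  · rintro ⟨ω, u⟩ hq
    rw [mem_product, mem_cyl, ext_update hi] at hq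
    rw [mem_cyl]
    intro j w hj
    have hne : j ≠ i := by
      rintro rfl
      rw [hi] at hj; exact absurd hj (by simp)
    rw [Function.update_of_ne hne]
    exact hq.1.1 j w hj
  · intro ω hω
    rw [mem_cyl] at hω
    rw [mem_product, mem_cyl, ext_update hi]
    refine ⟨⟨?_, by simp⟩, mem_univ _⟩
    intro j w hj
    have hne : j ≠ i := by
      rintro rfl
      rw [hi] at hj; exact absurd hj (by simp)
    show Function.update ω i v j = w
    rw [Function.update_of_ne hne]
    exact hω j w hj
  · rintro ⟨ω, u⟩ hq
    rw [mem_product, mem_cyl, ext_update hi] at hq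
    have : ω i = v := hq.1.2
    simp [← this]
  · intro ω _
    simp

lemma sum_cyl {h : Hist V} {i : I} (hi : h i = none) (F : ((i : I) → V i) → ℝ) :
    ∑ ω ∈ cyl h, F ω = ∑ v : V i, ∑ ω ∈ cyl (Function.update h i (some v)), F ω := by
  classical
  rw [← Finset.sum_fiberwise (cyl h) (fun ω => ω i) F]
  apply Finset.sum_congr rfl
  intro v _
  apply Finset.sum_congr _ fun _ _ => rfl
  ext ω
  rw [mem_filter, mem_cyl, mem_cyl, ext_update hi]

/-- The factor contributed by one step. -/
def fac (σ : Hist V → Option I) (f : Hist V → (i : I) → V i → ℝ) (ω : (i : I) → V i)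
    (h : Hist V) : ℝ :=
  match σ h with
  | none => 1
  | some i => f h i (ω i)

/-- **The supermartingale inequality.** A strategy `σ` reads unread items one after another. If at
every reachable history the mean of the factor `f` over the value of the item to be read is
at most one, then so is the mean of the product of the factors. -/
theorem moment (σ : Hist V → Option I) (hσ : ∀ h i, σ h = some i → h i = none)
    (f : Hist V → (i : I) → V i → ℝ) (hf0 : ∀ h i v, 0 ≤ f h i v) (T : ℕ) (h0 : Hist V)
    (hf : ∀ ω t i, Ext h0 ω → t < T → σ (hst σ ω h0 t) = some i →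
      ∑ v, f (hst σ ω h0 t) i v ≤ Fintype.card (V i)) :
    ∑ ω ∈ cyl h0, ∏ t ∈ range T, fac σ f ω (hst σ ω h0 t) ≤ (cyl h0).card := by
  classical
  induction T generalizing h0 with
  | zero => simp
  | succ T ih =>
    have e1 : ∀ ω, ∏ t ∈ range (T + 1), fac σ f ω (hst σ ω h0 t) =
        (∏ t ∈ range T, fac σ f ω (hst σ ω (stp σ ω h0) t)) * fac σ f ω h0 := by
      intro ω
      rw [Finset.prod_range_succ']
      simp only [hst_succ', hst_zero]
    simp_rw [e1]
    cases hs : σ h0 with
    | none =>
      have e2 : ∀ ω, fac σ f ω h0 = 1 := by intro ω; unfold fac; rw [hs]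
      simp_rw [e2, stp_none hs, mul_one]
      apply ih
      intro ω t i hω ht hi
      exact hf ω t i hω (by omega) hi
    | some i =>
      have hi := hσ h0 i hs
      have e2 : ∀ ω, fac σ f ω h0 = f h0 i (ω i) := by intro ω; unfold fac; rw [hs]
      simp_rw [e2, stp_some hs]
      rw [sum_cyl hi]
      have e3 : ∀ v : V i, ∑ ω ∈ cyl (Function.update h0 i (some v)),
          (∏ t ∈ range T, fac σ f ω (hst σ ω (Function.update h0 i (some (ω i))) t)) *
            f h0 i (ω i) ≤ ((cyl (Function.update h0 i (some v))).card : ℝ) * f h0 i v := by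
        intro v
        have e4 : ∑ ω ∈ cyl (Function.update h0 i (some v)),
            (∏ t ∈ range T, fac σ f ω (hst σ ω (Function.update h0 i (some (ω i))) t)) *
              f h0 i (ω i) = (∑ ω ∈ cyl (Function.update h0 i (some v)),
            ∏ t ∈ range T, fac σ f ω (hst σ ω (Function.update h0 i (some v)) t)) *
              f h0 i v := by
          rw [Finset.sum_mul]
          apply Finset.sum_congr rfl
          intro ω hω
          rw [mem_cyl, ext_update hi] at hω
          rw [hω.2]
        rw [e4]
        apply mul_le_mul_of_nonneg_right _ (hf0 _ _ _)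
        apply ih
        intro ω t j hω ht hj
        rw [ext_update hi] at hω
        have e5 : hst σ ω (Function.update h0 i (some v)) t = hst σ ω h0 (t + 1) := by
          rw [hst_succ', stp_some hs, hω.2]
        rw [e5] at hj ⊢
        exact hf ω (t + 1) j hω.1 (by omega) hj
      refine (Finset.sum_le_sum fun v _ => e3 v).trans ?_
      rcases isEmpty_or_nonempty (V i) with hE | ⟨⟨v0⟩⟩
      · simp
      · have e6 : ∀ v : V i, ((cyl (Function.update h0 i (some v))).card : ℝ) =
            (cyl (Function.update h0 i (some v0))).card := by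
          intro v
          have h1 := card_cyl_update hi v
          have h2 := card_cyl_update hi v0
          have h3 : 0 < Fintype.card (V i) := Fintype.card_pos_iff.2 ⟨v0⟩
          have h4 := Nat.eq_of_mul_eq_mul_right h3 (h1.trans h2.symm)
          rw [h4]
        simp_rw [e6]
        rw [← Finset.mul_sum]
        have h5 := hf
        by_cases hne : ∃ ω, Ext h0 ω
        · obtain ⟨ω, hω⟩ := hne
          have h6 := hf ω 0 i hω (by omega) (by rw [hst_zero]; exact hs)
          rw [hst_zero] at h6
          calc ((cyl (Function.update h0 i (some v0))).card : ℝ) * ∑ v, f h0 i v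
              ≤ ((cyl (Function.update h0 i (some v0))).card : ℝ) * Fintype.card (V i) :=
                mul_le_mul_of_nonneg_left h6 (by positivity)
            _ = (cyl h0).card := by
                rw [← card_cyl_update hi v0]; push_cast; ring
        · have h6 : cyl (Function.update h0 i (some v0)) = ∅ := by
            rw [Finset.eq_empty_iff_forall_notMem]
            intro ω hω
            rw [mem_cyl, ext_update hi] at hω
            exact hne ⟨ω, hω.1⟩
          rw [h6]; simp

section marks

variable (σ : Hist V → Option I) (mk : Hist V → (i : I) → V i → Prop) (p : Hist V → I → ℝ)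

open Classical in
/-- The number of marked steps among the first `T` steps. -/
noncomputable def cnt (T : ℕ) (h0 : Hist V) (ω : (i : I) → V i) : ℕ :=
  ((range T).filter fun t => ∃ i, σ (hst σ ω h0 t) = some i ∧
    mk (hst σ ω h0 t) i (ω i)).card

/-- The sum of the mark probabilities along the first `T` steps. -/
def bud (T : ℕ) (h0 : Hist V) (ω : (i : I) → V i) : ℝ :=
  ∑ t ∈ range T, match σ (hst σ ω h0 t) with
    | none => 0
    | some i => p (hst σ ω h0 t) i

open Classical in
/-- Exponential moment of the number of marks. -/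
theorem moment_marks (hσ : ∀ h i, σ h = some i → h i = none) (T : ℕ) (h0 : Hist V) {θ : ℝ}
    (hθ : 1 ≤ θ)
    (hp : ∀ ω t i, Ext h0 ω → t < T → σ (hst σ ω h0 t) = some i →
      ((univ.filter fun v => mk (hst σ ω h0 t) i v).card : ℝ) ≤
        p (hst σ ω h0 t) i * Fintype.card (V i)) :
    ∑ ω ∈ cyl h0, θ ^ (cnt σ mk T h0 ω) * Real.exp (-((θ - 1) * bud σ p T h0 ω)) ≤
      (cyl h0).card := by
  set f : Hist V → (i : I) → V i → ℝ := fun h i v =>
    (if mk h i v then θ else 1) * Real.exp (-((θ - 1) * p h i)) with hf
  have hθ0 : 0 ≤ θ := by linarith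
  have hf0 : ∀ h i v, 0 ≤ f h i v := by
    intro h i v
    simp only [hf]
    split_ifs <;> positivity
  have hmain := moment σ hσ f hf0 T h0 (by
    intro ω t i hω ht hi
    have h1 := hp ω t i hω ht hi
    set h := hst σ ω h0 t
    simp only [hf]
    rw [← Finset.sum_mul]
    have h2 : ∑ v : V i, (if mk h i v then θ else 1) =
        Fintype.card (V i) + (θ - 1) * ((univ.filter fun v => mk h i v).card : ℝ) := by
      have h3 : ∀ v : V i, (if mk h i v then θ else 1) =
          1 + (θ - 1) * (if mk h i v then 1 else 0) := by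
        intro v; split_ifs <;> ring
      simp_rw [h3]
      rw [Finset.sum_add_distrib, ← Finset.mul_sum, Finset.sum_boole, Finset.sum_const,
        Finset.card_univ, nsmul_eq_mul, mul_one]
    rw [h2]
    have h4 : (Fintype.card (V i) : ℝ) + (θ - 1) * ((univ.filter fun v => mk h i v).card : ℝ) ≤
        Fintype.card (V i) * (1 + (θ - 1) * p h i) := by
      have := mul_le_mul_of_nonneg_left h1 (show 0 ≤ θ - 1 by linarith)
      nlinarith
    have h5 : 1 + (θ - 1) * p h i ≤ Real.exp ((θ - 1) * p h i) := by
      have := Real.add_one_le_exp ((θ - 1) * p h i)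
      linarith
    calc _ ≤ (Fintype.card (V i) * Real.exp ((θ - 1) * p h i)) *
          Real.exp (-((θ - 1) * p h i)) := by
          apply mul_le_mul_of_nonneg_right _ (Real.exp_pos _).le
          exact h4.trans (mul_le_mul_of_nonneg_left h5 (by positivity))
      _ = Fintype.card (V i) := by
          rw [mul_assoc, ← Real.exp_add]; simp)
  refine le_trans (le_of_eq ?_) hmain
  apply Finset.sum_congr rfl
  intro ω _
  have h1 : ∀ t, fac σ f ω (hst σ ω h0 t) =
      (if ∃ i, σ (hst σ ω h0 t) = some i ∧ mk (hst σ ω h0 t) i (ω i) then θ else 1) *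
      Real.exp (-((θ - 1) * (match σ (hst σ ω h0 t) with
        | none => 0
        | some i => p (hst σ ω h0 t) i))) := by
    intro t
    unfold fac
    cases hs : σ (hst σ ω h0 t) with
    | none => simp
    | some i => simp [hf]
  simp_rw [h1]
  rw [Finset.prod_mul_distrib, ← Real.exp_sum]
  congr 1
  · rw [Finset.prod_ite, Finset.prod_const, Finset.prod_const_one, mul_one]
    rfl
  · congr 1
    unfold bud
    rw [Finset.mul_sum, Finset.sum_neg_distrib]

open Classical in
/-- Chernoff bound for the number of marks on paths with a small budget. -/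
theorem tail (hσ : ∀ h i, σ h = some i → h i = none) (T : ℕ) (h0 : Hist V) {θ : ℝ}
    (hθ : 1 ≤ θ)
    (hp : ∀ ω t i, Ext h0 ω → t < T → σ (hst σ ω h0 t) = some i →
      ((univ.filter fun v => mk (hst σ ω h0 t) i v).card : ℝ) ≤
        p (hst σ ω h0 t) i * Fintype.card (V i)) (P : ℝ) (x : ℕ) :
    (((cyl h0).filter fun ω => bud σ p T h0 ω ≤ P ∧ x ≤ cnt σ mk T h0 ω).card : ℝ) *
      θ ^ x ≤ Real.exp ((θ - 1) * P) * (cyl h0).card := by
  have h1 := moment_marks σ mk p hσ T h0 hθ hp
  set S := (cyl h0).filter fun ω => bud σ p T h0 ω ≤ P ∧ x ≤ cnt σ mk T h0 ω with hS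
  have hθ0 : 0 ≤ θ := by linarith
  have h2 : (S.card : ℝ) * (θ ^ x * Real.exp (-((θ - 1) * P))) ≤ (cyl h0).card := by
    calc (S.card : ℝ) * (θ ^ x * Real.exp (-((θ - 1) * P))) =
          ∑ _ω ∈ S, θ ^ x * Real.exp (-((θ - 1) * P)) := by
          rw [Finset.sum_const, nsmul_eq_mul]
      _ ≤ ∑ ω ∈ S, θ ^ (cnt σ mk T h0 ω) * Real.exp (-((θ - 1) * bud σ p T h0 ω)) := by
          apply Finset.sum_le_sum
          intro ω hω
          rw [hS, mem_filter] at hω
          apply mul_le_mul (pow_le_pow_right₀ hθ hω.2.2) _ (Real.exp_pos _).le (by positivity)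
          apply Real.exp_le_exp.2
          have := mul_le_mul_of_nonneg_left hω.2.1 (show 0 ≤ θ - 1 by linarith)
          linarith
      _ ≤ ∑ ω ∈ cyl h0, θ ^ (cnt σ mk T h0 ω) * Real.exp (-((θ - 1) * bud σ p T h0 ω)) := by
          apply Finset.sum_le_sum_of_subset_of_nonneg
          · rw [hS]; exact Finset.filter_subset _ _
          · intro ω _ _; positivity
      _ ≤ _ := h1
  calc (S.card : ℝ) * θ ^ x = (S.card : ℝ) * (θ ^ x * Real.exp (-((θ - 1) * P))) *
        Real.exp ((θ - 1) * P) := by
        have : Real.exp (-((θ - 1) * P)) * Real.exp ((θ - 1) * P) = 1 := by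
          rw [← Real.exp_add]; simp
        calc _ = (S.card : ℝ) * θ ^ x * (Real.exp (-((θ - 1) * P)) * Real.exp ((θ - 1) * P)) := by
              rw [this, mul_one]
          _ = _ := by ring
    _ ≤ ((cyl h0).card : ℝ) * Real.exp ((θ - 1) * P) :=
        mul_le_mul_of_nonneg_right h2 (Real.exp_pos _).le
    _ = _ := by ring

end marks

section cond

/-- The history that consists of the values of `ω` on `A`. -/
def res (A : Finset I) (ω : (i : I) → V i) : Hist V := fun i => if i ∈ A then some (ω i) else none

omit [Fintype I] [∀ i, Fintype (V i)] [∀ i, DecidableEq (V i)] in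
lemma ext_res {A : Finset I} {ω ω' : (i : I) → V i} :
    Ext (res A ω) ω' ↔ ∀ i ∈ A, ω' i = ω i := by
  constructor
  · intro H i hi
    exact H i (ω i) (by simp [res, hi])
  · intro H i v hv
    unfold res at hv
    split_ifs at hv with hi
    rw [Option.some_inj] at hv
    rw [H i hi, hv]

open Classical in
/-- Conditioning: a bound that holds for all fixed values of the items in `A` holds on average. -/
theorem cond (A : Finset I) (bad : ((i : I) → V i) → Prop) (δ : ℝ)
    (H : ∀ ω0 : (i : I) → V i, (((cyl (res A ω0)).filter fun ω => bad ω).card : ℝ) ≤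
      δ * (cyl (res A ω0)).card) :
    ((univ.filter fun ω : (i : I) → V i => bad ω).card : ℝ) ≤
      δ * Fintype.card ((i : I) → V i) := by
  have h1 : ∀ S : Finset ((i : I) → V i), (S.card : ℝ) =
      ∑ h : Hist V, ((S.filter fun ω => res A ω = h).card : ℝ) := by
    intro S
    rw [← Nat.cast_sum]
    congr 1
    exact Finset.card_eq_sum_card_fiberwise (f := fun ω => res A ω) (t := univ)
      (fun _ _ => by simp)
  have key : ∀ ω0 ω : (i : I) → V i, Ext (res A ω0) ω ↔ res A ω = res A ω0 := by
    intro ω0 ω
    rw [ext_res]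
    constructor
    · intro h
      funext i
      unfold res
      split_ifs with hi
      · rw [h i hi]
      · rfl
    · intro h i hi
      have := congrFun h i
      unfold res at this
      rw [if_pos hi, if_pos hi, Option.some_inj] at this
      exact this
  rw [← Finset.card_univ, h1, h1 univ, Finset.mul_sum]
  apply Finset.sum_le_sum
  intro h _
  by_cases hne : ∃ ω0 : (i : I) → V i, res A ω0 = h
  · obtain ⟨ω0, rfl⟩ := hne
    have h2 := H ω0
    have e1 : ((univ.filter fun ω : (i : I) → V i => bad ω).filter
        fun ω => res A ω = res A ω0) = ((cyl (res A ω0)).filter fun ω => bad ω) := by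
      ext ω
      simp only [mem_filter, mem_univ, true_and, mem_cyl, key]
      tauto
    have e2 : ((univ : Finset ((i : I) → V i)).filter fun ω => res A ω = res A ω0) =
        cyl (res A ω0) := by
      ext ω
      simp only [mem_filter, mem_univ, true_and, mem_cyl, key]
    rw [e1, e2]
    exact h2
  · have e1 : ((univ.filter fun ω : (i : I) → V i => bad ω).filter
        fun ω => res A ω = h) = ∅ := by
      rw [Finset.eq_empty_iff_forall_notMem]
      intro ω hω
      exact hne ⟨ω, (mem_filter.1 hω).2⟩
    have e2 : ((univ : Finset ((i : I) → V i)).filter fun ω => res A ω = h) = ∅ := by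
      rw [Finset.eq_empty_iff_forall_notMem]
      intro ω hω
      exact hne ⟨ω, (mem_filter.1 hω).2⟩
    rw [e1, e2]
    simp

end cond

end Pool.Agent.Helper17.Read
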