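import Mathlib
import Pool.Agent.Helper17.Read

set_option autoImplicit false
set_option linter.unusedSectionVars false
set_option linter.unusedDecidableInType false
set_option linter.unusedFintypeInType false

/-!
# Processes that read elements: the data of an element is a digit and a hash value
-/

namespace Pool.Agent.Helper17.Proc

open Finset Pool.Agent.Helper17.Read

section exhaust

variable {I : Type*} [Fintype I] [DecidableEq I] {V : I → Type*}

open Classical in
/-- The items that have been read. -/
noncomputable def rdI (h : Hist V) : Finset I := univ.filter fun i => h i ≠ none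

lemma mem_rdI {h : Hist V} {i : I} : i ∈ rdI h ↔ h i ≠ none := by simp [rdI]

lemma rdI_stp_some {σ : Hist V → Option I} {h : Hist V} {i : I} (hs : σ h = some i)
    (ω : (i : I) → V i) : rdI (stp σ ω h) = insert i (rdI h) := by
  ext j
  rw [mem_insert, mem_rdI, mem_rdI, stp_some hs]
  by_cases hj : j = i
  · subst hj; simp
  · rw [Function.update_of_ne hj]; simp [hj]

lemma le_card_rdI (σ : Hist V → Option I) (hσ : ∀ h i, σ h = some i → h i = none)
    (ω : (i : I) → V i) (h0 : Hist V) (t : ℕ) (hall : ∀ s < t, σ (hst σ ω h0 s) ≠ none) :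
    t ≤ (rdI (hst σ ω h0 t)).card := by
  induction t with
  | zero => exact Nat.zero_le _
  | succ t ih =>
    have h1 := ih fun s hs => hall s (by omega)
    obtain ⟨i, hi⟩ := Option.ne_none_iff_exists'.1 (hall t (by omega))
    rw [hst_succ, rdI_stp_some hi, Finset.card_insert_of_notMem]
    · omega
    · rw [mem_rdI, not_not]
      exact hσ _ _ hi

lemma hst_const {σ : Hist V → Option I} {ω : (i : I) → V i} {h0 : Hist V} {s : ℕ}
    (hs : σ (hst σ ω h0 s) = none) {t : ℕ} (hst' : s ≤ t) : hst σ ω h0 t = hst σ ω h0 s := by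
  induction t, hst' using Nat.le_induction with
  | base => rfl
  | succ t _ ih => rw [hst_succ, ih, stp_none hs]

/-- After `card I` steps everything that the strategy wants to know has been read. -/
lemma exhaust (σ : Hist V → Option I) (hσ : ∀ h i, σ h = some i → h i = none)
    (ω : (i : I) → V i) (h0 : Hist V) : σ (hst σ ω h0 (Fintype.card I)) = none := by
  by_contra hcon
  have hall : ∀ s < Fintype.card I, σ (hst σ ω h0 s) ≠ none := by
    intro s hs hn
    apply hcon
    rw [hst_const hn hs.le]; exact hn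
  have h1 := le_card_rdI σ hσ ω h0 _ hall
  have h2 : rdI (hst σ ω h0 (Fintype.card I)) = univ := by
    apply Finset.eq_univ_of_card
    exact le_antisymm (Finset.card_le_univ _) h1
  obtain ⟨i, hi⟩ := Option.ne_none_iff_exists'.1 hcon
  have h3 : i ∈ rdI (hst σ ω h0 (Fintype.card I)) := by rw [h2]; exact mem_univ i
  exact (mem_rdI.1 h3) (hσ _ _ hi)

end exhaust

section process

variable {E G Y Z St : Type}

/-- The state after `n` steps, starting at time `t` in the state `v`. -/
def sta {X : Type} (nx : ℕ → St → X → St) (x : X) : ℕ → ℕ → St → St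
  | 0, _, v => v
  | n + 1, t, v => sta nx x n (t + 1) (nx t v x)

/-- The elements read in `n` steps, starting at time `t` in the state `v`. -/
def rd {X : Type} [DecidableEq E] (S : ℕ → St → Finset E) (nx : ℕ → St → X → St) (x : X) :
    ℕ → ℕ → St → Finset E
  | 0, _, _ => ∅
  | n + 1, t, v => S t v ∪ rd S nx x n (t + 1) (nx t v x)

/-- The types of the items. -/
def VV (E G Y Z : Type) : E ⊕ G → Type
  | .inl _ => Y
  | .inr _ => Z

instance instFT [Fintype Y] [Fintype Z] (i : E ⊕ G) : Fintype (VV E G Y Z i) :=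
  match i with
  | .inl _ => inferInstanceAs (Fintype Y)
  | .inr _ => inferInstanceAs (Fintype Z)

instance instDE [DecidableEq Y] [DecidableEq Z] (i : E ⊕ G) : DecidableEq (VV E G Y Z i) :=
  match i with
  | .inl _ => inferInstanceAs (DecidableEq Y)
  | .inr _ => inferInstanceAs (DecidableEq Z)

/-- Digits and hash values. -/
def toX (ω : (i : E ⊕ G) → VV E G Y Z i) : (E → Y) × (G → Z) :=
  (fun e => ω (.inl e), fun g => ω (.inr g))

/-- The outcome belonging to `x`. -/
def ofX (x : (E → Y) × (G → Z)) : (i : E ⊕ G) → VV E G Y Z i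
  | .inl e => x.1 e
  | .inr g => x.2 g

@[simp] lemma toX_ofX (x : (E → Y) × (G → Z)) : toX (ofX x) = x := rfl

@[simp] lemma ofX_toX (ω : (i : E ⊕ G) → VV E G Y Z i) : ofX (toX ω) = ω := by
  funext i
  cases i <;> rfl

/-- The equivalence. -/
def eqX : ((i : E ⊕ G) → VV E G Y Z i) ≃ (E → Y) × (G → Z) where
  toFun := toX
  invFun := ofX
  left_inv := ofX_toX
  right_inv := toX_ofX

/-- Filling up a history. -/
noncomputable def fil [Nonempty Y] [Nonempty Z] (h : Hist (VV E G Y Z)) : (E → Y) × (G → Z) :=
  (fun e => Option.getD (h (.inl e)) (Classical.arbitrary Y),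
    fun g => Option.getD (h (.inr g)) (Classical.arbitrary Z))

variable (S : ℕ → St → Finset E) (key : E → Y → G) (nx : ℕ → St → (E → Y) × (G → Z) → St)

open Classical in
/-- The next item needed at time `t` in the state `v`. -/
noncomputable def rq (t : ℕ) (v : St) (h : Hist (VV E G Y Z)) : Option (E ⊕ G) :=
  if h1 : ∃ e ∈ S t v, h (.inl e) = none then some (.inl h1.choose)
  else if h2 : ∃ g : G, (∃ e ∈ S t v, ∃ d : Y, h (.inl e) = some d ∧ key e d = g) ∧
    h (.inr g) = none then some (.inr h2.choose)
  else none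

/-- The next item needed in the next `n` steps. -/
noncomputable def sim [Nonempty Y] [Nonempty Z] :
    ℕ → ℕ → St → Hist (VV E G Y Z) → Option (E ⊕ G)
  | 0, _, _, _ => none
  | n + 1, t, v, h =>
    match rq S key t v h with
    | some i => some i
    | none => sim n (t + 1) (nx t v (fil h)) h

variable {S key nx}

lemma rq_none {t : ℕ} {v : St} {h : Hist (VV E G Y Z)} {ω : (i : E ⊕ G) → VV E G Y Z i}
    (hω : Ext h ω) (hr : rq S key t v h = none) :
    ∀ e ∈ S t v, h (.inl e) = some (ω (.inl e)) ∧
      h (.inr (key e (ω (.inl e)))) = some (ω (.inr (key e (ω (.inl e))))) := by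
  unfold rq at hr
  split_ifs at hr with h1 h2
  push Not at h1 h2
  intro e he
  obtain ⟨d, hd⟩ := Option.ne_none_iff_exists'.1 (h1 e he)
  have hd' := hω _ _ hd
  have h3 := h2 (key e (ω (.inl e))) ⟨e, he, d, hd, by rw [hd']⟩
  obtain ⟨z, hz⟩ := Option.ne_none_iff_exists'.1 h3
  have hz' := hω _ _ hz
  refine ⟨by rw [hd, hd'], by rw [hz, hz']⟩

lemma nx_fil [Nonempty Y] [Nonempty Z]
    (hnx : ∀ t v x x', (∀ e ∈ S t v, x.1 e = x'.1 e ∧
      x.2 (key e (x.1 e)) = x'.2 (key e (x.1 e))) → nx t v x = nx t v x')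
    {t : ℕ} {v : St} {h : Hist (VV E G Y Z)} {ω : (i : E ⊕ G) → VV E G Y Z i}
    (hω : Ext h ω) (hr : rq S key t v h = none) : nx t v (fil h) = nx t v (toX ω) := by
  symm
  apply hnx
  intro e he
  obtain ⟨h1, h2⟩ := rq_none hω hr e he
  refine ⟨?_, ?_⟩
  · show ω (.inl e) = Option.getD (h (.inl e)) _
    rw [h1]; rfl
  · show ω (.inr (key e (ω (.inl e)))) = Option.getD (h (.inr (key e (ω (.inl e))))) _
    rw [h2]; rfl

lemma sim_some [DecidableEq E] [Nonempty Y] [Nonempty Z]
    (hnx : ∀ t v x x', (∀ e ∈ S t v, x.1 e = x'.1 e ∧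
      x.2 (key e (x.1 e)) = x'.2 (key e (x.1 e))) → nx t v x = nx t v x')
    {n t : ℕ} {v : St} {h : Hist (VV E G Y Z)} {i : E ⊕ G}
    (hs : sim S key nx n t v h = some i) :
    h i = none ∧ ∀ ω, Ext h ω → (∀ e, i = .inl e → e ∈ rd S nx (toX ω) n t v) ∧
      (∀ g, i = .inr g → ∃ e ∈ rd S nx (toX ω) n t v, g = key e (ω (.inl e))) := by
  induction n generalizing t v with
  | zero => exact absurd hs (by simp [sim])
  | succ n ih =>
    unfold sim at hs
    cases hr : rq S key t v h with
    | none =>
      rw [hr] at hs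
      obtain ⟨h1, h2⟩ := ih hs
      refine ⟨h1, ?_⟩
      intro ω hω
      obtain ⟨h3, h4⟩ := h2 ω hω
      rw [nx_fil hnx hω hr] at h3 h4
      refine ⟨?_, ?_⟩
      · intro e he
        exact mem_union_right _ (h3 e he)
      · intro g hg
        obtain ⟨e, he, hk⟩ := h4 g hg
        exact ⟨e, mem_union_right _ he, hk⟩
    | some j =>
      rw [hr] at hs
      simp only [Option.some_inj] at hs
      subst hs
      unfold rq at hr
      split_ifs at hr with h1 h2
      · rw [Option.some_inj] at hr
        subst hr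
        refine ⟨h1.choose_spec.2, ?_⟩
        intro ω _
        refine ⟨?_, by simp⟩
        intro e he
        rw [Sum.inl.injEq] at he
        rw [← he]
        exact mem_union_left _ h1.choose_spec.1
      · rw [Option.some_inj] at hr
        subst hr
        refine ⟨h2.choose_spec.2, ?_⟩
        intro ω hω
        refine ⟨by simp, ?_⟩
        intro g hg
        rw [Sum.inr.injEq] at hg
        rw [← hg]
        obtain ⟨e, he, d, hd, hk⟩ := h2.choose_spec.1
        refine ⟨e, mem_union_left _ he, ?_⟩
        rw [hω _ _ hd, hk]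

lemma sim_none [DecidableEq E] [Nonempty Y] [Nonempty Z]
    (hnx : ∀ t v x x', (∀ e ∈ S t v, x.1 e = x'.1 e ∧
      x.2 (key e (x.1 e)) = x'.2 (key e (x.1 e))) → nx t v x = nx t v x')
    {n t : ℕ} {v : St} {h : Hist (VV E G Y Z)} {ω : (i : E ⊕ G) → VV E G Y Z i}
    (hω : Ext h ω) (hs : sim S key nx n t v h = none) :
    ∀ e ∈ rd S nx (toX ω) n t v, h (.inl e) = some (ω (.inl e)) ∧
      h (.inr (key e (ω (.inl e)))) = some (ω (.inr (key e (ω (.inl e))))) := by
  induction n generalizing t v with
  | zero => intro e he; simp [rd] at he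
  | succ n ih =>
    unfold sim at hs
    cases hr : rq S key t v h with
    | none =>
      rw [hr] at hs
      have h1 := ih hs
      rw [nx_fil hnx hω hr] at h1
      intro e he
      unfold rd at he
      rw [mem_union] at he
      rcases he with he | he
      · exact rq_none hω hr e he
      · exact h1 e he
    | some j =>
      rw [hr] at hs
      exact absurd hs (by simp)

end process

section count

variable {E G Y Z St : Type} [Fintype E] [DecidableEq E] [Fintype G] [DecidableEq G] [Fintype Y]
  [DecidableEq Y] [Fintype Z] [DecidableEq Z] [Nonempty Y] [Nonempty Z]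

open Classical in
/-- The elements that have been read. -/
noncomputable def RE (h : Hist (VV E G Y Z)) : Finset E := univ.filter fun e => h (.inl e) ≠ none

open Classical in
/-- The keys that have been read. -/
noncomputable def RG (h : Hist (VV E G Y Z)) : Finset G := univ.filter fun g => h (.inr g) ≠ none

lemma mem_RE {h : Hist (VV E G Y Z)} {e : E} : e ∈ RE h ↔ h (.inl e) ≠ none := by simp [RE]

lemma mem_RG {h : Hist (VV E G Y Z)} {g : G} : g ∈ RG h ↔ h (.inr g) ≠ none := by simp [RG]

lemma RE_update_inl (h : Hist (VV E G Y Z)) (e : E) (y : VV E G Y Z (.inl e)) :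
    RE (Function.update h (.inl e) (some y)) = insert e (RE h) := by
  ext e'
  rw [mem_insert, mem_RE, mem_RE]
  by_cases he : e' = e
  · subst he; simp
  · rw [Function.update_of_ne (by simpa using he)]; simp [he]

lemma RG_update_inl (h : Hist (VV E G Y Z)) (e : E) (y : VV E G Y Z (.inl e)) :
    RG (Function.update h (.inl e) (some y)) = RG h := by
  ext g
  rw [mem_RG, mem_RG, Function.update_of_ne (by simp)]

lemma RE_update_inr (h : Hist (VV E G Y Z)) (g : G) (z : VV E G Y Z (.inr g)) :
    RE (Function.update h (.inr g) (some z)) = RE h := by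
  ext e
  rw [mem_RE, mem_RE, Function.update_of_ne (by simp)]

lemma RG_update_inr (h : Hist (VV E G Y Z)) (g : G) (z : VV E G Y Z (.inr g)) :
    RG (Function.update h (.inr g) (some z)) = insert g (RG h) := by
  ext g'
  rw [mem_insert, mem_RG, mem_RG]
  by_cases he : g' = g
  · subst he; simp
  · rw [Function.update_of_ne (by simpa using he)]; simp [he]

open Classical in
lemma cnt_succ {I : Type*} [Fintype I] [DecidableEq I] {V : I → Type*}
    (σ : Hist V → Option I) (mk : Hist V → (i : I) → V i → Prop) (T : ℕ) (h0 : Hist V)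
    (ω : (i : I) → V i) : cnt σ mk (T + 1) h0 ω = cnt σ mk T h0 ω +
      (if ∃ i, σ (hst σ ω h0 T) = some i ∧ mk (hst σ ω h0 T) i (ω i) then 1 else 0) := by
  unfold cnt
  rw [Finset.range_add_one, Finset.filter_insert]
  split_ifs with h
  · rw [Finset.card_insert_of_notMem (by simp)]
  · rfl

lemma bud_succ_none {I : Type*} [Fintype I] [DecidableEq I] {V : I → Type*}
    (σ : Hist V → Option I) (p : Hist V → I → ℝ) (T : ℕ) (h0 : Hist V)
    (ω : (i : I) → V i) (hs : σ (hst σ ω h0 T) = none) :
    bud σ p (T + 1) h0 ω = bud σ p T h0 ω := by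
  unfold bud
  rw [Finset.sum_range_succ, hs, add_zero]

lemma bud_succ_some {I : Type*} [Fintype I] [DecidableEq I] {V : I → Type*}
    (σ : Hist V → Option I) (p : Hist V → I → ℝ) (T : ℕ) (h0 : Hist V)
    (ω : (i : I) → V i) {i : I} (hs : σ (hst σ ω h0 T) = some i) :
    bud σ p (T + 1) h0 ω = bud σ p T h0 ω + p (hst σ ω h0 T) i := by
  unfold bud
  rw [Finset.sum_range_succ, hs]

variable {S : ℕ → St → Finset E} {key : E → Y → G} {nx : ℕ → St → (E → Y) × (G → Z) → St}

/-- The empty history. -/
def emp : Hist (VV E G Y Z) := fun _ => none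

lemma ext_emp (ω : (i : E ⊕ G) → VV E G Y Z i) : Ext emp ω := by
  intro i v h; exact absurd h (by simp [emp])

/-- The keys of the elements. -/
def kf (key : E → Y → G) (ω : (i : E ⊕ G) → VV E G Y Z i) (e : E) : G := key e ((toX ω).1 e)

lemma sim_unread (hnx : ∀ t v x x', (∀ e ∈ S t v, x.1 e = x'.1 e ∧
      x.2 (key e (x.1 e)) = x'.2 (key e (x.1 e))) → nx t v x = nx t v x') (n t : ℕ) (v : St) :
    ∀ h i, sim S key nx n t v h = some i → h i = none :=
  fun _ _ hs => (sim_some hnx hs).1

/-- Only needed elements are read. -/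
lemma RE_sub (hnx : ∀ t v x x', (∀ e ∈ S t v, x.1 e = x'.1 e ∧
      x.2 (key e (x.1 e)) = x'.2 (key e (x.1 e))) → nx t v x = nx t v x') (n t : ℕ) (v : St)
    (ω : (i : E ⊕ G) → VV E G Y Z i) (T : ℕ) :
    RE (hst (sim S key nx n t v) ω emp T) ⊆ rd S nx (toX ω) n t v ∧
    RG (hst (sim S key nx n t v) ω emp T) ⊆
      (rd S nx (toX ω) n t v).image (kf key ω) := by
  induction T with
  | zero =>
    constructor
    · intro e he; exact absurd rfl (mem_RE.1 he)
    · intro e he; exact absurd rfl (mem_RG.1 he)
  | succ T ih =>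
    rw [hst_succ]
    have hext := ext_hst (sim_unread hnx n t v) (ext_emp ω) T
    cases hs : sim S key nx n t v (hst (sim S key nx n t v) ω emp T) with
    | none => rw [stp_none hs]; exact ih
    | some i =>
      obtain ⟨_, h2⟩ := sim_some hnx hs
      obtain ⟨h3, h4⟩ := h2 ω hext
      rw [stp_some hs]
      cases i with
      | inl e =>
        rw [RE_update_inl, RG_update_inl]
        refine ⟨?_, ih.2⟩
        rw [Finset.insert_subset_iff]
        exact ⟨h3 e rfl, ih.1⟩
      | inr g =>
        rw [RE_update_inr, RG_update_inr]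
        refine ⟨ih.1, ?_⟩
        rw [Finset.insert_subset_iff]
        refine ⟨?_, ih.2⟩
        obtain ⟨e, he, hg⟩ := h4 g rfl
        rw [mem_image]
        exact ⟨e, he, hg.symm⟩

/-- At the end exactly the needed items have been read. -/
lemma RE_end (hnx : ∀ t v x x', (∀ e ∈ S t v, x.1 e = x'.1 e ∧
      x.2 (key e (x.1 e)) = x'.2 (key e (x.1 e))) → nx t v x = nx t v x') (n t : ℕ) (v : St)
    (ω : (i : E ⊕ G) → VV E G Y Z i) :
    RE (hst (sim S key nx n t v) ω emp (Fintype.card (E ⊕ G))) = rd S nx (toX ω) n t v ∧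
    RG (hst (sim S key nx n t v) ω emp (Fintype.card (E ⊕ G))) =
      (rd S nx (toX ω) n t v).image (kf key ω) := by
  have hσ := sim_unread hnx n t v
  have h1 := exhaust (sim S key nx n t v) hσ ω emp
  have h2 := sim_none hnx (ext_hst hσ (ext_emp ω) _) h1
  obtain ⟨h3, h4⟩ := RE_sub hnx n t v ω (Fintype.card (E ⊕ G))
  constructor
  · apply Finset.Subset.antisymm h3
    intro e he
    rw [mem_RE, (h2 e he).1]; simp
  · apply Finset.Subset.antisymm h4
    intro g hg
    rw [mem_image] at hg
    obtain ⟨e, he, rfl⟩ := hg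
    rw [mem_RG]
    intro hn
    exact absurd ((h2 e he).2.symm.trans hn) (by simp)

/-- Collision marks. -/
def mkA (key : E → Y → G) (h : Hist (VV E G Y Z)) : (i : E ⊕ G) → VV E G Y Z i → Prop
  | .inl e, y => ∃ e' y', h (.inl e') = some y' ∧ key e' y' = key e y
  | .inr _, z => ∃ g' z', h (.inr g') = some z' ∧ (z' : Z) = z

open Classical in
/-- Probabilities of collision marks. -/
noncomputable def prA {C : Type} (c0 : E → C) (h : Hist (VV E G Y Z)) : E ⊕ G → ℝ
  | .inl e => ((RE h).filter fun e' => c0 e' = c0 e).card / Fintype.card Y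
  | .inr _ => (RG h).card / Fintype.card Z

/-- Every element or key that is read without a mark produces a new key or value. -/
lemma inv_coll (n t : ℕ) (v : St) (hnx : ∀ t v x x', (∀ e ∈ S t v, x.1 e = x'.1 e ∧
      x.2 (key e (x.1 e)) = x'.2 (key e (x.1 e))) → nx t v x = nx t v x')
    (ω : (i : E ⊕ G) → VV E G Y Z i) (T : ℕ) :
    (RE (hst (sim S key nx n t v) ω emp T)).card + (RG (hst (sim S key nx n t v) ω emp T)).card ≤
      ((RE (hst (sim S key nx n t v) ω emp T)).image (kf key ω)).card +
      ((RG (hst (sim S key nx n t v) ω emp T)).image (toX ω).2).card +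
      cnt (sim S key nx n t v) (mkA key) T emp ω := by
  have hσ := sim_unread hnx n t v
  induction T with
  | zero =>
    have h1 : RE (emp : Hist (VV E G Y Z)) = ∅ := by
      rw [Finset.eq_empty_iff_forall_notMem]; intro e he; exact (mem_RE.1 he) rfl
    have h2 : RG (emp : Hist (VV E G Y Z)) = ∅ := by
      rw [Finset.eq_empty_iff_forall_notMem]; intro e he; exact (mem_RG.1 he) rfl
    rw [hst_zero, h1, h2]; simp
  | succ T ih =>
    rw [cnt_succ]
    have hext := ext_hst hσ (ext_emp ω) T
    set h := hst (sim S key nx n t v) ω emp T with hh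
    rw [hst_succ, ← hh]
    cases hs : sim S key nx n t v h with
    | none => rw [stp_none hs]; omega
    | some i =>
      rw [stp_some hs]
      have hi := hσ h i hs
      cases i with
      | inl e =>
        rw [RE_update_inl, RG_update_inl]
        have hne : e ∉ RE h := by rw [mem_RE, not_not]; exact hi
        rw [Finset.card_insert_of_notMem hne, Finset.image_insert]
        by_cases hk : kf key ω e ∈ (RE h).image (kf key ω)
        · rw [Finset.insert_eq_of_mem hk, if_pos]
          · omega
          · refine ⟨.inl e, rfl, ?_⟩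
            rw [mem_image] at hk
            obtain ⟨e', he', hk'⟩ := hk
            obtain ⟨y', hy'⟩ := Option.ne_none_iff_exists'.1 (mem_RE.1 he')
            refine ⟨e', y', hy', ?_⟩
            have h5 : (toX ω).1 e' = y' := hext _ _ hy'
            have h6 : key e' ((toX ω).1 e') = key e ((toX ω).1 e) := hk'
            rw [h5] at h6
            exact h6
        · rw [Finset.card_insert_of_notMem hk]
          split_ifs <;> omega
      | inr g =>
        rw [RE_update_inr, RG_update_inr]
        have hne : g ∉ RG h := by rw [mem_RG, not_not]; exact hi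
        rw [Finset.card_insert_of_notMem hne, Finset.image_insert]
        by_cases hk : (toX ω).2 g ∈ (RG h).image (toX ω).2
        · rw [Finset.insert_eq_of_mem hk, if_pos]
          · omega
          · refine ⟨.inr g, rfl, ?_⟩
            rw [mem_image] at hk
            obtain ⟨g', hg', hk'⟩ := hk
            obtain ⟨z', hz'⟩ := Option.ne_none_iff_exists'.1 (mem_RG.1 hg')
            refine ⟨g', z', hz', ?_⟩
            have h5 : (toX ω).2 g' = z' := hext _ _ hz'
            have h6 : (toX ω).2 g' = (toX ω).2 g := hk'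
            rw [h5] at h6
            exact h6
        · rw [Finset.card_insert_of_notMem hk]
          split_ifs <;> omega

lemma card_coll (n t : ℕ) (v : St) (hnx : ∀ t v x x', (∀ e ∈ S t v, x.1 e = x'.1 e ∧
      x.2 (key e (x.1 e)) = x'.2 (key e (x.1 e))) → nx t v x = nx t v x')
    (ω : (i : E ⊕ G) → VV E G Y Z i) :
    (rd S nx (toX ω) n t v).card ≤
      ((rd S nx (toX ω) n t v).image fun e => (toX ω).2 (key e ((toX ω).1 e))).card +
      cnt (sim S key nx n t v) (mkA key) (Fintype.card (E ⊕ G)) emp ω := by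
  have h1 := inv_coll n t v hnx ω (Fintype.card (E ⊕ G))
  obtain ⟨h2, h3⟩ := RE_end hnx n t v ω
  rw [h2, h3, Finset.image_image] at h1
  have h4 : ((toX ω).2 ∘ kf key ω) = fun e => (toX ω).2 (key e ((toX ω).1 e)) := rfl
  rw [h4] at h1
  omega

open Classical in
lemma card_filter_le_card {A B : Type} [Fintype B] (s : Finset A) (f : A → B) (P : B → Prop)
    (h : ∀ y, P y → ∃ a ∈ s, f a = y) : (univ.filter P).card ≤ s.card := by
  have h1 : univ.filter P ⊆ s.image f := by
    intro y hy
    rw [mem_image]
    exact h y (mem_filter.1 hy).2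
  exact (Finset.card_le_card h1).trans Finset.card_image_le

open Classical in
lemma prob_coll {C : Type} {c0 : E → C}
    (hkey : ∀ e y e' y', key e y = key e' y' → c0 e = c0 e' ∧ y = y')
    (h : Hist (VV E G Y Z)) (i : E ⊕ G) :
    ((univ.filter fun v => mkA key h i v).card : ℝ) ≤
      prA c0 h i * Fintype.card (VV E G Y Z i) := by
  have hY : (0 : ℝ) < Fintype.card Y := by exact_mod_cast Fintype.card_pos
  have hZ : (0 : ℝ) < Fintype.card Z := by exact_mod_cast Fintype.card_pos
  cases i with
  | inl e =>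
    have e1 : Fintype.card (VV E G Y Z (.inl e)) = Fintype.card Y := rfl
    rw [e1]
    show _ ≤ (((RE h).filter fun e' => c0 e' = c0 e).card / Fintype.card Y : ℝ) * Fintype.card Y
    rw [div_mul_cancel₀ _ hY.ne']
    rw [Nat.cast_le]
    apply card_filter_le_card ((RE h).filter fun e' => c0 e' = c0 e) (fil h).1
    rintro y ⟨e', y', h2, h3⟩
    obtain ⟨h4, h5⟩ := hkey _ _ _ _ h3
    refine ⟨e', ?_, ?_⟩
    · rw [mem_filter, mem_RE, h2]
      exact ⟨by simp, h4⟩
    · show Option.getD (h (.inl e')) _ = y
      rw [h2]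
      exact h5
  | inr g =>
    have e1 : Fintype.card (VV E G Y Z (.inr g)) = Fintype.card Z := rfl
    rw [e1]
    show _ ≤ ((RG h).card / Fintype.card Z : ℝ) * Fintype.card Z
    rw [div_mul_cancel₀ _ hZ.ne']
    rw [Nat.cast_le]
    apply card_filter_le_card (RG h) (fil h).2
    rintro z ⟨g', z', h2, h3⟩
    refine ⟨g', ?_, ?_⟩
    · rw [mem_RG, h2]; simp
    · show Option.getD (h (.inr g')) _ = z
      rw [h2]
      exact h3

open Classical in
lemma bud_coll {C : Type} {c0 : E → C} (n t : ℕ) (v : St)
    (hnx : ∀ t v x x', (∀ e ∈ S t v, x.1 e = x'.1 e ∧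
      x.2 (key e (x.1 e)) = x'.2 (key e (x.1 e))) → nx t v x = nx t v x')
    (ω : (i : E ⊕ G) → VV E G Y Z i) {A B : ℕ} (hA : (rd S nx (toX ω) n t v).card ≤ A)
    (hB : ∀ c, ((rd S nx (toX ω) n t v).filter fun e => c0 e = c).card ≤ B) (T : ℕ) :
    bud (sim S key nx n t v) (prA c0) T emp ω ≤
      (RE (hst (sim S key nx n t v) ω emp T)).card * ((B : ℝ) / Fintype.card Y) +
      (RG (hst (sim S key nx n t v) ω emp T)).card * ((A : ℝ) / Fintype.card Z) := by
  have hσ := sim_unread hnx n t v
  induction T with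
  | zero =>
    unfold bud
    simp only [Finset.range_zero, Finset.sum_empty]
    positivity
  | succ T ih =>
    have hsub := RE_sub hnx n t v ω T
    unfold bud at ih ⊢
    rw [Finset.sum_range_succ, hst_succ]
    set h := hst (sim S key nx n t v) ω emp T with hh
    cases hs : sim S key nx n t v h with
    | none => rw [stp_none hs]; simpa using ih
    | some i =>
      rw [stp_some hs]
      have hi := hσ h i hs
      cases i with
      | inl e =>
        rw [RE_update_inl, RG_update_inl]
        have hne : e ∉ RE h := by rw [mem_RE, not_not]; exact hi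
        rw [Finset.card_insert_of_notMem hne]
        have h1 : prA c0 h (.inl e) ≤ (B : ℝ) / Fintype.card Y := by
          show (((RE h).filter fun e' => c0 e' = c0 e).card / Fintype.card Y : ℝ) ≤ _
          apply div_le_div_of_nonneg_right _ (by positivity)
          rw [Nat.cast_le]
          exact (Finset.card_le_card (Finset.filter_subset_filter _ hsub.1)).trans (hB (c0 e))
        push_cast
        have h2 : prA c0 h (.inl e) = (match some (Sum.inl e : E ⊕ G) with
          | none => 0
          | some i => prA c0 h i) := rfl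
        linarith
      | inr g =>
        rw [RE_update_inr, RG_update_inr]
        have hne : g ∉ RG h := by rw [mem_RG, not_not]; exact hi
        rw [Finset.card_insert_of_notMem hne]
        have h1 : prA c0 h (.inr g) ≤ (A : ℝ) / Fintype.card Z := by
          show ((RG h).card / Fintype.card Z : ℝ) ≤ _
          apply div_le_div_of_nonneg_right _ (by positivity)
          rw [Nat.cast_le]
          exact (Finset.card_le_card hsub.2).trans (Finset.card_image_le.trans hA)
        push_cast
        have h2 : prA c0 h (.inr g) = (match some (Sum.inr g : E ⊕ G) with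
          | none => 0
          | some i => prA c0 h i) := rfl
        linarith

lemma exp_le : Real.exp (4 / 5) ≤ 5 / 2 := by
  have h1 : Real.exp (4 / 5) ^ 5 ≤ (5 / 2 : ℝ) ^ 5 := by
    rw [← Real.exp_nat_mul]
    have h2 : ((5 : ℕ) : ℝ) * (4 / 5) = (4 : ℕ) * 1 := by norm_num
    rw [h2, Real.exp_nat_mul]
    have h3 := Real.exp_one_lt_d9
    have h4 : Real.exp 1 ^ 4 ≤ (2.7182818286 : ℝ) ^ 4 :=
      pow_le_pow_left₀ (Real.exp_pos _).le h3.le 4
    refine h4.trans ?_
    norm_num
  exact le_of_pow_le_pow_left₀ (by norm_num) (by norm_num) h1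

/-- From the Chernoff bound with `θ = 5` to powers of two. -/
lemma final_two {a c : ℝ} (hc : 0 ≤ c) (x : ℕ)
    (h : a * 5 ^ x ≤ Real.exp ((5 - 1) * (x / 5)) * c) : a * 2 ^ x ≤ c := by
  have h1 : Real.exp ((5 - 1) * (x / 5)) = Real.exp (4 / 5) ^ x := by
    rw [← Real.exp_nat_mul]; congr 1; ring
  rw [h1] at h
  have h2 : Real.exp (4 / 5) ^ x ≤ (5 / 2 : ℝ) ^ x :=
    pow_le_pow_left₀ (Real.exp_pos _).le exp_le x
  have h3 : a * 5 ^ x ≤ (5 / 2 : ℝ) ^ x * c := h.trans (mul_le_mul_of_nonneg_right h2 hc)
  have h4 : (5 : ℝ) ^ x = (5 / 2) ^ x * 2 ^ x := by rw [← mul_pow]; norm_num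
  rw [h4] at h3
  have h5 : (5 / 2 : ℝ) ^ x * (a * 2 ^ x) ≤ (5 / 2 : ℝ) ^ x * c := by linarith
  exact le_of_mul_le_mul_left h5 (by positivity)

open Classical in
/-- Collisions are rare. -/
theorem coll {C : Type} {c0 : E → C}
    (hkey : ∀ e y e' y', key e y = key e' y' → c0 e = c0 e' ∧ y = y')
    (n t : ℕ) (v : St)
    (hnx : ∀ t v x x', (∀ e ∈ S t v, x.1 e = x'.1 e ∧
      x.2 (key e (x.1 e)) = x'.2 (key e (x.1 e))) → nx t v x = nx t v x')
    {A B x0 : ℕ} (h : 5 * A * (B * Fintype.card Z + A * Fintype.card Y) ≤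
      x0 * Fintype.card Y * Fintype.card Z) :
    (univ.filter (fun ω : (i : E ⊕ G) → VV E G Y Z i =>
      (rd S nx (toX ω) n t v).card ≤ A ∧
      (∀ c, ((rd S nx (toX ω) n t v).filter (fun e => c0 e = c)).card ≤ B) ∧
      x0 + ((rd S nx (toX ω) n t v).image
        (fun e => (toX ω).2 (key e ((toX ω).1 e)))).card ≤
        (rd S nx (toX ω) n t v).card)).card * 2 ^ x0 ≤
      Fintype.card ((i : E ⊕ G) → VV E G Y Z i) := by
  have hσ := sim_unread hnx n t v
  have hY : (0 : ℝ) < Fintype.card Y := by exact_mod_cast Fintype.card_pos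
  have hZ : (0 : ℝ) < Fintype.card Z := by exact_mod_cast Fintype.card_pos
  have h1 := tail (sim S key nx n t v) (mkA key) (prA c0) hσ (Fintype.card (E ⊕ G))
    (emp : Hist (VV E G Y Z)) (θ := 5) (by norm_num)
    (fun ω t' i _ _ _ => prob_coll hkey _ i) (x0 / 5 : ℝ) x0
  have hcyl : cyl (emp : Hist (VV E G Y Z)) = univ := by
    ext ω; rw [mem_cyl]; simp [ext_emp]
  rw [hcyl, Finset.card_univ] at h1
  have h2 : (univ.filter (fun ω : (i : E ⊕ G) → VV E G Y Z i =>
      (rd S nx (toX ω) n t v).card ≤ A ∧
      (∀ c, ((rd S nx (toX ω) n t v).filter (fun e => c0 e = c)).card ≤ B) ∧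
      x0 + ((rd S nx (toX ω) n t v).image
        (fun e => (toX ω).2 (key e ((toX ω).1 e)))).card ≤
        (rd S nx (toX ω) n t v).card)) ⊆
      (univ.filter fun ω => bud (sim S key nx n t v) (prA c0) (Fintype.card (E ⊕ G)) emp ω ≤
        (x0 / 5 : ℝ) ∧ x0 ≤ cnt (sim S key nx n t v) (mkA key) (Fintype.card (E ⊕ G)) emp ω) := by
    intro ω hω
    rw [mem_filter] at hω ⊢
    obtain ⟨_, hA, hB, hx⟩ := hω
    refine ⟨mem_univ _, ?_, ?_⟩
    · refine (bud_coll n t v hnx ω hA hB _).trans ?_
      obtain ⟨h3, h4⟩ := RE_end hnx n t v ω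
      rw [h3, h4]
      have h5 : (((rd S nx (toX ω) n t v).image (kf key ω)).card : ℝ) ≤ A := by
        rw [Nat.cast_le]; exact Finset.card_image_le.trans hA
      have h6 : ((rd S nx (toX ω) n t v).card : ℝ) ≤ A := by exact_mod_cast hA
      have h7 : (A : ℝ) * ((B : ℝ) / Fintype.card Y) + A * ((A : ℝ) / Fintype.card Z) ≤
          x0 / 5 := by
        have h8 : (5 * A * (B * Fintype.card Z + A * Fintype.card Y) : ℝ) ≤
          x0 * Fintype.card Y * Fintype.card Z := by exact_mod_cast h
        rw [le_div_iff₀ (by norm_num : (0 : ℝ) < 5)]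
        have h9 : ((A : ℝ) * ((B : ℝ) / Fintype.card Y) + A * ((A : ℝ) / Fintype.card Z)) * 5 =
            (5 * A * (B * Fintype.card Z + A * Fintype.card Y)) /
              (Fintype.card Y * Fintype.card Z) := by
          field_simp
        rw [h9, div_le_iff₀ (by positivity)]
        linarith
      refine le_trans (add_le_add ?_ ?_) h7
      · exact mul_le_mul_of_nonneg_right h6 (by positivity)
      · exact mul_le_mul_of_nonneg_right h5 (by positivity)
    · have h3 := card_coll n t v hnx ω
      omega
  have h3 : (((univ.filter (fun ω : (i : E ⊕ G) → VV E G Y Z i =>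
      (rd S nx (toX ω) n t v).card ≤ A ∧
      (∀ c, ((rd S nx (toX ω) n t v).filter (fun e => c0 e = c)).card ≤ B) ∧
      x0 + ((rd S nx (toX ω) n t v).image
        (fun e => (toX ω).2 (key e ((toX ω).1 e)))).card ≤
        (rd S nx (toX ω) n t v).card)).card : ℕ) : ℝ) * 5 ^ x0 ≤
      Real.exp ((5 - 1) * (x0 / 5)) * Fintype.card ((i : E ⊕ G) → VV E G Y Z i) := by
    refine le_trans (mul_le_mul_of_nonneg_right ?_ (by positivity)) h1
    exact_mod_cast Finset.card_le_card h2
  have h4 := final_two (by positivity) x0 h3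
  exact_mod_cast h4

/-- Marks for the digit `d` in the cell `c`. -/
def mkB {C : Type} (c0 : E → C) (c : C) (d : Y) (_ : Hist (VV E G Y Z)) :
    (i : E ⊕ G) → VV E G Y Z i → Prop
  | .inl e, y => c0 e = c ∧ (y : Y) = d
  | .inr _, _ => False

open Classical in
/-- Probabilities of these marks. -/
noncomputable def prB {C : Type} (c0 : E → C) (c : C) (_ : Hist (VV E G Y Z)) : E ⊕ G → ℝ
  | .inl e => if c0 e = c then 1 / Fintype.card Y else 0
  | .inr _ => 0

open Classical in
lemma prob_cell {C : Type} {c0 : E → C} (c : C) (d : Y)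
    (h : Hist (VV E G Y Z)) (i : E ⊕ G) :
    ((univ.filter fun v => mkB c0 c d h i v).card : ℝ) ≤
      prB c0 c h i * Fintype.card (VV E G Y Z i) := by
  have hY : (0 : ℝ) < Fintype.card Y := by exact_mod_cast Fintype.card_pos
  cases i with
  | inl e =>
    have e1 : Fintype.card (VV E G Y Z (.inl e)) = Fintype.card Y := rfl
    rw [e1]
    show _ ≤ (if c0 e = c then 1 / Fintype.card Y else 0 : ℝ) * Fintype.card Y
    split_ifs with hc
    · rw [div_mul_cancel₀ _ hY.ne']
      have h1 : (univ.filter fun v : VV E G Y Z (.inl e) => mkB c0 c d h (.inl e) v).card ≤ 1 := by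
        refine (card_filter_le_card ({d} : Finset Y) id _ ?_).trans (by simp)
        rintro y ⟨_, hy⟩
        exact ⟨d, mem_singleton_self _, hy.symm⟩
      exact_mod_cast h1
    · rw [zero_mul]
      have h1 : (univ.filter fun v : VV E G Y Z (.inl e) => mkB c0 c d h (.inl e) v) = ∅ := by
        rw [Finset.filter_eq_empty_iff]
        intro y _ hy
        exact hc hy.1
      rw [h1]; simp
  | inr g =>
    show _ ≤ (0 : ℝ) * _
    rw [zero_mul]
    have h1 : (univ.filter fun v : VV E G Y Z (.inr g) => mkB c0 c d h (.inr g) v) = ∅ := by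
      rw [Finset.filter_eq_empty_iff]
      intro y _ hy
      exact hy
    rw [h1]; simp

open Classical in
lemma inv_cell {C : Type} {c0 : E → C} (c : C) (d : Y) (n t : ℕ) (v : St)
    (hnx : ∀ t v x x', (∀ e ∈ S t v, x.1 e = x'.1 e ∧
      x.2 (key e (x.1 e)) = x'.2 (key e (x.1 e))) → nx t v x = nx t v x')
    (ω : (i : E ⊕ G) → VV E G Y Z i) (T : ℕ) :
    ((RE (hst (sim S key nx n t v) ω emp T)).filter
      fun e => c0 e = c ∧ (toX ω).1 e = d).card ≤
      cnt (sim S key nx n t v) (mkB c0 c d) T emp ω ∧
    bud (sim S key nx n t v) (prB c0 c) T emp ω ≤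
      ((RE (hst (sim S key nx n t v) ω emp T)).filter fun e => c0 e = c).card *
        (1 / Fintype.card Y : ℝ) := by
  have hσ := sim_unread hnx n t v
  induction T with
  | zero =>
    have h1 : RE (emp : Hist (VV E G Y Z)) = ∅ := by
      rw [Finset.eq_empty_iff_forall_notMem]; intro e he; exact (mem_RE.1 he) rfl
    unfold bud
    rw [hst_zero, h1]; simp
  | succ T ih =>
    rw [cnt_succ, hst_succ]
    obtain ⟨ih1, ih2⟩ := ih
    cases hs : sim S key nx n t v (hst (sim S key nx n t v) ω emp T) with
    | none =>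
      rw [stp_none hs, bud_succ_none _ _ _ _ _ hs]
      constructor
      · omega
      · exact ih2
    | some i =>
      rw [stp_some hs, bud_succ_some _ _ _ _ _ hs]
      set h := hst (sim S key nx n t v) ω emp T with hh
      have hi := hσ h i hs
      cases i with
      | inl e =>
        rw [RE_update_inl]
        have hne : e ∉ RE h := by rw [mem_RE, not_not]; exact hi
        rw [Finset.filter_insert, Finset.filter_insert]
        have h2 : prB c0 c h (.inl e) = (if c0 e = c then 1 / Fintype.card Y else 0 : ℝ) := rfl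
        rw [h2]
        constructor
        · split_ifs with h3 h4 h4
          · exact (Finset.card_insert_le _ _).trans (by omega)
          · exfalso
            apply h4
            exact ⟨.inl e, rfl, h3⟩
          · omega
          · omega
        · split_ifs with h3
          · rw [Finset.card_insert_of_notMem (by simp [hne])]
            push_cast
            linarith
          · linarith
      | inr g =>
        rw [RE_update_inr]
        have h2 : prB c0 c h (.inr g) = (0 : ℝ) := rfl
        rw [h2]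
        constructor
        · split_ifs <;> omega
        · linarith

open Classical in
/-- Large cells are rare. -/
theorem cell {C : Type} {c0 : E → C} (n t : ℕ) (v : St)
    (hnx : ∀ t v x x', (∀ e ∈ S t v, x.1 e = x'.1 e ∧
      x.2 (key e (x.1 e)) = x'.2 (key e (x.1 e))) → nx t v x = nx t v x')
    {B x0 : ℕ} (h : 5 * B ≤ x0 * Fintype.card Y) (c : C) (d : Y) :
    (univ.filter (fun ω : (i : E ⊕ G) → VV E G Y Z i =>
      ((rd S nx (toX ω) n t v).filter (fun e => c0 e = c)).card ≤ B ∧
      x0 ≤ ((rd S nx (toX ω) n t v).filter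
        (fun e => c0 e = c ∧ (toX ω).1 e = d)).card)).card * 2 ^ x0 ≤
      Fintype.card ((i : E ⊕ G) → VV E G Y Z i) := by
  have hσ := sim_unread hnx n t v
  have hY : (0 : ℝ) < Fintype.card Y := by exact_mod_cast Fintype.card_pos
  have h1 := tail (sim S key nx n t v) (mkB c0 c d) (prB c0 c) hσ (Fintype.card (E ⊕ G))
    (emp : Hist (VV E G Y Z)) (θ := 5) (by norm_num)
    (fun ω t' i _ _ _ => prob_cell c d _ i) (x0 / 5 : ℝ) x0
  have hcyl : cyl (emp : Hist (VV E G Y Z)) = univ := by
    ext ω; rw [mem_cyl]; simp [ext_emp]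
  rw [hcyl, Finset.card_univ] at h1
  have h2 : (univ.filter (fun ω : (i : E ⊕ G) → VV E G Y Z i =>
      ((rd S nx (toX ω) n t v).filter (fun e => c0 e = c)).card ≤ B ∧
      x0 ≤ ((rd S nx (toX ω) n t v).filter
        (fun e => c0 e = c ∧ (toX ω).1 e = d)).card)) ⊆
      (univ.filter fun ω => bud (sim S key nx n t v) (prB c0 c) (Fintype.card (E ⊕ G)) emp ω ≤
        (x0 / 5 : ℝ) ∧ x0 ≤ cnt (sim S key nx n t v) (mkB c0 c d)
          (Fintype.card (E ⊕ G)) emp ω) := by
    intro ω hω
    rw [mem_filter] at hω ⊢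
    obtain ⟨_, hB, hx⟩ := hω
    obtain ⟨h3, h4⟩ := inv_cell (c0 := c0) c d n t v hnx ω (Fintype.card (E ⊕ G))
    rw [(RE_end hnx n t v ω).1] at h3 h4
    refine ⟨mem_univ _, ?_, hx.trans h3⟩
    refine h4.trans ?_
    have h5 : (((rd S nx (toX ω) n t v).filter (fun e => c0 e = c)).card : ℝ) ≤ B := by
      exact_mod_cast hB
    have h6 : (5 * B : ℝ) ≤ x0 * Fintype.card Y := by exact_mod_cast h
    rw [mul_one_div, div_le_div_iff₀ hY (by norm_num)]
    nlinarith
  have h3 : (((univ.filter (fun ω : (i : E ⊕ G) → VV E G Y Z i =>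
      ((rd S nx (toX ω) n t v).filter (fun e => c0 e = c)).card ≤ B ∧
      x0 ≤ ((rd S nx (toX ω) n t v).filter
        (fun e => c0 e = c ∧ (toX ω).1 e = d)).card)).card : ℕ) : ℝ) * 5 ^ x0 ≤
      Real.exp ((5 - 1) * (x0 / 5)) * Fintype.card ((i : E ⊕ G) → VV E G Y Z i) := by
    refine le_trans (mul_le_mul_of_nonneg_right ?_ (by positivity)) h1
    exact_mod_cast Finset.card_le_card h2
  have h4 := final_two (by positivity) x0 h3
  exact_mod_cast h4

end count

section convert

variable {E G Y Z St : Type}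

lemma sta_succ {X : Type} (nx : ℕ → St → X → St) (x : X) (n t : ℕ) (v : St) :
    sta nx x (n + 1) t v = nx (t + n) (sta nx x n t v) x := by
  induction n generalizing t v with
  | zero => rfl
  | succ n ih =>
    show sta nx x (n + 1) (t + 1) (nx t v x) = nx (t + (n + 1)) (sta nx x n (t + 1) (nx t v x)) x
    rw [ih]
    congr 1
    omega

lemma mem_rd {X : Type} [DecidableEq E] {S : ℕ → St → Finset E} {nx : ℕ → St → X → St} {x : X}
    {n t : ℕ} {v : St} {e : E} :
    e ∈ rd S nx x n t v ↔ ∃ i < n, e ∈ S (t + i) (sta nx x i t v) := by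
  induction n generalizing t v with
  | zero => simp [rd]
  | succ n ih =>
    show e ∈ S t v ∪ rd S nx x n (t + 1) (nx t v x) ↔ _
    rw [mem_union, ih]
    constructor
    · rintro (h | ⟨i, hi, h⟩)
      · exact ⟨0, by omega, h⟩
      · refine ⟨i + 1, by omega, ?_⟩
        have e1 : t + (i + 1) = t + 1 + i := by omega
        rw [e1]
        exact h
    · rintro ⟨i, hi, h⟩
      cases i with
      | zero => exact Or.inl h
      | succ i =>
        right
        refine ⟨i, by omega, ?_⟩
        have e1 : t + 1 + i = t + (i + 1) := by omega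
        rw [e1]
        exact h

end convert

end Pool.Agent.Helper17.Proc
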