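import Mathlib
import Pool.Agent.Helper17.Proc

set_option autoImplicit false
set_option linter.unusedSectionVars false
set_option linter.unusedDecidableInType false
set_option linter.unusedFintypeInType false

/-!
# Collisions in light cells
-/

namespace Pool.Agent.Helper17.Proc

open Finset Pool.Agent.Helper17.Read

section light

variable {E G Y Z St C : Type} [Fintype E] [DecidableEq E] [Fintype G] [DecidableEq G] [Fintype Y]
  [DecidableEq Y] [Fintype Z] [DecidableEq Z] [Nonempty Y] [Nonempty Z]

variable {S : ℕ → St → Finset E} {key : E → Y → G} {nx : ℕ → St → (E → Y) × (G → Z) → St}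

open Classical in
/-- Collision marks in light cells. -/
def mkL (key : E → Y → G) (c0 : E → C) (l : ℕ) (h : Hist (VV E G Y Z)) :
    (i : E ⊕ G) → VV E G Y Z i → Prop
  | .inl e, y => ((RE h).filter fun e' => c0 e' = c0 e).card < l ∧ mkA key h (.inl e) y
  | .inr g, z => mkA key h (.inr g) z

/-- Probabilities of these marks. -/
noncomputable def prL (l : ℕ) (h : Hist (VV E G Y Z)) : E ⊕ G → ℝ
  | .inl _ => l / Fintype.card Y
  | .inr _ => (RG h).card / Fintype.card Z

open Classical in
lemma prob_light {c0 : E → C} (l : ℕ)
    (hkey : ∀ e y e' y', key e y = key e' y' → c0 e = c0 e' ∧ y = y')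
    (h : Hist (VV E G Y Z)) (i : E ⊕ G) :
    ((univ.filter fun v => mkL key c0 l h i v).card : ℝ) ≤
      prL l h i * Fintype.card (VV E G Y Z i) := by
  have hY : (0 : ℝ) < Fintype.card Y := by exact_mod_cast Fintype.card_pos
  cases i with
  | inl e =>
    have e1 : Fintype.card (VV E G Y Z (.inl e)) = Fintype.card Y := rfl
    rw [e1]
    show _ ≤ ((l : ℝ) / Fintype.card Y) * Fintype.card Y
    rw [div_mul_cancel₀ _ hY.ne']
    rw [Nat.cast_le]
    by_cases hc : ((RE h).filter fun e' => c0 e' = c0 e).card < l
    · refine le_trans ?_ hc.le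
      apply card_filter_le_card ((RE h).filter fun e' => c0 e' = c0 e) (fil h).1
      rintro y ⟨_, e', y', h2, h3⟩
      obtain ⟨h4, h5⟩ := hkey _ _ _ _ h3
      refine ⟨e', ?_, ?_⟩
      · rw [mem_filter, mem_RE, h2]
        exact ⟨by simp, h4⟩
      · show Option.getD (h (.inl e')) _ = y
        rw [h2]
        exact h5
    · have h1 : (univ.filter fun v : VV E G Y Z (.inl e) => mkL key c0 l h (.inl e) v) = ∅ := by
        rw [Finset.filter_eq_empty_iff]
        intro y _ hy
        exact hc hy.1
      rw [h1]; simp
  | inr g => exact prob_coll hkey h (.inr g)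

open Classical in
/-- Every element of the light set that is read without a mark produces a new key. -/
lemma inv_light {c0 : E → C} (l n t : ℕ) (v : St)
    (hnx : ∀ t v x x', (∀ e ∈ S t v, x.1 e = x'.1 e ∧
      x.2 (key e (x.1 e)) = x'.2 (key e (x.1 e))) → nx t v x = nx t v x')
    (ω : (i : E ⊕ G) → VV E G Y Z i) (L : Finset E)
    (hL : ∀ e ∈ L, ((rd S nx (toX ω) n t v).filter fun e' => c0 e' = c0 e).card ≤ l)
    (T : ℕ) :
    ((RE (hst (sim S key nx n t v) ω emp T)).filter fun e => e ∈ L).card +
      ((RG (hst (sim S key nx n t v) ω emp T)).filter fun g => g ∈ L.image (kf key ω)).card ≤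
      (((RE (hst (sim S key nx n t v) ω emp T)).filter fun e => e ∈ L).image
        (kf key ω)).card +
      (((RG (hst (sim S key nx n t v) ω emp T)).filter fun g => g ∈ L.image (kf key ω)).image
        (toX ω).2).card +
      cnt (sim S key nx n t v) (mkL key c0 l) T emp ω := by
  have hσ := sim_unread hnx n t v
  induction T with
  | zero =>
    have h1 : RE (emp : Hist (VV E G Y Z)) = ∅ := by
      rw [Finset.eq_empty_iff_forall_notMem]; intro e he; exact (mem_RE.1 he) rfl
    have h2 : RG (emp : Hist (VV E G Y Z)) = ∅ := by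
      rw [Finset.eq_empty_iff_forall_notMem]; intro e he; exact (mem_RG.1 he) rfl
    rw [hst_zero, h1, h2]; simp
  | succ T ih =>
    have hsub := RE_sub hnx n t v ω T
    have hsub' := RE_sub hnx n t v ω (T + 1)
    rw [cnt_succ]
    have hext := ext_hst hσ (ext_emp ω) T
    rw [hst_succ] at hsub' ⊢
    set h := hst (sim S key nx n t v) ω emp T with hh
    cases hs : sim S key nx n t v h with
    | none => rw [stp_none hs]; omega
    | some i =>
      rw [stp_some hs] at hsub' ⊢
      have hi := hσ h i hs
      cases i with
      | inl e =>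
        rw [RE_update_inl] at hsub' ⊢
        rw [RG_update_inl]
        have hne : e ∉ RE h := by rw [mem_RE, not_not]; exact hi
        rw [Finset.filter_insert]
        by_cases heL : e ∈ L
        · rw [if_pos heL]
          have hne' : e ∉ (RE h).filter fun e => e ∈ L := fun h0 => hne (mem_filter.1 h0).1
          rw [Finset.card_insert_of_notMem hne', Finset.image_insert]
          by_cases hk : kf key ω e ∈ ((RE h).filter fun e => e ∈ L).image (kf key ω)
          · rw [Finset.insert_eq_of_mem hk, if_pos]
            · omega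
            · refine ⟨.inl e, rfl, ?_, ?_⟩
              · have h1 := hL e heL
                have h2 : insert e ((RE h).filter fun e' => c0 e' = c0 e) ⊆
                    (rd S nx (toX ω) n t v).filter fun e' => c0 e' = c0 e := by
                  rw [Finset.insert_subset_iff]
                  constructor
                  · rw [mem_filter]
                    exact ⟨hsub'.1 (mem_insert_self _ _), rfl⟩
                  · exact Finset.filter_subset_filter _ hsub.1
                have h3 := Finset.card_le_card h2
                rw [Finset.card_insert_of_notMem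
                  (fun h0 => hne (mem_filter.1 h0).1)] at h3
                omega
              · rw [mem_image] at hk
                obtain ⟨e', he', hk'⟩ := hk
                obtain ⟨y', hy'⟩ := Option.ne_none_iff_exists'.1
                  (mem_RE.1 (mem_filter.1 he').1)
                refine ⟨e', y', hy', ?_⟩
                have h5 : (toX ω).1 e' = y' := hext _ _ hy'
                have h6 : key e' ((toX ω).1 e') = key e ((toX ω).1 e) := hk'
                rw [h5] at h6
                exact h6
          · rw [Finset.card_insert_of_notMem hk]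
            split_ifs <;> omega
        · rw [if_neg heL]
          split_ifs <;> omega
      | inr g =>
        rw [RE_update_inr, RG_update_inr]
        have hne : g ∉ RG h := by rw [mem_RG, not_not]; exact hi
        rw [Finset.filter_insert (fun g => g ∈ L.image (kf key ω)) g (RG h)]
        by_cases heL : g ∈ L.image (kf key ω)
        · rw [if_pos heL]
          have hne' : g ∉ (RG h).filter fun g => g ∈ L.image (kf key ω) :=
            fun h0 => hne (mem_filter.1 h0).1
          rw [Finset.card_insert_of_notMem hne', Finset.image_insert]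
          by_cases hk : (toX ω).2 g ∈ ((RG h).filter fun g => g ∈ L.image (kf key ω)).image
              (toX ω).2
          · rw [Finset.insert_eq_of_mem hk, if_pos]
            · omega
            · refine ⟨.inr g, rfl, ?_⟩
              rw [mem_image] at hk
              obtain ⟨g', hg', hk'⟩ := hk
              obtain ⟨z', hz'⟩ := Option.ne_none_iff_exists'.1
                (mem_RG.1 (mem_filter.1 hg').1)
              refine ⟨g', z', hz', ?_⟩
              have h5 : (toX ω).2 g' = z' := hext _ _ hz'
              have h6 : (toX ω).2 g' = (toX ω).2 g := hk'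
              rw [h5] at h6
              exact h6
          · rw [Finset.card_insert_of_notMem hk]
            split_ifs <;> omega
        · rw [if_neg heL]
          split_ifs <;> omega

lemma card_light {c0 : E → C} (l n t : ℕ) (v : St)
    (hnx : ∀ t v x x', (∀ e ∈ S t v, x.1 e = x'.1 e ∧
      x.2 (key e (x.1 e)) = x'.2 (key e (x.1 e))) → nx t v x = nx t v x')
    (ω : (i : E ⊕ G) → VV E G Y Z i) (L : Finset E) (hLR : L ⊆ rd S nx (toX ω) n t v)
    [DecidableEq C]
    (hL : ∀ e ∈ L, ((rd S nx (toX ω) n t v).filter fun e' => c0 e' = c0 e).card ≤ l) :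
    L.card ≤ (L.image fun e => (toX ω).2 (key e ((toX ω).1 e))).card +
      cnt (sim S key nx n t v) (mkL key c0 l) (Fintype.card (E ⊕ G)) emp ω := by
  classical
  have h1 := inv_light (c0 := c0) l n t v hnx ω L
    (fun e he => by convert hL e he) (Fintype.card (E ⊕ G))
  obtain ⟨h2, h3⟩ := RE_end hnx n t v ω
  have h3' : RG (hst (sim S key nx n t v) ω emp (Fintype.card (E ⊕ G))) =
      (rd S nx (toX ω) n t v).image (kf key ω) := h3
  rw [h2, h3'] at h1
  have e1 : (rd S nx (toX ω) n t v).filter (fun e => e ∈ L) = L := by
    ext e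
    rw [mem_filter]
    exact ⟨fun h => h.2, fun h => ⟨hLR h, h⟩⟩
  have e2 : ((rd S nx (toX ω) n t v).image (kf key ω)).filter
      (fun g => g ∈ L.image (kf key ω)) = L.image (kf key ω) := by
    ext g
    rw [mem_filter]
    exact ⟨fun h => h.2, fun h => ⟨Finset.image_subset_image hLR h, h⟩⟩
  rw [e1, e2, Finset.image_image] at h1
  have h4 : ((toX ω).2 ∘ kf key ω) = fun e => (toX ω).2 (key e ((toX ω).1 e)) := rfl
  rw [h4] at h1
  omega

lemma bud_light (l n t : ℕ) (v : St)
    (hnx : ∀ t v x x', (∀ e ∈ S t v, x.1 e = x'.1 e ∧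
      x.2 (key e (x.1 e)) = x'.2 (key e (x.1 e))) → nx t v x = nx t v x')
    (ω : (i : E ⊕ G) → VV E G Y Z i) {A : ℕ} (hA : (rd S nx (toX ω) n t v).card ≤ A) (T : ℕ) :
    bud (sim S key nx n t v) (prL l) T emp ω ≤
      (RE (hst (sim S key nx n t v) ω emp T)).card * ((l : ℝ) / Fintype.card Y) +
      (RG (hst (sim S key nx n t v) ω emp T)).card * ((A : ℝ) / Fintype.card Z) := by
  have hσ := sim_unread hnx n t v
  induction T with
  | zero =>
    unfold bud
    simp only [Finset.range_zero, Finset.sum_empty]
    positivity
  | succ T ih =>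
    have hsub := RE_sub hnx n t v ω T
    rw [hst_succ]
    cases hs : sim S key nx n t v (hst (sim S key nx n t v) ω emp T) with
    | none => rw [stp_none hs, bud_succ_none _ _ _ _ _ hs]; exact ih
    | some i =>
      rw [stp_some hs, bud_succ_some _ _ _ _ _ hs]
      set h := hst (sim S key nx n t v) ω emp T with hh
      have hi := hσ h i hs
      cases i with
      | inl e =>
        rw [RE_update_inl, RG_update_inl]
        have hne : e ∉ RE h := by rw [mem_RE, not_not]; exact hi
        rw [Finset.card_insert_of_notMem hne]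
        have h1 : prL l h (.inl e) = (l : ℝ) / Fintype.card Y := rfl
        push_cast
        linarith
      | inr g =>
        rw [RE_update_inr, RG_update_inr]
        have hne : g ∉ RG h := by rw [mem_RG, not_not]; exact hi
        rw [Finset.card_insert_of_notMem hne]
        have h1 : prL l h (.inr g) ≤ (A : ℝ) / Fintype.card Z := by
          show ((RG h).card / Fintype.card Z : ℝ) ≤ _
          apply div_le_div_of_nonneg_right _ (by positivity)
          rw [Nat.cast_le]
          exact (Finset.card_le_card hsub.2).trans (Finset.card_image_le.trans hA)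
        push_cast
        linarith

open Classical in
/-- Collisions in light cells are rare. -/
theorem light {c0 : E → C}
    (hkey : ∀ e y e' y', key e y = key e' y' → c0 e = c0 e' ∧ y = y')
    (n t : ℕ) (v : St)
    (hnx : ∀ t v x x', (∀ e ∈ S t v, x.1 e = x'.1 e ∧
      x.2 (key e (x.1 e)) = x'.2 (key e (x.1 e))) → nx t v x = nx t v x')
    {A l x0 : ℕ} (h : 5 * A * (l * Fintype.card Z + A * Fintype.card Y) ≤
      x0 * Fintype.card Y * Fintype.card Z)
    (L : (E → Y) × (G → Z) → Finset E)
    (hLR : ∀ x, L x ⊆ rd S nx x n t v)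
    (hL : ∀ x, ∀ e ∈ L x, ((rd S nx x n t v).filter fun e' => c0 e' = c0 e).card ≤ l) :
    (univ.filter (fun ω : (i : E ⊕ G) → VV E G Y Z i =>
      (rd S nx (toX ω) n t v).card ≤ A ∧
      x0 + ((L (toX ω)).image (fun e => (toX ω).2 (key e ((toX ω).1 e)))).card ≤
        (L (toX ω)).card)).card * 2 ^ x0 ≤
      Fintype.card ((i : E ⊕ G) → VV E G Y Z i) := by
  have hσ := sim_unread hnx n t v
  have hY : (0 : ℝ) < Fintype.card Y := by exact_mod_cast Fintype.card_pos
  have hZ : (0 : ℝ) < Fintype.card Z := by exact_mod_cast Fintype.card_pos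
  have h1 := tail (sim S key nx n t v) (mkL key c0 l) (prL l) hσ (Fintype.card (E ⊕ G))
    (emp : Hist (VV E G Y Z)) (θ := 5) (by norm_num)
    (fun ω t' i _ _ _ => prob_light l hkey _ i) (x0 / 5 : ℝ) x0
  have hcyl : cyl (emp : Hist (VV E G Y Z)) = univ := by
    ext ω; rw [mem_cyl]; simp [ext_emp]
  rw [hcyl, Finset.card_univ] at h1
  have h2 : (univ.filter (fun ω : (i : E ⊕ G) → VV E G Y Z i =>
      (rd S nx (toX ω) n t v).card ≤ A ∧
      x0 + ((L (toX ω)).image (fun e => (toX ω).2 (key e ((toX ω).1 e)))).card ≤
        (L (toX ω)).card)) ⊆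
      (univ.filter fun ω => bud (sim S key nx n t v) (prL l) (Fintype.card (E ⊕ G)) emp ω ≤
        (x0 / 5 : ℝ) ∧ x0 ≤ cnt (sim S key nx n t v) (mkL key c0 l)
          (Fintype.card (E ⊕ G)) emp ω) := by
    intro ω hω
    rw [mem_filter] at hω ⊢
    obtain ⟨_, hA, hx⟩ := hω
    refine ⟨mem_univ _, ?_, ?_⟩
    · refine (bud_light l n t v hnx ω hA _).trans ?_
      obtain ⟨h3, h4⟩ := RE_end hnx n t v ω
      rw [h3, h4]
      have h5 : (((rd S nx (toX ω) n t v).image (kf key ω)).card : ℝ) ≤ A := by
        rw [Nat.cast_le]; exact Finset.card_image_le.trans hA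
      have h6 : ((rd S nx (toX ω) n t v).card : ℝ) ≤ A := by exact_mod_cast hA
      have h7 : (A : ℝ) * ((l : ℝ) / Fintype.card Y) + A * ((A : ℝ) / Fintype.card Z) ≤
          x0 / 5 := by
        have h8 : (5 * A * (l * Fintype.card Z + A * Fintype.card Y) : ℝ) ≤
          x0 * Fintype.card Y * Fintype.card Z := by exact_mod_cast h
        rw [le_div_iff₀ (by norm_num : (0 : ℝ) < 5)]
        have h9 : ((A : ℝ) * ((l : ℝ) / Fintype.card Y) + A * ((A : ℝ) / Fintype.card Z)) * 5 =
            (5 * A * (l * Fintype.card Z + A * Fintype.card Y)) /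
              (Fintype.card Y * Fintype.card Z) := by
          field_simp
        rw [h9, div_le_iff₀ (by positivity)]
        linarith
      refine le_trans (add_le_add ?_ ?_) h7
      · exact mul_le_mul_of_nonneg_right h6 (by positivity)
      · exact mul_le_mul_of_nonneg_right h5 (by positivity)
    · have h3 := card_light (c0 := c0) l n t v hnx ω (L (toX ω)) (hLR _) (hL _)
      omega
  have h3 : (((univ.filter (fun ω : (i : E ⊕ G) → VV E G Y Z i =>
      (rd S nx (toX ω) n t v).card ≤ A ∧
      x0 + ((L (toX ω)).image (fun e => (toX ω).2 (key e ((toX ω).1 e)))).card ≤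
        (L (toX ω)).card)).card : ℕ) : ℝ) * 5 ^ x0 ≤
      Real.exp ((5 - 1) * (x0 / 5)) * Fintype.card ((i : E ⊕ G) → VV E G Y Z i) := by
    refine le_trans (mul_le_mul_of_nonneg_right ?_ (by positivity)) h1
    exact_mod_cast Finset.card_le_card h2
  have h4 := final_two (by positivity) x0 h3
  exact_mod_cast h4

end light

end Pool.Agent.Helper17.Proc
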